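import Pool.Agent.P.MP_d5a1e1_nt.Window

/-! The polynomial certificate and the differential inequality. -/

namespace Pool.Agent.P.MP_d5a1e1_nt

open Finset

def gam (a b : ℝ) : ℝ := 731 + 435 * a - 72 * b - 72 * a ^ 2 - 264 * (a * b) + 192 * (a ^ 2 * b)

noncomputable def PP (S x y e : ℝ) : ℝ :=
  gam ((S + e / 2 + x) / 2) ((S - e / 2 - y) / 2) * gam ((S - e / 2 + y) / 2) ((S + e / 2 - x) / 2)

noncomputable def R1 (S x y : ℝ) : ℝ :=
  (-845019 / 2) + (-314313 / 4) * S + ((-1776) * y ^ 2 + (-1776) * x ^ 2 + (-56148) * S ^ 2) +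
    (5796 * (S * y ^ 2) + 5796 * (S * x ^ 2) + (-12888) * S ^ 3) +
    ((-1152) * (x ^ 2 * y ^ 2) + 288 * (S ^ 2 * y ^ 2) + 288 * (S ^ 2 * x ^ 2) + 576 * S ^ 4) +
    ((-576) * (S * (x ^ 2 * y ^ 2)) + 576 * (S ^ 3 * y ^ 2) + 576 * (S ^ 3 * x ^ 2) +
      (-576) * S ^ 5)

noncomputable def R1d (S x y : ℝ) : ℝ :=
  (PP S x y 0 + PP S (-x) y 0 + PP S x (-y) 0 + PP S (-x) (-y) 0) / 4 - 1913741 / 2

noncomputable def R2 (S x : ℝ) : ℝ := (-315 / 2) + (-120) * S + ((-24) * S ^ 2 + (-72) * x ^ 2)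

noncomputable def R2d (S x : ℝ) : ℝ :=
  (gam ((S + x) / 2) ((S + x) / 2) + gam ((S - x) / 2) ((S - x) / 2)) / 2 - 2041 / 2 +
    528 * ((1 / 2 - (S + x) / 2) * (1 / 2 - (S - x) / 2))

lemma dp1 : DP R1 R1d := by
  intro σ x y u
  have h := poly_exp_deriv (-845019 / 2) ((-314313 / 4) * σ)
    ((-1776) * y ^ 2 + (-1776) * x ^ 2 + (-56148) * σ ^ 2)
    (5796 * (σ * y ^ 2) + 5796 * (σ * x ^ 2) + (-12888) * σ ^ 3)
    ((-1152) * (x ^ 2 * y ^ 2) + 288 * (σ ^ 2 * y ^ 2) + 288 * (σ ^ 2 * x ^ 2) + 576 * σ ^ 4)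
    ((-576) * (σ * (x ^ 2 * y ^ 2)) + 576 * (σ ^ 3 * y ^ 2) + 576 * (σ ^ 3 * x ^ 2) +
      (-576) * σ ^ 5) σ u
  refine (h.congr_of_eventuallyEq (Filter.Eventually.of_forall fun v => ?_)).congr_deriv ?_
  · simp only [R1]; ring
  · congr 1
    simp only [R1d, PP, gam]; ring

lemma dp2 : DP (fun S x _ => R2 S x) (fun S x _ => R2d S x) := by
  intro σ x y u
  have h := poly_exp_deriv (-315 / 2) ((-120) * σ) ((-24) * σ ^ 2 + (-72) * x ^ 2) 0 0 0 σ u
  refine (h.congr_of_eventuallyEq (Filter.Eventually.of_forall fun v => ?_)).congr_deriv ?_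
  · simp only [R2]; ring
  · congr 1
    simp only [R2d, gam]; ring

lemma tame_gam {f g : ℝ → ℝ → ℝ → ℝ → ℝ} (hf : Tame f) (hg : Tame g) :
    Tame (fun S x y e => gam (f S x y e) (g S x y e)) :=
  ((((((Tame.const 731).add ((Tame.const 435).mul hf)).sub ((Tame.const 72).mul hg)).sub
    ((Tame.const 72).mul (hf.pow 2))).sub ((Tame.const 264).mul (hf.mul hg))).add
    ((Tame.const 192).mul ((hf.pow 2).mul hg)))

lemma tame_PP : Tame PP :=
  (tame_gam (((Tame.v1.add (Tame.v4.div_const 2)).add Tame.v2).div_const 2)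
    (((Tame.v1.sub (Tame.v4.div_const 2)).sub Tame.v3).div_const 2)).mul
  (tame_gam (((Tame.v1.sub (Tame.v4.div_const 2)).add Tame.v3).div_const 2)
    (((Tame.v1.add (Tame.v4.div_const 2)).sub Tame.v2).div_const 2))

lemma tame_R1 : Tame (fun S x y _ => R1 S x y) := by
  unfold R1
  have s := Tame.v1
  have x := Tame.v2
  have y := Tame.v3
  have c := Tame.const
  exact (((((c _).add ((c _).mul s)).add ((((c _).mul (y.pow 2)).add ((c _).mul (x.pow 2))).add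
    ((c _).mul (s.pow 2)))).add ((((c _).mul (s.mul (y.pow 2))).add
    ((c _).mul (s.mul (x.pow 2)))).add ((c _).mul (s.pow 3)))).add
    (((((c _).mul ((x.pow 2).mul (y.pow 2))).add ((c _).mul ((s.pow 2).mul (y.pow 2)))).add
    ((c _).mul ((s.pow 2).mul (x.pow 2)))).add ((c _).mul (s.pow 4)))).add
    (((((c _).mul (s.mul ((x.pow 2).mul (y.pow 2)))).add ((c _).mul ((s.pow 3).mul (y.pow 2)))).add
    ((c _).mul ((s.pow 3).mul (x.pow 2)))).add ((c _).mul (s.pow 5)))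

lemma tame_R2 : Tame (fun S x _ _ => R2 S x) := by
  unfold R2
  have s := Tame.v1
  have x := Tame.v2
  have c := Tame.const
  exact ((c _).add ((c _).mul s)).add (((c _).mul (s.pow 2)).add ((c _).mul (x.pow 2)))

lemma tame_la : Tame (fun S _ _ _ => 1 - S) := (Tame.const 1).sub Tame.v1

noncomputable def mom (A : Finset ℕ) (u : ℝ) (f : ℝ → ℝ) : ℝ :=
  ∑ a ∈ A, f (u * a) * Real.exp (-(u * a))

lemma Psi_prod (A : Finset ℕ) (u : ℝ) (f h : ℝ → ℝ) :
    Psi A u (fun S x => f ((S + x) / 2) * h ((S - x) / 2)) = mom A u f * mom A u h := by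
  unfold Psi mom
  rw [sum_mul_sum]
  refine sum_congr rfl fun a _ => sum_congr rfl fun c _ => ?_
  have e1 : (u * ((a : ℝ) + c) + u * ((a : ℝ) - c)) / 2 = u * a := by ring
  have e2 : (u * ((a : ℝ) + c) - u * ((a : ℝ) - c)) / 2 = u * c := by ring
  have e3 : Real.exp (-(u * ((a : ℝ) + c))) = Real.exp (-(u * a)) * Real.exp (-(u * c)) := by
    rw [← Real.exp_add]; congr 1; ring
  simp only []
  rw [e1, e2, e3]; ring

lemma Psi_one (A : Finset ℕ) (u : ℝ) : Psi A u (fun _ _ => 1) = mom A u (fun _ => 1) ^ 2 := by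
  have := Psi_prod A u (fun _ => 1) (fun _ => 1)
  simpa [sq] using this

lemma Psi_la (A : Finset ℕ) (u : ℝ) :
    Psi A u (fun S _ => 1 - S) = 2 * (mom A u (fun _ => 1) * mom A u (fun t => 1 / 2 - t)) := by
  have h1 := Psi_prod A u (fun _ => 1) (fun t => 1 / 2 - t)
  have h2 := Psi_prod A u (fun t => 1 / 2 - t) (fun _ => 1)
  have h3 := Psi_lin A u (fun S x => 1 * (1 / 2 - (S - x) / 2))
    (fun S x => (1 / 2 - (S + x) / 2) * 1) 1 1
  have h4 : (fun S x : ℝ => 1 * (1 * (1 / 2 - (S - x) / 2)) + 1 * ((1 / 2 - (S + x) / 2) * 1)) =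
      fun S _ => 1 - S := by
    funext S x; ring
  rw [h4, h1, h2] at h3
  rw [h3]; ring

lemma Psi_R2d (A : Finset ℕ) (u : ℝ) :
    Psi A u R2d = mom A u (fun t => gam t t) * mom A u (fun _ => 1) -
      2041 / 2 * mom A u (fun _ => 1) ^ 2 + 528 * mom A u (fun t => 1 / 2 - t) ^ 2 := by
  have h1 := Psi_prod A u (fun t => gam t t) (fun _ => 1)
  have h2 := Psi_prod A u (fun _ => 1) (fun t => gam t t)
  have h3 := Psi_prod A u (fun t => 1 / 2 - t) (fun t => 1 / 2 - t)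
  have h4 := Psi_one A u
  have k1 := Psi_lin A u (fun S x => gam ((S + x) / 2) ((S + x) / 2) * 1)
    (fun S x => 1 * gam ((S - x) / 2) ((S - x) / 2)) (1 / 2) (1 / 2)
  have k2 := Psi_lin A u (fun _ _ => 1)
    (fun S x => (1 / 2 - (S + x) / 2) * (1 / 2 - (S - x) / 2)) (-(2041 / 2)) 528
  have k3 := Psi_lin A u (fun S x => 1 / 2 * (gam ((S + x) / 2) ((S + x) / 2) * 1) +
      1 / 2 * (1 * gam ((S - x) / 2) ((S - x) / 2)))
    (fun S x => -(2041 / 2) * 1 + 528 * ((1 / 2 - (S + x) / 2) * (1 / 2 - (S - x) / 2))) 1 1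
  have e : R2d = fun S x => 1 * (1 / 2 * (gam ((S + x) / 2) ((S + x) / 2) * 1) +
      1 / 2 * (1 * gam ((S - x) / 2) ((S - x) / 2))) +
      1 * (-(2041 / 2) * 1 + 528 * ((1 / 2 - (S + x) / 2) * (1 / 2 - (S - x) / 2))) := by
    funext S x; simp only [R2d]; ring
  rw [e, k3, k1, k2, h1, h2, h3, h4]; ring

lemma sum_diag (A : Finset ℕ) (f : ℕ × ℕ → ℝ) :
    ∑ p ∈ A ×ˢ A, dl (df p) * f p = ∑ a ∈ A, f (a, a) := by
  rw [sum_product]
  refine sum_congr rfl fun a ha => ?_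
  rw [sum_eq_single a]
  · simp [df, dl_zero]
  · intro b _ hb
    rw [dl_ne, zero_mul]
    simp only [df]
    omega
  · intro h; exact absurd ha h

lemma wt_diag (u : ℝ) (a : ℕ) : wt u (a, a) = Real.exp (-(u * a)) := by
  unfold wt; congr 1; simp

/-- lower bound coming from the zero difference -/
lemma diff_lower (K : ℕ) (hK : 0 < K) (θ : ℝ) (hθ : 0 < θ) (A : Finset ℕ) (u : ℝ) :
    2041 * (mom A u (fun t => gam t t) * mom A u (fun _ => 1)) -
      (1 + θ) * (2041 / 2) ^ 2 * mom A u (fun _ => 1) ^ 2 - Phi dl A u PP / (θ * K) ≤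
      Phi (bet K) A u PP := by
  have hK' : (0 : ℝ) < K := by exact_mod_cast hK
  set F : ℕ × ℕ → ℝ := fun p => gam (u * p.1) (u * p.2) * wt u p with hF
  have e1 : ∀ β, form β (A ×ˢ A) df F F = Phi β A u PP := fun β => form_df β A u gam
  have h := form_bet_test K (A ×ˢ A) df F (fun p => dl (df p) * (2041 / 2 * wt u p))
    (fun p _ hp => by rw [dl_ne hp, zero_mul])
  have h2 := fej_pt_sq_le K hK (A ×ˢ A) df F
  rw [e1] at h h2
  have e2 : ∑ p ∈ A ×ˢ A, dl (df p) * (2041 / 2 * wt u p) = 2041 / 2 * mom A u (fun _ => 1) := by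
    rw [sum_diag, mom, mul_sum]
    refine sum_congr rfl fun a _ => ?_
    rw [wt_diag, one_mul]
  have e3 : ∑ p ∈ A ×ˢ A, bet K (df p) * F p =
      mom A u (fun t => gam t t) - ∑ p ∈ A ×ˢ A, fej K (df p) * F p := by
    unfold bet
    simp only [sub_mul, sum_sub_distrib]
    rw [sum_diag, mom]
    congr 1
    refine sum_congr rfl fun a _ => ?_
    simp only [hF, wt_diag]
  rw [e2, e3] at h
  set c := ∑ p ∈ A ×ˢ A, fej K (df p) * F p
  set φ := mom A u (fun _ => 1)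
  have h3 : c ^ 2 / θ ≤ Phi dl A u PP / (θ * K) := by
    rw [mul_comm, ← div_div]
    exact div_le_div_of_nonneg_right h2 hθ.le
  have h4 : 2041 * φ * c ≤ θ * (2041 / 2) ^ 2 * φ ^ 2 + c ^ 2 / θ := by
    have : 0 ≤ (θ * (2041 / 2) * φ - c) ^ 2 / θ := by positivity
    have e : (θ * (2041 / 2) * φ - c) ^ 2 / θ =
        θ * (2041 / 2) ^ 2 * φ ^ 2 + c ^ 2 / θ - 2041 * φ * c := by
      field_simp; ring
    linarith
  nlinarith

noncomputable def GG (K : ℕ) (A : Finset ℕ) (u : ℝ) : ℝ :=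
  u * Phi (bet K) A u (fun S x y _ => R1 S x y) - 2041 * (u * Psi A u R2)

noncomputable def GGd (K : ℕ) (A : Finset ℕ) (u : ℝ) : ℝ :=
  Phi (bet K) A u (fun S x y _ => R1d S x y) - 2041 * Psi A u R2d

lemma GG_deriv (K : ℕ) (A : Finset ℕ) (u : ℝ) : HasDerivAt (GG K A) (GGd K A u) u :=
  (Phi_deriv dp1 (bet K) A u).sub ((Psi_deriv dp2 A u).const_mul 2041)

lemma Phi_R1d (K : ℕ) (A : Finset ℕ) (u : ℝ) :
    Phi (bet K) A u (fun S x y _ => R1d S x y) =
      Phi (bet K) A u (fun S x y _ => PP S x y 0) -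
        1913741 / 2 * (En A u - form (fej K) (A ×ˢ A) sm (wt u) (wt u)) := by
  have h1 := Phi_sym (bet K) A u (fun S x y _ => PP S x y 0)
  have h2 := Phi_lin (bet K) A u (fun S x y _ =>
    (PP S x y 0 + PP S (-x) y 0 + PP S x (-y) 0 + PP S (-x) (-y) 0) / 4) (fun _ _ _ _ => 1)
    1 (-(1913741 / 2))
  have e : (fun S x y (_ : ℝ) => R1d S x y) = fun S x y _ =>
      1 * ((PP S x y 0 + PP S (-x) y 0 + PP S x (-y) 0 + PP S (-x) (-y) 0) / 4) +
        -(1913741 / 2) * 1 := by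
    funext S x y e; simp only [R1d]; ring
  rw [e, h2, ← h1, ← form_sm, form_bet, En]; ring

/-- the differential inequality with explicit error terms -/
lemma key_ineq : ∃ C : ℝ, 0 ≤ C ∧ ∀ (K : ℕ), 0 < K → ∀ θ : ℝ, 0 < θ → ∀ (A : Finset ℕ) (u : ℝ),
    0 < u → u ≤ 1 →
    |GG K A u| ≤ C * (u * En A (u / 2)) ∧ |la A u| ≤ C * (u * En A (u / 2)) ∧
    (3 / 10 ≤ mu A u →
      (2041 / 2) ^ 2 * mu A u + 1913741 / 2 * (mu A u ^ 2 - u * En A u)
        - θ * (2041 / 2) ^ 2 * mu A u - C * (1 / (θ * K) + u * K) * (u * En A (u / 2))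
        - 1913741 / 2 * (2 * (u * K) + 30 * u) * (mu A u ^ 2 + la A u ^ 2) ≤ u * GGd K A u) := by
  obtain ⟨C1, hC1, h1⟩ := Phi_bound tame_PP
  obtain ⟨C2, hC2, h2⟩ := Phi_bound tame_R1
  obtain ⟨C3, hC3, h3⟩ := Psi_bound (Q := R2) tame_R2
  obtain ⟨C4, hC4, h4⟩ := Psi_bound (Q := fun S _ => 1 - S) tame_la
  refine ⟨C1 + C2 + 2041 * C3 + C4, by positivity, fun K hK θ hθ A u hu hu1 => ?_⟩
  have hK' : (0 : ℝ) < K := by exact_mod_cast hK
  have hE := En_nonneg A (u / 2)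
  have huE := mul_nonneg hu.le hE
  obtain ⟨-, a2, a3⟩ := h1 K A u hu.le
  obtain ⟨b1, -, -⟩ := h2 K A u hu.le
  have c1 := h3 A u hu.le
  have d1 := h4 A u hu.le
  refine ⟨?_, ?_, fun hmu => ?_⟩
  · unfold GG
    refine (abs_sub _ _).trans ?_
    rw [abs_mul, abs_mul, abs_mul, abs_of_pos hu, abs_of_pos (by norm_num : (0 : ℝ) < 2041)]
    have := mul_le_mul_of_nonneg_left b1 hu.le
    have := mul_le_mul_of_nonneg_left c1 hu.le
    nlinarith [mul_nonneg hC1 huE, mul_nonneg hC4 huE]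
  · unfold la
    rw [abs_mul, abs_of_pos hu]
    have := mul_le_mul_of_nonneg_left d1 hu.le
    nlinarith [mul_nonneg hC1 huE, mul_nonneg hC2 huE, mul_nonneg hC3 huE]
  · have k1 := diff_lower K hK θ hθ A u
    have k2 := fej_lower K hK A hu hu1
    have k3 : mu A u = u * mom A u (fun _ => 1) ^ 2 := by rw [mu, Psi_one]
    have k4 : la A u ^ 2 = 4 * mu A u * (u * mom A u (fun t => 1 / 2 - t) ^ 2) := by
      rw [k3, la, Psi_la]; ring
    have k5 : Phi dl A u PP / (θ * K) ≤ C1 * En A (u / 2) / (θ * K) :=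
      div_le_div_of_nonneg_right (le_trans (le_abs_self _) a2) (by positivity)
    have k6 := (abs_le.1 a3).2
    unfold GGd
    rw [Phi_R1d, Psi_R2d]
    set φ := mom A u (fun _ => 1)
    set ζ := mom A u (fun t => 1 / 2 - t)
    set X := mom A u (fun t => gam t t)
    set Fj := form (fej K) (A ×ˢ A) sm (wt u) (wt u)
    set P0 := Phi (bet K) A u (fun S x y _ => PP S x y 0)
    set E2 := En A (u / 2)
    set m := mu A u
    set l := la A u
    have k7 : 2041 * (X * φ) - (1 + θ) * (2041 / 2) ^ 2 * φ ^ 2 -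
        C1 * (1 / (θ * K) + u * K) * E2 ≤ P0 := by
      have : C1 * (1 / (θ * K) + u * K) * E2 = C1 * E2 / (θ * K) + C1 * (u * K) * E2 := by ring
      linarith
    have k8 := mul_le_mul_of_nonneg_left k7 hu.le
    have k9 : 0 ≤ u * ζ ^ 2 := by positivity
    have k10 : 2041 * 528 * (u * ζ ^ 2) ≤ 1913741 / 2 * l ^ 2 := by
      rw [k4]; nlinarith
    have k11 : C1 * (1 / (θ * K) + u * K) * (u * E2) ≤
        (C1 + C2 + 2041 * C3 + C4) * (1 / (θ * K) + u * K) * (u * E2) := by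
      have : 0 ≤ (1 / (θ * K) + u * K) * (u * E2) := by positivity
      nlinarith [mul_nonneg hC2 this, mul_nonneg hC3 this, mul_nonneg hC4 this]
    have k12 : u * (P0 - 1913741 / 2 * (En A u - Fj) -
        2041 * (X * φ - 2041 / 2 * φ ^ 2 + 528 * ζ ^ 2)) =
        u * P0 - 1913741 / 2 * (u * En A u) + 1913741 / 2 * (u * Fj) - 2041 * (u * (X * φ)) +
          2 * (2041 / 2) ^ 2 * m - 2041 * 528 * (u * ζ ^ 2) := by
      rw [k3]; ring
    have k13 : u * (2041 * (X * φ) - (1 + θ) * (2041 / 2) ^ 2 * φ ^ 2 -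
        C1 * (1 / (θ * K) + u * K) * E2) = 2041 * (u * (X * φ)) - (1 + θ) * (2041 / 2) ^ 2 * m -
        C1 * (1 / (θ * K) + u * K) * (u * E2) := by
      rw [k3]; ring
    rw [k12]
    rw [k13] at k8
    linarith

end Pool.Agent.P.MP_d5a1e1_nt
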