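import Mathlib

/-! Finite averaging over product spaces, a union bound and a compactness step. -/

namespace Pool.Agent.P.MP_d5a1e1_nt.Thin

open Finset Function

section
variable {ι : Type} [DecidableEq ι] {Ω : ι → Type} [∀ s, Fintype (Ω s)] [∀ s, Nonempty (Ω s)]

lemma exists_closed (F : Finset ι) :
    ∃ G : Finset (∀ s, Ω s), G.Nonempty ∧ ∀ ω ∈ G, ∀ s ∈ F, ∀ v, update ω s v ∈ G := by
  classical
  induction F using Finset.induction_on with
  | empty => exact ⟨{fun s => Classical.arbitrary _}, by simp, by simp⟩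
  | insert s F hs ih =>
    obtain ⟨G, ⟨ω₀, h₀⟩, hG⟩ := ih
    refine ⟨(G ×ˢ (univ : Finset (Ω s))).image (fun z => update z.1 s z.2), ?_, ?_⟩
    · exact ⟨_, mem_image.2 ⟨(ω₀, Classical.arbitrary _), by simp [h₀], rfl⟩⟩
    · intro ω hω t ht v
      obtain ⟨⟨ω', v'⟩, hz, rfl⟩ := mem_image.1 hω
      have hω' : ω' ∈ G := (mem_product.1 hz).1
      rcases mem_insert.1 ht with rfl | ht
      · exact mem_image.2 ⟨(ω', v), by simp [hω'], by simp⟩
      · have hts : s ≠ t := by rintro rfl; exact hs ht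
        refine mem_image.2 ⟨(update ω' t v, v'), by simp [hG ω' hω' t ht v], ?_⟩
        exact (update_comm hts v' v ω').symm

omit [∀ s, Nonempty (Ω s)] in
lemma sum_update (G : Finset (∀ s, Ω s)) (s : ι) (hG : ∀ ω ∈ G, ∀ v, update ω s v ∈ G)
    (f : (∀ s, Ω s) → ℝ) :
    ∑ ω ∈ G, ∑ v, f (update ω s v) = (∑ ω ∈ G, f ω) * Fintype.card (Ω s) := by
  classical
  rw [← sum_product', sum_mul]
  have : ∀ ω ∈ G, f ω * Fintype.card (Ω s) = ∑ _v : Ω s, f ω := by
    intro ω _; simp [mul_comm]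
  rw [sum_congr rfl this, ← sum_product']
  refine sum_bij' (fun z _ => (update z.1 s z.2, z.1 s)) (fun z _ => (update z.1 s z.2, z.1 s))
    ?_ ?_ ?_ ?_ ?_
  · intro z hz; simp [hG z.1 (mem_product.1 hz).1]
  · intro z hz; simp [hG z.1 (mem_product.1 hz).1]
  · intro z _; simp
  · intro z _; simp
  · intro z _; rfl

lemma sum_prod_le (G : Finset (∀ s, Ω s)) (M : Finset ι)
    (hG : ∀ ω ∈ G, ∀ s ∈ M, ∀ v, update ω s v ∈ G)
    (f : ι → (∀ s, Ω s) → ℝ) (b : ι → ℝ) (hf0 : ∀ s ω, 0 ≤ f s ω) (hb0 : ∀ s, 0 ≤ b s)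
    (hinv : ∀ s ∈ M, ∀ t ∈ M, t ≠ s → ∀ ω v, f s (update ω t v) = f s ω)
    (hb : ∀ s ∈ M, ∀ ω, ∑ v, f s (update ω s v) ≤ b s * Fintype.card (Ω s)) :
    ∑ ω ∈ G, ∏ s ∈ M, f s ω ≤ (∏ s ∈ M, b s) * G.card := by
  induction M using Finset.induction_on with
  | empty => simp
  | insert s M hs ih =>
    have ih' := ih (fun ω hω t ht => hG ω hω t (mem_insert_of_mem ht))
      (fun a ha t ht => hinv a (mem_insert_of_mem ha) t (mem_insert_of_mem ht))
      (fun a ha => hb a (mem_insert_of_mem ha))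
    have hc : (0 : ℝ) < Fintype.card (Ω s) := by exact_mod_cast Fintype.card_pos
    have h1 := sum_update G s (fun ω hω => hG ω hω s (mem_insert_self _ _))
      (fun ω => ∏ t ∈ insert s M, f t ω)
    refine le_of_mul_le_mul_right ?_ hc
    rw [← h1]
    have h2 : ∀ ω ∈ G, ∑ v, ∏ t ∈ insert s M, f t (update ω s v) ≤
        b s * Fintype.card (Ω s) * ∏ t ∈ M, f t ω := by
      intro ω _
      have : ∀ v, ∏ t ∈ insert s M, f t (update ω s v) =
          f s (update ω s v) * ∏ t ∈ M, f t ω := by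
        intro v
        rw [prod_insert hs]
        congr 1
        refine prod_congr rfl fun t ht => ?_
        exact hinv t (mem_insert_of_mem ht) s (mem_insert_self _ _)
          (by rintro rfl; exact hs ht) ω v
      simp only [this]
      rw [← sum_mul]
      exact mul_le_mul_of_nonneg_right (hb s (mem_insert_self _ _) ω)
        (prod_nonneg fun t _ => hf0 t ω)
    refine (sum_le_sum h2).trans ?_
    rw [← mul_sum, prod_insert hs]
    have h3 := mul_le_mul_of_nonneg_left ih' (mul_nonneg (hb0 s) hc.le)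
    nlinarith [h3]

theorem exists_all_lt {κ : Type} (cs : ℕ → Finset κ) (M : ℕ → Finset ι)
    (f : ℕ → κ → ι → (∀ s, Ω s) → ℝ) (b : ℕ → ι → ℝ) (θ : ℕ → ℝ)
    (hf0 : ∀ i c s ω, 0 ≤ f i c s ω) (hb0 : ∀ i s, 0 ≤ b i s) (hθ : ∀ i, 0 < θ i)
    (hinv : ∀ i c, ∀ s ∈ M i, ∀ t ∈ M i, t ≠ s → ∀ ω v, f i c s (update ω t v) = f i c s ω)
    (hb : ∀ i, ∀ c ∈ cs i, ∀ s ∈ M i, ∀ ω,
      ∑ v, f i c s (update ω s v) ≤ b i s * Fintype.card (Ω s))
    (hdep : ∀ i, ∃ S : Finset ι, ∀ c, ∀ s ∈ M i, ∀ ω ω' : (∀ s, Ω s),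
      (∀ t ∈ S, ω t = ω' t) → f i c s ω = f i c s ω')
    (hsum : ∀ i, (cs i).card * ∏ s ∈ M i, b i s ≤ θ i / 2 ^ (i + 1)) :
    ∃ ω : (∀ s, Ω s), ∀ i, ∀ c ∈ cs i, ∏ s ∈ M i, f i c s ω < θ i := by
  classical
  have fin : ∀ I : ℕ, ∃ ω : (∀ s, Ω s), ∀ i < I, ∀ c ∈ cs i, ∏ s ∈ M i, f i c s ω < θ i := by
    intro I
    obtain ⟨G, hne, hG⟩ := exists_closed (Ω := Ω) ((range I).biUnion M)
    have hGc : (0 : ℝ) < G.card := by exact_mod_cast hne.card_pos
    have key : ∑ ω ∈ G, ∑ i ∈ range I, ∑ c ∈ cs i, (∏ s ∈ M i, f i c s ω) / θ i <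
        ∑ _ω ∈ G, (1 : ℝ) := by
      rw [sum_comm]
      have h1 : ∀ i ∈ range I, ∑ ω ∈ G, ∑ c ∈ cs i, (∏ s ∈ M i, f i c s ω) / θ i ≤
          G.card * (1 / 2 ^ (i + 1)) := by
        intro i hi
        rw [sum_comm]
        have h2 : ∀ c ∈ cs i, ∑ ω ∈ G, (∏ s ∈ M i, f i c s ω) / θ i ≤
            (∏ s ∈ M i, b i s) * G.card / θ i := by
          intro c hc
          rw [← sum_div]
          refine div_le_div_of_nonneg_right ?_ (hθ i).le
          exact sum_prod_le G (M i)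
            (fun ω hω s hs => hG ω hω s (mem_biUnion.2 ⟨i, hi, hs⟩)) (f i c) (b i)
            (hf0 i c) (hb0 i) (hinv i c) (hb i c hc)
        refine (sum_le_sum h2).trans ?_
        rw [sum_const, nsmul_eq_mul, ← mul_div_assoc, div_le_iff₀ (hθ i)]
        have h3 := mul_le_mul_of_nonneg_right (hsum i) hGc.le
        calc _ = (cs i).card * (∏ s ∈ M i, b i s) * G.card := by ring
          _ ≤ θ i / 2 ^ (i + 1) * G.card := h3
          _ = _ := by ring
      refine (sum_le_sum h1).trans_lt ?_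
      rw [← mul_sum]
      have h4 : ∀ I : ℕ, ∑ i ∈ range I, (1 : ℝ) / 2 ^ (i + 1) = 1 - 1 / 2 ^ I := by
        intro I
        induction I with
        | zero => simp
        | succ I ih => rw [sum_range_succ, ih]; field_simp; ring
      rw [h4]
      have : (0 : ℝ) < 1 / 2 ^ I := by positivity
      simp only [sum_const, nsmul_eq_mul]
      nlinarith
    obtain ⟨ω, _, hω⟩ := exists_lt_of_sum_lt key
    refine ⟨ω, fun i hi c hc => ?_⟩
    have nn : ∀ i c, 0 ≤ (∏ s ∈ M i, f i c s ω) / θ i := fun i c =>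
      div_nonneg (prod_nonneg fun s _ => hf0 i c s ω) (hθ i).le
    have h5 : (∏ s ∈ M i, f i c s ω) / θ i ≤
        ∑ i ∈ range I, ∑ c ∈ cs i, (∏ s ∈ M i, f i c s ω) / θ i :=
      (single_le_sum (f := fun c => (∏ s ∈ M i, f i c s ω) / θ i) (fun c _ => nn i c) hc).trans
        (single_le_sum (f := fun i => ∑ c ∈ cs i, (∏ s ∈ M i, f i c s ω) / θ i)
          (fun i _ => sum_nonneg fun c _ => nn i c) (mem_range.2 hi))
    exact (div_lt_one (hθ i)).1 (h5.trans_lt hω)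
  choose W hW using fin
  have lim : ∀ s, ∃ v : Ω s, {I | W I s = v} ∈ Filter.hyperfilter ℕ := by
    intro s
    obtain ⟨v, hv⟩ := Ultrafilter.eq_pure_of_finite ((Filter.hyperfilter ℕ).map (fun I => W I s))
    refine ⟨v, ?_⟩
    have : ({v} : Set (Ω s)) ∈ (Filter.hyperfilter ℕ).map (fun I => W I s) := by
      rw [hv]; simp
    exact this
  choose ω hω using lim
  refine ⟨ω, fun i c hc => ?_⟩
  obtain ⟨S, hS⟩ := hdep i
  have h1 : ∀ᶠ I in (Filter.hyperfilter ℕ : Filter ℕ), ∀ t ∈ S, W I t = ω t :=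
    (Filter.eventually_all_finset S).2 fun t _ => hω t
  have h2 : ∀ᶠ I in (Filter.hyperfilter ℕ : Filter ℕ), i < I := by
    refine Filter.hyperfilter_le_cofinite ?_
    rw [Nat.cofinite_eq_atTop]
    exact Filter.eventually_gt_atTop i
  obtain ⟨I, hI1, hI2⟩ := (h1.and h2).exists
  have : ∏ s ∈ M i, f i c s ω = ∏ s ∈ M i, f i c s (W I) :=
    prod_congr rfl fun s hs => (hS c s hs _ _ hI1).symm
  rw [this]
  exact hW I i hI2 c hc

end

end Pool.Agent.P.MP_d5a1e1_nt.Thin
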