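import Pool.Agent.P.MP_d5a1e1_nt.Dioph
import Pool.Agent.P.MP_d5a1e1_nt.Prob

/-! Choice of the random shifts. -/

namespace Pool.Agent.P.MP_d5a1e1_nt.Thin

open Finset Function

/-- the size conditions on the blocks -/
def Nice (par : ℕ → Par) : Prop := ∀ i, 3 ≤ i →
    (2 ^ (2 * i - ee i) < (par i).p ∧ (par i).p ≤ 2 ^ (2 * i - ee i + 1)) ∧
    (2 ^ (2 * i + ee i) < (par i).q ∧ (par i).q ≤ 2 ^ (2 * i + ee i + 1)) ∧
    ∀ j < i, 3 ≤ j → Far (par i).D (par j).D (2 ^ (2 * i + ee i + 2)) (2 ^ (4 * j))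
      (2 ^ (2 * i + ee i + 6 + (i - j)))

lemma pw_le {a b : ℕ} (h : a ≤ b) : 2 ^ a ≤ 2 ^ b := Nat.pow_le_pow_right (by norm_num) h

lemma Nice.pq {par : ℕ → Par} (h : Nice par) {i : ℕ} (hi : 3 ≤ i) :
    2 ^ (4 * i) ≤ (par i).p * (par i).q ∧ (par i).p * (par i).q ≤ 2 ^ (4 * i + 2) := by
  obtain ⟨⟨a1, a2⟩, ⟨a3, a4⟩, -⟩ := h i hi
  have := ee_le i
  have b1 := Nat.mul_le_mul a1.le a3.le
  have b2 := Nat.mul_le_mul a2 a4
  rw [← pow_add] at b1 b2
  exact ⟨(pw_le (by omega)).trans b1, b2.trans (pw_le (by omega))⟩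

lemma Nice.D {par : ℕ → Par} (h : Nice par) {i : ℕ} (hi : 3 ≤ i) :
    2 ^ (4 * i) ≤ (par i).D ∧ (par i).D ≤ 2 ^ (4 * i + 3) := by
  obtain ⟨a1, a2⟩ := h.pq hi
  have := (par i).hD
  have := (par i).hD2
  refine ⟨by omega, ?_⟩
  rw [pow_succ]; omega

lemma Nice.N {par : ℕ → Par} (h : Nice par) {i : ℕ} (hi : 3 ≤ i) :
    2 ^ (8 * i) ≤ (par i).p * (par i).q * (par i).D ∧
      (par i).p * (par i).q * (par i).D ≤ 2 ^ (8 * i + 5) := by
  obtain ⟨a1, a2⟩ := h.pq hi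
  obtain ⟨a3, a4⟩ := h.D hi
  have b1 := Nat.mul_le_mul a1 a3
  have b2 := Nat.mul_le_mul a2 a4
  rw [← pow_add] at b1 b2
  exact ⟨(pw_le (by omega)).trans b1, b2.trans (pw_le (by omega))⟩

def mid (I i : ℕ) : Finset ℕ := (range i).filter (fun j => I ≤ j ∧ 4 * i < 8 * j + 22)

def mm (i j : ℕ) : ℕ := 2 ^ 25 * (2 ^ (ee i + ee j + 11) / 2 ^ (i - j) + 1)

def TT (i : ℕ) : ℕ := 2 ^ 41 * i / ee i + 1

lemma ee_mono {i j : ℕ} (h : j ≤ i) : ee j ≤ ee i := Nat.log_mono_right h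

lemma Nice.cand {par : ℕ → Par} (h : Nice par) {i j : ℕ} (hj : 3 ≤ j) (hji : j < i)
    (ω : ZMod (par i).p → ZMod (par i).q × ZMod (par i).q) (n : ℕ) (l : Lay)
    (X : ZMod (par j).p) : (Cand (par i) (par j) ω n l X).card ≤ mm i j := by
  obtain ⟨-, ⟨a3, a4⟩, hf⟩ := h i (by omega)
  obtain ⟨-, ⟨-, b4⟩, -⟩ := h j hj
  obtain ⟨c1, -⟩ := h.D (i := i) (by omega)
  obtain ⟨-, c2⟩ := h.D hj
  have he := ee_mono hji.le
  have d1 := Nat.mul_le_mul b4 c2
  have d2 := Nat.mul_le_mul a3.le c1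
  rw [← pow_add] at d1 d2
  refine cand_card _ _ ω n l X _ _ _ _ (hf j hji hj) ?_ (d1.trans ((pw_le (by omega)).trans d2)) ?_
  · have : 2 ^ (2 * j + ee j + 1) ≤ 2 ^ (2 * i + ee i + 1) := pw_le (by omega)
    rw [pow_succ]; omega
  · intro c hc
    refine Nat.succ_le_succ ((Nat.le_div_iff_mul_le (by positivity)).2 ?_)
    obtain ⟨u, rfl⟩ : ∃ u, i = j + u := ⟨i - j, by omega⟩
    rw [Nat.add_sub_cancel_left] at hc ⊢
    have e1 : c * 2 ^ (4 * j) * 2 ^ (4 * (j + u)) ≤ c * 2 ^ (4 * j) * (par (j + u)).D :=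
      Nat.mul_le_mul_left _ c1
    have e2 := Nat.mul_le_mul_left (2 ^ (2 * (j + u) + ee (j + u) + 6 + u))
      (Nat.mul_le_mul_left 2 d1)
    have e3 := e1.trans (hc.trans e2)
    refine Nat.le_of_mul_le_mul_right (c := 2 ^ (8 * j + 3 * u)) ?_ (by positivity)
    calc _ = c * 2 ^ (4 * j) * 2 ^ (4 * (j + u)) := by ring
      _ ≤ _ := e3
      _ = _ := by ring

lemma ee_spec {i : ℕ} (hi : 16 ^ 24 ≤ i) : 24 ≤ ee i ∧ 16 ^ ee i ≤ i ∧ i < 16 ^ (ee i + 1) := by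
  have h0 : i ≠ 0 := by
    have : 0 < 16 ^ 24 := by positivity
    omega
  exact ⟨Nat.le_log_of_pow_le (by norm_num) hi, Nat.pow_log_le_self _ h0,
    Nat.lt_pow_succ_log_self (by norm_num) _⟩

lemma grow (e : ℕ) (he : 24 ≤ e) : (e + 2) * 2 ^ 38 ≤ 4 ^ e := by
  induction e, he using Nat.le_induction with
  | base => norm_num
  | succ e he ih =>
    rw [pow_succ 4 e]
    have : (e + 1 + 2) * 2 ^ 38 ≤ (e + 2) * 4 * 2 ^ 38 := Nat.mul_le_mul_right _ (by omega)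
    calc _ ≤ _ := this
      _ = (e + 2) * 2 ^ 38 * 4 := by ring
      _ ≤ _ := Nat.mul_le_mul_right _ ih

lemma term_one (p q E E' μ Δ : ℕ) (h1 : p * E' ^ 2 ≤ 2 * q) (h2 : E ≤ 2 * E') (h3 : 1 ≤ E')
    (h4 : μ * Δ ≤ E * E' * 2 ^ 11) :
    p * (E * (2 ^ 25 * (μ + 1))) * Δ ≤ q * (2 ^ 27 * Δ + 2 ^ 38 * E) := by
  have a1 : p * E ≤ 4 * q := by
    have b1 : E' ≤ E' ^ 2 := by rw [sq]; exact Nat.le_mul_of_pos_left _ h3
    have b2 : p * E ≤ p * (2 * E' ^ 2) := Nat.mul_le_mul_left _ (by omega)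
    have b3 : p * (2 * E' ^ 2) = 2 * (p * E' ^ 2) := by ring
    omega
  have a2 : p * E * (μ * Δ) ≤ 2 ^ 13 * (q * E) := by
    calc p * E * (μ * Δ) ≤ p * (2 * E') * (E * E' * 2 ^ 11) :=
          Nat.mul_le_mul (Nat.mul_le_mul_left _ h2) h4
      _ = 2 ^ 12 * E * (p * E' ^ 2) := by ring
      _ ≤ 2 ^ 12 * E * (2 * q) := Nat.mul_le_mul_left _ h1
      _ = _ := by ring
  calc _ = 2 ^ 25 * (p * E) * Δ + 2 ^ 25 * (p * E * (μ * Δ)) := by ring
    _ ≤ 2 ^ 25 * (4 * q) * Δ + 2 ^ 25 * (2 ^ 13 * (q * E)) :=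
        Nat.add_le_add (Nat.mul_le_mul_right _ (Nat.mul_le_mul_left _ a1))
          (Nat.mul_le_mul_left _ a2)
    _ = _ := by ring

/-- excess of the moment generating function of one class -/
noncomputable def ex (par : ℕ → Par) (i j : ℕ) : ℝ :=
  (2 : ℝ) ^ ee i * mm i j / (par j).q + ((2 : ℝ) ^ ee i) ^ mm i j * (mm i j : ℝ) ^ 2 / (par j).q ^ 2

lemma ex_nonneg (par : ℕ → Par) (i j : ℕ) : 0 ≤ ex par i j := by unfold ex; positivity

lemma Nice.ex_le {par : ℕ → Par} (h : Nice par) {I i j : ℕ} (hI : 16 ^ 24 ≤ I) (hj : j ∈ mid I i) :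
    (par j).p * ex par i j ≤ 2 ^ 27 + 1 + 2 ^ 38 * 2 ^ ee i * (2 ^ j / 2 ^ i) := by
  obtain ⟨h1, h2, h3⟩ := mem_filter.1 hj
  have hji := mem_range.1 h1
  have hbig : 100 ≤ j := le_trans (by norm_num) (hI.trans h2)
  obtain ⟨e1, e2, -⟩ := ee_spec (i := i) (by omega)
  obtain ⟨⟨-, a2⟩, ⟨a3, -⟩, -⟩ := h j (by omega)
  have he := ee_mono hji.le
  have hej := ee_le j
  have he' : ee i ≤ ee j + 1 := by
    have : ee i ≤ ee (j * 16) := ee_mono (by omega)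
    rwa [ee, ee, Nat.log_mul_base (by norm_num) (by omega)] at this
  have hq : (0 : ℝ) < (par j).q := by exact_mod_cast (par j).q_pos
  have t1 : (par j).p * (2 ^ ee i * mm i j) * 2 ^ (i - j) ≤
      (par j).q * (2 ^ 27 * 2 ^ (i - j) + 2 ^ 38 * 2 ^ ee i) := by
    refine term_one _ _ _ (2 ^ ee j) _ _ ?_ ?_ (Nat.one_le_two_pow) ?_
    · have b1 := Nat.mul_le_mul_right ((2 ^ ee j) ^ 2) a2
      rw [← pow_mul, ← pow_add] at b1
      have b2 : 2 ^ (2 * j - ee j + 1 + ee j * 2) ≤ 2 ^ (2 * j + ee j + 1) := pw_le (by omega)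
      rw [pow_succ] at b2
      rw [← pow_mul]
      omega
    · rw [← pow_succ']; exact pw_le he'
    · rw [← pow_add, ← pow_add]; exact Nat.div_mul_le_self _ _
  have t2 : (2 ^ ee i) ^ mm i j * mm i j ^ 2 ≤ (par j).q := by
    have b1 : mm i j ≤ 2 ^ (2 * ee i + 37) := by
      unfold mm
      have c1 : 2 ^ (ee i + ee j + 11) / 2 ^ (i - j) ≤ 2 ^ (2 * ee i + 11) :=
        (Nat.div_le_self _ _).trans (pw_le (by omega))
      have c2 : 1 ≤ 2 ^ (2 * ee i + 11) := Nat.one_le_two_pow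
      calc _ ≤ 2 ^ 25 * (2 ^ (2 * ee i + 11) + 2 ^ (2 * ee i + 11)) :=
            Nat.mul_le_mul_left _ (by omega)
        _ = _ := by ring
    have b2 : mm i j ^ 2 ≤ (2 ^ mm i j) ^ 2 := Nat.pow_le_pow_left Nat.lt_two_pow_self.le _
    have b3 : (ee i + 2) * mm i j * 2 ≤ i := by
      calc _ ≤ (ee i + 2) * 2 ^ (2 * ee i + 37) * 2 :=
            Nat.mul_le_mul_right _ (Nat.mul_le_mul_left _ b1)
        _ = (ee i + 2) * 2 ^ 38 * 4 ^ ee i := by rw [pow_add, pow_mul]; ring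
        _ ≤ 4 ^ ee i * 4 ^ ee i := Nat.mul_le_mul_right _ (grow _ e1)
        _ = 16 ^ ee i := (mul_pow 4 4 _).symm
        _ ≤ i := e2
    calc _ ≤ (2 ^ ee i) ^ mm i j * (2 ^ mm i j) ^ 2 := Nat.mul_le_mul_left _ b2
      _ = 2 ^ ((ee i + 2) * mm i j) := by rw [← pow_mul, ← pow_mul, ← pow_add]; ring_nf
      _ ≤ 2 ^ (2 * j + ee j) := pw_le (by omega)
      _ ≤ _ := a3.le
  have t3 : (par j).p ≤ (par j).q := a2.trans ((pw_le (by omega)).trans a3.le)
  have r1 : ((par j).p : ℝ) * (2 ^ ee i * mm i j) * 2 ^ (i - j) ≤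
      (par j).q * (2 ^ 27 * 2 ^ (i - j) + 2 ^ 38 * 2 ^ ee i) := by exact_mod_cast t1
  have r2 : ((2 : ℝ) ^ ee i) ^ mm i j * (mm i j : ℝ) ^ 2 ≤ (par j).q := by exact_mod_cast t2
  have r3 : ((par j).p : ℝ) ≤ (par j).q := by exact_mod_cast t3
  have r4 : (2 : ℝ) ^ j / 2 ^ i = 1 / 2 ^ (i - j) := by
    obtain ⟨u, rfl⟩ : ∃ u, i = j + u := ⟨i - j, by omega⟩
    rw [Nat.add_sub_cancel_left, pow_add]; field_simp
  have r5 : ((par j).p : ℝ) * (2 ^ ee i * mm i j / (par j).q) ≤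
      2 ^ 27 + 2 ^ 38 * 2 ^ ee i * (1 / 2 ^ (i - j)) := by
    have : (0 : ℝ) < 2 ^ (i - j) := by positivity
    rw [← mul_div_assoc, div_le_iff₀ hq]
    refine le_of_mul_le_mul_right (r1.trans (le_of_eq ?_)) this
    field_simp
  have r6 : ((par j).p : ℝ) * (((2 : ℝ) ^ ee i) ^ mm i j * (mm i j : ℝ) ^ 2 / (par j).q ^ 2) ≤ 1 := by
    rw [← mul_div_assoc, div_le_one (by positivity), sq ((par j).q : ℝ)]
    exact mul_le_mul r3 r2 (by positivity) hq.le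
  unfold ex
  rw [mul_add, r4]
  linarith

lemma Nice.prod_le {par : ℕ → Par} (h : Nice par) {I i : ℕ} (hI : 16 ^ 24 ≤ I) (hi : I ≤ i) :
    ∏ s ∈ (mid I i).sigma (fun j => (univ : Finset (ZMod (par j).p))), (1 + ex par i s.1) ≤
      2 ^ (2 ^ 40 * i) := by
  have h1 : ∏ s ∈ (mid I i).sigma (fun j => (univ : Finset (ZMod (par j).p))), (1 + ex par i s.1) ≤
      Real.exp (∑ s ∈ (mid I i).sigma (fun j => (univ : Finset (ZMod (par j).p))),
        ex par i s.1) := by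
    rw [Real.exp_sum]
    refine prod_le_prod (fun s _ => by have := ex_nonneg par i s.1; linarith) fun s _ => ?_
    rw [add_comm]; exact Real.add_one_le_exp _
  have h2 : ∑ s ∈ (mid I i).sigma (fun j => (univ : Finset (ZMod (par j).p))), ex par i s.1 ≤
      ((2 ^ 39 * i : ℕ) : ℝ) := by
    rw [sum_sigma]
    have a1 : ∀ j ∈ mid I i, ∑ _X : ZMod (par j).p, ex par i j ≤
        2 ^ 27 + 1 + 2 ^ 38 * 2 ^ ee i * (2 ^ j / 2 ^ i) := by
      intro j hj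
      rw [sum_const, card_univ, ZMod.card, nsmul_eq_mul]
      exact h.ex_le hI hj
    refine (sum_le_sum a1).trans ?_
    refine (sum_le_sum_of_subset_of_nonneg (filter_subset _ _)
      (fun j _ _ => by positivity)).trans ?_
    rw [sum_add_distrib, ← mul_sum, ← sum_div, sum_const, card_range, nsmul_eq_mul]
    have a2 : (∑ j ∈ range i, (2 : ℝ) ^ j) / 2 ^ i ≤ 1 := by
      rw [div_le_one (by positivity)]
      exact_mod_cast (two_pow_sum i).le
    obtain ⟨-, e2, -⟩ := ee_spec (hI.trans hi)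
    have a3 : (2 : ℝ) ^ ee i ≤ i := by
      have : 2 ^ ee i ≤ 16 ^ ee i := Nat.pow_le_pow_left (by norm_num) _
      exact_mod_cast this.trans e2
    have a4 : (2 : ℝ) ^ 38 * 2 ^ ee i * ((∑ j ∈ range i, (2 : ℝ) ^ j) / 2 ^ i) ≤ 2 ^ 38 * i := by
      calc _ ≤ (2 : ℝ) ^ 38 * 2 ^ ee i * 1 := mul_le_mul_of_nonneg_left a2 (by positivity)
        _ ≤ _ := by rw [mul_one]; exact mul_le_mul_of_nonneg_left a3 (by positivity)
    have a5 : (0 : ℝ) ≤ i := by positivity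
    push_cast
    linarith
  refine h1.trans ((Real.exp_le_exp.2 h2).trans ?_)
  rw [← Real.exp_one_pow, show 2 ^ 40 * i = 2 * (2 ^ 39 * i) by ring, pow_mul 2 2]
  refine pow_le_pow_left₀ (Real.exp_pos 1).le ?_ _
  have := Real.exp_one_lt_d9
  linarith

theorem Nice.exists_shift {par : ℕ → Par} (h : Nice par) {I : ℕ} (hI : 16 ^ 24 ≤ I) :
    ∃ ω : (∀ s : (Σ j, ZMod (par j).p), ZMod (par s.1).q × ZMod (par s.1).q),
      ∀ i, I ≤ i → ∀ n < 2 ^ (8 * i + 23), ∀ l : Lay,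
        ∑ s ∈ (mid I i).sigma (fun j => (univ : Finset (ZMod (par j).p))),
          hit (par s.1) (Cand (par i) (par s.1) (fun Y => ω ⟨i, Y⟩) n l s.2) l.2.1 (ω s) <
            TT i := by
  classical
  refine Exists.imp (fun ω hω => ?_) (exists_all_lt (ι := Σ j, ZMod (par j).p)
    (Ω := fun s => ZMod (par s.1).q × ZMod (par s.1).q) (κ := ℕ × Lay)
    (fun i => if I ≤ i then range (2 ^ (8 * i + 23)) ×ˢ univ else ∅)
    (fun i => (mid I i).sigma (fun j => (univ : Finset (ZMod (par j).p))))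
    (fun i c s ω => ((2 : ℝ) ^ ee i) ^
      hit (par s.1) (Cand (par i) (par s.1) (fun Y => ω ⟨i, Y⟩) c.1 c.2 s.2) c.2.2.1 (ω s))
    (fun i s => 1 + ex par i s.1) (fun i => ((2 : ℝ) ^ ee i) ^ TT i)
    (fun i c s ω => by positivity) (fun i s => by have := ex_nonneg par i s.1; linarith)
    (fun i => by positivity) ?_ ?_ ?_ ?_)
  · intro i hi n hn l
    have h1 := hω i (n, l) (by simp [hi, hn])
    rw [prod_pow_eq_pow_sum] at h1
    obtain ⟨e1, -, -⟩ := ee_spec (hI.trans hi)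
    exact (pow_lt_pow_iff_right₀ (one_lt_pow₀ (by norm_num) (by omega))).1 h1
  · intro i c s _ t ht hts ω v
    have ht1 : t.1 < i := mem_range.1 (mem_filter.1 (mem_sigma.1 ht).1).1
    have e1 : (fun Y => update ω t v ⟨i, Y⟩) = fun Y => ω ⟨i, Y⟩ := by
      funext Y
      refine update_of_ne ?_ _ _
      rintro rfl
      exact lt_irrefl _ ht1
    simp only [e1, update_of_ne hts.symm]
  · intro i c _ s hs ω
    obtain ⟨h1, h2, -⟩ := mem_filter.1 (mem_sigma.1 hs).1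
    have hs1 : s.1 < i := mem_range.1 h1
    have e1 : ∀ v, (fun Y => update ω s v ⟨i, Y⟩) = fun Y => ω ⟨i, Y⟩ := by
      intro v
      funext Y
      refine update_of_ne ?_ _ _
      rintro rfl
      exact lt_irrefl _ hs1
    simp only [e1, update_self]
    have h3 : 3 ≤ s.1 := le_trans (by norm_num) (hI.trans h2)
    refine (mgf (par s.1) _ _ _ (h.cand h3 hs1 _ c.1 c.2 s.2) _
      (one_le_pow₀ (by norm_num))).trans (le_of_eq ?_)
    have hq : (0 : ℝ) < (par s.1).q := by exact_mod_cast (par s.1).q_pos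
    rw [Fintype.card_prod, ZMod.card]
    unfold ex
    push_cast
    field_simp
    ring
  · intro i
    refine ⟨(mid I i).sigma (fun j => (univ : Finset (ZMod (par j).p))) ∪
      univ.image (fun Y : ZMod (par i).p => (⟨i, Y⟩ : Σ j, ZMod (par j).p)), ?_⟩
    intro c s hs ω ω' hh
    have e1 : (fun Y => ω ⟨i, Y⟩) = fun Y => ω' ⟨i, Y⟩ := by
      funext Y
      exact hh _ (mem_union_right _ (mem_image.2 ⟨Y, mem_univ _, rfl⟩))
    simp only [e1, hh s (mem_union_left _ hs)]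
  · intro i
    by_cases hi : I ≤ i
    swap
    · simp only [hi, if_false, card_empty, Nat.cast_zero, zero_mul]; positivity
    simp only [hi, if_true]
    obtain ⟨e1, -, -⟩ := ee_spec (hI.trans hi)
    have hi1 : 1 ≤ i := le_trans (by norm_num) (hI.trans hi)
    have a1 : ((range (2 ^ (8 * i + 23)) ×ˢ (univ : Finset Lay)).card : ℝ) ≤ 2 ^ (8 * i + 47) := by
      rw [card_product, card_range, card_univ]
      have := Nat.mul_le_mul_left (2 ^ (8 * i + 23)) card_lay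
      rw [← pow_add] at this
      exact_mod_cast this
    have a2 := h.prod_le hI hi
    have a3 : 2 ^ 41 * i ≤ ee i * TT i := by
      unfold TT
      have := Nat.lt_mul_div_succ (2 ^ 41 * i) (show 0 < ee i by omega)
      exact this.le
    refine (mul_le_mul a1 a2 (prod_nonneg fun s _ => by
      have := ex_nonneg par i s.1; linarith) (by positivity)).trans ?_
    rw [le_div_iff₀ (by positivity), ← pow_mul, ← pow_add, ← pow_add]
    exact pow_le_pow_right₀ (by norm_num) (by omega)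

end Pool.Agent.P.MP_d5a1e1_nt.Thin
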