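import Mathlib

/-! Three parabolas over a prime field whose pairwise sums cover the plane. -/

namespace Pool.Agent.P.MP_d5a1e1_nt.Thin

open Finset

lemma exists_nonsq (p : ℕ) [hp : Fact p.Prime] (h7 : 7 < p) :
    ∃ z : ZMod p, ¬ IsSquare z ∧ z + 1 ≠ 0 ∧ z + 3 ≠ 0 ∧ 3 * z + 1 ≠ 0 := by
  have h2 : ringChar (ZMod p) ≠ 2 := by rw [ZMod.ringChar_zmod_n]; omega
  obtain ⟨ν, hν⟩ := FiniteField.exists_nonsquare h2
  have hν0 : ν ≠ 0 := by rintro rfl; exact hν ⟨0, by simp⟩
  have small : ∀ m : ℕ, 0 < m → m ≤ 7 → (m : ZMod p) ≠ 0 := by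
    intro m h0 h1 h
    rw [ZMod.natCast_eq_zero_iff] at h
    have := Nat.le_of_dvd h0 h
    omega
  have n2 : (2 : ZMod p) ≠ 0 := by exact_mod_cast small 2 (by norm_num) (by norm_num)
  have n3 : (3 : ZMod p) ≠ 0 := by exact_mod_cast small 3 (by norm_num) (by norm_num)
  have n5 : (5 : ZMod p) ≠ 0 := by exact_mod_cast small 5 (by norm_num) (by norm_num)
  have n7 : (7 : ZMod p) ≠ 0 := by exact_mod_cast small 7 (by norm_num) (by norm_num)
  have hsq : ∀ c : ZMod p, c ≠ 0 → ¬ IsSquare (c ^ 2 * ν) := by
    rintro c hc ⟨r, hr⟩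
    exact hν ⟨r / c, by field_simp; linear_combination hr⟩
  by_contra hcon
  push Not at hcon
  have key : ∀ c : ZMod p, c ≠ 0 →
      c ^ 2 * ν = -1 ∨ c ^ 2 * ν = -3 ∨ 3 * (c ^ 2 * ν) = -1 := by
    intro c hc
    by_cases a1 : c ^ 2 * ν + 1 = 0
    · left; linear_combination a1
    by_cases a2 : c ^ 2 * ν + 3 = 0
    · right; left; linear_combination a2
    · right; right; linear_combination hcon _ (hsq c hc) a1 a2
  have n4 : (4 : ZMod p) ≠ 0 := by
    have : (4 : ZMod p) = 2 * 2 := by norm_num
    rw [this]; exact mul_ne_zero n2 n2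
  have d : ∀ c : ZMod p, c ≠ 0 → c * ν ≠ 0 := fun c hc => mul_ne_zero hc hν0
  have d3 := d 3 n3
  have d5 := d 5 n5
  have d7 := d 7 n7
  have d8 := d (2 * 4) (mul_ne_zero n2 n4)
  have d12 := d (3 * 4) (mul_ne_zero n3 n4)
  have d15 := d (3 * 5) (mul_ne_zero n3 n5)
  have e3 := mul_ne_zero n3 d3
  have e5 := mul_ne_zero n3 d5
  have e7 := mul_ne_zero n3 d7
  have e8 := mul_ne_zero n3 d8
  have e12 := mul_ne_zero n3 d12
  have e15 := mul_ne_zero n3 d15
  rcases key 1 one_ne_zero with a | a | a <;> rcases key 2 n2 with b | b | b <;>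
    rcases key 3 n3 with c | c | c <;> rcases key 4 n4 with e | e | e <;>
    first
      | exact d3 (by linear_combination b - a)
      | exact d8 (by linear_combination c - a)
      | exact d15 (by linear_combination e - a)
      | exact d5 (by linear_combination c - b)
      | exact d12 (by linear_combination e - b)
      | exact d7 (by linear_combination e - c)
      | exact e3 (by linear_combination b - a)
      | exact e8 (by linear_combination c - a)
      | exact e15 (by linear_combination e - a)
      | exact e5 (by linear_combination c - b)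
      | exact e12 (by linear_combination e - b)
      | exact e7 (by linear_combination e - c)

/-- the three coefficients -/
def Good {p : ℕ} (k : Fin 3 → ZMod p) : Prop :=
  (∀ a b, k a + k b ≠ 0) ∧
    ∀ u v : ZMod p, ∃ a b : Fin 3, ∃ x y : ZMod p, x + y = u ∧ k a * x ^ 2 + k b * y ^ 2 = v

lemma exists_good_coeff (p : ℕ) (hp : p.Prime) (h7 : 7 < p) :
    ∃ k : Fin 3 → ZMod p, Good k := by
  haveI := Fact.mk hp
  obtain ⟨z, hz, h1, h3, h4⟩ := exists_nonsq p h7
  have hz0 : z ≠ 0 := by rintro rfl; exact hz ⟨0, by simp⟩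
  have n2 : (2 : ZMod p) ≠ 0 := by
    intro h
    have : ((2 : ℕ) : ZMod p) = 0 := by exact_mod_cast h
    rw [ZMod.natCast_eq_zero_iff] at this
    have := Nat.le_of_dvd (by norm_num) this
    omega
  refine ⟨![z + 1, z * (z + 1), 2 * z], ?_, ?_⟩
  · intro a b
    have e00 : (z + 1) + (z + 1) ≠ 0 := by
      have := mul_ne_zero n2 h1; intro h; exact this (by linear_combination h)
    have e01 : (z + 1) + z * (z + 1) ≠ 0 := by
      have := mul_ne_zero h1 h1; intro h; exact this (by linear_combination h)
    have e02 : (z + 1) + 2 * z ≠ 0 := by intro h; exact h4 (by linear_combination h)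
    have e11 : z * (z + 1) + z * (z + 1) ≠ 0 := by
      have := mul_ne_zero n2 (mul_ne_zero hz0 h1); intro h; exact this (by linear_combination h)
    have e12 : z * (z + 1) + 2 * z ≠ 0 := by
      have := mul_ne_zero hz0 h3; intro h; exact this (by linear_combination h)
    have e22 : 2 * z + 2 * z ≠ 0 := by
      have := mul_ne_zero n2 (mul_ne_zero n2 hz0); intro h; exact this (by linear_combination h)
    fin_cases a <;> fin_cases b <;> simp only [Fin.zero_eta, Fin.mk_one, Fin.reduceFinMk,
      Matrix.cons_val_zero, Matrix.cons_val_one, Matrix.cons_val] <;>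
      first
        | assumption
        | (rw [add_comm]; assumption)
  · intro u v
    by_cases hw : IsSquare (v - z * u ^ 2)
    · obtain ⟨r, hr⟩ := hw
      refine ⟨0, 1, (z * u + r) / (z + 1), (u - r) / (z + 1), ?_, ?_⟩
      · field_simp; ring
      · simp only [Matrix.cons_val_zero, Matrix.cons_val_one]
        field_simp
        linear_combination (-(z + 1)) * hr
    · have hw0 : v - z * u ^ 2 ≠ 0 := by intro h; rw [h] at hw; exact hw ⟨0, by simp⟩
      have q1 := (quadraticChar_neg_one_iff_not_isSquare (F := ZMod p)).2 hz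
      have q2 := (quadraticChar_neg_one_iff_not_isSquare (F := ZMod p)).2 hw
      have q3 : quadraticChar (ZMod p) (z * (v - z * u ^ 2)) = 1 := by
        rw [map_mul, q1, q2]; norm_num
      obtain ⟨r, hr⟩ := (quadraticChar_one_iff_isSquare (mul_ne_zero hz0 hw0)).1 q3
      refine ⟨2, 2, (z * u + r) / (2 * z), (z * u - r) / (2 * z), ?_, ?_⟩
      · field_simp; ring
      · simp only [Matrix.cons_val]
        field_simp
        linear_combination (-2) * hr

/-- a quadratic equation over a prime field has at most two solutions -/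
lemma quad_card_le {p : ℕ} [Fact p.Prime] (α β γ : ZMod p) (hα : α ≠ 0) :
    (univ.filter (fun x : ZMod p => α * x ^ 2 + β * x + γ = 0)).card ≤ 2 := by
  by_contra h
  push Not at h
  obtain ⟨x, hx, y, hy, w, hw, hxy, hxw, hyw⟩ := two_lt_card.1 h
  simp only [mem_filter, mem_univ, true_and] at hx hy hw
  have h1 : α * (x + y) + β = 0 := by
    have : (x - y) * (α * (x + y) + β) = 0 := by linear_combination hx - hy
    exact (mul_eq_zero.1 this).resolve_left (sub_ne_zero.2 hxy)
  have h2 : α * (x + w) + β = 0 := by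
    have : (x - w) * (α * (x + w) + β) = 0 := by linear_combination hx - hw
    exact (mul_eq_zero.1 this).resolve_left (sub_ne_zero.2 hxw)
  have h3 : α * (y - w) = 0 := by linear_combination h1 - h2
  exact hyw (sub_eq_zero.1 ((mul_eq_zero.1 h3).resolve_left hα))

end Pool.Agent.P.MP_d5a1e1_nt.Thin
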