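import Pool.Agent.P.MP_d5a1e1_nt.Same

/-! Cross terms between two blocks: candidates and the moment generating function. -/

namespace Pool.Agent.P.MP_d5a1e1_nt.Thin

open Finset

/-- small multiples of `D` stay away from the multiples of `D'` -/
def Far (D D' W α β : ℕ) : Prop :=
  ∀ t z : ℕ, 1 ≤ t → t * β ≤ α → t * D + W ≤ z * D' ∨ z * D' + W ≤ t * D

def Cand (S S' : Par) (ω : ZMod S.p → ZMod S.q × ZMod S.q) (n : ℕ) (l : Lay) (X : ZMod S'.p) :
    Finset (ZMod S'.q × ZMod S'.q) :=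
  univ.filter (fun y => ∃ a ∈ S.B ω, a + (S'.base l X + y.1.val * S'.D + y.2.val) = n)

def hit (S : Par) (C : Finset (ZMod S.q × ZMod S.q)) (b : Fin 3) (o : ZMod S.q × ZMod S.q) : ℕ :=
  (C.filter (fun c => S.low b o c.1 = c.2)).card

lemma Par.pos_lt (S : Par) (y : ZMod S.q × ZMod S.q) : y.1.val * S.D + y.2.val < S.q * S.D := by
  have h1 := ZMod.val_lt y.1
  have h2 := ZMod.val_lt y.2
  have h3 := S.two_q_le
  have : (y.1.val + 1) * S.D ≤ S.q * S.D := Nat.mul_le_mul_right _ h1
  rw [add_one_mul] at this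
  omega

lemma Par.pos_inj (S : Par) {y y' : ZMod S.q × ZMod S.q}
    (h : y.1.val * S.D + y.2.val = y'.1.val * S.D + y'.2.val) : y = y' := by
  have h2 := ZMod.val_lt y.2
  have h2' := ZMod.val_lt y'.2
  have h3 := S.two_q_le
  have e : y.1.val = y'.1.val := by
    rcases lt_trichotomy y.1.val y'.1.val with hl | he | hl
    · have : (y.1.val + 1) * S.D ≤ y'.1.val * S.D := Nat.mul_le_mul_right _ hl
      rw [add_one_mul] at this
      omega
    · exact he
    · have : (y'.1.val + 1) * S.D ≤ y.1.val * S.D := Nat.mul_le_mul_right _ hl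
      rw [add_one_mul] at this
      omega
  rw [e] at h
  exact Prod.ext (ZMod.val_injective _ e) (ZMod.val_injective _ (by omega))

theorem cand_card (S S' : Par) (ω : ZMod S.p → ZMod S.q × ZMod S.q) (n : ℕ) (l' : Lay)
    (X : ZMod S'.p) (W α β m : ℕ) (hfar : Far S.D S'.D W α β) (hW : S.q + S'.q ≤ W)
    (hq : S'.q * S'.D ≤ S.q * S.D)
    (hm : ∀ c, c * α * S.D ≤ β * (2 * (S'.q * S'.D)) → c + 1 ≤ m) :
    (Cand S S' ω n l' X).card ≤ 2 ^ 25 * m := by
  classical
  have key : ∀ y ∈ Cand S S' ω n l' X, ∃ z : Lay × ZMod S.p × ZMod S.q,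
      S.el ω z.1 z.2.1 z.2.2 + (S'.base l' X + (y.1.val * S'.D + y.2.val)) = n := by
    intro y hy
    obtain ⟨a, ha, h⟩ := (mem_filter.1 hy).2
    obtain ⟨l, Y, x, e⟩ := S.mem_B.1 ha
    exact ⟨(l, Y, x), by rw [e, ← h]; ring⟩
  have : Nonempty Lay := ⟨(0, 0, ⟨0, by rw [Kc_eq]; omega⟩, 0, 0, 0)⟩
  choose! z hz using key
  have h1 := card_le_of_fiber (Cand S S' ω n l' X) (fun y => (z y).1) (2 * m) (fun l t ht => by
    refine card_le_of_fiber' t (fun y => (z y).2.1.val) m 2 ?_ ?_
    · intro Yv t' ht'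
      have hinj : Set.InjOn (fun y => (z y).2.2.val) t' := by
        intro y hy y' hy' h
        obtain ⟨h1, h2⟩ := ht' y hy
        obtain ⟨h1', h2'⟩ := ht' y' hy'
        have e : z y = z y' := Prod.ext ((ht y h1).2.trans (ht y' h1').2.symm)
          (Prod.ext (ZMod.val_injective _ (h2.trans h2'.symm)) (ZMod.val_injective _ h))
        have a1 := hz y (ht y h1).1
        have a2 := hz y' (ht y' h1').1
        rw [e] at a1
        exact S'.pos_inj (by omega)
      rw [← card_image_of_injOn hinj]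
      have hs := sep_card α β S.D (2 * (S'.q * S'.D)) (t'.image (fun y => (z y).2.2.val)) (by
        intro w hw w' hw' hlt
        obtain ⟨y, hy, rfl⟩ := mem_image.1 hw
        obtain ⟨y', hy', rfl⟩ := mem_image.1 hw'
        obtain ⟨h1, h2⟩ := ht' y hy
        obtain ⟨h1', h2'⟩ := ht' y' hy'
        have a1 := hz y (ht y h1).1
        have a2 := hz y' (ht y' h1').1
        have e1 : (z y').2.1 = (z y).2.1 := ZMod.val_injective _ (h2'.trans h2.symm)
        rw [(ht y h1).2] at a1
        rw [(ht y' h1').2, e1] at a2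
        unfold Par.el at a1 a2
        have v1 := ZMod.val_lt (S.low l.2.1 (ω (z y).2.1) (z y).2.2)
        have v2 := ZMod.val_lt (S.low l.2.1 (ω (z y).2.1) (z y').2.2)
        have v3 := ZMod.val_lt y.2
        have v4 := ZMod.val_lt y'.2
        have p1 := S'.pos_lt y
        have d1 := S.two_q_le
        have d2 := S'.two_q_le
        obtain ⟨u, hu⟩ : ∃ u, (z y').2.2.val = (z y).2.2.val + u :=
          ⟨(z y').2.2.val - (z y).2.2.val, by omega⟩
        have hu1 : 1 ≤ u := by omega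
        have e2 : (z y').2.2.val - (z y).2.2.val = u := by omega
        rw [e2]
        rw [hu, add_mul] at a2
        have d3 : S.D ≤ u * S.D := Nat.le_mul_of_pos_left _ hu1
        have y1 : y'.1.val ≤ y.1.val := by
          by_contra hc
          have : (y.1.val + 1) * S'.D ≤ y'.1.val * S'.D := Nat.mul_le_mul_right _ (by omega)
          rw [add_one_mul] at this
          omega
        obtain ⟨zz, hzz⟩ : ∃ zz, y.1.val = y'.1.val + zz := ⟨y.1.val - y'.1.val, by omega⟩
        rw [hzz, add_mul] at a1 p1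
        constructor
        · by_contra hc
          have := hfar u zz hu1 (by omega)
          omega
        · omega)
      have := hm _ hs
      omega
    · intro u hu
      refine diam_card u ?_
      intro w hw w' hw'
      obtain ⟨y, hy, rfl⟩ := hu w hw
      obtain ⟨y', hy', rfl⟩ := hu w' hw'
      have a1 := hz y (ht y hy).1
      have a2 := hz y' (ht y' hy').1
      rw [(ht y hy).2, Par.el_eq] at a1
      rw [(ht y' hy').2, Par.el_eq] at a2
      have r1 := S.rem_lt (S.up l.1 (z y).2.1) (S.low l.2.1 (ω (z y).2.1) (z y).2.2)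
      have hD := S.hD
      have p1 := S'.pos_lt y
      have v1 := ZMod.val_lt (z y).2.2
      by_contra hc
      have b1 : ((z y).2.1.val + 2) * (S.q * S.D) ≤ (z y').2.1.val * (S.q * S.D) :=
        Nat.mul_le_mul_right _ (by omega)
      have b2 : ((z y).2.2.val + 1) * S.D ≤ S.q * S.D := Nat.mul_le_mul_right _ v1
      rw [add_mul, mul_assoc] at a1 a2
      rw [add_mul] at b1 b2
      omega)
  calc _ ≤ _ := h1
    _ ≤ 2 ^ 24 * (2 * m) := Nat.mul_le_mul_right _ card_lay
    _ = 2 ^ 25 * m := by ring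

theorem mgf (S : Par) (C : Finset (ZMod S.q × ZMod S.q)) (b : Fin 3) (m : ℕ) (hC : C.card ≤ m)
    (w : ℝ) (hw : 1 ≤ w) :
    ∑ o, w ^ hit S C b o ≤ (S.q : ℝ) ^ 2 + w * m * S.q + w ^ m * m ^ 2 := by
  classical
  have hk : S.k' b + S.k' b ≠ 0 := S.hk'.1 b b
  have pw : ∀ o, w ^ hit S C b o ≤ 1 + w * (∑ c ∈ C, if S.low b o c.1 = c.2 then (1 : ℝ) else 0)
      + w ^ m * ∑ c ∈ C.offDiag,
        if S.low b o c.1.1 = c.1.2 ∧ S.low b o c.2.1 = c.2.2 then (1 : ℝ) else 0 := by
    intro o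
    have e1 : (∑ c ∈ C, if S.low b o c.1 = c.2 then (1 : ℝ) else 0) = hit S C b o := by
      simp [hit]
    have n2 : (0 : ℝ) ≤ ∑ c ∈ C.offDiag,
        if S.low b o c.1.1 = c.1.2 ∧ S.low b o c.2.1 = c.2.2 then (1 : ℝ) else 0 :=
      sum_nonneg fun c _ => by split_ifs <;> norm_num
    have wm : 0 ≤ w ^ m := by positivity
    rw [e1]
    by_cases h2 : 1 < hit S C b o
    · obtain ⟨c, hc, c', hc', hne⟩ := one_lt_card.1 h2
      have h3 : (1 : ℝ) ≤ ∑ c ∈ C.offDiag,
          if S.low b o c.1.1 = c.1.2 ∧ S.low b o c.2.1 = c.2.2 then (1 : ℝ) else 0 := by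
        refine le_trans ?_ (single_le_sum (f := fun c : (ZMod S.q × ZMod S.q) × (ZMod S.q × ZMod S.q) =>
          if S.low b o c.1.1 = c.1.2 ∧ S.low b o c.2.1 = c.2.2 then (1 : ℝ) else 0)
          (a := (c, c')) (fun c _ => by split_ifs <;> norm_num)
          (mem_offDiag.2 ⟨(mem_filter.1 hc).1, (mem_filter.1 hc').1, hne⟩))
        rw [if_pos ⟨(mem_filter.1 hc).2, (mem_filter.1 hc').2⟩]
      have h4 : hit S C b o ≤ m := (card_filter_le _ _).trans hC
      have h5 : w ^ hit S C b o ≤ w ^ m := pow_le_pow_right₀ hw h4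
      have h6 := mul_le_mul_of_nonneg_left h3 wm
      have h7 : 0 ≤ w * (hit S C b o : ℝ) := by positivity
      linarith
    · have h3 := mul_nonneg wm n2
      have : hit S C b o = 0 ∨ hit S C b o = 1 := by omega
      rcases this with h | h <;> rw [h] <;> simp only [pow_zero, pow_one, Nat.cast_zero,
        Nat.cast_one] <;> linarith
  refine (sum_le_sum fun o _ => pw o).trans ?_
  rw [sum_add_distrib, sum_add_distrib, ← mul_sum, ← mul_sum, sum_comm,
    sum_comm (t := C.offDiag)]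
  have s1 : ∑ _o : ZMod S.q × ZMod S.q, (1 : ℝ) = (S.q : ℝ) ^ 2 := by
    simp [ZMod.card, sq]
  have s2 : ∑ c ∈ C, ∑ o : ZMod S.q × ZMod S.q, (if S.low b o c.1 = c.2 then (1 : ℝ) else 0) ≤
      m * S.q := by
    have : ∀ c ∈ C, ∑ o : ZMod S.q × ZMod S.q, (if S.low b o c.1 = c.2 then (1 : ℝ) else 0) ≤
        S.q := by
      intro c _
      rw [sum_boole]
      have h := card_le_of_fiber (univ.filter (fun o : ZMod S.q × ZMod S.q => S.low b o c.1 = c.2))
        (fun o => o.1) 1 (fun β t ht => card_le_one.2 fun o ho o' ho' => by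
          obtain ⟨a1, a2⟩ := ht o ho
          obtain ⟨a3, a4⟩ := ht o' ho'
          have a5 := (mem_filter.1 a1).2
          have a6 := (mem_filter.1 a3).2
          unfold Par.low at a5 a6
          rw [a2] at a5
          rw [a4] at a6
          exact Prod.ext (a2.trans a4.symm) (by linear_combination a5 - a6))
      rw [ZMod.card, mul_one] at h
      exact_mod_cast h
    refine (sum_le_sum this).trans ?_
    rw [sum_const, nsmul_eq_mul]
    exact mul_le_mul_of_nonneg_right (by exact_mod_cast hC) (by positivity)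
  have s3 : ∑ c ∈ C.offDiag, ∑ o : ZMod S.q × ZMod S.q,
      (if S.low b o c.1.1 = c.1.2 ∧ S.low b o c.2.1 = c.2.2 then (1 : ℝ) else 0) ≤ m ^ 2 := by
    have : ∀ c ∈ C.offDiag, ∑ o : ZMod S.q × ZMod S.q,
        (if S.low b o c.1.1 = c.1.2 ∧ S.low b o c.2.1 = c.2.2 then (1 : ℝ) else 0) ≤ 1 := by
      intro c hc
      rw [sum_boole]
      have h : (univ.filter (fun o : ZMod S.q × ZMod S.q =>
          S.low b o c.1.1 = c.1.2 ∧ S.low b o c.2.1 = c.2.2)).card ≤ 1 := by
        refine card_le_one.2 fun o ho o' ho' => ?_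
        obtain ⟨a1, a2⟩ := (mem_filter.1 ho).2
        obtain ⟨a3, a4⟩ := (mem_filter.1 ho').2
        have hne : c.1.1 - c.2.1 ≠ 0 := by
          intro h
          have h' : c.1.1 = c.2.1 := sub_eq_zero.1 h
          exact (mem_offDiag.1 hc).2.2 (Prod.ext h' (by rw [← a1, ← a2, h']))
        unfold Par.low at a1 a2 a3 a4
        have e : (S.k' b + S.k' b) * (c.1.1 - c.2.1) * (o'.1 - o.1) = 0 := by
          linear_combination a1 - a2 - a3 + a4
        have e' : o'.1 = o.1 :=
          sub_eq_zero.1 ((mul_eq_zero.1 e).resolve_left (mul_ne_zero hk hne))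
        rw [e'] at a3
        exact Prod.ext e'.symm (by linear_combination a1 - a3)
      exact_mod_cast h
    refine (sum_le_sum this).trans ?_
    rw [sum_const, nsmul_eq_mul, mul_one, offDiag_card]
    have h1 : C.card * C.card - C.card ≤ m ^ 2 := by
      have := Nat.mul_le_mul hC hC
      rw [sq]; omega
    exact_mod_cast h1
  rw [s1]
  have t2 := mul_le_mul_of_nonneg_left s2 (le_trans zero_le_one hw)
  have t3 := mul_le_mul_of_nonneg_left s3 (by positivity : 0 ≤ w ^ m)
  linarith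

theorem mid_card (S : Par) (ω₀ : ZMod S.p → ZMod S.q × ZMod S.q) (par : ℕ → Par)
    (ω : ∀ s : (Σ j, ZMod (par j).p), ZMod (par s.1).q × ZMod (par s.1).q) (J : Finset ℕ) (n : ℕ)
    (t : Finset (ℕ × ℕ))
    (ht : ∀ y ∈ t, y.1 ∈ S.B ω₀ ∧ (∃ j ∈ J, y.2 ∈ (par j).B (fun X => ω ⟨j, X⟩)) ∧ y.1 + y.2 = n) :
    t.card ≤ ∑ l : Lay, ∑ s ∈ J.sigma (fun j => (univ : Finset (ZMod (par j).p))),
      hit (par s.1) (Cand S (par s.1) ω₀ n l s.2) l.2.1 (ω s) := by
  classical
  have hsub : t ⊆ (univ : Finset Lay).biUnion (fun l =>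
      (J.sigma (fun j => (univ : Finset (ZMod (par j).p)))).biUnion (fun s =>
        ((Cand S (par s.1) ω₀ n l s.2).filter
          (fun c => (par s.1).low l.2.1 (ω s) c.1 = c.2)).image (fun c =>
            (n - ((par s.1).base l s.2 + c.1.val * (par s.1).D + c.2.val),
              (par s.1).base l s.2 + c.1.val * (par s.1).D + c.2.val)))) := by
    intro y hy
    obtain ⟨h1, ⟨j, hj, h2⟩, h3⟩ := ht y hy
    obtain ⟨l, X, x, e⟩ := (par j).mem_B.1 h2
    unfold Par.el at e
    refine mem_biUnion.2 ⟨l, mem_univ _, mem_biUnion.2 ⟨⟨j, X⟩, mem_sigma.2 ⟨hj, mem_univ _⟩,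
      mem_image.2 ⟨(x, (par j).low l.2.1 (ω ⟨j, X⟩) x), mem_filter.2 ⟨mem_filter.2 ⟨mem_univ _,
        y.1, h1, ?_⟩, rfl⟩, ?_⟩⟩⟩
    · simp only; rw [e]; exact h3
    · simp only; rw [e]; exact Prod.ext (by simp only; omega) rfl
  refine (card_le_card hsub).trans (card_biUnion_le.trans (sum_le_sum fun l _ => ?_))
  exact card_biUnion_le.trans (sum_le_sum fun s _ => card_image_le)

end Pool.Agent.P.MP_d5a1e1_nt.Thin
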