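import Pool.Agent.P.MP_d5a1e1_nt.Cross

/-! Choice of the primes and of the block steps. -/

namespace Pool.Agent.P.MP_d5a1e1_nt.Thin

open Finset

lemma bad_t (M W D' t : ℕ) (ht : 1 ≤ t) (htW : t ≤ W) (h0 : 0 < D') (hD' : D' ≤ M) (hW : W ≤ M)
    (s : Finset ℕ) (hs : ∀ d ∈ s, d < 2 * M ∧ ∃ z, z * D' < t * d + W ∧ t * d < z * D' + W) :
    s.card * D' ≤ 12 * M * W := by
  classical
  have hs' : ∀ d ∈ s, ∃ z, z * D' < t * d + W ∧ t * d < z * D' + W := fun d hd => (hs d hd).2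
  choose! z hz using hs'
  have h1 := card_le_of_fiber' s z (2 * W / t + 1) ((2 * t * M + W) / D' + 1) (by
    intro b u hu
    have := sep_card 1 1 t (2 * W) u (fun y hy y' hy' hl => by
      obtain ⟨a1, a2⟩ := hu y hy
      obtain ⟨a3, a4⟩ := hu y' hy'
      have b1 := hz y a1
      have b2 := hz y' a3
      rw [a2] at b1
      rw [a4] at b2
      obtain ⟨v, rfl⟩ : ∃ v, y' = y + v := ⟨y' - y, by omega⟩
      rw [mul_add] at b2
      rw [Nat.add_sub_cancel_left, mul_comm v t]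
      omega)
    rw [mul_one, one_mul] at this
    have h2 : u.card - 1 ≤ 2 * W / t := (Nat.le_div_iff_mul_le (by omega)).2 this
    omega) (by
    intro u hu
    refine (card_le_card (t := range ((2 * t * M + W) / D' + 1)) ?_).trans (by simp)
    intro b hb
    obtain ⟨d, hd, rfl⟩ := hu b hb
    have b1 := (hz d hd).1
    have b2 : t * d ≤ t * (2 * M) := Nat.mul_le_mul_left _ (hs d hd).1.le
    have b3 : t * (2 * M) = 2 * t * M := by ring
    have : z d ≤ (2 * t * M + W) / D' := (Nat.le_div_iff_mul_le h0).2 (by omega)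
    exact mem_range.2 (by omega))
  have a1 : (2 * t * M + W) / D' * D' ≤ 2 * t * M + W := Nat.div_mul_le_self _ _
  have a2 : 2 * W / t * t ≤ 2 * W := Nat.div_mul_le_self _ _
  generalize (2 * t * M + W) / D' = A at *
  generalize 2 * W / t = B at *
  have a3 : M ≤ t * M := Nat.le_mul_of_pos_left _ ht
  have a4 : (A + 1) * D' ≤ 4 * (t * M) := by
    rw [add_one_mul]; rw [mul_assoc] at a1; omega
  have a5 : (B + 1) * t ≤ 3 * W := by rw [add_one_mul]; omega
  calc s.card * D' ≤ (A + 1) * (B + 1) * D' := Nat.mul_le_mul_right _ h1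
    _ = (B + 1) * ((A + 1) * D') := by ring
    _ ≤ (B + 1) * (4 * (t * M)) := Nat.mul_le_mul_left _ a4
    _ = 4 * M * ((B + 1) * t) := by ring
    _ ≤ 4 * M * (3 * W) := Nat.mul_le_mul_left _ a5
    _ = 12 * M * W := by ring

lemma bad_card (M W D' α β : ℕ) (hβ : 0 < β) (h0 : 0 < D') (hD' : D' ≤ M) (hW : W ≤ M)
    (hα : α ≤ W * β) (s : Finset ℕ) (hs : ∀ d ∈ s, d < 2 * M ∧ ¬ Far d D' W α β) :
    s.card * D' * β ≤ α * (12 * M * W) := by
  classical
  have hsub : s ⊆ (Icc 1 (α / β)).biUnion (fun t =>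
      s.filter (fun d => ∃ z, z * D' < t * d + W ∧ t * d < z * D' + W)) := by
    intro d hd
    have h := (hs d hd).2
    unfold Far at h
    push Not at h
    obtain ⟨t, z, h1, h2, h3, h4⟩ := h
    exact mem_biUnion.2 ⟨t, mem_Icc.2 ⟨h1, (Nat.le_div_iff_mul_le hβ).2 h2⟩,
      mem_filter.2 ⟨hd, z, h3, h4⟩⟩
  have h1 := (card_le_card hsub).trans card_biUnion_le
  have h2 := Nat.mul_le_mul_right D' h1
  rw [sum_mul] at h2
  have h3 : ∑ t ∈ Icc 1 (α / β), (s.filter
      (fun d => ∃ z, z * D' < t * d + W ∧ t * d < z * D' + W)).card * D' ≤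
      ∑ _t ∈ Icc 1 (α / β), 12 * M * W := by
    refine sum_le_sum fun t ht => ?_
    have a1 := (mem_Icc.1 ht).1
    have a2 := (mem_Icc.1 ht).2
    have a3 : α / β ≤ W := Nat.div_le_of_le_mul (by rw [mul_comm]; exact hα)
    exact bad_t M W D' t a1 (by omega) h0 hD' hW _
      (fun d hd => ⟨(hs d (mem_filter.1 hd).1).1, (mem_filter.1 hd).2⟩)
  rw [sum_const, Nat.card_Icc, smul_eq_mul, Nat.add_sub_cancel] at h3
  have h4 : α / β * β ≤ α := Nat.div_mul_le_self _ _
  calc _ ≤ α / β * (12 * M * W) * β := Nat.mul_le_mul_right _ (h2.trans h3)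
    _ = α / β * β * (12 * M * W) := by ring
    _ ≤ _ := Nat.mul_le_mul_right _ h4

/-- a sequence built by strong recursion from a choice rule -/
noncomputable def seqOf (g : ℕ → (ℕ → ℕ) → ℕ) (i : ℕ) : ℕ :=
  g i (fun j => if _h : j < i then seqOf g j else 0)
termination_by i

lemma exists_seq (P : ℕ → ℕ → Prop) (R : ℕ → ℕ → ℕ → ℕ → Prop)
    (h : ∀ i (f : ℕ → ℕ), (∀ j < i, P j (f j)) → ∃ d, P i d ∧ ∀ j < i, R i j d (f j)) :
    ∃ f : ℕ → ℕ, ∀ i, P i (f i) ∧ ∀ j < i, R i j (f i) (f j) := by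
  classical
  choose! g hg using h
  refine ⟨seqOf g, fun i => ?_⟩
  induction i using Nat.strong_induction_on with
  | _ i ih =>
    have := hg i (fun j => if _h : j < i then seqOf g j else 0)
      (fun j hj => by simp only [dif_pos hj]; exact (ih j hj).1)
    have e : g i (fun j => if _h : j < i then seqOf g j else 0) = seqOf g i := by
      rw [seqOf]
    rw [e] at this
    refine ⟨this.1, fun j hj => ?_⟩
    have h2 := this.2 j hj
    simpa only [dif_pos hj] using h2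

/-- the slowly growing exponent -/
def ee (i : ℕ) : ℕ := Nat.log 16 i

lemma ee_le (i : ℕ) : ee i ≤ i := Nat.log_le_self _ _

lemma exists_primes (a : ℕ) : ∃ p, p.Prime ∧ 7 < p ∧ (3 ≤ a → 2 ^ a < p ∧ p ≤ 2 ^ (a + 1)) := by
  obtain ⟨p, hp, h1, h2⟩ := Nat.exists_prime_lt_and_le_two_mul (2 ^ max 3 a) (by positivity)
  have h3 : 2 ^ 3 ≤ 2 ^ max 3 a := Nat.pow_le_pow_right (by norm_num) (le_max_left _ _)
  refine ⟨p, hp, by omega, fun ha => ?_⟩
  rw [max_eq_right ha] at h1 h2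
  exact ⟨h1, by rw [pow_succ]; omega⟩

lemma two_pow_sum (i : ℕ) : ∑ j ∈ range i, 2 ^ j < 2 ^ i := by
  induction i with
  | zero => simp
  | succ i ih => rw [sum_range_succ, pow_succ]; omega

theorem exists_par : ∃ par : ℕ → Par, ∀ i, 3 ≤ i →
    (2 ^ (2 * i - ee i) < (par i).p ∧ (par i).p ≤ 2 ^ (2 * i - ee i + 1)) ∧
    (2 ^ (2 * i + ee i) < (par i).q ∧ (par i).q ≤ 2 ^ (2 * i + ee i + 1)) ∧
    ∀ j < i, 3 ≤ j → Far (par i).D (par j).D (2 ^ (2 * i + ee i + 2)) (2 ^ (4 * j))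
      (2 ^ (2 * i + ee i + 6 + (i - j))) := by
  classical
  choose pr hpr h7 hb using exists_primes
  choose k hk using fun a => exists_good_coeff (pr a) (hpr a) (h7 a)
  have hM : ∀ i, 3 ≤ i → 2 ^ (4 * i) ≤ pr (2 * i - ee i) * pr (2 * i + ee i) ∧
      pr (2 * i - ee i) * pr (2 * i + ee i) ≤ 2 ^ (4 * i + 2) := by
    intro i hi
    have := ee_le i
    obtain ⟨a1, a2⟩ := hb (2 * i - ee i) (by omega)
    obtain ⟨a3, a4⟩ := hb (2 * i + ee i) (by omega)
    have b1 := Nat.mul_le_mul a1.le a3.le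
    have b2 := Nat.mul_le_mul a2 a4
    rw [← pow_add] at b1 b2
    exact ⟨le_trans (le_of_eq (by congr 1; omega)) b1, b2.trans (le_of_eq (by congr 1; omega))⟩
  obtain ⟨D, hD⟩ := exists_seq
    (fun i d => pr (2 * i - ee i) * pr (2 * i + ee i) ≤ d ∧
      d ≤ 2 * (pr (2 * i - ee i) * pr (2 * i + ee i)))
    (fun i j d d' => 3 ≤ j → Far d d' (2 ^ (2 * i + ee i + 2)) (2 ^ (4 * j))
      (2 ^ (2 * i + ee i + 6 + (i - j)))) (by
    intro i f hf
    by_cases hi : i < 3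
    · exact ⟨_, ⟨le_rfl, by omega⟩, fun j hj h3 => by omega⟩
    have hi3 : 3 ≤ i := by omega
    obtain ⟨m1, -⟩ := hM i hi3
    have he := ee_le i
    generalize pr (2 * i - ee i) * pr (2 * i + ee i) = M at *
    have hM0 : 0 < M := lt_of_lt_of_le (by positivity) m1
    by_contra hcon
    push Not at hcon
    have hsub : Ico M (2 * M) ⊆ (range i).biUnion (fun j => (Ico M (2 * M)).filter (fun d =>
        3 ≤ j ∧ ¬ Far d (f j) (2 ^ (2 * i + ee i + 2)) (2 ^ (4 * j))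
          (2 ^ (2 * i + ee i + 6 + (i - j))))) := by
      intro d hd
      obtain ⟨j, hj, h3, h4⟩ := hcon d ⟨(mem_Ico.1 hd).1, (mem_Ico.1 hd).2.le⟩
      exact mem_biUnion.2 ⟨j, mem_range.2 hj, mem_filter.2 ⟨hd, h3, h4⟩⟩
    have h1 := (card_le_card hsub).trans card_biUnion_le
    have h2 := Nat.mul_le_mul_right (16 * 2 ^ i) h1
    rw [sum_mul, Nat.card_Ico] at h2
    have h3 : ∑ j ∈ range i, ((Ico M (2 * M)).filter (fun d =>
        3 ≤ j ∧ ¬ Far d (f j) (2 ^ (2 * i + ee i + 2)) (2 ^ (4 * j))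
          (2 ^ (2 * i + ee i + 6 + (i - j))))).card * (16 * 2 ^ i) ≤
        ∑ j ∈ range i, 12 * M * 2 ^ j := by
      refine sum_le_sum fun j hj => ?_
      have hji := mem_range.1 hj
      by_cases h3 : 3 ≤ j
      swap
      · simp [h3]
      obtain ⟨n1, n2⟩ := hM j h3
      obtain ⟨n3, n4⟩ := hf j hji
      have n5 : 2 ^ (4 * j) ≤ f j := n1.trans n3
      have n6 : f j ≤ M := by
        have : 2 * 2 ^ (4 * j + 2) ≤ 2 ^ (4 * i) := by
          rw [← pow_succ']; exact Nat.pow_le_pow_right (by norm_num) (by omega)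
        omega
      have h4 := bad_card M (2 ^ (2 * i + ee i + 2)) (f j) (2 ^ (4 * j))
        (2 ^ (2 * i + ee i + 6 + (i - j))) (by positivity) (lt_of_lt_of_le (by positivity) n5) n6
        (le_trans (Nat.pow_le_pow_right (by norm_num) (by omega)) m1)
        (by rw [← pow_add]; exact Nat.pow_le_pow_right (by norm_num) (by omega))
        ((Ico M (2 * M)).filter (fun d =>
          3 ≤ j ∧ ¬ Far d (f j) (2 ^ (2 * i + ee i + 2)) (2 ^ (4 * j))
            (2 ^ (2 * i + ee i + 6 + (i - j)))))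
        (fun d hd => ⟨(mem_Ico.1 (mem_filter.1 hd).1).2, (mem_filter.1 hd).2.2⟩)
      generalize ((Ico M (2 * M)).filter (fun d =>
          3 ≤ j ∧ ¬ Far d (f j) (2 ^ (2 * i + ee i + 2)) (2 ^ (4 * j))
            (2 ^ (2 * i + ee i + 6 + (i - j))))).card = c at *
      obtain ⟨u, rfl⟩ : ∃ u, i = j + u := ⟨i - j, by omega⟩
      rw [Nat.add_sub_cancel_left] at h4
      have h5 : c * 2 ^ (4 * j) * 2 ^ (2 * (j + u) + ee (j + u) + 6 + u) ≤
          c * f j * 2 ^ (2 * (j + u) + ee (j + u) + 6 + u) :=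
        Nat.mul_le_mul_right _ (Nat.mul_le_mul_left _ n5)
      have h6 := h5.trans h4
      have h7 : c * (16 * 2 ^ u) * (2 ^ (4 * j) * 2 ^ (2 * (j + u) + ee (j + u) + 2)) ≤
          12 * M * (2 ^ (4 * j) * 2 ^ (2 * (j + u) + ee (j + u) + 2)) := by
        calc _ = c * 2 ^ (4 * j) * 2 ^ (2 * (j + u) + ee (j + u) + 6 + u) := by ring
          _ ≤ _ := h6
          _ = _ := by ring
      have h8 := Nat.le_of_mul_le_mul_right h7 (by positivity)
      calc c * (16 * 2 ^ (j + u)) = c * (16 * 2 ^ u) * 2 ^ j := by ring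
        _ ≤ _ := Nat.mul_le_mul_right _ h8
    rw [← mul_sum] at h3
    have h4 := Nat.mul_le_mul_left (12 * M) (two_pow_sum i).le
    have h5 : (2 * M - M) * (16 * 2 ^ i) = 16 * (M * 2 ^ i) := by
      rw [show 2 * M - M = M by omega]; ring
    have h6 : 12 * M * 2 ^ i = 12 * (M * 2 ^ i) := by ring
    have h7 : 0 < M * 2 ^ i := by positivity
    omega)
  refine ⟨fun i => ⟨pr (2 * i - ee i), pr (2 * i + ee i), D i, hpr _, hpr _, k _, k _, hk _, hk _,
    (hD i).1.1, (hD i).1.2⟩, fun i hi => ?_⟩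
  have := ee_le i
  exact ⟨hb _ (by omega), hb _ (by omega), (hD i).2⟩

end Pool.Agent.P.MP_d5a1e1_nt.Thin
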