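import Pool.Agent.P.MP_d5a1e1_nt.MeanSq

/-! Four representations with distinct summands infinitely often. -/

namespace Pool.Agent.P.MP_d5a1e1_nt

open Finset

/-- number of representations with increasing summands -/
noncomputable def rlt (A : Set ℕ) (n : ℕ) : ℕ :=
  Set.ncard {p : ℕ × ℕ | p.1 ∈ A ∧ p.2 ∈ A ∧ p.1 < p.2 ∧ p.1 + p.2 = n}

open Classical in
lemma rr_eq (A : Set ℕ) (n : ℕ) :
    rr A n = 2 * rlt A n + if ∃ a ∈ A, a + a = n then 1 else 0 := by
  set S := (antidiagonal n).filter (fun p : ℕ × ℕ => p.1 ∈ A ∧ p.2 ∈ A) with hS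
  have h1 : rr A n = S.card := by
    unfold rr
    rw [← Set.ncard_coe_finset]
    congr 1; ext p; simp [hS]; tauto
  have h2 : rlt A n = (S.filter (fun p => p.1 < p.2)).card := by
    unfold rlt
    rw [← Set.ncard_coe_finset]
    congr 1; ext p; simp [hS]; tauto
  have h3 : (S.filter (fun p => p.2 < p.1)).card = (S.filter (fun p => p.1 < p.2)).card := by
    refine card_bij (fun p _ => p.swap) ?_ ?_ ?_
    · intro p hp
      simp only [hS, mem_filter, HasAntidiagonal.mem_antidiagonal, Prod.fst_swap, Prod.snd_swap] at hp ⊢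
      exact ⟨⟨by omega, hp.1.2.2, hp.1.2.1⟩, hp.2⟩
    · intro p _ q _ h
      exact Prod.swap_injective h
    · intro p hp
      refine ⟨p.swap, ?_, by simp⟩
      simp only [hS, mem_filter, HasAntidiagonal.mem_antidiagonal, Prod.fst_swap, Prod.snd_swap] at hp ⊢
      exact ⟨⟨by omega, hp.1.2.2, hp.1.2.1⟩, hp.2⟩
  have h4 : (S.filter (fun p => p.1 = p.2)).card = if ∃ a ∈ A, a + a = n then 1 else 0 := by
    split_ifs with h
    · obtain ⟨a, ha, han⟩ := h
      rw [card_eq_one]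
      refine ⟨(a, a), ?_⟩
      ext ⟨x, y⟩
      simp only [hS, mem_filter, HasAntidiagonal.mem_antidiagonal, mem_singleton, Prod.mk.injEq]
      constructor
      · intro hp; omega
      · rintro ⟨rfl, rfl⟩; exact ⟨⟨han, ha, ha⟩, rfl⟩
    · rw [card_eq_zero, eq_empty_iff_forall_notMem]
      rintro ⟨x, y⟩ hp
      simp only [hS, mem_filter, HasAntidiagonal.mem_antidiagonal] at hp
      exact h ⟨x, hp.1.2.1, by omega⟩
  have h5 : S.card = (S.filter (fun p => p.1 < p.2)).card + (S.filter (fun p => p.2 < p.1)).card +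
      (S.filter (fun p => p.1 = p.2)).card := by
    simp only [card_filter, ← sum_add_distrib]
    rw [card_eq_sum_ones]
    refine sum_congr rfl fun p _ => ?_
    rcases lt_trichotomy p.1 p.2 with h | h | h
    · rw [if_pos h, if_neg (by omega), if_neg (by omega)]
    · rw [if_neg (by omega), if_neg (by omega), if_pos h]
    · rw [if_neg (by omega), if_pos h, if_neg (by omega)]
  rw [h1, h2, h5, h3, h4]; ring

lemma rr_pos (A : Set ℕ) (n : ℕ) (h : ∃ a ∈ A, ∃ b ∈ A, a + b = n) : 0 < rr A n := by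
  obtain ⟨a, ha, b, hb, hab⟩ := h
  exact (Set.ncard_pos (rr_finite A n)).2 ⟨(a, b), ha, hb, hab⟩

lemma card_tr_sq (A : Set ℕ) (R : ℕ) (hR : ∀ n, rr A n ≤ R) (N : ℕ) :
    (tr A N).card ^ 2 ≤ 2 * N * R := by
  have h := card_eq_sum_card_fiberwise (s := tr A N ×ˢ tr A N) (t := range (2 * N))
    (f := fun p => p.1 + p.2) (fun p hp => by
      have hp' := mem_product.1 (mem_coe.1 hp)
      have h1 := (mem_tr.1 hp'.1).1
      have h2 := (mem_tr.1 hp'.2).1
      simp only [coe_range, Set.mem_Iio]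
      omega)
  rw [card_product, ← sq] at h
  rw [h]
  calc _ ≤ ∑ n ∈ range (2 * N), R := sum_le_sum fun n _ => (rf_le A N n).trans (hR n)
    _ = _ := by simp

theorem four_reps (A : Set ℕ)
    (hE : ∃ N₀ : ℕ, ∀ N : ℕ, N₀ ≤ N →
      210 * Set.ncard {n : ℕ | n < N ∧ ¬ ∃ a ∈ A, ∃ b ∈ A, a + b = n} ≤ N) (N₁ : ℕ) :
    ∃ n : ℕ, N₁ ≤ n ∧
      4 ≤ Set.ncard {p : ℕ × ℕ | p.1 ∈ A ∧ p.2 ∈ A ∧ p.1 < p.2 ∧ p.1 + p.2 = n} := by
  classical
  by_contra hcon
  push Not at hcon
  have hlt : ∀ n, N₁ ≤ n → rlt A n ≤ 3 := fun n hn => Nat.lt_succ_iff.1 (hcon n hn)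
  obtain ⟨N₀, hN₀⟩ := hE
  set R := 7 + (range N₁).sup (rr A) with hR
  have hRb : ∀ n, rr A n ≤ R := by
    intro n
    by_cases hn : N₁ ≤ n
    · have := hlt n hn
      rw [rr_eq]; split_ifs <;> omega
    · have : rr A n ≤ (range N₁).sup (rr A) := le_sup (f := rr A) (mem_range.2 (by omega))
      omega
  have hR7 : (7 : ℝ) ≤ R := by exact_mod_cast (by omega : 7 ≤ R)
  have hpt : ∀ n, ((rr A n : ℝ) - 4) ^ 2 ≤ 4 +
      12 * (if ¬ ∃ a ∈ A, ∃ b ∈ A, a + b = n then (1 : ℝ) else 0) +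
      12 * (if ∃ a ∈ A, a + a = n then (1 : ℝ) else 0) +
      (R : ℝ) ^ 2 * (if n < N₁ then (1 : ℝ) else 0) := by
    intro n
    have i1 : (0 : ℝ) ≤ if ¬ ∃ a ∈ A, ∃ b ∈ A, a + b = n then (1 : ℝ) else 0 := by
      split_ifs <;> norm_num
    have i2 : (0 : ℝ) ≤ if ∃ a ∈ A, a + a = n then (1 : ℝ) else 0 := by
      split_ifs <;> norm_num
    by_cases hn : n < N₁
    · rw [if_pos hn]
      have a1 : (rr A n : ℝ) ≤ R := by exact_mod_cast hRb n
      have a2 : (0 : ℝ) ≤ rr A n := Nat.cast_nonneg _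
      nlinarith
    · rw [if_neg hn]
      have a1 := hlt n (by omega)
      have a2 := rr_eq A n
      by_cases h2 : ∃ a ∈ A, a + a = n
      · rw [if_pos h2] at a2 ⊢
        have a3 : (rr A n : ℝ) ≤ 7 := by exact_mod_cast (by omega : rr A n ≤ 7)
        have a4 : (0 : ℝ) ≤ rr A n := Nat.cast_nonneg _
        nlinarith
      · rw [if_neg h2] at a2 ⊢
        by_cases h3 : ∃ a ∈ A, ∃ b ∈ A, a + b = n
        · have a3 := rr_pos A n h3
          have a4 : (rr A n : ℝ) ≤ 6 := by exact_mod_cast (by omega : rr A n ≤ 6)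
          have a5 : (2 : ℝ) ≤ rr A n := by exact_mod_cast (by omega : 2 ≤ rr A n)
          nlinarith
        · rw [if_pos h3]
          have a4 : (rr A n : ℝ) ≤ 6 := by exact_mod_cast (by omega : rr A n ≤ 6)
          have a5 : (0 : ℝ) ≤ rr A n := Nat.cast_nonneg _
          nlinarith
  have hR0 : (0 : ℝ) < R := by linarith
  refine mean_square A 4 (4 + 12 / 210 + 1 / 10000)
    (12 * N₀ + (R : ℝ) ^ 2 * N₁ + 720000 * R) (by norm_num) (by norm_num) fun N => ?_
  have s1 : ∑ n ∈ range N, (if ¬ ∃ a ∈ A, ∃ b ∈ A, a + b = n then (1 : ℝ) else 0) ≤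
      N / 210 + N₀ := by
    rw [sum_boole]
    have e : ((range N).filter (fun n => ¬ ∃ a ∈ A, ∃ b ∈ A, a + b = n)).card =
        Set.ncard {n : ℕ | n < N ∧ ¬ ∃ a ∈ A, ∃ b ∈ A, a + b = n} := by
      rw [← Set.ncard_coe_finset]
      congr 1; ext n; simp
    by_cases hN : N₀ ≤ N
    · have := hN₀ N hN
      rw [← e] at this
      have h2 : (210 : ℝ) *
          ((range N).filter (fun n => ¬ ∃ a ∈ A, ∃ b ∈ A, a + b = n)).card ≤ N := by
        exact_mod_cast this
      have : (0 : ℝ) ≤ N₀ := Nat.cast_nonneg _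
      linarith
    · have h1 : ((range N).filter (fun n => ¬ ∃ a ∈ A, ∃ b ∈ A, a + b = n)).card ≤ N₀ :=
        (card_filter_le _ _).trans (by rw [card_range]; omega)
      have h2 : (((range N).filter (fun n => ¬ ∃ a ∈ A, ∃ b ∈ A, a + b = n)).card : ℝ) ≤ N₀ := by
        exact_mod_cast h1
      have : (0 : ℝ) ≤ N / 210 := by positivity
      linarith
  have s2 : ∑ n ∈ range N, (if ∃ a ∈ A, a + a = n then (1 : ℝ) else 0) ≤ (tr A N).card := by
    rw [sum_boole]
    have : ((range N).filter (fun n => ∃ a ∈ A, a + a = n)).card ≤ (tr A N).card := by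
      refine le_trans (card_le_card ?_) (card_image_le (s := tr A N) (f := fun a => a + a))
      intro n hn
      obtain ⟨h1, a, ha, han⟩ := mem_filter.1 hn
      have := mem_range.1 h1
      exact mem_image.2 ⟨a, mem_tr.2 ⟨by omega, ha⟩, han⟩
    exact_mod_cast this
  have s3 : ∑ n ∈ range N, (if n < N₁ then (1 : ℝ) else 0) ≤ N₁ := by
    rw [sum_boole]
    have : ((range N).filter (fun n => n < N₁)).card ≤ N₁ := by
      refine le_trans (card_le_card (t := range N₁) ?_) (by simp)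
      intro n hn
      exact mem_range.2 (mem_filter.1 hn).2
    exact_mod_cast this
  have s4 : ((tr A N).card : ℝ) ^ 2 ≤ 2 * N * R := by exact_mod_cast card_tr_sq A R hRb N
  have s5 : 12 * ((tr A N).card : ℝ) ≤ 1 / 10000 * N + 720000 * R := by
    have h1 : 0 ≤ (((tr A N).card : ℝ) - 120000 * R) ^ 2 := sq_nonneg _
    have h2 : R * (12 * ((tr A N).card : ℝ)) ≤ R * (1 / 10000 * N + 720000 * R) := by nlinarith
    exact le_of_mul_le_mul_left h2 hR0
  have s6 := sum_le_sum (s := range N) fun n _ => hpt n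
  rw [sum_add_distrib, sum_add_distrib, sum_add_distrib, ← mul_sum, ← mul_sum, ← mul_sum,
    sum_const, card_range, nsmul_eq_mul] at s6
  have s7 := mul_le_mul_of_nonneg_left s3 (sq_nonneg (R : ℝ))
  linarith

end Pool.Agent.P.MP_d5a1e1_nt
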