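import Mathlib

/-! Quadratic forms attached to an integer valued map on a finite index set. -/

namespace Pool.Agent.P.MP_d5a1e1_nt

open Finset

/-- indicator of zero -/
def dl (k : ℤ) : ℝ := if k = 0 then 1 else 0

/-- triangular window weight -/
noncomputable def fej (K : ℕ) (k : ℤ) : ℝ :=
  (∑ i ∈ range K, ∑ j ∈ range K, dl (k + i - j)) / (K : ℝ) ^ 2

/-- bilinear form with kernel depending on differences of values of `g` -/
def form {ι : Type*} (β : ℤ → ℝ) (s : Finset ι) (g : ι → ℤ) (F G : ι → ℝ) : ℝ :=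
  ∑ p ∈ s, ∑ q ∈ s, β (g p - g q) * (F p * G q)

/-- fibre sum -/
def fib {ι : Type*} (s : Finset ι) (g : ι → ℤ) (F : ι → ℝ) (d : ℤ) : ℝ :=
  ∑ p ∈ s, dl (g p - d) * F p

lemma dl_nonneg (k : ℤ) : 0 ≤ dl k := by unfold dl; split_ifs <;> norm_num

lemma dl_zero : dl 0 = 1 := by simp [dl]

lemma dl_ne {k : ℤ} (h : k ≠ 0) : dl k = 0 := by simp [dl, h]

lemma dl_neg (k : ℤ) : dl (-k) = dl k := by simp [dl]

lemma fej_nonneg (K : ℕ) (k : ℤ) : 0 ≤ fej K k :=
  div_nonneg (sum_nonneg fun _ _ => sum_nonneg fun _ _ => dl_nonneg _) (by positivity)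

lemma fej_neg (K : ℕ) (k : ℤ) : fej K (-k) = fej K k := by
  unfold fej
  rw [sum_comm]
  congr 1
  refine sum_congr rfl fun i _ => sum_congr rfl fun j _ => ?_
  rw [← dl_neg]; congr 1; ring

lemma fej_eq_zero {K : ℕ} {k : ℤ} (h : (K : ℤ) ≤ |k|) : fej K k = 0 := by
  unfold fej
  rw [sum_eq_zero, zero_div]
  intro i hi
  refine sum_eq_zero fun j hj => dl_ne ?_
  have hi' := mem_range.1 hi
  have hj' := mem_range.1 hj
  intro h0
  have : k = (j : ℤ) - i := by linarith
  rw [this] at h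
  rcases abs_cases ((j : ℤ) - i) with h1 | h1 <;> omega

lemma dl_eq_sum (T : Finset ℤ) (a b : ℤ) (ha : a ∈ T) :
    dl (a - b) = ∑ d ∈ T, dl (a - d) * dl (b - d) := by
  rw [sum_eq_single a]
  · simp only [sub_self, dl_zero, one_mul]
    rw [← dl_neg]; congr 1; ring
  · intro d _ hd
    rw [dl_ne (sub_ne_zero.2 (Ne.symm hd)), zero_mul]
  · intro h; exact absurd ha h

variable {ι : Type*}

lemma form_shift (s : Finset ι) (g : ι → ℤ) (F G : ι → ℝ) (c : ℤ) (T : Finset ℤ)
    (hT : ∀ p ∈ s, g p ∈ T) :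
    form (fun k => dl (k + c)) s g F G = ∑ d ∈ T, fib s g F d * fib s g G (d + c) := by
  unfold form fib
  simp only [sum_mul_sum]
  rw [sum_comm (s := T)]
  refine sum_congr rfl fun p hp => ?_
  rw [sum_comm (s := T)]
  refine sum_congr rfl fun q _ => ?_
  have h := dl_eq_sum T (g p) (g q - c) (hT p hp)
  have e1 : g p - g q + c = g p - (g q - c) := by ring
  rw [e1, h, sum_mul]
  refine sum_congr rfl fun d _ => ?_
  have e2 : g q - c - d = g q - (d + c) := by ring
  rw [e2]; ring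

lemma form_dl (s : Finset ι) (g : ι → ℤ) (F G : ι → ℝ) (T : Finset ℤ)
    (hT : ∀ p ∈ s, g p ∈ T) :
    form dl s g F G = ∑ d ∈ T, fib s g F d * fib s g G d := by
  have := form_shift s g F G 0 T hT
  simpa using this

lemma sum_fib_sq_le (s : Finset ι) (g : ι → ℤ) (F : ι → ℝ) (U : Finset ℤ) :
    ∑ d ∈ U, fib s g F d ^ 2 ≤ form dl s g F F := by
  classical
  rw [form_dl s g F F (U ∪ s.image g) (fun p hp => mem_union_right _ (mem_image_of_mem g hp))]
  simp only [← sq]
  exact sum_le_sum_of_subset_of_nonneg subset_union_left fun _ _ _ => sq_nonneg _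

lemma form_dl_nonneg (s : Finset ι) (g : ι → ℤ) (F : ι → ℝ) : 0 ≤ form dl s g F F := by
  simpa using sum_fib_sq_le s g F ∅

lemma sum_fib_shift_sq_le {κ : Type*} (s : Finset ι) (g : ι → ℤ) (F : ι → ℝ) (U : Finset κ)
    (e : κ → ℤ) (he : Set.InjOn e U) :
    ∑ d ∈ U, fib s g F (e d) ^ 2 ≤ form dl s g F F := by
  classical
  have := sum_fib_sq_le s g F (U.image e)
  rwa [sum_image he] at this

lemma form_shift_le (s : Finset ι) (g : ι → ℤ) (F : ι → ℝ) (c : ℤ) :
    form (fun k => dl (k + c)) s g F F ≤ form dl s g F F := by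
  classical
  rw [form_shift s g F F c (s.image g) (fun p hp => mem_image_of_mem g hp)]
  have h1 := sum_fib_sq_le s g F (s.image g)
  have h2 := sum_fib_shift_sq_le s g F (s.image g) (fun d => d + c)
    (fun a _ b _ h => by simpa using h)
  have h3 : ∑ d ∈ s.image g, fib s g F d * fib s g F (d + c) ≤
      ∑ d ∈ s.image g, (fib s g F d ^ 2 + fib s g F (d + c) ^ 2) / 2 :=
    sum_le_sum fun d _ => by nlinarith [sq_nonneg (fib s g F d - fib s g F (d + c))]
  rw [← sum_div, sum_add_distrib] at h3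
  linarith

lemma form_fej_eq (K : ℕ) (s : Finset ι) (g : ι → ℤ) (F G : ι → ℝ) :
    form (fej K) s g F G =
      (∑ i ∈ range K, ∑ j ∈ range K, form (fun k => dl (k + ((i : ℤ) - j))) s g F G) /
        (K : ℝ) ^ 2 := by
  unfold form fej
  simp only [div_mul_eq_mul_div, ← sum_div, sum_mul]
  congr 1
  symm
  calc ∑ i ∈ range K, ∑ j ∈ range K, ∑ p ∈ s, ∑ q ∈ s,
        dl (g p - g q + ((i : ℤ) - j)) * (F p * G q)
      = ∑ i ∈ range K, ∑ p ∈ s, ∑ j ∈ range K, ∑ q ∈ s,
        dl (g p - g q + ((i : ℤ) - j)) * (F p * G q) :=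
        sum_congr rfl fun i _ => sum_comm
    _ = ∑ p ∈ s, ∑ i ∈ range K, ∑ j ∈ range K, ∑ q ∈ s,
        dl (g p - g q + ((i : ℤ) - j)) * (F p * G q) := sum_comm
    _ = ∑ p ∈ s, ∑ i ∈ range K, ∑ q ∈ s, ∑ j ∈ range K,
        dl (g p - g q + ((i : ℤ) - j)) * (F p * G q) :=
        sum_congr rfl fun p _ => sum_congr rfl fun i _ => sum_comm
    _ = ∑ p ∈ s, ∑ q ∈ s, ∑ i ∈ range K, ∑ j ∈ range K,
        dl (g p - g q + ((i : ℤ) - j)) * (F p * G q) :=
        sum_congr rfl fun p _ => sum_comm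
    _ = _ := by
        refine sum_congr rfl fun p _ => sum_congr rfl fun q _ => sum_congr rfl fun i _ =>
          sum_congr rfl fun j _ => ?_
        congr 2; ring

/-- the window form is dominated by the diagonal form -/
lemma form_fej_le (K : ℕ) (s : Finset ι) (g : ι → ℤ) (F : ι → ℝ) :
    form (fej K) s g F F ≤ form dl s g F F := by
  rw [form_fej_eq]
  rcases Nat.eq_zero_or_pos K with rfl | hK
  · simpa using form_dl_nonneg s g F
  have hK' : (0 : ℝ) < (K : ℝ) ^ 2 := by positivity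
  rw [div_le_iff₀ hK']
  calc _ ≤ ∑ i ∈ range K, ∑ j ∈ range K, form dl s g F F :=
        sum_le_sum fun i _ => sum_le_sum fun j _ => form_shift_le s g F _
    _ = _ := by simp; ring

lemma form_fej_prod (K : ℕ) (s : Finset ι) (g : ι → ℤ) (F G : ι → ℝ) :
    form (fej K) s g F G =
      form dl (s ×ˢ range K) (fun p => g p.1 + p.2) (fun p => F p.1 / K) (fun p => G p.1 / K) := by
  unfold form fej
  simp only [sum_product, div_mul_eq_mul_div, sum_mul]
  refine sum_congr rfl fun p _ => ?_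
  rw [sum_comm (s := range K)]
  refine sum_congr rfl fun q _ => ?_
  simp only [sum_div]
  refine sum_congr rfl fun i _ => sum_congr rfl fun j _ => ?_
  have : g p - g q + i - j = g p + i - (g q + j) := by ring
  rw [this]; ring

lemma form_dl_test (s : Finset ι) (g : ι → ℤ) (F : ι → ℝ) (η : ℤ → ℝ) (T : Finset ℤ)
    (hT : ∀ p ∈ s, g p ∈ T) :
    2 * ∑ p ∈ s, F p * η (g p) - ∑ m ∈ T, η m ^ 2 ≤ form dl s g F F := by
  rw [form_dl s g F F T hT]
  have h : ∑ p ∈ s, F p * η (g p) = ∑ m ∈ T, fib s g F m * η m := by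
    unfold fib
    simp only [sum_mul]
    rw [sum_comm]
    refine sum_congr rfl fun p hp => ?_
    rw [sum_eq_single (g p)]
    · simp [dl_zero]
    · intro d _ hd
      rw [dl_ne (sub_ne_zero.2 (Ne.symm hd))]; simp
    · intro h; exact absurd (hT p hp) h
  rw [h, mul_sum, ← sum_sub_distrib]
  exact sum_le_sum fun m _ => by nlinarith [sq_nonneg (fib s g F m - η m)]

/-- lower bound for the window form by a test sequence -/
lemma form_fej_test (K : ℕ) (s : Finset ι) (g : ι → ℤ) (F : ι → ℝ) (η : ℤ → ℝ) (T : Finset ℤ)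
    (hT : ∀ p ∈ s, ∀ i ∈ range K, g p + i ∈ T) :
    2 * ((∑ i ∈ range K, ∑ p ∈ s, F p * η (g p + i)) / K) - ∑ m ∈ T, η m ^ 2 ≤
      form (fej K) s g F F := by
  rw [form_fej_prod]
  have h := form_dl_test (s ×ˢ range K) (fun p => g p.1 + p.2) (fun p => F p.1 / K) η T
    (fun p hp => hT p.1 (mem_product.1 hp).1 p.2 (mem_product.1 hp).2)
  refine le_trans (le_of_eq ?_) h
  congr 2
  rw [sum_product, sum_comm, sum_div]
  refine sum_congr rfl fun i _ => ?_
  rw [sum_div]
  refine sum_congr rfl fun p _ => ?_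
  ring

lemma form_fej_nonneg (K : ℕ) (s : Finset ι) (g : ι → ℤ) (F : ι → ℝ) :
    0 ≤ form (fej K) s g F F := by
  rw [form_fej_prod]; exact form_dl_nonneg _ _ _

/-- the window average at the origin is small -/
lemma fej_pt_sq_le (K : ℕ) (hK : 0 < K) (s : Finset ι) (g : ι → ℤ) (F : ι → ℝ) :
    (∑ p ∈ s, fej K (g p) * F p) ^ 2 ≤ form dl s g F F / K := by
  have hK' : (0 : ℝ) < K := by exact_mod_cast hK
  have e : ∑ p ∈ s, fej K (g p) * F p =
      (∑ i ∈ range K, ∑ j ∈ range K, fib s g F ((j : ℤ) - i)) / (K : ℝ) ^ 2 := by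
    unfold fej fib
    simp only [div_mul_eq_mul_div, ← sum_div, sum_mul]
    congr 1
    rw [sum_comm]
    refine sum_congr rfl fun i _ => ?_
    rw [sum_comm]
    refine sum_congr rfl fun j _ => sum_congr rfl fun p _ => ?_
    congr 2; ring
  have h1 : ∀ i ∈ range K, (∑ j ∈ range K, fib s g F ((j : ℤ) - i)) ^ 2 ≤
      K * form dl s g F F := by
    intro i _
    have a1 := sq_sum_le_card_mul_sum_sq (s := range K) (f := fun j : ℕ => fib s g F ((j : ℤ) - i))
    have a2 := sum_fib_shift_sq_le s g F (range K) (fun j : ℕ => (j : ℤ) - i)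
      (fun a _ b _ h => by simpa using h)
    rw [card_range] at a1
    exact a1.trans (mul_le_mul_of_nonneg_left a2 hK'.le)
  have h2 := sq_sum_le_card_mul_sum_sq (s := range K)
    (f := fun i : ℕ => ∑ j ∈ range K, fib s g F ((j : ℤ) - i))
  rw [card_range] at h2
  have h3 : ∑ i ∈ range K, (∑ j ∈ range K, fib s g F ((j : ℤ) - i)) ^ 2 ≤
      K * (K * form dl s g F F) := by
    refine (sum_le_sum h1).trans (le_of_eq ?_)
    simp
  rw [e, div_pow, div_le_div_iff₀ (by positivity) hK']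
  have h4 := h2.trans (mul_le_mul_of_nonneg_left h3 hK'.le)
  nlinarith

lemma sum_sq_le_form_dl (s : Finset ι) (g : ι → ℤ) (F : ι → ℝ) (hF : ∀ p ∈ s, 0 ≤ F p) :
    ∑ p ∈ s, F p ^ 2 ≤ form dl s g F F := by
  unfold form
  refine sum_le_sum fun p hp => ?_
  have := single_le_sum (f := fun q => dl (g p - g q) * (F p * F q))
    (fun q hq => mul_nonneg (dl_nonneg _) (mul_nonneg (hF p hp) (hF q hq))) hp
  simpa [dl_zero, sq] using this

/-- the kernel delta minus window -/
noncomputable def bet (K : ℕ) (k : ℤ) : ℝ := dl k - fej K k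

lemma form_bet (K : ℕ) (s : Finset ι) (g : ι → ℤ) (F G : ι → ℝ) :
    form (bet K) s g F G = form dl s g F G - form (fej K) s g F G := by
  unfold form bet
  simp only [sub_mul, sum_sub_distrib]

lemma form_bet_nonneg (K : ℕ) (s : Finset ι) (g : ι → ℤ) (F : ι → ℝ) :
    0 ≤ form (bet K) s g F F := by
  rw [form_bet]; linarith [form_fej_le K s g F]

lemma bet_neg (K : ℕ) (k : ℤ) : bet K (-k) = bet K k := by
  unfold bet; rw [dl_neg, fej_neg]

lemma abs_bet_le (K : ℕ) (k : ℤ) : |bet K k| ≤ dl k + fej K k := by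
  unfold bet
  have := dl_nonneg k
  have := fej_nonneg K k
  rw [abs_le]; constructor <;> linarith

lemma abs_bet_mul_le (K : ℕ) (k : ℤ) : |bet K k| * |(k : ℝ)| ≤ K * fej K k := by
  by_cases hk : k = 0
  · subst hk; simp; exact mul_nonneg (Nat.cast_nonneg _) (fej_nonneg _ _)
  have e : |bet K k| = fej K k := by
    unfold bet; rw [dl_ne hk, zero_sub, abs_neg, abs_of_nonneg (fej_nonneg _ _)]
  rw [e]
  by_cases h : (K : ℤ) ≤ |k|
  · rw [fej_eq_zero h]; simp
  · have h1 : |k| ≤ K := by omega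
    have h2 : |(k : ℝ)| ≤ K := by exact_mod_cast h1
    rw [mul_comm]
    exact mul_le_mul_of_nonneg_right h2 (fej_nonneg _ _)

/-- test of the form at the origin -/
lemma form_bet_test (K : ℕ) (s : Finset ι) (g : ι → ℤ) (F H : ι → ℝ)
    (hH : ∀ p ∈ s, g p ≠ 0 → H p = 0) :
    2 * (∑ p ∈ s, H p) * (∑ p ∈ s, bet K (g p) * F p) - (∑ p ∈ s, H p) ^ 2 ≤
      form (bet K) s g F F := by
  have h0 := form_bet_nonneg K s g (fun p => F p - H p)
  have e1 : ∀ (G : ι → ℝ), ∑ p ∈ s, ∑ q ∈ s, bet K (g p - g q) * (G p * H q) =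
      (∑ p ∈ s, bet K (g p) * G p) * ∑ p ∈ s, H p := by
    intro G
    rw [sum_mul_sum]
    refine sum_congr rfl fun p _ => sum_congr rfl fun q hq => ?_
    by_cases h : g q = 0
    · rw [h, sub_zero]; ring
    · rw [hH q hq h]; ring
  have e2 : ∑ p ∈ s, ∑ q ∈ s, bet K (g p - g q) * (H p * F q) =
      (∑ p ∈ s, bet K (g p) * F p) * ∑ p ∈ s, H p := by
    rw [← e1 F, sum_comm]
    refine sum_congr rfl fun p _ => sum_congr rfl fun q _ => ?_
    rw [← bet_neg]; congr 1
    · congr 1; ring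
    · ring
  have e3 : ∑ p ∈ s, bet K (g p) * H p = bet K 0 * ∑ p ∈ s, H p := by
    rw [mul_sum]
    refine sum_congr rfl fun p hp => ?_
    by_cases h : g p = 0
    · rw [h]
    · rw [hH p hp h]; ring
  have e4 : form (bet K) s g (fun p => F p - H p) (fun p => F p - H p) =
      form (bet K) s g F F - ∑ p ∈ s, ∑ q ∈ s, bet K (g p - g q) * (F p * H q)
        - ∑ p ∈ s, ∑ q ∈ s, bet K (g p - g q) * (H p * F q)
        + ∑ p ∈ s, ∑ q ∈ s, bet K (g p - g q) * (H p * H q) := by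
    unfold form
    simp only [← sum_sub_distrib, ← sum_add_distrib]
    refine sum_congr rfl fun p _ => sum_congr rfl fun q _ => ?_
    ring
  rw [e4, e1 F, e2, e1 H, e3] at h0
  have hb : bet K 0 ≤ 1 := by
    unfold bet; rw [dl_zero]; linarith [fej_nonneg K 0]
  nlinarith [sq_nonneg (∑ p ∈ s, H p)]

end Pool.Agent.P.MP_d5a1e1_nt
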