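import Pool.Agent.P.MP_d5a1e1_nt.GapUpper

set_option autoImplicit false
set_option linter.unusedSectionVars false

namespace Pool.Agent.P.MP_d5a1e1_nt.Gap

open Finset Filter Topology

section

variable {β : Type} [Fintype β] [DecidableEq β] (v : β → ℕ)

/-- the multiset of values of a tuple -/
def ms {j : ℕ} (x : Fin j → β) : Multiset ℕ := univ.val.map fun i => v (x i)

theorem ms_comp_perm {j : ℕ} (x : Fin j → β) (π : Equiv.Perm (Fin j)) : ms v (x ∘ π) = ms v x := by
  unfold ms
  conv_rhs => rw [← Multiset.map_univ_val_equiv π, Multiset.map_map]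
  rfl

theorem exists_perm_of_ms (hv : Function.Injective v) {j : ℕ} {x y : Fin j → β}
    (h : ms v x = ms v y) : ∃ π : Equiv.Perm (Fin j), y ∘ π = x := by
  have hc : ∀ c : β, Fintype.card {i // x i = c} = Fintype.card {i // y i = c} := by
    intro c
    have := congrArg (Multiset.count (v c)) h
    simp only [ms, Multiset.count_map, hv.eq_iff] at this
    rw [Fintype.card_subtype, Fintype.card_subtype]
    simp only [eq_comm (b := c)]
    exact this
  exact ⟨Equiv.ofFiberEquiv fun c => Fintype.equivOfCardEq (hc c),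
    funext fun i => Equiv.ofFiberEquiv_map _ i⟩

theorem Rc_le_image (hv : Function.Injective v) (j n : ℕ) :
    Rc v j n ≤ j.factorial *
      ((univ.filter fun x : Fin j → β => sg v x = n).image (ms v)).card := by
  refine card_le_mul_card_image _ _ fun s hs => ?_
  obtain ⟨y, -, rfl⟩ := mem_image.1 hs
  calc _ ≤ (univ.image fun π : Equiv.Perm (Fin j) => y ∘ π).card := by
        refine card_le_card fun x hx => ?_
        obtain ⟨π, hπ⟩ := exists_perm_of_ms v hv (mem_filter.1 hx).2
        exact mem_image.2 ⟨π, mem_univ _, hπ⟩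
    _ ≤ _ := card_image_le.trans (by rw [card_univ, Fintype.card_perm, Fintype.card_fin])

theorem image_le_Rc (j n : ℕ) :
    j.factorial * ((univ.filter fun x : Fin j → β => sg v x = n).image (ms v)).card ≤
      Rc v j n + j.factorial * Rd v j n := by
  let S1 := univ.filter fun x : Fin j → β => sg v x = n ∧ Function.Injective x
  let S2 := univ.filter fun x : Fin j → β => sg v x = n ∧ ¬ Function.Injective x
  have e1 : (univ.filter fun x : Fin j → β => sg v x = n) ⊆ S1 ∪ S2 := by
    intro x hx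
    by_cases c : Function.Injective x
    · exact mem_union_left _ (mem_filter.2 ⟨mem_univ _, (mem_filter.1 hx).2, c⟩)
    · exact mem_union_right _ (mem_filter.2 ⟨mem_univ _, (mem_filter.1 hx).2, c⟩)
  have e2 : ((univ.filter fun x : Fin j → β => sg v x = n).image (ms v)).card ≤
      (S1.image (ms v)).card + Rd v j n := by
    refine (card_le_card (image_subset_image e1)).trans ?_
    rw [image_union]
    exact (card_union_le _ _).trans (Nat.add_le_add_left card_image_le _)
  have e3 : j.factorial * (S1.image (ms v)).card ≤ S1.card := by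
    refine mul_card_image_le_card _ _ fun s hs => ?_
    obtain ⟨y, hy, rfl⟩ := mem_image.1 hs
    obtain ⟨y1, y2⟩ := (mem_filter.1 hy).2
    calc j.factorial = (univ : Finset (Equiv.Perm (Fin j))).card := by
          rw [card_univ, Fintype.card_perm, Fintype.card_fin]
      _ ≤ _ := by
          refine card_le_card_of_injOn (fun π => y ∘ π) (fun π _ => ?_) fun π _ τ _ e => ?_
          · exact mem_coe.2 (mem_filter.2 ⟨mem_filter.2 ⟨mem_univ _, by rw [sg_comp_perm, y1],
              y2.comp π.injective⟩, ms_comp_perm v y π⟩)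
          · exact Equiv.ext fun i => y2 (congrFun e i)
  have e4 : S1.card ≤ Rc v j n :=
    card_le_card fun x hx => mem_filter.2 ⟨mem_univ _, (mem_filter.1 hx).2.1⟩
  have := Nat.mul_le_mul_left j.factorial e2
  rw [mul_add] at this
  omega

end

/-- the set of unordered representations -/
def Rep (h : ℕ) (A : Set ℕ) (n : ℕ) : Set (Multiset ℕ) :=
  {s : Multiset ℕ | Multiset.card s = h ∧ (∀ a ∈ s, a ∈ A) ∧ s.sum = n}

open Classical in
/-- truncation of `A` -/
abbrev Tr (A : Set ℕ) (T : ℕ) : Type := {x // x ∈ (range (T + 1)).filter fun x => x ∈ A}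

open Classical in
theorem image_subset_Rep (h : ℕ) (A : Set ℕ) (T n : ℕ) :
    (((univ.filter fun x : Fin h → Tr A T => sg Subtype.val x = n).image (ms Subtype.val) :
      Finset (Multiset ℕ)) : Set (Multiset ℕ)) ⊆ Rep h A n := by
  intro s hs
  obtain ⟨x, hx, rfl⟩ := mem_image.1 (mem_coe.1 hs)
  refine ⟨by simp [ms], fun a ha => ?_, (mem_filter.1 hx).2⟩
  obtain ⟨i, -, rfl⟩ := Multiset.mem_map.1 ha
  exact (mem_filter.1 (x i).2).2

open Classical in
theorem Rep_eq (h : ℕ) (A : Set ℕ) (T n : ℕ) (hT : n ≤ T) : Rep h A n =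
    (((univ.filter fun x : Fin h → Tr A T => sg Subtype.val x = n).image (ms Subtype.val) :
      Finset (Multiset ℕ)) : Set (Multiset ℕ)) := by
  refine Set.Subset.antisymm ?_ (image_subset_Rep h A T n)
  rintro s ⟨h1, h2, h3⟩
  induction s using Quotient.inductionOn with
  | h l =>
    simp only [Multiset.quot_mk_to_coe, Multiset.coe_card] at h1 h2 h3
    subst h1
    have hm : ∀ i : Fin l.length, l.get i ∈ (range (T + 1)).filter fun x => x ∈ A := by
      intro i
      have e : l.get i ∈ (l : Multiset ℕ) := Multiset.mem_coe.2 (List.get_mem l i)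
      have := Multiset.le_sum_of_mem e
      exact mem_filter.2 ⟨mem_range.2 (by omega), h2 _ e⟩
    have e : ms Subtype.val (fun i => (⟨l.get i, hm i⟩ : Tr A T)) = (l : Multiset ℕ) := by
      simp only [ms, Fin.univ_val_map, List.ofFn_get]
    refine mem_coe.2 (mem_image.2 ⟨fun i => ⟨l.get i, hm i⟩, mem_filter.2 ⟨mem_univ _, ?_⟩, e⟩)
    rw [← h3, ← e]
    rfl

theorem Rep_finite (h : ℕ) (A : Set ℕ) (n : ℕ) : (Rep h A n).Finite := by
  rw [Rep_eq h A n n le_rfl]
  exact finite_toSet _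

open Classical in
theorem Rc_le_Rep (h : ℕ) (A : Set ℕ) (T n : ℕ) :
    Rc (Subtype.val : Tr A T → ℕ) h n ≤ h.factorial * (Rep h A n).ncard := by
  refine (Rc_le_image _ Subtype.val_injective h n).trans (Nat.mul_le_mul_left _ ?_)
  rw [← Set.ncard_coe_finset]
  exact Set.ncard_le_ncard (image_subset_Rep h A T n) (Rep_finite h A n)

open Classical in
theorem Rep_le_Rc (h : ℕ) (A : Set ℕ) (T n : ℕ) (hT : n ≤ T) :
    h.factorial * (Rep h A n).ncard ≤ Rc (Subtype.val : Tr A T → ℕ) h n +
      h.factorial * Rd (Subtype.val : Tr A T → ℕ) h n := by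
  rw [Rep_eq h A T n hT, Set.ncard_coe_finset]
  exact image_le_Rc _ h n

theorem rep_zero_of_finite {h : ℕ} {A : Set ℕ} (hf : A.Finite) :
    ∃ B, ∀ n, B ≤ n → (Rep h A n).ncard = 0 := by
  obtain ⟨B, hB⟩ := hf.bddAbove
  refine ⟨h * B + 1, fun n hn => ?_⟩
  by_contra hc
  obtain ⟨s, h1, h2, h3⟩ := Set.nonempty_of_ncard_ne_zero hc
  have := Multiset.sum_le_card_nsmul s B fun x hx => hB (h2 x hx)
  rw [h1, h3, smul_eq_mul] at this
  omega

open Classical in
theorem quad_ineq (m k : ℕ) (hk : k ≤ m + 1) (A : Set ℕ) (hinf : A.Infinite) (a b n0 : ℕ)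
    (H : ∀ n, n0 ≤ n → (Rep (m + 1) A n).ncard ≤ b) (δ K' : ℝ) (hδ : 0 ≤ δ)
    (hE : ∀ N, (((range N).filter fun n => (Rep (m + 1) A n).ncard < a).card : ℝ) ≤ δ * N + K') :
    (a : ℝ) * b - (a + b - (1 - 1 / ((m + 1).choose k : ℝ))) ^ 2 / 4 ≤ a * b * δ := by
  set κ : ℝ := 1 - 1 / ((m + 1).choose k : ℝ) with hκdef
  set P : ℝ := ((m + 1).factorial : ℝ) with hPdef
  let f : Fin (m + 1) → Bool := fun i => decide (i.val < k)
  have hP : 1 ≤ P := by
    rw [hPdef]; exact_mod_cast Nat.factorial_pos (m + 1)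
  have hch : (0 : ℝ) < ((m + 1).choose k : ℝ) := by exact_mod_cast Nat.choose_pos hk
  have hκ : κ * P = (badPerms f).card := by
    have e1 : ((badPerms f).card : ℝ) + k.factorial * (m + 1 - k).factorial = P := by
      rw [hPdef]; exact_mod_cast card_badPerms k hk
    have e2 : ((m + 1).choose k : ℝ) * k.factorial * (m + 1 - k).factorial = P := by
      rw [hPdef]; exact_mod_cast Nat.choose_mul_factorial_mul_factorial hk
    rw [hκdef, sub_mul, one_mul, one_div, inv_mul_eq_div]
    have : P / ((m + 1).choose k : ℝ) = k.factorial * (m + 1 - k).factorial := by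
      rw [div_eq_iff hch.ne', ← e2]; ring
    linarith
  have hκ1 : κ ≤ 1 := by
    have : 0 ≤ 1 / ((m + 1).choose k : ℝ) := by positivity
    linarith
  set C : ℝ := P * b + ∑ n ∈ range n0, P * (Rep (m + 1) A n).ncard with hC
  have hs0 : 0 ≤ ∑ n ∈ range n0, P * (Rep (m + 1) A n).ncard :=
    sum_nonneg fun _ _ => by positivity
  have U : ∀ T n, (Rc (Subtype.val : Tr A T → ℕ) (m + 1) n : ℝ) ≤ P * (Rep (m + 1) A n).ncard :=
    fun T n => by rw [hPdef]; exact_mod_cast Rc_le_Rep (m + 1) A T n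
  have H2 : ∀ T n, n0 ≤ n → (Rc (Subtype.val : Tr A T → ℕ) (m + 1) n : ℝ) ≤ P * b := fun T n hn =>
    (U T n).trans (mul_le_mul_of_nonneg_left (by exact_mod_cast H n hn) (by linarith))
  have H1 : ∀ T n, (Rc (Subtype.val : Tr A T → ℕ) (m + 1) n : ℝ) ≤ C := by
    intro T n
    rcases le_or_gt n0 n with hn | hn
    · linarith [H2 T n hn]
    · have := single_le_sum (f := fun n => P * (Rep (m + 1) A n).ncard)
        (fun _ _ => by positivity) (mem_range.2 hn)
      have hb : 0 ≤ P * b := by positivity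
      linarith [U T n]
  have H3 : ∀ T n, ¬ (Rep (m + 1) A n).ncard < a → n ≤ T → P * a ≤ Rc (Subtype.val : Tr A T → ℕ) (m + 1) n +
      P * Rd (Subtype.val : Tr A T → ℕ) (m + 1) n := by
    intro T n hn hT
    refine (mul_le_mul_of_nonneg_left (show (a : ℝ) ≤ (Rep (m + 1) A n).ncard by
      exact_mod_cast not_lt.1 hn) (by linarith)).trans ?_
    rw [hPdef]; exact_mod_cast Rep_le_Rc (m + 1) A T n hT
  set c := (a : ℝ) * b - (a + b - κ) ^ 2 / 4 with hc
  set q : ℝ := ((m + 1 : ℕ) : ℝ) ^ 2 with hq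
  have step : ∀ N : ℕ, 0 < N → c ≤ a * b * δ + ((b + 1) * (q * C) + q * (4 * C) * C) / N := by
    intro N hN
    have hN' : (0 : ℝ) < N := by exact_mod_cast hN
    obtain ⟨F, hF, hFc⟩ := hinf.exists_subset_card_eq N
    set L := F.sup id + 1 with hL
    have H4 : ∀ T, L ≤ T → (N : ℝ) ≤ (univ.filter fun b : Tr A T => b.val ≤ L).card := by
      intro T hT
      have : F ⊆ (univ.filter fun b : Tr A T => b.val ≤ L).image Subtype.val := by
        intro x hx
        have hx' : x ≤ F.sup id := le_sup (f := id) hx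
        exact mem_image.2 ⟨⟨x, mem_filter.2 ⟨mem_range.2 (by omega), hF hx⟩⟩,
          mem_filter.2 ⟨mem_univ _, by show x ≤ L; omega⟩, rfl⟩
      exact_mod_cast hFc ▸ (card_le_card this).trans card_image_le
    let g : ℝ → ℝ → ℝ := fun ρ t => (1 - (ρ ^ L) ^ 2) * C ^ 2
      + a * b * (1 - (ρ ^ 2) ^ n0 + t + δ + (1 - ρ ^ 2) * K')
      + (b + 1) * (q * (C / N + (1 - ρ ^ 2) * (N : ℝ) ^ m))
      + (1 - ρ ^ 2) * (C ^ 2 * n0) + q * (ρ ^ L)⁻¹ * (4 * C / N) * C
    have s1 : ∀ ρ : ℝ, 0 < ρ → ρ < 1 → c ≤ g ρ 0 := by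
      intro ρ h0 h1
      have t1 : Tendsto (fun T : ℕ => (ρ ^ 2) ^ (T + 1)) atTop (𝓝 0) :=
        (tendsto_pow_atTop_nhds_zero_of_lt_one (by positivity) (by nlinarith)).comp
          (tendsto_add_atTop_nat 1)
      have t2 : Continuous (g ρ) := by unfold g; fun_prop
      refine ge_of_tendsto ((t2.tendsto 0).comp t1) ?_
      filter_upwards [eventually_ge_atTop (max n0 L)] with T hT
      exact finite_ineq Subtype.val h0 h1 m f n0 T L (le_of_max_le_left hT) (by omega) P κ a b C N N
        hP hκ hκ1 (by positivity) (by positivity) hN' hN' _ hδ hE (H1 T) (H2 T) (H3 T)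
        (H4 T (le_of_max_le_right hT))
    have s2 : ContinuousAt (fun ρ => g ρ 0) 1 := by
      unfold g
      fun_prop (disch := simp)
    have s3 : c ≤ g 1 0 := by
      refine ge_of_tendsto (s2.tendsto.mono_left (nhdsWithin_le_nhds (s := Set.Iio 1))) ?_
      filter_upwards [Ioo_mem_nhdsLT (show (0 : ℝ) < 1 by norm_num)] with ρ hρ
      exact s1 ρ hρ.1 hρ.2
    refine s3.trans (le_of_eq ?_)
    simp only [g, one_pow, sub_self, zero_mul, add_zero, mul_zero, inv_one, mul_one, zero_add]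
    field_simp
    ring
  have lim := (tendsto_const_div_atTop_nhds_zero_nat
    ((b + 1) * (q * C) + q * (4 * C) * C)).const_add (a * b * δ)
  rw [add_zero] at lim
  refine ge_of_tendsto lim ?_
  filter_upwards [eventually_gt_atTop 0] with N hN using step N hN

theorem linear_bound (c : ℕ → ℕ) (hc : ∀ N, c N ≤ N) {d : ℝ} (hd : 0 ≤ d)
    (h : limsup (fun N : ℕ => (c N : ℝ) / N) atTop < d) : ∃ K : ℝ, ∀ N : ℕ, (c N : ℝ) ≤ d * N + K := by
  have hb : IsBoundedUnder (· ≤ ·) atTop fun N : ℕ => (c N : ℝ) / N :=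
    isBoundedUnder_of ⟨1, fun N => div_le_one_of_le₀ (by exact_mod_cast hc N) (by positivity)⟩
  obtain ⟨N0, hN0⟩ := eventually_atTop.1 (eventually_lt_of_limsup_lt h hb)
  refine ⟨N0 + 1, fun N => ?_⟩
  rcases le_or_gt (N0 + 1) N with hN | hN
  · have := hN0 N (by omega)
    rw [div_lt_iff₀ (by exact_mod_cast (show 0 < N by omega))] at this
    have : (0 : ℝ) ≤ N0 + 1 := by positivity
    linarith
  · have h1 : (c N : ℝ) ≤ N0 + 1 := by exact_mod_cast (hc N).trans hN.le
    have : 0 ≤ d * N := by positivity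
    linarith

theorem main (h : ℕ) (hh : 2 ≤ h) (A : Set ℕ) (a b : ℕ)
    (H : ∃ N : ℕ, ∀ n : ℕ, N ≤ n →
      Set.ncard {s : Multiset ℕ | Multiset.card s = h ∧ (∀ x ∈ s, x ∈ A) ∧ s.sum = n} ≤ b) :
    4 * (a : ℝ) * b * (1 - Filter.limsup (fun N : ℕ => (Set.ncard {n : ℕ | n < N ∧
        Set.ncard {s : Multiset ℕ | Multiset.card s = h ∧ (∀ x ∈ s, x ∈ A) ∧ s.sum = n} < a} : ℝ)
          / N) Filter.atTop) ≤
      ((a : ℝ) + b - (1 - 1 / (h.choose (h / 2) : ℝ))) ^ 2 := by
  classical
  obtain ⟨n0, H⟩ := H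
  obtain ⟨m, rfl⟩ : ∃ m, h = m + 1 := ⟨h - 1, by omega⟩
  let c : ℕ → ℕ := fun N => ((range N).filter fun n => (Rep (m + 1) A n).ncard < a).card
  have ec : ∀ N : ℕ, Set.ncard {n : ℕ | n < N ∧
      Set.ncard {s : Multiset ℕ | Multiset.card s = m + 1 ∧ (∀ x ∈ s, x ∈ A) ∧ s.sum = n} < a} =
      c N := by
    intro N
    simp only [c]
    rw [← Set.ncard_coe_finset]
    congr 1
    ext n
    simp [Rep]
  simp only [ec]
  have hc : ∀ N, c N ≤ N := fun N => (card_filter_le _ _).trans (card_range N).le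
  set d := limsup (fun N : ℕ => (c N : ℝ) / N) atTop with hd
  have hab : (0 : ℝ) ≤ a * b := by positivity
  have hb : IsBoundedUnder (· ≤ ·) atTop fun N : ℕ => (c N : ℝ) / N :=
    isBoundedUnder_of ⟨1, fun N => div_le_one_of_le₀ (by exact_mod_cast hc N) (by positivity)⟩
  have hd0 : 0 ≤ d := le_limsup_of_frequently_le
    (Frequently.of_forall fun N => by positivity) hb
  rcases A.finite_or_infinite with hf | hinf
  · rcases Nat.eq_zero_or_pos a with rfl | ha
    · simp only [Nat.cast_zero, mul_zero, zero_mul]; positivity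
    obtain ⟨B, hB⟩ := rep_zero_of_finite (h := m + 1) hf
    have hd1 : 1 ≤ d := by
      by_contra hlt
      obtain ⟨d', h1, h2⟩ := exists_between (not_le.1 hlt)
      obtain ⟨K, hK⟩ := linear_bound c hc (hd0.trans h1.le) h1
      obtain ⟨N, hN⟩ := exists_nat_gt ((K + B) / (1 - d'))
      rw [div_lt_iff₀ (by linarith)] at hN
      have e1 : N ≤ c N + B := by
        have : range N ⊆ ((range N).filter fun n => (Rep (m + 1) A n).ncard < a) ∪ range B := by
          intro n hn
          rcases lt_or_ge n B with h | h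
          · exact mem_union_right _ (mem_range.2 h)
          · exact mem_union_left _ (mem_filter.2 ⟨hn, by rw [hB n h]; exact ha⟩)
        have := (card_le_card this).trans (card_union_le _ _)
        rwa [card_range, card_range] at this
      have e2 : (N : ℝ) ≤ c N + B := by exact_mod_cast e1
      have := hK N
      linarith
    nlinarith [sq_nonneg ((a : ℝ) + b - (1 - 1 / (((m + 1).choose ((m + 1) / 2) : ℕ) : ℝ)))]
  · have key : ∀ d', d < d' → (a : ℝ) * b -
        (a + b - (1 - 1 / ((m + 1).choose ((m + 1) / 2) : ℝ))) ^ 2 / 4 ≤ a * b * d' := by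
      intro d' h1
      obtain ⟨K, hK⟩ := linear_bound c hc (hd0.trans h1.le) h1
      exact quad_ineq m _ (Nat.div_le_self _ _) A hinf a b n0 H d' K (hd0.trans h1.le) hK
    have t : Tendsto (fun d' : ℝ => (a : ℝ) * b * d') (𝓝[>] d) (𝓝 (a * b * d)) :=
      ((continuous_const.mul continuous_id).tendsto d).mono_left nhdsWithin_le_nhds
    have := ge_of_tendsto t (eventually_nhdsWithin_of_forall key)
    linarith

/-- asymptotic bases of order at least three have at least four representations infinitely often -/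
theorem four_le (h : ℕ) (hh : 3 ≤ h) (A : Set ℕ)
    (hA : ∃ N : ℕ, ∀ n : ℕ, N ≤ n →
      ∃ s : Multiset ℕ, Multiset.card s = h ∧ (∀ a ∈ s, a ∈ A) ∧ s.sum = n) (N : ℕ) :
    ∃ n : ℕ, N ≤ n ∧
      3 < Set.ncard {s : Multiset ℕ | Multiset.card s = h ∧ (∀ a ∈ s, a ∈ A) ∧ s.sum = n} := by
  classical
  by_contra hcon
  push Not at hcon
  obtain ⟨n0, hA⟩ := hA
  obtain ⟨m, rfl⟩ : ∃ m, h = m + 1 := ⟨h - 1, by omega⟩
  have h1 : ∀ n, n0 ≤ n → 1 ≤ (Rep (m + 1) A n).ncard := fun n hn =>
    (Set.ncard_pos (Rep_finite _ _ _)).2 (hA n hn)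
  have hinf : A.Infinite := by
    intro hf
    obtain ⟨B, hB⟩ := rep_zero_of_finite (h := m + 1) hf
    have := h1 (max n0 B) (le_max_left _ _)
    rw [hB _ (le_max_right _ _)] at this
    omega
  have := quad_ineq m 1 (by omega) A hinf 1 3 N hcon 0 n0 le_rfl fun T => by
    have : ((range T).filter fun n => (Rep (m + 1) A n).ncard < 1) ⊆ range n0 := by
      intro n hn
      rw [mem_range]
      by_contra hc
      have := h1 n (not_lt.1 hc)
      have := (mem_filter.1 hn).2
      omega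
    have := (card_le_card this).trans (card_range n0).le
    rw [zero_mul, zero_add]
    exact_mod_cast this
  rw [Nat.choose_one_right] at this
  have h3 : (3 : ℝ) ≤ ((m + 1 : ℕ) : ℝ) := by exact_mod_cast hh
  have h4 : 1 / ((m + 1 : ℕ) : ℝ) ≤ 1 / 3 := one_div_le_one_div_of_le (by norm_num) h3
  have h5 : 0 ≤ 1 / ((m + 1 : ℕ) : ℝ) := by positivity
  generalize 1 / ((m + 1 : ℕ) : ℝ) = t at this h4 h5
  push_cast at this
  nlinarith

end Pool.Agent.P.MP_d5a1e1_nt.Gap
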