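import Pool.Agent.P.MP_d5a1e1_nt.Eight
import Pool.Agent.P.MP_d5a1e1_nt.GapMain

/-! Four representations infinitely often for asymptotic bases of every order. -/

namespace Pool.Agent.P.MP_d5a1e1_nt

theorem four_two (A : Set ℕ)
    (hA : ∃ N : ℕ, ∀ n : ℕ, N ≤ n →
      ∃ s : Multiset ℕ, Multiset.card s = 2 ∧ (∀ a ∈ s, a ∈ A) ∧ s.sum = n) (N : ℕ) :
    ∃ n : ℕ, N ≤ n ∧
      4 ≤ Set.ncard {s : Multiset ℕ | Multiset.card s = 2 ∧ (∀ a ∈ s, a ∈ A) ∧ s.sum = n} := by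
  obtain ⟨N₀, hN₀⟩ := hA
  obtain ⟨n, hn, h4⟩ := four_reps A ⟨210 * N₀, fun M hM => by
    have : Set.ncard {n : ℕ | n < M ∧ ¬ ∃ a ∈ A, ∃ b ∈ A, a + b = n} ≤ N₀ := by
      have h1 : Set.ncard (Finset.range N₀ : Set ℕ) = N₀ := by
        rw [Set.ncard_coe_finset, Finset.card_range]
      rw [← h1]
      refine Set.ncard_le_ncard (fun n hn => ?_) (Finset.finite_toSet _)
      simp only [Finset.coe_range, Set.mem_Iio]
      by_contra hge
      obtain ⟨s, hs, hsA, hsum⟩ := hN₀ n (by omega)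
      obtain ⟨a, b, rfl⟩ := Multiset.card_eq_two.1 hs
      exact hn.2 ⟨a, hsA a (by simp), b, hsA b (by simp), by simpa using hsum⟩
    omega⟩ N
  refine ⟨n, hn, h4.trans ?_⟩
  refine Set.ncard_le_ncard_of_injOn (fun p : ℕ × ℕ => ({p.1, p.2} : Multiset ℕ)) ?_ ?_
    (Gap.Rep_finite 2 A n)
  · rintro ⟨a, b⟩ ⟨ha, hb, -, hab⟩
    refine ⟨by simp, ?_, by simpa using hab⟩
    intro x hx
    simp only [Multiset.insert_eq_cons, Multiset.mem_cons, Multiset.mem_singleton] at hx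
    rcases hx with rfl | rfl
    · exact ha
    · exact hb
  · rintro ⟨a, b⟩ ⟨-, -, h1, h2⟩ ⟨c, d⟩ ⟨-, -, h3, h5⟩ he
    simp only at h1 h2 h3 h5 he
    have m1 : a ∈ ({c, d} : Multiset ℕ) := by rw [← he]; simp
    have m2 : c ∈ ({a, b} : Multiset ℕ) := by rw [he]; simp
    simp only [Multiset.insert_eq_cons, Multiset.mem_cons, Multiset.mem_singleton] at m1 m2
    ext <;> simp only <;> omega

theorem four_all : ∀ h : ℕ, 2 ≤ h → ∀ A : Set ℕ,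
    (∃ N : ℕ, ∀ n : ℕ, N ≤ n →
      ∃ s : Multiset ℕ, Multiset.card s = h ∧ (∀ a ∈ s, a ∈ A) ∧ s.sum = n) →
    ∀ N : ℕ, ∃ n : ℕ, N ≤ n ∧
      4 ≤ Set.ncard {s : Multiset ℕ | Multiset.card s = h ∧ (∀ a ∈ s, a ∈ A) ∧ s.sum = n} := by
  intro h hh A hA N
  rcases Nat.eq_or_lt_of_le hh with rfl | h3
  · exact four_two A hA N
  · exact Gap.four_le h h3 A hA N

end Pool.Agent.P.MP_d5a1e1_nt
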