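import Mathlib

set_option autoImplicit false
set_option linter.unusedSectionVars false

namespace Pool.Agent.P.MP_d5a1e1_nt.Gap

open Finset

section Energy

variable {P Q γ : Type} [Fintype P] [Fintype Q] [DecidableEq γ]

/-- weighted number of pairs with equal values -/
def Bil (w : P → ℝ) (s : P → γ) (w' : Q → ℝ) (s' : Q → γ) : ℝ :=
  ∑ p, ∑ q, if s p = s' q then w p * w' q else 0

/-- weighted fibre -/
def Fib (w : P → ℝ) (s : P → γ) (d : γ) : ℝ := ∑ p, if s p = d then w p else 0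

theorem sum_fib (w : P → ℝ) (s : P → γ) (D : Finset γ) (hD : ∀ p, s p ∈ D) (g : γ → ℝ) :
    ∑ d ∈ D, Fib w s d * g d = ∑ p, w p * g (s p) := by
  simp only [Fib, sum_mul]
  rw [sum_comm]
  refine sum_congr rfl fun p _ => ?_
  simp only [ite_mul, zero_mul]
  rw [sum_ite_eq, if_pos (hD p)]

theorem bil_eq (w : P → ℝ) (s : P → γ) (w' : Q → ℝ) (s' : Q → γ) (D : Finset γ)
    (hD : ∀ p, s p ∈ D) : Bil w s w' s' = ∑ d ∈ D, Fib w s d * Fib w' s' d := by
  rw [sum_fib w s D hD]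
  simp only [Bil, Fib, mul_sum, mul_ite, mul_zero, eq_comm]

theorem two_bil_le (w : P → ℝ) (s : P → γ) (w' : Q → ℝ) (s' : Q → γ) :
    2 * Bil w s w' s' ≤ Bil w s w s + Bil w' s' w' s' := by
  let D := univ.image s ∪ univ.image s'
  have h1 : ∀ p, s p ∈ D := fun p => mem_union_left _ (mem_image_of_mem _ (mem_univ p))
  have h2 : ∀ q, s' q ∈ D := fun q => mem_union_right _ (mem_image_of_mem _ (mem_univ q))
  rw [bil_eq w s w' s' D h1, bil_eq w s w s D h1, bil_eq w' s' w' s' D h2, mul_sum,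
    ← sum_add_distrib]
  refine sum_le_sum fun d _ => ?_
  nlinarith [sq_nonneg (Fib w s d - Fib w' s' d)]

theorem bil_shift_le (w : P → ℝ) (s : P → ℤ) (i j : ℤ) :
    Bil w (fun p => s p + i) w (fun p => s p + j) ≤ Bil w s w s := by
  have := two_bil_le w (fun p => s p + i) w (fun p => s p + j)
  simp only [Bil, add_left_inj] at this ⊢
  linarith

theorem geom_le (ρ : ℝ) (N : ℕ) :
    (1 - ρ ^ 2) * ∑ n ∈ range N, (ρ ^ n) ^ 2 ≤ 1 := by
  have : ∑ n ∈ range N, (ρ ^ n) ^ 2 = ∑ n ∈ range N, (ρ ^ 2) ^ n :=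
    sum_congr rfl fun n _ => by rw [← pow_mul, ← pow_mul, mul_comm]
  rw [this, mul_neg_geom_sum]
  have : 0 ≤ (ρ ^ 2) ^ N := by positivity
  linarith

theorem cs_energy {ρ : ℝ} (h0 : 0 ≤ ρ) (h1 : ρ < 1) (w : P → ℝ) (s : P → ℕ) :
    (1 - ρ ^ 2) * (∑ p, w p * ρ ^ s p) ^ 2 ≤ Bil w s w s := by
  let N := univ.sup s + 1
  have hD : ∀ p, s p ∈ range N := fun p =>
    mem_range.2 (Nat.lt_succ_of_le (le_sup (f := s) (mem_univ p)))
  rw [bil_eq w s w s _ hD, ← sum_fib w s _ hD]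
  have hu : 0 ≤ 1 - ρ ^ 2 := by nlinarith
  have cs := sum_mul_sq_le_sq_mul_sq (range N) (Fib w s) (fun n => ρ ^ n)
  have hg := geom_le ρ N
  have hp : 0 ≤ ∑ d ∈ range N, Fib w s d ^ 2 := sum_nonneg fun _ _ => sq_nonneg _
  simp only [← sq]
  calc _ ≤ (1 - ρ ^ 2) * ((∑ d ∈ range N, Fib w s d ^ 2) * ∑ n ∈ range N, (ρ ^ n) ^ 2) :=
        mul_le_mul_of_nonneg_left cs hu
    _ = (∑ d ∈ range N, Fib w s d ^ 2) * ((1 - ρ ^ 2) * ∑ n ∈ range N, (ρ ^ n) ^ 2) := by ring
    _ ≤ _ := by nlinarith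

/-- Fejer smoothing of the energy -/
theorem fejer_lower {ρ : ℝ} (h0 : 0 ≤ ρ) (h1 : ρ < 1) (s : P → ℕ) (L : ℕ) :
    (1 - ρ ^ 2) * ((L : ℝ) * ρ ^ L * ∑ p, ρ ^ (2 * s p)) ^ 2 ≤
      ∑ i : Fin L, ∑ j : Fin L,
        Bil (fun p => ρ ^ s p) (fun p => s p + i) (fun p => ρ ^ s p) (fun p => s p + j) := by
  have key := cs_energy (P := Fin L × P) h0 h1 (fun z => ρ ^ s z.2) (fun z => s z.2 + z.1)
  have e1 : Bil (fun z : Fin L × P => ρ ^ s z.2) (fun z => s z.2 + z.1)
      (fun z : Fin L × P => ρ ^ s z.2) (fun z => s z.2 + z.1) = ∑ i : Fin L, ∑ j : Fin L,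
        Bil (fun p => ρ ^ s p) (fun p => s p + i) (fun p => ρ ^ s p) (fun p => s p + j) := by
    simp only [Bil, Fintype.sum_prod_type]
    refine sum_congr rfl fun i _ => ?_
    rw [sum_comm]
  rw [← e1]
  refine le_trans (mul_le_mul_of_nonneg_left ?_ (by nlinarith)) key
  refine pow_le_pow_left₀ (by positivity) ?_ 2
  rw [Fintype.sum_prod_type]
  calc (L : ℝ) * ρ ^ L * ∑ p, ρ ^ (2 * s p) = ∑ _i : Fin L, ∑ p, ρ ^ (2 * s p + L) := by
        simp only [sum_const, card_univ, Fintype.card_fin, nsmul_eq_mul, pow_add, ← sum_mul]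
        ring
    _ ≤ _ := by
        refine sum_le_sum fun i _ => sum_le_sum fun p _ => ?_
        rw [← pow_add]
        exact pow_le_pow_of_le_one h0 h1.le (by have := i.isLt; dsimp only; omega)

end Energy

section Tuples

variable {β : Type} [Fintype β] [DecidableEq β] (v : β → ℕ) (ρ : ℝ)

/-- sum of a tuple -/
def sg {j : ℕ} (x : Fin j → β) : ℕ := ∑ i, v (x i)

/-- the generating function at `ρ ^ 2` -/
def Mw : ℝ := ∑ b, ρ ^ (2 * v b)

/-- shifted energy of `j`-tuples -/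
def En (j : ℕ) (a b : ℕ) : ℝ :=
  Bil (fun x : Fin j → β => ρ ^ sg v x) (fun x => sg v x + a)
    (fun x : Fin j → β => ρ ^ sg v x) (fun x => sg v x + b)

theorem sum_wt (j : ℕ) : ∑ x : Fin j → β, ρ ^ (2 * sg v x) = Mw v ρ ^ j := by
  rw [Mw, Fintype.sum_pow]
  refine sum_congr rfl fun x _ => ?_
  rw [prod_pow_eq_pow_sum, sg, mul_sum]

theorem sg_insertNth {m : ℕ} (a : Fin (m + 1)) (c : β) (x : Fin m → β) :
    sg v (Fin.insertNth (α := fun _ => β) a c x) = v c + sg v x := by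
  simp [sg, Fin.sum_univ_succAbove _ a]

theorem sum_insertNth {m : ℕ} (a : Fin (m + 1)) (F : (Fin (m + 1) → β) → ℝ) :
    ∑ x, F x = ∑ c : β, ∑ x : Fin m → β, F (Fin.insertNth (α := fun _ => β) a c x) := by
  rw [← (Fin.insertNthEquiv (fun _ => β) a).sum_comp, Fintype.sum_prod_type]
  rfl

theorem sg_comp_perm {j : ℕ} (x : Fin j → β) (π : Equiv.Perm (Fin j)) : sg v (x ∘ π) = sg v x :=
  Equiv.sum_comp π fun i => v (x i)

/-- pairs with a common entry -/
theorem common_eq {m : ℕ} (a b : Fin (m + 1)) (i j : ℕ) :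
    (∑ x : Fin (m + 1) → β, ∑ y : Fin (m + 1) → β,
      if sg v x + i = sg v y + j ∧ x a = y b then ρ ^ sg v x * ρ ^ sg v y else 0) =
      Mw v ρ * En v ρ m i j := by
  rw [sum_insertNth a, Mw, sum_mul]
  refine sum_congr rfl fun c _ => ?_
  rw [En, Bil, mul_sum]
  refine sum_congr rfl fun x _ => ?_
  rw [sum_insertNth b, sum_comm, mul_sum]
  refine sum_congr rfl fun y _ => ?_
  simp only [sg_insertNth, Fin.insertNth_apply_same]
  rw [sum_eq_single c]
  · simp only [and_true, add_assoc, add_right_inj]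
    split_ifs
    · ring
    · simp
  · intro d _ hd
    rw [if_neg]
    exact fun h => hd h.2.symm
  · simp

variable {ρ}

/-- weight of the tuples with a repeated entry -/
def Dg (ρ : ℝ) (j : ℕ) : ℝ := ∑ x : Fin j → β, if Function.Injective x then 0 else ρ ^ (2 * sg v x)

theorem Dg_le (h0 : 0 ≤ ρ) (h1 : ρ < 1) (m : ℕ) :
    Dg v ρ (m + 1) ≤ ((m + 1 : ℕ) : ℝ) * m * Mw v ρ ^ m := by
  have step : ∀ x : Fin (m + 1) → β, (if Function.Injective x then 0 else ρ ^ (2 * sg v x)) ≤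
      ∑ a : Fin (m + 1), ∑ b : Fin m, if x a = x (a.succAbove b) then ρ ^ (2 * sg v x) else 0 := by
    intro x
    have hnn : ∀ (a : Fin (m + 1)) (b : Fin m),
        0 ≤ (if x a = x (a.succAbove b) then ρ ^ (2 * sg v x) else 0) := fun a b => by
      split_ifs <;> positivity
    split_ifs with h
    · exact sum_nonneg fun a _ => sum_nonneg fun b _ => hnn a b
    · simp only [Function.Injective, not_forall] at h
      obtain ⟨a, a', h2, h3⟩ := h
      obtain ⟨b, rfl⟩ := Fin.exists_succAbove_eq (Ne.symm h3)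
      refine le_trans ?_ (single_le_sum (f := fun a => ∑ b : Fin m,
        if x a = x (a.succAbove b) then ρ ^ (2 * sg v x) else 0)
        (fun a _ => sum_nonneg fun b _ => hnn a b) (mem_univ a))
      refine le_trans ?_ (single_le_sum (fun b _ => hnn a b) (mem_univ b))
      rw [if_pos h2]
  refine (sum_le_sum fun x _ => step x).trans ?_
  rw [sum_comm]
  have : ∀ (a : Fin (m + 1)) (b : Fin m), (∑ x : Fin (m + 1) → β,
      if x a = x (a.succAbove b) then ρ ^ (2 * sg v x) else 0) ≤ Mw v ρ ^ m := by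
    intro a b
    rw [sum_insertNth a, sum_comm, ← sum_wt]
    refine sum_le_sum fun x _ => ?_
    simp only [Fin.insertNth_apply_same, Fin.insertNth_apply_succAbove, sg_insertNth]
    rw [sum_ite_eq', if_pos (mem_univ _)]
    exact pow_le_pow_of_le_one h0 h1.le (by omega)
  calc _ ≤ ∑ _a : Fin (m + 1), ∑ _b : Fin m, Mw v ρ ^ m := by
        refine sum_le_sum fun a _ => ?_
        rw [sum_comm]
        exact sum_le_sum fun b _ => this a b
    _ = _ := by simp [mul_assoc]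

/-- the smoothed energy of short tuples is small -/
theorem smooth_le (h0 : 0 < ρ) (h1 : ρ < 1) (m L : ℕ) (W : ℝ)
    (hW : ∀ c : ℕ, ((univ.filter fun y : Fin m → β => c ≤ sg v y + L ∧ sg v y ≤ c + L).card : ℝ) ≤ W) :
    ∑ i : Fin L, ∑ j : Fin L, En v ρ m i j ≤ L * (ρ ^ L)⁻¹ * W * Mw v ρ ^ m := by
  simp only [En, Bil]
  have e1 : ∀ (x y : Fin m → β), (∑ i : Fin L, ∑ j : Fin L,
      if sg v x + i = sg v y + j then ρ ^ sg v x * ρ ^ sg v y else 0) ≤
      if sg v x ≤ sg v y + L ∧ sg v y ≤ sg v x + L then L * (ρ ^ L)⁻¹ * ρ ^ (2 * sg v x) else 0 := by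
    intro x y
    split_ifs with h
    · have b1 : ρ ^ sg v x * ρ ^ sg v y ≤ (ρ ^ L)⁻¹ * ρ ^ (2 * sg v x) := by
        rw [le_inv_mul_iff₀ (by positivity), ← pow_add, ← pow_add]
        exact pow_le_pow_of_le_one h0.le h1.le (by omega)
      calc _ ≤ ∑ _i : Fin L, (ρ ^ L)⁻¹ * ρ ^ (2 * sg v x) := by
            refine sum_le_sum fun i _ => ?_
            by_cases hex : ∃ j : Fin L, sg v x + i = sg v y + j
            · obtain ⟨j, hj⟩ := hex
              rw [sum_eq_single j, if_pos hj]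
              · exact b1
              · intro j' _ hne
                rw [if_neg]
                intro h'
                exact hne (Fin.ext (by omega))
              · simp
            · rw [sum_eq_zero fun j _ => if_neg fun h' => hex ⟨j, h'⟩]
              positivity
        _ = _ := by simp [mul_assoc]
    · refine le_of_eq (sum_eq_zero fun i _ => sum_eq_zero fun j _ => if_neg fun h' => h ?_)
      have := i.isLt
      have := j.isLt
      omega
  calc _ = ∑ x : Fin m → β, ∑ y : Fin m → β, ∑ i : Fin L, ∑ j : Fin L,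
        if sg v x + i = sg v y + j then ρ ^ sg v x * ρ ^ sg v y else 0 := by
        simp only [← Fintype.sum_prod_type']
        exact Fintype.sum_equiv ⟨fun z => (z.2.2.1, z.2.2.2, z.1, z.2.1),
          fun z => (z.2.2.1, z.2.2.2, z.1, z.2.1), fun _ => rfl, fun _ => rfl⟩ _ _ fun _ => rfl
    _ ≤ ∑ x : Fin m → β, L * (ρ ^ L)⁻¹ * W * ρ ^ (2 * sg v x) := by
        refine sum_le_sum fun x _ => (sum_le_sum fun y _ => e1 x y).trans ?_
        rw [← sum_filter, sum_const, nsmul_eq_mul]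
        have := hW (sg v x)
        have hp : 0 ≤ L * (ρ ^ L)⁻¹ * ρ ^ (2 * sg v x) := by positivity
        nlinarith
    _ = _ := by rw [← mul_sum, sum_wt]

end Tuples

end Pool.Agent.P.MP_d5a1e1_nt.Gap
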