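import Pool.Agent.P.MP_d5a1e1_nt.GapEnergy

set_option autoImplicit false
set_option linter.unusedSectionVars false

namespace Pool.Agent.P.MP_d5a1e1_nt.Gap

open Finset

variable {β : Type} [Fintype β] [DecidableEq β] (v : β → ℕ) {ρ : ℝ} {h : ℕ} (f : Fin h → Bool)

/-- mix two tuples -/
def pw (x y : Fin h → β) : Fin h → β := fun i => if f i then x i else y i

/-- no entry of the first block equals an entry of the second block -/
def Nd (p : Fin h → β) : Prop := ∀ i j, f i = true → f j = false → p i ≠ p j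

instance (p : Fin h → β) : Decidable (Nd f p) := by unfold Nd; infer_instance

/-- signed sum -/
def ss (p : Fin h → β) : ℤ := ∑ i, if f i then (v (p i) : ℤ) else -(v (p i) : ℤ)

theorem pw_pw (x y : Fin h → β) : pw f (pw f x y) (pw f y x) = x := by
  funext i
  simp only [pw]
  split_ifs <;> rfl

theorem ss_pw (x y : Fin h → β) :
    ss v f (pw f x y) - ss v f (pw f y x) = (sg v x : ℤ) - sg v y := by
  simp only [ss, sg, pw, Nat.cast_sum, ← sum_sub_distrib]
  refine sum_congr rfl fun i _ => ?_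
  split_ifs <;> ring

theorem sg_pw (x y : Fin h → β) : sg v (pw f x y) + sg v (pw f y x) = sg v x + sg v y := by
  simp only [sg, pw, ← sum_add_distrib]
  refine sum_congr rfl fun i _ => ?_
  split_ifs <;> ring

/-- energy restricted to non-degenerate pairs -/
def Nn (ρ : ℝ) (a b : ℕ) : ℝ :=
  ∑ x : Fin h → β, ∑ y : Fin h → β,
    if sg v x + a = sg v y + b ∧ Nd f (pw f x y) ∧ Nd f (pw f y x)
      then ρ ^ sg v x * ρ ^ sg v y else 0

theorem Nn_eq (a b : ℕ) : Nn v f ρ a b =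
    Bil (fun p : Fin h → β => if Nd f p then ρ ^ sg v p else 0) (fun p => ss v f p + a)
      (fun p : Fin h → β => if Nd f p then ρ ^ sg v p else 0) (fun p => ss v f p + b) := by
  simp only [Nn, Bil, ← Fintype.sum_prod_type']
  refine Fintype.sum_equiv ⟨fun z => (pw f z.1 z.2, pw f z.2 z.1),
    fun z => (pw f z.1 z.2, pw f z.2 z.1), fun z => ?_, fun z => ?_⟩ _ _ fun z => ?_
  · simp [pw_pw]
  · simp [pw_pw]
  · obtain ⟨x, y⟩ := z
    have e1 := ss_pw v f x y
    have e2 := sg_pw v f x y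
    have e3 : (ss v f (pw f x y) + a = ss v f (pw f y x) + b) ↔ sg v x + a = sg v y + b := by
      omega
    simp only [Equiv.coe_fn_mk, e3]
    by_cases c1 : sg v x + a = sg v y + b <;> by_cases c2 : Nd f (pw f x y) <;>
      by_cases c3 : Nd f (pw f y x) <;> simp [c1, c2, c3, ← pow_add, e2]

theorem Nn_le (a b : ℕ) : Nn v f ρ a b ≤ Nn v f ρ 0 0 := by
  rw [Nn_eq, Nn_eq]
  simpa using bil_shift_le (fun p : Fin h → β => if Nd f p then ρ ^ sg v p else 0) (ss v f) a b

theorem En_le_Nn (h0 : 0 ≤ ρ) {m : ℕ} (f : Fin (m + 1) → Bool) (a b : ℕ) :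
    En v ρ (m + 1) a b ≤ Nn v f ρ a b + ((m + 1 : ℕ) : ℝ) ^ 2 * (Mw v ρ * En v ρ m a b) := by
  have e : ((m + 1 : ℕ) : ℝ) ^ 2 * (Mw v ρ * En v ρ m a b) =
      ∑ x : Fin (m + 1) → β, ∑ y : Fin (m + 1) → β, ∑ i : Fin (m + 1), ∑ j : Fin (m + 1),
        if sg v x + a = sg v y + b ∧ x i = y j then ρ ^ sg v x * ρ ^ sg v y else 0 := by
    calc _ = ∑ i : Fin (m + 1), ∑ j : Fin (m + 1), ∑ x : Fin (m + 1) → β, ∑ y : Fin (m + 1) → β,
        if sg v x + a = sg v y + b ∧ x i = y j then ρ ^ sg v x * ρ ^ sg v y else 0 := by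
          simp only [common_eq, sum_const, card_univ, Fintype.card_fin, nsmul_eq_mul]
          ring
      _ = _ := by
          simp only [← Fintype.sum_prod_type']
          exact Fintype.sum_equiv ⟨fun z => (z.2.2.1, z.2.2.2, z.1, z.2.1),
            fun z => (z.2.2.1, z.2.2.2, z.1, z.2.1), fun _ => rfl, fun _ => rfl⟩ _ _ fun _ => rfl
  rw [e, En, Bil, Nn, ← sum_add_distrib]
  refine sum_le_sum fun x _ => ?_
  rw [← sum_add_distrib]
  refine sum_le_sum fun y _ => ?_
  have hnn : ∀ i j : Fin (m + 1),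
      0 ≤ (if sg v x + a = sg v y + b ∧ x i = y j then ρ ^ sg v x * ρ ^ sg v y else 0) :=
    fun i j => by split_ifs <;> positivity
  have hs : 0 ≤ ∑ i : Fin (m + 1), ∑ j : Fin (m + 1),
      (if sg v x + a = sg v y + b ∧ x i = y j then ρ ^ sg v x * ρ ^ sg v y else 0) :=
    sum_nonneg fun i _ => sum_nonneg fun j _ => hnn i j
  by_cases c1 : sg v x + a = sg v y + b
  swap
  · rw [if_neg c1, if_neg (fun h => c1 h.1)]; linarith
  by_cases c2 : Nd f (pw f x y) ∧ Nd f (pw f y x)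
  · rw [if_pos c1, if_pos ⟨c1, c2⟩]; linarith
  have hex : ∃ i j, x i = y j := by
    by_contra hc
    push Not at hc
    refine c2 ⟨fun i j hi hj => ?_, fun i j hi hj => ?_⟩
    · simpa [pw, hi, hj] using hc i j
    · simpa [pw, hi, hj] using (hc j i).symm
  obtain ⟨i, j, hij⟩ := hex
  rw [if_pos c1, if_neg (fun h => c2 h.2), zero_add]
  refine le_trans ?_ (single_le_sum (f := fun i => ∑ j : Fin (m + 1),
    (if sg v x + a = sg v y + b ∧ x i = y j then ρ ^ sg v x * ρ ^ sg v y else 0))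
    (fun i _ => sum_nonneg fun j _ => hnn i j) (mem_univ i))
  refine le_trans ?_ (single_le_sum (fun j _ => hnn i j) (mem_univ j))
  rw [if_pos ⟨c1, hij⟩]

/-- permutations that move the blocks -/
def badPerms : Finset (Equiv.Perm (Fin h)) := univ.filter fun π => ¬ f ∘ π = f

theorem Nn_add_le (h0 : 0 ≤ ρ) :
    Nn v f ρ 0 0 + (badPerms f).card * (Mw v ρ ^ h - Dg v ρ h) ≤ En v ρ h 0 0 := by
  rw [← sum_wt, Dg, ← sum_sub_distrib, mul_sum, Nn, En, Bil, ← sum_add_distrib]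
  refine sum_le_sum fun x _ => ?_
  have hle : ∀ y : Fin h → β, (if sg v x + 0 = sg v y + 0 ∧ Nd f (pw f x y) ∧ Nd f (pw f y x)
      then ρ ^ sg v x * ρ ^ sg v y else 0) ≤
      (if sg v x + 0 = sg v y + 0 then ρ ^ sg v x * ρ ^ sg v y else 0) := by
    intro y
    split_ifs with c1 c2 c2
    · exact le_rfl
    · exact (c2 c1.1).elim
    · positivity
    · exact le_rfl
  by_cases hx : Function.Injective x
  swap
  · rw [if_neg hx, sub_self, mul_zero, add_zero]
    exact sum_le_sum fun y _ => hle y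
  rw [if_pos hx, sub_zero]
  have hinj : Set.InjOn (fun π : Equiv.Perm (Fin h) => x ∘ π) (badPerms f) := by
    intro π _ τ _ e
    exact Equiv.ext fun i => hx (congrFun e i)
  let S := (badPerms f).image fun π : Equiv.Perm (Fin h) => x ∘ π
  have hc : (badPerms f).card = S.card := (card_image_of_injOn hinj).symm
  have e : ((badPerms f).card : ℝ) * ρ ^ (2 * sg v x) =
      ∑ y : Fin h → β, if y ∈ S then ρ ^ (2 * sg v x) else 0 := by
    rw [← sum_filter, filter_mem_eq_inter, univ_inter, sum_const, nsmul_eq_mul, hc]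
  rw [e, ← sum_add_distrib]
  refine sum_le_sum fun y _ => ?_
  by_cases hy : y ∈ S
  swap
  · rw [if_neg hy, add_zero]; exact hle y
  obtain ⟨π, hπ, rfl⟩ := mem_image.1 hy
  have hbad := (mem_filter.1 hπ).2
  rw [if_pos hy, sg_comp_perm, if_pos rfl, if_neg, zero_add, two_mul, pow_add]
  rintro ⟨-, n1, n2⟩
  apply hbad
  funext i
  by_contra hne
  cases hi : f i <;> cases hj : f (π i)
  · exact hne (by simp [hi, hj])
  · exact n1 (π i) i hj hi (by simp [pw, hi, hj])
  · exact n2 i (π i) hi hj (by simp [pw, hi, hj])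
  · exact hne (by simp [hi, hj])

/-- the lower bound for the additive energy -/
theorem energy_lower (h0 : 0 < ρ) (h1 : ρ < 1) {m : ℕ} (f : Fin (m + 1) → Bool) (L : ℕ)
    (hL : 0 < L) (W : ℝ)
    (hW : ∀ c : ℕ, ((univ.filter fun y : Fin m → β => c ≤ sg v y + L ∧ sg v y ≤ c + L).card : ℝ) ≤ W) :
    (1 - ρ ^ 2) * (ρ ^ L * Mw v ρ ^ (m + 1)) ^ 2
      + (badPerms f).card * (Mw v ρ ^ (m + 1) - Dg v ρ (m + 1))
      - ((m + 1 : ℕ) : ℝ) ^ 2 * (ρ ^ L)⁻¹ * (W / L) * Mw v ρ ^ (m + 1) ≤ En v ρ (m + 1) 0 0 := by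
  have a1 := Nn_add_le v f h0.le
  have a2 := fejer_lower h0.le h1 (fun x : Fin (m + 1) → β => sg v x) L
  rw [sum_wt] at a2
  have a3 := smooth_le v h0 h1 m L W hW
  have hM : 0 ≤ Mw v ρ := sum_nonneg fun _ _ => by positivity
  have a4 : ∑ i : Fin L, ∑ j : Fin L, En v ρ (m + 1) i j ≤ (L : ℝ) ^ 2 * Nn v f ρ 0 0 +
      ((m + 1 : ℕ) : ℝ) ^ 2 * Mw v ρ * ∑ i : Fin L, ∑ j : Fin L, En v ρ m i j := by
    calc _ ≤ ∑ i : Fin L, ∑ j : Fin L,
          (Nn v f ρ 0 0 + ((m + 1 : ℕ) : ℝ) ^ 2 * (Mw v ρ * En v ρ m i j)) :=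
          sum_le_sum fun i _ => sum_le_sum fun j _ =>
            (En_le_Nn v h0.le f i j).trans (by linarith [Nn_le v f (ρ := ρ) i j])
      _ = _ := by
          simp only [sum_add_distrib, sum_const, card_univ, Fintype.card_fin, nsmul_eq_mul,
            mul_sum, mul_assoc]
          ring
  have hL' : (0 : ℝ) < L := by exact_mod_cast hL
  have a5 : (L : ℝ) ^ 2 * ((1 - ρ ^ 2) * (ρ ^ L * Mw v ρ ^ (m + 1)) ^ 2 -
      ((m + 1 : ℕ) : ℝ) ^ 2 * (ρ ^ L)⁻¹ * (W / L) * Mw v ρ ^ (m + 1)) ≤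
      (L : ℝ) ^ 2 * Nn v f ρ 0 0 := by
    have b1 := mul_le_mul_of_nonneg_left a3
      (show 0 ≤ ((m + 1 : ℕ) : ℝ) ^ 2 * Mw v ρ by positivity)
    have b2 : (L : ℝ) ^ 2 * (((m + 1 : ℕ) : ℝ) ^ 2 * (ρ ^ L)⁻¹ * (W / L) * Mw v ρ ^ (m + 1)) =
        ((m + 1 : ℕ) : ℝ) ^ 2 * Mw v ρ * (L * (ρ ^ L)⁻¹ * W * Mw v ρ ^ m) := by
      field_simp
      ring
    have b3 : (L : ℝ) ^ 2 * ((1 - ρ ^ 2) * (ρ ^ L * Mw v ρ ^ (m + 1)) ^ 2) =
        (1 - ρ ^ 2) * (L * ρ ^ L * Mw v ρ ^ (m + 1)) ^ 2 := by ring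
    rw [mul_sub, b2, b3]
    simp only [En] at a4 b1
    linarith
  have a6 := le_of_mul_le_mul_left a5 (by positivity)
  linarith

theorem card_badPerms (k : ℕ) (hk : k ≤ h) :
    (badPerms fun i : Fin h => decide (i.val < k)).card + k.factorial * (h - k).factorial =
      h.factorial := by
  have e1 := DomMulAct.stabilizer_card (fun i : Fin h => decide (i.val < k))
  rw [Fintype.card_subtype] at e1
  have e2 := card_filter_add_card_filter_not (s := (univ : Finset (Equiv.Perm (Fin h))))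
    (fun π => (fun i : Fin h => decide (i.val < k)) ∘ π = fun i : Fin h => decide (i.val < k))
  rw [e1, card_univ, Fintype.card_perm, Fintype.card_fin] at e2
  have c1 : Fintype.card {a : Fin h // decide (a.val < k) = true} = k := by
    simp only [decide_eq_true_eq]
    rw [Fintype.card_subtype, Fin.card_filter_val_lt]
    omega
  have c2 : Fintype.card {a : Fin h // decide (a.val < k) = false} = h - k := by
    have := Fintype.card_subtype_compl (fun a : Fin h => decide (a.val < k) = true)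
    rw [c1, Fintype.card_fin] at this
    rw [← this]
    exact Fintype.card_congr (Equiv.subtypeEquivRight fun a => by simp)
  rw [Fintype.prod_bool, c1, c2] at e2
  rw [badPerms]
  omega

end Pool.Agent.P.MP_d5a1e1_nt.Gap
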