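import Pool.Agent.P.MP_d5a1e1_nt.GapLower

set_option autoImplicit false
set_option linter.unusedSectionVars false

namespace Pool.Agent.P.MP_d5a1e1_nt.Gap

open Finset

variable {β : Type} [Fintype β] [DecidableEq β] (v : β → ℕ) {ρ : ℝ}

/-- number of ordered representations -/
def Rc (j n : ℕ) : ℕ := (univ.filter fun x : Fin j → β => sg v x = n).card

/-- number of ordered representations with a repeated entry -/
def Rd (j n : ℕ) : ℕ := (univ.filter fun x : Fin j → β => sg v x = n ∧ ¬ Function.Injective x).card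

theorem fib_eq (j n : ℕ) : Fib (fun x : Fin j → β => ρ ^ sg v x) (sg v) n = ρ ^ n * Rc v j n := by
  rw [Fib, Rc, ← sum_filter, mul_comm, ← nsmul_eq_mul, ← sum_const]
  exact sum_congr rfl fun x hx => by rw [(mem_filter.1 hx).2]

theorem fib_deg (j n : ℕ) : Fib (fun x : Fin j → β => if Function.Injective x then 0 else
    ρ ^ sg v x) (sg v) n = ρ ^ n * Rd v j n := by
  rw [Fib, Rd, mul_comm, ← nsmul_eq_mul, ← sum_const, sum_filter]
  refine sum_congr rfl fun x _ => ?_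
  by_cases c1 : sg v x = n <;> by_cases c2 : Function.Injective x <;> simp [c1, c2]

theorem M_eq (j N : ℕ) (hN : ∀ x : Fin j → β, sg v x ∈ range N) :
    Mw v ρ ^ j = ∑ n ∈ range N, (ρ ^ n) ^ 2 * Rc v j n := by
  have := sum_fib (fun x : Fin j → β => ρ ^ sg v x) (sg v) _ hN (fun n => ρ ^ n)
  simp only [fib_eq, ← pow_add, ← two_mul, sum_wt] at this
  rw [← this]
  exact sum_congr rfl fun n _ => by ring

theorem Dg_eq (j N : ℕ) (hN : ∀ x : Fin j → β, sg v x ∈ range N) :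
    Dg v ρ j = ∑ n ∈ range N, (ρ ^ n) ^ 2 * Rd v j n := by
  have := sum_fib (fun x : Fin j → β => if Function.Injective x then 0 else ρ ^ sg v x) (sg v) _ hN
    (fun n => ρ ^ n)
  simp only [fib_deg, ite_mul, zero_mul, ← pow_add, ← two_mul] at this
  rw [Dg, ← this]
  exact sum_congr rfl fun n _ => by ring

theorem En_eq (j N : ℕ) (hN : ∀ x : Fin j → β, sg v x ∈ range N) :
    En v ρ j 0 0 = ∑ n ∈ range N, (ρ ^ n) ^ 2 * (Rc v j n : ℝ) ^ 2 := by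
  simp only [En, add_zero]
  rw [bil_eq _ _ _ _ _ hN]
  simp only [fib_eq]
  exact sum_congr rfl fun n _ => by ring

theorem exists_range (j T : ℕ) : ∃ N, T < N ∧ ∀ x : Fin j → β, sg v x ∈ range N :=
  ⟨max T (univ.sup (sg v (j := j))) + 1, Nat.lt_succ_of_le (le_max_left _ _), fun x =>
    mem_range.2 (Nat.lt_succ_of_le (le_max_of_le_right (le_sup (f := sg v) (mem_univ x))))⟩

theorem M_le (h0 : 0 ≤ ρ) (h1 : ρ < 1) (j : ℕ) (C : ℝ) (hC : ∀ n, (Rc v j n : ℝ) ≤ C) :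
    (1 - ρ ^ 2) * Mw v ρ ^ j ≤ C := by
  obtain ⟨N, -, hN⟩ := exists_range v j 0
  have hu : 0 ≤ 1 - ρ ^ 2 := by nlinarith
  have hC0 : 0 ≤ C := le_trans (by positivity) (hC 0)
  rw [M_eq v j N hN]
  calc _ ≤ (1 - ρ ^ 2) * ∑ n ∈ range N, (ρ ^ n) ^ 2 * C :=
        mul_le_mul_of_nonneg_left
          (sum_le_sum fun n _ => mul_le_mul_of_nonneg_left (hC n) (by positivity)) hu
    _ = ((1 - ρ ^ 2) * ∑ n ∈ range N, (ρ ^ n) ^ 2) * C := by rw [← sum_mul]; ring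
    _ ≤ _ := by nlinarith [geom_le ρ N]

theorem abel_bound (E : ℕ → Prop) [DecidablePred E] {x δ K : ℝ} (h0 : 0 ≤ x) (h1 : x ≤ 1)
    (hE : ∀ N, (((range N).filter E).card : ℝ) ≤ δ * N + K) (T : ℕ) :
    ∑ n ∈ range T, ((if E n then 1 else 0) - δ) * x ^ n ≤ K := by
  have key : ∀ T : ℕ, ∑ n ∈ range T, ((if E n then 1 else 0) - δ) * x ^ n -
      ((((range T).filter E).card : ℝ) - δ * T) * x ^ T ≤ K * (1 - x ^ T) := by
    intro T
    induction T with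
    | zero => simp
    | succ T ih =>
      have e : (((range (T + 1)).filter E).card : ℝ) =
          ((range T).filter E).card + if E T then 1 else 0 := by
        simp only [card_filter, sum_range_succ]
        push_cast
        rfl
      have i1 := hE (T + 1)
      have i2 : 0 ≤ x ^ T - x ^ (T + 1) := sub_nonneg.2 (pow_le_pow_of_le_one h0 h1 (by omega))
      have i3 := mul_le_mul_of_nonneg_right (sub_le_iff_le_add'.2 i1) i2
      rw [sum_range_succ]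
      rw [e] at i3 ⊢
      push_cast at i3 ⊢
      linarith
  have i1 := key T
  have i2 := mul_le_mul_of_nonneg_right (sub_le_iff_le_add'.2 (hE T)) (pow_nonneg h0 T)
  linarith

theorem good_sum (E : ℕ → Prop) [DecidablePred E] {δ K : ℝ} (h0 : 0 ≤ ρ) (h1 : ρ < 1)
    (hδ : 0 ≤ δ) (hE : ∀ N, (((range N).filter E).card : ℝ) ≤ δ * N + K) (n0 T N : ℕ)
    (hT : n0 ≤ T) (hN : T < N) :
    (ρ ^ 2) ^ n0 - (ρ ^ 2) ^ (T + 1) - δ - (1 - ρ ^ 2) * K ≤
      (1 - ρ ^ 2) * ∑ n ∈ range N, if n0 ≤ n ∧ n ≤ T ∧ ¬ E n then (ρ ^ n) ^ 2 else 0 := by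
  have hu : 0 ≤ 1 - ρ ^ 2 := by nlinarith
  have e : ∀ n, (ρ ^ n) ^ 2 = (ρ ^ 2) ^ n := fun n => by rw [← pow_mul, ← pow_mul, mul_comm]
  have g1 : (ρ ^ 2) ^ n0 - (ρ ^ 2) ^ (T + 1) =
      (1 - ρ ^ 2) * ∑ n ∈ range N, if n0 ≤ n ∧ n ≤ T then (ρ ^ n) ^ 2 else 0 := by
    rw [← sum_filter]
    have : (range N).filter (fun n => n0 ≤ n ∧ n ≤ T) = Ico n0 (T + 1) := by
      ext n; simp only [mem_filter, mem_range, mem_Ico]; omega
    rw [this, sum_Ico_eq_sub _ (by omega), mul_sub]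
    simp only [e]
    rw [mul_neg_geom_sum, mul_neg_geom_sum]
    ring
  have g2 := abel_bound E (x := ρ ^ 2) (by positivity) (by linarith) hE N
  have g3 := geom_le ρ N
  simp only [sub_mul, sum_sub_distrib, ← mul_sum, ← e] at g2
  have g4 : (∑ n ∈ range N, if n0 ≤ n ∧ n ≤ T then (ρ ^ n) ^ 2 else 0) ≤
      (∑ n ∈ range N, if n0 ≤ n ∧ n ≤ T ∧ ¬ E n then (ρ ^ n) ^ 2 else 0) +
      ∑ n ∈ range N, (if E n then 1 else 0) * (ρ ^ n) ^ 2 := by
    rw [← sum_add_distrib]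
    refine sum_le_sum fun n _ => ?_
    have : 0 ≤ (ρ ^ n) ^ 2 := by positivity
    by_cases c1 : n0 ≤ n <;> by_cases c2 : n ≤ T <;> by_cases c3 : E n <;> simp [c1, c2, c3, this]
  rw [g1]
  nlinarith [mul_le_mul_of_nonneg_left g4 hu, mul_le_mul_of_nonneg_left g2 hu,
    mul_le_mul_of_nonneg_left g3 hδ]

theorem energy_upper (h0 : 0 ≤ ρ) (h1 : ρ < 1) (j n0 T : ℕ) (hT : n0 ≤ T) (P a b C : ℝ)
    (hP : 0 ≤ P) (ha : 0 ≤ a) (hb : 0 ≤ b) (E : ℕ → Prop) [DecidablePred E] {δ K : ℝ}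
    (hδ : 0 ≤ δ) (hE : ∀ N, (((range N).filter E).card : ℝ) ≤ δ * N + K)
    (H1 : ∀ n, (Rc v j n : ℝ) ≤ C) (H2 : ∀ n, n0 ≤ n → (Rc v j n : ℝ) ≤ P * b)
    (H3 : ∀ n, ¬ E n → n ≤ T → P * a ≤ Rc v j n + P * Rd v j n) :
    (1 - ρ ^ 2) * En v ρ j 0 0 ≤ P * (a + b) * ((1 - ρ ^ 2) * Mw v ρ ^ j)
      - P ^ 2 * a * b * ((ρ ^ 2) ^ n0 - (ρ ^ 2) ^ (T + 1) - δ - (1 - ρ ^ 2) * K)
      + P ^ 2 * b * ((1 - ρ ^ 2) * Dg v ρ j) + (1 - ρ ^ 2) * (C ^ 2 * n0) := by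
  obtain ⟨N, hTN, hN⟩ := exists_range v j T
  have hu : 0 ≤ 1 - ρ ^ 2 := by nlinarith
  have g1 := good_sum E h0 h1 hδ hE n0 T N hT hTN
  have g2 : ∑ n ∈ range N, (if n < n0 then C ^ 2 else 0) ≤ C ^ 2 * n0 := by
    rw [← sum_filter, sum_const, nsmul_eq_mul, mul_comm]
    refine mul_le_mul_of_nonneg_left ?_ (sq_nonneg _)
    have : (range N).filter (fun n => n < n0) ⊆ range n0 := fun n hn =>
      mem_range.2 (mem_filter.1 hn).2
    exact_mod_cast (card_le_card this).trans (card_range n0).le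
  have key : En v ρ j 0 0 ≤ P * (a + b) * Mw v ρ ^ j
      - P ^ 2 * a * b * (∑ n ∈ range N, if n0 ≤ n ∧ n ≤ T ∧ ¬ E n then (ρ ^ n) ^ 2 else 0)
      + P ^ 2 * b * Dg v ρ j + ∑ n ∈ range N, (if n < n0 then C ^ 2 else 0) := by
    rw [En_eq v j N hN, M_eq v j N hN, Dg_eq v j N hN, mul_sum, mul_sum, mul_sum,
      ← sum_sub_distrib, ← sum_add_distrib, ← sum_add_distrib]
    refine sum_le_sum fun n _ => ?_
    have r0 : (0 : ℝ) ≤ Rc v j n := by positivity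
    have d0 : (0 : ℝ) ≤ Rd v j n := by positivity
    have w0 : 0 ≤ (ρ ^ n) ^ 2 := by positivity
    have w1 : (ρ ^ n) ^ 2 ≤ 1 := pow_le_one₀ (by positivity) (pow_le_one₀ h0 h1.le)
    generalize (ρ ^ n) ^ 2 = w at w0 w1
    by_cases c1 : n0 ≤ n
    · have i2 := H2 n c1
      rw [if_neg (not_lt.2 c1)]
      by_cases c2 : n ≤ T ∧ ¬ E n
      · have i3 := H3 n c2.2 c2.1
        rw [if_pos ⟨c1, c2⟩]
        have : (Rc v j n : ℝ) ^ 2 ≤ P * (a + b) * Rc v j n - P ^ 2 * a * b +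
            P ^ 2 * b * Rd v j n := by
          nlinarith [mul_nonneg (sub_nonneg.2 i2) (sub_nonneg.2 i3),
            mul_nonneg (mul_nonneg hP d0) r0]
        nlinarith [mul_le_mul_of_nonneg_left this w0]
      · rw [if_neg (fun h => c2 h.2)]
        have : (Rc v j n : ℝ) ^ 2 ≤ P * (a + b) * Rc v j n + P ^ 2 * b * Rd v j n := by
          nlinarith [mul_nonneg (sub_nonneg.2 i2) r0, mul_nonneg (mul_nonneg hP ha) r0,
            mul_nonneg (mul_nonneg (sq_nonneg P) hb) d0]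
        nlinarith [mul_le_mul_of_nonneg_left this w0]
    · rw [if_neg (fun h => c1 h.1), if_pos (not_le.1 c1)]
      have i1 := H1 n
      have : (Rc v j n : ℝ) ^ 2 ≤ C ^ 2 := pow_le_pow_left₀ r0 i1 2
      have t1 : 0 ≤ P * (a + b) * (w * Rc v j n) := by positivity
      have t2 : 0 ≤ P ^ 2 * b * (w * Rd v j n) := by positivity
      nlinarith [mul_le_mul w1 this (sq_nonneg _) zero_le_one]
  have g3 := mul_le_mul_of_nonneg_left g1 (show 0 ≤ P ^ 2 * a * b by positivity)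
  nlinarith [mul_le_mul_of_nonneg_left key hu, mul_le_mul_of_nonneg_left g2 hu]

theorem window (m L : ℕ) (C : ℝ) (H1 : ∀ n, (Rc v (m + 1) n : ℝ) ≤ C) (c : ℕ) :
    ((univ.filter fun b => v b ≤ L).card : ℝ) *
      ((univ.filter fun y : Fin m → β => c ≤ sg v y + L ∧ sg v y ≤ c + L).card : ℝ) ≤
      (3 * L + 1) * C := by
  have hC0 : 0 ≤ C := le_trans (by positivity) (H1 0)
  let S := (univ.filter fun x : Fin (m + 1) → β => sg v x ∈ Icc (c - L) (c + 2 * L))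
  have e1 : (univ.filter fun b => v b ≤ L).card *
      (univ.filter fun y : Fin m → β => c ≤ sg v y + L ∧ sg v y ≤ c + L).card ≤ S.card := by
    rw [← card_product]
    refine card_le_card_of_injOn (fun z => Fin.insertNthEquiv (fun _ => β) 0 z) ?_
      (Equiv.injective _).injOn
    intro z hz
    obtain ⟨z1, z2⟩ := mem_product.1 (mem_coe.1 hz)
    have z1' := (mem_filter.1 z1).2
    have z2' := (mem_filter.1 z2).2
    refine mem_coe.2 (mem_filter.2 ⟨mem_univ _, ?_⟩)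
    have : sg v (Fin.insertNthEquiv (fun _ => β) 0 z) = v z.1 + sg v z.2 := sg_insertNth v 0 z.1 z.2
    rw [this, mem_Icc]
    omega
  have e2 : S.card = ∑ n ∈ Icc (c - L) (c + 2 * L), Rc v (m + 1) n := by
    rw [card_eq_sum_card_fiberwise (f := sg v) (t := Icc (c - L) (c + 2 * L))
      (fun x hx => mem_coe.2 (mem_filter.1 (mem_coe.1 hx)).2)]
    refine sum_congr rfl fun n hn => ?_
    rw [Rc, filter_filter]
    congr 1
    ext x
    simp only [mem_filter, mem_univ, true_and, and_iff_right_iff_imp]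
    rintro rfl
    exact hn
  have e3 : (S.card : ℝ) ≤ (3 * L + 1) * C := by
    rw [e2]
    push_cast
    refine (sum_le_card_nsmul _ _ C fun n _ => H1 n).trans ?_
    rw [nsmul_eq_mul]
    refine mul_le_mul_of_nonneg_right ?_ hC0
    rw [Nat.card_Icc]
    exact_mod_cast (show c + 2 * L + 1 - (c - L) ≤ 3 * L + 1 by omega)
  exact le_trans (by exact_mod_cast e1) e3

theorem pow_split {M K : ℝ} (hM : 0 ≤ M) (hK : 0 < K) (m : ℕ) :
    M ^ m ≤ M ^ (m + 1) / K + K ^ m := by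
  rcases le_total M K with h | h
  · have := pow_le_pow_left₀ hM h m
    have : 0 ≤ M ^ (m + 1) / K := by positivity
    linarith
  · have : M ^ m ≤ M ^ (m + 1) / K := by
      rw [le_div_iff₀ hK, pow_succ]
      exact mul_le_mul_of_nonneg_left h (by positivity)
    have : 0 ≤ K ^ m := by positivity
    linarith

theorem final_algebra (u X D q G s Z P κ a b C F : ℝ) (hu : 0 ≤ u) (hX : 0 ≤ X) (hD0 : 0 ≤ D)
    (hr1 : q ^ 2 ≤ 1) (hG0 : 0 ≤ G) (hZ0 : 0 ≤ Z) (hP : 1 ≤ P) (hκ1 : κ ≤ 1) (hb : 0 ≤ b)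
    (hMC : u * X ≤ C) (hD : u * D ≤ F)
    (lo : u * (u * (q * X) ^ 2 + κ * P * (X - D) - G * X) ≤
      P * (a + b) * (u * X) - P ^ 2 * a * b * s + P ^ 2 * b * (u * D) + Z) :
    a * b - (a + b - κ) ^ 2 / 4 ≤ (1 - q ^ 2) * C ^ 2 + a * b * (1 - s) + (b + 1) * F + Z
      + G * C := by
  have hP0 : 0 < P := by linarith
  obtain ⟨μ, hμP⟩ : ∃ μ, u * X = μ * P := ⟨u * X / P, by field_simp⟩
  have hμ0 : 0 ≤ μ := by
    have : 0 ≤ μ * P := by rw [← hμP]; positivity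
    exact nonneg_of_mul_nonneg_left this hP0
  have hμC : μ ≤ C := by nlinarith
  have hC0 : 0 ≤ C := hμ0.trans hμC
  have hE0 : 0 ≤ u * D := by positivity
  have e1 : u * (u * (q * X) ^ 2 + κ * P * (X - D) - G * X) =
      q ^ 2 * (u * X) ^ 2 + κ * P * (u * X) - κ * P * (u * D) - G * (u * X) := by ring
  rw [e1, hμP] at lo
  generalize u * D = E at hD lo hE0
  generalize q ^ 2 = r at hr1 lo
  have hP2 : P ≤ P ^ 2 := by nlinarith
  have main2 : r * μ ^ 2 + κ * μ - E - G * C ≤ (a + b) * μ - a * b * s + b * E + Z := by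
    refine le_of_mul_le_mul_left ?_ (show 0 < P ^ 2 by positivity)
    have t1 : κ * P * E ≤ P ^ 2 * E := mul_le_mul_of_nonneg_right (by nlinarith) hE0
    have t2 : G * μ * P ≤ G * C * P ^ 2 :=
      mul_le_mul (mul_le_mul_of_nonneg_left hμC hG0) hP2 hP0.le (by positivity)
    have t3 : 1 * Z ≤ P ^ 2 * Z := mul_le_mul_of_nonneg_right (by linarith) hZ0
    linarith
  have t4 : (1 - r) * μ ^ 2 ≤ (1 - r) * C ^ 2 :=
    mul_le_mul_of_nonneg_left (pow_le_pow_left₀ hμ0 hμC 2) (by linarith)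
  have t5 := mul_le_mul_of_nonneg_left hD (show 0 ≤ b + 1 by linarith)
  linarith [sq_nonneg (μ - (a + b - κ) / 2)]

/-- the finite inequality -/
theorem finite_ineq (h0 : 0 < ρ) (h1 : ρ < 1) (m : ℕ) (f : Fin (m + 1) → Bool) (n0 T L : ℕ)
    (hT : n0 ≤ T) (hL : 0 < L) (P κ a b C K α : ℝ) (hP : 1 ≤ P) (hκ : κ * P = (badPerms f).card)
    (hκ1 : κ ≤ 1) (ha : 0 ≤ a) (hb : 0 ≤ b) (hK : 0 < K) (hα : 0 < α)
    (E : ℕ → Prop) [DecidablePred E] {δ K' : ℝ}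
    (hδ : 0 ≤ δ) (hE : ∀ N, (((range N).filter E).card : ℝ) ≤ δ * N + K')
    (H1 : ∀ n, (Rc v (m + 1) n : ℝ) ≤ C) (H2 : ∀ n, n0 ≤ n → (Rc v (m + 1) n : ℝ) ≤ P * b)
    (H3 : ∀ n, ¬ E n → n ≤ T → P * a ≤ Rc v (m + 1) n + P * Rd v (m + 1) n)
    (H4 : α ≤ (univ.filter fun b => v b ≤ L).card) :
    a * b - (a + b - κ) ^ 2 / 4 ≤ (1 - (ρ ^ L) ^ 2) * C ^ 2
      + a * b * (1 - (ρ ^ 2) ^ n0 + (ρ ^ 2) ^ (T + 1) + δ + (1 - ρ ^ 2) * K')
      + (b + 1) * (((m + 1 : ℕ) : ℝ) ^ 2 * (C / K + (1 - ρ ^ 2) * K ^ m))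
      + (1 - ρ ^ 2) * (C ^ 2 * n0) + ((m + 1 : ℕ) : ℝ) ^ 2 * (ρ ^ L)⁻¹ * (4 * C / α) * C := by
  have hC0 : 0 ≤ C := le_trans (by positivity) (H1 0)
  have hu : 0 ≤ 1 - ρ ^ 2 := by nlinarith
  have hL' : (1 : ℝ) ≤ L := by exact_mod_cast hL
  have hM : 0 ≤ Mw v ρ := sum_nonneg fun _ _ => by positivity
  have hP0 : 0 < P := by linarith
  have hW : ∀ c : ℕ, ((univ.filter fun y : Fin m → β =>
      c ≤ sg v y + L ∧ sg v y ≤ c + L).card : ℝ) ≤ 4 * C / α * L := by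
    intro c
    have w1 := window v m L C H1 c
    rw [div_mul_eq_mul_div, le_div_iff₀ hα]
    have w2 := mul_le_mul_of_nonneg_right H4 (show (0 : ℝ) ≤ ((univ.filter fun y : Fin m → β =>
      c ≤ sg v y + L ∧ sg v y ≤ c + L).card : ℝ) by positivity)
    nlinarith
  have lo := energy_lower v h0 h1 f L hL _ hW
  rw [mul_div_cancel_right₀ _ (by positivity), ← hκ] at lo
  have up := energy_upper v h0.le h1 (m + 1) n0 T hT P a b C hP0.le ha hb E hδ hE H1 H2 H3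
  have hMC := M_le v h0.le h1 (m + 1) C H1
  have hD0 : 0 ≤ Dg v ρ (m + 1) := sum_nonneg fun _ _ => by split_ifs <;> positivity
  have hD : (1 - ρ ^ 2) * Dg v ρ (m + 1) ≤
      ((m + 1 : ℕ) : ℝ) ^ 2 * (C / K + (1 - ρ ^ 2) * K ^ m) := by
    have d1 := Dg_le v h0.le h1 m
    have d2 := pow_split hM hK m
    have d3 : (1 - ρ ^ 2) * Mw v ρ ^ m ≤ C / K + (1 - ρ ^ 2) * K ^ m := by
      have := mul_le_mul_of_nonneg_left d2 hu
      have d4 : (1 - ρ ^ 2) * (Mw v ρ ^ (m + 1) / K) ≤ C / K := by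
        rw [← mul_div_assoc]
        exact div_le_div_of_nonneg_right hMC hK.le
      linarith
    have d5 : ((m + 1 : ℕ) : ℝ) * m ≤ ((m + 1 : ℕ) : ℝ) ^ 2 := by
      push_cast
      have : (0 : ℝ) ≤ m := by positivity
      nlinarith
    have d6 : 0 ≤ (1 - ρ ^ 2) * Mw v ρ ^ m := by positivity
    calc _ ≤ (1 - ρ ^ 2) * (((m + 1 : ℕ) : ℝ) * m * Mw v ρ ^ m) := mul_le_mul_of_nonneg_left d1 hu
      _ = ((m + 1 : ℕ) : ℝ) * m * ((1 - ρ ^ 2) * Mw v ρ ^ m) := by ring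
      _ ≤ _ := mul_le_mul d5 d3 d6 (by positivity)
  have lo' := (mul_le_mul_of_nonneg_left lo hu).trans up
  have hr1 : (ρ ^ L) ^ 2 ≤ 1 := pow_le_one₀ (by positivity) (pow_le_one₀ h0.le h1.le)
  have fin := final_algebra (1 - ρ ^ 2) (Mw v ρ ^ (m + 1)) (Dg v ρ (m + 1)) (ρ ^ L)
    (((m + 1 : ℕ) : ℝ) ^ 2 * (ρ ^ L)⁻¹ * (4 * C / α))
    ((ρ ^ 2) ^ n0 - (ρ ^ 2) ^ (T + 1) - δ - (1 - ρ ^ 2) * K')
    ((1 - ρ ^ 2) * (C ^ 2 * n0)) P κ a b C _ hu (by positivity) hD0 hr1 (by positivity)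
    (by positivity) hP hκ1 hb hMC hD lo'
  have t6 : 1 - (ρ ^ 2) ^ n0 + (ρ ^ 2) ^ (T + 1) + δ + (1 - ρ ^ 2) * K' =
      1 - ((ρ ^ 2) ^ n0 - (ρ ^ 2) ^ (T + 1) - δ - (1 - ρ ^ 2) * K') := by ring
  rw [t6]
  exact fin

end Pool.Agent.P.MP_d5a1e1_nt.Gap
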