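import Pool.Agent.P.MP_d5a1e1_nt.Cert

/-! Integration of the differential inequality over a long range of scales. -/

namespace Pool.Agent.P.MP_d5a1e1_nt

open Finset

lemma log_growth (G G' : ℝ → ℝ) (δ u0 u1 : ℝ) (h0 : 0 < u0) (h01 : u0 ≤ u1)
    (hd : ∀ u, HasDerivAt G (G' u) u) (hb : ∀ u ∈ Set.Icc u0 u1, δ ≤ u * G' u) :
    δ * (Real.log u1 - Real.log u0) ≤ G u1 - G u0 := by
  have hH : ∀ u, 0 < u → HasDerivAt (fun v => G v - δ * Real.log v) (G' u - δ * u⁻¹) u :=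
    fun u hu => (hd u).sub ((Real.hasDerivAt_log hu.ne').const_mul δ)
  have hm : MonotoneOn (fun v => G v - δ * Real.log v) (Set.Icc u0 u1) := by
    refine monotoneOn_of_deriv_nonneg (convex_Icc _ _) ?_ ?_ ?_
    · intro u hu
      exact (hH u (by linarith [hu.1])).continuousAt.continuousWithinAt
    · intro u hu
      rw [interior_Icc] at hu
      exact (hH u (by linarith [hu.1])).differentiableAt.differentiableWithinAt
    · intro u hu
      rw [interior_Icc] at hu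
      have hu0 : 0 < u := by linarith [hu.1]
      rw [(hH u hu0).deriv]
      have := hb u ⟨hu.1.le, hu.2.le⟩
      have h2 : δ * u⁻¹ ≤ G' u := by
        rw [← div_eq_mul_inv, div_le_iff₀ hu0]; linarith
      linarith
  have := hm ⟨le_refl _, h01⟩ ⟨h01, le_refl _⟩ h01
  simp only at this
  linarith

lemma mu_nonneg (A : Finset ℕ) {u : ℝ} (hu : 0 ≤ u) : 0 ≤ mu A u := by
  rw [mu, Psi_one]; positivity

lemma mu_le (A : Finset ℕ) {u : ℝ} (hu : 0 ≤ u) : mu A u ≤ u * En A u :=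
  mul_le_mul_of_nonneg_left (Psi_one_le A u) hu

lemma mu_sq_le (A : Finset ℕ) {u : ℝ} (hu : 0 < u) (hu1 : u ≤ 1) :
    (1 - 32 * u) * mu A u ^ 2 ≤ u * En A u := by
  by_cases h : 1 - 32 * u ≤ 0
  · exact le_trans (mul_nonpos_of_nonpos_of_nonneg h (sq_nonneg _))
      (mul_nonneg hu.le (En_nonneg A u))
  have h1 := fej_lower 1 one_pos A hu hu1
  have h2 := mul_le_mul_of_nonneg_left (form_fej_le 1 (A ×ˢ A) sm (wt u)) hu.le
  have h3 : (1 - 2 * (u * ((1 : ℕ) : ℝ)) - 30 * u) = 1 - 32 * u := by push_cast; ring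
  rw [h3] at h1
  have h4 : 0 ≤ (1 - 32 * u) * la A u ^ 2 := mul_nonneg (by linarith) (sq_nonneg _)
  unfold En
  nlinarith

/-- in every long window of small scales there is a scale with large variance -/
lemma exists_scale (C1 δ : ℝ) (hC1 : 0 ≤ C1) (hδ : 0 < δ) :
    ∃ us : ℝ, 0 < us ∧ us ≤ 1 ∧ ∃ L : ℝ, ∀ A : Finset ℕ,
      (∀ v, 0 < v → v ≤ 1 → v * En A v ≤ C1) →
      ∀ u0 u1 : ℝ, 0 < u0 → u0 ≤ u1 → u1 ≤ us → L ≤ Real.log u1 - Real.log u0 →
        ∃ u ∈ Set.Icc u0 u1, (3 / 10 ≤ mu A u →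
          (2041 / 2) ^ 2 * mu A u + 1913741 / 2 * (mu A u ^ 2 - u * En A u) < 2 * δ) := by
  obtain ⟨C, hC, h⟩ := key_ineq
  set θ : ℝ := δ / (4 * ((2041 / 2) ^ 2 * C1 + 1)) with hθ
  have hθ0 : 0 < θ := by positivity
  obtain ⟨K, hK⟩ := exists_nat_gt (8 * C * C1 / (θ * δ))
  have hK0 : (0 : ℝ) < K := lt_of_le_of_lt (by positivity) hK
  have hK1 : 0 < K := by exact_mod_cast hK0
  set Z : ℝ := C * K * (2 * C1) + 1913741 / 2 * (2 * K + 30) * (C1 ^ 2 + (C * (2 * C1)) ^ 2)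
    with hZ
  have hZ0 : 0 ≤ Z := by positivity
  refine ⟨min 1 (δ / (2 * (Z + 1))), lt_min one_pos (by positivity), min_le_left _ _,
    (2 * (C * (2 * C1)) + 1) / δ, fun A hA u0 u1 h0 h01 h1 hL => ?_⟩
  by_contra hcon
  push Not at hcon
  have hE : ∀ u, 0 < u → u ≤ 1 → u * En A (u / 2) ≤ 2 * C1 := by
    intro u hu hu1
    have := hA (u / 2) (by linarith) (by linarith)
    linarith
  have hu1 : u1 ≤ 1 := h1.trans (min_le_left _ _)
  have hu2 : u1 ≤ δ / (2 * (Z + 1)) := h1.trans (min_le_right _ _)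
  have hb : ∀ u ∈ Set.Icc u0 u1, δ ≤ u * GGd K A u := by
    intro u hu
    have hu0 : 0 < u := by linarith [hu.1]
    have hu' : u ≤ 1 := by linarith [hu.2]
    obtain ⟨-, a2, a3⟩ := h K hK1 θ hθ0 A u hu0 hu'
    obtain ⟨b1, b2⟩ := hcon u hu
    have a4 := a3 b1
    have e0 := hE u hu0 hu'
    have e1 : mu A u ≤ C1 := (mu_le A hu0.le).trans (hA u hu0 hu')
    have e2 : 0 ≤ mu A u := mu_nonneg A hu0.le
    have e3 : |la A u| ≤ C * (2 * C1) := a2.trans (mul_le_mul_of_nonneg_left e0 hC)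
    have e4 : la A u ^ 2 ≤ (C * (2 * C1)) ^ 2 := by
      rw [← sq_abs]; exact pow_le_pow_left₀ (abs_nonneg _) e3 2
    have e5 : mu A u ^ 2 ≤ C1 ^ 2 := pow_le_pow_left₀ e2 e1 2
    have f1 : θ * (2041 / 2) ^ 2 * mu A u ≤ δ / 4 := by
      have g1 : θ * (4 * ((2041 / 2) ^ 2 * C1 + 1)) = δ := by rw [hθ]; field_simp
      have g2 : θ * (2041 / 2) ^ 2 * mu A u ≤ θ * (2041 / 2) ^ 2 * C1 :=
        mul_le_mul_of_nonneg_left e1 (by positivity)
      nlinarith
    have hE0 : 0 ≤ u * En A (u / 2) := mul_nonneg hu0.le (En_nonneg _ _)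
    have f2 : C * (1 / (θ * K)) * (u * En A (u / 2)) ≤ δ / 4 := by
      have g1 : C * (1 / (θ * K)) * (u * En A (u / 2)) ≤ C * (1 / (θ * K)) * (2 * C1) :=
        mul_le_mul_of_nonneg_left e0 (by positivity)
      refine g1.trans ?_
      rw [div_lt_iff₀ (by positivity)] at hK
      have g2 : C * (1 / (θ * K)) * (2 * C1) = 2 * C * C1 / (θ * K) := by ring
      rw [g2, div_le_iff₀ (by positivity)]
      nlinarith
    have f3 : C * (u * K) * (u * En A (u / 2)) +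
        1913741 / 2 * (2 * (u * K) + 30 * u) * (mu A u ^ 2 + la A u ^ 2) ≤ δ / 2 := by
      have g1 : C * (u * K) * (u * En A (u / 2)) ≤ C * (u * K) * (2 * C1) :=
        mul_le_mul_of_nonneg_left e0 (by positivity)
      have g2 : 1913741 / 2 * (2 * (u * K) + 30 * u) * (mu A u ^ 2 + la A u ^ 2) ≤
          1913741 / 2 * (2 * (u * K) + 30 * u) * (C1 ^ 2 + (C * (2 * C1)) ^ 2) :=
        mul_le_mul_of_nonneg_left (add_le_add e5 e4) (by positivity)
      have g3 : C * (u * K) * (2 * C1) +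
          1913741 / 2 * (2 * (u * K) + 30 * u) * (C1 ^ 2 + (C * (2 * C1)) ^ 2) = u * Z := by
        rw [hZ]; ring
      have g4 : u ≤ δ / (2 * (Z + 1)) := hu.2.trans hu2
      rw [le_div_iff₀ (by positivity)] at g4
      nlinarith
    have f4 : C * (1 / (θ * K) + u * K) * (u * En A (u / 2)) =
        C * (1 / (θ * K)) * (u * En A (u / 2)) + C * (u * K) * (u * En A (u / 2)) := by ring
    linarith
  have hg := log_growth (GG K A) (GGd K A) δ u0 u1 h0 h01 (GG_deriv K A) hb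
  have hu10 : 0 < u1 := by linarith
  have p1 := (h K hK1 θ hθ0 A u1 hu10 hu1).1.trans
    (mul_le_mul_of_nonneg_left (hE u1 hu10 hu1) hC)
  have p0 := (h K hK1 θ hθ0 A u0 h0 (by linarith)).1.trans
    (mul_le_mul_of_nonneg_left (hE u0 h0 (by linarith)) hC)
  rw [div_le_iff₀ hδ] at hL
  have := (abs_le.1 p1).2
  have := (abs_le.1 p0).1
  nlinarith

end Pool.Agent.P.MP_d5a1e1_nt
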