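import Mathlib

set_option autoImplicit false

open Finset Function

namespace Pool.Agent.P.MP_d5a1e1_nt.Jb

/-- positions of an additive tuple: `h` with sign plus, `h` with sign minus -/
abbrev Ps (h : ℕ) : Type := Fin h ⊕ Fin h

def sg {h : ℕ} : Ps h → ℤ := Sum.elim (fun _ => 1) fun _ => -1

/-- a family of `h M` vectors modulo `M` that is a basis of order `h` of small energy -/
def Model (h M e : ℕ) : Prop :=
  ∃ (I : Type) (_ : Fintype I) (a : I → Fin h → ℕ), Fintype.card I = h * M ∧ (∀ i t, a i t < M) ∧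
    (∀ g : Fin h → ℤ, ∃ i : Fin h → I, Injective i ∧ ∀ t, (M : ℤ) ∣ ∑ j, (a (i j) t : ℤ) - g t) ∧
    ∀ (g : Fin h → ℤ) (S : Finset (Ps h → I)),
      (∀ z ∈ S, ∀ t, (M : ℤ) ∣ ∑ j, sg j * (a (z j) t : ℤ) - g t) → #S ≤ e * M ^ h

theorem sg_ne {h : ℕ} {F : Type} [Field F] (j : Ps h) : ((sg j : ℤ) : F) ≠ 0 := by
  cases j <;> simp [sg]

theorem card_ps (h : ℕ) : Fintype.card (Ps h) = 2 * h := by
  simp [two_mul]

theorem vdm {F κ : Type} [Field F] [Fintype κ] {h : ℕ} (D : Finset κ) (hD : #D ≤ h) (s δ : κ → F)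
    (hs : Set.InjOn s D) (h0 : ∀ j, j ∉ D → δ j = 0)
    (hz : ∀ t : Fin h, ∑ j, δ j * s j ^ (t : ℕ) = 0) (j₀ : κ) : δ j₀ = 0 := by
  classical
  by_cases hj : j₀ ∈ D
  swap
  · exact h0 _ hj
  obtain ⟨f, hf⟩ : ∃ f : Polynomial F, f = ∏ j ∈ D.erase j₀, (Polynomial.X - Polynomial.C (s j)) :=
    ⟨_, rfl⟩
  have hd : f.natDegree < h := by
    rw [hf, Polynomial.natDegree_finsetProd_X_sub_C_eq_card, card_erase_of_mem hj]
    have := card_pos.2 ⟨_, hj⟩
    omega
  have he : ∀ x, f.eval x = ∏ j ∈ D.erase j₀, (x - s j) := fun x => by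
    simp [hf, Polynomial.eval_prod]
  have e1 : ∑ j, δ j * f.eval (s j) = 0 := by
    simp only [Polynomial.eval_eq_sum_range' hd, mul_sum]
    rw [sum_comm]
    refine sum_eq_zero fun t ht => ?_
    have := hz ⟨t, mem_range.1 ht⟩
    simp only [mul_left_comm (δ _), ← mul_sum, this, mul_zero]
  rw [sum_eq_single j₀ (fun j _ hne => ?_) (fun h => absurd (mem_univ _) h)] at e1
  · refine (mul_eq_zero.1 e1).resolve_right ?_
    rw [he]
    exact prod_ne_zero_iff.2 fun j hj' => sub_ne_zero.2 fun e =>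
      (mem_erase.1 hj').1 (hs hj (mem_erase.1 hj').2 e).symm
  · by_cases hj' : j ∈ D
    · rw [he, prod_eq_zero (mem_erase.2 ⟨hne, hj'⟩) (sub_self _), mul_zero]
    · rw [h0 _ hj', zero_mul]

theorem vdm_onto {F : Type} [Field F] [Finite F] {h : ℕ} (s : Fin h → F) (hs : Injective s)
    (w : Fin h → F) : ∃ x : Fin h → F, ∀ t : Fin h, ∑ j, x j * s j ^ (t : ℕ) = w t := by
  have hi : Injective fun (x : Fin h → F) (t : Fin h) => ∑ j, x j * s j ^ (t : ℕ) := by
    intro x y e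
    funext j
    refine sub_eq_zero.1 (vdm (h := h) univ (by simp) s (fun j => x j - y j) hs.injOn (by simp)
      (fun t => ?_) j)
    simp only [sub_mul, sum_sub_distrib]
    exact sub_eq_zero.2 (congrFun e t)
  obtain ⟨x, hx⟩ := Finite.injective_iff_surjective.1 hi w
  exact ⟨x, congrFun hx⟩

theorem Model.step {h M e p : ℕ} (hh : 0 < h) (H : Model h M e) (hp : p.Prime) (h1 : h * M ≤ p)
    {R : ℕ} (h2 : p ≤ R * M) : Model h (M * p) (e + (2 * h) ^ (2 * h) * R ^ h) := by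
  classical
  obtain ⟨I, _, a, hc, hlt, hcov, hen⟩ := H
  have : Fact p.Prime := ⟨hp⟩
  have : Nonempty (Ps h) := ⟨Sum.inl ⟨0, hh⟩⟩
  have M0 : 0 < M := by
    obtain ⟨i, -, -⟩ := hcov 0
    exact (Nat.zero_le _).trans_lt (hlt (i ⟨0, hh⟩) ⟨0, hh⟩)
  obtain ⟨s⟩ : Nonempty (I ↪ ZMod p) := Embedding.nonempty_of_card_le (by rw [hc, ZMod.card]; exact h1)
  refine ⟨I × ZMod p, inferInstance, fun i t => a i.1 t + M * (i.2 * s i.1 ^ (t : ℕ)).val,
    by rw [Fintype.card_prod, hc, ZMod.card, mul_assoc], fun i t => ?_, fun g => ?_, fun g S hS => ?_⟩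
  · have k1 := hlt i.1 t
    have k2 := Nat.mul_le_mul_left M (ZMod.val_lt (i.2 * s i.1 ^ (t : ℕ)))
    rw [Nat.mul_succ] at k2
    beta_reduce
    omega
  · obtain ⟨i, hi, hd⟩ := hcov g
    choose c hc' using hd
    obtain ⟨x, hx⟩ := vdm_onto (fun j => s (i j)) (s.injective.comp hi) fun t => -(c t : ZMod p)
    refine ⟨fun j => (i j, x j), fun j j' e => hi (congrArg Prod.fst e), fun t => ?_⟩
    obtain ⟨d, hd⟩ : (p : ℤ) ∣ c t + ∑ j, ((x j * s (i j) ^ (t : ℕ)).val : ℤ) := by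
      rw [← ZMod.intCast_zmod_eq_zero_iff_dvd]
      push_cast
      simp only [ZMod.natCast_val, ZMod.cast_id', id_eq]
      rw [hx t, add_neg_cancel]
    refine ⟨d, ?_⟩
    push_cast
    rw [sum_add_distrib, ← mul_sum]
    linear_combination hc' t + M * hd
  beta_reduce at hS
  have e0 : ∀ (z : Ps h → I × ZMod p) (t : Fin h),
      ∑ j, sg j * ((a (z j).1 t + M * ((z j).2 * s (z j).1 ^ (t : ℕ)).val : ℕ) : ℤ) - g t =
      (∑ j, sg j * (a (z j).1 t : ℤ) - g t) +
        M * ∑ j, sg j * ((((z j).2 * s (z j).1 ^ (t : ℕ)).val : ℕ) : ℤ) := fun z t => by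
    rw [mul_sum, sub_add_eq_add_sub, ← sum_add_distrib]
    refine congrArg (· - g t) (sum_congr rfl fun j _ => ?_)
    push_cast
    ring
  have uniq : ∀ z ∈ S, ∀ z' ∈ S, (∀ j, (z j).1 = (z' j).1) → ∀ D : Finset (Ps h), #D ≤ h →
      Set.InjOn (fun j => (z j).1) D → (∀ j, j ∉ D → (z j).2 = (z' j).2) → z = z' := by
    intro z hz z' hz' e D hD hi ho
    funext j
    refine Prod.ext (e j) (sub_eq_zero.1 ((mul_eq_zero.1 (vdm D hD (fun j => s (z j).1)
      (fun j => (sg j : ZMod p) * ((z j).2 - (z' j).2)) (s.injective.comp_injOn hi)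
      (fun j hj => by rw [ho j hj, sub_self, mul_zero]) (fun t => ?_) j)).resolve_left (sg_ne j)))
    have k := dvd_sub (hS z hz t) (hS z' hz' t)
    rw [e0, e0] at k
    simp only [← e, add_sub_add_left_eq_sub, ← mul_sub] at k
    rw [Nat.cast_mul, mul_dvd_mul_iff_left (by exact_mod_cast M0.ne'),
      ← ZMod.intCast_zmod_eq_zero_iff_dvd] at k
    push_cast at k
    simp only [ZMod.natCast_val, ZMod.cast_id', id_eq] at k
    rw [← k, ← sum_sub_distrib]
    exact sum_congr rfl fun j _ => by ring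
  obtain ⟨ρ, hρ⟩ : ∃ ρ : (Ps h → I × ZMod p) → Ps h → Ps h, ∀ z j,
      ρ z j = invFun (fun j => (z j).1) (z j).1 := ⟨_, fun _ _ => rfl⟩
  have r1 : ∀ (z : Ps h → I × ZMod p) j, (z (ρ z j)).1 = (z j).1 := fun z j => by
    rw [hρ]
    exact invFun_eq (f := fun j => (z j).1) ⟨j, rfl⟩
  have r2 : ∀ z j, ρ z (ρ z j) = ρ z j := fun z j => by rw [hρ z (ρ z j), r1, hρ]
  have r3 : ∀ z : Ps h → I × ZMod p, Set.InjOn (fun j => (z j).1) ({j | ρ z j = j} : Finset (Ps h)) := by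
    intro z j hj j' hj' e
    simp only [coe_filter, mem_univ, true_and, Set.mem_ofPred_eq] at hj hj' e
    rw [← hj, ← hj', hρ, hρ, e]
  have c1 : #{z ∈ S | h ≤ #{j | ρ z j = j}} ≤ p ^ h * (e * M ^ h) := by
    refine (card_le_mul_card_image (f := fun z j => (z j).1) _ (p ^ h) fun b hb => ?_).trans
      (Nat.mul_le_mul_left _ (hen g _ fun b hb t => ?_))
    swap
    · obtain ⟨z, hz, rfl⟩ := mem_image.1 hb
      have k := hS z (mem_filter.1 hz).1 t
      rw [e0, Nat.cast_mul] at k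
      exact (dvd_add_left (dvd_mul_right _ _)).1 ((dvd_mul_right _ _).trans k)
    · obtain ⟨z₀, k1, k2⟩ := mem_image.1 hb
      obtain ⟨D, D1, D2⟩ := exists_subset_card_eq (mem_filter.1 k1).2
      have k3 : Fintype.card ({j // j ∉ D} → ZMod p) = p ^ h := by
        rw [Fintype.card_fun, ZMod.card, Fintype.card_subtype_compl, card_ps, Fintype.card_coe, D2]
        congr 1
        omega
      rw [← k3, ← card_univ]
      refine card_le_card_of_injOn (fun z j => (z j.1).2) (fun _ _ => mem_coe.2 (mem_univ _))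
        fun z hz z' hz' e => ?_
      obtain ⟨m1, m2⟩ := mem_filter.1 (mem_coe.1 hz)
      obtain ⟨n1, n2⟩ := mem_filter.1 (mem_coe.1 hz')
      refine uniq z (mem_filter.1 m1).1 z' (mem_filter.1 n1).1 (congrFun (m2.trans n2.symm)) D D2.le
        ?_ fun j hj => congrFun e ⟨j, hj⟩
      rw [m2, ← k2]
      exact (r3 z₀).mono D1
  have c2 : #{z ∈ S | ¬ h ≤ #{j | ρ z j = j}} ≤ (2 * h) ^ (2 * h) * p ^ (2 * h) := by
    have k3 : Fintype.card ((Ps h → Ps h) × (Ps h → ZMod p)) = (2 * h) ^ (2 * h) * p ^ (2 * h) := by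
      rw [Fintype.card_prod, Fintype.card_fun, Fintype.card_fun, ZMod.card, card_ps]
    rw [← k3, ← card_univ]
    refine card_le_card_of_injOn (fun z => (ρ z, fun j => if ρ z j = j then s (z j).1 else (z j).2))
      (fun _ _ => mem_coe.2 (mem_univ _)) fun z hz z' hz' e => ?_
    obtain ⟨m1, m2⟩ := mem_filter.1 (mem_coe.1 hz)
    obtain ⟨e1, e2⟩ := Prod.ext_iff.1 e
    simp only at e1 e2
    refine uniq z m1 z' (mem_filter.1 (mem_coe.1 hz')).1 (fun j => ?_) _ (not_le.1 m2).le (r3 z)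
      fun j hj => ?_
    · have k := congrFun e2 (ρ z j)
      rw [if_pos (r2 z j), if_pos (by rw [e1, r2]), r1, e1, r1] at k
      exact s.injective k
    · have k := congrFun e2 j
      have hj' : ¬ ρ z j = j := fun e => hj (mem_filter.2 ⟨mem_univ _, e⟩)
      rwa [if_neg hj', if_neg (e1 ▸ hj')] at k
  have c3 : p ^ (2 * h) ≤ R ^ h * (M * p) ^ h := by
    rw [two_mul, pow_add, mul_pow M, ← mul_assoc, ← mul_pow R]
    exact Nat.mul_le_mul_right _ (Nat.pow_le_pow_left h2 h)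
  have c4 := card_filter_add_card_filter_not (s := S) fun z => h ≤ #{j | ρ z j = j}
  rw [← c4, add_mul, mul_assoc]
  exact add_le_add (c1.trans_eq (by rw [mul_pow]; ring)) (c2.trans (Nat.mul_le_mul_left _ c3))

end Pool.Agent.P.MP_d5a1e1_nt.Jb
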