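import Pool.Agent.P.MP_d5a1e1_nt.JbA

set_option autoImplicit false

open Finset Function

namespace Pool.Agent.P.MP_d5a1e1_nt.Jb

theorem Model.mono {h M e e' : ℕ} (H : Model h M e) (he : e ≤ e') : Model h M e' := by
  obtain ⟨I, _, a, hc, hlt, hcov, hen⟩ := H
  exact ⟨I, inferInstance, a, hc, hlt, hcov,
    fun g S hS => (hen g S hS).trans (Nat.mul_le_mul_right _ he)⟩

theorem model_base (h : ℕ) {M : ℕ} (hM : 0 < M) : Model h M (h ^ (2 * h) * M ^ h) := by
  classical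
  refine ⟨Fin h × Fin M, inferInstance, fun i t => if i.1 = t then i.2 else 0, by simp,
    fun i t => ?_, fun g => ?_, fun g S _ => ?_⟩
  · beta_reduce
    split_ifs
    exacts [i.2.2, hM]
  · have k : ∀ t, (g t % M).toNat < M := fun t => by
      have := Int.emod_lt_of_pos (g t) (b := M) (by exact_mod_cast hM)
      omega
    refine ⟨fun j => (j, ⟨_, k j⟩), fun j j' e => congrArg Prod.fst e, fun t => ?_⟩
    rw [sum_eq_single t (fun j _ hj => by simp [hj]) (by simp)]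
    have := Int.emod_nonneg (g t) (b := M) (by exact_mod_cast hM.ne')
    simp only [if_true, Int.toNat_of_nonneg this]
    exact ⟨-(g t / M), by linear_combination Int.emod_add_mul_ediv (g t) M⟩
  · refine (card_le_univ S).trans_eq ?_
    rw [Fintype.card_fun, card_ps, Fintype.card_prod, Fintype.card_fin, Fintype.card_fin, mul_pow,
      mul_assoc, ← pow_add, ← two_mul]

theorem model_all {h : ℕ} (hh : 0 < h) : ∃ c : ℕ, ∀ T X : ℕ, 0 < X → X ≤ 2 ^ 2 ^ T →
    ∃ M, X ≤ M ∧ M ≤ 2 * X ∧ Model h M (c * (T + 1)) := by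
  refine ⟨h ^ (2 * h) * (4 * h) ^ h + (2 * h) ^ (2 * h) * (32 * h) ^ h, fun T => ?_⟩
  have base : ∀ T X : ℕ, 0 < X → X ≤ 4 * h → ∃ M, X ≤ M ∧ M ≤ 2 * X ∧ Model h M
      ((h ^ (2 * h) * (4 * h) ^ h + (2 * h) ^ (2 * h) * (32 * h) ^ h) * (T + 1)) := fun T X h0 h1 =>
    ⟨X, le_rfl, by omega, (model_base h h0).mono (((Nat.mul_le_mul_left _
      (Nat.pow_le_pow_left h1 h)).trans (Nat.le_add_right _ _)).trans
      (Nat.le_mul_of_pos_right _ T.succ_pos))⟩
  induction T with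
  | zero => exact fun X h0 h1 => base 0 X h0 (by omega)
  | succ T ih =>
    intro X h0 h1
    rcases le_or_gt X (4 * h) with h2 | h2
    · exact base _ X h0 h2
    obtain ⟨Y, hY⟩ : ∃ Y, Y = Nat.sqrt (X / (4 * h)) := ⟨_, rfl⟩
    have y1 : 4 * h * (Y * Y) ≤ X :=
      (Nat.mul_le_mul_left _ (hY ▸ Nat.sqrt_le _)).trans (Nat.mul_div_le _ _)
    have y2 : X < 4 * h * ((Y + 1) * (Y + 1)) := by
      rw [mul_comm, ← Nat.div_lt_iff_lt_mul (by omega), hY]
      exact Nat.lt_succ_sqrt _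
    have y0 : 0 < Y := by
      rw [hY, Nat.sqrt_pos]
      exact Nat.div_pos h2.le (by omega)
    have y3 : Y ≤ 2 ^ 2 ^ T := by
      rw [pow_succ, pow_mul, sq] at h1
      exact Nat.mul_self_le_mul_self_iff.1 (le_trans (by nlinarith) h1)
    obtain ⟨M, m1, m2, H⟩ := ih Y y0 y3
    have M0 : 0 < M := by omega
    have m3 : h * M ≤ X / M := (Nat.le_div_iff_mul_le M0).2 (le_trans (by
      have := Nat.mul_le_mul m2 m2
      nlinarith) y1)
    obtain ⟨p, hp, p1, p2⟩ := Nat.exists_prime_lt_and_le_two_mul (X / M)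
      ((Nat.mul_pos hh M0).trans_le m3).ne'
    have p3 : M * p ≤ 2 * X := by
      have := Nat.mul_div_le X M
      nlinarith
    refine ⟨M * p, ?_, p3, (H.step hh hp (by omega) (R := 32 * h) ?_).mono ?_⟩
    · rw [mul_comm]
      exact ((Nat.div_lt_iff_lt_mul M0).1 p1).le
    · refine Nat.le_of_mul_le_mul_left ?_ M0
      have k1 := Nat.mul_le_mul m1 m1
      have k2 : (Y + 1) * (Y + 1) ≤ 4 * (Y * Y) := by nlinarith
      nlinarith
    · rw [mul_add _ (T + 1) 1, mul_one]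
      omega

/-- the number of additive tuples in `S` is at most `E` -/
def En (h : ℕ) (S : Finset ℕ) (E : ℕ) : Prop :=
  ∀ Z : Finset (Ps h → ℕ), (∀ z ∈ Z, (∀ j, z j ∈ S) ∧ ∑ j, sg j * (z j : ℤ) = 0) → #Z ≤ E

theorem En.mono {h E E' : ℕ} {S S' : Finset ℕ} (H : En h S E) (hs : S' ⊆ S) (he : E ≤ E') :
    En h S' E' := fun Z hZ =>
  (H Z fun z hz => ⟨fun j => hs ((hZ z hz).1 j), (hZ z hz).2⟩).trans he

theorem digits_zero {W : ℤ} (hW : W ≠ 0) : ∀ (h : ℕ) (u : Fin h → ℤ), (∀ t, |u t| < W) →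
    ∑ t, u t * W ^ (t : ℕ) = 0 → ∀ t, u t = 0 := by
  intro h
  induction h with
  | zero => exact fun _ _ _ t => t.elim0
  | succ h ih =>
    intro u hu e
    rw [Fin.sum_univ_succ] at e
    simp only [Fin.val_zero, pow_zero, mul_one, Fin.val_succ, pow_succ, ← mul_assoc,
      ← sum_mul] at e
    have k : u 0 = 0 := Int.eq_zero_of_abs_lt_dvd
      ⟨-∑ i : Fin h, u i.succ * W ^ (i : ℕ), by linear_combination e⟩ (hu 0)
    rw [k, zero_add] at e
    exact Fin.cases k (ih (fun t => u t.succ) (fun t => hu _) ((mul_eq_zero.1 e).resolve_right hW))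

theorem Model.block {h M e : ℕ} (hh : 0 < h) (H : Model h M e) (m : ℕ) : ∃ B : Finset ℕ,
    (∀ b ∈ B, (2 * h * M) ^ h ≤ b) ∧
    (∀ n, 2 * h * (2 * h * M) ^ h ≤ n → n < m * (2 * h * M) ^ h →
      ∃ x : Fin h → ℕ, (∀ j, x j ∈ B) ∧ ∑ j, x j = n) ∧
    En h B (((3 * h) ^ h * m + 1) ^ (2 * h) * (e * M ^ h)) := by
  classical
  obtain ⟨I, _, a, hc, hlt, hcov, hen⟩ := H
  have M0 : 0 < M := by
    obtain ⟨i, -, -⟩ := hcov 0
    exact (Nat.zero_le _).trans_lt (hlt (i ⟨0, hh⟩) ⟨0, hh⟩)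
  obtain ⟨W, hW⟩ : ∃ W, W = 2 * h * M := ⟨_, rfl⟩
  rw [← hW]
  have W0 : 0 < W := by rw [hW]; positivity
  obtain ⟨d, hd⟩ : ∃ d : Option ((Fin h → Fin (3 * h)) × Fin m) → ℕ, d none = 0 ∧
      ∀ c q, d (some (c, q)) = ∑ t, M * c t * W ^ (t : ℕ) + q * W ^ h :=
    ⟨fun o => o.elim 0 fun c => ∑ t, M * c.1 t * W ^ (t : ℕ) + c.2 * W ^ h, rfl, fun _ _ => rfl⟩
  obtain ⟨b, hb⟩ : ∃ b : I × Option ((Fin h → Fin (3 * h)) × Fin m) → ℕ,
      ∀ i, b i = W ^ h + (∑ t, a i.1 t * W ^ (t : ℕ) + d i.2) := ⟨_, fun _ => rfl⟩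
  refine ⟨univ.image b, fun x hx => ?_, fun n h1 h2 => ?_, fun Z hZ => ?_⟩
  · obtain ⟨i, -, rfl⟩ := mem_image.1 hx
    rw [hb]
    exact Nat.le_add_right _ _
  · have s1 : ∑ t : Fin h, h * M * W ^ (t : ℕ) ≤ h * W ^ h := by
      refine (sum_le_card_nsmul _ _ (W ^ h) fun t _ => ?_).trans_eq (by simp)
      calc h * M * W ^ (t : ℕ) ≤ W * W ^ (t : ℕ) := Nat.mul_le_mul_right _ (by rw [hW]; nlinarith)
        _ ≤ W ^ h := by rw [← pow_succ']; exact Nat.pow_le_pow_right W0 t.2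
    obtain ⟨r, hr⟩ : ∃ r, n = h * W ^ h + ∑ t : Fin h, h * M * W ^ (t : ℕ) + r :=
      Nat.exists_eq_add_of_le (by linarith)
    have q1 : r / W ^ h < m := (Nat.div_lt_iff_lt_mul (by positivity)).2 (by omega)
    obtain ⟨g, hg⟩ := finFunctionFinEquiv.surjective
      (⟨r % W ^ h, Nat.mod_lt _ (by positivity)⟩ : Fin (W ^ h))
    have g1 := congrArg Fin.val hg
    rw [finFunctionFinEquiv_apply] at g1
    obtain ⟨i, -, hi⟩ := hcov fun t => (g t : ℕ)
    have k : ∀ t, ∃ c : Fin (3 * h), ∑ j, a (i j) t + M * c = g t + h * M := fun t => by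
      obtain ⟨c, hc'⟩ := hi t
      have a1 : ∑ j, a (i j) t ≤ h * M :=
        (sum_le_card_nsmul _ _ M fun j _ => (hlt _ _).le).trans_eq (by simp)
      have a2 : (g t : ℕ) < 2 * h * M := hW ▸ (g t).2
      have a3 : ∑ j, a (i j) t ≡ g t + h * M [MOD M] := by
        refine (Nat.modEq_iff_dvd.2 ⟨h - c, ?_⟩)
        push_cast
        linear_combination -hc'
      obtain ⟨c', hc''⟩ := (Nat.modEq_iff_exists_eq_add (by omega)).1 a3
      refine ⟨⟨c', Nat.lt_of_mul_lt_mul_left (a := M) ?_⟩, hc''.symm⟩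
      nlinarith [Nat.zero_le (∑ j, a (i j) t)]
    choose c hc' using k
    refine ⟨fun j => b (i j, if j = ⟨0, hh⟩ then some (c, ⟨_, q1⟩) else none),
      fun j => mem_image_of_mem _ (mem_univ _), ?_⟩
    simp only [hb, sum_add_distrib, sum_const, card_univ, Fintype.card_fin, smul_eq_mul]
    rw [sum_comm, sum_eq_single (f := fun j => d (if j = ⟨0, hh⟩ then _ else none)) (⟨0, hh⟩ : Fin h)
      (fun j _ hj => by rw [if_neg hj, hd.1]) (by simp), if_pos rfl, hd.2, ← add_assoc (∑ _, _),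
      ← sum_add_distrib]
    simp only [← sum_mul, ← add_mul, hc']
    simp only [add_mul, sum_add_distrib, g1]
    have := Nat.mod_add_div' r (W ^ h)
    omega
  · have k : ∀ z : Z, ∃ y : Ps h → I × Option ((Fin h → Fin (3 * h)) × Fin m),
        ∀ j, b (y j) = z.1 j := fun z => by
      choose y _ hy using fun j => mem_image.1 ((hZ z.1 z.2).1 j)
      exact ⟨y, hy⟩
    choose y hy using k
    have yi : Injective y := fun z z' e => Subtype.ext (funext fun j => by rw [← hy, ← hy, e])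
    have ys : ∀ z, ∑ t : Fin h, (∑ j, sg j * (a (y z j).1 t : ℤ)) * (W : ℤ) ^ (t : ℕ) +
        ∑ j, sg j * ((W : ℤ) ^ h + d (y z j).2) = 0 := fun z => by
      rw [← (hZ z.1 z.2).2]
      simp only [sum_mul]
      rw [sum_comm, ← sum_add_distrib]
      refine sum_congr rfl fun j _ => ?_
      rw [← hy, hb]
      push_cast
      simp only [mul_assoc, ← mul_sum]
      ring
    have yb : ∀ (z : Z) t, |∑ j, sg j * (a (y z j).1 t : ℤ)| < h * M := fun z t => by
      have : Nonempty (Fin h) := ⟨⟨0, hh⟩⟩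
      have u : ∀ f : Fin h → I, 0 ≤ ∑ j, (a (f j) t : ℤ) ∧ ∑ j, (a (f j) t : ℤ) < h * M := fun f =>
        ⟨sum_nonneg fun _ _ => Int.natCast_nonneg _, (sum_lt_sum_of_nonempty univ_nonempty
          (g := fun _ => (M : ℤ)) fun j _ => by exact_mod_cast hlt _ _).trans_eq (by simp)⟩
      have u1 := u fun j => (y z (Sum.inl j)).1
      have u2 := u fun j => (y z (Sum.inr j)).1
      rw [Fintype.sum_sum_type]
      simp only [sg, Sum.elim_inl, Sum.elim_inr, one_mul, neg_mul, sum_neg_distrib]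
      rw [abs_lt]
      constructor <;> linarith [u1.1, u1.2, u2.1, u2.2]
    rw [← Fintype.card_coe, ← card_univ, mul_comm]
    refine (card_le_mul_card_image (f := fun z j => (y z j).2) _ (e * M ^ h) fun o ho => ?_).trans
      (Nat.mul_le_mul_left _ ((card_le_univ _).trans_eq (by simp [two_mul, pow_add])))
    obtain ⟨z₀, -, h0⟩ := mem_image.1 ho
    rw [← card_image_of_injOn (f := fun z j => (y z j).1) fun z hz z' hz' e => yi (funext fun j =>
      Prod.ext (congrFun e j) (congrFun (((mem_filter.1 (mem_coe.1 hz)).2).trans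
        (mem_filter.1 (mem_coe.1 hz')).2.symm) j))]
    refine hen (fun t => ∑ j, sg j * (a (y z₀ j).1 t : ℤ)) _ fun x hx t => ?_
    obtain ⟨z, hz, rfl⟩ := mem_image.1 hx
    have e := (mem_filter.1 hz).2.trans h0.symm
    refine (dvd_zero _).trans (digits_zero (W := W) (by exact_mod_cast W0.ne') h (fun t =>
      ∑ j, sg j * (a (y z j).1 t : ℤ) - ∑ j, sg j * (a (y z₀ j).1 t : ℤ)) (fun t => ?_) ?_
      t).symm.dvd
    · have u1 := abs_lt.1 (yb z t)
      have u2 := abs_lt.1 (yb z₀ t)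
      rw [hW, abs_lt]
      push_cast
      constructor <;> linarith [u1.1, u1.2, u2.1, u2.2]
    · have u1 := ys z
      have u2 := ys z₀
      simp only [fun j => congrFun e j] at u1
      simp only [sub_mul, sum_sub_distrib]
      linear_combination u1 - u2

end Pool.Agent.P.MP_d5a1e1_nt.Jb
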