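import Pool.Agent.P.MP_d5a1e1_nt.JbB

set_option autoImplicit false

open Finset Function

namespace Pool.Agent.P.MP_d5a1e1_nt.Jb

/-- the number of additive tuples in `S` -/
def cnt (h : ℕ) (S : Finset ℕ) : ℕ :=
  #{z ∈ Fintype.piFinset fun _ : Ps h => S | ∑ j, sg j * (z j : ℤ) = 0}

theorem en_iff {h E : ℕ} {S : Finset ℕ} : En h S E ↔ cnt h S ≤ E :=
  ⟨fun H => H _ fun _ hz => ⟨Fintype.mem_piFinset.1 (mem_filter.1 hz).1, (mem_filter.1 hz).2⟩,
    fun H _ hZ => (card_le_card fun z hz =>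
      mem_filter.2 ⟨Fintype.mem_piFinset.2 (hZ z hz).1, (hZ z hz).2⟩).trans H⟩

theorem char_sum {A ι : Type} [AddCommMonoid A] (ψ : AddChar A ℂ) (s : Finset ι) (f : ι → A) :
    ψ (∑ i ∈ s, f i) = ∏ i ∈ s, ψ (f i) := by
  classical
  induction s using Finset.induction_on with
  | empty => simp
  | insert i s hi ih => rw [sum_insert hi, prod_insert hi, AddChar.map_add_eq_mul, ih]

theorem cnt_eq {h L Q : ℕ} [NeZero Q] (hQ : 2 * h * L < Q) {S : Finset ℕ} (hS : ∀ a ∈ S, a ≤ L) :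
    (Q : ℝ) * cnt h S = ∑ ξ : ZMod Q, ‖∑ a ∈ S, ZMod.stdAddChar (ξ * ((a : ℕ) : ZMod Q))‖ ^ (2 * h) := by
  have e1 : ∀ ξ : ZMod Q, ((‖∑ a ∈ S, ZMod.stdAddChar (ξ * ((a : ℕ) : ZMod Q))‖ ^ (2 * h) : ℝ) : ℂ) =
      ∑ z ∈ Fintype.piFinset fun _ : Ps h => S,
        ZMod.stdAddChar (ξ * ((∑ j, sg j * (z j : ℤ) : ℤ) : ZMod Q)) := fun ξ => by
    have e2 := prod_univ_sum (fun _ : Ps h => S)
      fun j (a : ℕ) => ZMod.stdAddChar (ξ * (((sg j : ℤ) : ZMod Q) * (a : ZMod Q)))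
    push_cast
    simp only [mul_sum, char_sum]
    rw [← e2, Fintype.prod_sum_type, pow_mul, ← Complex.mul_conj', mul_pow, map_sum]
    simp [sg, AddChar.map_neg_eq_conj]
  refine Complex.ofReal_injective ?_
  rw [Complex.ofReal_sum, sum_congr rfl fun ξ _ => e1 ξ, sum_comm, cnt, card_filter]
  push_cast
  rw [mul_sum]
  refine sum_congr rfl fun z hz => ?_
  have e3 := AddChar.sum_mulShift ((∑ j, sg j * (z j : ℤ) : ℤ) : ZMod Q)
    (ZMod.isPrimitive_stdAddChar Q)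
  have e4 : |∑ j, sg j * (z j : ℤ)| < Q := by
    refine ((abs_sum_le_sum_abs _ _).trans (sum_le_card_nsmul _ _ (L : ℤ) fun j _ => ?_)).trans_lt ?_
    · have := hS _ (Fintype.mem_piFinset.1 hz j)
      cases j <;> simpa [sg] using this
    · rw [card_univ, card_ps, nsmul_eq_mul]
      exact_mod_cast hQ
  have e5 : ((∑ j, sg j * (z j : ℤ) : ℤ) : ZMod Q) = 0 ↔ ∑ j, sg j * (z j : ℤ) = 0 := by
    rw [ZMod.intCast_zmod_eq_zero_iff_dvd]
    exact ⟨fun k => Int.eq_zero_of_abs_lt_dvd k e4, fun k => k ▸ dvd_zero _⟩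
  simp only [e5, ZMod.card] at e3
  push_cast at e3
  rw [e3]
  split_ifs <;> simp

theorem En.union {h E F : ℕ} {X Y : Finset ℕ} (hX : En h X E) (hY : En h Y F) :
    En h (X ∪ Y) (2 ^ (2 * h - 1) * (E + F)) := by
  have hY' := hY.mono (sdiff_subset (t := X)) le_rfl
  rw [en_iff] at hX hY' ⊢
  refine le_trans ?_ (Nat.mul_le_mul_left _ (add_le_add hX hY'))
  have hQ := Nat.lt_succ_self (2 * h * (X ∪ Y).sup id)
  have b : ∀ a ∈ X ∪ Y, a ≤ (X ∪ Y).sup id := fun a ha => le_sup (f := id) ha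
  have e1 := cnt_eq hQ b
  have e2 := cnt_eq hQ fun a ha => b a (mem_union_left _ ha)
  have e3 := cnt_eq hQ (S := Y \ X) fun a ha => b a (mem_union_right _ (sdiff_subset ha))
  generalize (2 * h * (X ∪ Y).sup id) = Q at e1 e2 e3
  have q0 : (0 : ℝ) < (Q.succ : ℕ) := by positivity
  rw [← Nat.cast_le (α := ℝ), ← mul_le_mul_iff_right₀ q0]
  push_cast [-Nat.cast_succ]
  rw [mul_left_comm, mul_add, e1, e2, e3, ← sum_add_distrib, mul_sum]
  refine sum_le_sum fun ξ _ => le_trans ?_ (add_pow_le (norm_nonneg _) (norm_nonneg _) _)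
  rw [← union_sdiff_self_eq_union, sum_union disjoint_sdiff]
  exact pow_le_pow_left₀ (norm_nonneg _) (norm_add_le _ _) _

theorem sq_le_en {h E N : ℕ} {A : Set ℕ} {S : Finset ℕ} (hS : ∀ a ∈ A, a < N → a ∈ S)
    (H : En h S E) :
    ∑ n ∈ range N, Set.ncard {x : Fin h → ℕ | (∀ j, x j ∈ A) ∧ ∑ j, x j = n} ^ 2 ≤ E := by
  classical
  obtain ⟨T, hT⟩ : ∃ T : ℕ → Finset (Fin h → ℕ), ∀ n, T n =
      {x ∈ Fintype.piFinset fun _ : Fin h => S | ∑ j, x j = n} := ⟨_, fun _ => rfl⟩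
  have e1 : ∀ n ∈ range N, Set.ncard {x : Fin h → ℕ | (∀ j, x j ∈ A) ∧ ∑ j, x j = n} ^ 2 ≤
      #(T n ×ˢ T n) := fun n hn => by
    rw [card_product, ← sq, ← Set.ncard_coe_finset]
    refine Nat.pow_le_pow_left (Set.ncard_le_ncard (fun x hx => ?_) (finite_toSet _)) 2
    rw [hT]
    refine mem_coe.2 (mem_filter.2 ⟨Fintype.mem_piFinset.2 fun j => hS _ (hx.1 j) ?_, hx.2⟩)
    exact ((single_le_sum (f := x) (fun _ _ => Nat.zero_le _) (mem_univ j)).trans_eq hx.2).trans_lt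
      (mem_range.1 hn)
  refine (sum_le_sum e1).trans ?_
  rw [← card_biUnion fun n _ m _ hne => disjoint_left.2 fun x h1 h2 => hne (by
      rw [hT] at h1 h2
      exact (mem_filter.1 (mem_product.1 h1).1).2.symm.trans (mem_filter.1 (mem_product.1 h2).1).2),
    ← card_image_of_injective _ (Equiv.sumArrowEquivProdArrow (Fin h) (Fin h) ℕ).symm.injective]
  refine H _ fun z hz => ?_
  obtain ⟨x, hx, rfl⟩ := mem_image.1 hz
  obtain ⟨n, -, hn⟩ := mem_biUnion.1 hx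
  rw [hT] at hn
  obtain ⟨⟨a1, a2⟩, b1, b2⟩ := (mem_product.1 hn).imp mem_filter.1 mem_filter.1
  refine ⟨fun j => ?_, ?_⟩
  · cases j
    exacts [Fintype.mem_piFinset.1 a1 _, Fintype.mem_piFinset.1 b1 _]
  · have k : ((∑ j, x.1 j : ℕ) : ℤ) = (∑ j, x.2 j : ℕ) := by rw [a2, b2]
    push_cast at k
    obtain ⟨x1, x2⟩ := x
    simpa [Fintype.sum_sum_type, sg, add_neg_eq_zero] using k

end Pool.Agent.P.MP_d5a1e1_nt.Jb
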