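import Pool.Agent.P.MP_d5a1e1_nt.JbC

set_option autoImplicit false

open Finset Function

namespace Pool.Agent.P.MP_d5a1e1_nt.Jb

theorem blocks {h : ℕ} (hh : 0 < h) : ∃ (α D : ℕ) (B : ℕ → Finset ℕ), 0 < α ∧ ∀ k,
    (∀ b ∈ B k, (4 ^ h) ^ k ≤ b) ∧
    (∀ n, α * (4 ^ h) ^ k ≤ n → n < α * (4 ^ h) ^ (k + 1) →
      ∃ x : Fin h → ℕ, (∀ j, x j ∈ B k) ∧ ∑ j, x j = n) ∧
    En h (B k) (D * (Nat.clog 2 (2 * k) + 1) * (4 ^ h) ^ k) := by
  obtain ⟨c, hc⟩ := model_all hh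
  have k : ∀ k : ℕ, ∃ B : Finset ℕ, (∀ b ∈ B, (4 ^ h) ^ k ≤ b) ∧
      (∀ n, 2 * h * (4 * h) ^ h * (4 ^ h) ^ k ≤ n → n < 2 * h * (4 * h) ^ h * (4 ^ h) ^ (k + 1) →
        ∃ x : Fin h → ℕ, (∀ j, x j ∈ B) ∧ ∑ j, x j = n) ∧
      En h B (((3 * h) ^ h * (2 * h * 8 ^ h) + 1) ^ (2 * h) * c * 2 ^ h *
        (Nat.clog 2 (2 * k) + 1) * (4 ^ h) ^ k) := fun k => by
    obtain ⟨M, m1, m2, H⟩ := hc (Nat.clog 2 (2 * k)) (4 ^ k) (by positivity) (by
      rw [show 4 = 2 ^ 2 from rfl, ← pow_mul]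
      exact Nat.pow_le_pow_right two_pos (Nat.le_pow_clog one_lt_two _))
    obtain ⟨B, b1, b2, b3⟩ := H.block hh (2 * h * 8 ^ h)
    have e : (4 ^ h) ^ k = (4 ^ k) ^ h := by rw [← pow_mul, ← pow_mul, mul_comm]
    refine ⟨B, fun b hb => le_trans ?_ (b1 b hb), fun n h1 h2 => b2 n (le_trans ?_ h1)
      (h2.trans_le ?_), b3.mono Subset.rfl ?_⟩
    · rw [e]
      exact Nat.pow_le_pow_left (by nlinarith) h
    · rw [e, mul_assoc (2 * h) (_ ^ h), ← mul_pow]
      exact Nat.mul_le_mul_left _ (Nat.pow_le_pow_left (by nlinarith) h)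
    · rw [pow_succ, e, mul_assoc (2 * h) (_ ^ h), mul_assoc (2 * h) (_ ^ h), ← mul_pow, ← mul_pow,
        ← mul_pow]
      exact Nat.mul_le_mul_left _ (Nat.pow_le_pow_left (by nlinarith) h)
    · have := Nat.pow_le_pow_left m2 h
      rw [mul_pow, ← e] at this
      refine (Nat.mul_le_mul_left _ (Nat.mul_le_mul_left _ this)).trans_eq (by ring)
  choose B hB using k
  exact ⟨_, _, B, by positivity, hB⟩

theorem clog_bound {u N : ℕ} (hu : 4 ≤ u) (hN : 3 ≤ N) :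
    (Nat.clog 2 (2 * Nat.clog u N) : ℝ) ≤ 3 + 2 * Real.log (Real.log N) := by
  have l2 := Real.log_two_gt_d9
  have k0 : 0 < Nat.clog u N := Nat.clog_pos (by omega) (by omega)
  have k1 := Nat.pow_pred_clog_lt_self (b := u) (by omega) (x := N) (by omega)
  generalize Nat.clog u N = K at k0 k1
  obtain ⟨K, rfl⟩ := Nat.exists_eq_add_of_le' k0
  have t0 : 0 < Nat.clog 2 (2 * (K + 1)) := Nat.clog_pos one_lt_two (by omega)
  have t1 := Nat.pow_pred_clog_lt_self one_lt_two (x := 2 * (K + 1)) (by omega)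
  generalize Nat.clog 2 (2 * (K + 1)) = T at t0 t1
  obtain ⟨T, rfl⟩ := Nat.exists_eq_add_of_le' t0
  simp only [Nat.pred_succ] at k1 t1
  have n3 : (3 : ℝ) ≤ N := by exact_mod_cast hN
  have a0 : 1 ≤ Real.log N := by
    rw [Real.le_log_iff_exp_le (by linarith)]
    linarith [Real.exp_one_lt_d9]
  have a1 : ((2 : ℝ)) ^ (2 * K) ≤ N := by
    have : 2 ^ (2 * K) ≤ N := by
      rw [pow_mul]
      exact (Nat.pow_le_pow_left hu K).trans k1.le
    exact_mod_cast this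
  have a2 := Real.log_le_log (by positivity) a1
  rw [Real.log_pow] at a2
  push_cast at a2
  have a3 : (2 : ℝ) ^ T ≤ 2 ^ 2 * Real.log N := by
    have : ((2 ^ T : ℕ) : ℝ) ≤ (2 * (K + 1) : ℕ) := by exact_mod_cast t1.le
    push_cast at this
    nlinarith [(Nat.cast_nonneg K : (0 : ℝ) ≤ K)]
  have a4 := Real.log_le_log (by positivity) a3
  rw [Real.log_pow, Real.log_mul (by positivity) (by linarith), Real.log_pow] at a4
  have a5 := Real.log_nonneg a0
  push_cast at a4 ⊢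
  by_contra hn
  nlinarith

theorem just_basis {h : ℕ} (hh : 0 < h) : ∃ A : Set ℕ,
    (∀ n : ℕ, ∃ x : Fin h → ℕ, (∀ j, x j ∈ A) ∧ ∑ j, x j = n) ∧
    ∃ K : ℝ, ∀ N : ℕ, 3 ≤ N →
      ∑ n ∈ range N, (Set.ncard {x : Fin h → ℕ | (∀ j, x j ∈ A) ∧ ∑ j, x j = n} : ℝ) ^ 2 ≤
        K * N * Real.log (Real.log N) := by
  obtain ⟨α, D, B, α0, hB⟩ := blocks hh
  have u4 : 4 ≤ 4 ^ h := Nat.le_self_pow hh.ne' 4
  have u2 : 4 ^ h = 2 ^ (2 * h - 1) * 2 := by
    rw [← pow_succ, Nat.sub_add_cancel (by omega), pow_mul]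
    rfl
  have en : ∀ K, En h (range α ∪ (range K).biUnion B)
      ((α ^ (2 * h) + D) * (Nat.clog 2 (2 * K) + 1) * (4 ^ h) ^ K) := by
    intro K
    induction K with
    | zero =>
      rw [en_iff]
      refine (card_filter_le _ _).trans ?_
      simp [Fintype.card_piFinset, two_mul, pow_add]
    | succ K ih =>
      refine (ih.union (hB K).2.2).mono (by
        rw [range_add_one, biUnion_insert, union_assoc, union_comm (B K)]) ?_
      have m := Nat.clog_mono_right 2 (show 2 * K ≤ 2 * (K + 1) by omega)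
      rw [pow_succ (4 ^ h)]
      generalize (4 ^ h) ^ K = U
      rw [u2]
      generalize Nat.clog 2 (2 * K) = T at m
      generalize Nat.clog 2 (2 * (K + 1)) = T' at m
      generalize α ^ (2 * h) = a
      generalize 2 ^ (2 * h - 1) = w
      calc w * ((a + D) * (T + 1) * U + D * (T + 1) * U)
          ≤ w * ((a + D) * (T' + 1) * U + (a + D) * (T' + 1) * U) := by gcongr; omega
        _ = _ := by ring
  refine ⟨{x | x < α ∨ ∃ k, x ∈ B k}, fun n => ?_, ?_⟩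
  · rcases lt_or_ge n α with h1 | h1
    · refine ⟨fun j => if j = ⟨0, hh⟩ then n else 0, fun j => Or.inl ?_, by simp⟩
      beta_reduce
      split_ifs
      exacts [h1, α0]
    · obtain ⟨x, x1, x2⟩ := (hB (Nat.log (4 ^ h) (n / α))).2.1 n
        ((Nat.mul_le_mul_left _ (Nat.pow_log_le_self _ (Nat.div_pos h1 α0).ne')).trans
          (Nat.mul_div_le _ _))
        (by
          rw [mul_comm, ← Nat.div_lt_iff_lt_mul α0]
          exact Nat.lt_pow_succ_log_self (by omega) _)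
      exact ⟨x, fun j => Or.inr ⟨_, x1 j⟩, x2⟩
  have d0 : 0 < Real.log (Real.log 3) := Real.log_pos (by
    rw [Real.lt_log_iff_exp_lt (by norm_num)]
    linarith [Real.exp_one_lt_d9])
  refine ⟨(α ^ (2 * h) + D : ℕ) * (4 / Real.log (Real.log 3) + 2) * (4 ^ h : ℕ), fun N hN => ?_⟩
  have k1 := sq_le_en (N := N) (A := {x | x < α ∨ ∃ k, x ∈ B k}) (fun a ha hlt => by
    rcases ha with ha | ⟨k, ha⟩
    · exact mem_union_left _ (mem_range.2 ha)
    · exact mem_union_right _ (mem_biUnion.2 ⟨k, mem_range.2 (Nat.lt_clog_iff_pow_lt (by omega)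
        |>.2 (((hB k).1 a ha).trans_lt hlt)), ha⟩)) (en (Nat.clog (4 ^ h) N))
  have k2 : (4 ^ h) ^ Nat.clog (4 ^ h) N ≤ 4 ^ h * N := by
    have k0 : 0 < Nat.clog (4 ^ h) N := Nat.clog_pos (by omega) (by omega)
    have k3 := Nat.pow_pred_clog_lt_self (b := 4 ^ h) (by omega) (x := N) (by omega)
    generalize Nat.clog (4 ^ h) N = K at k0 k3
    obtain ⟨K, rfl⟩ := Nat.exists_eq_add_of_le' k0
    rw [pow_succ']
    exact Nat.mul_le_mul_left _ k3.le
  have k3 := clog_bound u4 hN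
  have k4 : Real.log (Real.log 3) ≤ Real.log (Real.log N) :=
    Real.log_le_log (Real.log_pos (by norm_num))
      (Real.log_le_log (by norm_num) (by exact_mod_cast hN))
  have k5 : (Nat.clog 2 (2 * Nat.clog (4 ^ h) N) : ℝ) + 1 ≤
      (4 / Real.log (Real.log 3) + 2) * Real.log (Real.log N) := by
    have : 4 ≤ 4 / Real.log (Real.log 3) * Real.log (Real.log N) := by
      rw [div_mul_eq_mul_div, le_div_iff₀ d0]
      linarith
    linarith
  have k6 := (Nat.cast_le (α := ℝ)).2 (k1.trans (Nat.mul_le_mul_left _ k2))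
  rw [Nat.cast_sum] at k6
  simp only [Nat.cast_pow _ 2] at k6
  refine k6.trans ?_
  rw [Nat.cast_mul, Nat.cast_mul, Nat.cast_mul, Nat.cast_succ]
  calc _ ≤ ((α ^ (2 * h) + D : ℕ) : ℝ) * ((4 / Real.log (Real.log 3) + 2) * Real.log (Real.log N)) *
        ((4 ^ h : ℕ) * N) := by gcongr
    _ = _ := by ring

end Pool.Agent.P.MP_d5a1e1_nt.Jb
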