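import Pool.Agent.P.MP_d5a1e1_nt.Prob

/-! A counting argument that replaces the union bound when each event only looks back a short way. -/

namespace Pool.Agent.P.MP_d5a1e1_nt.Thin

open Finset Function

variable {ι : Type} [DecidableEq ι] {Ω : ι → Type} [∀ s, Fintype (Ω s)] [∀ s, Nonempty (Ω s)]

lemma half_sum (E : Finset ℕ) : ∑ e ∈ E, (1 : ℝ) / 2 ^ (e + 2) ≤ 1 / 2 := by
  obtain ⟨I, hI⟩ : ∃ I, E ⊆ range I := ⟨E.sup id + 1, fun e he =>
    mem_range.2 (Nat.lt_succ_of_le (le_sup (f := id) he))⟩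
  have h4 : ∀ I : ℕ, ∑ i ∈ range I, (1 : ℝ) / 2 ^ (i + 2) = 1 / 2 - 1 / 2 ^ (I + 1) := by
    intro I
    induction I with
    | zero => simp
    | succ I ih => rw [sum_range_succ, ih]; field_simp; ring
  refine (sum_le_sum_of_subset_of_nonneg hI (fun j _ _ => by positivity)).trans ?_
  rw [h4]
  have : (0 : ℝ) < 1 / 2 ^ (I + 1) := by positivity
  linarith

theorem exists_left {κ : Type} (lev : ι → ℕ) (sw : ℕ → ℕ) (E : ℕ → Finset ℕ) (cs : ℕ → Finset κ)
    (M : ℕ → ℕ → Finset ι) (f : ℕ → ℕ → κ → ι → (∀ s, Ω s) → ℝ) (b : ℕ → ℕ → ι → ℝ)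
    (θ : ℕ → ℕ → ℝ) (hf0 : ∀ i e c s ω, 0 ≤ f i e c s ω) (hb0 : ∀ i e s, 0 ≤ b i e s)
    (hθ : ∀ i e, 0 < θ i e)
    (hinv : ∀ i e c, ∀ s ∈ M i e, ∀ t ∈ M i e, t ≠ s → ∀ ω v,
      f i e c s (update ω t v) = f i e c s ω)
    (hb : ∀ i, ∀ e ∈ E i, ∀ c ∈ cs i, ∀ s ∈ M i e, ∀ ω,
      ∑ v, f i e c s (update ω s v) ≤ b i e s * Fintype.card (Ω s))
    (hM : ∀ i e, ∀ s ∈ M i e, i ≤ lev s + sw e)
    (hlev : ∀ i e c, ∀ s ∈ M i e, ∀ t, i < lev t → ∀ ω v, f i e c s (update ω t v) = f i e c s ω)
    (hdep : ∀ i, ∃ S : Finset ι, ∀ e c, ∀ s ∈ M i e, ∀ ω ω' : (∀ s, Ω s),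
      (∀ t ∈ S, ω t = ω' t) → f i e c s ω = f i e c s ω')
    (hsum : ∀ i, ∀ e ∈ E i, (cs i).card * ∏ s ∈ M i e, b i e s ≤ θ i e / 2 ^ (sw e + e + 2)) :
    ∃ ω : (∀ s, Ω s), ∀ i, ∀ e ∈ E i, ∑ c ∈ cs i, ∏ s ∈ M i e, f i e c s ω < θ i e := by
  classical
  have fin : ∀ I : ℕ, ∃ ω : (∀ s, Ω s), ∀ i < I, ∀ e ∈ E i,
      ∑ c ∈ cs i, ∏ s ∈ M i e, f i e c s ω < θ i e := by
    intro I
    obtain ⟨G, hne, hG⟩ := exists_closed (Ω := Ω)
      ((range I).biUnion (fun i => (E i).biUnion (M i)))
    let Gd : ℕ → Finset (∀ s, Ω s) := fun t => G.filter (fun ω => ∀ i < t, ∀ e ∈ E i,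
      ∑ c ∈ cs i, ∏ s ∈ M i e, f i e c s ω < θ i e)
    have step : ∀ t, t ≤ I → ∀ u ≤ t, ((Gd u).card : ℝ) ≤ 2 ^ (t - u) * (Gd t).card := by
      intro t
      induction t with
      | zero => intro _ u hu; obtain rfl : u = 0 := by omega
                simp
      | succ t ih =>
        intro ht
        have ih' := ih (by omega)
        have main : ((Gd t).card : ℝ) ≤ 2 * (Gd (t + 1)).card := by
          have hsub : Gd t ⊆ Gd (t + 1) ∪ (E t).biUnion (fun e => (Gd (t - sw e)).filter
              (fun ω => θ t e ≤ ∑ c ∈ cs t, ∏ s ∈ M t e, f t e c s ω)) := by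
            intro ω hω
            obtain ⟨h1, h2⟩ := mem_filter.1 hω
            by_cases hall : ∀ e ∈ E t, ∑ c ∈ cs t, ∏ s ∈ M t e, f t e c s ω < θ t e
            · refine mem_union_left _ (mem_filter.2 ⟨h1, fun i hi => ?_⟩)
              rcases Nat.lt_succ_iff_lt_or_eq.1 hi with hi | rfl
              · exact h2 i hi
              · exact hall
            · push Not at hall
              obtain ⟨e, he, h3⟩ := hall
              exact mem_union_right _ (mem_biUnion.2 ⟨e, he, mem_filter.2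
                ⟨mem_filter.2 ⟨h1, fun i hi => h2 i (by omega)⟩, h3⟩⟩)
          have h1 : ∀ e ∈ E t, (((Gd (t - sw e)).filter
              (fun ω => θ t e ≤ ∑ c ∈ cs t, ∏ s ∈ M t e, f t e c s ω)).card : ℝ) ≤
              (Gd t).card * (1 / 2 ^ (e + 2)) := by
            intro e he
            have hcl : ∀ ω ∈ Gd (t - sw e), ∀ s ∈ M t e, ∀ v, update ω s v ∈ Gd (t - sw e) := by
              intro ω hω s hs v
              obtain ⟨h1, h2⟩ := mem_filter.1 hω
              refine mem_filter.2 ⟨hG ω h1 s (mem_biUnion.2 ⟨t, mem_range.2 (by omega),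
                mem_biUnion.2 ⟨e, he, hs⟩⟩) v, fun i hi e' he' => ?_⟩
              have hl := hM t e s hs
              have : ∑ c ∈ cs i, ∏ s' ∈ M i e', f i e' c s' (update ω s v) =
                  ∑ c ∈ cs i, ∏ s' ∈ M i e', f i e' c s' ω :=
                sum_congr rfl fun c _ => prod_congr rfl fun s' hs' =>
                  hlev i e' c s' hs' s (by omega) ω v
              rw [this]
              exact h2 i hi e' he'
            have a1 : ∑ ω ∈ Gd (t - sw e), ∑ c ∈ cs t, ∏ s ∈ M t e, f t e c s ω ≤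
                θ t e / 2 ^ (sw e + e + 2) * (Gd (t - sw e)).card := by
              rw [sum_comm]
              refine (sum_le_sum fun c hc => sum_prod_le (Gd (t - sw e)) (M t e) hcl (f t e c)
                (b t e) (hf0 t e c) (hb0 t e) (hinv t e c) (hb t e he c hc)).trans ?_
              rw [sum_const, nsmul_eq_mul, ← mul_assoc]
              exact mul_le_mul_of_nonneg_right (hsum t e he) (by positivity)
            have a2 : (((Gd (t - sw e)).filter
                (fun ω => θ t e ≤ ∑ c ∈ cs t, ∏ s ∈ M t e, f t e c s ω)).card : ℝ) * θ t e ≤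
                ∑ ω ∈ Gd (t - sw e), ∑ c ∈ cs t, ∏ s ∈ M t e, f t e c s ω := by
              rw [← nsmul_eq_mul]
              refine (card_nsmul_le_sum _ _ _ (fun ω hω => (mem_filter.1 hω).2)).trans ?_
              exact sum_le_sum_of_subset_of_nonneg (filter_subset _ _) (fun ω _ _ =>
                sum_nonneg fun c _ => prod_nonneg fun s _ => hf0 t e c s ω)
            have a3 := ih' (t - sw e) (by omega)
            have a4 : (2 : ℝ) ^ (t - (t - sw e)) ≤ 2 ^ sw e :=
              pow_le_pow_right₀ (by norm_num) (by omega)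
            have a5 : ((Gd (t - sw e)).card : ℝ) ≤ 2 ^ sw e * (Gd t).card :=
              a3.trans (mul_le_mul_of_nonneg_right a4 (by positivity))
            have hθ' := hθ t e
            have a6 := a2.trans (a1.trans (mul_le_mul_of_nonneg_left a5 (by positivity)))
            refine le_of_mul_le_mul_right (a6.trans (le_of_eq ?_)) hθ'
            rw [add_assoc, pow_add]
            field_simp
          have h2 := (card_le_card hsub).trans
            ((card_union_le _ _).trans (Nat.add_le_add_left card_biUnion_le _))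
          have h3 := (Nat.cast_le (α := ℝ)).2 h2
          rw [Nat.cast_add, Nat.cast_sum] at h3
          have h4 := sum_le_sum h1
          rw [← mul_sum] at h4
          have h5 := mul_le_mul_of_nonneg_left (half_sum (E t))
            (show (0 : ℝ) ≤ (Gd t).card by positivity)
          linarith
        intro u hu
        rcases Nat.le_succ_iff.1 hu with hu | rfl
        · have := ih' u hu
          rw [show t + 1 - u = (t - u) + 1 by omega, pow_succ, mul_assoc]
          exact this.trans (mul_le_mul_of_nonneg_left main (by positivity))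
        · simp
    have h0 : (0 : ℝ) < (Gd 0).card := by
      have : Gd 0 = G := filter_true_of_mem (fun ω _ i hi => absurd hi (Nat.not_lt_zero _))
      rw [this]
      exact_mod_cast hne.card_pos
    have h1 := h0.trans_le (step I le_rfl 0 (Nat.zero_le _))
    have h2 : 0 < (Gd I).card := by
      by_contra h
      have : (Gd I).card = 0 := by omega
      rw [this] at h1
      simp at h1
    obtain ⟨ω, hω⟩ := card_pos.1 h2
    exact ⟨ω, (mem_filter.1 hω).2⟩
  choose W hW using fin
  have lim : ∀ s, ∃ v : Ω s, {I | W I s = v} ∈ Filter.hyperfilter ℕ := by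
    intro s
    obtain ⟨v, hv⟩ := Ultrafilter.eq_pure_of_finite ((Filter.hyperfilter ℕ).map (fun I => W I s))
    refine ⟨v, ?_⟩
    have : ({v} : Set (Ω s)) ∈ (Filter.hyperfilter ℕ).map (fun I => W I s) := by
      rw [hv]; simp
    exact this
  choose ω hω using lim
  refine ⟨ω, fun i e he => ?_⟩
  obtain ⟨S, hS⟩ := hdep i
  have h1 : ∀ᶠ I in (Filter.hyperfilter ℕ : Filter ℕ), ∀ t ∈ S, W I t = ω t :=
    (Filter.eventually_all_finset S).2 fun t _ => hω t
  have h2 : ∀ᶠ I in (Filter.hyperfilter ℕ : Filter ℕ), i < I := by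
    refine Filter.hyperfilter_le_cofinite ?_
    rw [Nat.cofinite_eq_atTop]
    exact Filter.eventually_gt_atTop i
  obtain ⟨I, hI1, hI2⟩ := (h1.and h2).exists
  have : ∑ c ∈ cs i, ∏ s ∈ M i e, f i e c s ω = ∑ c ∈ cs i, ∏ s ∈ M i e, f i e c s (W I) :=
    sum_congr rfl fun c _ => prod_congr rfl fun s hs => (hS e c s hs _ _ hI1).symm
  rw [this]
  exact hW I i hI2 e he

end Pool.Agent.P.MP_d5a1e1_nt.Thin
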