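import Pool.Agent.P.MP_d5a1e1_nt.Growth

/-! Mean square lower bound for the ordered representation function of order two. -/

namespace Pool.Agent.P.MP_d5a1e1_nt

open Finset

/-- ordered representation count for a finite set -/
def rf (B : Finset ℕ) (n : ℕ) : ℕ := ((B ×ˢ B).filter (fun p => p.1 + p.2 = n)).card

/-- ordered representation count -/
noncomputable def rr (A : Set ℕ) (n : ℕ) : ℕ :=
  Set.ncard {p : ℕ × ℕ | p.1 ∈ A ∧ p.2 ∈ A ∧ p.1 + p.2 = n}

lemma fib_wt (B : Finset ℕ) (u : ℝ) (n : ℕ) :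
    fib (B ×ˢ B) sm (wt u) (n : ℤ) = rf B n * Real.exp (-(u * (n / 2))) := by
  unfold fib rf
  rw [card_filter]
  push_cast
  rw [sum_mul]
  refine sum_congr rfl fun p _ => ?_
  by_cases h : p.1 + p.2 = n
  · have h1 : sm p - n = 0 := by simp only [sm]; omega
    have h2 : ((p.1 : ℝ) + p.2) = n := by exact_mod_cast h
    rw [h1, dl_zero, if_pos h, wt, h2]
  · have h1 : sm p - n ≠ 0 := by simp only [sm]; omega
    rw [dl_ne h1, if_neg h]; simp

lemma En_eq (B : Finset ℕ) (u : ℝ) (N : ℕ) (hN : ∀ a ∈ B, 2 * a < N) :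
    En B u = ∑ n ∈ range N, (rf B n : ℝ) ^ 2 * Real.exp (-(u * n)) := by
  classical
  unfold En
  rw [form_dl _ _ _ _ ((range N).image (fun n : ℕ => (n : ℤ))) (fun p hp => by
    refine mem_image.2 ⟨p.1 + p.2, mem_range.2 ?_, by simp [sm]⟩
    have h1 := hN _ (mem_product.1 hp).1
    have h2 := hN _ (mem_product.1 hp).2
    omega), sum_image (fun a _ b _ h => by simpa using h)]
  refine sum_congr rfl fun n _ => ?_
  rw [fib_wt]
  have : Real.exp (-(u * n)) = Real.exp (-(u * (n / 2))) * Real.exp (-(u * (n / 2))) := by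
    rw [← Real.exp_add]; congr 1; ring
  rw [this]; ring

lemma mu_eq (B : Finset ℕ) (u : ℝ) (N : ℕ) (hN : ∀ a ∈ B, 2 * a < N) :
    mu B u = u * ∑ n ∈ range N, (rf B n : ℝ) * Real.exp (-(u * n)) := by
  unfold mu Psi
  congr 1
  rw [← sum_product']
  rw [← sum_fiberwise_of_maps_to (s := B ×ˢ B) (t := range N) (g := fun p => p.1 + p.2)
    (fun p hp => by
      have h1 := hN _ (mem_product.1 hp).1
      have h2 := hN _ (mem_product.1 hp).2
      exact mem_range.2 (by omega))]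
  refine sum_congr rfl fun n _ => ?_
  unfold rf
  rw [← nsmul_eq_mul, ← sum_const]
  refine sum_congr rfl fun p hp => ?_
  have h : ((p.1 : ℝ) + p.2) = n := by exact_mod_cast (mem_filter.1 hp).2
  rw [h, one_mul]

lemma rr_finite (A : Set ℕ) (n : ℕ) :
    {p : ℕ × ℕ | p.1 ∈ A ∧ p.2 ∈ A ∧ p.1 + p.2 = n}.Finite :=
  (antidiagonal n).finite_toSet.subset fun p hp => by simpa using hp.2.2

open Classical in
/-- truncation of a set -/
noncomputable def tr (A : Set ℕ) (M : ℕ) : Finset ℕ := (range M).filter (· ∈ A)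

lemma mem_tr {A : Set ℕ} {M a : ℕ} : a ∈ tr A M ↔ a < M ∧ a ∈ A := by simp [tr]

lemma rf_le (A : Set ℕ) (M n : ℕ) : rf (tr A M) n ≤ rr A n := by
  unfold rf rr
  rw [← Set.ncard_coe_finset]
  refine Set.ncard_le_ncard (fun p hp => ?_) (rr_finite A n)
  simp only [coe_filter, mem_product, mem_tr, Set.mem_ofPred_eq] at hp
  exact ⟨hp.1.1.2, hp.1.2.2, hp.2⟩

lemma rf_eq (A : Set ℕ) (M n : ℕ) (h : n < M) : rf (tr A M) n = rr A n := by
  unfold rf rr
  rw [← Set.ncard_coe_finset]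
  congr 1
  ext p
  simp only [coe_filter, mem_product, mem_tr, Set.mem_ofPred_eq]
  constructor
  · intro hp; exact ⟨hp.1.1.2, hp.1.2.2, hp.2⟩
  · intro hp; exact ⟨⟨⟨by omega, hp.1⟩, ⟨by omega, hp.2.1⟩⟩, hp.2.2⟩

lemma abel_aux (d w : ℕ → ℝ) (C : ℝ) (hd : ∀ N, ∑ n ∈ range N, d n ≤ C)
    (hw : ∀ n, w (n + 1) ≤ w n) (N : ℕ) :
    ∑ n ∈ range N, d n * w n ≤ C * (w 0 - w N) + (∑ n ∈ range N, d n) * w N := by
  induction N with
  | zero => simp
  | succ N ih =>
    rw [sum_range_succ]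
    have h1 := hd (N + 1)
    have h2 := hw N
    rw [sum_range_succ] at h1 ⊢
    nlinarith [mul_nonneg (sub_nonneg.2 h1) (sub_nonneg.2 h2)]

lemma abel_exp (f : ℕ → ℝ) (γ C : ℝ) (hγ : 0 ≤ γ) (hf : ∀ N : ℕ, ∑ n ∈ range N, f n ≤ γ * N + C)
    {u : ℝ} (hu : 0 < u) (N : ℕ) :
    u * ∑ n ∈ range N, f n * Real.exp (-(u * n)) ≤ γ * (1 + u) + C * u := by
  have hd : ∀ N : ℕ, ∑ n ∈ range N, (f n - γ) ≤ C := by
    intro N
    rw [sum_sub_distrib, sum_const, card_range, nsmul_eq_mul]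
    linarith [hf N]
  have h := abel_aux (fun n => f n - γ) (fun n => Real.exp (-(u * n))) C hd (fun n => by
    apply Real.exp_le_exp.2; push_cast; nlinarith) N
  have h1 := hd N
  have h2 := Real.exp_pos (-(u * N))
  have h3 : ∑ n ∈ range N, (f n - γ) * Real.exp (-(u * n)) =
      ∑ n ∈ range N, f n * Real.exp (-(u * n)) - γ * ∑ n ∈ range N, Real.exp (-(u * n)) := by
    rw [mul_sum, ← sum_sub_distrib]
    exact sum_congr rfl fun n _ => by ring
  have h4 := geo_sum_le hu N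
  simp only [Nat.cast_zero, mul_zero, neg_zero, Real.exp_zero] at h
  rw [h3] at h
  have h5 : ∑ n ∈ range N, f n * Real.exp (-(u * n)) ≤
      C + γ * ∑ n ∈ range N, Real.exp (-(u * n)) := by
    nlinarith [mul_le_mul_of_nonneg_right h1 h2.le]
  have h6 := mul_le_mul_of_nonneg_left h5 hu.le
  have h7 := mul_le_mul_of_nonneg_left h4 hγ
  nlinarith

/-- mean square lower bound -/
theorem mean_square (A : Set ℕ) (c γ C : ℝ) (hc : 3 / 2 ≤ c)
    (hγ : γ < 4165681 / 3827482 * c - (4165681 / 3827482) ^ 2 / 4)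
    (h : ∀ N : ℕ, ∑ n ∈ range N, ((rr A n : ℝ) - c) ^ 2 ≤ γ * N + C) : False := by
  have hC : 0 ≤ C := by simpa using h 0
  have hγ0 : 0 ≤ γ := by
    by_contra hneg
    push Not at hneg
    obtain ⟨N, hN⟩ := exists_nat_gt (C / (-γ))
    rw [div_lt_iff₀ (by linarith)] at hN
    have h1 := h N
    have h2 : 0 ≤ ∑ n ∈ range N, ((rr A n : ℝ) - c) ^ 2 := sum_nonneg fun _ _ => sq_nonneg _
    nlinarith
  -- square means of r are bounded
  have hsq : ∀ N : ℕ, ∑ n ∈ range N, (rr A n : ℝ) ^ 2 ≤ (2 * γ + 2 * c ^ 2) * N + 2 * C := by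
    intro N
    have h1 : ∑ n ∈ range N, (rr A n : ℝ) ^ 2 ≤
        ∑ n ∈ range N, (2 * ((rr A n : ℝ) - c) ^ 2 + 2 * c ^ 2) :=
      sum_le_sum fun n _ => by nlinarith [sq_nonneg ((rr A n : ℝ) - 2 * c)]
    rw [sum_add_distrib, ← mul_sum, sum_const, card_range, nsmul_eq_mul] at h1
    nlinarith [h N]
  set C1 : ℝ := (2 * γ + 2 * c ^ 2) * 2 + 2 * C with hC1
  have hC10 : 0 ≤ C1 := by positivity
  have hab : ∀ v : ℝ, 0 < v → v ≤ 1 → ∀ N : ℕ,
      v * ∑ n ∈ range N, (rr A n : ℝ) ^ 2 * Real.exp (-(v * n)) ≤ C1 := by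
    intro v hv hv1 N
    have := abel_exp (fun n => (rr A n : ℝ) ^ 2) _ _ (by positivity) hsq hv N
    have h2 : 0 ≤ 2 * γ + 2 * c ^ 2 := by positivity
    nlinarith
  have hN : ∀ M, ∀ a ∈ tr A M, 2 * a < M + M := fun M a ha => by
    have := (mem_tr.1 ha).1; omega
  have hrle : ∀ M n, (rf (tr A M) n : ℝ) ^ 2 ≤ (rr A n : ℝ) ^ 2 := fun M n =>
    pow_le_pow_left₀ (Nat.cast_nonneg _) (by exact_mod_cast rf_le A M n) 2
  have hEn : ∀ M, ∀ v : ℝ, 0 < v → v ≤ 1 → v * En (tr A M) v ≤ C1 := by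
    intro M v hv hv1
    rw [En_eq _ _ _ (hN M)]
    refine le_trans (mul_le_mul_of_nonneg_left (sum_le_sum fun n _ => ?_) hv.le)
      (hab v hv hv1 (M + M))
    exact mul_le_mul_of_nonneg_right (hrle M n) (Real.exp_pos _).le
  set η : ℝ := 4165681 / 3827482 * c - (4165681 / 3827482) ^ 2 / 4 - γ with hη
  have hη0 : 0 < η := by linarith
  obtain ⟨us, hus0, hus1, L, hL⟩ := exists_scale C1 (η / 8) hC10 (by positivity)
  set Z : ℝ := γ + C + 32 * C1 ^ 2 with hZ
  have hZ0 : 0 ≤ Z := by positivity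
  set u1 : ℝ := min us (η / (4 * (Z + 1))) with hu1
  have hu10 : 0 < u1 := lt_min hus0 (by positivity)
  set u0 : ℝ := u1 * Real.exp (-|L|) with hu0
  have hu00 : 0 < u0 := by positivity
  have hu01 : u0 ≤ u1 := by
    have : Real.exp (-|L|) ≤ 1 := Real.exp_le_one_iff.2 (by linarith [abs_nonneg L])
    nlinarith
  have hlog : L ≤ Real.log u1 - Real.log u0 := by
    rw [hu0, Real.log_mul hu10.ne' (Real.exp_pos _).ne', Real.log_exp]
    linarith [le_abs_self L]
  obtain ⟨M, hM⟩ := exists_nat_gt (8 * (2 * C1 + c ^ 2) / (η * u0))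
  obtain ⟨u, ⟨hua, hub⟩, hu⟩ := hL (tr A M) (hEn M) u0 u1 hu00 hu01 (min_le_left _ _) hlog
  have hu' : 0 < u := by linarith
  have hu1' : u ≤ 1 := hub.trans ((min_le_left _ _).trans hus1)
  have huZ : u * Z ≤ η / 4 := by
    have : u ≤ η / (4 * (Z + 1)) := hub.trans (min_le_right _ _)
    rw [le_div_iff₀ (by positivity)] at this
    nlinarith
  -- the tail factor is small
  have hM0 : (0 : ℝ) < M := lt_of_le_of_lt (by positivity) hM
  set τ : ℝ := Real.exp (-(u / 2 * M)) with hτ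
  have hτ0 : 0 < τ := Real.exp_pos _
  have hτ1 : τ * (u / 2 * M) ≤ 1 := by
    have a1 := Real.add_one_le_exp (u / 2 * M)
    have a2 : τ * Real.exp (u / 2 * M) = 1 := by rw [hτ, ← Real.exp_add]; simp
    nlinarith
  have hτ2 : τ * (2 * C1 + c ^ 2) ≤ η / 4 := by
    rw [div_lt_iff₀ (by positivity)] at hM
    have a1 : M * (η * u0) ≤ M * (η * u) :=
      mul_le_mul_of_nonneg_left (mul_le_mul_of_nonneg_left hua hη0.le) hM0.le
    have a2 : 8 * (2 * C1 + c ^ 2) * τ ≤ M * (η * u) * τ :=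
      mul_le_mul_of_nonneg_right (by linarith) hτ0.le
    have a3 := mul_le_mul_of_nonneg_left hτ1 hη0.le
    nlinarith
  have hτ3 : Real.exp (-(u * M)) ≤ τ := by
    apply Real.exp_le_exp.2
    have : 0 ≤ u * M := by positivity
    linarith
  -- the basic upper bound
  have hup : u * En (tr A M) u - 2 * c * mu (tr A M) u ≤
      γ * (1 + u) + C * u - c ^ 2 + τ * (2 * C1 + c ^ 2) := by
    rw [En_eq _ _ _ (hN M), mu_eq _ _ _ (hN M), sum_range_add, sum_range_add]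
    have a1 : ∑ n ∈ range M, (rf (tr A M) n : ℝ) ^ 2 * Real.exp (-(u * n)) -
        2 * c * ∑ n ∈ range M, (rf (tr A M) n : ℝ) * Real.exp (-(u * n)) =
        ∑ n ∈ range M, ((rr A n : ℝ) - c) ^ 2 * Real.exp (-(u * n)) -
        c ^ 2 * ∑ n ∈ range M, Real.exp (-(u * n)) := by
      simp only [mul_sum, ← sum_sub_distrib]
      refine sum_congr rfl fun n hn => ?_
      rw [rf_eq A M n (mem_range.1 hn)]; ring
    have a2 := abel_exp (fun n => ((rr A n : ℝ) - c) ^ 2) γ C hγ0 h hu' M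
    have a3 := geo_sum_ge hu' M
    have a4 : 0 ≤ ∑ n ∈ range M, (rf (tr A M) (M + n) : ℝ) * Real.exp (-(u * (M + n : ℕ))) :=
      sum_nonneg fun _ _ => by positivity
    have a5 : ∑ n ∈ range M, (rf (tr A M) (M + n) : ℝ) ^ 2 * Real.exp (-(u * (M + n : ℕ))) ≤
        τ * ∑ n ∈ range M, (rr A (M + n) : ℝ) ^ 2 * Real.exp (-(u / 2 * (M + n : ℕ))) := by
      rw [mul_sum]
      refine sum_le_sum fun n _ => ?_
      have b1 : Real.exp (-(u * (M + n : ℕ))) ≤ τ * Real.exp (-(u / 2 * (M + n : ℕ))) := by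
        rw [hτ, ← Real.exp_add]
        apply Real.exp_le_exp.2
        push_cast
        have : 0 ≤ u * n := by positivity
        linarith
      calc _ ≤ (rr A (M + n) : ℝ) ^ 2 * (τ * Real.exp (-(u / 2 * (M + n : ℕ)))) :=
            mul_le_mul (hrle M _) b1 (Real.exp_pos _).le (sq_nonneg _)
        _ = _ := by ring
    have a6 := hab (u / 2) (by linarith) (by linarith) (M + M)
    rw [sum_range_add] at a6
    have a7 : 0 ≤ ∑ n ∈ range M, (rr A n : ℝ) ^ 2 * Real.exp (-(u / 2 * n)) :=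
      sum_nonneg fun _ _ => by positivity
    have a8 : u * ∑ n ∈ range M, (rr A (M + n) : ℝ) ^ 2 * Real.exp (-(u / 2 * (M + n : ℕ))) ≤
        2 * C1 := by nlinarith
    have a9 := mul_le_mul_of_nonneg_left a5 hu'.le
    have a10 := mul_le_mul_of_nonneg_left a8 hτ0.le
    have a11 := mul_le_mul_of_nonneg_left a3 (sq_nonneg c)
    have a12 := mul_le_mul_of_nonneg_left hτ3 (sq_nonneg c)
    have a13 : 0 ≤ c * (u * ∑ n ∈ range M,
        (rf (tr A M) (M + n) : ℝ) * Real.exp (-(u * (M + n : ℕ)))) :=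
      mul_nonneg (by linarith) (mul_nonneg hu'.le a4)
    have a14 := congrArg (fun t => u * t) a1
    linarith
  have m0 := mu_nonneg (tr A M) hu'.le
  have m1 := (mu_le (tr A M) hu'.le).trans (hEn M u hu' hu1')
  have m2 := mu_sq_le (tr A M) hu' hu1'
  set m := mu (tr A M) u
  set E := u * En (tr A M) u
  have m3 : m ^ 2 ≤ C1 ^ 2 := pow_le_pow_left₀ m0 m1 2
  have m4 : u * γ + u * C + 32 * u * C1 ^ 2 ≤ η / 4 := by rw [hZ] at huZ; linarith
  have m5 : u * m ^ 2 ≤ u * C1 ^ 2 := mul_le_mul_of_nonneg_left m3 hu'.le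
  have m6 : 0 ≤ u * C1 ^ 2 := by positivity
  by_cases hm : 3 / 10 ≤ m
  · have k := hu hm
    nlinarith [sq_nonneg (m - c + 4165681 / 3827482 / 2)]
  · push Not at hm
    have k1 : (c - 3 / 10) ^ 2 ≤ (c - m) ^ 2 := pow_le_pow_left₀ (by linarith) (by linarith) 2
    nlinarith [sq_nonneg (c - 3 / 2)]

end Pool.Agent.P.MP_d5a1e1_nt
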