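import Pool.Agent.P.MP_d5a1e1_nt.MomScale

/-! A basis of order two whose representation function has a bounded factorial moment. -/

namespace Pool.Agent.P.MP_d5a1e1_nt.Thin

open Finset

lemma weight_four (J : Finset ℕ) (g : ℕ → ℕ) (r : ℕ) (hr : r ≤ ∑ i ∈ J, 2 * g i)
    (hJ : J.card ≤ 4) : (r / 2 ^ 73).factorial ≤ 1 + ∑ i ∈ J, (g i / 2 ^ 70).factorial := by
  rcases J.eq_empty_or_nonempty with rfl | hne
  · obtain rfl : r = 0 := by simpa using hr
    simp
  obtain ⟨i, hi, hmax⟩ := exists_max_image J g hne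
  have h1 := hr.trans (sum_le_card_nsmul J _ (2 * g i) (fun j hj =>
    Nat.mul_le_mul_left _ (hmax j hj)))
  rw [smul_eq_mul] at h1
  have h2 := h1.trans (Nat.mul_le_mul_right _ hJ)
  have h3 : r / 2 ^ 73 ≤ g i / 2 ^ 70 := by omega
  exact (Nat.factorial_le h3).trans ((single_le_sum (f := fun i => (g i / 2 ^ 70).factorial)
    (fun _ _ => Nat.zero_le _) hi).trans (Nat.le_add_left _ _))

lemma geo_cut (N L : ℕ) : (∑ i ∈ range L, if 2 ^ (8 * i) < N then 2 ^ (8 * i) else 0) ≤ 2 * N ∧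
    (∑ i ∈ range L, if 2 ^ (8 * i) < N then 2 ^ (8 * i) else 0) ≤ 2 ^ (8 * L) := by
  induction L with
  | zero => simp
  | succ L ih =>
    rw [sum_range_succ, show 8 * (L + 1) = 8 * L + 8 by ring, pow_add]
    obtain ⟨h1, h2⟩ := ih
    split_ifs with h
    · constructor <;> omega
    · constructor <;> omega

lemma rep_le (A : Set ℕ) (n : ℕ) :
    Set.ncard {y : ℕ × ℕ | y.1 ∈ A ∧ y.2 ∈ A ∧ y.1 + y.2 = n} ≤ n + 1 := by
  rw [← Nat.card_antidiagonal n, ← Set.ncard_coe_finset]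
  exact Set.ncard_le_ncard (fun y hy => mem_coe.2 (HasAntidiagonal.mem_antidiagonal.2 hy.2.2))
    (antidiagonal n).finite_toSet

lemma rep_split {par : ℕ → Par} (h : Nice par) {I : ℕ} (hI3 : 3 ≤ I)
    (ω : ∀ s : (Σ j, ZMod (par j).p), ZMod (par s.1).q × ZMod (par s.1).q) (n : ℕ)
    (hn : 2 ^ (16 * I + 39) ≤ n) (A : Set ℕ)
    (hA : ∀ a ∈ A, a < 2 ^ (8 * I + 8) ∨ ∃ i, I ≤ i ∧ a ∈ (par i).B (fun X => ω ⟨i, X⟩)) :
    ∃ J : Finset ℕ, J.card ≤ 4 ∧ (∀ i ∈ J, 2 * I + 2 ≤ i ∧ 2 ^ (8 * i) ≤ n ∧ n < 2 ^ (8 * i + 23)) ∧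
      Set.ncard {y : ℕ × ℕ | y.1 ∈ A ∧ y.2 ∈ A ∧ y.1 + y.2 = n} ≤
        ∑ i ∈ J, 2 * RR par ω I i n := by
  classical
  have hn0 : n ≠ 0 := by
    have : 0 < 2 ^ (16 * I + 39) := by positivity
    omega
  have a3 : 16 * I + 39 ≤ Nat.log 2 n := Nat.le_log_of_pow_le (by norm_num) hn
  have hfin : {y : ℕ × ℕ | y.1 ∈ A ∧ y.2 ∈ A ∧ y.1 + y.2 = n}.Finite :=
    (antidiagonal n).finite_toSet.subset fun y hy =>
      mem_coe.2 (HasAntidiagonal.mem_antidiagonal.2 hy.2.2)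
  rw [Set.ncard_eq_toFinset_card _ hfin]
  have ht : ∀ y ∈ hfin.toFinset, y.1 ∈ A ∧ y.2 ∈ A ∧ y.1 + y.2 = n :=
    fun y hy => hfin.mem_toFinset.1 hy
  generalize hfin.toFinset = t at ht
  let J : Finset ℕ := (Icc (Nat.log 2 n / 8 - 3) (Nat.log 2 n / 8)).filter
    (fun i => 2 * I + 2 ≤ i ∧ 2 ^ (8 * i) ≤ n ∧ n < 2 ^ (8 * i + 23))
  have hJ : ∀ i y, I ≤ i → PP par ω I i n y → i ∈ J := by
    rintro i y hi ⟨p1, p2, p3⟩
    obtain ⟨b1, b2⟩ := h.B_range (by omega) p1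
    have b3 : y.2 < 2 ^ (8 * i + 22) := by
      rcases p2 with p2 | ⟨j, hj1, hj2, p2⟩
      · exact p2.trans_le (pw_le (by omega))
      · exact (h.B_range (by omega) p2).2.trans_le (pw_le (by omega))
    have b4 : n < 2 ^ (8 * i + 23) := by rw [pow_succ]; omega
    have b5 : 2 ^ (8 * i) ≤ n := by omega
    have b6 : 8 * i ≤ Nat.log 2 n := Nat.le_log_of_pow_le (by norm_num) b5
    have b7 : Nat.log 2 n < 8 * i + 23 := Nat.log_lt_of_lt_pow hn0 b4
    exact mem_filter.2 ⟨mem_Icc.2 ⟨by omega, by omega⟩, by omega, b5, b4⟩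
  have hsub : t ⊆ J.biUnion (fun i => t.filter (fun y => PP par ω I i n y) ∪
      t.filter (fun y => PP par ω I i n y.swap)) := by
    intro y hy
    obtain ⟨h1, h2, h3⟩ := ht y hy
    have key : ∃ i, I ≤ i ∧ (PP par ω I i n y ∨ PP par ω I i n y.swap) := by
      rcases hA _ h1 with h1 | ⟨i, hi, h1⟩
      · rcases hA _ h2 with h2 | ⟨j, hj, h2⟩
        · exfalso
          have : 2 ^ (8 * I + 8 + 1) ≤ 2 ^ (16 * I + 39) := pw_le (by omega)
          rw [pow_succ] at this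
          omega
        · exact ⟨j, hj, Or.inr ⟨h2, Or.inl h1, by simp only [Prod.fst_swap, Prod.snd_swap]; omega⟩⟩
      · rcases hA _ h2 with h2 | ⟨j, hj, h2⟩
        · exact ⟨i, hi, Or.inl ⟨h1, Or.inl h2, h3⟩⟩
        · rcases le_total j i with hji | hji
          · exact ⟨i, hi, Or.inl ⟨h1, Or.inr ⟨j, hj, hji, h2⟩, h3⟩⟩
          · exact ⟨j, hj, Or.inr ⟨h2, Or.inr ⟨i, hi, hji, h1⟩,
              by simp only [Prod.fst_swap, Prod.snd_swap]; omega⟩⟩
    obtain ⟨i, hi, hP⟩ := key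
    refine mem_biUnion.2 ⟨i, hP.elim (hJ i _ hi) (hJ i _ hi), ?_⟩
    rcases hP with hP | hP
    · exact mem_union_left _ (mem_filter.2 ⟨hy, hP⟩)
    · exact mem_union_right _ (mem_filter.2 ⟨hy, hP⟩)
  refine ⟨J, (card_filter_le _ _).trans (by rw [Nat.card_Icc]; omega),
    fun i hi => (mem_filter.1 hi).2,
    ((card_le_card hsub).trans card_biUnion_le).trans (sum_le_sum fun i _ => ?_)⟩
  have d4 := le_RR par ω I i n (t.filter (fun y => PP par ω I i n y))
    (fun y hy => (mem_filter.1 hy).2)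
  have d5 := le_RR par ω I i n ((t.filter (fun y => PP par ω I i n y.swap)).image Prod.swap)
    (fun y hy => by
      obtain ⟨z, hz, rfl⟩ := mem_image.1 hy
      exact (mem_filter.1 hz).2)
  rw [card_image_of_injective _ Prod.swap_injective] at d5
  rw [two_mul]
  exact (card_union_le _ _).trans (Nat.add_le_add d4 d5)

theorem moment_basis : ∃ A : Set ℕ, (∀ n : ℕ, ∃ a ∈ A, ∃ b ∈ A, a + b = n) ∧
    ∃ C : ℕ, 0 < C ∧ ∀ N : ℕ, ∑ n ∈ range N,
      (Set.ncard {y : ℕ × ℕ | y.1 ∈ A ∧ y.2 ∈ A ∧ y.1 + y.2 = n} / C).factorial ≤ C * N := by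
  classical
  obtain ⟨par, hpar⟩ := exists_par
  have h : Nice par := hpar
  obtain ⟨I, hI⟩ : ∃ I : ℕ, 16 ^ 24 ≤ I := ⟨_, le_rfl⟩
  have hI3 : 3 ≤ I := le_trans (by norm_num) hI
  obtain ⟨ω, hω⟩ := h.exists_shift2 hI
  obtain ⟨A, hA⟩ : ∃ A : Set ℕ, ∀ a, a ∈ A ↔
      a < 2 ^ (8 * I + 8) ∨ ∃ i, I ≤ i ∧ a ∈ (par i).B (fun X => ω ⟨i, X⟩) :=
    ⟨{a | a < 2 ^ (8 * I + 8) ∨ ∃ i, I ≤ i ∧ a ∈ (par i).B (fun X => ω ⟨i, X⟩)}, fun _ => Iff.rfl⟩
  obtain ⟨K, hK⟩ : ∃ K, ∀ m, m ≤ 2 ^ (16 * I + 39) → m.factorial ≤ K :=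
    ⟨_, fun _ => Nat.factorial_le⟩
  refine ⟨A, ?_, 2 ^ 73 + K, Nat.add_pos_left (by norm_num) _, ?_⟩
  · intro n
    by_cases hn : n < 2 ^ (8 * I + 8)
    · exact ⟨n, (hA _).2 (Or.inl hn), 0, (hA _).2 (Or.inl (by positivity)), rfl⟩
    have hn0 : n ≠ 0 := by
      have : 0 < 2 ^ (8 * I + 8) := by positivity
      omega
    have a1 := Nat.pow_log_le_self 2 hn0
    have a2 := Nat.lt_pow_succ_log_self (b := 2) (by norm_num) n
    have a3 : 8 * I + 8 ≤ Nat.log 2 n := Nat.le_log_of_pow_le (by norm_num) (by omega)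
    obtain ⟨i, hi⟩ : ∃ i, i + 1 = Nat.log 2 n / 8 := ⟨Nat.log 2 n / 8 - 1, by omega⟩
    obtain ⟨b1, b2⟩ := h.N (i := i) (by omega)
    obtain ⟨a, ha, b, hb, e⟩ := (par i).cover (fun X => ω ⟨i, X⟩) n (by
      have c1 : 2 ^ (8 * i + 5 + 3) ≤ 2 ^ Nat.log 2 n := pw_le (by omega)
      rw [pow_add] at c1
      omega) (by
      have c1 : 2 ^ (Nat.log 2 n).succ ≤ 2 ^ (8 * i + 16) := pw_le (by omega)
      rw [pow_add _ (8 * i)] at c1
      omega)
    exact ⟨a, (hA _).2 (Or.inr ⟨i, by omega, ha⟩), b, (hA _).2 (Or.inr ⟨i, by omega, hb⟩), e⟩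
  · intro N
    have pt : ∀ n ∈ range N,
        (Set.ncard {y : ℕ × ℕ | y.1 ∈ A ∧ y.2 ∈ A ∧ y.1 + y.2 = n} / (2 ^ 73 + K)).factorial ≤
          (K + 1) + ∑ i ∈ range N, if 2 * I + 2 ≤ i ∧ 2 ^ (8 * i) ≤ n ∧ n < 2 ^ (8 * i + 23) then
            (RR par ω I i n / 2 ^ 70).factorial else 0 := by
      intro n hn
      by_cases hs : n < 2 ^ (16 * I + 39)
      · have a1 := hK _ (((Nat.div_le_self _ (2 ^ 73 + K)).trans (rep_le A n)).trans hs)
        exact a1.trans ((Nat.le_succ _).trans (Nat.le_add_right _ _))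
      obtain ⟨J, j1, j2, j3⟩ := rep_split h hI3 ω n (not_lt.1 hs) A (fun a ha => (hA a).1 ha)
      have a1 := weight_four J _ _ j3 j1
      have a2 := Nat.factorial_le (Nat.div_le_div_left
        (a := Set.ncard {y : ℕ × ℕ | y.1 ∈ A ∧ y.2 ∈ A ∧ y.1 + y.2 = n})
        (Nat.le_add_right (2 ^ 73) K) (by positivity))
      refine a2.trans (a1.trans (Nat.add_le_add (Nat.le_add_left _ _) ?_))
      rw [← sum_filter]
      refine sum_le_sum_of_subset fun i hi => mem_filter.2 ⟨mem_range.2 ?_, j2 i hi⟩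
      have b1 := (j2 i hi).2.1
      have b2 : 8 * i < 2 ^ (8 * i) := Nat.lt_two_pow_self
      have b3 := mem_range.1 hn
      omega
    refine (sum_le_sum pt).trans ?_
    rw [sum_add_distrib, sum_comm, sum_const, card_range, smul_eq_mul]
    have c1 : ∀ i ∈ range N, (∑ n ∈ range N,
        if 2 * I + 2 ≤ i ∧ 2 ^ (8 * i) ≤ n ∧ n < 2 ^ (8 * i + 23) then
          (RR par ω I i n / 2 ^ 70).factorial else 0) ≤
        2 ^ 24 * if 2 ^ (8 * i) < N then 2 ^ (8 * i) else 0 := by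
      intro i _
      rw [← sum_filter]
      rcases ((range N).filter (fun n =>
        2 * I + 2 ≤ i ∧ 2 ^ (8 * i) ≤ n ∧ n < 2 ^ (8 * i + 23))).eq_empty_or_nonempty with
        he | ⟨n, hn⟩
      · rw [he, sum_empty]
        exact Nat.zero_le _
      obtain ⟨d1, d2, d3, -⟩ := mem_filter.1 hn
      rw [if_pos (d3.trans_lt (mem_range.1 d1))]
      refine (scale_moment h hI ω d2 (hω i (by omega)) _
        (fun m hm => (mem_filter.1 hm).2.2.2)).trans (le_of_eq ?_)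
      rw [pow_add, mul_comm]
    have c2 := sum_le_sum c1
    rw [← mul_sum] at c2
    have c3 := c2.trans (Nat.mul_le_mul_left _ (geo_cut N N).1)
    refine (Nat.add_le_add_left c3 _).trans ?_
    rw [mul_add, add_mul, mul_comm K N]
    omega

section
variable (r : ℕ → ℕ) (C : ℕ) (hC : 0 < C)
  (h : ∀ N : ℕ, ∑ n ∈ range N, (r n / C).factorial ≤ C * N)
include hC h

lemma exp_moment (t : ℝ) : ∃ K : ℝ, ∀ N : ℕ, ∑ n ∈ range N, Real.exp (t * r n) ≤ K * N := by
  obtain ⟨x, hx⟩ : ∃ x, x = Real.exp (|t| * C) := ⟨_, rfl⟩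
  have hx0 : 0 < x := hx ▸ Real.exp_pos _
  refine ⟨x * Real.exp x * C, fun N => ?_⟩
  have pt : ∀ n ∈ range N, Real.exp (t * r n) ≤ x * Real.exp x * (r n / C).factorial := by
    intro n _
    have a1 : r n ≤ C * (r n / C + 1) := (Nat.lt_mul_div_succ _ hC).le
    generalize r n / C = m at *
    have a2 : (r n : ℝ) ≤ C * ((m + 1 : ℕ) : ℝ) := by exact_mod_cast a1
    have a3 : t * r n ≤ ((m + 1 : ℕ) : ℝ) * (|t| * C) := by
      calc _ ≤ |t| * r n := mul_le_mul_of_nonneg_right (le_abs_self t) (by positivity)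
        _ ≤ |t| * (C * ((m + 1 : ℕ) : ℝ)) := mul_le_mul_of_nonneg_left a2 (abs_nonneg t)
        _ = _ := by ring
    have a4 := Real.pow_div_factorial_le_exp x hx0.le m
    rw [div_le_iff₀ (by positivity)] at a4
    calc _ ≤ _ := Real.exp_le_exp.2 a3
      _ = x * x ^ m := by rw [Real.exp_nat_mul, ← hx, pow_succ']
      _ ≤ x * (Real.exp x * m.factorial) := mul_le_mul_of_nonneg_left a4 hx0.le
      _ = _ := by ring
  refine (sum_le_sum pt).trans ?_
  rw [← mul_sum, mul_assoc _ (C : ℝ)]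
  refine mul_le_mul_of_nonneg_left ?_ (by positivity)
  exact_mod_cast h N

lemma pow_moment (p : ℕ) : ∃ K : ℝ, ∀ N : ℕ, ∑ n ∈ range N, (r n : ℝ) ^ p ≤ K * N := by
  obtain ⟨K, hK⟩ := exp_moment r C hC h 1
  refine ⟨p.factorial * K, fun N => ?_⟩
  have pt : ∀ n ∈ range N, (r n : ℝ) ^ p ≤ p.factorial * Real.exp (1 * r n) := by
    intro n _
    have a4 := Real.pow_div_factorial_le_exp (r n : ℝ) (by positivity) p
    rw [div_le_iff₀ (by positivity)] at a4
    rw [one_mul, mul_comm]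
    exact a4
  refine (sum_le_sum pt).trans ?_
  rw [← mul_sum, mul_assoc]
  exact mul_le_mul_of_nonneg_left (hK N) (by positivity)

lemma max_order : ∃ K : ℝ, ∃ N : ℕ, ∀ n : ℕ, N ≤ n →
    (r n : ℝ) ≤ K * (Real.log n / Real.log (Real.log n)) := by
  refine ⟨9 * C, C + 2 ^ 39, fun n hn => ?_⟩
  have a1 : (r n / C).factorial ≤ C * (n + 1) :=
    (single_le_sum (f := fun n => (r n / C).factorial) (fun _ _ => Nat.zero_le _)
      (self_mem_range_succ n)).trans (h (n + 1))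
  have a2 : (r n / C).factorial ≤ n ^ 3 := by
    refine a1.trans ?_
    have b1 : n + 1 ≤ n * n := by nlinarith
    calc _ ≤ n * (n * n) := Nat.mul_le_mul (by omega) b1
      _ = _ := by ring
  have a3 : r n ≤ C * (r n / C + 1) := (Nat.lt_mul_div_succ _ hC).le
  generalize r n / C = m at *
  have a4 : (r n : ℝ) ≤ C * (m + 1) := by exact_mod_cast a3
  have b2 := log_low (a := 39) (n := n) (by omega)
  push_cast at b2
  have hn0 : (0 : ℝ) < n := by
    have : 0 < n := by omega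
    exact_mod_cast this
  have a5 : Real.log m.factorial ≤ 3 * Real.log n := by
    have b1 : (m.factorial : ℝ) ≤ (n : ℝ) ^ 3 := by exact_mod_cast a2
    have := Real.log_le_log (by positivity) b1
    rwa [Real.log_pow, Nat.cast_ofNat] at this
  generalize Real.log n = L at *
  have hL : 0 < L := by linarith
  have l0 : 0 < Real.log L := Real.log_pos (by linarith)
  have hs : 0 < Real.sqrt L := Real.sqrt_pos.2 hL
  have l1 : Real.log L ≤ 2 * Real.sqrt L := by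
    have := Real.log_le_sub_one_of_pos hs
    rw [Real.log_sqrt hL.le] at this
    linarith
  have l2 : Real.sqrt L ≤ 2 * (L / Real.log L) := by
    rw [← mul_div_assoc, le_div_iff₀ l0]
    calc _ ≤ Real.sqrt L * (2 * Real.sqrt L) := mul_le_mul_of_nonneg_left l1 hs.le
      _ = 2 * (Real.sqrt L * Real.sqrt L) := by ring
      _ = _ := by rw [Real.mul_self_sqrt hL.le]
  have l3 : 1 ≤ L / Real.log L := by
    rw [one_le_div l0]
    exact (Real.log_le_sub_one_of_pos hL).trans (by linarith)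
  have a6 : (m : ℝ) ≤ 8 * (L / Real.log L) := by
    by_contra hc
    push Not at hc
    have hm : (0 : ℝ) < m := by linarith
    have c1 := Real.pow_div_factorial_le_exp (m : ℝ) hm.le m
    have c2 := Real.log_le_log (by positivity) c1
    rw [Real.log_div (by positivity) (by positivity), Real.log_pow, Real.log_exp] at c2
    have c3 : Real.exp 1 * Real.sqrt L ≤ m := by
      have := Real.exp_one_lt_d9
      nlinarith
    have c4 := Real.log_le_log (by positivity) c3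
    rw [Real.log_mul (by positivity) hs.ne', Real.log_exp, Real.log_sqrt hL.le] at c4
    have c5 : 8 * (L / Real.log L) * (Real.log L / 2) ≤ m * (Real.log m - 1) :=
      mul_le_mul hc.le (by linarith) (by positivity) hm.le
    have c6 : 8 * (L / Real.log L) * (Real.log L / 2) = 4 * L := by field_simp; ring
    nlinarith
  have hC' : (0 : ℝ) ≤ C := by positivity
  calc _ ≤ _ := a4
    _ ≤ C * (9 * (L / Real.log L)) := mul_le_mul_of_nonneg_left (by linarith) hC'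
    _ = _ := by ring

end

end Pool.Agent.P.MP_d5a1e1_nt.Thin
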