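import Pool.Agent.P.MP_d5a1e1_nt.Choice
import Pool.Agent.P.MP_d5a1e1_nt.Left

/-! Choice of the shifts with tail bounds at every level. -/

namespace Pool.Agent.P.MP_d5a1e1_nt.Thin

open Finset Function

/-- threshold at level `e` -/
def kk (e : ℕ) : ℕ := 2 ^ 41 * 16 ^ e

/-- length of the window at level `e` -/
def sw (e : ℕ) : ℕ := 2 ^ 9 * (e * 16 ^ e)

def win (I i e : ℕ) : Finset ℕ := (mid I i).filter (fun j => i ≤ j + sw e)

noncomputable def exw (par : ℕ → Par) (e i j : ℕ) : ℝ :=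
  (2 : ℝ) ^ e * mm i j / (par j).q + ((2 : ℝ) ^ e) ^ mm i j * (mm i j : ℝ) ^ 2 / (par j).q ^ 2

lemma exw_nonneg (par : ℕ → Par) (e i j : ℕ) : 0 ≤ exw par e i j := by unfold exw; positivity

lemma exw_le (par : ℕ → Par) {e i : ℕ} (he : e ≤ ee i) (j : ℕ) :
    exw par e i j * 2 ^ ee i ≤ 2 ^ e * ex par i j := by
  obtain ⟨m, hm⟩ : ∃ m, mm i j = m + 1 := ⟨mm i j - 1, by
    have : 0 < mm i j := by unfold mm; positivity
    omega⟩
  have h1 : ((2 : ℝ) ^ e) ^ m ≤ ((2 : ℝ) ^ ee i) ^ m :=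
    pow_le_pow_left₀ (by positivity) (pow_le_pow_right₀ (by norm_num) he) _
  unfold exw ex
  rw [hm]
  have h2 := mul_le_mul_of_nonneg_right h1 (show (0 : ℝ) ≤ 2 ^ e * 2 ^ ee i *
    (((m + 1 : ℕ) : ℝ) ^ 2 / (par j).q ^ 2) by positivity)
  calc _ = 2 ^ e * (2 ^ ee i * ((m + 1 : ℕ) : ℝ) / (par j).q) + ((2 : ℝ) ^ e) ^ m *
        (2 ^ e * 2 ^ ee i * (((m + 1 : ℕ) : ℝ) ^ 2 / (par j).q ^ 2)) := by ring
    _ ≤ 2 ^ e * (2 ^ ee i * ((m + 1 : ℕ) : ℝ) / (par j).q) + ((2 : ℝ) ^ ee i) ^ m *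
        (2 ^ e * 2 ^ ee i * (((m + 1 : ℕ) : ℝ) ^ 2 / (par j).q ^ 2)) := by linarith
    _ = _ := by ring

lemma Nice.exw_le {par : ℕ → Par} (h : Nice par) {I i j e : ℕ} (hI : 16 ^ 24 ≤ I)
    (hj : j ∈ mid I i) (he : e ≤ ee i) :
    (par j).p * exw par e i j ≤ 2 ^ 27 + 1 + 2 ^ 38 * 2 ^ e * (2 ^ j / 2 ^ i) := by
  have h1 := h.ex_le hI hj
  have h2 := Thin.exw_le par he j
  have h3 : (2 : ℝ) ^ e ≤ 2 ^ ee i := pow_le_pow_right₀ (by norm_num) he
  have h0 : (0 : ℝ) < 2 ^ ee i := by positivity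
  refine le_of_mul_le_mul_right ?_ h0
  calc _ = (par j).p * (exw par e i j * 2 ^ ee i) := by ring
    _ ≤ (par j).p * (2 ^ e * ex par i j) := mul_le_mul_of_nonneg_left h2 (by positivity)
    _ = 2 ^ e * ((par j).p * ex par i j) := by ring
    _ ≤ 2 ^ e * (2 ^ 27 + 1 + 2 ^ 38 * 2 ^ ee i * (2 ^ j / 2 ^ i)) :=
        mul_le_mul_of_nonneg_left h1 (by positivity)
    _ = (2 ^ 27 + 1) * 2 ^ e + 2 ^ 38 * 2 ^ e * (2 ^ j / 2 ^ i) * 2 ^ ee i := by ring
    _ ≤ (2 ^ 27 + 1) * 2 ^ ee i + 2 ^ 38 * 2 ^ e * (2 ^ j / 2 ^ i) * 2 ^ ee i := by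
        have := mul_le_mul_of_nonneg_left h3 (show (0 : ℝ) ≤ 2 ^ 27 + 1 by positivity)
        linarith
    _ = _ := by ring

lemma win_card (I i e : ℕ) : (win I i e).card ≤ sw e := by
  have : win I i e ⊆ Ico (i - sw e) i := by
    intro j hj
    obtain ⟨h1, h2⟩ := mem_filter.1 hj
    have := mem_range.1 (mem_filter.1 h1).1
    exact mem_Ico.2 ⟨by omega, this⟩
  refine (card_le_card this).trans ?_
  rw [Nat.card_Ico]
  omega

lemma Nice.prodw_le {par : ℕ → Par} (h : Nice par) {I i e : ℕ} (hI : 16 ^ 24 ≤ I)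
    (he : e ≤ ee i) :
    ∏ s ∈ (win I i e).sigma (fun j => (univ : Finset (ZMod (par j).p))), (1 + exw par e i s.1) ≤
      2 ^ (2 ^ 29 * sw e + 2 ^ 39 * 2 ^ e) := by
  have h1 : ∏ s ∈ (win I i e).sigma (fun j => (univ : Finset (ZMod (par j).p))),
      (1 + exw par e i s.1) ≤
      Real.exp (∑ s ∈ (win I i e).sigma (fun j => (univ : Finset (ZMod (par j).p))),
        exw par e i s.1) := by
    rw [Real.exp_sum]
    refine prod_le_prod (fun s _ => by have := exw_nonneg par e i s.1; linarith) fun s _ => ?_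
    rw [add_comm]; exact Real.add_one_le_exp _
  have h2 : ∑ s ∈ (win I i e).sigma (fun j => (univ : Finset (ZMod (par j).p))), exw par e i s.1 ≤
      ((2 ^ 28 * sw e + 2 ^ 38 * 2 ^ e : ℕ) : ℝ) := by
    rw [sum_sigma]
    have a1 : ∀ j ∈ win I i e, ∑ _X : ZMod (par j).p, exw par e i j ≤
        2 ^ 27 + 1 + 2 ^ 38 * 2 ^ e * (2 ^ j / 2 ^ i) := by
      intro j hj
      rw [sum_const, card_univ, ZMod.card, nsmul_eq_mul]
      exact h.exw_le hI (mem_filter.1 hj).1 he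
    refine (sum_le_sum a1).trans ?_
    rw [sum_add_distrib, ← mul_sum, ← sum_div, sum_const, nsmul_eq_mul]
    have a2 : (∑ j ∈ win I i e, (2 : ℝ) ^ j) / 2 ^ i ≤ 1 := by
      rw [div_le_one (by positivity)]
      refine (sum_le_sum_of_subset_of_nonneg ((filter_subset _ _).trans (filter_subset _ _))
        (fun j _ _ => by positivity)).trans ?_
      exact_mod_cast (two_pow_sum i).le
    have a3 : ((win I i e).card : ℝ) ≤ sw e := by exact_mod_cast win_card I i e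
    have a4 := mul_le_mul_of_nonneg_left a2 (show (0 : ℝ) ≤ 2 ^ 38 * 2 ^ e by positivity)
    have a5 : (0 : ℝ) ≤ sw e := by positivity
    push_cast
    nlinarith
  refine h1.trans ((Real.exp_le_exp.2 h2).trans ?_)
  rw [← Real.exp_one_pow, show 2 ^ 29 * sw e + 2 ^ 39 * 2 ^ e =
    2 * (2 ^ 28 * sw e + 2 ^ 38 * 2 ^ e) by ring, pow_mul 2 2]
  refine pow_le_pow_left₀ (Real.exp_pos 1).le ?_ _
  have := Real.exp_one_lt_d9
  linarith

/-- number of hits of the window -/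
def HH (par : ℕ → Par)
    (ω : ∀ s : (Σ j, ZMod (par j).p), ZMod (par s.1).q × ZMod (par s.1).q) (J : Finset ℕ)
    (i n : ℕ) (l : Lay) : ℕ :=
  ∑ s ∈ J.sigma (fun j => (univ : Finset (ZMod (par j).p))),
    hit (par s.1) (Cand (par i) (par s.1) (fun Y => ω ⟨i, Y⟩) n l s.2) l.2.1 (ω s)

lemma pick_sum {α β : Type} [Fintype β] (T u : Finset α) (g : α → β → ℝ) (x : ℝ)
    (hg : ∀ a b, 0 ≤ g a b) (hu : ∀ n ∈ u, n ∈ T ∧ ∃ l, x ≤ g n l) :
    u.card * x ≤ ∑ c ∈ T ×ˢ (univ : Finset β), g c.1 c.2 := by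
  rw [sum_product, ← nsmul_eq_mul]
  refine (card_nsmul_le_sum u (fun n => ∑ l, g n l) x (fun n hn => ?_)).trans
    (sum_le_sum_of_subset_of_nonneg (fun n hn => (hu n hn).1)
      (fun n _ _ => sum_nonneg fun l _ => hg n l))
  obtain ⟨l, hl⟩ := (hu n hn).2
  exact hl.trans (single_le_sum (f := g n) (fun l _ => hg n l) (mem_univ l))

theorem Nice.exists_shift2 {par : ℕ → Par} (h : Nice par) {I : ℕ} (hI : 16 ^ 24 ≤ I) :
    ∃ ω : (∀ s : (Σ j, ZMod (par j).p), ZMod (par s.1).q × ZMod (par s.1).q),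
      ∀ i, I ≤ i → ∀ e, 1 ≤ e → e ≤ ee i → ∀ u : Finset ℕ,
        (∀ n ∈ u, n < 2 ^ (8 * i + 23) ∧ ∃ l, kk e ≤ HH par ω (win I i e) i n l) →
          u.card * 2 ^ (2 ^ 40 * (e * 16 ^ e)) ≤ 2 ^ (8 * i) := by
  classical
  refine Exists.imp (fun ω hω => ?_) (exists_left (ι := Σ j, ZMod (par j).p)
    (Ω := fun s => ZMod (par s.1).q × ZMod (par s.1).q) (κ := ℕ × Lay) (fun s => s.1) sw
    (fun i => if I ≤ i then Icc 1 (ee i) else ∅)
    (fun i => range (2 ^ (8 * i + 23)) ×ˢ univ)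
    (fun i e => (win I i e).sigma (fun j => (univ : Finset (ZMod (par j).p))))
    (fun i e c s ω => ((2 : ℝ) ^ e) ^
      hit (par s.1) (Cand (par i) (par s.1) (fun Y => ω ⟨i, Y⟩) c.1 c.2 s.2) c.2.2.1 (ω s))
    (fun i e s => 1 + exw par e i s.1)
    (fun i e => (2 : ℝ) ^ (8 * i + 47 + (2 ^ 29 * sw e + 2 ^ 39 * 2 ^ e) + (sw e + e + 2)))
    (fun i e c s ω => by positivity) (fun i e s => by have := exw_nonneg par e i s.1; linarith)
    (fun i e => by positivity) ?_ ?_ ?_ ?_ ?_ ?_)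
  · intro i hi e he1 he2 u hu
    have h1 := hω i e (by simp [hi, he1, he2])
    simp only [prod_pow_eq_pow_sum] at h1
    have h2 := pick_sum (range (2 ^ (8 * i + 23))) u
      (fun n (l : Lay) => ((2 : ℝ) ^ e) ^ HH par ω (win I i e) i n l) (((2 : ℝ) ^ e) ^ kk e)
      (fun _ _ => by positivity) (fun n hn => ⟨mem_range.2 (hu n hn).1, (hu n hn).2.imp
        fun l hl => pow_le_pow_right₀ (one_le_pow₀ (by norm_num)) hl⟩)
    unfold HH at h2
    have h3 := h2.trans h1.le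
    rw [← pow_mul] at h3
    have h4 : u.card * 2 ^ (e * kk e) ≤
        2 ^ (8 * i + 47 + (2 ^ 29 * sw e + 2 ^ 39 * 2 ^ e) + (sw e + e + 2)) := by
      exact_mod_cast h3
    have b1 : 2 ^ e ≤ 16 ^ e := Nat.pow_le_pow_left (by norm_num) _
    have b2 : 16 ^ e ≤ e * 16 ^ e := Nat.le_mul_of_pos_left _ he1
    have b3 : e ≤ e * 16 ^ e := Nat.le_mul_of_pos_right _ (by positivity)
    have b4 : e * kk e = 2 ^ 40 * (e * 16 ^ e) + 2 ^ 40 * (e * 16 ^ e) := by unfold kk; ring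
    have b5 : 8 * i + 47 + (2 ^ 29 * sw e + 2 ^ 39 * 2 ^ e) + (sw e + e + 2) ≤
        8 * i + 2 ^ 40 * (e * 16 ^ e) := by
      unfold sw
      omega
    have h5 := h4.trans (pw_le b5)
    rw [b4, pow_add, pow_add, ← mul_assoc] at h5
    exact Nat.le_of_mul_le_mul_right h5 (by positivity)
  · intro i e c s _ t ht hts ω v
    have ht1 : t.1 < i := mem_range.1 (mem_filter.1 (mem_filter.1 (mem_sigma.1 ht).1).1).1
    have e1 : (fun Y => update ω t v ⟨i, Y⟩) = fun Y => ω ⟨i, Y⟩ := by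
      funext Y
      refine update_of_ne ?_ _ _
      rintro rfl
      exact lt_irrefl _ ht1
    simp only [e1, update_of_ne hts.symm]
  · intro i e _ c _ s hs ω
    obtain ⟨h1, h2, -⟩ := mem_filter.1 (mem_filter.1 (mem_sigma.1 hs).1).1
    have hs1 : s.1 < i := mem_range.1 h1
    have e1 : ∀ v, (fun Y => update ω s v ⟨i, Y⟩) = fun Y => ω ⟨i, Y⟩ := by
      intro v
      funext Y
      refine update_of_ne ?_ _ _
      rintro rfl
      exact lt_irrefl _ hs1
    simp only [e1, update_self]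
    have h3 : 3 ≤ s.1 := le_trans (by norm_num) (hI.trans h2)
    refine (mgf (par s.1) _ _ _ (h.cand h3 hs1 _ c.1 c.2 s.2) _
      (one_le_pow₀ (by norm_num))).trans (le_of_eq ?_)
    have hq : (0 : ℝ) < (par s.1).q := by exact_mod_cast (par s.1).q_pos
    rw [Fintype.card_prod, ZMod.card]
    unfold exw
    push_cast
    field_simp
    ring
  · intro i e s hs
    exact (mem_filter.1 (mem_sigma.1 hs).1).2
  · intro i e c s hs t ht ω v
    have hs1 : s.1 < i := mem_range.1 (mem_filter.1 (mem_filter.1 (mem_sigma.1 hs).1).1).1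
    have e1 : (fun Y => update ω t v ⟨i, Y⟩) = fun Y => ω ⟨i, Y⟩ := by
      funext Y
      refine update_of_ne ?_ _ _
      rintro rfl
      exact lt_irrefl _ ht
    have e2 : s ≠ t := by
      rintro rfl
      exact lt_asymm hs1 ht
    simp only [e1, update_of_ne e2]
  · intro i
    refine ⟨(mid I i).sigma (fun j => (univ : Finset (ZMod (par j).p))) ∪
      univ.image (fun Y : ZMod (par i).p => (⟨i, Y⟩ : Σ j, ZMod (par j).p)), ?_⟩
    intro e c s hs ω ω' hh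
    have e1 : (fun Y => ω ⟨i, Y⟩) = fun Y => ω' ⟨i, Y⟩ := by
      funext Y
      exact hh _ (mem_union_right _ (mem_image.2 ⟨Y, mem_univ _, rfl⟩))
    simp only [e1, hh s (mem_union_left _ (mem_sigma.2
      ⟨(mem_filter.1 (mem_sigma.1 hs).1).1, mem_univ _⟩))]
  · intro i e he
    by_cases hi : I ≤ i
    swap
    · simp [hi] at he
    simp only [hi, if_true] at he
    have a1 : ((range (2 ^ (8 * i + 23)) ×ˢ (univ : Finset Lay)).card : ℝ) ≤ 2 ^ (8 * i + 47) := by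
      rw [card_product, card_range, card_univ]
      have := Nat.mul_le_mul_left (2 ^ (8 * i + 23)) card_lay
      rw [← pow_add] at this
      exact_mod_cast this
    have a2 := h.prodw_le hI (mem_Icc.1 he).2
    refine (mul_le_mul a1 a2 (prod_nonneg fun s _ => by
      have := exw_nonneg par e i s.1; linarith) (by positivity)).trans ?_
    rw [le_div_iff₀ (by positivity), ← pow_add, ← pow_add]

end Pool.Agent.P.MP_d5a1e1_nt.Thin
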