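import Pool.Agent.P.MP_d5a1e1_nt.Thin
import Pool.Agent.P.MP_d5a1e1_nt.MomShift

/-! The factorial moment of the number of representations at one scale. -/

namespace Pool.Agent.P.MP_d5a1e1_nt.Thin

open Finset

/-- pairs whose first entry lies in block `i` and whose second entry lies no later -/
def PP (par : ℕ → Par)
    (ω : ∀ s : (Σ j, ZMod (par j).p), ZMod (par s.1).q × ZMod (par s.1).q) (I i n : ℕ)
    (y : ℕ × ℕ) : Prop :=
  y.1 ∈ (par i).B (fun X => ω ⟨i, X⟩) ∧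
    (y.2 < 2 ^ (8 * I + 8) ∨ ∃ j, I ≤ j ∧ j ≤ i ∧ y.2 ∈ (par j).B (fun X => ω ⟨j, X⟩)) ∧
    y.1 + y.2 = n

open Classical in
noncomputable def RR (par : ℕ → Par)
    (ω : ∀ s : (Σ j, ZMod (par j).p), ZMod (par s.1).q × ZMod (par s.1).q) (I i n : ℕ) : ℕ :=
  ((antidiagonal n).filter (PP par ω I i n)).card

lemma le_RR (par : ℕ → Par)
    (ω : ∀ s : (Σ j, ZMod (par j).p), ZMod (par s.1).q × ZMod (par s.1).q) (I i n : ℕ)
    (u : Finset (ℕ × ℕ)) (hu : ∀ y ∈ u, PP par ω I i n y) : u.card ≤ RR par ω I i n := by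
  classical
  unfold RR
  refine card_le_card fun y hy => ?_
  simp only [mem_filter]
  exact ⟨HasAntidiagonal.mem_antidiagonal.2 (hu y hy).2.2, hu y hy⟩

lemma scale_split {par : ℕ → Par} (h : Nice par) {I : ℕ} (hI3 : 3 ≤ I)
    (ω : ∀ s : (Σ j, ZMod (par j).p), ZMod (par s.1).q × ZMod (par s.1).q)
    (i n : ℕ) (hi : 2 * I + 2 ≤ i) (J : Finset ℕ)
    (hJ : ∀ j ∈ mid I i, ∀ a ∈ (par i).B (fun X => ω ⟨i, X⟩),
      ∀ b ∈ (par j).B (fun X => ω ⟨j, X⟩), a + b = n → j ∈ J) :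
    RR par ω I i n ≤ 2 ^ 54 + ∑ l : Lay, HH par ω J i n l := by
  classical
  obtain ⟨u, hu0, hu⟩ : ∃ u : Finset (ℕ × ℕ), RR par ω I i n = u.card ∧
      ∀ y ∈ u, PP par ω I i n y := ⟨_, rfl, fun y hy => by
        simp only [mem_filter] at hy
        exact hy.2⟩
  rw [hu0]
  have hsub : u ⊆ u.filter (fun y => y.2 ∈ (par i).B (fun X => ω ⟨i, X⟩)) ∪
      u.filter (fun y => y.2 ≤ (par i).D) ∪
      u.filter (fun y => ∃ j ∈ J, y.2 ∈ (par j).B (fun X => ω ⟨j, X⟩)) := by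
    intro y hy
    obtain ⟨h1, h2, h3⟩ := hu y hy
    obtain ⟨d1, -⟩ := h.D (i := i) (by omega)
    simp only [mem_union, mem_filter]
    rcases h2 with h2 | ⟨j, hj1, hj2, h2⟩
    · exact Or.inl (Or.inr ⟨hy, h2.le.trans ((pw_le (by omega)).trans d1)⟩)
    · rcases hj2.lt_or_eq with hj | rfl
      · by_cases hm : 4 * i < 8 * j + 22
        · exact Or.inr ⟨hy, j, hJ j (mem_filter.2 ⟨mem_range.2 hj, hj1, hm⟩) _ h1 _ h2 h3, h2⟩
        · have := (h.B_range (by omega) h2).2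
          exact Or.inl (Or.inr ⟨hy, this.le.trans ((pw_le (by omega)).trans d1)⟩)
      · exact Or.inl (Or.inl ⟨hy, h2⟩)
  have c1 := (par i).same (fun X => ω ⟨i, X⟩) n
    (u.filter (fun y => y.2 ∈ (par i).B (fun X => ω ⟨i, X⟩))) (fun y hy =>
      ⟨(hu y (mem_filter.1 hy).1).1, (mem_filter.1 hy).2, (hu y (mem_filter.1 hy).1).2.2⟩)
  have c2 : (u.filter (fun y => y.2 ≤ (par i).D)).card ≤ 2 ^ 25 := by
    have hinj : Set.InjOn (fun y : ℕ × ℕ => y.1) (u.filter (fun y => y.2 ≤ (par i).D)) := by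
      intro y hy y' hy' e
      have a1 := (hu y (mem_filter.1 hy).1).2.2
      have a2 := (hu y' (mem_filter.1 hy').1).2.2
      simp only at e
      exact Prod.ext e (by omega)
    rw [← card_image_of_injOn hinj]
    refine (par i).window (fun X => ω ⟨i, X⟩) _ ?_ ?_
    · intro a ha
      obtain ⟨y, hy, rfl⟩ := mem_image.1 ha
      exact (hu y (mem_filter.1 hy).1).1
    · intro a ha a' ha'
      obtain ⟨y, hy, rfl⟩ := mem_image.1 ha
      obtain ⟨y', hy', rfl⟩ := mem_image.1 ha'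
      have a1 := (hu y (mem_filter.1 hy).1).2.2
      have a2 := (hu y' (mem_filter.1 hy').1).2.2
      have a3 := (mem_filter.1 hy).2
      omega
  have c3 := mid_card (par i) (fun X => ω ⟨i, X⟩) par ω J n
    (u.filter (fun y => ∃ j ∈ J, y.2 ∈ (par j).B (fun X => ω ⟨j, X⟩))) (fun y hy =>
      ⟨(hu y (mem_filter.1 hy).1).1, (mem_filter.1 hy).2, (hu y (mem_filter.1 hy).1).2.2⟩)
  have c6 := (card_le_card hsub).trans
    ((card_union_le _ _).trans (Nat.add_le_add_right (card_union_le _ _) _))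
  unfold HH
  omega

lemma Nice.B_card {par : ℕ → Par} (h : Nice par) {i : ℕ} (hi : 3 ≤ i)
    (ω : ZMod (par i).p → ZMod (par i).q × ZMod (par i).q) :
    ((par i).B ω).card ≤ 2 ^ (4 * i + 26) := by
  unfold Par.B
  refine card_image_le.trans ?_
  rw [card_univ, Fintype.card_prod, Fintype.card_prod (ZMod _), ZMod.card, ZMod.card]
  calc _ ≤ 2 ^ 24 * 2 ^ (4 * i + 2) := Nat.mul_le_mul card_lay (h.pq hi).2
    _ = _ := by ring

lemma geo16 (m : ℕ) : ∑ j ∈ range m, 16 ^ j ≤ 16 ^ m := by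
  induction m with
  | zero => simp
  | succ m ih => rw [sum_range_succ, pow_succ]; omega

lemma far_card {par : ℕ → Par} (h : Nice par) {i : ℕ} (hi : 3 ≤ i)
    (ω : ∀ s : (Σ j, ZMod (par j).p), ZMod (par s.1).q × ZMod (par s.1).q) (s : ℕ) (u : Finset ℕ)
    (hu : ∀ n ∈ u, ∃ j, 3 ≤ j ∧ j + s < i ∧ ∃ a ∈ (par i).B (fun X => ω ⟨i, X⟩),
      ∃ b ∈ (par j).B (fun X => ω ⟨j, X⟩), a + b = n) :
    u.card * 2 ^ (4 * s) ≤ 2 ^ (8 * i + 52) := by
  classical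
  rcases u.eq_empty_or_nonempty with rfl | ⟨n0, hn0⟩
  · simp
  obtain ⟨j0, -, hj0, -⟩ := hu n0 hn0
  obtain ⟨m, rfl⟩ : ∃ m, i = m + s := ⟨i - s, by omega⟩
  have hsub : u ⊆ ((range m).filter (fun j => 3 ≤ j)).biUnion (fun j =>
      image₂ (· + ·) ((par (m + s)).B (fun X => ω ⟨m + s, X⟩)) ((par j).B (fun X => ω ⟨j, X⟩))) := by
    intro n hn
    obtain ⟨j, h1, h2, a, ha, b, hb, e⟩ := hu n hn
    exact mem_biUnion.2 ⟨j, mem_filter.2 ⟨mem_range.2 (by omega), h1⟩,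
      mem_image₂.2 ⟨a, ha, b, hb, e⟩⟩
  have h1 := (card_le_card hsub).trans card_biUnion_le
  have h2 : ∀ j ∈ (range m).filter (fun j => 3 ≤ j), (image₂ (· + ·)
      ((par (m + s)).B (fun X => ω ⟨m + s, X⟩)) ((par j).B (fun X => ω ⟨j, X⟩))).card ≤
      2 ^ (4 * (m + s) + 52) * 16 ^ j := by
    intro j hj
    refine (card_image₂_le _ _ _).trans
      ((Nat.mul_le_mul (h.B_card hi _) (h.B_card (mem_filter.1 hj).2 _)).trans (le_of_eq ?_))
    rw [show (16 : ℕ) = 2 ^ 4 by norm_num, ← pow_mul]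
    ring
  have h3 := (h1.trans (sum_le_sum h2)).trans (sum_le_sum_of_subset (filter_subset _ _))
  rw [← mul_sum] at h3
  have h4 := Nat.mul_le_mul_right (2 ^ (4 * s)) (h3.trans (Nat.mul_le_mul_left _ (geo16 m)))
  refine h4.trans (le_of_eq ?_)
  rw [show (16 : ℕ) = 2 ^ 4 by norm_num, ← pow_mul]
  ring

lemma split_two {α : Type} (u : Finset α) (Q : α → Prop) : ∃ u1 u2 : Finset α,
    u1.card + u2.card = u.card ∧ (∀ n ∈ u1, n ∈ u ∧ Q n) ∧ (∀ n ∈ u2, n ∈ u ∧ ¬ Q n) := by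
  classical
  exact ⟨u.filter Q, u.filter (fun n => ¬ Q n), card_filter_add_card_filter_not Q,
    fun n hn => mem_filter.1 hn, fun n hn => mem_filter.1 hn⟩

lemma sum_lay (g : Lay → ℕ) (m : ℕ) (hg : ∀ l, g l ≤ m) : ∑ l, g l ≤ 2 ^ 24 * m := by
  have c1 := sum_le_card_nsmul (univ : Finset Lay) g m (fun l _ => hg l)
  rw [card_univ, smul_eq_mul] at c1
  exact c1.trans (Nat.mul_le_mul_right _ card_lay)

lemma comb (c1 c2 x N : ℕ) (hx : 1 ≤ x) : c1 * 2 ^ (2 ^ 40 * x) ≤ N →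
    c2 * 2 ^ (4 * (2 ^ 9 * x)) ≤ N * 2 ^ 52 → (c1 + c2) * 2 ^ (2 ^ 10 * x) ≤ N := by
  have e1 : 2 ^ 10 * x + 1 ≤ 2 ^ 40 * x := by omega
  have e2 : 2 ^ 10 * x + 1 + 52 ≤ 4 * (2 ^ 9 * x) := by omega
  intro h1 h2
  have d1 := (Nat.mul_le_mul_left _ (pw_le e1)).trans h1
  have d2 := (Nat.mul_le_mul_left _ (pw_le e2)).trans h2
  rw [pow_add _ _ 52, ← mul_assoc] at d2
  have d3 := Nat.le_of_mul_le_mul_right d2 (by positivity)
  rw [pow_succ 2 (2 ^ 10 * x), ← mul_assoc] at d1 d3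
  rw [add_mul]
  clear h1 h2 d2
  generalize c1 * 2 ^ (2 ^ 10 * x) = y1 at *
  generalize c2 * 2 ^ (2 ^ 10 * x) = y2 at *
  omega

lemma tail_card {par : ℕ → Par} (h : Nice par) {I : ℕ} (hI3 : 3 ≤ I)
    (ω : ∀ s : (Σ j, ZMod (par j).p), ZMod (par s.1).q × ZMod (par s.1).q)
    {i e : ℕ} (hi : 2 * I + 2 ≤ i) (he : 1 ≤ e)
    (hω : ∀ u : Finset ℕ,
        (∀ n ∈ u, n < 2 ^ (8 * i + 23) ∧ ∃ l, kk e ≤ HH par ω (win I i e) i n l) →
          u.card * 2 ^ (2 ^ 40 * (e * 16 ^ e)) ≤ 2 ^ (8 * i))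
    (u : Finset ℕ) (hu : ∀ n ∈ u, n < 2 ^ (8 * i + 23) ∧ 2 ^ 66 * 16 ^ e ≤ RR par ω I i n) :
    u.card * 2 ^ (2 ^ 10 * (e * 16 ^ e)) ≤ 2 ^ (8 * i) := by
  classical
  obtain ⟨u1, u2, h3, g1, g2⟩ : ∃ u1 u2 : Finset ℕ, u1.card + u2.card = u.card ∧
      (∀ n ∈ u1, n ∈ u ∧ ∃ l, kk e ≤ HH par ω (win I i e) i n l) ∧
      (∀ n ∈ u2, n ∈ u ∧ ¬ ∃ l, kk e ≤ HH par ω (win I i e) i n l) :=
    split_two u _
  have b1 : 1 ≤ 16 ^ e := Nat.one_le_pow _ _ (by norm_num)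
  have b2 : 16 ^ e ≤ e * 16 ^ e := Nat.le_mul_of_pos_left _ he
  have h2 := far_card h (i := i) (by omega) ω (sw e) u2 (fun n hn => by
    obtain ⟨a1, a2⟩ := g2 n hn
    by_contra hc
    have a3 := scale_split h hI3 ω i n hi (win I i e) (fun j hj a ha b hb hab => by
      refine mem_filter.2 ⟨hj, ?_⟩
      by_contra hlt
      exact hc ⟨j, hI3.trans (mem_filter.1 hj).2.1, by omega, a, ha, b, hb, hab⟩)
    have a4 := sum_lay (fun l => HH par ω (win I i e) i n l) (kk e - 1) (fun l => by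
      have : ¬ kk e ≤ HH par ω (win I i e) i n l := fun hl => a2 ⟨l, hl⟩
      omega)
    have a5 := (hu n a1).2
    have a6 := a5.trans (a3.trans (Nat.add_le_add_left a4 _))
    unfold kk at a6
    omega)
  have h1 := hω u1 (fun n hn => ⟨(hu n (g1 n hn).1).1, (g1 n hn).2⟩)
  rw [pow_add] at h2
  rw [← h3]
  exact comb _ _ _ _ (b1.trans b2) h1 h2

lemma weight_le (R E : ℕ) (hR : R < 2 ^ 66 * 16 ^ E) :
    (R / 2 ^ 70).factorial ≤
      1 + ∑ e ∈ Icc 1 E, if 2 ^ 66 * 16 ^ e ≤ R then 2 ^ (4 * (e * 16 ^ e)) else 0 := by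
  by_cases h : R < 2 ^ 70
  · rw [Nat.div_eq_of_lt h]
    simp
  have h1 : 16 ≤ R / 2 ^ 66 := (Nat.le_div_iff_mul_le (by positivity)).2 (by omega)
  have h2 : 1 ≤ Nat.log 16 (R / 2 ^ 66) := Nat.le_log_of_pow_le (by norm_num) (by simpa using h1)
  have h3 := Nat.pow_log_le_self 16 (show R / 2 ^ 66 ≠ 0 by omega)
  have h4 := Nat.lt_pow_succ_log_self (b := 16) (by norm_num) (R / 2 ^ 66)
  have h5 : Nat.log 16 (R / 2 ^ 66) < E :=
    Nat.log_lt_of_lt_pow (by omega) (Nat.div_lt_of_lt_mul hR)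
  generalize Nat.log 16 (R / 2 ^ 66) = e at *
  have h6 : 2 ^ 66 * 16 ^ e ≤ R := by
    rw [mul_comm]; exact (Nat.le_div_iff_mul_le (by positivity)).1 h3
  have h7 : R / 2 ^ 70 ≤ 16 ^ e := by
    rw [Nat.succ_eq_add_one, pow_succ] at h4
    omega
  have h8 : (R / 2 ^ 70).factorial ≤ 2 ^ (4 * (e * 16 ^ e)) := by
    refine (Nat.factorial_le h7).trans ((Nat.factorial_le_pow _).trans (le_of_eq ?_))
    rw [pow_mul, show (2 : ℕ) ^ 4 = 16 by norm_num, pow_mul]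
  have h9 := single_le_sum (f := fun e => if 2 ^ 66 * 16 ^ e ≤ R then 2 ^ (4 * (e * 16 ^ e)) else 0)
    (fun _ _ => Nat.zero_le _) (mem_Icc.2 ⟨h2, h5.le⟩)
  simp only [h6, if_true] at h9
  omega

theorem scale_moment {par : ℕ → Par} (h : Nice par) {I : ℕ} (hI : 16 ^ 24 ≤ I)
    (ω : ∀ s : (Σ j, ZMod (par j).p), ZMod (par s.1).q × ZMod (par s.1).q)
    {i : ℕ} (hi : 2 * I + 2 ≤ i)
    (hω : ∀ e, 1 ≤ e → e ≤ ee i → ∀ u : Finset ℕ,
        (∀ n ∈ u, n < 2 ^ (8 * i + 23) ∧ ∃ l, kk e ≤ HH par ω (win I i e) i n l) →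
          u.card * 2 ^ (2 ^ 40 * (e * 16 ^ e)) ≤ 2 ^ (8 * i))
    (T : Finset ℕ) (hT : ∀ n ∈ T, n < 2 ^ (8 * i + 23)) :
    ∑ n ∈ T, (RR par ω I i n / 2 ^ 70).factorial ≤ 2 ^ (8 * i + 24) := by
  classical
  have hI3 : 3 ≤ I := le_trans (by norm_num) hI
  obtain ⟨e1, -, e3⟩ := ee_spec (i := i) (by omega)
  have top : ∀ n ∈ T, RR par ω I i n < 2 ^ 66 * 16 ^ ee i := by
    intro n hn
    by_contra hc
    have a1 := tail_card h hI3 ω hi (e := ee i) (by omega) (hω _ (by omega) le_rfl) {n}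
      (fun m hm => by rw [mem_singleton.1 hm]; exact ⟨hT n hn, by omega⟩)
    rw [card_singleton, one_mul] at a1
    have a2 := (Nat.pow_le_pow_iff_right (by norm_num)).1 a1
    have a3 : 24 * 16 ^ ee i ≤ ee i * 16 ^ ee i := Nat.mul_le_mul_right _ e1
    rw [pow_succ] at e3
    omega
  refine (sum_le_sum fun n hn => weight_le _ _ (top n hn)).trans ?_
  rw [sum_add_distrib, sum_comm]
  have c1 : ∑ _n ∈ T, 1 ≤ 2 ^ (8 * i + 23) := by
    rw [sum_const, smul_eq_mul, mul_one]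
    refine (card_le_card (t := range (2 ^ (8 * i + 23))) fun n hn => mem_range.2 (hT n hn)).trans ?_
    rw [card_range]
  have c2 : ∀ e ∈ Icc 1 (ee i), ((∑ n ∈ T, if 2 ^ 66 * 16 ^ e ≤ RR par ω I i n then
      2 ^ (4 * (e * 16 ^ e)) else 0 : ℕ) : ℝ) ≤ 2 ^ (8 * i) * (1 / 2 ^ (e + 2)) := by
    intro e he
    obtain ⟨a1, a2⟩ := mem_Icc.1 he
    have a3 := tail_card h hI3 ω hi a1 (hω e a1 a2)
      (T.filter (fun n => 2 ^ 66 * 16 ^ e ≤ RR par ω I i n))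
      (fun n hn => ⟨hT n (mem_filter.1 hn).1, (mem_filter.1 hn).2⟩)
    rw [← sum_filter, sum_const, smul_eq_mul, mul_one_div, le_div_iff₀ (by positivity)]
    have b3 : e ≤ e * 16 ^ e := Nat.le_mul_of_pos_right _ (by positivity)
    have a4 := (Nat.mul_le_mul_left _ (pw_le
      (show 4 * (e * 16 ^ e) + (e + 2) ≤ 2 ^ 10 * (e * 16 ^ e) by omega))).trans a3
    rw [pow_add, ← mul_assoc] at a4
    exact_mod_cast a4
  have c3 := sum_le_sum c2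
  rw [← mul_sum, ← Nat.cast_sum] at c3
  have c4 := c3.trans (mul_le_mul_of_nonneg_left ((half_sum _).trans
    (show (1 : ℝ) / 2 ≤ 1 by norm_num)) (by positivity))
  rw [mul_one] at c4
  have c5 : ∑ e ∈ Icc 1 (ee i), ∑ n ∈ T, (if 2 ^ 66 * 16 ^ e ≤ RR par ω I i n then
      2 ^ (4 * (e * 16 ^ e)) else 0 : ℕ) ≤ 2 ^ (8 * i) := by exact_mod_cast c4
  have c6 : 2 ^ (8 * i) ≤ 2 ^ (8 * i + 23) := pw_le (by omega)
  rw [show 8 * i + 24 = 8 * i + 23 + 1 by ring, pow_succ 2 (8 * i + 23)]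
  omega

end Pool.Agent.P.MP_d5a1e1_nt.Thin
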