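import Mathlib

/-! Polynomial growth bounds for functions of four real variables. -/

namespace Pool.Agent.P.MP_d5a1e1_nt

/-- polynomial growth together with a Lipschitz bound in the last variable -/
def Tame (f : ℝ → ℝ → ℝ → ℝ → ℝ) : Prop :=
  ∃ (C : ℝ) (n : ℕ), 0 ≤ C ∧ ∀ S x y e : ℝ, |x| ≤ 2 * S → |y| ≤ 2 * S → |e| ≤ 2 * S →
    |f S x y e| ≤ C * (1 + S) ^ n ∧ |f S x y e - f S x y 0| ≤ C * |e| * (1 + S) ^ n

namespace Tame

lemma const (c : ℝ) : Tame (fun _ _ _ _ => c) :=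
  ⟨|c|, 0, abs_nonneg _, fun S x y e _ _ _ => ⟨by simp, by simp; positivity⟩⟩

lemma v1 : Tame (fun S _ _ _ => S) :=
  ⟨1, 1, zero_le_one, fun S x y e hx _ _ => by
    have : 0 ≤ S := by linarith [abs_nonneg x]
    refine ⟨by rw [abs_of_nonneg this]; linarith, ?_⟩
    simp; positivity⟩

lemma v2 : Tame (fun _ x _ _ => x) :=
  ⟨2, 1, by norm_num, fun S x y e hx _ _ => by
    have : 0 ≤ S := by linarith [abs_nonneg x]
    refine ⟨by linarith, ?_⟩
    simp; positivity⟩

lemma v3 : Tame (fun _ _ y _ => y) :=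
  ⟨2, 1, by norm_num, fun S x y e hx hy _ => by
    have : 0 ≤ S := by linarith [abs_nonneg x]
    refine ⟨by linarith, ?_⟩
    simp; positivity⟩

lemma v4 : Tame (fun _ _ _ e => e) :=
  ⟨2, 1, by norm_num, fun S x y e hx _ he => by
    have : 0 ≤ S := by linarith [abs_nonneg x]
    refine ⟨by linarith, ?_⟩
    have := abs_nonneg e
    simp only [sub_zero, pow_one]
    nlinarith⟩

lemma add {f g : ℝ → ℝ → ℝ → ℝ → ℝ} (hf : Tame f) (hg : Tame g) :
    Tame (fun S x y e => f S x y e + g S x y e) := by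
  obtain ⟨C, n, hC, h⟩ := hf
  obtain ⟨D, m, hD, k⟩ := hg
  refine ⟨C + D, n + m, by positivity, fun S x y e hx hy he => ?_⟩
  have hS : 0 ≤ S := by linarith [abs_nonneg x]
  obtain ⟨h1, h2⟩ := h S x y e hx hy he
  obtain ⟨k1, k2⟩ := k S x y e hx hy he
  have p1 : (1 + S) ^ n ≤ (1 + S) ^ (n + m) := pow_le_pow_right₀ (by linarith) (by omega)
  have p2 : (1 + S) ^ m ≤ (1 + S) ^ (n + m) := pow_le_pow_right₀ (by linarith) (by omega)
  have he0 := abs_nonneg e
  constructor
  · calc _ ≤ |f S x y e| + |g S x y e| := abs_add_le _ _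
      _ ≤ C * (1 + S) ^ (n + m) + D * (1 + S) ^ (n + m) := by
        have := mul_le_mul_of_nonneg_left p1 hC
        have := mul_le_mul_of_nonneg_left p2 hD
        linarith
      _ = _ := by ring
  · calc _ = |(f S x y e - f S x y 0) + (g S x y e - g S x y 0)| := by congr 1; ring
      _ ≤ |f S x y e - f S x y 0| + |g S x y e - g S x y 0| := abs_add_le _ _
      _ ≤ C * |e| * (1 + S) ^ (n + m) + D * |e| * (1 + S) ^ (n + m) := by
        have := mul_le_mul_of_nonneg_left p1 (mul_nonneg hC he0)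
        have := mul_le_mul_of_nonneg_left p2 (mul_nonneg hD he0)
        linarith
      _ = _ := by ring

lemma mul {f g : ℝ → ℝ → ℝ → ℝ → ℝ} (hf : Tame f) (hg : Tame g) :
    Tame (fun S x y e => f S x y e * g S x y e) := by
  obtain ⟨C, n, hC, h⟩ := hf
  obtain ⟨D, m, hD, k⟩ := hg
  refine ⟨2 * (C * D), n + m, by positivity, fun S x y e hx hy he => ?_⟩
  have hS : 0 ≤ S := by linarith [abs_nonneg x]
  obtain ⟨h1, h2⟩ := h S x y e hx hy he
  obtain ⟨k1, k2⟩ := k S x y e hx hy he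
  obtain ⟨k3, -⟩ := k S x y 0 hx hy (by simpa using hS)
  have he0 := abs_nonneg e
  have p1 : 0 ≤ (1 + S) ^ n := by positivity
  have p2 : 0 ≤ (1 + S) ^ m := by positivity
  constructor
  · rw [abs_mul, pow_add]
    have := mul_le_mul h1 k1 (abs_nonneg _) (by positivity)
    have h3 : 0 ≤ C * D * ((1 + S) ^ n * (1 + S) ^ m) := by positivity
    nlinarith
  · calc _ = |f S x y e * (g S x y e - g S x y 0) + (f S x y e - f S x y 0) * g S x y 0| := by
          congr 1; ring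
      _ ≤ |f S x y e| * |g S x y e - g S x y 0| + |f S x y e - f S x y 0| * |g S x y 0| := by
          rw [← abs_mul, ← abs_mul]; exact abs_add_le _ _
      _ ≤ (C * (1 + S) ^ n) * (D * |e| * (1 + S) ^ m) +
          (C * |e| * (1 + S) ^ n) * (D * (1 + S) ^ m) :=
          add_le_add (mul_le_mul h1 k2 (abs_nonneg _) (by positivity))
            (mul_le_mul h2 k3 (abs_nonneg _) (by positivity))
      _ = _ := by rw [pow_add]; ring

lemma sub {f g : ℝ → ℝ → ℝ → ℝ → ℝ} (hf : Tame f) (hg : Tame g) :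
    Tame (fun S x y e => f S x y e - g S x y e) := by
  have := add hf (mul (const (-1)) hg)
  simpa [sub_eq_add_neg] using this

lemma pow {f : ℝ → ℝ → ℝ → ℝ → ℝ} (hf : Tame f) (n : ℕ) :
    Tame (fun S x y e => f S x y e ^ n) := by
  induction n with
  | zero => simpa using const 1
  | succ n ih => simpa [pow_succ] using mul ih hf

lemma div_const {f : ℝ → ℝ → ℝ → ℝ → ℝ} (hf : Tame f) (c : ℝ) :
    Tame (fun S x y e => f S x y e / c) := by
  simpa [div_eq_mul_inv] using mul hf (const c⁻¹)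

lemma pow_le_exp (n : ℕ) : ∃ D : ℝ, 0 ≤ D ∧ ∀ S : ℝ, 0 ≤ S →
    (1 + S) ^ n * Real.exp (-S) ≤ D * Real.exp (-(S / 2)) := by
  refine ⟨2 ^ n * n.factorial * Real.exp (1 / 2), by positivity, fun S hS => ?_⟩
  have h := Real.pow_div_factorial_le_exp ((1 + S) / 2) (by positivity) n
  have hf : (0 : ℝ) < n.factorial := by positivity
  rw [div_le_iff₀ hf, div_pow, div_le_iff₀ (by positivity)] at h
  have e : Real.exp ((1 + S) / 2) * Real.exp (-S) = Real.exp (1 / 2) * Real.exp (-(S / 2)) := by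
    rw [← Real.exp_add, ← Real.exp_add]; congr 1; ring
  calc _ ≤ Real.exp ((1 + S) / 2) * n.factorial * 2 ^ n * Real.exp (-S) :=
        mul_le_mul_of_nonneg_right h (Real.exp_pos _).le
    _ = 2 ^ n * n.factorial * (Real.exp ((1 + S) / 2) * Real.exp (-S)) := by ring
    _ = _ := by rw [e]; ring

lemma exp_bound {f : ℝ → ℝ → ℝ → ℝ → ℝ} (hf : Tame f) :
    ∃ C : ℝ, 0 ≤ C ∧ ∀ S x y e : ℝ, |x| ≤ 2 * S → |y| ≤ 2 * S → |e| ≤ 2 * S →
      |f S x y e * Real.exp (-S)| ≤ C * Real.exp (-(S / 2)) ∧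
      |(f S x y e - f S x y 0) * Real.exp (-S)| ≤ C * |e| * Real.exp (-(S / 2)) := by
  obtain ⟨C, n, hC, h⟩ := hf
  obtain ⟨D, hD, k⟩ := pow_le_exp n
  refine ⟨C * D, by positivity, fun S x y e hx hy he => ?_⟩
  have hS : 0 ≤ S := by linarith [abs_nonneg x]
  obtain ⟨h1, h2⟩ := h S x y e hx hy he
  have k1 := k S hS
  have hp := (Real.exp_pos (-S)).le
  have he0 := abs_nonneg e
  constructor
  · rw [abs_mul, abs_of_nonneg hp]
    calc _ ≤ C * (1 + S) ^ n * Real.exp (-S) := mul_le_mul_of_nonneg_right h1 hp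
      _ = C * ((1 + S) ^ n * Real.exp (-S)) := by ring
      _ ≤ C * (D * Real.exp (-(S / 2))) := mul_le_mul_of_nonneg_left k1 hC
      _ = _ := by ring
  · rw [abs_mul, abs_of_nonneg hp]
    calc _ ≤ C * |e| * (1 + S) ^ n * Real.exp (-S) := mul_le_mul_of_nonneg_right h2 hp
      _ = C * |e| * ((1 + S) ^ n * Real.exp (-S)) := by ring
      _ ≤ C * |e| * (D * Real.exp (-(S / 2))) := mul_le_mul_of_nonneg_left k1 (by positivity)
      _ = _ := by ring

end Tame

end Pool.Agent.P.MP_d5a1e1_nt
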