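import Pool.Agent.P.MP_d5a1e1_nt.Energy
import Pool.Agent.P.MP_d5a1e1_nt.Tame

/-! Weighted sums over pairs and quadruples of a finite set of naturals. -/

namespace Pool.Agent.P.MP_d5a1e1_nt

open Finset

noncomputable def Phi (β : ℤ → ℝ) (A : Finset ℕ) (u : ℝ) (P : ℝ → ℝ → ℝ → ℝ → ℝ) : ℝ :=
  ∑ a ∈ A, ∑ c ∈ A, ∑ d ∈ A, ∑ b ∈ A, β ((a : ℤ) + c - (d + b)) *
    (P (u * (((a : ℝ) + c + d + b) / 2)) (u * ((a : ℝ) - c)) (u * ((d : ℝ) - b))
      (u * ((a : ℝ) + c - (d + b))) * Real.exp (-(u * (((a : ℝ) + c + d + b) / 2))))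

def sm (p : ℕ × ℕ) : ℤ := (p.1 : ℤ) + p.2

def df (p : ℕ × ℕ) : ℤ := (p.1 : ℤ) - p.2

noncomputable def wt (u : ℝ) (p : ℕ × ℕ) : ℝ := Real.exp (-(u * (((p.1 : ℝ) + p.2) / 2)))

noncomputable def En (A : Finset ℕ) (u : ℝ) : ℝ := form dl (A ×ˢ A) sm (wt u) (wt u)

noncomputable def Psi (A : Finset ℕ) (u : ℝ) (Q : ℝ → ℝ → ℝ) : ℝ :=
  ∑ a ∈ A, ∑ c ∈ A, Q (u * ((a : ℝ) + c)) (u * ((a : ℝ) - c)) * Real.exp (-(u * ((a : ℝ) + c)))

lemma form_sm (β : ℤ → ℝ) (A : Finset ℕ) (u : ℝ) :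
    form β (A ×ˢ A) sm (wt u) (wt u) = Phi β A u (fun _ _ _ _ => 1) := by
  unfold form Phi sm wt
  simp only [sum_product]
  refine sum_congr rfl fun a _ => sum_congr rfl fun c _ => sum_congr rfl fun d _ =>
    sum_congr rfl fun b _ => ?_
  rw [← Real.exp_add, one_mul]
  congr 2; ring

lemma form_df (β : ℤ → ℝ) (A : Finset ℕ) (u : ℝ) (γ : ℝ → ℝ → ℝ) :
    form β (A ×ˢ A) df (fun p => γ (u * p.1) (u * p.2) * wt u p)
        (fun p => γ (u * p.1) (u * p.2) * wt u p) =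
      Phi β A u (fun S x y e => γ ((S + e / 2 + x) / 2) ((S - e / 2 - y) / 2) *
        γ ((S - e / 2 + y) / 2) ((S + e / 2 - x) / 2)) := by
  unfold form Phi df wt
  simp only [sum_product]
  refine sum_congr rfl fun a _ => ?_
  have key : ∀ f : ℕ → ℕ → ℕ → ℝ, ∑ b ∈ A, ∑ d ∈ A, ∑ c ∈ A, f b d c =
      ∑ c ∈ A, ∑ d ∈ A, ∑ b ∈ A, f b d c := by
    intro f
    calc ∑ b ∈ A, ∑ d ∈ A, ∑ c ∈ A, f b d c = ∑ b ∈ A, ∑ c ∈ A, ∑ d ∈ A, f b d c :=
          sum_congr rfl fun b _ => sum_comm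
      _ = ∑ c ∈ A, ∑ b ∈ A, ∑ d ∈ A, f b d c := sum_comm
      _ = _ := sum_congr rfl fun c _ => sum_comm
  rw [key]
  refine sum_congr rfl fun c _ => sum_congr rfl fun d _ => sum_congr rfl fun b _ => ?_
  have e1 : (a : ℤ) - b - (d - c) = a + c - (d + b) := by ring
  have e2 : (u * (((a : ℝ) + c + d + b) / 2) + u * ((a : ℝ) + c - (d + b)) / 2 +
      u * ((a : ℝ) - c)) / 2 = u * a := by ring
  have e3 : (u * (((a : ℝ) + c + d + b) / 2) - u * ((a : ℝ) + c - (d + b)) / 2 -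
      u * ((d : ℝ) - b)) / 2 = u * b := by ring
  have e4 : (u * (((a : ℝ) + c + d + b) / 2) - u * ((a : ℝ) + c - (d + b)) / 2 +
      u * ((d : ℝ) - b)) / 2 = u * d := by ring
  have e5 : (u * (((a : ℝ) + c + d + b) / 2) + u * ((a : ℝ) + c - (d + b)) / 2 -
      u * ((a : ℝ) - c)) / 2 = u * c := by ring
  have e6 : Real.exp (-(u * (((a : ℝ) + c + d + b) / 2))) =
      Real.exp (-(u * (((a : ℝ) + b) / 2))) * Real.exp (-(u * (((d : ℝ) + c) / 2))) := by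
    rw [← Real.exp_add]; congr 1; ring
  rw [e1, e2, e3, e4, e5, e6]
  ring

lemma Phi_negx (β : ℤ → ℝ) (A : Finset ℕ) (u : ℝ) (P : ℝ → ℝ → ℝ → ℝ → ℝ) :
    Phi β A u P = Phi β A u (fun S x y e => P S (-x) y e) := by
  unfold Phi
  rw [sum_comm]
  refine sum_congr rfl fun a _ => sum_congr rfl fun c _ => sum_congr rfl fun d _ =>
    sum_congr rfl fun b _ => ?_
  have e1 : (c : ℤ) + a - (d + b) = a + c - (d + b) := by ring
  have e2 : ((c : ℝ) + a + d + b) / 2 = ((a : ℝ) + c + d + b) / 2 := by ring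
  have e3 : u * ((c : ℝ) - a) = -(u * ((a : ℝ) - c)) := by ring
  have e4 : (c : ℝ) + a - (d + b) = a + c - (d + b) := by ring
  rw [e1, e2, e3, e4]

lemma Phi_negy (β : ℤ → ℝ) (A : Finset ℕ) (u : ℝ) (P : ℝ → ℝ → ℝ → ℝ → ℝ) :
    Phi β A u P = Phi β A u (fun S x y e => P S x (-y) e) := by
  unfold Phi
  refine sum_congr rfl fun a _ => sum_congr rfl fun c _ => ?_
  rw [sum_comm]
  refine sum_congr rfl fun d _ => sum_congr rfl fun b _ => ?_
  have e1 : (a : ℤ) + c - (b + d) = a + c - (d + b) := by ring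
  have e2 : ((a : ℝ) + c + b + d) / 2 = ((a : ℝ) + c + d + b) / 2 := by ring
  have e3 : u * ((b : ℝ) - d) = -(u * ((d : ℝ) - b)) := by ring
  have e4 : (a : ℝ) + c - (b + d) = a + c - (d + b) := by ring
  rw [e1, e2, e3, e4]

lemma Phi_lin (β : ℤ → ℝ) (A : Finset ℕ) (u : ℝ) (P Q : ℝ → ℝ → ℝ → ℝ → ℝ) (s t : ℝ) :
    Phi β A u (fun S x y e => s * P S x y e + t * Q S x y e) =
      s * Phi β A u P + t * Phi β A u Q := by
  unfold Phi
  simp only [mul_sum, ← sum_add_distrib]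
  refine sum_congr rfl fun a _ => sum_congr rfl fun c _ => sum_congr rfl fun d _ =>
    sum_congr rfl fun b _ => ?_
  ring

lemma Phi_sym (β : ℤ → ℝ) (A : Finset ℕ) (u : ℝ) (P : ℝ → ℝ → ℝ → ℝ → ℝ) :
    Phi β A u P = Phi β A u (fun S x y e =>
      (P S x y e + P S (-x) y e + P S x (-y) e + P S (-x) (-y) e) / 4) := by
  have h1 := Phi_lin β A u P (fun S x y e => P S (-x) y e) (1 / 2) (1 / 2)
  rw [← Phi_negx] at h1
  have h2 := Phi_lin β A u (fun S x y e => 1 / 2 * P S x y e + 1 / 2 * P S (-x) y e)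
    (fun S x y e => 1 / 2 * P S x (-y) e + 1 / 2 * P S (-x) (-y) e) (1 / 2) (1 / 2)
  rw [← Phi_negy β A u (fun S x y e => 1 / 2 * P S x y e + 1 / 2 * P S (-x) y e), h1] at h2
  have h3 : (fun S x y e => (P S x y e + P S (-x) y e + P S x (-y) e + P S (-x) (-y) e) / 4) =
      (fun S x y e => 1 / 2 * (1 / 2 * P S x y e + 1 / 2 * P S (-x) y e) +
        1 / 2 * (1 / 2 * P S x (-y) e + 1 / 2 * P S (-x) (-y) e)) := by
    funext S x y e; ring
  rw [h3, h2]; ring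

lemma quad_args (u : ℝ) (hu : 0 ≤ u) (a c d b : ℕ) :
    |u * ((a : ℝ) - c)| ≤ 2 * (u * (((a : ℝ) + c + d + b) / 2)) ∧
    |u * ((d : ℝ) - b)| ≤ 2 * (u * (((a : ℝ) + c + d + b) / 2)) ∧
    |u * ((a : ℝ) + c - (d + b))| ≤ 2 * (u * (((a : ℝ) + c + d + b) / 2)) := by
  have ha := mul_nonneg hu (Nat.cast_nonneg (α := ℝ) a)
  have hc := mul_nonneg hu (Nat.cast_nonneg (α := ℝ) c)
  have hd := mul_nonneg hu (Nat.cast_nonneg (α := ℝ) d)
  have hb := mul_nonneg hu (Nat.cast_nonneg (α := ℝ) b)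
  refine ⟨?_, ?_, ?_⟩ <;> rw [abs_le] <;> constructor <;> nlinarith

lemma Phi_abs_le (β β' : ℤ → ℝ) (A : Finset ℕ) (u : ℝ) (P : ℝ → ℝ → ℝ → ℝ → ℝ) (C : ℝ)
    (h : ∀ a c d b : ℕ, |β ((a : ℤ) + c - (d + b))| *
      |P (u * (((a : ℝ) + c + d + b) / 2)) (u * ((a : ℝ) - c)) (u * ((d : ℝ) - b))
      (u * ((a : ℝ) + c - (d + b))) * Real.exp (-(u * (((a : ℝ) + c + d + b) / 2)))| ≤
      C * (β' ((a : ℤ) + c - (d + b)) * Real.exp (-(u * (((a : ℝ) + c + d + b) / 2) / 2)))) :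
    |Phi β A u P| ≤ C * Phi β' A (u / 2) (fun _ _ _ _ => 1) := by
  unfold Phi
  simp only [mul_sum]
  refine (abs_sum_le_sum_abs _ _).trans (sum_le_sum fun a _ => ?_)
  refine (abs_sum_le_sum_abs _ _).trans (sum_le_sum fun c _ => ?_)
  refine (abs_sum_le_sum_abs _ _).trans (sum_le_sum fun d _ => ?_)
  refine (abs_sum_le_sum_abs _ _).trans (sum_le_sum fun b _ => ?_)
  rw [abs_mul]
  refine (h a c d b).trans (le_of_eq ?_)
  rw [one_mul]
  congr 4; ring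

lemma En_nonneg (A : Finset ℕ) (u : ℝ) : 0 ≤ En A u := form_dl_nonneg _ _ _

lemma Phi_dl_fej_le (K : ℕ) (A : Finset ℕ) (u : ℝ) :
    Phi (fun k => dl k + fej K k) A u (fun _ _ _ _ => 1) ≤ 2 * En A u := by
  rw [← form_sm]
  have : form (fun k => dl k + fej K k) (A ×ˢ A) sm (wt u) (wt u) =
      form dl (A ×ˢ A) sm (wt u) (wt u) + form (fej K) (A ×ˢ A) sm (wt u) (wt u) := by
    unfold form; simp only [add_mul, sum_add_distrib]
  rw [this]
  have := form_fej_le K (A ×ˢ A) sm (wt u)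
  unfold En; linarith

lemma Phi_bound {P : ℝ → ℝ → ℝ → ℝ → ℝ} (hP : Tame P) :
    ∃ C : ℝ, 0 ≤ C ∧ ∀ (K : ℕ) (A : Finset ℕ) (u : ℝ), 0 ≤ u →
      |Phi (bet K) A u P| ≤ C * En A (u / 2) ∧ |Phi dl A u P| ≤ C * En A (u / 2) ∧
      |Phi (bet K) A u P - Phi (bet K) A u (fun S x y _ => P S x y 0)| ≤
        C * (u * K) * En A (u / 2) := by
  obtain ⟨C, hC, h⟩ := hP.exp_bound
  have gen : ∀ (β : ℤ → ℝ) (K : ℕ) (A : Finset ℕ) (u : ℝ), 0 ≤ u →
      (∀ k, |β k| ≤ dl k + fej K k) → |Phi β A u P| ≤ 2 * C * En A (u / 2) := by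
    intro β K A u hu hβ
    have h1 := Phi_abs_le β (fun k => dl k + fej K k) A u P C (fun a c d b => by
      obtain ⟨q1, q2, q3⟩ := quad_args u hu a c d b
      have := mul_le_mul (hβ ((a : ℤ) + c - (d + b))) (h _ _ _ _ q1 q2 q3).1 (abs_nonneg _)
        (add_nonneg (dl_nonneg _) (fej_nonneg _ _))
      linarith)
    have h2 := mul_le_mul_of_nonneg_left (Phi_dl_fej_le K A (u / 2)) hC
    linarith
  refine ⟨2 * C, by positivity, fun K A u hu => ⟨gen _ K A u hu (abs_bet_le K), gen _ K A u hu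
    (fun k => by rw [abs_of_nonneg (dl_nonneg k)]; linarith [fej_nonneg K k]), ?_⟩⟩
  have e : Phi (bet K) A u P - Phi (bet K) A u (fun S x y _ => P S x y 0) =
      Phi (bet K) A u (fun S x y e => P S x y e - P S x y 0) := by
    have := Phi_lin (bet K) A u P (fun S x y _ => P S x y 0) 1 (-1)
    simp only [one_mul, neg_mul, ← sub_eq_add_neg] at this
    exact this.symm
  rw [e]
  have h1 := Phi_abs_le (bet K) (fej K) A u (fun S x y e => P S x y e - P S x y 0) (C * (u * K))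
    (fun a c d b => by
      obtain ⟨q1, q2, q3⟩ := quad_args u hu a c d b
      have h2 := (h _ _ _ _ q1 q2 q3).2
      have h3 := abs_bet_mul_le K ((a : ℤ) + c - (d + b))
      have h4 : |u * ((a : ℝ) + c - (d + b))| = u * |(((a : ℤ) + c - (d + b) : ℤ) : ℝ)| := by
        rw [abs_mul, abs_of_nonneg hu]; push_cast; rfl
      rw [h4] at h2
      have hE := (Real.exp_pos (-(u * (((a : ℝ) + c + d + b) / 2) / 2))).le
      calc _ ≤ |bet K ((a : ℤ) + c - (d + b))| * (C * (u * |(((a : ℤ) + c - (d + b) : ℤ) : ℝ)|) *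
            Real.exp (-(u * (((a : ℝ) + c + d + b) / 2) / 2))) :=
            mul_le_mul_of_nonneg_left h2 (abs_nonneg _)
        _ = (C * u * Real.exp (-(u * (((a : ℝ) + c + d + b) / 2) / 2))) *
            (|bet K ((a : ℤ) + c - (d + b))| * |(((a : ℤ) + c - (d + b) : ℤ) : ℝ)|) := by ring
        _ ≤ (C * u * Real.exp (-(u * (((a : ℝ) + c + d + b) / 2) / 2))) *
            (K * fej K ((a : ℤ) + c - (d + b))) :=
            mul_le_mul_of_nonneg_left h3 (by positivity)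
        _ = _ := by ring)
  rw [← form_sm] at h1
  have h2 := form_fej_le K (A ×ˢ A) sm (wt (u / 2))
  have h3 : 0 ≤ C * (u * K) := by positivity
  have h4 := mul_le_mul_of_nonneg_left h2 h3
  have h5 := mul_nonneg h3 (En_nonneg A (u / 2))
  unfold En at h5 ⊢
  linarith

lemma Psi_one_le (A : Finset ℕ) (u : ℝ) : Psi A u (fun _ _ => 1) ≤ En A u := by
  have h := sum_sq_le_form_dl (A ×ˢ A) sm (wt u) (fun p _ => (Real.exp_pos _).le)
  refine le_trans (le_of_eq ?_) h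
  unfold Psi wt
  rw [sum_product]
  refine sum_congr rfl fun a _ => sum_congr rfl fun c _ => ?_
  rw [one_mul, sq, ← Real.exp_add]; congr 1; ring

lemma Psi_bound {Q : ℝ → ℝ → ℝ} (hQ : Tame (fun S x _ _ => Q S x)) :
    ∃ C : ℝ, 0 ≤ C ∧ ∀ (A : Finset ℕ) (u : ℝ), 0 ≤ u → |Psi A u Q| ≤ C * En A (u / 2) := by
  obtain ⟨C, hC, h⟩ := hQ.exp_bound
  refine ⟨C, hC, fun A u hu => ?_⟩
  refine le_trans ?_ (mul_le_mul_of_nonneg_left (Psi_one_le A (u / 2)) hC)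
  unfold Psi
  simp only [mul_sum]
  refine (abs_sum_le_sum_abs _ _).trans (sum_le_sum fun a _ => ?_)
  refine (abs_sum_le_sum_abs _ _).trans (sum_le_sum fun c _ => ?_)
  have ha := mul_nonneg hu (Nat.cast_nonneg (α := ℝ) a)
  have hc := mul_nonneg hu (Nat.cast_nonneg (α := ℝ) c)
  have h0 : |(0 : ℝ)| ≤ 2 * (u * ((a : ℝ) + c)) := by rw [abs_zero]; nlinarith
  have h1 := (h (u * ((a : ℝ) + c)) (u * ((a : ℝ) - c)) 0 0
    (by rw [abs_le]; constructor <;> nlinarith) h0 h0).1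
  refine h1.trans (le_of_eq ?_)
  rw [one_mul]; congr 3; ring

lemma Psi_lin (A : Finset ℕ) (u : ℝ) (P Q : ℝ → ℝ → ℝ) (s t : ℝ) :
    Psi A u (fun S x => s * P S x + t * Q S x) = s * Psi A u P + t * Psi A u Q := by
  unfold Psi
  simp only [mul_sum, ← sum_add_distrib]
  refine sum_congr rfl fun a _ => sum_congr rfl fun c _ => ?_
  ring

/-- `R'` is the scale derivative of `R` -/
def DP (R R' : ℝ → ℝ → ℝ → ℝ) : Prop :=
  ∀ σ x y u : ℝ, HasDerivAt (fun u => u * (R (u * σ) (u * x) (u * y) * Real.exp (-(u * σ))))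
    (R' (u * σ) (u * x) (u * y) * Real.exp (-(u * σ))) u

lemma poly_exp_deriv (c1 c2 c3 c4 c5 c6 σ u : ℝ) :
    HasDerivAt (fun u => (c1 * u + c2 * u ^ 2 + c3 * u ^ 3 + c4 * u ^ 4 + c5 * u ^ 5 + c6 * u ^ 6) *
      Real.exp (-(u * σ)))
      ((c1 + 2 * c2 * u + 3 * c3 * u ^ 2 + 4 * c4 * u ^ 3 + 5 * c5 * u ^ 4 + 6 * c6 * u ^ 5 -
        σ * (c1 * u + c2 * u ^ 2 + c3 * u ^ 3 + c4 * u ^ 4 + c5 * u ^ 5 + c6 * u ^ 6)) *
        Real.exp (-(u * σ))) u := by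
  have h1 : HasDerivAt (fun u : ℝ => c1 * u + c2 * u ^ 2 + c3 * u ^ 3 + c4 * u ^ 4 + c5 * u ^ 5 +
      c6 * u ^ 6) (c1 * 1 + c2 * (2 * u ^ 1) + c3 * (3 * u ^ 2) + c4 * (4 * u ^ 3) +
      c5 * (5 * u ^ 4) + c6 * (6 * u ^ 5)) u :=
    ((((((hasDerivAt_id' u).const_mul c1).add ((hasDerivAt_pow 2 u).const_mul c2)).add
      ((hasDerivAt_pow 3 u).const_mul c3)).add ((hasDerivAt_pow 4 u).const_mul c4)).add
      ((hasDerivAt_pow 5 u).const_mul c5)).add ((hasDerivAt_pow 6 u).const_mul c6)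
  have h2 : HasDerivAt (fun u : ℝ => Real.exp (-(u * σ))) (Real.exp (-(u * σ)) * (-(1 * σ))) u :=
    (((hasDerivAt_id' u).mul_const σ).neg).exp
  refine (h1.mul h2).congr_deriv ?_
  ring

lemma Phi_deriv {R R' : ℝ → ℝ → ℝ → ℝ} (h : DP R R') (β : ℤ → ℝ) (A : Finset ℕ) (u : ℝ) :
    HasDerivAt (fun u => u * Phi β A u (fun S x y _ => R S x y))
      (Phi β A u (fun S x y _ => R' S x y)) u := by
  unfold Phi
  simp only [mul_sum]
  refine HasDerivAt.fun_sum fun a _ => HasDerivAt.fun_sum fun c _ => HasDerivAt.fun_sum fun d _ =>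
    HasDerivAt.fun_sum fun b _ => ?_
  have := (h (((a : ℝ) + c + d + b) / 2) ((a : ℝ) - c) ((d : ℝ) - b) u).const_mul
    (β ((a : ℤ) + c - (d + b)))
  refine this.congr_of_eventuallyEq (Filter.Eventually.of_forall fun v => ?_)
  ring

lemma Psi_deriv {R R' : ℝ → ℝ → ℝ} (h : DP (fun S x _ => R S x) (fun S x _ => R' S x))
    (A : Finset ℕ) (u : ℝ) :
    HasDerivAt (fun u => u * Psi A u R) (Psi A u R') u := by
  unfold Psi
  simp only [mul_sum]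
  refine HasDerivAt.fun_sum fun a _ => HasDerivAt.fun_sum fun c _ => ?_
  exact h ((a : ℝ) + c) ((a : ℝ) - c) 0 u

end Pool.Agent.P.MP_d5a1e1_nt
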