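import Pool.Agent.P.MP_d5a1e1_nt.Scale

/-! Counting representations inside one block, and points of a block in a short window. -/

namespace Pool.Agent.P.MP_d5a1e1_nt.Thin

open Finset

def dz (m N : ℕ) (c : Fin 2) : ℕ := N / m - c.val
def dr (m N : ℕ) (c : Fin 2) : ℕ := N % m + c.val * m

lemma carry_split {m N z r : ℕ} (h : z * m + r = N) (hr : r < 2 * m) :
    ∃ c : Fin 2, z = dz m N c ∧ r = dr m N c := by
  have hm : 0 < m := by omega
  by_cases h1 : r < m
  · refine ⟨0, ?_, ?_⟩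
    · simp only [dz, Fin.val_zero, Nat.sub_zero]
      rw [← h, add_comm, Nat.add_mul_div_right _ _ hm, Nat.div_eq_of_lt h1, zero_add]
    · simp only [dr, Fin.val_zero, zero_mul, add_zero]
      rw [← h, add_comm, Nat.add_mul_mod_self_right, Nat.mod_eq_of_lt h1]
  · obtain ⟨r', rfl⟩ : ∃ r', r = r' + m := ⟨r - m, by omega⟩
    have h2 : r' < m := by omega
    have h3 : N = r' + (z + 1) * m := by rw [← h]; ring
    refine ⟨1, ?_, ?_⟩
    · simp only [dz, Fin.val_one]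
      rw [h3, Nat.add_mul_div_right _ _ hm, Nat.div_eq_of_lt h2]; omega
    · simp only [dr, Fin.val_one, one_mul]
      rw [h3, Nat.add_mul_mod_self_right, Nat.mod_eq_of_lt h2]

lemma card_le_of_fiber {α β : Type} [Fintype β] (s : Finset α) (f : α → β) (n : ℕ)
    (h : ∀ b, ∀ t : Finset α, (∀ a ∈ t, a ∈ s ∧ f a = b) → t.card ≤ n) :
    s.card ≤ Fintype.card β * n := by
  classical
  have h1 := card_le_mul_card_image (f := f) s n
    (fun b _ => h b _ (fun a ha => mem_filter.1 ha))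
  have h2 : (s.image f).card ≤ Fintype.card β := card_le_univ _
  calc s.card ≤ n * (s.image f).card := h1
    _ ≤ n * Fintype.card β := Nat.mul_le_mul_left _ h2
    _ = _ := mul_comm _ _

lemma card_le_of_fiber' {α β : Type} (s : Finset α) (f : α → β) (n m : ℕ)
    (h : ∀ b, ∀ t : Finset α, (∀ a ∈ t, a ∈ s ∧ f a = b) → t.card ≤ n)
    (h' : ∀ u : Finset β, (∀ b ∈ u, ∃ a ∈ s, f a = b) → u.card ≤ m) :
    s.card ≤ m * n := by
  classical
  have h1 := card_le_mul_card_image (f := f) s n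
    (fun b _ => h b _ (fun a ha => mem_filter.1 ha))
  have h2 : (s.image f).card ≤ m := h' _ (fun b hb => mem_image.1 hb)
  calc s.card ≤ n * (s.image f).card := h1
    _ ≤ n * m := Nat.mul_le_mul_left _ h2
    _ = _ := mul_comm _ _

lemma quad_le {p : ℕ} [Fact p.Prime] (α β γ : ZMod p) (hα : α ≠ 0) (t : Finset (ZMod p))
    (ht : ∀ x ∈ t, α * x ^ 2 + β * x + γ = 0) : t.card ≤ 2 :=
  (card_le_card (fun x hx => mem_filter.2 ⟨mem_univ _, ht x hx⟩)).trans (quad_card_le α β γ hα)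

namespace Par

variable (S : Par)

lemma sol_card (ω : ZMod S.p → ZMod S.q × ZMod S.q) (a a' b b' : Fin 3) (U V : ZMod S.p)
    (u v : ZMod S.q) (t : Finset ((ZMod S.p × ZMod S.q) × (ZMod S.p × ZMod S.q)))
    (ht : ∀ y ∈ t, y.1.1 + y.2.1 = U ∧ S.up a y.1.1 + S.up a' y.2.1 = V ∧ y.1.2 + y.2.2 = u ∧
      S.low b (ω y.1.1) y.1.2 + S.low b' (ω y.2.1) y.2.2 = v) : t.card ≤ 2 * 2 := by
  classical
  refine card_le_of_fiber' t (fun y => y.1.1) 2 2 ?_ ?_
  · intro X t' ht'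
    have hinj : Set.InjOn (fun y : (ZMod S.p × ZMod S.q) × (ZMod S.p × ZMod S.q) => y.1.2) t' := by
      intro y hy y' hy' h
      obtain ⟨h1, h2⟩ := ht' y hy
      obtain ⟨h1', h2'⟩ := ht' y' hy'
      obtain ⟨e1, -, e2, -⟩ := ht y h1
      obtain ⟨e1', -, e2', -⟩ := ht y' h1'
      simp only at h h2 h2'
      refine Prod.ext (Prod.ext (h2.trans h2'.symm) h) (Prod.ext ?_ ?_)
      · linear_combination e1 - e1' - h2 + h2'
      · linear_combination e2 - e2' - h
    rw [← card_image_of_injOn hinj]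
    refine quad_le (S.k' b + S.k' b')
      (-2 * S.k' b * (ω X).1 - 2 * S.k' b' * (u - (ω (U - X)).1))
      (S.k' b * (ω X).1 ^ 2 + (ω X).2 + S.k' b' * (u - (ω (U - X)).1) ^ 2 + (ω (U - X)).2 - v)
      (S.hk'.1 b b') _ ?_
    intro x hx
    obtain ⟨y, hy, rfl⟩ := mem_image.1 hx
    obtain ⟨h1, h2⟩ := ht' y hy
    obtain ⟨e1, -, e2, e3⟩ := ht y h1
    have e4 : y.2.1 = U - X := by linear_combination e1 - h2
    have e5 : y.2.2 = u - y.1.2 := by linear_combination e2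
    rw [h2, e4, e5] at e3
    unfold low at e3
    linear_combination e3
  · intro u' hu'
    refine quad_le (S.k a + S.k a') (-2 * S.k a' * U) (S.k a' * U ^ 2 - V) (S.hk.1 a a') _ ?_
    intro X hX
    obtain ⟨y, hy, rfl⟩ := hu' X hX
    obtain ⟨e1, e2, -, -⟩ := ht y hy
    have e4 : y.2.1 = U - y.1.1 := by linear_combination e1
    rw [e4] at e2
    unfold up at e2
    linear_combination e2

lemma same_layer (ω : ZMod S.p → ZMod S.q × ZMod S.q) (l l' : Lay) (n : ℕ)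
    (t : Finset ((ZMod S.p × ZMod S.q) × (ZMod S.p × ZMod S.q)))
    (ht : ∀ y ∈ t, S.el ω l y.1.1 y.1.2 + S.el ω l' y.2.1 y.2.2 = n) : t.card ≤ 32 := by
  classical
  have key : ∀ y ∈ t, ∃ c : Fin 2 × Fin 2 × Fin 2,
      y.1.1 + y.2.1 = (dz S.q (dz S.D (n - S.sh l - S.sh l') c.1) c.2.1 : ℕ) ∧
      S.up l.1 y.1.1 + S.up l'.1 y.2.1 =
        (dz S.q (dr S.D (n - S.sh l - S.sh l') c.1) c.2.2 : ℕ) ∧
      y.1.2 + y.2.2 = (dr S.q (dz S.D (n - S.sh l - S.sh l') c.1) c.2.1 : ℕ) ∧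
      S.low l.2.1 (ω y.1.1) y.1.2 + S.low l'.2.1 (ω y.2.1) y.2.2 =
        (dr S.q (dr S.D (n - S.sh l - S.sh l') c.1) c.2.2 : ℕ) := by
    rintro ⟨⟨X, x⟩, ⟨X', x'⟩⟩ hy
    have h := ht _ hy
    simp only at h ⊢
    rw [el_eq, el_eq] at h
    have r1 := S.rem_lt (S.up l.1 X) (S.low l.2.1 (ω X) x)
    have r2 := S.rem_lt (S.up l'.1 X') (S.low l'.2.1 (ω X') x')
    have hD := S.hD
    generalize S.up l.1 X = R at *
    generalize S.up l'.1 X' = R' at *
    generalize S.low l.2.1 (ω X) x = v at *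
    generalize S.low l'.2.1 (ω X') x' = v' at *
    have hx := ZMod.val_lt x
    have hx' := ZMod.val_lt x'
    have hv := ZMod.val_lt v
    have hv' := ZMod.val_lt v'
    obtain ⟨c1, e1, e2⟩ := carry_split (m := S.D) (N := n - S.sh l - S.sh l')
      (z := (X.val + X'.val) * S.q + (x.val + x'.val))
      (r := (R.val + R'.val) * S.q + (v.val + v'.val))
      (by rw [← h]; simp only [add_mul]; omega) (by rw [add_mul]; omega)
    obtain ⟨c2, e3, e4⟩ := carry_split e1 (by omega)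
    obtain ⟨c3, e5, e6⟩ := carry_split e2 (by omega)
    refine ⟨(c1, c2, c3), ?_, ?_, ?_, ?_⟩
    · simp only; rw [← e3]; simp
    · simp only; rw [← e5]; simp
    · simp only; rw [← e4]; simp
    · simp only; rw [← e6]; simp
  choose! c hc using key
  have := card_le_of_fiber t c (2 * 2) (fun b t' ht' =>
    S.sol_card ω l.1 l'.1 l.2.1 l'.2.1 _ _ _ _ t' (fun y hy => by
      have := hc y (ht' y hy).1
      rw [(ht' y hy).2] at this
      exact this))
  simpa using this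

theorem same (ω : ZMod S.p → ZMod S.q × ZMod S.q) (n : ℕ) (t : Finset (ℕ × ℕ))
    (ht : ∀ y ∈ t, y.1 ∈ S.B ω ∧ y.2 ∈ S.B ω ∧ y.1 + y.2 = n) : t.card ≤ 2 ^ 53 := by
  classical
  have key : ∀ y ∈ t, ∃ z : (Lay × Lay) × (ZMod S.p × ZMod S.q) × (ZMod S.p × ZMod S.q),
      S.el ω z.1.1 z.2.1.1 z.2.1.2 = y.1 ∧ S.el ω z.1.2 z.2.2.1 z.2.2.2 = y.2 := by
    intro y hy
    obtain ⟨h1, h2, -⟩ := ht y hy
    obtain ⟨l, X, x, e⟩ := S.mem_B.1 h1
    obtain ⟨l', X', x', e'⟩ := S.mem_B.1 h2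
    exact ⟨((l, l'), (X, x), (X', x')), e, e'⟩
  have : Nonempty Lay := ⟨(0, 0, ⟨0, by rw [Kc_eq]; omega⟩, 0, 0, 0)⟩
  choose! z hz using key
  have h1 := card_le_of_fiber t (fun y => (z y).1) 32 (fun b t' ht' => by
    have hinj : Set.InjOn (fun y => (z y).2) t' := by
      intro y hy y' hy' h
      obtain ⟨h1, h2⟩ := ht' y hy
      obtain ⟨h1', h2'⟩ := ht' y' hy'
      have e : z y = z y' := Prod.ext (h2.trans h2'.symm) h
      refine Prod.ext ?_ ?_
      · rw [← (hz y h1).1, ← (hz y' h1').1, e]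
      · rw [← (hz y h1).2, ← (hz y' h1').2, e]
    rw [← card_image_of_injOn hinj]
    refine S.same_layer ω b.1 b.2 n _ ?_
    intro w hw
    obtain ⟨y, hy, rfl⟩ := mem_image.1 hw
    obtain ⟨h1, h2⟩ := ht' y hy
    rw [← h2, (hz y h1).1, (hz y h1).2]
    exact (ht y h1).2.2)
  rw [Fintype.card_prod] at h1
  have h2 := Nat.mul_le_mul card_lay card_lay
  calc t.card ≤ _ := h1
    _ ≤ 2 ^ 24 * 2 ^ 24 * 32 := Nat.mul_le_mul_right _ h2
    _ = 2 ^ 53 := by norm_num

end Par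

/-- separated sets of naturals -/
lemma sep_card_aux (α β lo : ℕ) (s : Finset ℕ) :
    ∀ hi, (∀ y ∈ s, lo ≤ y ∧ y ≤ hi) → (∀ y ∈ s, ∀ y' ∈ s, y < y' → α ≤ (y' - y) * β) →
      (s.card - 1) * α ≤ (hi - lo) * β := by
  induction s using Finset.induction_on_max with
  | empty => simp
  | insert m s hm ih =>
    intro hi h1 h2
    rcases s.eq_empty_or_nonempty with rfl | hne
    · simp
    · have hm' := s.max'_mem hne
      have hms : m ∉ s := fun h => lt_irrefl _ (hm m h)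
      have h3 := ih (s.max' hne)
        (fun y hy => ⟨(h1 y (mem_insert_of_mem hy)).1, s.le_max' y hy⟩)
        (fun y hy y' hy' => h2 y (mem_insert_of_mem hy) y' (mem_insert_of_mem hy'))
      have h4 := h2 _ (mem_insert_of_mem hm') m (mem_insert_self _ _) (hm _ hm')
      have h5 := h1 _ (mem_insert_of_mem hm')
      have h6 := h1 m (mem_insert_self _ _)
      have h7 := hm _ hm'
      have h8 := hne.card_pos
      rw [card_insert_of_notMem hms]
      have e1 : s.card + 1 - 1 = (s.card - 1) + 1 := by omega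
      have e2 : (s.max' hne - lo) + (m - s.max' hne) ≤ hi - lo := by omega
      have e3 := Nat.mul_le_mul_right β e2
      rw [e1, add_one_mul]
      rw [add_mul] at e3
      omega

lemma sep_card (α β γ δ : ℕ) (s : Finset ℕ)
    (h : ∀ y ∈ s, ∀ y' ∈ s, y < y' → α ≤ (y' - y) * β ∧ (y' - y) * γ ≤ δ) :
    (s.card - 1) * α * γ ≤ β * δ := by
  rcases s.eq_empty_or_nonempty with rfl | hne
  · simp
  have h1 := sep_card_aux α β (s.min' hne) s (s.max' hne)
    (fun y hy => ⟨s.min'_le y hy, s.le_max' y hy⟩) (fun y hy y' hy' hl => (h y hy y' hy' hl).1)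
  have h2 : (s.max' hne - s.min' hne) * γ ≤ δ := by
    rcases (s.min'_le _ (s.max'_mem hne)).lt_or_eq with hl | he
    · exact (h _ (s.min'_mem hne) _ (s.max'_mem hne) hl).2
    · rw [he]; simp
  calc _ ≤ (s.max' hne - s.min' hne) * β * γ := Nat.mul_le_mul_right _ h1
    _ = β * ((s.max' hne - s.min' hne) * γ) := by ring
    _ ≤ β * δ := Nat.mul_le_mul_left _ h2

lemma diam_card (s : Finset ℕ) (h : ∀ y ∈ s, ∀ y' ∈ s, y' ≤ y + 1) : s.card ≤ 2 := by
  have := sep_card 1 1 1 1 s (fun y hy y' hy' hl => by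
    have := h y hy y' hy'
    omega)
  omega

namespace Par

variable (S : Par)

lemma idx_inj {X X' : ZMod S.p} {x x' : ZMod S.q}
    (h : X.val * S.q + x.val = X'.val * S.q + x'.val) : X = X' ∧ x = x' := by
  have hx := ZMod.val_lt x
  have hx' := ZMod.val_lt x'
  have hq := S.q_pos
  have h1 : (X.val * S.q + x.val) / S.q = X.val := by
    rw [add_comm, Nat.add_mul_div_right _ _ hq, Nat.div_eq_of_lt hx, zero_add]
  have h2 : (X'.val * S.q + x'.val) / S.q = X'.val := by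
    rw [add_comm, Nat.add_mul_div_right _ _ hq, Nat.div_eq_of_lt hx', zero_add]
  have h3 : X.val = X'.val := by rw [← h1, ← h2, h]
  rw [h3] at h
  exact ⟨ZMod.val_injective _ h3, ZMod.val_injective _ (by omega)⟩

theorem window (ω : ZMod S.p → ZMod S.q × ZMod S.q) (t : Finset ℕ)
    (ht : ∀ a ∈ t, a ∈ S.B ω) (ht2 : ∀ a ∈ t, ∀ a' ∈ t, a' ≤ a + S.D) : t.card ≤ 2 ^ 25 := by
  classical
  have key : ∀ y ∈ t, ∃ z : Lay × ZMod S.p × ZMod S.q, S.el ω z.1 z.2.1 z.2.2 = y := by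
    intro y hy
    obtain ⟨l, X, x, e⟩ := S.mem_B.1 (ht y hy)
    exact ⟨(l, X, x), e⟩
  have : Nonempty Lay := ⟨(0, 0, ⟨0, by rw [Kc_eq]; omega⟩, 0, 0, 0)⟩
  choose! z hz using key
  have h1 := card_le_of_fiber t (fun y => (z y).1) 2 (fun b t' ht' => by
    have hinj : Set.InjOn (fun y => (z y).2.1.val * S.q + (z y).2.2.val) t' := by
      intro y hy y' hy' h
      obtain ⟨h1, h2⟩ := ht' y hy
      obtain ⟨h1', h2'⟩ := ht' y' hy'
      obtain ⟨e1, e2⟩ := S.idx_inj h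
      have e : z y = z y' := Prod.ext (h2.trans h2'.symm) (Prod.ext e1 e2)
      rw [← hz y h1, ← hz y' h1', e]
    rw [← card_image_of_injOn hinj]
    refine diam_card _ ?_
    intro w hw w' hw'
    obtain ⟨y, hy, rfl⟩ := mem_image.1 hw
    obtain ⟨y', hy', rfl⟩ := mem_image.1 hw'
    obtain ⟨h1, h2⟩ := ht' y hy
    obtain ⟨h1', h2'⟩ := ht' y' hy'
    have h3 := ht2 y h1 y' h1'
    rw [← hz y h1, ← hz y' h1', el_eq, el_eq, h2, h2'] at h3
    have r1 := S.rem_lt (S.up b.1 (z y).2.1) (S.low b.2.1 (ω (z y).2.1) (z y).2.2)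
    have hD := S.hD
    by_contra hc
    have h4 : ((z y).2.1.val * S.q + (z y).2.2.val + 2) * S.D ≤
        ((z y').2.1.val * S.q + (z y').2.2.val) * S.D := Nat.mul_le_mul_right _ (by omega)
    rw [add_mul _ 2] at h4
    omega)
  calc t.card ≤ _ := h1
    _ ≤ 2 ^ 24 * 2 := Nat.mul_le_mul_right _ card_lay
    _ = 2 ^ 25 := by norm_num

end Par

end Pool.Agent.P.MP_d5a1e1_nt.Thin
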