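import Pool.Agent.P.MP_d5a1e1_nt.Conic

/-! One block of the construction: two levels of parabolas written in mixed radix. -/

namespace Pool.Agent.P.MP_d5a1e1_nt.Thin

open Finset

structure Par where
  p : ℕ
  q : ℕ
  D : ℕ
  hp : p.Prime
  hq : q.Prime
  k : Fin 3 → ZMod p
  k' : Fin 3 → ZMod q
  hk : Good k
  hk' : Good k'
  hD : p * q ≤ D
  hD2 : D ≤ 2 * (p * q)

instance (S : Par) : Fact S.p.Prime := ⟨S.hp⟩
instance (S : Par) : Fact S.q.Prime := ⟨S.hq⟩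

/-- number of translates of a block -/
@[irreducible] def Kc : ℕ := 65536

lemma Kc_eq : Kc = 65536 := by unfold Kc; rfl

/-- layers -/
abbrev Lay : Type := Fin 3 × Fin 3 × Fin Kc × Fin 3 × Fin 3 × Fin 3

lemma card_lay : Fintype.card Lay ≤ 2 ^ 24 := by
  simp only [Lay, Fintype.card_prod, Fintype.card_fin]; rw [Kc_eq]; norm_num

lemma digits (n m : ℕ) (hm : 0 < m) : ∃ d r, r < m ∧ n = d * m + r :=
  ⟨n / m, n % m, Nat.mod_lt _ hm, by rw [mul_comm]; exact (Nat.div_add_mod n m).symm⟩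

namespace Par

variable (S : Par)

def sh (l : Lay) : ℕ :=
  (l.2.2.1.val + 1) * (S.p * S.q * S.D) + l.2.2.2.1.val * (S.q * S.D) +
    l.2.2.2.2.1.val * (S.p * S.q) + l.2.2.2.2.2.val * S.q

def up (a : Fin 3) (X : ZMod S.p) : ZMod S.p := S.k a * X ^ 2

def low (b : Fin 3) (o : ZMod S.q × ZMod S.q) (x : ZMod S.q) : ZMod S.q :=
  S.k' b * (x - o.1) ^ 2 + o.2

def base (l : Lay) (X : ZMod S.p) : ℕ :=
  S.sh l + X.val * S.q * S.D + (S.up l.1 X).val * S.q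

def el (ω : ZMod S.p → ZMod S.q × ZMod S.q) (l : Lay) (X : ZMod S.p) (x : ZMod S.q) : ℕ :=
  S.base l X + x.val * S.D + (S.low l.2.1 (ω X) x).val

def B (ω : ZMod S.p → ZMod S.q × ZMod S.q) : Finset ℕ :=
  univ.image (fun t : Lay × ZMod S.p × ZMod S.q => S.el ω t.1 t.2.1 t.2.2)

lemma mem_B {ω : ZMod S.p → ZMod S.q × ZMod S.q} {a : ℕ} :
    a ∈ S.B ω ↔ ∃ l X x, S.el ω l X x = a := by
  simp [B]

lemma p_pos : 0 < S.p := S.hp.pos
lemma q_pos : 0 < S.q := S.hq.pos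
lemma two_q_le : 2 * S.q ≤ S.D := (Nat.mul_le_mul_right _ S.hp.two_le).trans S.hD
lemma D_pos : 0 < S.D := by have := S.two_q_le; have := S.q_pos; omega

lemma rem_lt (Y : ZMod S.p) (y : ZMod S.q) : Y.val * S.q + y.val < S.p * S.q := by
  have h1 := ZMod.val_lt Y
  have h2 := ZMod.val_lt y
  have : (Y.val + 1) * S.q ≤ S.p * S.q := Nat.mul_le_mul_right _ h1
  rw [add_one_mul] at this
  omega

lemma el_eq (ω : ZMod S.p → ZMod S.q × ZMod S.q) (l : Lay) (X : ZMod S.p) (x : ZMod S.q) :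
    S.el ω l X x = S.sh l + ((X.val * S.q + x.val) * S.D +
      ((S.up l.1 X).val * S.q + (S.low l.2.1 (ω X) x).val)) := by
  unfold el base; ring

lemma B_bounds {ω : ZMod S.p → ZMod S.q × ZMod S.q} {a : ℕ} (ha : a ∈ S.B ω) :
    S.p * S.q * S.D ≤ a ∧ a < 2 ^ 17 * (S.p * S.q * S.D) := by
  obtain ⟨⟨a1, b1, g, e1, e2, e3⟩, X, x, rfl⟩ := S.mem_B.1 ha
  rw [el_eq]
  have h1 := S.rem_lt X x
  have h2 := S.rem_lt (S.up a1 X) (S.low b1 (ω X) x)
  have hg : g.val < 65536 := Kc_eq ▸ g.2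
  have he1 := e1.2
  have he2 := e2.2
  have he3 := e3.2
  have hp := S.p_pos
  have hq := S.q_pos
  have hD := S.D_pos
  have hD' := S.hD
  set z := X.val * S.q + x.val
  set r := (S.up a1 X).val * S.q + (S.low b1 (ω X) x).val
  simp only [sh]
  set N := S.p * S.q * S.D with hN
  have a1 : S.q * S.D ≤ N := by rw [hN, mul_assoc]; exact Nat.le_mul_of_pos_left _ hp
  have a2 : S.p * S.q ≤ N := by rw [hN]; exact Nat.le_mul_of_pos_right _ hD
  have a3 : S.q ≤ N := (Nat.le_mul_of_pos_left _ hp).trans a2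
  have a4 : (z + 1) * S.D ≤ N := Nat.mul_le_mul_right _ h1
  have b1 : (g.val + 1) * N ≤ 65536 * N := Nat.mul_le_mul_right _ hg
  have b2 : e1.val * (S.q * S.D) ≤ 2 * N := Nat.mul_le_mul (by omega) a1
  have b3 : e2.val * (S.p * S.q) ≤ 2 * N := Nat.mul_le_mul (by omega) a2
  have b4 : e3.val * S.q ≤ 2 * N := Nat.mul_le_mul (by omega) a3
  have b5 : N ≤ (g.val + 1) * N := Nat.le_mul_of_pos_left _ (by omega)
  rw [add_one_mul] at a4
  constructor
  · omega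
  · omega

end Par

lemma carry_cover {m : ℕ} [NeZero m] (x y : ZMod m) (T : ℕ) (h1 : m ≤ T) (h2 : T < 3 * m)
    (h : x + y = (T : ZMod m)) : ∃ e : Fin 3, T = x.val + y.val + e.val * m := by
  have hx := ZMod.val_lt x
  have hy := ZMod.val_lt y
  have h3 : (x.val + y.val) % m = T % m := by
    rw [← ZMod.val_add, h, ZMod.val_natCast]
  have h4 := Nat.div_add_mod (x.val + y.val) m
  have h5 := Nat.div_add_mod T m
  have hm : 0 < m := Nat.pos_of_ne_zero (NeZero.ne m)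
  have h6 : (x.val + y.val) / m < 2 := Nat.div_lt_of_lt_mul (by omega)
  have h7 : T / m < 3 := Nat.div_lt_of_lt_mul (by omega)
  have h8 : 1 ≤ T / m := (Nat.le_div_iff_mul_le hm).2 (by omega)
  generalize T / m = A at *
  generalize (x.val + y.val) / m = C at *
  obtain ⟨d, hd⟩ : ∃ d, A = C + d := ⟨A - C, by omega⟩
  refine ⟨⟨d, by omega⟩, ?_⟩
  simp only
  rw [hd, mul_add, mul_comm m d] at h5
  omega

namespace Par

variable (S : Par)

theorem cover (ω : ZMod S.p → ZMod S.q × ZMod S.q) (n : ℕ) (h1 : 6 * (S.p * S.q * S.D) ≤ n)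
    (h2 : n < 65536 * (S.p * S.q * S.D)) : ∃ a ∈ S.B ω, ∃ b ∈ S.B ω, a + b = n := by
  have hp := S.p_pos
  have hq := S.q_pos
  have hD := S.D_pos
  have hD2 := S.hD2
  set N := S.p * S.q * S.D with hN
  have a1 : S.q * S.D ≤ N := by rw [hN, mul_assoc]; exact Nat.le_mul_of_pos_left _ hp
  have a2 : S.p * S.q ≤ N := by rw [hN]; exact Nat.le_mul_of_pos_right _ hD
  have a3 : S.q ≤ N := (Nat.le_mul_of_pos_left _ hp).trans a2
  have hN0 : 0 < N := by omega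
  obtain ⟨n', hn'⟩ : ∃ n', n = n' + (N + S.q * S.D + S.p * S.q + S.q) :=
    ⟨n - (N + S.q * S.D + S.p * S.q + S.q), by omega⟩
  obtain ⟨U, V, l1, e1⟩ := digits n' S.D hD
  obtain ⟨V₁, V₂, l2, e2⟩ := digits V S.q hq
  have l3 : V₁ < 2 * S.p := by
    by_contra h
    have : 2 * S.p * S.q ≤ V₁ * S.q := Nat.mul_le_mul_right _ (by omega)
    rw [mul_assoc] at this
    omega
  obtain ⟨U', U₂, l4, e3⟩ := digits U S.q hq
  obtain ⟨g, U₁, l5, e4⟩ := digits U' S.p hp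
  have hn2 : n' = g * N + (U₁ * S.q + U₂) * S.D + V := by
    rw [e1, e3, e4, hN]; ring
  have l6 : (U₁ * S.q + U₂ + 1) * S.D ≤ N := by
    refine Nat.mul_le_mul_right _ ?_
    have : (U₁ + 1) * S.q ≤ S.p * S.q := Nat.mul_le_mul_right _ l5
    rw [add_one_mul] at this
    omega
  have g1 : 2 ≤ g := by
    by_contra hg
    have : g * N ≤ 1 * N := Nat.mul_le_mul_right _ (by omega)
    rw [add_one_mul] at l6
    omega
  have g2 : g < 65536 := by
    by_contra hg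
    have : 65536 * N ≤ g * N := Nat.mul_le_mul_right _ (by omega)
    omega
  obtain ⟨a, a', X, X', hX, hR⟩ := S.hk.2 ((U₁ + S.p : ℕ) : ZMod S.p) ((V₁ + S.p : ℕ) : ZMod S.p)
  obtain ⟨b, b', y, y', hy, hv⟩ := S.hk'.2 (((U₂ + S.q : ℕ) : ZMod S.q) - (ω X).1 - (ω X').1)
    (((V₂ + S.q : ℕ) : ZMod S.q) - (ω X).2 - (ω X').2)
  obtain ⟨c0, hc0⟩ := carry_cover X X' (U₁ + S.p) (by omega) (by omega) hX
  obtain ⟨c1, hc1⟩ := carry_cover (y + (ω X).1) (y' + (ω X').1) (U₂ + S.q) (by omega) (by omega)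
    (by linear_combination hy)
  obtain ⟨c2, hc2⟩ := carry_cover (S.up a X) (S.up a' X') (V₁ + S.p) (by omega) (by omega) hR
  obtain ⟨c3, hc3⟩ := carry_cover (S.low b (ω X) (y + (ω X).1)) (S.low b' (ω X') (y' + (ω X').1))
    (V₂ + S.q) (by omega) (by omega) (by unfold low; linear_combination hv)
  have hc0' : c0.val < 2 := by
    by_contra h
    have : 2 * S.p ≤ c0.val * S.p := Nat.mul_le_mul_right _ (by omega)
    omega
  obtain ⟨g', hg'⟩ : ∃ g', g + c0.val = g' + 2 := ⟨g + c0.val - 2, by omega⟩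
  refine ⟨_, S.mem_B.2 ⟨(a, b, ⟨g', by rw [Kc_eq]; omega⟩, c1, c2, c3), X, y + (ω X).1, rfl⟩,
    _, S.mem_B.2 ⟨(a', b', ⟨0, by rw [Kc_eq]; omega⟩, 0, 0, 0), X', y' + (ω X').1, rfl⟩, ?_⟩
  rw [el_eq, el_eq]
  simp only [sh, Fin.val_zero]
  rw [hn', hn2, e2, ← hN]
  zify at hc0 hc1 hc2 hc3 hg' hN ⊢
  linear_combination (-(S.q * S.D : ℤ)) * hc0 - (S.D : ℤ) * hc1 - (S.q : ℤ) * hc2 - hc3
    - (N : ℤ) * hg' + ((c0.val : ℤ) - 1) * hN

end Par

end Pool.Agent.P.MP_d5a1e1_nt.Thin
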