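import Pool.Agent.P.MP_d5a1e1_nt.T2Par

/-! Boxes of digit vectors. -/

namespace Pool.Agent.P.MP_d5a1e1_nt.T2

open Finset TB

theorem tr_tr {m n : ℕ} (h : m ≤ n) (f : ℕ → ℕ) : tr m (tr n f) = tr m f := by
  funext i
  by_cases hi : i < m
  · rw [tr_lt hi, tr_lt hi, tr_lt (by omega)]
  · rw [tr_ge (by omega), tr_ge (by omega)]

theorem tr_eq_self {n : ℕ} {N f : ℕ → ℕ} (h : f ∈ Box n N) : tr n f = f := by
  funext i
  by_cases hi : i < n
  · exact tr_lt hi f
  · rw [tr_ge (by omega), (mem_Box.1 h).2 i (by omega)]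

theorem box_upd {n : ℕ} {N f : ℕ → ℕ} (hf : f ∈ Box (n + 1) N) :
    Function.update (tr n f) n (f n) = f := by
  funext i
  by_cases hn : i = n
  · subst hn
    exact Function.update_self ..
  · rw [Function.update_of_ne hn]
    by_cases hi : i < n
    · exact tr_lt hi f
    · rw [tr_ge (by omega), (mem_Box.1 hf).2 i (by omega)]

theorem sum_Box_succ (n : ℕ) (N : ℕ → ℕ) (F : (ℕ → ℕ) → ℝ) :
    ∑ f ∈ Box (n + 1) N, F f = ∑ f ∈ Box n N, ∑ m ∈ range (N (n / 2)), F (Function.update f n m) := by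
  rw [← sum_product' (f := fun f m => F (Function.update f n m))]
  refine sum_nbij' (fun f => (tr n f, f n)) (fun q => Function.update q.1 n q.2) ?_ ?_ ?_ ?_ ?_
  · intro f hf
    have h := mem_Box.1 hf
    exact mem_product.2 ⟨tr_mem_Box fun i hi => h.1 i (by omega), mem_range.2 (h.1 n (by omega))⟩
  · rintro ⟨f, m⟩ hq
    obtain ⟨hf, hm⟩ := mem_product.1 hq
    have h := mem_Box.1 hf
    refine mem_Box.2 ⟨fun i hi => ?_, fun i hi => ?_⟩
    · by_cases hn : i = n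
      · subst hn
        rw [Function.update_self]
        exact mem_range.1 hm
      · rw [Function.update_of_ne hn]
        exact h.1 i (by omega)
    · rw [Function.update_of_ne (by omega)]
      exact h.2 i (by omega)
  · intro f hf
    exact box_upd hf
  · rintro ⟨f, m⟩ hq
    obtain ⟨hf, -⟩ := mem_product.1 hq
    refine Prod.ext ?_ (Function.update_self ..)
    funext i
    change tr n (Function.update f n m) i = f i
    by_cases hi : i < n
    · rw [tr_lt hi, Function.update_of_ne (by omega)]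
    · rw [tr_ge (by omega)]
      exact ((mem_Box.1 hf).2 i (by omega)).symm
  · intro f hf
    rw [box_upd hf]

theorem card_Gam (k : ℕ) : (Box (2 * k) DD).card = Del k ^ 2 := by
  rw [card_Box]
  induction k with
  | zero => simp [Del]
  | succ k ih =>
    rw [show 2 * (k + 1) = 2 * k + 1 + 1 by ring, prod_range_succ, prod_range_succ, ih, Del_succ,
      show 2 * k / 2 = k by omega, show (2 * k + 1) / 2 = k by omega]
    ring

theorem ym_comm (j : ℕ) (g ξ ξ' : ℕ → ℕ) : ym j g ξ ξ' = ym j g ξ' ξ := by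
  unfold ym
  congr 1
  funext i
  rw [Nat.sub_right_comm]

theorem ym_mem (j : ℕ) (g ξ ξ' : ℕ → ℕ) : ym j g ξ ξ' ∈ Box (2 * j) DD :=
  tr_mem_Box fun _ _ => Nat.mod_lt _ (DD_pos _)

theorem gd_mem (j n : ℕ) : gd j n ∈ Box (2 * j) DD :=
  tr_mem_Box fun i _ => by
    rw [Nat.div_lt_iff_lt_mul (pp_pos _)]
    exact Nat.mod_lt _ (BB_pos _)

theorem box_shift {D g a b : ℕ} (ha : a < D) (hb : b < D) :
    (g + 2 * D - a - b) % D = ((g + 2 * D - a - 0) % D + 2 * D - 0 - b) % D := by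
  have h1 : (g + 2 * D - a - 0) % D + 2 * D - 0 - b = (g + 2 * D - a - 0) % D + (2 * D - b) := by
    omega
  have h2 : g + 2 * D - a - 0 + (2 * D - b) = g + 2 * D - a - b + D + D := by omega
  rw [h1, Nat.mod_add_mod, h2, Nat.add_mod_right, Nat.add_mod_right]

/-- Shifting the first point into the target. -/
theorem ym_shift (j : ℕ) {g ξ ξ' : ℕ → ℕ} (hξ : ∀ s < 2 * j, ξ s < DD (s / 2))
    (hξ' : ∀ s < 2 * j, ξ' s < DD (s / 2)) :
    ym j g ξ ξ' = ym j (ym j g ξ fun _ => 0) (fun _ => 0) ξ' := by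
  funext i
  by_cases hi : i < 2 * j
  · simp only [ym, tr_lt hi]
    exact box_shift (hξ i hi) (hξ' i hi)
  · simp only [ym, tr_ge (Nat.not_lt.1 hi)]

theorem tr_ym {j k : ℕ} (h : j ≤ k) (g ξ ξ' : ℕ → ℕ) :
    tr (2 * j) (ym k g ξ ξ') = ym j (tr (2 * j) g) ξ ξ' := by
  funext i
  by_cases hi : i < 2 * j
  · simp only [ym, tr_lt hi, tr_lt (show i < 2 * k by omega)]
  · simp only [ym, tr_ge (Nat.not_lt.1 hi)]

theorem ym_congr (j : ℕ) (g ξ₀ : ℕ → ℕ) {ξ ξ' : ℕ → ℕ} (h : ∀ i < 2 * j, ξ i = ξ' i) :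
    ym j g ξ₀ ξ = ym j g ξ₀ ξ' := by
  funext i
  by_cases hi : i < 2 * j
  · simp only [ym, tr_lt hi, h i hi]
  · simp only [ym, tr_ge (Nat.not_lt.1 hi)]

theorem box_inv {D g a b : ℕ} (ha : a < D) (hb : b < D) :
    (g + 2 * D - a - (g + 2 * D - a - b) % D) % D = b := by
  have h1 := Nat.div_add_mod (g + 2 * D - a - b) D
  have h2 : g + 2 * D - a - (g + 2 * D - a - b) % D = b + D * ((g + 2 * D - a - b) / D) := by
    omega
  rw [h2, Nat.add_mul_mod_self_left, Nat.mod_eq_of_lt hb]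

theorem ym_ym (j : ℕ) (g : ℕ → ℕ) {ξ₀ ξ : ℕ → ℕ} (hξ : ∀ s < 2 * j, ξ₀ s < DD (s / 2))
    (h : ξ ∈ Box (2 * j) DD) : ym j g ξ₀ (ym j g ξ₀ ξ) = ξ := by
  refine Box_ext (ym_mem ..) h fun i hi => ?_
  simp only [ym, tr_lt hi]
  exact box_inv (hξ i hi) ((mem_Box.1 h).1 i hi)

theorem box_drop (n : ℕ) (N : ℕ → ℕ) (G : (ℕ → ℕ) → ℝ)
    (hG : ∀ f m, G (Function.update f n m) = G f) :
    ∑ f ∈ Box (n + 1) N, G f = N (n / 2) * ∑ f ∈ Box n N, G f := by
  rw [sum_Box_succ, mul_sum]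
  refine sum_congr rfl fun f _ => ?_
  simp only [hG, sum_const, card_range, nsmul_eq_mul]

/-- Translation invariance. -/
theorem sum_ym {j k : ℕ} (h : j ≤ k) (g : ℕ → ℕ) {ξ₀ : ℕ → ℕ} (hξ : ∀ s < 2 * j, ξ₀ s < DD (s / 2))
    (F : (ℕ → ℕ) → ℝ) :
    (∑ ξ ∈ Box (2 * k) DD, F (ym j g ξ₀ ξ)) * (Del j : ℝ) ^ 2 =
      (Del k : ℝ) ^ 2 * ∑ y ∈ Box (2 * j) DD, F y := by
  induction k, h using Nat.le_induction with
  | base =>
    rw [mul_comm]
    congr 1
    exact sum_nbij' (ym j g ξ₀) (ym j g ξ₀) (fun _ _ => ym_mem ..) (fun _ _ => ym_mem ..)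
      (fun _ h => ym_ym j g hξ h) (fun _ h => ym_ym j g hξ h) fun _ _ => rfl
  | succ k hk ih =>
    have hu : ∀ n, 2 * j ≤ n → ∀ f m, F (ym j g ξ₀ (Function.update f n m)) = F (ym j g ξ₀ f) :=
      fun n hn f m => congrArg F (ym_congr j g ξ₀ fun i hi => Function.update_of_ne (by omega) ..)
    rw [show 2 * (k + 1) = 2 * k + 1 + 1 by ring, box_drop _ _ _ (hu _ (by omega)),
      box_drop _ _ _ (hu _ (by omega)), show 2 * k / 2 = k by omega,
      show (2 * k + 1) / 2 = k by omega, Del_succ, mul_assoc, mul_assoc, ih]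
    push_cast
    ring

theorem box_two {D g a b : ℕ} (ha : a < D) (hb : b < D)
    (h : (g + 2 * D - a - a) % D = (g + 2 * D - b - b) % D) (h2 : 2 * a / D = 2 * b / D) :
    a = b := by
  have h3 : g + 2 * D - a - a + (2 * a + 2 * b) ≡ g + 2 * D - b - b + (2 * a + 2 * b) [MOD D] :=
    Nat.ModEq.add_right _ h
  rw [show g + 2 * D - a - a + (2 * a + 2 * b) = g + 2 * D + 2 * b by omega,
    show g + 2 * D - b - b + (2 * a + 2 * b) = g + 2 * D + 2 * a by omega] at h3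
  have h4 : 2 * b % D = 2 * a % D := Nat.ModEq.add_left_cancel' _ h3
  have h5 := Nat.div_add_mod (2 * a) D
  have h6 := Nat.div_add_mod (2 * b) D
  rw [h2] at h5
  omega

/-- Doubling is at most two to one in every digit. -/
theorem card_diag (k : ℕ) (g : ℕ → ℕ) (S : Finset (ℕ → ℕ)) :
    #{ξ ∈ Box (2 * k) DD | ym k g ξ ξ ∈ S} ≤ 4 ^ k * S.card := by
  refine card_le_mul_card_image_of_maps_to (f := fun ξ => ym k g ξ ξ)
    (fun ξ hξ => (mem_filter.1 hξ).2) _ fun y _ => ?_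
  have hc : (Box (2 * k) fun _ => 2).card = 4 ^ k := by
    rw [card_Box, prod_const, card_range, pow_mul]
    norm_num
  rw [← hc]
  refine card_le_card_of_injOn (fun ξ => tr (2 * k) fun i => 2 * ξ i / DD (i / 2)) ?_ ?_
  · intro ξ hξ
    have h := (mem_filter.1 (mem_filter.1 (mem_coe.1 hξ)).1).1
    refine mem_coe.2 (tr_mem_Box fun i hi => ?_)
    have := (mem_Box.1 h).1 i hi
    rw [Nat.div_lt_iff_lt_mul (DD_pos _)]
    omega
  · intro ξ hξ ξ' hξ' he
    have h := mem_filter.1 (mem_coe.1 hξ)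
    have h' := mem_filter.1 (mem_coe.1 hξ')
    have b := (mem_filter.1 h.1).1
    have b' := (mem_filter.1 h'.1).1
    refine Box_ext b b' fun i hi => ?_
    have e1 := congrFun (h.2.trans h'.2.symm) i
    have e2 := congrFun he i
    simp only [ym, tr_lt hi] at e1 e2
    exact box_two ((mem_Box.1 b).1 i hi) ((mem_Box.1 b').1 i hi) e1 e2

end Pool.Agent.P.MP_d5a1e1_nt.T2
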