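import Mathlib

/-! Mixed radix digits and the decoding of a sum with carries. -/

namespace Pool.Agent.P.MP_d5a1e1_nt.TB

open Finset

/-- `W` is the sequence of place values for the radices `B (i / 2)`. -/
structure Radix (B W : ℕ → ℕ) : Prop where
  pos : ∀ u, 0 < B u
  zero : W 0 = 1
  succ : ∀ i, W (i + 1) = W i * B (i / 2)

namespace Radix

variable {B W : ℕ → ℕ} (h : Radix B W)
include h

theorem W_pos (i : ℕ) : 0 < W i := by
  induction i with
  | zero => rw [h.zero]; exact one_pos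
  | succ i ih => rw [h.succ]; exact Nat.mul_pos ih (h.pos _)

theorem W_eq (n : ℕ) : W n = ∏ i ∈ range n, B (i / 2) := by
  induction n with
  | zero => simp [h.zero]
  | succ n ih => rw [h.succ, prod_range_succ, ih]

theorem W_dvd {m n : ℕ} (hmn : m ≤ n) : W m ∣ W n := by
  induction hmn with
  | refl => exact dvd_rfl
  | step _ ih => rw [Nat.succ_eq_add_one, h.succ]; exact ih.mul_right _

theorem W_mono {m n : ℕ} (hmn : m ≤ n) : W m ≤ W n := Nat.le_of_dvd (h.W_pos n) (h.W_dvd hmn)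

theorem div_succ (n i : ℕ) : n / W (i + 1) = n / W i / B (i / 2) := by
  rw [h.succ, Nat.div_div_eq_div_mul]

/-- Digits at most `c (B - 1)` give a value at most `c (W - 1)`. -/
theorem val_le {f : ℕ → ℕ} {c m : ℕ} (hf : ∀ i < m, f i + c ≤ c * B (i / 2)) :
    ∑ i ∈ range m, W i * f i + c ≤ c * W m := by
  induction m with
  | zero => simp [h.zero]
  | succ m ih =>
    have h1 := ih fun i hi => hf i (by omega)
    have h2 := Nat.mul_le_mul_left (W m) (hf m (by omega))
    rw [sum_range_succ, h.succ]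
    nlinarith

theorem val_lt {f : ℕ → ℕ} {m : ℕ} (hf : ∀ i < m, f i < B (i / 2)) :
    ∑ i ∈ range m, W i * f i < W m := by
  have := h.val_le (c := 1) (f := f) (m := m) fun i hi => by have := hf i hi; omega
  omega

theorem val_lt_two {f : ℕ → ℕ} {m : ℕ} (hf : ∀ i < m, f i + 2 ≤ 2 * B (i / 2)) :
    ∑ i ∈ range m, W i * f i < 2 * W m := by
  have := h.val_le (c := 2) hf
  omega

/-- Expansion of `n` into `m` digits and a quotient. -/
theorem expand (n m : ℕ) :
    ∑ i ∈ range m, W i * (n / W i % B (i / 2)) + W m * (n / W m) = n := by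
  induction m with
  | zero => simp [h.zero]
  | succ m ih =>
    rw [sum_range_succ, h.div_succ, h.succ, add_assoc, mul_assoc, ← mul_add, Nat.mod_add_div, ih]

/-- A value with proper digits is decoded digit by digit. -/
theorem eq_iff {f : ℕ → ℕ} {m t n : ℕ} (hf : ∀ i < m, f i < B (i / 2)) :
    ∑ i ∈ range m, W i * f i + W m * t = n ↔
      (∀ i < m, f i = n / W i % B (i / 2)) ∧ t = n / W m := by
  induction m generalizing t with
  | zero => simp [h.zero]
  | succ m ih =>
    have h1 := hf m (by omega)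
    rw [sum_range_succ, h.div_succ, h.succ, add_assoc, mul_assoc, ← mul_add,
      ih fun i hi => hf i (by omega)]
    constructor
    · rintro ⟨h2, h3⟩
      have h4 : f m = n / W m % B (m / 2) := by
        rw [← h3, Nat.add_mul_mod_self_left, Nat.mod_eq_of_lt h1]
      refine ⟨fun i hi => ?_, by
        rw [← h3, Nat.add_mul_div_left _ _ (h.pos _), Nat.div_eq_of_lt h1, zero_add]⟩
      rcases Nat.lt_succ_iff_lt_or_eq.1 hi with hi | rfl
      · exact h2 i hi
      · exact h4
    · rintro ⟨h2, h3⟩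
      exact ⟨fun i hi => h2 i (by omega), by rw [h2 m (by omega), h3, Nat.mod_add_div]⟩

theorem unique {f f' : ℕ → ℕ} {m t t' : ℕ} (hf : ∀ i < m, f i < B (i / 2))
    (hf' : ∀ i < m, f' i < B (i / 2))
    (e : ∑ i ∈ range m, W i * f i + W m * t = ∑ i ∈ range m, W i * f' i + W m * t') :
    (∀ i < m, f i = f' i) ∧ t = t' := by
  obtain ⟨h1, h2⟩ := (h.eq_iff hf).1 e
  obtain ⟨h3, h4⟩ := (h.eq_iff hf').1 (rfl : _ = ∑ i ∈ range m, W i * f' i + W m * t')
  exact ⟨fun i hi => (h1 i hi).trans (h3 i hi).symm, h2.trans h4.symm⟩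

/-- The place values from position `2 j` on, relative to `W (2 j)`. -/
theorem shift (j : ℕ) : Radix (fun u => B (j + u)) fun i => W (2 * j + i) / W (2 * j) := by
  refine ⟨fun u => h.pos _, Nat.div_self (h.W_pos _), fun i => ?_⟩
  rw [← add_assoc, h.succ, show (2 * j + i) / 2 = j + i / 2 by omega,
    Nat.div_mul_right_comm (h.W_dvd (Nat.le_add_right _ _))]

/-- Splitting a value at position `m`. -/
theorem split (f : ℕ → ℕ) (m l : ℕ) : ∑ i ∈ range (m + l), W i * f i =
    ∑ i ∈ range m, W i * f i + W m * ∑ i ∈ range l, W (m + i) / W m * f (m + i) := by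
  rw [sum_range_add, mul_sum]
  congr 1
  refine sum_congr rfl fun i _ => ?_
  rw [← mul_assoc, Nat.mul_div_cancel' (h.W_dvd (Nat.le_add_right _ _))]

end Radix

/-- One digit of the decoding. -/
theorem dec_digit {D p e a b y t N : ℕ} (hp : 0 < p) (hb : b + e / p < D) (hy : y < D)
    (hm : y + a ≡ N % (D * p) / p [MOD D]) :
    e + p * (a + b) + D * p * t = N ↔
      (e ≡ N % (D * p) [MOD p] ∧ b + e / p = y) ∧ t + (y + a) / D = N / (D * p) := by
  have hD : 0 < D := by omega
  rw [Nat.mod_mul_left_div_self, Nat.ModEq, Nat.mod_mod] at hm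
  rw [Nat.ModEq, Nat.mod_mul_left_mod, mul_comm D p, ← Nat.div_div_eq_div_mul]
  constructor
  · intro h
    have h1 : N / p = e / p + (a + b) + D * t := by
      rw [← h, add_assoc, mul_assoc, ← mul_add, Nat.add_mul_div_left _ _ hp]
      omega
    have h2 : b + e / p = y := by
      have h3 : b + e / p + a ≡ y + a [MOD D] := by
        rw [Nat.ModEq, hm, h1, Nat.add_mul_mod_self_left]
        congr 1
        omega
      exact Nat.ModEq.eq_of_lt_of_lt (Nat.ModEq.add_right_cancel' a h3) hb hy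
    refine ⟨⟨by rw [← h, add_assoc, mul_assoc, ← mul_add, Nat.add_mul_mod_self_left], h2⟩, ?_⟩
    rw [h1, Nat.add_mul_div_left _ _ hD, add_comm, ← h2]
    congr 2
    omega
  · rintro ⟨⟨h1, h2⟩, h3⟩
    have h4 := Nat.mod_add_div N p
    have h5 := Nat.mod_add_div (N / p) D
    have h6 := Nat.mod_add_div (y + a) D
    have h7 := Nat.mod_add_div e p
    have h8 : e / p + (a + b) + D * t = N / p := by
      rw [← h5, ← h3, ← hm, mul_add]
      omega
    rw [← h4, ← h8, ← h1, mul_add p (e / p + (a + b)), mul_add p (e / p), mul_assoc]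
    omega

/-- The carries are at most two. -/
theorem carry_le {D ξ ξ' y γ : ℕ → ℕ} {m : ℕ} (h0 : γ 0 = 0)
    (hγ : ∀ i < m, γ (i + 1) = (y i + ξ i + ξ' i) / D (i / 2))
    (hy : ∀ i < m, y i < D (i / 2) ∧ ξ i < D (i / 2) ∧ ξ' i < D (i / 2)) : ∀ i ≤ m, γ i ≤ 2 := by
  intro i hi
  rcases i with _ | i
  · omega
  · obtain ⟨h1, h2, h3⟩ := hy i (by omega)
    rw [hγ i (by omega)]
    exact Nat.lt_succ_iff.1 ((Nat.div_lt_iff_lt_mul (by omega)).2 (by omega))

theorem fine_carry_le {p d d' γ : ℕ} (hd : d < p) (hd' : d' < p) (hγ : γ ≤ 2) :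
    (d + d' + γ) / p ≤ 2 :=
  Nat.lt_succ_iff.1 ((Nat.div_lt_iff_lt_mul (by omega)).2 (by omega))

/-- Decoding of a sum of two elements: the carries `γ` depend on `n`, `ξ`, `ξ'` only. -/
theorem dec {D p W d d' ξ ξ' x x' y γ : ℕ → ℕ} (h : Radix (fun u => D u * p u) W) {m n t : ℕ}
    (h0 : γ 0 = 0) (hγ : ∀ i < m, γ (i + 1) = (y i + ξ i + ξ' i) / D (i / 2))
    (hy : ∀ i < m, y i < D (i / 2) ∧ ξ i < D (i / 2) ∧ ξ' i < D (i / 2))
    (hm : ∀ i < m, y i + ξ i + ξ' i ≡
      n / W i % (D (i / 2) * p (i / 2)) / p (i / 2) [MOD D (i / 2)])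
    (hd : ∀ i < m, d i < p (i / 2) ∧ d' i < p (i / 2))
    (hx : ∀ i < m, x i + x' i + 2 < D (i / 2)) :
    ∑ i ∈ range m, W i * (d i + p (i / 2) * (ξ i + x i)) +
        ∑ i ∈ range m, W i * (d' i + p (i / 2) * (ξ' i + x' i)) + W m * t = n ↔
      (∀ i < m, d i + d' i + γ i ≡ n / W i % (D (i / 2) * p (i / 2)) [MOD p (i / 2)] ∧
        x i + x' i + (d i + d' i + γ i) / p (i / 2) = y i) ∧ t + γ m = n / W m := by
  have hc := carry_le h0 hγ hy
  induction m generalizing t with
  | zero => simp [h.zero, h0]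
  | succ m ih =>
    obtain ⟨d1, d2⟩ := hd m (by omega)
    have h1 := fine_carry_le d1 d2 (hc m (by omega))
    have h2 := dec_digit (e := d m + d' m + γ m) (a := ξ m + ξ' m) (b := x m + x' m) (t := t)
      (N := n / W m) (by omega : 0 < p (m / 2)) (by have := hx m (by omega); omega)
      (hy m (by omega)).1 (by rw [← add_assoc]; exact hm m (by omega))
    have h3 := ih (t := d m + d' m + p (m / 2) * (ξ m + ξ' m + (x m + x' m)) +
      D (m / 2) * p (m / 2) * t) (fun i hi => hγ i (by omega)) (fun i hi => hy i (by omega))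
      (fun i hi => hm i (by omega)) (fun i hi => hd i (by omega)) (fun i hi => hx i (by omega))
      fun i hi => hc i (by omega)
    have h4 : ∑ i ∈ range (m + 1), W i * (d i + p (i / 2) * (ξ i + x i)) +
        ∑ i ∈ range (m + 1), W i * (d' i + p (i / 2) * (ξ' i + x' i)) + W (m + 1) * t =
        ∑ i ∈ range m, W i * (d i + p (i / 2) * (ξ i + x i)) +
        ∑ i ∈ range m, W i * (d' i + p (i / 2) * (ξ' i + x' i)) +
        W m * (d m + d' m + p (m / 2) * (ξ m + ξ' m + (x m + x' m)) +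
          D (m / 2) * p (m / 2) * t) := by
      rw [sum_range_succ, sum_range_succ, h.succ]
      ring
    have h5 : d m + d' m + p (m / 2) * (ξ m + ξ' m + (x m + x' m)) + D (m / 2) * p (m / 2) * t +
        γ m = d m + d' m + γ m + p (m / 2) * (ξ m + ξ' m + (x m + x' m)) +
        D (m / 2) * p (m / 2) * t := by ring
    rw [h4]
    refine h3.trans ?_
    rw [h5, h2, h.div_succ, hγ m (by omega), add_assoc (y m)]
    constructor
    · rintro ⟨g1, g2, g3⟩
      refine ⟨fun i hi => ?_, g3⟩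
      rcases Nat.lt_succ_iff_lt_or_eq.1 hi with hi | rfl
      · exact g1 i hi
      · exact g2
    · rintro ⟨g1, g2⟩
      exact ⟨fun i hi => g1 i (by omega), g1 m (by omega), g2⟩

/-- The residue `(g - ξ - ξ') mod D` in natural numbers. -/
theorem sub_mod_spec {D g ξ ξ' : ℕ} (h : ξ < D) (h' : ξ' < D) :
    (g + 2 * D - ξ - ξ') % D < D ∧ (g + 2 * D - ξ - ξ') % D + ξ + ξ' ≡ g [MOD D] := by
  refine ⟨Nat.mod_lt _ (by omega), ?_⟩
  have h1 : g + 2 * D - ξ - ξ' + ξ + ξ' = g + 2 * D := by omega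
  have h2 := ((Nat.mod_modEq (g + 2 * D - ξ - ξ') D).add_right ξ).add_right ξ'
  rw [h1] at h2
  exact h2.trans (by simp [Nat.ModEq])

end Pool.Agent.P.MP_d5a1e1_nt.TB
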