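import Pool.Agent.P.MP_d5a1e1_nt.T2G
import Pool.Agent.P.MP_d5a1e1_nt.T2Dec

/-! Cells, tuples, frames. -/

namespace Pool.Agent.P.MP_d5a1e1_nt.T2

open Finset TB

-- PART a
theorem mem_cells {k : ℕ} {c : Cell} : c ∈ cells k ↔
    c.k = k ∧ c.i < mm k ∧ c.η < HH k ∧ c.x ∈ XX k ∧ BB k ≤ c.z ∧ c.z < ZZ k := by
  simp only [cells, mem_image, mem_product, mem_range, mem_Ico]
  constructor
  · rintro ⟨q, ⟨h1, h2, h3, h4, h5⟩, rfl⟩
    exact ⟨rfl, h1, h2, h3, h4, h5⟩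
  · rintro ⟨h0, h1, h2, h3, h4, h5⟩
    exact ⟨(c.i, c.η, c.x, c.z), ⟨h1, h2, h3, h4, h5⟩, Cell.ext h0.symm rfl rfl rfl rfl⟩
theorem mem_tups {j k : ℕ} {t : Tup} : t ∈ tups j k ↔ t.i < mm j ∧ t.i' < mm k ∧
    t.yb ∈ Box (2 * j) DD ∧ t.η < HH j ∧ t.η' < HH k ∧ t.o₀ < DD j ∧ t.o₁ < DD j := by
  simp only [tups, mem_image, mem_product, mem_range]
  constructor
  · rintro ⟨q, h, rfl⟩
    exact h
  · intro h
    exact ⟨(t.i, t.i', t.yb, t.η, t.η', t.o₀, t.o₁), h, rfl⟩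
theorem qq_nonneg (c : Cell) : 0 ≤ qq c :=
  le_min zero_le_one
    (mul_nonneg (mul_nonneg (Nat.cast_nonneg _) (ff_pos _ _).le) (cw_pos _).le)
theorem qq_le_one (c : Cell) : qq c ≤ 1 := min_le_left _ _
theorem qq_le (c : Cell) : qq c ≤ rho c.k * ff c.k c.x * cw c.z := min_le_right _ _
theorem cw_cell {k : ℕ} {c : Cell} (h : c ∈ cells k) : cw c.z ≤ 1 / 2 ^ (sg k / 2) := by
  refine cw_le_two_pow ?_
  have h1 := (mem_cells.1 h).2.2.2.2.1
  have h2 := BB_gt k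
  have h3 : 2 ^ (2 * (sg k / 2)) ≤ 2 ^ sg k := Nat.pow_le_pow_right (by omega) (by omega)
  omega
theorem T2Cellsa_gen {y a b : ℕ} (h0 : 2 ≤ y) (ha : a + 1 ≤ 1024) (hb : 12 ≤ b) :
    y * y ^ a ≤ 2 ^ (y ^ b / 2) := by
  obtain ⟨b, rfl⟩ : ∃ b', b = b' + 1 := ⟨b - 1, by omega⟩
  have h1 : 2 ^ 11 ≤ y ^ 11 := Nat.pow_le_pow_left h0 11
  have h2 : y ^ 11 ≤ y ^ b := Nat.pow_le_pow_right (by omega) (by omega)
  have h3 : y * 2048 ≤ y * y ^ b := Nat.mul_le_mul_left _ (h1.trans h2)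
  have h4 : y * (a + 1) ≤ y * 1024 := Nat.mul_le_mul_left _ ha
  have h5 : y * (a + 1) ≤ y ^ (b + 1) / 2 := by
    rw [pow_succ']
    omega
  calc y * y ^ a = y ^ (a + 1) := (pow_succ' y a).symm
    _ ≤ (2 ^ y) ^ (a + 1) := Nat.pow_le_pow_left Nat.lt_two_pow_self.le _
    _ = 2 ^ (y * (a + 1)) := (pow_mul 2 y _).symm
    _ ≤ _ := Nat.pow_le_pow_right (by omega) h5
theorem T2Cellsa_pow (k : ℕ) : yy k * rho k ≤ 2 ^ (sg k / 2) :=
  T2Cellsa_gen (yy_ge k) (by omega) (by omega)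
theorem T2Cellsa_small {k : ℕ} {c : Cell} (h : c ∈ cells k) :
    yy k * (rho k * ff k c.x * cw c.z) ≤ 1 := by
  have h1 : ((yy k * rho k : ℕ) : ℝ) ≤ ((2 ^ (sg k / 2) : ℕ) : ℝ) := Nat.cast_le.2 (T2Cellsa_pow k)
  rw [Nat.cast_pow, Nat.cast_ofNat] at h1
  have h2 : ff k c.x * cw c.z ≤ 1 / 2 ^ (sg k / 2) :=
    (mul_le_of_le_one_left (cw_pos _).le (ff_le_one _ _)).trans (cw_cell h)
  have h3 : (0 : ℝ) < 2 ^ (sg k / 2) := by positivity
  calc (yy k : ℝ) * (rho k * ff k c.x * cw c.z)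
      = ((yy k * rho k : ℕ) : ℝ) * (ff k c.x * cw c.z) := by
        rw [Nat.cast_mul, mul_assoc, mul_assoc]
    _ ≤ 2 ^ (sg k / 2) * (1 / 2 ^ (sg k / 2)) :=
        mul_le_mul h1 h2 (mul_pos (ff_pos _ _) (cw_pos _)).le h3.le
    _ = 1 := mul_one_div_cancel h3.ne'
theorem qq_eq {k : ℕ} {c : Cell} (h : c ∈ cells k) : qq c = rho k * ff k c.x * cw c.z := by
  have h1 := T2Cellsa_small h
  have h2 : (1 : ℝ) ≤ yy k := Nat.one_le_cast.2 (le_trans (by omega) (yy_ge k))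
  have h3 : (0 : ℝ) ≤ rho k * ff k c.x * cw c.z :=
    mul_nonneg (mul_nonneg (Nat.cast_nonneg _) (ff_pos _ _).le) (cw_pos _).le
  rw [qq, (mem_cells.1 h).1]
  exact min_eq_right ((le_mul_of_one_le_left h3 h2).trans h1)
theorem qq_small {k : ℕ} {c : Cell} (h : c ∈ cells k) : yy k * qq c ≤ 1 := by
  rw [qq_eq h]
  exact T2Cellsa_small h
theorem el_ge {ξ : ℕ → ℕ → ℕ → ℕ} {k : ℕ} {d : ℕ → ℕ} {c : Cell} (hc : c ∈ cells k) :
    WW (2 * k + 1) ≤ el ξ d c := by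
  obtain ⟨h0, -, -, -, h1, -⟩ := mem_cells.1 hc
  rw [el, h0, WW_odd]
  exact (Nat.mul_le_mul_left _ h1).trans (Nat.le_add_left _ _)
theorem T2Cellsa_lo {ξ : ℕ → ℕ → ℕ → ℕ} (hξ : Types ξ) {k : ℕ} (hk : k0 ≤ k) {d : ℕ → ℕ}
    (hd : d ∈ Box (2 * k) pp) {c : Cell} (hc : c ∈ cells k) :
    lo (2 * k) d (ξ k c.i) c.x < 2 * WW (2 * k) := by
  obtain ⟨-, h1, -, h2, -, -⟩ := mem_cells.1 hc
  exact lo_lt (mem_Box.1 hd).1 (mem_Box.1 (hξ.box k hk _ h1)).1 (mem_XX.1 h2).1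
theorem el_lt {ξ : ℕ → ℕ → ℕ → ℕ} (hξ : Types ξ) {k : ℕ} (hk : k0 ≤ k) {d : ℕ → ℕ}
    (hd : d ∈ Box (2 * k) pp) {c : Cell} (hc : c ∈ cells k) : el ξ d c < 6 * WW (2 * k + 3) := by
  have h1 := T2Cellsa_lo hξ hk hd hc
  obtain ⟨h0, -, -, -, -, h2⟩ := mem_cells.1 hc
  rw [ZZ, mul_assoc] at h2
  have h3 : 0 < BB k ^ 2 * BB (k + 1) := Nat.mul_pos (Nat.pow_pos (BB_pos k)) (BB_pos _)
  rw [el, h0, WW_three]
  generalize BB k ^ 2 * BB (k + 1) = X at h2 h3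
  have h4 : WW (2 * k) * (c.z + 2) ≤ WW (2 * k) * (6 * X) := Nat.mul_le_mul_left _ (by omega)
  rw [mul_add, mul_left_comm] at h4
  omega
theorem lo_cell {ξ : ℕ → ℕ → ℕ → ℕ} (hξ : Types ξ) {k : ℕ} (hk : k0 ≤ k) {d : ℕ → ℕ}
    (hd : d ∈ Box (2 * k) pp) {c : Cell} (hc : c ∈ cells k) :
    lo (2 * k) d (ξ k c.i) c.x < 2 * WW (2 * k) := T2Cellsa_lo hξ hk hd hc
/-- A large subfamily on which the value is a function of the key. -/
theorem exists_class {τ κ β : Type*} (T : Finset τ) (key : τ → κ) (v : τ → β) (M : ℕ)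
    (h : ∀ a (Z : Finset β), (∀ b ∈ Z, ∃ t ∈ T, key t = a ∧ v t = b) → Z.card ≤ M) :
    ∃ T' ⊆ T, T.card ≤ M * T'.card ∧ ∀ t ∈ T', ∀ t' ∈ T', key t = key t' → v t = v t' := by
  classical
  have h1 : ∀ a, ∃ f : β → ℕ, (∀ t ∈ T, key t = a → f (v t) < M) ∧
      ∀ t ∈ T, ∀ t' ∈ T, key t = a → key t' = a → f (v t) = f (v t') → v t = v t' := fun a => by
    obtain ⟨Z, hZ⟩ : ∃ Z : Finset β, Z = (T.filter fun t => key t = a).image v := ⟨_, rfl⟩
    have hm : ∀ t ∈ T, key t = a → v t ∈ Z := fun t ht e =>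
      hZ ▸ mem_image_of_mem v (mem_filter.2 ⟨ht, e⟩)
    have hc : Z.card ≤ M := h a Z fun b hb => by
      rw [hZ] at hb
      obtain ⟨t, ht, e⟩ := mem_image.1 hb
      exact ⟨t, (mem_filter.1 ht).1, (mem_filter.1 ht).2, e⟩
    refine ⟨fun b => if hb : b ∈ Z then (Z.equivFin ⟨b, hb⟩ : ℕ) else 0, fun t ht e => ?_,
      fun t ht t' ht' e e' hf => ?_⟩
    · simp only [dif_pos (hm t ht e)]
      exact (Fin.is_lt _).trans_le hc
    · simp only [dif_pos (hm t ht e), dif_pos (hm t' ht' e')] at hf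
      exact congrArg Subtype.val (Z.equivFin.injective (Fin.ext hf))
  choose f hf hf' using h1
  rcases Nat.eq_zero_or_pos M with rfl | hM
  · refine ⟨∅, empty_subset _, ?_, by simp⟩
    rw [eq_empty_of_forall_notMem fun t ht => Nat.not_lt_zero _ (hf _ t ht rfl)]
    simp
  obtain ⟨c, -, hc⟩ := exists_max_image (range M)
    (fun c => (T.filter fun t => f (key t) (v t) = c).card) ⟨0, mem_range.2 hM⟩
  refine ⟨T.filter fun t => f (key t) (v t) = c, filter_subset _ _, ?_, fun t ht t' ht' e => ?_⟩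
  · rw [card_eq_sum_card_fiberwise (f := fun t => f (key t) (v t)) (t := range M)
      fun t ht => mem_coe.2 (mem_range.2 (hf _ t ht rfl))]
    simpa using sum_le_card_nsmul _ _ _ hc
  · obtain ⟨h2, h3⟩ := mem_filter.1 ht
    obtain ⟨h4, h5⟩ := mem_filter.1 ht'
    exact hf' (key t) t h2 t' h4 rfl e.symm (by rw [h3, e, h5])
-- PART b
theorem T2Cellsb_subsets {α : Type*} [DecidableEq α] (s : Finset α) (L : ℕ) :
    ((range (L + 1)).biUnion fun i => powersetCard i s).card ≤ (s.card + 1) ^ L := by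
  refine card_biUnion_le.trans ?_
  rw [add_pow]
  refine sum_le_sum fun i hi => ?_
  rw [card_powersetCard, one_pow, mul_one]
  refine (Nat.choose_le_pow _ _).trans (Nat.le_mul_of_pos_right _ ?_)
  exact Nat.choose_pos (Nat.lt_succ_iff.1 (mem_range.1 hi))

theorem T2Cellsb_big {k : ℕ} (hk : k0 ≤ k) : 2 ^ 2212 ≤ yy k :=
  (Nat.pow_le_pow_right (by norm_num) (by norm_num : 2212 ≤ 3000)).trans
    ((Nat.le_mul_of_pos_right _ (LL_pos k)).trans (yy_big hk))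

theorem T2Cellsb_LL {k : ℕ} (hk : k0 ≤ k) : 32768 * LL k ≤ yy k :=
  (Nat.mul_le_mul_right _
    (Nat.pow_le_pow_right (n := 2) (i := 15) (by norm_num) (by norm_num))).trans (yy_big hk)

theorem T2Cellsb_tups {j k : ℕ} (hj : k0 ≤ j) (hjk : j ≤ k) :
    (tups j k).card ≤ 2 ^ (11 * yy k ^ 801) := by
  have hk : k0 ≤ k := hj.trans hjk
  have hy : yy j ≤ yy k := yy_mono hjk
  have hy1 : 1 ≤ yy k := by have := yy_ge k; omega
  have e1 : yy k ^ 401 ≤ yy k ^ 801 := Nat.pow_le_pow_right hy1 (by norm_num)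
  have e2 : yy j ^ 401 ≤ yy k ^ 801 := (Nat.pow_le_pow_left hy 401).trans e1
  have two : ∀ {a b : ℕ}, a ≤ b → 2 ^ a ≤ 2 ^ b := fun h => Nat.pow_le_pow_right (by norm_num) h
  have h1 : mm j ≤ 2 ^ yy k ^ 801 := (mm_le_pow hj).trans (two e2)
  have h2 : mm k ≤ 2 ^ yy k ^ 801 := (mm_le_pow hk).trans (two e1)
  have h3 : Del j ^ 2 ≤ 2 ^ yy k ^ 801 :=
    (Nat.pow_le_pow_right (Del_pos j) (by norm_num : 2 ≤ 4)).trans ((Del_le hj).trans (two e2))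
  have h5 : HH k ≤ 2 ^ (3 * yy k ^ 801) := by
    refine two ?_
    have h := (lt_tau k).le
    rw [tau_eq] at h
    rw [show 801 = 400 + 401 by norm_num, pow_add, mul_assoc]
    exact Nat.mul_le_mul_left _ (Nat.mul_le_mul_right _ h)
  have h4 : HH j ≤ 2 ^ (3 * yy k ^ 801) := (HH_mono hjk).trans h5
  have h6 : DD j ≤ 2 ^ yy k ^ 801 := by
    refine (DD_le j).trans (two ?_)
    have h := T2Cellsb_LL hj
    have h' : yy k ≤ yy k ^ 801 := Nat.le_self_pow (by norm_num) _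
    omega
  refine card_image_le.trans ?_
  simp only [card_product, card_range, card_Gam]
  refine (Nat.mul_le_mul h1 (Nat.mul_le_mul h2 (Nat.mul_le_mul h3 (Nat.mul_le_mul h4
    (Nat.mul_le_mul h5 (Nat.mul_le_mul h6 h6)))))).trans (le_of_eq ?_)
  simp only [← pow_add]
  congr 1
  omega

/-- There are few frames. -/
theorem exists_frames {j k : ℕ} (hj : k0 ≤ j) (hk : k = j ∨ k = j + 1) :
    ∃ F : Finset (ℕ × Finset Tup), F.card ≤ 2 ^ (12 * sg (j + 2)) ∧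
      ∀ N P, Fr j k N P → (N, P) ∈ F := by
  classical
  have hjk : j ≤ k := by omega
  refine ⟨range (2 ^ (11 * sg (j + 2))) ×ˢ
    (range (Lam k + 1)).biUnion fun i => powersetCard i (tups j k), ?_, fun N P h => ?_⟩
  · rw [card_product, card_range, show 12 * sg (j + 2) = 11 * sg (j + 2) + sg (j + 2) by omega,
      pow_add]
    refine Nat.mul_le_mul_left _ ((T2Cellsb_subsets _ _).trans ?_)
    have hy := T2Cellsb_LL (hj.trans hjk)
    have hL := LL_pos k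
    have hp : 1 ≤ yy k ^ 801 := Nat.one_le_pow _ _ (by omega)
    have h1 : (tups j k).card + 1 ≤ 2 ^ (12 * yy k ^ 801) := by
      have h2 := T2Cellsb_tups hj hjk
      have h3 : 2 ^ (11 * yy k ^ 801) < 2 ^ (12 * yy k ^ 801) :=
        Nat.pow_lt_pow_right (by norm_num) (by omega)
      omega
    refine (Nat.pow_le_pow_left h1 _).trans ?_
    rw [← pow_mul]
    refine Nat.pow_le_pow_right (by norm_num) (le_trans ?_ (sg_mono (by omega : k ≤ j + 2)))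
    rw [Lam, sg, mul_assoc, ← pow_add, show 2212 = 3 + (801 + 1408) by norm_num, pow_add _ 3]
    exact Nat.mul_le_mul_right _ (le_trans (by omega) (Nat.le_self_pow (by norm_num) (yy k)))
  · exact mem_product.2 ⟨mem_range.2 h.lt, mem_biUnion.2 ⟨P.card,
      mem_range.2 (Nat.lt_succ_of_le h.card), mem_powersetCard.2 ⟨h.sub, rfl⟩⟩⟩

theorem T2Cellsb_exp {a b : ℕ} {c : ℝ} (h : ((a + b : ℕ) : ℝ) ≤ c) :
    (2 : ℝ) ^ a * Real.exp (-c) ≤ 1 / 2 ^ b := by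
  have h2 : (2 : ℝ) ≤ Real.exp 1 := by
    have := Real.add_one_le_exp 1
    linarith
  have h1 : (2 : ℝ) ^ (a + b) ≤ Real.exp c := by
    refine (pow_le_pow_left₀ (by norm_num) h2 _).trans ?_
    rw [← Real.exp_nat_mul, mul_one]
    exact Real.exp_le_exp.2 h
  rw [le_div_iff₀ (by positivity), mul_right_comm, ← pow_add, Real.exp_neg,
    mul_inv_le_iff₀ (Real.exp_pos c), one_mul]
  exact h1

theorem T2Cellsb_nat {j k : ℕ} (hj : k0 ≤ j) (hjk : j ≤ k) :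
    12 * sg (j + 2) + (j + 4) ≤ yy k ^ 2215 := by
  have hy : yy j ≤ yy k := yy_mono hjk
  have hb := T2Cellsb_LL hj
  have hL := LL_big hj
  have hj1 : 1 ≤ j := (Nat.one_le_pow _ _ (by omega)).trans (yy_le hj)
  have h1 : sg (j + 2) ≤ yy k ^ 2213 := by
    refine (sg_add_two hj1).trans ?_
    rw [pow_succ' _ 2212, sg]
    exact Nat.mul_le_mul ((T2Cellsb_big hj).trans hy) (Nat.pow_le_pow_left hy _)
  have h2 : j < yy k ^ 2213 := by
    refine (lt_tau j).trans_le ?_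
    rw [tau_eq]
    exact (Nat.pow_le_pow_left hy _).trans (Nat.pow_le_pow_right (by omega) (by norm_num))
  have h3 : 16 * yy k ^ 2213 ≤ yy k ^ 2215 := by
    rw [show 2215 = 2 + 2213 by norm_num, pow_add]
    exact Nat.mul_le_mul_right _ (le_trans (by omega) (Nat.le_self_pow (by norm_num) (yy k)))
  omega

theorem num_star {j k : ℕ} (hj : k0 ≤ j) (hk : k = j ∨ k = j + 1) :
    (2 : ℝ) ^ (12 * sg (j + 2)) * Real.exp ((4 * (130 * (yy k : ℝ) ^ 2216) - gg k) / yy k) ≤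
      1 / 2 ^ (j + 4) := by
  have h1 : ((12 * sg (j + 2) + (j + 4) : ℕ) : ℝ) ≤ (yy k : ℝ) ^ 2215 := by
    exact_mod_cast T2Cellsb_nat hj (by omega : j ≤ k)
  have hy : (0 : ℝ) < yy k := by
    have := yy_ge k
    exact_mod_cast (by omega : 0 < yy k)
  have h2 : (4 * (130 * (yy k : ℝ) ^ 2216) - gg k) / yy k = -(80 * (yy k : ℝ) ^ 2215) := by
    rw [gg, Nat.cast_mul, Nat.cast_pow, pow_succ (yy k : ℝ) 2215, div_eq_iff hy.ne']
    generalize (yy k : ℝ) ^ 2215 = z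
    push_cast
    ring
  rw [h2]
  refine T2Cellsb_exp (h1.trans ?_)
  have : (0 : ℝ) ≤ (yy k : ℝ) ^ 2215 := by positivity
  linarith

theorem num_cover {k : ℕ} (hk : k0 ≤ k) :
    (2 : ℝ) ^ (12 * sg (k + 2)) * Real.exp (-((yy k : ℝ) ^ 2216 / 480 / 3)) ≤ 1 / 2 ^ (k + 4) := by
  have h1 : ((12 * sg (k + 2) + (k + 4) : ℕ) : ℝ) ≤ (yy k : ℝ) ^ 2215 := by
    exact_mod_cast T2Cellsb_nat hk le_rfl
  have hy : (1440 : ℝ) ≤ yy k := by
    have h2 := T2Cellsb_LL hk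
    have h3 := LL_pos k
    exact_mod_cast (by omega : 1440 ≤ yy k)
  refine T2Cellsb_exp (h1.trans ?_)
  have h4 : (0 : ℝ) ≤ (yy k : ℝ) ^ 2215 := by positivity
  have h5 := mul_le_mul_of_nonneg_left hy h4
  rw [pow_succ (yy k : ℝ) 2215]
  linarith

theorem top_lt {j k n : ℕ} (hk : k = j ∨ k = j + 1) (hn : n < 12 * WW (2 * k + 3)) :
    n / WW (2 * j) < 2 ^ (11 * sg (j + 2)) := by
  refine Nat.div_lt_of_lt_mul (hn.trans_le ?_)
  have h1 : WW (2 * k + 3) ≤ WW (2 * (j + 1) + 3) := WW_mono (by omega)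
  rw [WW_three (j + 1), show 2 * (j + 1) = 2 * j + 2 by omega, WW_even] at h1
  have hb : ∀ u, u ≤ j + 2 → BB u ≤ 2 ^ (2 * sg (j + 2)) := fun u hu =>
    (BB_mono hu).trans (BB_le _)
  have h2 : 12 ≤ 2 ^ sg (j + 2) := by
    have h3 : 2 ^ 4 ≤ sg (j + 2) :=
      (Nat.pow_le_pow_left (yy_ge (j + 2)) 4).trans
        (Nat.pow_le_pow_right (by have := yy_ge (j + 2); omega) (by norm_num))
    have h4 : sg (j + 2) < 2 ^ sg (j + 2) := Nat.lt_two_pow_self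
    omega
  have h5 : BB j ^ 2 * (BB (j + 1) ^ 2 * BB (j + 1 + 1)) ≤ 2 ^ (10 * sg (j + 2)) := by
    refine (Nat.mul_le_mul (Nat.pow_le_pow_left (hb j (by omega)) 2) (Nat.mul_le_mul
      (Nat.pow_le_pow_left (hb (j + 1) (by omega)) 2) (hb (j + 1 + 1) le_rfl))).trans (le_of_eq ?_)
    simp only [← pow_mul, ← pow_add]
    congr 1
    omega
  rw [mul_assoc] at h1
  rw [show 11 * sg (j + 2) = sg (j + 2) + 10 * sg (j + 2) by omega, pow_add, mul_left_comm]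
  exact Nat.mul_le_mul h2 (h1.trans (Nat.mul_le_mul_left _ h5))

end Pool.Agent.P.MP_d5a1e1_nt.T2
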