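import Pool.Agent.P.MP_d5a1e1_nt.TBW

/-! Sums of the weights `cw` over the top digits. -/

namespace Pool.Agent.P.MP_d5a1e1_nt.TB.Lab

open Finset

/-- A set of top digit pairs: at most six `u` for each `v`. -/
structure TopOK (p : ℕ) (T : Finset (ℕ × ℕ)) : Prop where
  lt : ∀ q ∈ T, q.1 < p ∧ q.2 < p
  six : ∀ v, #{q ∈ T | q.2 = v} ≤ 6

theorem TopOK.sum_le {p : ℕ} {T : Finset (ℕ × ℕ)} (h : TopOK p T) (g : ℕ → ℝ)
    (hg : ∀ v, 0 ≤ g v) : ∑ q ∈ T, g q.2 ≤ 6 * ∑ v ∈ range p, g v := by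
  rw [← sum_fiberwise_of_maps_to (g := Prod.snd) (t := range p)
    (fun q hq => mem_range.2 (h.lt q hq).2), mul_sum]
  refine sum_le_sum fun v _ => ?_
  rw [sum_congr rfl (fun q hq => by rw [(mem_filter.1 hq).2] :
    ∀ q ∈ {q ∈ T | q.2 = v}, g q.2 = g v), sum_const, nsmul_eq_mul]
  exact mul_le_mul_of_nonneg_right (by exact_mod_cast h.six v) (hg v)

theorem TopOK.card_le {p : ℕ} {T : Finset (ℕ × ℕ)} (h : TopOK p T) : T.card ≤ 6 * p := by
  have := h.sum_le (fun _ => 1) (fun _ => zero_le_one)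
  simp only [sum_const, card_range, nsmul_eq_mul, mul_one] at this
  exact_mod_cast this

theorem cw_le_inv_sqrt {B z : ℕ} (hB : 0 < B) (h : B ≤ z) : cw z ≤ 1 / √(2 * B) := by
  have h1 := cw_sq_le z
  have hB' : (0 : ℝ) < B := by exact_mod_cast hB
  have hz : (B : ℝ) ≤ z := by exact_mod_cast h
  rw [le_div_iff₀ (Real.sqrt_pos.2 (by positivity))]
  apply le_of_sq_le_sq _ zero_le_one
  rw [mul_pow, Real.sq_sqrt (by positivity)]
  nlinarith [sq_nonneg (cw z)]

/-- Scaling of the weights. -/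
theorem cw_scale {B m z : ℕ} (hB : 0 < B) (hm : 1 ≤ m) (h : B * m ≤ z) :
    cw z ≤ √(2 / B) * cw m := by
  have h1 := cw_sq_le z
  have h2 := le_cw_sq hm
  have hB' : (0 : ℝ) < B := by exact_mod_cast hB
  have hm' : (1 : ℝ) ≤ m := by exact_mod_cast hm
  have hz : (B : ℝ) * m ≤ z := by exact_mod_cast h
  apply le_of_sq_le_sq _ (mul_nonneg (Real.sqrt_nonneg _) (cw_pos m).le)
  rw [mul_pow, Real.sq_sqrt (by positivity), div_mul_eq_mul_div, le_div_iff₀ hB']
  have h3 : cw z ^ 2 * (2 * (B * m)) ≤ 1 := by nlinarith [sq_nonneg (cw z)]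
  have h4 : (cw z ^ 2 * B) * (2 * m) ≤ (2 * cw m ^ 2) * (2 * m) := by nlinarith
  exact le_of_mul_le_mul_right h4 (by positivity)

theorem sum_cw_le_sqrt (n : ℕ) : ∑ x ∈ range n, cw x ≤ √(2 * n) :=
  Real.le_sqrt_of_sq_le (sum_cw_le n)

theorem sum_cw_sub_le (a p : ℕ) :
    ∑ v ∈ range p, (if v < a then cw (a - 1 - v) else 0) ≤ √(2 * p) := by
  rw [← sum_filter]
  have e : {v ∈ range p | v < a} = range (min p a) := by
    ext v; simp
  rw [e]
  calc _ ≤ ∑ v ∈ range (min p a), cw (min p a - 1 - v) :=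
        sum_le_sum fun v _ => cw_anti (by omega)
    _ = ∑ v ∈ range (min p a), cw v := sum_range_reflect _ _
    _ ≤ √(2 * (min p a : ℕ)) := sum_cw_le_sqrt _
    _ ≤ √(2 * p) := by
      refine Real.sqrt_le_sqrt ?_
      have : ((min p a : ℕ) : ℝ) ≤ p := by exact_mod_cast min_le_left p a
      linarith

/-- W2 on a part of the range. -/
theorem sum_cw_cw_le (N : ℕ) (s : Finset ℕ) (hs : ∀ z ∈ s, z ≤ N) :
    ∑ z ∈ s, cw z * cw (N - z) ≤ 1 := by
  rw [← cw_conv_range N]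
  exact sum_le_sum_of_subset_of_nonneg (fun z hz => mem_range.2 (Nat.lt_succ_of_le (hs z hz)))
    fun z _ _ => (mul_pos (cw_pos _) (cw_pos _)).le

/-- J1: the weight of the children of one parent. -/
theorem TopOK.one {D p : ℕ} {T : Finset (ℕ × ℕ)} (h : TopOK p T) (hD : 0 < D) (hp : 0 < p)
    (A : ℕ) : ∑ q ∈ T with D * p + q.1 + D * p * q.2 ≤ A, cw (A - q.1 - D * p * q.2) ≤
      12 / √D := by
  set B := D * p with hBd
  have hB : 0 < B := Nat.mul_pos hD hp
  have hpB : p ≤ B := Nat.le_mul_of_pos_left p hD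
  have hD' : (0 : ℝ) < D := by exact_mod_cast hD
  have hp' : (0 : ℝ) < p := by exact_mod_cast hp
  set a := A / B with ha
  have h1 : ∑ q ∈ T with B + q.1 + B * q.2 ≤ A, cw (A - q.1 - B * q.2) ≤
      ∑ q ∈ T, √(2 / B) * (if q.2 < a then cw (a - 1 - q.2) else 0) := by
    rw [sum_filter]
    refine sum_le_sum fun q hq => ?_
    split_ifs with c1 c2 c2
    · have hu := (h.lt q hq).1
      have hA : B * a ≤ A := Nat.mul_div_le A B
      rcases Nat.eq_zero_or_pos (a - 1 - q.2) with e | e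
      · refine (cw_scale hB le_rfl (by omega)).trans ?_
        exact mul_le_mul_of_nonneg_left (cw_anti (by omega)) (Real.sqrt_nonneg _)
      · refine cw_scale hB e ?_
        obtain ⟨m, hm⟩ : ∃ m, a = m + 1 + q.2 := ⟨a - 1 - q.2, by omega⟩
        have e2 : a - 1 - q.2 = m := by omega
        have e3 : B * a = B * m + B + B * q.2 := by rw [hm]; ring
        rw [e2]; omega
    · exfalso
      apply c2
      refine Nat.lt_of_succ_le ((Nat.le_div_iff_mul_le hB).2 ?_)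
      have : q.2.succ * B = B + B * q.2 := by rw [Nat.succ_eq_add_one]; ring
      omega
    · exact mul_nonneg (Real.sqrt_nonneg _) (cw_pos _).le
    · simp
  refine h1.trans ?_
  rw [← mul_sum]
  have h2 := h.sum_le (fun v => if v < a then cw (a - 1 - v) else 0)
    (fun v => by split_ifs; exacts [(cw_pos _).le, le_rfl])
  have h3 := sum_cw_sub_le a p
  have h4 : √(2 / (B : ℝ)) * √(2 * p) = 2 / √D := by
    rw [← Real.sqrt_mul (by positivity), hBd]
    have : (2 : ℝ) / ((D * p : ℕ) : ℝ) * (2 * p) = 2 ^ 2 / D := by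
      push_cast; field_simp
    rw [this, Real.sqrt_div (by positivity), Real.sqrt_sq (by norm_num)]
  calc _ ≤ √(2 / (B : ℝ)) * (6 * √(2 * p)) :=
        mul_le_mul_of_nonneg_left (by linarith) (Real.sqrt_nonneg _)
    _ = 6 * (√(2 / (B : ℝ)) * √(2 * p)) := by ring
    _ = 12 / √D := by rw [h4]; ring

/-- J: the weight of all pairs between two consecutive states. -/
theorem TopOK.two {D p : ℕ} {T : Finset (ℕ × ℕ)} (h : TopOK p T) (hD : 1 ≤ D) (hp : 128 ≤ p)
    (N : ℕ) (s : Finset ℕ) (hs : ∀ z ∈ s, D * p ≤ z) :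
    ∑ z ∈ s, ∑ q ∈ T with D * p + q.1 + D * p * q.2 + (D * p) ^ 2 * z ≤ N,
      cw z * cw (N - q.1 - D * p * q.2 - (D * p) ^ 2 * z) ≤ 10 / D := by
  have h1 := fun A => h.one (D := D) (by omega) (by omega) A
  set B := D * p with hBd
  have hB : 0 < B := Nat.mul_pos (by omega) (by omega)
  have hD' : (0 : ℝ) < D := by exact_mod_cast (show 0 < D by omega)
  have hp' : (128 : ℝ) ≤ p := by exact_mod_cast hp
  have hB' : (B : ℝ) = D * p := by rw [hBd]; push_cast; ring
  have hB2 : 0 < B ^ 2 := by positivity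
  set n := N / B ^ 2 with hn
  have hN : B ^ 2 * n ≤ N := Nat.mul_div_le N _
  have hN' : N < B ^ 2 * (n + 1) := Nat.lt_mul_div_succ N hB2
  have hsmall : ∀ q ∈ T, q.1 + B * q.2 ≤ B ^ 2 := by
    intro q hq
    obtain ⟨a1, a2⟩ := h.lt q hq
    have b1 : p ≤ B := Nat.le_mul_of_pos_left p (by omega)
    have b2 : B * (q.2 + 1) ≤ B * B := Nat.mul_le_mul_left B (by omega)
    rw [pow_two]
    rw [mul_add, mul_one] at b2
    omega
  set F : ℕ → ℝ := fun z => ∑ q ∈ T with B + q.1 + B * q.2 + B ^ 2 * z ≤ N,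
    cw z * cw (N - q.1 - B * q.2 - B ^ 2 * z) with hF
  have hF0 : ∀ z, 0 ≤ F z := fun z => sum_nonneg fun q _ => (mul_pos (cw_pos _) (cw_pos _)).le
  -- far part
  have far : ∀ z, z + 2 ≤ n → F z ≤ 6 * √2 / D * (cw z * cw (n - 1 - z)) := by
    intro z hz
    have hsq : √(2 / ((B ^ 2 : ℕ) : ℝ)) = √2 / B := by
      push_cast
      rw [Real.sqrt_div (by norm_num), Real.sqrt_sq (by positivity)]
    have hb : ∀ q ∈ {q ∈ T | B + q.1 + B * q.2 + B ^ 2 * z ≤ N},
        cw z * cw (N - q.1 - B * q.2 - B ^ 2 * z) ≤ √2 / B * (cw z * cw (n - 1 - z)) := by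
      intro q hq
      have c1 := hsmall q (mem_filter.1 hq).1
      obtain ⟨m, hm⟩ : ∃ m, n = m + 1 + z := ⟨n - 1 - z, by omega⟩
      have e2 : n - 1 - z = m := by omega
      have e3 : B ^ 2 * n = B ^ 2 * m + B ^ 2 + B ^ 2 * z := by rw [hm]; ring
      have c2 := cw_scale (z := N - q.1 - B * q.2 - B ^ 2 * z) hB2 (show 1 ≤ m by omega)
        (by omega)
      rw [hsq] at c2
      rw [e2, mul_left_comm]
      exact mul_le_mul_of_nonneg_left c2 (cw_pos z).le
    refine (sum_le_card_nsmul _ _ _ hb).trans ?_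
    rw [nsmul_eq_mul, ← mul_assoc]
    refine mul_le_mul_of_nonneg_right ?_ (mul_pos (cw_pos _) (cw_pos _)).le
    have c3 : ((#{q ∈ T | B + q.1 + B * q.2 + B ^ 2 * z ≤ N} : ℕ) : ℝ) ≤ 6 * p := by
      exact_mod_cast (card_filter_le _ _).trans h.card_le
    calc _ ≤ 6 * p * (√2 / B) := mul_le_mul_of_nonneg_right c3 (by positivity)
      _ = 6 * √2 / D := by rw [hB']; field_simp
  -- near part
  have near : ∀ z, B ≤ z → F z ≤ 3 / 4 / D := by
    intro z hz
    have c1 : F z ≤ cw z * (12 / √D) := by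
      refine le_trans ?_ (mul_le_mul_of_nonneg_left (h1 (N - B ^ 2 * z)) (cw_pos z).le)
      rw [mul_sum, hF]
      refine le_trans (le_of_eq (sum_congr rfl fun q _ => ?_)) (sum_le_sum_of_subset_of_nonneg
        (fun q hq => ?_) fun q _ _ => (mul_pos (cw_pos _) (cw_pos _)).le)
      · congr 2; omega
      · rw [mem_filter] at hq ⊢
        exact ⟨hq.1, by omega⟩
    have c2 := cw_le_inv_sqrt hB hz
    have c3 : 16 * √D ≤ √(2 * (B : ℝ)) := by
      apply Real.le_sqrt_of_sq_le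
      rw [mul_pow, Real.sq_sqrt hD'.le, hB']
      nlinarith
    have hs0 : 0 < √(D : ℝ) := Real.sqrt_pos.2 hD'
    have c4 : cw z ≤ 1 / (16 * √D) := c2.trans (one_div_le_one_div_of_le (by positivity) c3)
    calc F z ≤ 1 / (16 * √D) * (12 / √D) :=
          c1.trans (mul_le_mul_of_nonneg_right c4 (by positivity))
      _ = 3 / 4 / (√D * √D) := by field_simp; norm_num
      _ = 3 / 4 / D := by rw [Real.mul_self_sqrt hD'.le]
  have none : ∀ z, n < z → F z = 0 := by
    intro z hz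
    refine sum_eq_zero fun q hq => ?_
    have c1 := (mem_filter.1 hq).2
    have c2 : B ^ 2 * (n + 1) ≤ B ^ 2 * z := Nat.mul_le_mul_left _ hz
    omega
  change ∑ z ∈ s, F z ≤ _
  rw [← sum_filter_add_sum_filter_not s (fun z => z + 2 ≤ n)]
  have p1 : ∑ z ∈ s with z + 2 ≤ n, F z ≤ 6 * √2 / D := by
    refine (sum_le_sum fun z hz => far z (mem_filter.1 hz).2).trans ?_
    rw [← mul_sum]
    exact mul_le_of_le_one_right (by positivity)
      (sum_cw_cw_le (n - 1) _ fun z hz => by have := (mem_filter.1 hz).2; omega)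
  have p2 : ∑ z ∈ s with ¬z + 2 ≤ n, F z ≤ 2 * (3 / 4 / D) := by
    rw [← sum_filter_add_sum_filter_not _ (fun z => n < z),
      sum_eq_zero (fun z hz => none z (mem_filter.1 hz).2), zero_add]
    refine (sum_le_card_nsmul _ _ _ fun z hz =>
      near z (hs z (mem_filter.1 (mem_filter.1 hz).1).1)).trans ?_
    rw [nsmul_eq_mul]
    refine mul_le_mul_of_nonneg_right ?_ (by positivity)
    have : #{z ∈ {z ∈ s | ¬z + 2 ≤ n} | ¬n < z} ≤ 2 := by
      refine le_trans (card_le_card (t := {n - 1, n}) fun z hz => ?_) card_le_two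
      simp only [mem_filter, mem_insert, mem_singleton] at hz ⊢
      omega
    exact_mod_cast this
  have p3 : √2 ≤ 17 / 12 := Real.sqrt_le_iff.2 ⟨by norm_num, by norm_num⟩
  have p4 : 6 * √2 / D ≤ 17 / 2 / (D : ℝ) := div_le_div_of_nonneg_right (by linarith) hD'.le
  have p5 : (17 / 2 / D + 2 * (3 / 4 / D) : ℝ) = 10 / D := by ring
  linarith

/-- The lower bound used for covering. -/
theorem sum_cw_cw_ge {N : ℕ} (hN : 20 ≤ N) :
    1 / 10 ≤ ∑ z ∈ range N with N ≤ 4 * z ∧ 2 * z < N, cw z * cw (N - z) := by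
  have hN' : (20 : ℝ) ≤ N := by exact_mod_cast hN
  have hb : ∀ z ∈ {z ∈ range N | N ≤ 4 * z ∧ 2 * z < N}, 1 / (2 * (N : ℝ)) ≤ cw z * cw (N - z) := by
    intro z hz
    obtain ⟨-, c1, c2⟩ := mem_filter.1 hz
    have d1 := le_cw_sq (show 1 ≤ z by omega)
    have d2 := le_cw_sq (show 1 ≤ N - z by omega)
    rw [Nat.cast_sub (by omega)] at d2
    rw [div_le_iff₀ (by positivity)]
    apply le_of_sq_le_sq _ (by have := cw_pos z; have := cw_pos (N - z); positivity)
    have d3 := mul_le_mul d1 d2 zero_le_one (le_trans zero_le_one d1)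
    have d4 : (4 * (z : ℝ)) * (4 * (N - z)) ≤ (2 * N) ^ 2 := by nlinarith [sq_nonneg ((N : ℝ) - 2 * z)]
    have d5 := mul_le_mul_of_nonneg_left d4 (sq_nonneg (cw z * cw (N - z)))
    nlinarith
  refine le_trans ?_ (card_nsmul_le_sum _ _ _ hb)
  have hc : N ≤ 5 * #{z ∈ range N | N ≤ 4 * z ∧ 2 * z < N} := by
    have : Ico ((N + 3) / 4) ((N + 1) / 2) ⊆ {z ∈ range N | N ≤ 4 * z ∧ 2 * z < N} := by
      intro z hz
      simp only [mem_Ico, mem_filter, mem_range] at hz ⊢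
      omega
    have := card_le_card this
    rw [Nat.card_Ico] at this
    omega
  have hc' : (N : ℝ) ≤ 5 * (#{z ∈ range N | N ≤ 4 * z ∧ 2 * z < N} : ℕ) := by exact_mod_cast hc
  rw [nsmul_eq_mul, mul_one_div, le_div_iff₀ (by positivity)]
  linarith

end Pool.Agent.P.MP_d5a1e1_nt.TB.Lab
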