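import Pool.Agent.P.MP_d5a1e1_nt.T2Defs
import Pool.Agent.P.MP_d5a1e1_nt.TBJ

/-! The central binomial weights. -/

namespace Pool.Agent.P.MP_d5a1e1_nt.T2

open Finset TB

theorem cw_eq_tb : cw = TB.Lab.cw := funext fun x => (TB.Lab.cw_eq x).symm
theorem cw_eq : cw = TB.Lab.cw := cw_eq_tb

theorem cw_zero : cw 0 = 1 := by rw [cw_eq_tb]; exact TB.Lab.cw_zero
theorem cw_pos (x : ℕ) : 0 < cw x := by rw [cw_eq_tb]; exact TB.Lab.cw_pos x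
theorem cw_succ (x : ℕ) : ((x : ℝ) + 1) * cw (x + 1) = (x + 1 / 2) * cw x := by
  rw [cw_eq_tb, TB.Lab.cw_succ, add_comm]
theorem cw_anti : Antitone cw := by rw [cw_eq_tb]; exact TB.Lab.cw_anti
theorem cw_le_one (x : ℕ) : cw x ≤ 1 := by rw [cw_eq_tb]; exact TB.Lab.cw_le_one x
theorem cw_conv (n : ℕ) : ∑ m ∈ range (n + 1), cw m * cw (n - m) = 1 := by
  rw [cw_eq_tb]; exact TB.Lab.cw_conv_range n
theorem cw_sq_le (x : ℕ) : cw x ^ 2 * (2 * x + 1) ≤ 1 := by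
  rw [cw_eq_tb]; exact TB.Lab.cw_sq_le x
theorem cw_sq_ge {x : ℕ} (hx : 1 ≤ x) : 1 ≤ 4 * x * cw x ^ 2 := by
  rw [cw_eq_tb, mul_comm]; exact TB.Lab.le_cw_sq hx
theorem cw_le_sqrt {x : ℕ} {a : ℝ} (ha : 0 < a) (hx : a ≤ x) : cw x ≤ 1 / √a := by
  have h1 := cw_sq_le x
  rw [le_div_iff₀ (Real.sqrt_pos.2 ha)]
  apply le_of_sq_le_sq _ zero_le_one
  rw [mul_pow, Real.sq_sqrt ha.le]
  nlinarith [sq_nonneg (cw x)]
theorem cw_le_two_pow {x s : ℕ} (hx : 2 ^ (2 * s) ≤ x) : cw x ≤ 1 / 2 ^ s := by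
  have h := cw_le_sqrt (x := x) (a := ((2 : ℝ) ^ s) ^ 2) (by positivity)
    (by rw [← pow_mul, mul_comm]; exact_mod_cast hx)
  rwa [Real.sqrt_sq (by positivity)] at h
theorem sum_inv_sqrt (n : ℕ) : ∑ t ∈ range n, 1 / √((t : ℝ) + 1) ≤ 2 * √n := by
  induction n with
  | zero => simp
  | succ n ih =>
    rw [sum_range_succ]
    push_cast
    have h0 : (0 : ℝ) ≤ n := Nat.cast_nonneg n
    have hb : 0 < √((n : ℝ) + 1) := Real.sqrt_pos.2 (by positivity)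
    have e1 := Real.mul_self_sqrt h0
    have e2 := Real.mul_self_sqrt (show (0 : ℝ) ≤ n + 1 by positivity)
    have h3 : 1 / √((n : ℝ) + 1) ≤ 2 * √((n : ℝ) + 1) - 2 * √(n : ℝ) := by
      rw [div_le_iff₀ hb]
      nlinarith [sq_nonneg (√((n : ℝ) + 1) - √(n : ℝ))]
    linarith
theorem conv_le (N : ℕ) (Z : Finset ℕ) (hZ : ∀ z ∈ Z, z ≤ N) :
    ∑ z ∈ Z, cw z * cw (N - z) ≤ 1 := by
  rw [cw_eq_tb]; exact TB.Lab.sum_cw_cw_le N Z hZ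
theorem conv_ge {N : ℕ} (hN : 20 ≤ N) :
    1 / 10 ≤ ∑ z ∈ range N with N ≤ 4 * z ∧ 2 * z < N, cw z * cw (N - z) := by
  rw [cw_eq_tb]; exact TB.Lab.sum_cw_cw_ge hN
theorem sum_far (B : ℕ) (hB : 1 ≤ B) : ∑ t ∈ range B, 1 / √((B : ℝ) * (max 1 t : ℕ)) ≤ 3 := by
  obtain ⟨n, rfl⟩ : ∃ n, B = n + 1 := ⟨B - 1, by omega⟩
  have h0 : (0 : ℝ) ≤ n := Nat.cast_nonneg n
  have hb : 1 ≤ √((n : ℝ) + 1) := Real.one_le_sqrt.2 (by linarith)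
  have hle : √(n : ℝ) ≤ √((n : ℝ) + 1) := Real.sqrt_le_sqrt (by linarith)
  rw [sum_range_succ']
  have e : ∀ t ∈ range n, 1 / √(((n + 1 : ℕ) : ℝ) * (max 1 (t + 1) : ℕ)) =
      1 / √((n : ℝ) + 1) * (1 / √((t : ℝ) + 1)) := by
    intro t _
    rw [max_eq_right (by omega), one_div_mul_one_div, ← Real.sqrt_mul (by positivity)]
    push_cast
    rfl
  rw [sum_congr rfl e, ← mul_sum]
  have h1 := sum_inv_sqrt n
  have h2 : 1 / √((n : ℝ) + 1) * ∑ t ∈ range n, 1 / √((t : ℝ) + 1) ≤ 2 := by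
    rw [one_div_mul_eq_div, div_le_iff₀ (by linarith)]
    linarith
  have h3 : 1 / √(((n + 1 : ℕ) : ℝ) * (max 1 0 : ℕ)) ≤ 1 := by
    rw [max_eq_left (by omega)]
    push_cast
    rw [mul_one, div_le_iff₀ (by linarith)]
    linarith
  linarith
/-- The weight seen from one parent. -/
theorem top_sum {p D : ℕ} (hp : 1 ≤ p) (hD : 1 ≤ D) (T : Finset (ℕ × ℕ))
    (hT : ∀ q ∈ T, q.1 < p ∧ q.2 < p) (h6 : ∀ v, #{q ∈ T | q.2 = v} ≤ 6) (N : ℕ) :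
    ∑ q ∈ T with q.1 + D * p * q.2 + D * p ≤ N, cw (N - (q.1 + D * p * q.2)) ≤ 24 / √D := by
  have h := Lab.TopOK.one ⟨hT, h6⟩ hD hp N
  rw [cw_eq_tb]
  refine le_trans (le_of_eq ?_) (h.trans
    (div_le_div_of_nonneg_right (by norm_num) (Real.sqrt_nonneg _)))
  exact sum_congr (filter_congr fun q _ => by omega) fun q _ => by rw [Nat.sub_sub]
/-- The total weight of a junction. -/
theorem junction_sum {p D : ℕ} (hp : 2304 ≤ p) (hD : 1 ≤ D) (T : Finset (ℕ × ℕ))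
    (hT : ∀ q ∈ T, q.1 < p ∧ q.2 < p) (h6 : ∀ v, #{q ∈ T | q.2 = v} ≤ 6) (N : ℕ) (Z : Finset ℕ)
    (hZ : ∀ z ∈ Z, D * p ≤ z) :
    ∑ z ∈ Z, ∑ q ∈ T with q.1 + D * p * q.2 + (D * p) ^ 2 * z + D * p ≤ N,
      cw z * cw (N - (q.1 + D * p * q.2 + (D * p) ^ 2 * z)) ≤ 10 / D := by
  have h := Lab.TopOK.two ⟨hT, h6⟩ hD (by omega) N Z hZ
  rw [cw_eq_tb]
  refine le_trans (le_of_eq (sum_congr rfl fun z _ => ?_)) h
  exact sum_congr (filter_congr fun q _ => by omega) fun q _ => by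
    rw [Nat.sub_sub, Nat.sub_sub, add_assoc]

end Pool.Agent.P.MP_d5a1e1_nt.T2
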