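import Mathlib

/-! Boxes of digit vectors and truncation. -/

namespace Pool.Agent.P.MP_d5a1e1_nt.TB

open Finset

/-- Truncation to the first `n` coordinates. -/
def tr (n : ℕ) (f : ℕ → ℕ) : ℕ → ℕ := fun i => if i < n then f i else 0

/-- Vectors with `f i < N (i / 2)` for `i < n` that vanish from `n` on. -/
noncomputable def Box (n : ℕ) (N : ℕ → ℕ) : Finset (ℕ → ℕ) :=
  open Classical in
  (Fintype.piFinset fun i : Fin n => range (N (i / 2))).image
    fun g i => if h : i < n then g ⟨i, h⟩ else 0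

theorem tr_lt {n i : ℕ} (h : i < n) (f : ℕ → ℕ) : tr n f i = f i := if_pos h

theorem tr_ge {n i : ℕ} (h : n ≤ i) (f : ℕ → ℕ) : tr n f i = 0 := if_neg (by omega)

theorem mem_Box {n : ℕ} {N f : ℕ → ℕ} :
    f ∈ Box n N ↔ (∀ i < n, f i < N (i / 2)) ∧ ∀ i, n ≤ i → f i = 0 := by
  classical
  simp only [Box, mem_image, Fintype.mem_piFinset, mem_range]
  constructor
  · rintro ⟨g, hg, rfl⟩
    exact ⟨fun i hi => by simpa [hi] using hg ⟨i, hi⟩, fun i hi => dif_neg (by omega)⟩
  · rintro ⟨h1, h2⟩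
    refine ⟨fun i => f i, fun i => h1 i i.2, funext fun i => ?_⟩
    split_ifs with h
    · rfl
    · exact (h2 i (by omega)).symm

theorem Box_ext {n : ℕ} {N N' f g : ℕ → ℕ} (hf : f ∈ Box n N) (hg : g ∈ Box n N')
    (h : ∀ i < n, f i = g i) : f = g := by
  funext i
  by_cases hi : i < n
  · exact h i hi
  · rw [(mem_Box.1 hf).2 i (by omega), (mem_Box.1 hg).2 i (by omega)]

theorem tr_mem_Box {n : ℕ} {N f : ℕ → ℕ} (h : ∀ i < n, f i < N (i / 2)) : tr n f ∈ Box n N :=
  mem_Box.2 ⟨fun i hi => by rw [tr_lt hi]; exact h i hi, fun _ hi => tr_ge hi f⟩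

theorem card_Box (n : ℕ) (N : ℕ → ℕ) : (Box n N).card = ∏ i ∈ range n, N (i / 2) := by
  classical
  rw [Box, card_image_of_injective, Fintype.card_piFinset]
  · simp only [card_range]
    exact Fin.prod_univ_eq_prod_range (fun i => N (i / 2)) n
  · intro g g' h
    funext i
    have := congrFun h i
    simpa using this

end Pool.Agent.P.MP_d5a1e1_nt.TB
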