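import Pool.Agent.P.MP_d5a1e1_nt.TBProb2
import Pool.Agent.P.MP_d5a1e1_nt.TBBox

/-! Definitions for the thin basis with a power saving. -/

namespace Pool.Agent.P.MP_d5a1e1_nt.T2

open Finset TB

noncomputable section

scoped instance decFun : DecidableEq (ℕ → ℕ) := Classical.decEq _

/-! ### Parameters -/

/-- The base of the merge counter. -/
@[irreducible] def CC : ℕ := 2 ^ 400
def LL (u : ℕ) : ℕ := Nat.log CC u + 1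
def yy (u : ℕ) : ℕ := 2 ^ LL u
def tau (u : ℕ) : ℕ := CC ^ LL u
def gr (u : ℕ) : ℕ := Nat.log 2 (LL u)
def TT (g : ℕ) : ℕ := CC ^ 2 ^ (g + 1)
def RR (g : ℕ) : ℕ := TT g ^ 7
def Ru (u : ℕ) : ℕ := RR (gr u)
def DD (u : ℕ) : ℕ := 16 * Ru u
def sg (u : ℕ) : ℕ := yy u ^ 2212
/-- The prime of epoch `L`. -/
@[irreducible] def pe (L : ℕ) : ℕ :=
  (Nat.exists_prime_lt_and_le_two_mul (2 ^ (2 ^ L) ^ 2212) (by positivity)).choose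
def pp (u : ℕ) : ℕ := pe (LL u)
def BB (u : ℕ) : ℕ := DD u * pp u
def WW (i : ℕ) : ℕ := ∏ s ∈ range i, BB (s / 2)
def Del (k : ℕ) : ℕ := ∏ u ∈ range k, DD u
def lam (k : ℕ) : ℕ := yy k ^ 202
def rat (k : ℕ) : ℕ := yy k ^ 602
def Lam (k : ℕ) : ℕ := yy k ^ 1408
def rho (k : ℕ) : ℕ := yy k ^ 906
def gg (k : ℕ) : ℕ := 600 * yy k ^ 2216
def HH (k : ℕ) : ℕ := 2 ^ (3 * k * yy k ^ 401)
def XB (k : ℕ) : ℕ := 2 ^ ((3 * k - 1) * yy k ^ 401)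
def ZZ (k : ℕ) : ℕ := 5 * BB k ^ 2 * BB (k + 1)
def MM (k : ℕ) : ℕ := 18 ^ (3 * LL k + 1) * (27 * (CC + 1) ^ CC) ^ 2
def EE (k : ℕ) : ℕ := (9 * (k + 1)) ^ k
@[irreducible] def d0 : ℕ := 40 * 2 ^ 2212
@[irreducible] def k0 : ℕ := CC ^ 10000

/-! ### Digit vectors -/

def vl (n : ℕ) (f : ℕ → ℕ) : ℕ := ∑ i ∈ range n, WW i * f i
def dig (n i : ℕ) : ℕ := n / WW i % BB (i / 2)
/-- The coarse digits of `n` below `2 j`. -/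
def gd (j n : ℕ) : ℕ → ℕ := tr (2 * j) fun i => dig n i / pp (i / 2)
/-- `g - ξ - ξ'` modulo the coarse radices. -/
def ym (j : ℕ) (g ξ ξ' : ℕ → ℕ) : ℕ → ℕ :=
  tr (2 * j) fun i => (g i + 2 * DD (i / 2) - ξ i - ξ' i) % DD (i / 2)
/-- The carry into digit `i`. -/
def gam (j : ℕ) (g ξ ξ' : ℕ → ℕ) : ℕ → ℕ
  | 0 => 0
  | i + 1 => (ym j g ξ ξ' i + ξ i + ξ' i - g i) / DD (i / 2)
/-- The lower part of an element. -/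
def lo (n : ℕ) (d ξ x : ℕ → ℕ) : ℕ := vl n fun s => d s + pp (s / 2) * (ξ s + x s)

/-- The fine points. -/
structure Fine (Pt : ℕ → Finset (ℕ → ℕ)) : Prop where
  box : ∀ k, Pt k ⊆ Box (2 * k) pp
  cover : ∀ k (γ r : ℕ → ℕ), ∃ d ∈ Pt k, ∃ d' ∈ Pt k,
    ∀ i < 2 * k, d i + d' i + γ i ≡ r i [MOD pp (i / 2)]
  near : ∀ j k, k = j ∨ k = j + 1 → ∀ (γ r : ℕ → ℕ) (Z : Finset (ℕ → ℕ)),
    (∀ e ∈ Z, ∃ d ∈ Pt j, ∃ d' ∈ Pt k, e = tr (2 * j) d' ∧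
      ∀ i < 2 * j, d i + d' i + γ i ≡ r i [MOD pp (i / 2)]) → Z.card ≤ MM j
  top : ∀ k v (Z : Finset ℕ),
    (∀ u ∈ Z, ∃ d ∈ Pt (k + 1), d (2 * k) = u ∧ d (2 * k + 1) = v) → Z.card ≤ 6
  far : ∀ j k, j < k → ∀ (r : ℕ → ℕ) (Z : Finset (ℕ → ℕ)),
    (∀ d' ∈ Z, d' ∈ Pt k ∧ (∃ d ∈ Pt j, ∀ i < 2 * j, d i + d' i = r i) ∧
      ∀ u, j ≤ u → u < k → d' (2 * u + 1) = r (2 * u + 1)) → Z.card ≤ EE k

/-! ### Labels -/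

def cw (x : ℕ) : ℝ := (Nat.centralBinom x : ℝ) / 4 ^ x
def gsum (n g : ℕ) (x : ℕ → ℕ) : ℕ := ∑ i ∈ range n with gr (i / 2) = g, x i
open Classical in
def XX (k : ℕ) : Finset (ℕ → ℕ) :=
  (Box (2 * k) fun u => Ru u + 1).filter fun x => ∀ g, gsum (2 * k) g x ≤ RR g
open Classical in
def SS (k : ℕ) : Finset (ℕ → ℕ) :=
  (Box (2 * k) DD).filter fun y => ∀ g, gsum (2 * k) g y ≤ 2 * RR g + 4 * TT g
def ff (k : ℕ) (x : ℕ → ℕ) : ℝ := ∏ i ∈ range (2 * k), cw (x i)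
def ph (k : ℕ) : ℝ := ∑ x ∈ XX k, ff k x
open Classical in
def GG (j k : ℕ) (y : ℕ → ℕ) : ℝ := ∑ x ∈ XX j, ∑ x' ∈ XX k,
  if ∀ i < 2 * j, x i + x' i = y i then ff j x * ff k x' else 0
def Gp (j k : ℕ) (y : ℕ → ℕ) : ℝ := GG j k fun i => y i - 2
open Classical in
def Gm (k : ℕ) (y : ℕ → ℕ) : ℝ := if ∀ i < 2 * k, 2 ≤ y i then GG k k y else 0
/-- The number of types. -/
def mm (k : ℕ) : ℕ := ⌈(lam k : ℝ) * Del k / ph k⌉₊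

/-- The types: `ξ k i` is type `i` of state `k`. -/
structure Types (ξ : ℕ → ℕ → ℕ → ℕ) : Prop where
  box : ∀ k, k0 ≤ k → ∀ i < mm k, ξ k i ∈ Box (2 * k) DD
  deg : ∀ j k, k0 ≤ k → k = j ∨ k = j + 1 → ∀ g ∈ Box (2 * j) DD, ∀ ξ₀ : ℕ → ℕ,
    (∀ s < 2 * j, ξ₀ s < DD (s / 2)) →
    #{i ∈ range (mm k) | ym j g ξ₀ (ξ k i) ∈ SS j} ≤ yy k
  list : ∀ j k, k0 ≤ j → k = j ∨ k = j + 1 → ∀ g ∈ Box (2 * j) DD,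
    #{q ∈ range (mm j) ×ˢ range (mm k) | ym j g (ξ j q.1) (ξ k q.2) ∈ SS j} ≤ Lam k
  up0 : ∀ k, k0 ≤ k → ∀ g ∈ Box (2 * k) DD, ∑ q ∈ range (mm k) ×ˢ range (mm k),
    Gp k k (ym k g (ξ k q.1) (ξ k q.2)) ≤ 15 * (lam k : ℝ) ^ 2
  up1 : ∀ j, k0 ≤ j → ∀ g ∈ Box (2 * j) DD, ∑ q ∈ range (mm j) ×ˢ range (mm (j + 1)),
    Gp j (j + 1) (ym j g (ξ j q.1) (ξ (j + 1) q.2)) ≤ 13 * DD j * (lam (j + 1) : ℝ) ^ 2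
  low : ∀ k, k0 ≤ k → ∀ g ∈ Box (2 * k) DD, (lam k : ℝ) ^ 2 / 16 ≤
    ∑ q ∈ range (mm k) ×ˢ range (mm k), Gm k (ym k g (ξ k q.1) (ξ k q.2))

/-! ### Cells and frames -/

@[ext] structure Cell where
  k : ℕ
  i : ℕ
  η : ℕ
  x : ℕ → ℕ
  z : ℕ

scoped instance decCell : DecidableEq Cell := Classical.decEq _

def cells (k : ℕ) : Finset Cell :=
  (range (mm k) ×ˢ range (HH k) ×ˢ XX k ×ˢ Ico (BB k) (ZZ k)).image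
    fun q => ⟨k, q.1, q.2.1, q.2.2.1, q.2.2.2⟩

/-- The probability of a cell. -/
def qq (c : Cell) : ℝ := min 1 (rho c.k * ff c.k c.x * cw c.z)

@[ext] structure Tup where
  i : ℕ
  i' : ℕ
  yb : ℕ → ℕ
  η : ℕ
  η' : ℕ
  o₀ : ℕ
  o₁ : ℕ

scoped instance decTup : DecidableEq Tup := Classical.decEq _

def tups (j k : ℕ) : Finset Tup :=
  (range (mm j) ×ˢ range (mm k) ×ˢ Box (2 * j) DD ×ˢ range (HH j) ×ˢ range (HH k) ×ˢ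
    range (DD j) ×ˢ range (DD j)).image
    fun q => ⟨q.1, q.2.1, q.2.2.1, q.2.2.2.1, q.2.2.2.2.1, q.2.2.2.2.2.1, q.2.2.2.2.2.2⟩

/-- A frame. -/
structure Fr (j k N : ℕ) (P : Finset Tup) : Prop where
  lt : N < 2 ^ (11 * sg (j + 2))
  sub : P ⊆ tups j k
  card : P.card ≤ Lam k
  one : ∀ t ∈ P, ∀ t' ∈ P, t.i = t'.i → t.i' = t'.i' → t = t'
  out : ∀ i, #{t ∈ P | t.i = i} ≤ yy k
  inn : ∀ i', #{t ∈ P | t.i' = i'} ≤ yy k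

/-- The cells `c`, `c'` fit the tuple `t` in the lower digits. -/
def Fit (j k : ℕ) (t : Tup) (c c' : Cell) : Prop :=
  c ∈ cells j ∧ c' ∈ cells k ∧ c.i = t.i ∧ c'.i = t.i' ∧ c.η = t.η ∧ c'.η = t.η' ∧
    ∀ s < 2 * j, c.x s + c'.x s = t.yb s

/-- An edge inside state `k`. -/
def Ed0 (k N : ℕ) (P : Finset Tup) (c c' : Cell) : Prop :=
  ∃ t ∈ P, Fit k k t c c' ∧ c.z + c'.z = N ∧ c.z < c'.z

/-- An edge between the states `j` and `j + 1`. -/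
def Ed1 (Pt : ℕ → Finset (ℕ → ℕ)) (j N : ℕ) (P : Finset Tup) (c c' : Cell) : Prop :=
  ∃ t ∈ P, Fit j (j + 1) t c c' ∧ ∃ d ∈ Pt (j + 1),
    c.z + (d (2 * j) + pp j * (t.o₀ + c'.x (2 * j))) +
      BB j * (d (2 * j + 1) + pp j * (t.o₁ + c'.x (2 * j + 1))) + BB j ^ 2 * c'.z = N

/-- An element of state `k` with fine point `d` and cell `c`. -/
def el (ξ : ℕ → ℕ → ℕ → ℕ) (d : ℕ → ℕ) (c : Cell) : ℕ :=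
  lo (2 * c.k) d (ξ c.k c.i) c.x + WW (2 * c.k) * c.z

def K0 (K : Set Cell) (k : ℕ) : Prop :=
  ∀ N P, Fr k k N P → ∑ t ∈ P, GG k k t.yb ≤ 15 * (lam k : ℝ) ^ 2 →
    ∀ Z : Finset (Cell × Cell), (∀ e ∈ Z, e.1 ∈ K ∧ e.2 ∈ K ∧ Ed0 k N P e.1 e.2) → Z.card < gg k

def K1 (Pt : ℕ → Finset (ℕ → ℕ)) (K : Set Cell) (j : ℕ) : Prop :=
  ∀ N P, Fr j (j + 1) N P →
    ∑ t ∈ P, GG j (j + 1) t.yb ≤ 13 * DD j * (lam (j + 1) : ℝ) ^ 2 →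
    ∀ Z : Finset (Cell × Cell), (∀ e ∈ Z, e.1 ∈ K ∧ e.2 ∈ K ∧ Ed1 Pt j N P e.1 e.2) →
      Z.card < gg (j + 1)

def KC (K : Set Cell) (k : ℕ) : Prop :=
  ∀ N P, Fr k k N P → (lam k : ℝ) ^ 2 / 48 ≤ ∑ t ∈ P, GG k k t.yb → 4 * BB k ≤ N → N < ZZ k →
    ∃ c ∈ K, ∃ c' ∈ K, Ed0 k N P c c'

def KA (K : Set Cell) (k : ℕ) : Prop :=
  ∀ z (Z : Finset Cell), (∀ c ∈ Z, c ∈ K ∧ c ∈ cells k ∧ c.z = z) → Z.card < d0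

/-- `d'` completes an element of state `j` (any hash value) to the sum `n`. -/
def Cand (Pt : ℕ → Finset (ℕ → ℕ)) (ξ : ℕ → ℕ → ℕ → ℕ) (K : Set Cell) (j k n : ℕ)
    (d' : ℕ → ℕ) : Prop :=
  d' ∈ Pt k ∧ ∃ d ∈ Pt j, ∃ c ∈ K, c ∈ cells j ∧ el ξ d c + vl (2 * k) d' = n

def KF (Pt : ℕ → Finset (ℕ → ℕ)) (ξ : ℕ → ℕ → ℕ → ℕ) (K : Set Cell) (j k : ℕ) : Prop :=
  ∀ n < 2 * WW (2 * k), ∀ Z : Finset (ℕ → ℕ), (∀ d' ∈ Z, Cand Pt ξ K j k n d') →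
    Z.card ≤ EE k * (72 * HH j * 2 ^ yy j ^ 401 + 5 * k * sg k)

structure Good (Pt : ℕ → Finset (ℕ → ℕ)) (ξ : ℕ → ℕ → ℕ → ℕ) (K : Set Cell) : Prop where
  k0' : ∀ k, k0 ≤ k → K0 K k
  k1 : ∀ j, k0 ≤ j → K1 Pt K j
  kc : ∀ k, k0 ≤ k → KC K k
  ka : ∀ k, k0 ≤ k → KA K k
  kf : ∀ j k, k0 ≤ j → j + 2 ≤ k → KF Pt ξ K j k

/-- The hash functions. -/
structure Hash (Pt : ℕ → Finset (ℕ → ℕ)) (ξ : ℕ → ℕ → ℕ → ℕ) (K : Set Cell)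
    (h : ℕ → (ℕ → ℕ) → ℕ) : Prop where
  lt : ∀ k e, h k e < HH k
  few : ∀ k, k0 ≤ k → ∀ n < 2 * WW (2 * k), ∀ η (Z : Finset (ℕ → ℕ)),
    (∀ e ∈ Z, h k e = η ∧ ∃ d', e = tr (2 * k - 2) d' ∧
      ∃ j, k0 ≤ j ∧ j + 2 ≤ k ∧ Cand Pt ξ K j k n d') → Z.card < sg k

/-- All the data of the construction. -/
structure Data where
  Pt : ℕ → Finset (ℕ → ℕ)
  ξ : ℕ → ℕ → ℕ → ℕ
  K : Set Cell
  h : ℕ → (ℕ → ℕ) → ℕ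
  fine : Fine Pt
  types : Types ξ
  good : Good Pt ξ K
  hash : Hash Pt ξ K h

/-- `(d, c)` is a valid description of an element of state `k`. -/
def Data.Ok (D : Data) (k : ℕ) (d : ℕ → ℕ) (c : Cell) : Prop :=
  d ∈ D.Pt k ∧ c ∈ D.K ∧ c ∈ cells k ∧ c.η = D.h k (tr (2 * k - 2) d)

/-- The elements of state `k`. -/
def Data.A (D : Data) (k : ℕ) : Set ℕ := {a | ∃ d c, D.Ok k d c ∧ a = el D.ξ d c}

end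

end Pool.Agent.P.MP_d5a1e1_nt.T2
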