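import Pool.Agent.P.MP_d5a1e1_nt.T2Cells

/-! Representations by distant states. -/

namespace Pool.Agent.P.MP_d5a1e1_nt.T2

open Finset TB

/-- `(d', c')` describes the larger element of a distant representation of `n`. -/
def T2Far_Q (D : Data) (k n : ℕ) (d' : ℕ → ℕ) (c' : Cell) : Prop :=
  D.Ok k d' c' ∧ ∃ j d c, k0 ≤ j ∧ j + 2 ≤ k ∧ D.Ok j d c ∧ el D.ξ d c + el D.ξ d' c' = n

theorem T2Far_fib {α β : Type*} [DecidableEq β] (Z : Finset α) (f : α → β) {a b : ℕ}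
    (h1 : (Z.image f).card ≤ a) (h2 : ∀ t, #{x ∈ Z | f x = t} ≤ b) : Z.card ≤ b * a :=
  (card_le_mul_card_image Z b fun t _ => h2 t).trans (Nat.mul_le_mul_left _ h1)

theorem T2Far_small (D : Data) {j m : ℕ} (hj : k0 ≤ j) (hm : j + 2 ≤ m + 1) {d : ℕ → ℕ} {c : Cell}
    (h : D.Ok j d c) : el D.ξ d c < 6 * WW (2 * m + 1) :=
  (el_lt D.types hj (D.fine.box j h.1) h.2.2.1).trans_le
    (Nat.mul_le_mul_left _ (WW_mono (by omega)))

theorem T2Far_dig {k : ℕ} {d : ℕ → ℕ} (hd : d ∈ Box (2 * k) pp) {n : ℕ} (hn : n ≤ 2 * k) :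
    vl n d < WW n :=
  vl_lt fun i hi => ((mem_Box.1 hd).1 i (by omega)).trans_le
    (Nat.le_mul_of_pos_left _ (DD_pos _))

theorem T2Far_cell (D : Data) {m n : ℕ} (hk : k0 ≤ m + 1) (c' : Cell) (T : Finset (ℕ → ℕ))
    (hT : ∀ d' ∈ T, T2Far_Q D (m + 1) n d' c') : T.card ≤ 6 * 7 * sg (m + 1) := by
  obtain ⟨n', hn'⟩ : ∃ n', ∀ d' ∈ T, ∀ a, a + el D.ξ d' c' = n → a + vl (2 * (m + 1)) d' = n' := by
    refine ⟨n - ((vl (2 * (m + 1)) fun s => pp (s / 2) * (D.ξ (m + 1) c'.i s + c'.x s)) +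
      WW (2 * (m + 1)) * c'.z), fun d' hd a ha => ?_⟩
    have hc : c'.k = m + 1 := (mem_cells.1 (hT d' hd).1.2.2.1).1
    rw [el, hc, lo_eq] at ha
    omega
  have hW : 16 * WW (2 * m + 1) ≤ WW (2 * (m + 1)) := WW_step (2 * m + 1)
  rcases T.eq_empty_or_nonempty with rfl | ⟨d₀, hd₀⟩
  · simp
  have hlt : n' < 2 * WW (2 * (m + 1)) := by
    obtain ⟨h1, j, d, c, hj, hjk, h2, h3⟩ := hT d₀ hd₀
    have a1 := T2Far_small D hj hjk h2
    have a2 := T2Far_dig (D.fine.box _ h1.1) le_rfl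
    have a3 := hn' d₀ hd₀ _ h3
    omega
  refine T2Far_fib T (tr (2 * (m + 1) - 2)) (le_of_lt ?_) fun e => ?_
  · refine D.hash.few _ hk n' hlt c'.η _ fun e he => ?_
    obtain ⟨d', hd, rfl⟩ := mem_image.1 he
    obtain ⟨h1, j, d, c, hj, hjk, h2, h3⟩ := hT d' hd
    exact ⟨h1.2.2.2.symm, d', rfl, j, hj, hjk, h1.1, d, h2.1, c, h2.2.1, h2.2.2.1,
      hn' d' hd _ h3⟩
  · refine T2Far_fib _ (fun d' => d' (2 * m + 1)) ?_ fun v => ?_
    · refine (card_le_card (t := Icc (n' / WW (2 * m + 1) - 6) (n' / WW (2 * m + 1)))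
        fun v hv => ?_).trans (by rw [Nat.card_Icc]; omega)
      obtain ⟨d', hd, rfl⟩ := mem_image.1 hv
      have hd := (mem_filter.1 hd).1
      obtain ⟨h1, j, d, c, hj, hjk, h2, h3⟩ := hT d' hd
      have a1 := T2Far_small D hj hjk h2
      have a2 := T2Far_dig (D.fine.box _ h1.1) (show 2 * m + 1 ≤ 2 * (m + 1) by omega)
      have a3 := hn' d' hd _ h3
      rw [show 2 * (m + 1) = 2 * m + 1 + 1 by ring, vl_succ, ← add_assoc] at a3
      have a4 : (el D.ξ d c + vl (2 * m + 1) d') / WW (2 * m + 1) < 7 :=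
        (Nat.div_lt_iff_lt_mul (WW_pos _)).2 (by omega)
      rw [← a3, Nat.add_mul_div_left _ _ (WW_pos _), mem_Icc]
      generalize (el D.ξ d c + vl (2 * m + 1) d') / WW (2 * m + 1) = w at a4
      omega
    · rw [← card_image_of_injOn (f := fun d' : ℕ → ℕ => d' (2 * m))]
      · refine D.fine.top m v _ fun u hu => ?_
        obtain ⟨d', hd, rfl⟩ := mem_image.1 hu
        exact ⟨d', (hT d' (mem_filter.1 (mem_filter.1 hd).1).1).1.1, rfl, (mem_filter.1 hd).2⟩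
      · intro d₁ h₁ d₂ h₂ e0
        obtain ⟨b1, b2⟩ := mem_filter.1 (mem_coe.1 h₁)
        obtain ⟨b3, b4⟩ := mem_filter.1 (mem_coe.1 h₂)
        obtain ⟨b5, b6⟩ := mem_filter.1 b1
        obtain ⟨b7, b8⟩ := mem_filter.1 b3
        refine Box_ext (D.fine.box _ (hT _ b5).1.1) (D.fine.box _ (hT _ b7).1.1) fun i hi => ?_
        rcases (by omega : i < 2 * (m + 1) - 2 ∨ i = 2 * m ∨ i = 2 * m + 1) with h | rfl | rfl
        · rw [← tr_lt h d₁, ← tr_lt h d₂, b6, b8]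
        · exact e0
        · exact b2.trans b4.symm

theorem T2Far_cells (D : Data) {m n : ℕ} (hk : k0 ≤ m + 1) (C : Finset Cell)
    (hC : ∀ c' ∈ C, ∃ d', T2Far_Q D (m + 1) n d' c') : C.card ≤ d0 * 3 := by
  refine T2Far_fib C Cell.z ?_ fun z => le_of_lt ?_
  · refine (card_le_card (t := Icc (n / WW (2 * (m + 1)) - 2) (n / WW (2 * (m + 1))))
      fun z hz => ?_).trans (by rw [Nat.card_Icc]; omega)
    obtain ⟨c', hc, rfl⟩ := mem_image.1 hz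
    obtain ⟨d', h1, j, d, c, hj, hjk, h2, h3⟩ := hC c' hc
    have hW : 16 * WW (2 * m + 1) ≤ WW (2 * (m + 1)) := WW_step (2 * m + 1)
    have a1 := T2Far_small D hj hjk h2
    have a2 := lo_cell D.types hk (D.fine.box _ h1.1) h1.2.2.1
    have hc : c'.k = m + 1 := (mem_cells.1 h1.2.2.1).1
    have a3 : el D.ξ d' c' = lo (2 * (m + 1)) d' (D.ξ (m + 1) c'.i) c'.x +
        WW (2 * (m + 1)) * c'.z := by rw [el, hc]
    rw [a3, ← add_assoc] at h3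
    have a4 : (el D.ξ d c + lo (2 * (m + 1)) d' (D.ξ (m + 1) c'.i) c'.x) / WW (2 * (m + 1)) < 3 :=
      (Nat.div_lt_iff_lt_mul (WW_pos _)).2 (by omega)
    rw [← h3, Nat.add_mul_div_left _ _ (WW_pos _), mem_Icc]
    generalize (el D.ξ d c + lo (2 * (m + 1)) d' (D.ξ (m + 1) c'.i) c'.x) / WW (2 * (m + 1)) = w
      at a4
    omega
  · refine D.good.ka _ hk z _ fun c' hc => ?_
    obtain ⟨d', h1, -⟩ := hC c' (mem_filter.1 hc).1
    exact ⟨h1.2.1, h1.2.2.1, (mem_filter.1 hc).2⟩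

theorem far (D : Data) {k n : ℕ} (hk : k0 ≤ k) (Z : Finset (ℕ × ℕ))
    (hZ : ∀ y ∈ Z, (∃ j, k0 ≤ j ∧ j + 2 ≤ k ∧ y.1 ∈ D.A j) ∧ y.2 ∈ D.A k ∧ y.1 + y.2 = n) :
    Z.card ≤ 126 * d0 * sg k := by
  rcases Z.eq_empty_or_nonempty with rfl | ⟨y₀, hy₀⟩
  · simp
  obtain ⟨m, rfl⟩ : ∃ m, k = m + 1 := by
    obtain ⟨⟨j, -, hj, -⟩, -⟩ := hZ y₀ hy₀
    exact ⟨k - 1, by omega⟩
  have key : ∀ y : ℕ × ℕ, ∃ q : (ℕ → ℕ) × Cell, y ∈ Z →
      T2Far_Q D (m + 1) n q.1 q.2 ∧ y.2 = el D.ξ q.1 q.2 := by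
    intro y
    by_cases hy : y ∈ Z
    · obtain ⟨⟨j, hj, hjk, d, c, h2, e1⟩, ⟨d', c', h1, e2⟩, h3⟩ := hZ y hy
      exact ⟨(d', c'), fun _ => ⟨⟨h1, j, d, c, hj, hjk, h2, by rw [← e1, ← e2, h3]⟩, e2⟩⟩
    · exact ⟨(fun _ => 0, ⟨0, 0, 0, fun _ => 0, 0⟩), fun h => absurd h hy⟩
  choose q hq using key
  have h := T2Far_fib Z (fun y => (q y).2) (a := d0 * 3) (b := 6 * 7 * sg (m + 1))
    (T2Far_cells D hk _ fun c' hc => by
      obtain ⟨y, hy, rfl⟩ := mem_image.1 hc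
      exact ⟨_, (hq y hy).1⟩) fun c' => by
      rw [← card_image_of_injOn (f := fun y => (q y).1)]
      · refine T2Far_cell D (n := n) hk c' _ fun d' hd => ?_
        obtain ⟨y, hy, rfl⟩ := mem_image.1 hd
        obtain ⟨h1, h2⟩ := mem_filter.1 hy
        exact h2 ▸ (hq y h1).1
      · intro y₁ h₁ y₂ h₂ e
        obtain ⟨b1, b2⟩ := mem_filter.1 (mem_coe.1 h₁)
        obtain ⟨b3, b4⟩ := mem_filter.1 (mem_coe.1 h₂)
        have e' : (q y₁).1 = (q y₂).1 := e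
        have e2 : y₁.2 = y₂.2 := by rw [(hq y₁ b1).2, (hq y₂ b3).2, e', b2, b4]
        have e3 := (hZ y₁ b1).2.2
        have e4 := (hZ y₂ b3).2.2
        exact Prod.ext (by omega) e2
  calc Z.card ≤ 6 * 7 * sg (m + 1) * (d0 * 3) := h
    _ = 126 * d0 * sg (m + 1) := by ring

end Pool.Agent.P.MP_d5a1e1_nt.T2
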