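import Pool.Agent.P.MP_d5a1e1_nt.TBPt

/-! Few solutions for equal or consecutive states. -/

namespace Pool.Agent.P.MP_d5a1e1_nt.TB

open Finset

variable {C : ℕ} {p : ℕ → ℕ} {Q : QFam}

theorem pt3_count {q a l m : ℕ} {I : Type} [Fintype I] (S : Finset (ℕ → ℕ))
    (P : I → Fin 3 → (ℕ → ZMod q) → Prop) (h1 : ∀ w ∈ S, ∀ i, w i < q)
    (h2 : ∀ w ∈ S, ∀ i, ¬(2 * a ≤ i ∧ i < 2 * (a + l)) → w i = 0)
    (h3 : ∀ w ∈ S, ∃ ι κ, OnQ Q q a l κ w ∧ P ι κ fun i => (w (2 * (a + i)) : ZMod q))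
    (hP : ∀ ι κ (Z : Finset (ℕ → ZMod q)), Sep l Z → (∀ y ∈ Z, P ι κ y) → Z.card ≤ m) :
    S.card ≤ Fintype.card I * 3 * m := by
  classical
  have hc : ∀ w ∈ S, ∀ w' ∈ S, ∀ i, (w i : ZMod q) = w' i → w i = w' i := by
    intro w hw w' hw' i h
    rw [ZMod.natCast_eq_natCast_iff', Nat.mod_eq_of_lt (h1 w hw i),
      Nat.mod_eq_of_lt (h1 w' hw' i)] at h
    exact h
  have hsub : S ⊆ (univ : Finset (I × Fin 3)).biUnion fun c => S.filter fun w =>
      OnQ Q q a l c.2 w ∧ P c.1 c.2 fun i => (w (2 * (a + i)) : ZMod q) := by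
    intro w hw
    obtain ⟨ι, κ, h⟩ := h3 w hw
    exact mem_biUnion.2 ⟨(ι, κ), mem_univ _, mem_filter.2 ⟨hw, h⟩⟩
  refine (card_le_card hsub).trans ((card_biUnion_le_card_mul _ _ m fun c _ => ?_).trans ?_)
  · rw [← card_image_of_injOn (f := fun (w : ℕ → ℕ) (i : ℕ) => (w (2 * (a + i)) : ZMod q))]
    · refine hP c.1 c.2 _ ?_ ?_
      · intro y hy y' hy' h
        obtain ⟨w, hw, rfl⟩ := mem_image.1 hy
        obtain ⟨w', hw', rfl⟩ := mem_image.1 hy'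
        funext i
        by_cases hi : i < l
        · exact h i hi
        · rw [h2 w (mem_filter.1 hw).1 _ (by omega), h2 w' (mem_filter.1 hw').1 _ (by omega)]
      · intro y hy
        obtain ⟨w, hw, rfl⟩ := mem_image.1 hy
        exact (mem_filter.1 hw).2.2
    · intro w hw w' hw' h
      obtain ⟨hw1, hw2, -⟩ := mem_filter.1 (mem_coe.1 hw)
      obtain ⟨hw1', hw2', -⟩ := mem_filter.1 (mem_coe.1 hw')
      funext i
      by_cases hi : 2 * a ≤ i ∧ i < 2 * (a + l)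
      · refine hc w hw1 w' hw1' i ?_
        rcases Nat.even_or_odd' i with ⟨n, rfl | rfl⟩
        · obtain ⟨r, rfl⟩ : ∃ r, n = a + r := ⟨n - a, by omega⟩
          exact congrFun h r
        · obtain ⟨r, rfl⟩ : ∃ r, n = a + r := ⟨n - a, by omega⟩
          have h4 : (fun i => (w (2 * (a + i)) : ZMod q)) =
            fun i => (w' (2 * (a + i)) : ZMod q) := h
          rw [hw2 r (by omega), hw2' r (by omega), h4]
      · rw [h2 w hw1 i hi, h2 w' hw1' i hi]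
  · rw [card_univ, Fintype.card_prod, Fintype.card_fin]

/-- The data of one solution on one piece. -/
theorem pt3_data (h : AlgOK C p Q) {j k a b : ℕ} (hjk : j ≤ k) (hp : Piece C k a b) (hb : b ≤ j)
    {γ r d d' : ℕ → ℕ} (hd' : d' ∈ Pt C p Q k)
    (hr : ∀ i < 2 * j, d i + d' i + γ i ≡ r i [MOD p (i / 2)]) :
    (∀ i, res a b (tr (2 * j) d') i < p a) ∧
    (∃ κ, OnQ Q (p a) a (b - a) κ (res a b (tr (2 * j) d'))) ∧
    (∀ i < b - a, ((fun i => (r (2 * (a + i)) : ZMod (p a)) - γ (2 * (a + i))) -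
      fun i => (res a b (tr (2 * j) d') (2 * (a + i)) : ZMod (p a))) i = d (2 * (a + i))) ∧
    ∀ i < b - a, (d (2 * (a + i) + 1) : ZMod (p a)) + res a b (tr (2 * j) d') (2 * (a + i) + 1) =
      (r (2 * (a + i) + 1) : ZMod (p a)) - γ (2 * (a + i) + 1) := by
  obtain ⟨h1, h2⟩ := mem_Pt.1 hd'
  have e1 : ∀ i, 2 * a ≤ i → i < 2 * b → res a b (tr (2 * j) d') i = d' i := by
    intro i i1 i2
    have : res a b (tr (2 * j) d') i = tr (2 * j) d' i := if_pos ⟨i1, i2⟩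
    rw [this, tr_lt (by omega)]
  have e2 : ∀ i, 2 * a ≤ i → i < 2 * b → p (i / 2) = p a :=
    fun i i1 i2 => h.p_eq hp (by omega) (by omega)
  have e3 : ∀ i, 2 * a ≤ i → i < 2 * b → (d i : ZMod (p a)) + d' i + γ i = r i := by
    intro i i1 i2
    have h3 := hr i (by omega)
    rw [e2 i i1 i2, ← ZMod.natCast_eq_natCast_iff] at h3
    push_cast at h3
    exact h3
  refine ⟨fun i => ?_, ?_, fun i hi => ?_, fun i hi => ?_⟩
  · by_cases hi : 2 * a ≤ i ∧ i < 2 * b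
    · rw [e1 i hi.1 hi.2, ← e2 i hi.1 hi.2]
      exact (mem_Box.1 h1).1 i (by omega)
    · have : res a b (tr (2 * j) d') i = 0 := if_neg hi
      rw [this]
      exact (h.prime a).pos
  · obtain ⟨κ, h3⟩ := h2 a b hp
    refine ⟨κ, fun i hi => ?_⟩
    rw [e1 _ (by omega) (by omega), h3 i hi]
    refine congrFun ((h.sys a).loc _ _ _ _ fun t ht => ?_) i
    rw [e1 _ (by omega) (by omega)]
  · simp only [Pi.sub_apply]
    rw [e1 _ (by omega) (by omega), ← e3 _ (by omega) (by omega)]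
    ring
  · rw [e1 _ (by omega) (by omega), ← e3 _ (by omega) (by omega)]
    ring

theorem pt3_res (a b : ℕ) (hab : a ≤ b) (y : ℕ → ℕ) (i : ℕ)
    (hi : ¬(2 * a ≤ i ∧ i < 2 * (a + (b - a)))) : res a b y i = 0 :=
  if_neg (by omega)

theorem pt3_same (h : AlgOK C p Q) {j k a b : ℕ} (hjk : j ≤ k) (hp : Piece C k a b)
    (hp' : Piece C j a b) (γ r : ℕ → ℕ) (Z : Finset (ℕ → ℕ))
    (hZ : ∀ y ∈ Z, ∃ d' ∈ Pt C p Q k, ∃ d ∈ Pt C p Q j, y = tr (2 * j) d' ∧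
      ∀ i < 2 * j, d i + d' i + γ i ≡ r i [MOD p (i / 2)]) (S : Finset (ℕ → ℕ))
    (hS : ∀ w ∈ S, ∃ y ∈ Z, res a b y = w) : S.card ≤ 18 := by
  have hab := hp.1
  have hb := hp'.2.1
  have hl := hp.len_le (by have := h.three; omega)
  refine (pt3_count (Q := Q) (q := p a) (a := a) (l := b - a) (m := 2) (I := Fin 3) S
    (fun κ κ' y => ∀ i < b - a,
      Q (p a) (b - a) κ ((fun i => (r (2 * (a + i)) : ZMod (p a)) - γ (2 * (a + i))) - y) i +
        Q (p a) (b - a) κ' y i = (r (2 * (a + i) + 1) : ZMod (p a)) - γ (2 * (a + i) + 1))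
    ?_ ?_ ?_ ?_).trans (by simp)
  · intro w hw
    obtain ⟨y, hy, rfl⟩ := hS w hw
    obtain ⟨d', hd', d, hd, rfl, hr⟩ := hZ y hy
    exact (pt3_data h hjk hp hb hd' hr).1
  · intro w hw
    obtain ⟨y, -, rfl⟩ := hS w hw
    exact pt3_res a b hab.le y
  · intro w hw
    obtain ⟨y, hy, rfl⟩ := hS w hw
    obtain ⟨d', hd', d, hd, rfl, hr⟩ := hZ y hy
    obtain ⟨-, ⟨κ', h1⟩, h2, h3⟩ := pt3_data h hjk hp hb hd' hr
    obtain ⟨κ, h4⟩ := (mem_Pt.1 hd).2 a b hp'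
    refine ⟨κ, κ', h1, fun i hi => ?_⟩
    rw [← h3 i hi, h4 i hi, h1 i hi, (h.sys a).loc _ κ _ _ h2]
  · intro κ κ' Y h1 h2
    exact (h.sys a).two (b - a) (by omega) hl κ κ' _
      (fun i => (r (2 * (a + i) + 1) : ZMod (p a)) - γ (2 * (a + i) + 1)) Y h1 h2

theorem pt3_merge (h : AlgOK C p Q) {j k a v μ : ℕ} (hjk : j ≤ k) (m1 : 1 ≤ μ) (m2 : μ < C)
    (hp : Piece C k a (a + (μ + 1) * C ^ v)) (hp1 : Piece C j a (a + μ * C ^ v))
    (hp2 : Piece C j (a + μ * C ^ v) (a + (μ + 1) * C ^ v)) (γ r : ℕ → ℕ) (Z : Finset (ℕ → ℕ))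
    (hZ : ∀ y ∈ Z, ∃ d' ∈ Pt C p Q k, ∃ d ∈ Pt C p Q j, y = tr (2 * j) d' ∧
      ∀ i < 2 * j, d i + d' i + γ i ≡ r i [MOD p (i / 2)]) (S : Finset (ℕ → ℕ))
    (hS : ∀ w ∈ S, ∃ y ∈ Z, res a (a + (μ + 1) * C ^ v) y = w) : S.card ≤ 27 * (C + 1) ^ C := by
  have hb := hp2.2.1
  have hl := hp.len_le (by have := h.three; omega)
  have e0 : (μ + 1) * C ^ v = μ * C ^ v + C ^ v := by ring
  have e1 : a + (μ + 1) * C ^ v - a = (μ + 1) * C ^ v := by omega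
  have e2 : a + μ * C ^ v - a = μ * C ^ v := by omega
  have e3 : a + (μ + 1) * C ^ v - (a + μ * C ^ v) = C ^ v := by omega
  have e4 : p (a + μ * C ^ v) = p a := h.p_eq hp (by omega) hp2.1
  rw [e1] at hl
  refine (pt3_count (Q := Q) (q := p a) (a := a) (l := (μ + 1) * C ^ v) (m := (C + 1) ^ C)
    (I := Fin 3 × Fin 3) S
    (fun κ κ' y => (∀ i < μ * C ^ v,
      Q (p a) (μ * C ^ v) κ.1 ((fun i => (r (2 * (a + i)) : ZMod (p a)) - γ (2 * (a + i))) - y) i +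
        Q (p a) ((μ + 1) * C ^ v) κ' y i =
          (r (2 * (a + i) + 1) : ZMod (p a)) - γ (2 * (a + i) + 1)) ∧
      ∀ i < C ^ v, Q (p a) (C ^ v) κ.2 (fun t =>
        ((fun i => (r (2 * (a + i)) : ZMod (p a)) - γ (2 * (a + i))) - y) (μ * C ^ v + t)) i +
        Q (p a) ((μ + 1) * C ^ v) κ' y (μ * C ^ v + i) =
          (r (2 * (a + (μ * C ^ v + i)) + 1) : ZMod (p a)) - γ (2 * (a + (μ * C ^ v + i)) + 1))
    ?_ ?_ ?_ ?_).trans (by simp)
  · intro w hw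
    obtain ⟨y, hy, rfl⟩ := hS w hw
    obtain ⟨d', hd', d, hd, rfl, hr⟩ := hZ y hy
    exact (pt3_data h hjk hp hb hd' hr).1
  · intro w hw i hi
    obtain ⟨y, -, rfl⟩ := hS w hw
    exact if_neg hi
  · intro w hw
    obtain ⟨y, hy, rfl⟩ := hS w hw
    obtain ⟨d', hd', d, hd, rfl, hr⟩ := hZ y hy
    obtain ⟨-, ⟨κ', h1⟩, h2, h3⟩ := pt3_data h hjk hp hb hd' hr
    obtain ⟨κ₁, h4⟩ := (mem_Pt.1 hd).2 _ _ hp1
    obtain ⟨κ₂, h5⟩ := (mem_Pt.1 hd).2 _ _ hp2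
    rw [e1] at h1 h2 h3
    rw [e2] at h4
    rw [e3, e4] at h5
    refine ⟨(κ₁, κ₂), κ', h1, fun i hi => ?_, fun i hi => ?_⟩
    · rw [← h3 i (by omega), h4 i hi, h1 i (by omega),
        (h.sys a).loc _ κ₁ _ _ fun t ht => h2 t (by omega)]
    · have h6 := h5 i hi
      simp only [Nat.add_assoc a] at h6
      rw [← h3 _ (by omega), h6, h1 _ (by omega),
        (h.sys a).loc _ κ₂ _ _ fun t ht => h2 (μ * C ^ v + t) (by omega)]
  · intro κ κ' Y h1 h2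
    exact (h.sys a).merge v μ m1 m2 hl κ.1 κ.2 κ' _
      (fun i => (r (2 * (a + i) + 1) : ZMod (p a)) - γ (2 * (a + i) + 1)) Y h1 h2

/-- F3 -/
theorem AlgOK.near (h : AlgOK C p Q) {j k : ℕ} (hk : k = j ∨ k = j + 1) (γ r : ℕ → ℕ)
    (Z : Finset (ℕ → ℕ))
    (hZ : ∀ y ∈ Z, ∃ d' ∈ Pt C p Q k, ∃ d ∈ Pt C p Q j, y = tr (2 * j) d' ∧
      ∀ i < 2 * j, d i + d' i + γ i ≡ r i [MOD p (i / 2)]) :
    Z.card ≤ 18 ^ (3 * (Nat.log C j + 1) + 1) * (27 * (C + 1) ^ C) ^ 2 := by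
  classical
  have h3 := h.three
  have hjk : j ≤ k := by omega
  have hX : 1 ≤ 27 * (C + 1) ^ C := Nat.mul_pos (by norm_num) (Nat.pow_pos (by omega))
  let m : ℕ → Prop := fun a => ∃ b, b ≤ j ∧ Piece C k a b ∧ ¬Piece C j a b
  have h1 := card_le_prod_piece hjk (cut_of_le (by omega) : Cut C k j)
    (fun a => 18 * if m a then 27 * (C + 1) ^ C else 1) (M := p) Z ?_ ?_
  · refine h1.trans ?_
    rw [prod_mul_distrib, prod_const, prod_ite, prod_const, prod_const_one, mul_one]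
    refine Nat.mul_le_mul (Nat.pow_le_pow_right (by norm_num) ?_) (Nat.pow_le_pow_right hX ?_)
    · refine le_trans (card_le_card fun a ha => ?_) (card_cut_le (by omega : 2 ≤ C) j)
      exact mem_filter.2 ⟨(mem_filter.1 ha).1, (mem_filter.1 ha).2.mono hjk⟩
    · rcases hk with rfl | rfl
      · refine le_trans (le_of_eq (card_eq_zero.2 (eq_empty_of_forall_notMem fun a ha => ?_)))
          (Nat.zero_le 2)
        obtain ⟨b, -, h4, h5⟩ := (mem_filter.1 ha).2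
        exact h5 h4
      · exact card_merge_le h3 j _ fun a ha => (mem_filter.1 ha).2
  · intro y hy
    obtain ⟨d', hd', -, -, rfl, -⟩ := hZ y hy
    exact tr_mem_Box fun i hi => (mem_Box.1 (mem_Pt.1 hd').1).1 i (by omega)
  · intro a b hp hb
    by_cases h4 : Piece C j a b
    · refine (pt3_same h hjk hp h4 γ r Z hZ _ fun w hw => mem_image.1 hw).trans ?_
      refine Nat.le_mul_of_pos_right _ ?_
      split_ifs
      · exact hX
      · exact Nat.one_pos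
    · have h5 : m a := ⟨b, hb, hp, h4⟩
      rw [if_pos h5]
      rcases hk with rfl | rfl
      · exact absurd hp h4
      · obtain ⟨v, μ, m1, m2, rfl, p1, p2⟩ := (hp.succ h3 hb).resolve_left h4
        exact (pt3_merge h hjk m1 m2 hp p1 p2 γ r Z hZ _ fun w hw => mem_image.1 hw).trans
          (Nat.le_mul_of_pos_left _ (by norm_num))

end Pool.Agent.P.MP_d5a1e1_nt.TB
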