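import Pool.Agent.P.MP_d5a1e1_nt.TBPt

/-! A crude bound for the number of solutions for arbitrary states. -/

namespace Pool.Agent.P.MP_d5a1e1_nt.TB

open Finset

variable {C : ℕ} {p : ℕ → ℕ} {Q : QFam}

/-- The even digits on `l` units from `a` on. -/
def evP5 (q a l : ℕ) (d : ℕ → ℕ) : ℕ → ZMod q :=
  fun i => if i < l then (d (2 * (a + i)) : ZMod q) else 0

theorem evP5_lt {q a l i : ℕ} (h : i < l) (d : ℕ → ℕ) :
    evP5 q a l d i = (d (2 * (a + i)) : ZMod q) := if_pos h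

theorem evP5_res (q a b : ℕ) (d : ℕ → ℕ) :
    evP5 q a (b - a) (res a b d) = evP5 q a (b - a) d := by
  funext i
  unfold evP5 res
  split_ifs with h1 h2
  · rfl
  · omega
  · rfl

theorem cast_injP5 {q x y : ℕ} (hx : x < q) (hy : y < q) (h : (x : ZMod q) = y) : x = y :=
  Nat.ModEq.eq_of_lt_of_lt ((ZMod.natCast_eq_natCast_iff x y q).1 h) hx hy

open Classical in
theorem AlgOK.classP5 (h : AlgOK C p Q) {k a b M : ℕ} (hp : Piece C k a b) (κ : Fin 3)
    (W : Finset (ℕ → ℕ)) (h1 : ∀ d ∈ W, d ∈ Box (2 * k) p ∧ OnQ Q (p a) a (b - a) κ d)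
    (h2 : Sep (b - a) (W.image (evP5 (p a) a (b - a))) →
      (W.image (evP5 (p a) a (b - a))).card ≤ M) : (W.image (res a b)).card ≤ M := by
  refine le_trans (card_le_card_of_injOn (evP5 (p a) a (b - a)) (fun y hy => ?_) ?_) (h2 ?_)
  · obtain ⟨d, hd, rfl⟩ := mem_image.1 (mem_coe.1 hy)
    rw [evP5_res]
    exact mem_coe.2 (mem_image_of_mem _ hd)
  · intro y hy y' hy' e
    obtain ⟨d, hd, rfl⟩ := mem_image.1 (mem_coe.1 hy)
    obtain ⟨d', hd', rfl⟩ := mem_image.1 (mem_coe.1 hy')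
    rw [evP5_res, evP5_res] at e
    have e1 : ∀ i < b - a, (d (2 * (a + i)) : ZMod (p a)) = d' (2 * (a + i)) := fun i hi => by
      rw [← evP5_lt hi, ← evP5_lt hi, e]
    funext i
    unfold res
    split_ifs with hi
    · have hk := hp.2.1
      have e2 : p (i / 2) = p a := h.p_eq hp (by omega) (by omega)
      have b1 := (mem_Box.1 (h1 d hd).1).1 i (by omega)
      have b2 := (mem_Box.1 (h1 d' hd').1).1 i (by omega)
      rw [e2] at b1 b2
      refine cast_injP5 b1 b2 ?_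
      obtain ⟨r, hr, e3 | e3⟩ : ∃ r, r < b - a ∧ (i = 2 * (a + r) ∨ i = 2 * (a + r) + 1) :=
        ⟨i / 2 - a, by omega, by omega⟩
      · rw [e3]
        exact e1 r hr
      · rw [e3, (h1 d hd).2 r hr, (h1 d' hd').2 r hr, (h.sys a).loc _ _ _ _ e1]
    · rfl
  · intro y hy y' hy' e
    obtain ⟨d, _, rfl⟩ := mem_image.1 hy
    obtain ⟨d', _, rfl⟩ := mem_image.1 hy'
    funext i
    by_cases hi : i < b - a
    · exact e i hi
    · simp only [evP5, hi, if_false]

theorem Piece.insideP5 {j k a b a' b' u : ℕ} (hk : j ≤ k) (hp : Piece C k a b)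
    (hp' : Piece C j a' b') (h1 : a ≤ u) (h2 : u < b) (h3 : a' ≤ u) (h4 : u < b') :
    a ≤ a' ∧ b' ≤ b :=
  ⟨not_lt.1 fun h => hp'.2.2.2.2 a h (by omega) (hp.2.2.1.mono hk),
    not_lt.1 fun h => hp'.2.2.2.2 b (by omega) h (hp.2.2.2.1.mono hk)⟩

open Classical in
theorem AlgOK.pieceP5 (h : AlgOK C p Q) {j k a b : ℕ} (hk : j ≤ k) (hp : Piece C k a b)
    (r : ℕ → ℕ) (Z : Finset (ℕ → ℕ))
    (hZ : ∀ d' ∈ Z, d' ∈ Pt C p Q k ∧ ∃ d ∈ Pt C p Q j,
      (∀ i < 2 * j, d i + d' i ≡ r i [MOD p (i / 2)]) ∧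
      ∀ u, j ≤ u → u < k → d' (2 * u + 1) = r (2 * u + 1)) :
    (Z.image (res a b)).card ≤ (9 * (k + 1)) ^ (b - a) := by
  have hab := hp.1
  have hbk := hp.2.1
  have hτ := hp.len_le (by have := h.three; omega)
  choose! st en hse using fun u (hu : u < j) => exists_piece (C := C) hu
  let cfg : (Fin (b - a) → Fin 3) → ℕ → Option (ℕ × ℕ × Fin 3) := fun κ i =>
    if a + i < j then some (st (a + i) - a, en (a + i) - st (a + i),
      if hi : st (a + i) - a < b - a then κ ⟨_, hi⟩ else 0) else none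
  let U : ℕ → ZMod (p a) := fun i => (r (2 * (a + i)) : ZMod (p a))
  let V : ℕ → ZMod (p a) := fun i => (r (2 * (a + i) + 1) : ZMod (p a))
  have hb : ∀ (c : Fin 3 × (Fin (b - a) → Fin 3)) (Y : Finset (ℕ → ZMod (p a))), Sep (b - a) Y →
      (∀ y ∈ Y, ∀ i < b - a,
        oldQ (Q (p a)) (cfg c.2) (U - y) i + Q (p a) (b - a) c.1 y i = V i) →
      Y.card ≤ (b - a + 1) ^ (b - a) := by
    intro c Y h1 h2
    by_cases hj : Piece C j a b
    · refine ((h.sys a).two (b - a) (by omega) hτ (c.2 ⟨0, by omega⟩) c.1 U V Y h1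
        fun y hy i hi => ?_).trans ?_
      · have e0 : a + i < j := by have := hj.2.1; omega
        obtain ⟨e1, e2, e3⟩ := hse _ e0
        obtain ⟨e4, e5⟩ := hj.unique e1 (by omega) (by omega) e2 e3
        have e6 := h2 y hy i hi
        simp only [oldQ, cfg, e0, if_true, ← e4, ← e5, Nat.sub_self, zero_add, Nat.sub_zero,
          dif_pos (show 0 < b - a by omega)] at e6
        exact e6
      · exact le_trans (by omega) (Nat.le_self_pow (by omega) _)
    · refine (h.sys a).crude (b - a) (by omega) hτ (cfg c.2) (fun i hi c' hc => ?_) c.1 U V Y h1 h2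
      by_cases e0 : a + i < j
      · obtain ⟨e1, e2, e3⟩ := hse _ e0
        obtain ⟨e4, e5⟩ := hp.insideP5 hk e1 (by omega) (by omega) e2 e3
        simp only [cfg, e0, if_true, Option.some.injEq] at hc
        subst hc
        have e6 : ¬(st (a + i) = a ∧ en (a + i) = b) := fun e => hj (e.1 ▸ e.2 ▸ e1)
        dsimp only
        omega
      · simp only [cfg, e0, if_false] at hc
        cases hc
  let W : Fin 3 × (Fin (b - a) → Fin 3) → Finset (ℕ → ℕ) := fun c => Z.filter fun d' =>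
    OnQ Q (p a) a (b - a) c.1 d' ∧ ∀ i < b - a,
      oldQ (Q (p a)) (cfg c.2) (U - evP5 (p a) a (b - a) d') i +
        Q (p a) (b - a) c.1 (evP5 (p a) a (b - a) d') i = V i
  have hW : ∀ d' ∈ Z, ∃ c, d' ∈ W c := by
    intro d' hd'
    obtain ⟨h1, d, h2, h3, h4⟩ := hZ d' hd'
    obtain ⟨κ', h5⟩ := (mem_Pt.1 h1).2 a b hp
    have h6 : ∀ a', ∃ κ, ∀ b', Piece C j a' b' → OnQ Q (p a') a' (b' - a') κ d := fun a' => by
      by_cases e : ∃ b', Piece C j a' b'
      · obtain ⟨b', e1⟩ := e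
        obtain ⟨κ, e2⟩ := (mem_Pt.1 h2).2 a' b' e1
        exact ⟨κ, fun b'' e3 => (e1.unique e3 le_rfl e1.1 le_rfl e3.1).2 ▸ e2⟩
      · exact ⟨0, fun b' e1 => absurd ⟨b', e1⟩ e⟩
    choose lab hlab using h6
    have h7 : ∀ i, 2 * a ≤ i → i < 2 * b → i < 2 * j →
        (d i : ZMod (p a)) + d' i = r i := fun i i1 i2 i3 => by
      have e := h3 i i3
      rw [h.p_eq hp (show a ≤ i / 2 by omega) (by omega)] at e
      rw [← Nat.cast_add]
      exact (ZMod.natCast_eq_natCast_iff _ _ _).2 e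
    refine ⟨(κ', fun i => lab (a + i)), mem_filter.2 ⟨hd', h5, fun i hi => ?_⟩⟩
    rw [(h.sys a).loc _ _ _ _ fun i hi => evP5_lt hi d', ← h5 i hi]
    by_cases e0 : a + i < j
    · obtain ⟨e1, e2, e3⟩ := hse _ e0
      obtain ⟨e4, e5⟩ := hp.insideP5 hk e1 (by omega) (by omega) e2 e3
      have e6 := e1.2.1
      have e7 := hlab _ _ e1
      rw [h.p_eq hp e4 (by omega)] at e7
      have e8 := e7 (a + i - st (a + i)) (by omega)
      simp only [oldQ, cfg, e0, if_true, dif_pos (show st (a + i) - a < b - a by omega)]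
      rw [show a + (st (a + i) - a) = st (a + i) by omega,
        show i - (st (a + i) - a) = a + i - st (a + i) by omega,
        (h.sys a).loc _ _ _ (fun t => (d (2 * (st (a + i) + t)) : ZMod (p a))) fun t ht => ?_,
        ← e8, show st (a + i) + (a + i - st (a + i)) = a + i by omega]
      · exact h7 _ (by omega) (by omega) (by omega)
      · rw [Pi.sub_apply, evP5_lt (by omega)]
        simp only [U]
        rw [show a + (st (a + i) - a + t) = st (a + i) + t by omega,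
          ← h7 _ (by omega) (by omega) (by omega), add_sub_cancel_right]
    · simp only [oldQ, cfg, e0, if_false, zero_add, V]
      rw [h4 _ (by omega) (by omega)]
  have h1 : Z.image (res a b) ⊆ univ.biUnion fun c => (W c).image (res a b) := fun y hy => by
    obtain ⟨d', hd', rfl⟩ := mem_image.1 hy
    obtain ⟨c, hc⟩ := hW d' hd'
    exact mem_biUnion.2 ⟨c, mem_univ _, mem_image_of_mem _ hc⟩
  have h2 : ∀ c ∈ (univ : Finset (Fin 3 × (Fin (b - a) → Fin 3))),
      ((W c).image (res a b)).card ≤ (b - a + 1) ^ (b - a) := fun c _ =>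
    h.classP5 hp c.1 (W c)
      (fun d hd => ⟨(mem_Pt.1 (hZ d (mem_filter.1 hd).1).1).1, (mem_filter.1 hd).2.1⟩)
      fun hs => hb c _ hs fun y hy => by
        obtain ⟨d, hd, rfl⟩ := mem_image.1 hy
        exact (mem_filter.1 hd).2.2
  refine (card_le_card h1).trans ((card_biUnion_le_card_mul _ _ _ h2).trans ?_)
  rw [card_univ, Fintype.card_prod, Fintype.card_fun, Fintype.card_fin, Fintype.card_fin, mul_pow]
  refine Nat.mul_le_mul ?_ (Nat.pow_le_pow_left (by omega) _)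
  rw [show (9 : ℕ) = 3 * 3 by norm_num, mul_pow]
  exact Nat.mul_le_mul_right _ (Nat.le_self_pow (by omega) 3)

/-- F5 -/
theorem AlgOK.far (h : AlgOK C p Q) {j k : ℕ} (hk : j ≤ k) (r : ℕ → ℕ) (Z : Finset (ℕ → ℕ))
    (hZ : ∀ d' ∈ Z, d' ∈ Pt C p Q k ∧ ∃ d ∈ Pt C p Q j,
      (∀ i < 2 * j, d i + d' i ≡ r i [MOD p (i / 2)]) ∧
      ∀ u, j ≤ u → u < k → d' (2 * u + 1) = r (2 * u + 1)) :
    Z.card ≤ (9 * (k + 1)) ^ k := by
  classical
  let I : ℕ → Finset ℕ := fun a => (range k).filter fun u => ∃ b, Piece C k a b ∧ a ≤ u ∧ u < b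
  refine (card_le_prod_piece (C := C) le_rfl (cut_of_le (Nat.le_succ k))
    (fun a => (9 * (k + 1)) ^ (I a).card) Z (fun d hd => (mem_Pt.1 (hZ d hd).1).1)
    fun a b hp hb => ?_).trans ?_
  · refine (h.pieceP5 hk hp r Z hZ).trans (Nat.pow_le_pow_right (by omega) ?_)
    rw [← Nat.card_Ico]
    refine card_le_card fun u hu => ?_
    obtain ⟨h1, h2⟩ := mem_Ico.1 hu
    exact mem_filter.2 ⟨mem_range.2 (by omega), b, hp, h1, h2⟩
  · rw [prod_pow_eq_pow_sum, ← card_biUnion]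
    · refine Nat.pow_le_pow_right (by omega) ((card_le_card ?_).trans (card_range k).le)
      exact biUnion_subset.2 fun a _ => filter_subset _ _
    · intro a _ a' _ hne
      refine disjoint_left.2 fun u h1 h2 => hne ?_
      obtain ⟨b, e1, e2, e3⟩ := (mem_filter.1 h1).2
      obtain ⟨b', e4, e5, e6⟩ := (mem_filter.1 h2).2
      exact (e1.unique e4 e2 e3 e5 e6).1

end Pool.Agent.P.MP_d5a1e1_nt.TB
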