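import Pool.Agent.P.MP_d5a1e1_nt.T2MassA

/-! Sizes and masses of the label sets. -/

namespace Pool.Agent.P.MP_d5a1e1_nt.T2

open Finset TB

-- PART a
theorem mem_XX {k : ℕ} {x : ℕ → ℕ} : x ∈ XX k ↔
    (∀ i < 2 * k, x i ≤ Ru (i / 2)) ∧ (∀ i, 2 * k ≤ i → x i = 0) ∧ ∀ g, gsum (2 * k) g x ≤ RR g := by
  classical
  rw [XX, mem_filter, mem_Box, and_assoc]
  simp only [Nat.lt_succ_iff]
theorem mem_SS {k : ℕ} {y : ℕ → ℕ} : y ∈ SS k ↔
    y ∈ Box (2 * k) DD ∧ ∀ g, gsum (2 * k) g y ≤ 2 * RR g + 4 * TT g := by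
  classical
  rw [SS, mem_filter]
theorem ff_pos (k : ℕ) (x : ℕ → ℕ) : 0 < ff k x := prod_pos fun _ _ => cw_pos _
theorem ff_le_one (k : ℕ) (x : ℕ → ℕ) : ff k x ≤ 1 :=
  prod_le_one (fun _ _ => (cw_pos _).le) fun _ _ => cw_le_one _
theorem tr_mem_SS {j k : ℕ} (h : j ≤ k) {y : ℕ → ℕ} (hy : y ∈ SS k) : tr (2 * j) y ∈ SS j :=
  mem_SS.2 ⟨tr_mem_Box fun i hi => (mem_Box.1 (mem_SS.1 hy).1).1 i (by omega),
    (Lab.mem_Xs.1 (Lab.tr_mem_Xs (by omega) (SS_subset k hy))).2⟩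
theorem tr_mem_XX {j k : ℕ} (h : j ≤ k) {x : ℕ → ℕ} (hx : x ∈ XX k) : tr (2 * j) x ∈ XX j := by
  rw [XX_eq] at hx ⊢
  exact Lab.tr_mem_Xs (by omega) hx
theorem T2MassB_DD (u : ℕ) : Ru u + 1 ≤ DD u := by
  have := Ru_pos u
  rw [DD]
  omega
theorem card_XX_le (k : ℕ) : (XX k).card ≤ Del k ^ 2 := by
  rw [← card_Gam]
  exact card_le_card fun x hx => mem_Box.2 ⟨fun i hi =>
    (Nat.lt_succ_of_le ((mem_XX.1 hx).1 i hi)).trans_le (T2MassB_DD _), (mem_XX.1 hx).2.1⟩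
theorem T2MassB_gr (k : ℕ) : ∀ u < k, gr u ∈ range (gr k + 1) := fun _ hu =>
  mem_range.2 (Nat.lt_succ_of_le (gr_mono hu.le))
theorem ph_eq (k : ℕ) : ph k = ∏ g ∈ range (gr k + 1),
    ((RR g + #{u ∈ range k | gr u = g}).choose (#{u ∈ range k | gr u = g}) : ℝ) := by
  rw [ph_eq_phi]
  exact Lab.phi_eq _ (T2MassB_gr k)
theorem one_le_ph (k : ℕ) : 1 ≤ ph k := by
  rw [ph_eq_phi]
  exact Lab.one_le_phi k
theorem ph_le (k : ℕ) : ph k ≤ Del k := by
  rw [ph_eq_phi, Del, Nat.cast_prod]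
  refine (Lab.phi_le k).trans (prod_le_prod (fun _ _ => by positivity) fun u _ => ?_)
  exact_mod_cast T2MassB_DD u
theorem ph_succ (k : ℕ) : DD k * ph k ≤ 16 * (k + 1) * ph (k + 1) := by
  have := Lab.le_phi_succ (gr := gr) (R := RR) k
  rw [ph_eq_phi, ph_eq_phi, DD, Ru]
  push_cast
  linarith
theorem card_SS_rat (k : ℕ) : ((SS k).card : ℝ) ≤ rat k * ph k ^ 2 := by
  have hT : ∀ g, 1 ≤ TT g := fun g => by
    have := TT_ge g
    have := Nat.one_le_two_pow (n := g)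
    omega
  have h1 := Lab.card_double_le (R := RR) (T := TT) _ (T2MassB_gr k)
    (fun g => ((if g = gr k then tau k else TT g : ℕ) : ℝ)) TT_sq_le RR_pos (card_group k)
    (fun g _ => Nat.cast_le.2 (by
      split_ifs
      · exact (Lab.ucnt_le k g).trans (lt_tau k).le
      · exact card_group k g))
    (fun g _ => Nat.one_le_cast.2 (by
      split_ifs
      · exact Nat.succ_le_of_lt ((Nat.zero_le k).trans_lt (lt_tau k))
      · exact hT g))
  rw [ph_eq_phi]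
  refine le_trans (Nat.cast_le.2 (card_le_card (SS_subset k))) (h1.trans
    (mul_le_mul_of_nonneg_right ?_ (sq_nonneg _)))
  refine (pow_le_pow_iff_left₀ (prod_nonneg fun _ _ => by positivity) (Nat.cast_nonneg _)
    two_ne_zero).1 ?_
  rw [← prod_pow, prod_congr rfl fun g _ => by rw [mul_pow, Real.sq_sqrt (Nat.cast_nonneg _)],
    prod_mul_distrib, prod_const, card_range, prod_range_succ, if_pos rfl,
    prod_congr rfl fun g hg => by rw [if_neg (mem_range.1 hg).ne]]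
  have h2 : (4 ^ 2) ^ (gr k + 1) ≤ yy k ^ 4 := by
    rw [yy, pow_right_comm 2]
    exact Nat.pow_le_pow_right (n := 16) (by norm_num) (gr_lt k)
  have h3 : (4 ^ 2) ^ (gr k + 1) * ((∏ g ∈ range (gr k), TT g) * tau k) ≤ rat k ^ 2 := by
    refine (Nat.mul_le_mul h2 (Nat.mul_le_mul_right _ (prod_TT_le k))).trans (le_of_eq ?_)
    rw [tau_eq, rat, ← pow_mul, ← pow_mul, ← pow_add, ← pow_add]
  exact_mod_cast h3
theorem card_SS_small (k : ℕ) : (SS k).card * 16 ^ (2 * k) ≤ 3 ^ (2 * k) * Del k ^ 2 := by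
  have h1 : SS k ⊆ Box (2 * k) fun u => 3 * Ru u := fun y hy =>
    mem_Box.2 ⟨fun i _ => by
      have h2 := Lab.le_of_mem_Xs (SS_subset k hy) i
      have h3 := TT_lt (gr (i / 2))
      rw [Ru]
      omega, (mem_Box.1 (mem_SS.1 hy).1).2⟩
  refine (Nat.mul_le_mul_right _ (card_le_card h1)).trans (le_of_eq ?_)
  rw [← card_Gam, card_Box, card_Box]
  simp only [DD, prod_mul_distrib, prod_const, card_range]
  ring
theorem mm_ge (k : ℕ) : (lam k : ℝ) * Del k ≤ mm k * ph k :=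
  (div_le_iff₀ (one_pos.trans_le (one_le_ph k))).1 (Nat.le_ceil _)
theorem T2MassB_lam (k : ℕ) : 2 ≤ lam k := (yy_ge k).trans (Nat.le_self_pow (by norm_num) _)
theorem mm_le (k : ℕ) : mm k * ph k ≤ 2 * (lam k : ℝ) * Del k := by
  have h0 := one_pos.trans_le (one_le_ph k)
  have h1 : (mm k : ℝ) ≤ (lam k : ℝ) * Del k / ph k + 1 := (Nat.ceil_lt_add_one (by positivity)).le
  have h2 : (2 : ℝ) ≤ lam k := by exact_mod_cast T2MassB_lam k
  have h3 := ph_le k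
  have h4 := mul_le_mul_of_nonneg_right h1 h0.le
  rw [add_mul, div_mul_cancel₀ _ h0.ne'] at h4
  nlinarith
theorem mm_two (k : ℕ) : 2 ≤ mm k := by
  have h0 : (0 : ℝ) < Del k := by exact_mod_cast Del_pos k
  have h1 := (mm_ge k).trans (mul_le_mul_of_nonneg_left (ph_le k) (Nat.cast_nonneg _))
  exact (T2MassB_lam k).trans (Nat.cast_le.1 (le_of_mul_le_mul_right h1 h0))
theorem T2MassB_mm {k : ℕ} (hk : k0 ≤ k) : mm k * rho k ≤ Del k ^ 2 := by
  have h1 : mm k ≤ 2 * lam k * Del k := by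
    have := (le_mul_of_one_le_right (Nat.cast_nonneg _) (one_le_ph k)).trans (mm_le k)
    exact_mod_cast this
  have h2 : 2 ≤ k := (yy_ge k).trans ((Nat.le_self_pow (by norm_num) _).trans (yy_le hk))
  obtain ⟨m, rfl⟩ : ∃ m, k = m + 1 := ⟨k - 1, by omega⟩
  have h3 : yy (m + 1) ≤ yy m ^ 2 := ((yy_mono (Nat.le_succ _)).trans (yy_add_two (by omega))).trans
    (by rw [sq]; exact Nat.mul_le_mul_right _ (yy_ge m))
  have h4 : lam (m + 1) * rho (m + 1) ≤ Ru m := by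
    rw [lam, rho, ← pow_add]
    refine (Nat.pow_le_pow_left h3 _).trans (le_trans ?_ (Ru_ge m))
    rw [← pow_mul]
    exact Nat.pow_le_pow_right (by have := yy_ge m; omega) (by norm_num)
  have h5 : 2 * (lam (m + 1) * rho (m + 1)) ≤ Del (m + 1) := by
    rw [Del_succ]
    refine le_trans ?_ (Nat.le_mul_of_pos_left _ (Del_pos m))
    rw [DD]
    omega
  calc _ ≤ 2 * lam (m + 1) * Del (m + 1) * rho (m + 1) := Nat.mul_le_mul_right _ h1
    _ = 2 * (lam (m + 1) * rho (m + 1)) * Del (m + 1) := by ring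
    _ ≤ _ := by rw [sq]; exact Nat.mul_le_mul_right _ h5
theorem mm_XX_le {k : ℕ} (hk : k0 ≤ k) : mm k * (XX k).card * rho k ≤ 2 ^ yy k ^ 401 := by
  rw [mul_right_comm]
  refine (Nat.mul_le_mul (T2MassB_mm hk) (card_XX_le k)).trans ?_
  rw [← pow_add]
  exact Del_le hk
theorem mm_le_pow {k : ℕ} (hk : k0 ≤ k) : mm k ≤ 2 ^ yy k ^ 401 :=
  (Nat.le_mul_of_pos_right _ (pow_pos (by have := yy_ge k; omega) _)).trans
    ((T2MassB_mm hk).trans ((Nat.pow_le_pow_right (Del_pos k) (by norm_num)).trans (Del_le hk)))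
-- PART b
theorem small_sum (k : ℕ) :
    ∑ x ∈ XX k, ff k x * 3 ^ #{i ∈ range (2 * k) | x i ≤ 1} ≤ 3 / 2 * ph k := by
  have h := Lab.sum_cw3_le (n := 2 * k) (gr := gr) (R := RR) TT_ge (fun _ => le_rfl) fun g => by
    rw [Lab.gcnt_two_mul]
    exact Nat.mul_le_mul_left 2 (card_group k g)
  rw [ph_eq_phi, XX_eq, ff_eq]
  refine le_trans (le_of_eq (sum_congr rfl fun x _ => ?_)) h
  rw [← prod_const, prod_filter, Lab.fw, ← prod_mul_distrib]
  rfl

end Pool.Agent.P.MP_d5a1e1_nt.T2
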