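import Pool.Agent.P.MP_d5a1e1_nt.T2G1
import Pool.Agent.P.MP_d5a1e1_nt.T2MassB

/-! The convolution weight. -/

namespace Pool.Agent.P.MP_d5a1e1_nt.T2

open Finset TB

-- PART a
-- PART b
theorem mem_SS_of_sum {j k : ℕ} (hjk : j ≤ k) {x x' y : ℕ → ℕ} (hx : x ∈ XX j) (hx' : x' ∈ XX k)
    (hy : y ∈ Box (2 * j) DD) (h : ∀ i < 2 * j, y i ≤ x i + x' i + 2) : y ∈ SS j := by
  refine mem_SS.2 ⟨hy, fun g => ?_⟩
  have h1 := (mem_XX.1 hx).2.2 g
  have h2 : gsum (2 * j) g x' ≤ RR g :=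
    (Lab.gsum_mono (gr := gr) (by omega) g x').trans ((mem_XX.1 hx').2.2 g)
  have h3 := card_group j g
  have h4 : gsum (2 * j) g y ≤ ∑ i ∈ range (2 * j) with gr (i / 2) = g, (x i + x' i + 2) :=
    sum_le_sum fun i hi => h i (mem_range.1 (mem_filter.1 hi).1)
  rw [sum_add_distrib, sum_add_distrib, sum_const, card_group_digit, smul_eq_mul] at h4
  unfold gsum at h1 h2
  omega
theorem Gp_supp {j k : ℕ} (hjk : j ≤ k) {y : ℕ → ℕ} (hy : y ∈ Box (2 * j) DD)
    (h : Gp j k y ≠ 0) : y ∈ SS j := by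
  obtain ⟨x, hx, h1⟩ := exists_ne_zero_of_sum_ne_zero h
  obtain ⟨x', hx', h2⟩ := exists_ne_zero_of_sum_ne_zero h1
  refine mem_SS_of_sum hjk hx hx' hy fun i hi => ?_
  have : x i + x' i = y i - 2 := (ite_ne_right_iff.1 h2).1 i hi
  omega
theorem T2G_card (n : ℕ) (N x x' : ℕ → ℕ) (Z : Finset (ℕ → ℕ))
    (h : ∀ y ∈ Z, y ∈ Box n N ∧ ∀ i < n, x i + x' i = y i - 2) :
    Z.card ≤ 3 ^ #{i ∈ range n | x i ≤ 1} := by
  refine (card_le_card_of_injOn (t := Fintype.piFinset fun i : Fin n =>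
    if x i ≤ 1 then Icc (x i + x' i) (x i + x' i + 2) else {x i + x' i + 2})
    (fun (y : ℕ → ℕ) (i : Fin n) => y i) (fun y hy => ?_) fun y hy y' hy' e => ?_).trans ?_
  · refine mem_coe.2 (Fintype.mem_piFinset.2 fun i => ?_)
    have := (h y hy).2 i i.2
    beta_reduce
    split_ifs
    · exact mem_Icc.2 (by omega)
    · exact mem_singleton.2 (by omega)
  · exact Box_ext (h y hy).1 (h y' hy').1 fun i hi => congrFun e ⟨i, hi⟩
  · rw [Fintype.card_piFinset, ← prod_const, prod_filter,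
      ← Fin.prod_univ_eq_prod_range fun i => if x i ≤ 1 then 3 else 1]
    refine le_of_eq (prod_congr rfl fun i _ => ?_)
    split_ifs
    · rw [Nat.card_Icc]
      omega
    · rfl
theorem Gp_sum {j k : ℕ} (hjk : j ≤ k) :
    ∑ y ∈ Box (2 * j) DD, Gp j k y ≤ 3 / 2 * ph j * ph k := by
  classical
  refine le_trans ?_ (mul_le_mul_of_nonneg_right (small_sum j) (zero_le_one.trans (one_le_ph k)))
  simp only [Gp, GG]
  rw [sum_comm, sum_mul]
  refine sum_le_sum fun x _ => ?_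
  rw [sum_comm, ph, mul_sum]
  refine sum_le_sum fun x' _ => ?_
  rw [← sum_filter, sum_const, nsmul_eq_mul, mul_right_comm, mul_comm]
  refine mul_le_mul_of_nonneg_left ?_ (mul_pos (ff_pos _ _) (ff_pos _ _)).le
  exact_mod_cast T2G_card _ DD x x' _ fun y hy => mem_filter.1 hy
theorem Gm_nonneg (k : ℕ) (y : ℕ → ℕ) : 0 ≤ Gm k y := by
  unfold Gm
  split_ifs
  · exact GG_nonneg _ _ _
  · exact le_rfl
theorem Gm_le_Gp (k : ℕ) (y : ℕ → ℕ) : Gm k y ≤ Gp k k y := by
  unfold Gm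
  split_ifs
  · exact GG_anti le_rfl fun i _ => Nat.sub_le _ _
  · exact GG_nonneg _ _ _
theorem Gm_sum (k : ℕ) : 3 / 4 * ph k ^ 2 ≤ ∑ y ∈ Box (2 * k) DD, Gm k y := by
  classical
  have h1 : 3 / 4 * ph k ≤ ∑ x ∈ XX k, if ∀ i < 2 * k, 2 ≤ x i then ff k x else 0 := by
    have h2 := small_sum k
    have h3 : ∑ x ∈ XX k, (3 / 2 * ff k x - 1 / 2 * (ff k x * 3 ^ #{i ∈ range (2 * k) | x i ≤ 1})) ≤
        ∑ x ∈ XX k, if ∀ i < 2 * k, 2 ≤ x i then ff k x else 0 := by
      refine sum_le_sum fun x _ => ?_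
      have h4 := ff_pos k x
      split_ifs with h
      · have := one_le_pow₀ (n := #{i ∈ range (2 * k) | x i ≤ 1}) (show (1 : ℝ) ≤ 3 by norm_num)
        nlinarith
      · push Not at h
        obtain ⟨i, hi, h⟩ := h
        have := le_self_pow₀ (show (1 : ℝ) ≤ 3 by norm_num) (card_pos.2
          ⟨i, mem_filter.2 ⟨mem_range.2 hi, show x i ≤ 1 by omega⟩⟩ :
            0 < #{i ∈ range (2 * k) | x i ≤ 1}).ne'
        nlinarith
    rw [sum_sub_distrib, ← mul_sum, ← mul_sum, ← ph] at h3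
    linarith
  have h5 : ∀ y, (∑ x ∈ XX k, ∑ x' ∈ XX k, if x + x' = y then
      (if ∀ i < 2 * k, 2 ≤ x i then ff k x else 0) * ff k x' else 0) ≤ Gm k y := fun y => by
    unfold Gm GG
    split_ifs with h
    · refine sum_le_sum fun x _ => sum_le_sum fun x' _ => ?_
      have h6 := mul_pos (ff_pos k x) (ff_pos k x')
      by_cases e : x + x' = y
      · rw [if_pos e, if_pos (show ∀ i < 2 * k, x i + x' i = y i from fun i _ => congrFun e i)]
        split_ifs
        · exact le_rfl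
        · linarith
      · rw [if_neg e]
        split_ifs
        · exact h6.le
        · exact le_rfl
    · refine le_of_eq (sum_eq_zero fun x _ => sum_eq_zero fun x' _ => ?_)
      split_ifs with e h7
      · exact absurd (fun i hi => (h7 i hi).trans (e ▸ Nat.le_add_right _ _)) h
      · exact zero_mul _
      · rfl
  refine le_trans ?_ (sum_le_sum fun y _ => h5 y)
  rw [sq, ← mul_assoc, sum_comm]
  refine (mul_le_mul_of_nonneg_right h1 (zero_le_one.trans (one_le_ph k))).trans (le_of_eq ?_)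
  rw [sum_mul]
  refine sum_congr rfl fun x hx => ?_
  rw [sum_comm, ph, mul_sum]
  refine sum_congr rfl fun x' hx' => ?_
  rw [sum_ite_eq (Box (2 * k) DD), if_pos (mem_Box.2 ⟨fun i hi => ?_, fun i hi => ?_⟩)]
  · have := (mem_XX.1 hx).1 i hi
    have := (mem_XX.1 hx').1 i hi
    have := Ru_pos (i / 2)
    rw [Pi.add_apply, DD]
    omega
  · rw [Pi.add_apply, (mem_XX.1 hx).2.1 i hi, (mem_XX.1 hx').2.1 i hi]

end Pool.Agent.P.MP_d5a1e1_nt.T2
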