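import Pool.Agent.P.MP_d5a1e1_nt.T2Par
import Pool.Agent.P.MP_d5a1e1_nt.T2Cw

/-! The convolution weight: monotonicity and upper bounds. -/

namespace Pool.Agent.P.MP_d5a1e1_nt.T2

open Finset TB

theorem T2G1_mem {k : ℕ} {x : ℕ → ℕ} : x ∈ XX k ↔
    (∀ i < 2 * k, x i ≤ Ru (i / 2)) ∧ (∀ i, 2 * k ≤ i → x i = 0) ∧
      ∀ g, gsum (2 * k) g x ≤ RR g := by
  classical
  rw [XX, mem_filter, mem_Box]
  simp only [Nat.lt_succ_iff, and_assoc]

theorem T2G1_down {k : ℕ} {x y : ℕ → ℕ} (hy : y ∈ XX k) (h : ∀ i, x i ≤ y i) : x ∈ XX k := by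
  obtain ⟨h1, h2, h3⟩ := T2G1_mem.1 hy
  refine T2G1_mem.2 ⟨fun i hi => (h i).trans (h1 i hi),
    fun i hi => Nat.le_zero.1 ((h i).trans (h2 i hi).le), fun g => le_trans ?_ (h3 g)⟩
  exact sum_le_sum fun i _ => h i

theorem T2G1_ff_pos (k : ℕ) (x : ℕ → ℕ) : 0 < ff k x := prod_pos fun _ _ => cw_pos _

theorem T2G1_ff_update {k i : ℕ} (hi : i < 2 * k) (x : ℕ → ℕ) (a : ℕ) :
    ff k (Function.update x i a) = cw a * ∏ s ∈ (range (2 * k)).erase i, cw (x s) := by
  rw [ff, ← mul_prod_erase _ _ (mem_range.2 hi), Function.update_self]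
  congr 1
  exact prod_congr rfl fun s hs => by rw [Function.update_of_ne (mem_erase.1 hs).1]

/-- Lowering one digit of a label. -/
theorem T2G1_lower {k i : ℕ} (hi : i < 2 * k) (F : (ℕ → ℕ) → ℝ) (hF : ∀ x, 0 ≤ F x) :
    ∑ x ∈ XX k, (x i : ℝ) * ff k x * F x ≤
      ∑ x ∈ XX k, ((x i : ℝ) + 1 / 2) * ff k x * F (Function.update x i (x i + 1)) := by
  classical
  have hnn : ∀ x : ℕ → ℕ,
      0 ≤ ((x i : ℝ) + 1 / 2) * ff k x * F (Function.update x i (x i + 1)) := fun x =>
    mul_nonneg (mul_nonneg (by positivity) (T2G1_ff_pos k x).le) (hF _)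
  rw [← sum_filter_add_sum_filter_not (XX k) fun x => x i = 0]
  rw [sum_eq_zero (s := (XX k).filter fun x => x i = 0) fun x hx => by
    rw [(mem_filter.1 hx).2]; simp, zero_add]
  have hinj : Set.InjOn (fun x : ℕ → ℕ => Function.update x i (x i - 1))
      ((XX k).filter fun x => ¬ x i = 0 : Finset (ℕ → ℕ)) := by
    intro x hx y hy h
    have hx' := (mem_filter.1 (mem_coe.1 hx)).2
    have hy' := (mem_filter.1 (mem_coe.1 hy)).2
    funext s
    have hs := congrFun h s
    by_cases e : s = i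
    · subst e
      simp only [Function.update_self] at hs
      omega
    · simpa only [Function.update_of_ne e] using hs
  calc ∑ x ∈ (XX k).filter fun x => ¬ x i = 0, (x i : ℝ) * ff k x * F x
      = ∑ x ∈ (XX k).filter fun x => ¬ x i = 0,
          (fun z : ℕ → ℕ => ((z i : ℝ) + 1 / 2) * ff k z * F (Function.update z i (z i + 1)))
            (Function.update x i (x i - 1)) := by
        refine sum_congr rfl fun x hx => ?_
        obtain ⟨a, ha⟩ := Nat.exists_eq_succ_of_ne_zero (mem_filter.1 hx).2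
        have e1 : ff k x = cw (a + 1) * ∏ s ∈ (range (2 * k)).erase i, cw (x s) := by
          rw [← T2G1_ff_update hi x (a + 1), ← Nat.succ_eq_add_one, ← ha, Function.update_eq_self]
        have e2 : Function.update x i (a + 1) = x := by
          rw [← Nat.succ_eq_add_one, ← ha, Function.update_eq_self]
        simp only [Function.update_self, Function.update_idem, ha, Nat.succ_eq_add_one,
          Nat.add_sub_cancel]
        rw [T2G1_ff_update hi x a, e2, e1]
        have := cw_succ a
        push_cast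
        linear_combination (∏ s ∈ (range (2 * k)).erase i, cw (x s)) * F x * this
    _ = ∑ z ∈ ((XX k).filter fun x => ¬ x i = 0).image
          fun x : ℕ → ℕ => Function.update x i (x i - 1),
          ((z i : ℝ) + 1 / 2) * ff k z * F (Function.update z i (z i + 1)) :=
        (sum_image (f := fun z : ℕ → ℕ =>
          ((z i : ℝ) + 1 / 2) * ff k z * F (Function.update z i (z i + 1))) hinj).symm
    _ ≤ _ := by
        refine sum_le_sum_of_subset_of_nonneg (fun z hz => ?_) fun z _ _ => hnn z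
        obtain ⟨x, hx, rfl⟩ := mem_image.1 hz
        refine T2G1_down (mem_filter.1 hx).1 fun s => ?_
        by_cases e : s = i
        · subst e
          simp
        · rw [Function.update_of_ne e]

-- PART a
theorem GG_nonneg (j k : ℕ) (y : ℕ → ℕ) : 0 ≤ GG j k y := by
  classical
  refine sum_nonneg fun x _ => sum_nonneg fun x' _ => ?_
  split_ifs
  · exact (mul_pos (T2G1_ff_pos _ _) (T2G1_ff_pos _ _)).le
  · exact le_rfl

theorem GG_congr (j k : ℕ) {y y' : ℕ → ℕ} (h : ∀ i < 2 * j, y i = y' i) :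
    GG j k y = GG j k y' := by
  classical
  refine sum_congr rfl fun x _ => sum_congr rfl fun x' _ => if_congr ?_ rfl rfl
  exact forall₂_congr fun i hi => by rw [h i hi]

theorem T2G1_step {j k i : ℕ} (hjk : j ≤ k) (hi : i < 2 * j) (y : ℕ → ℕ) :
    GG j k (Function.update y i (y i + 1)) ≤ GG j k y := by
  classical
  set y' := Function.update y i (y i + 1) with hy'
  have hik : i < 2 * k := by omega
  have key : ∀ x x' : ℕ → ℕ,
      ((∀ s < 2 * j, Function.update x i (x i + 1) s + x' s = y' s) ↔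
        ∀ s < 2 * j, x s + x' s = y s) ∧
      ((∀ s < 2 * j, x s + Function.update x' i (x' i + 1) s = y' s) ↔
        ∀ s < 2 * j, x s + x' s = y s) := by
    intro x x'
    constructor <;>
    · refine forall₂_congr fun s _ => ?_
      by_cases e : s = i
      · subst e
        simp only [hy', Function.update_self]
        omega
      · simp only [hy', Function.update_of_ne e]
  have hA := T2G1_lower hi
    (fun x => ∑ x' ∈ XX k, if ∀ s < 2 * j, x s + x' s = y' s then ff k x' else 0)
    fun x => sum_nonneg fun x' _ => by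
      split_ifs
      · exact (T2G1_ff_pos _ _).le
      · exact le_rfl
  have hB := T2G1_lower hik
    (fun x' => ∑ x ∈ XX j, if ∀ s < 2 * j, x s + x' s = y' s then ff j x else 0)
    fun x => sum_nonneg fun x' _ => by
      split_ifs
      · exact (T2G1_ff_pos _ _).le
      · exact le_rfl
  simp only [(key _ _).1, mul_sum] at hA
  simp only [(key _ _).2, mul_sum] at hB
  rw [sum_comm, sum_comm (s := XX k)] at hB
  have e1 : ((y i : ℝ) + 1) * GG j k y' =
      (∑ x ∈ XX j, ∑ x' ∈ XX k,
        (x i : ℝ) * ff j x * if ∀ s < 2 * j, x s + x' s = y' s then ff k x' else 0) +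
      ∑ x ∈ XX j, ∑ x' ∈ XX k,
        (x' i : ℝ) * ff k x' * if ∀ s < 2 * j, x s + x' s = y' s then ff j x else 0 := by
    rw [GG, mul_sum, ← sum_add_distrib]
    refine sum_congr rfl fun x _ => ?_
    rw [mul_sum, ← sum_add_distrib]
    refine sum_congr rfl fun x' _ => ?_
    split_ifs with h
    · have h1 := h i hi
      rw [hy', Function.update_self] at h1
      have h2 : (x i : ℝ) + x' i = y i + 1 := by exact_mod_cast h1
      rw [← h2]
      ring
    · simp
  have e2 : ((y i : ℝ) + 1) * GG j k y =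
      (∑ x ∈ XX j, ∑ x' ∈ XX k,
        ((x i : ℝ) + 1 / 2) * ff j x * if ∀ s < 2 * j, x s + x' s = y s then ff k x' else 0) +
      ∑ x ∈ XX j, ∑ x' ∈ XX k,
        ((x' i : ℝ) + 1 / 2) * ff k x' *
          if ∀ s < 2 * j, x s + x' s = y s then ff j x else 0 := by
    rw [GG, mul_sum, ← sum_add_distrib]
    refine sum_congr rfl fun x _ => ?_
    rw [mul_sum, ← sum_add_distrib]
    refine sum_congr rfl fun x' _ => ?_
    split_ifs with h
    · have h2 : (x i : ℝ) + x' i = y i := by exact_mod_cast h i hi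
      rw [← h2]
      ring
    · simp
  have hpos : (0 : ℝ) < (y i : ℝ) + 1 := by positivity
  refine le_of_mul_le_mul_left ?_ hpos
  rw [e1, e2]
  exact add_le_add hA hB

theorem GG_anti {j k : ℕ} (hjk : j ≤ k) {y y' : ℕ → ℕ} (h : ∀ i < 2 * j, y i ≤ y' i) :
    GG j k y' ≤ GG j k y := by
  induction hn : ∑ i ∈ range (2 * j), (y' i - y i) generalizing y with
  | zero =>
    refine (GG_congr j k fun i hi => ?_).le
    have h1 := sum_eq_zero_iff.1 hn i (mem_range.2 hi)
    have h2 := h i hi
    omega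
  | succ n ih =>
    obtain ⟨i, hi, hlt⟩ := exists_ne_zero_of_sum_ne_zero (by rw [hn]; omega :
      ∑ i ∈ range (2 * j), (y' i - y i) ≠ 0)
    refine le_trans (ih (y := Function.update y i (y i + 1)) (fun s hs => ?_) ?_)
      (T2G1_step hjk (mem_range.1 hi) y)
    · by_cases e : s = i
      · subst e
        rw [Function.update_self]
        omega
      · rw [Function.update_of_ne e]
        exact h s hs
    · rw [← add_sum_erase _ _ hi] at hn ⊢
      rw [Function.update_self, sum_congr rfl fun s hs => by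
        rw [Function.update_of_ne (mem_erase.1 hs).1]]
      omega

theorem T2G1_zero (j k : ℕ) :
    GG j k (fun _ => 0) ≤ ∑ x' ∈ XX k with ∀ i < 2 * j, x' i = 0, ff k x' := by
  classical
  rw [GG, sum_comm, sum_filter]
  refine sum_le_sum fun x' _ => ?_
  have h0 : ff j (fun _ => 0) = 1 := prod_eq_one fun _ _ => cw_zero
  split_ifs with h
  · refine le_trans (sum_le_sum (g := fun x => if x = fun _ => 0 then ff k x' else 0)
      fun x hx => ?_) ?_
    · split_ifs with h1 h2 h2
      · rw [h2, h0, one_mul]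
      · refine absurd (funext fun s => ?_) h2
        by_cases e : s < 2 * j
        · have := h1 s e
          omega
        · exact (T2G1_mem.1 hx).2.1 s (by omega)
      · exact (T2G1_ff_pos _ _).le
      · exact le_rfl
    · rw [sum_ite_eq']
      split_ifs
      · exact le_rfl
      · exact (T2G1_ff_pos _ _).le
  · refine (sum_eq_zero fun x _ => if_neg fun h1 => h fun s hs => ?_).le
    have := h1 s hs
    omega

theorem GG_le_one (k : ℕ) (y : ℕ → ℕ) : GG k k y ≤ 1 := by
  classical
  refine (GG_anti le_rfl fun _ _ => Nat.zero_le _).trans ((T2G1_zero k k).trans ?_)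
  have h0 : ff k (fun _ => 0) = 1 := prod_eq_one fun _ _ => cw_zero
  refine le_trans (sum_le_sum_of_subset_of_nonneg (t := {fun _ => 0}) (fun x hx => ?_)
    fun x _ _ => (T2G1_ff_pos _ _).le) (by rw [sum_singleton, h0])
  obtain ⟨h1, h2⟩ := mem_filter.1 hx
  refine mem_singleton.2 (funext fun s => ?_)
  by_cases e : s < 2 * k
  · exact h2 s e
  · exact (T2G1_mem.1 h1).2.1 s (by omega)

theorem T2G1_sum_cw (n : ℕ) : ∑ a ∈ range n, cw a ≤ 2 * √n := by
  refine le_trans (sum_le_sum fun a _ => ?_) (sum_inv_sqrt n)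
  have h1 := cw_sq_le a
  have h2 := cw_pos a
  have h3 : (0 : ℝ) < (a : ℝ) + 1 := by positivity
  rw [le_div_iff₀ (Real.sqrt_pos.2 h3)]
  refine abs_le_of_sq_le_sq' ?_ zero_le_one |>.2
  rw [mul_pow, Real.sq_sqrt h3.le]
  have h4 : (0 : ℝ) ≤ a := Nat.cast_nonneg a
  nlinarith [sq_nonneg (cw a)]

theorem GG_le_D (j : ℕ) (y : ℕ → ℕ) : GG j (j + 1) y ≤ DD j := by
  classical
  refine (GG_anti (Nat.le_succ j) fun _ _ => Nat.zero_le _).trans
    ((T2G1_zero j (j + 1)).trans ?_)
  have hinj : Set.InjOn (fun x : ℕ → ℕ => (x (2 * j), x (2 * j + 1)))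
      ((XX (j + 1)).filter fun x' => ∀ i < 2 * j, x' i = 0 : Finset (ℕ → ℕ)) := by
    intro x hx x' hx' h
    obtain ⟨h1, h2⟩ := mem_filter.1 (mem_coe.1 hx)
    obtain ⟨h3, h4⟩ := mem_filter.1 (mem_coe.1 hx')
    obtain ⟨h5, h6⟩ := Prod.mk.inj h
    funext s
    by_cases e : s < 2 * j
    · rw [h2 s e, h4 s e]
    · by_cases e1 : s = 2 * j
      · rw [e1, h5]
      · by_cases e2 : s = 2 * j + 1
        · rw [e2, h6]
        · rw [(T2G1_mem.1 h1).2.1 s (by omega), (T2G1_mem.1 h3).2.1 s (by omega)]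
  calc ∑ x' ∈ XX (j + 1) with ∀ i < 2 * j, x' i = 0, ff (j + 1) x'
      = ∑ x' ∈ XX (j + 1) with ∀ i < 2 * j, x' i = 0,
          (fun q : ℕ × ℕ => cw q.1 * cw q.2) (x' (2 * j), x' (2 * j + 1)) := by
        refine sum_congr rfl fun x hx => ?_
        rw [ff, show 2 * (j + 1) = 2 * j + 1 + 1 by ring, prod_range_succ, prod_range_succ,
          prod_eq_one fun s hs => by rw [(mem_filter.1 hx).2 s (mem_range.1 hs), cw_zero],
          one_mul]
    _ = ∑ q ∈ ((XX (j + 1)).filter fun x' => ∀ i < 2 * j, x' i = 0).image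
          fun x : ℕ → ℕ => (x (2 * j), x (2 * j + 1)), cw q.1 * cw q.2 :=
        (sum_image (f := fun q : ℕ × ℕ => cw q.1 * cw q.2) hinj).symm
    _ ≤ ∑ q ∈ range (Ru j + 1) ×ˢ range (Ru j + 1), cw q.1 * cw q.2 := by
        refine sum_le_sum_of_subset_of_nonneg (fun q hq => ?_)
          fun q _ _ => (mul_pos (cw_pos _) (cw_pos _)).le
        obtain ⟨x, hx, rfl⟩ := mem_image.1 hq
        have h1 := (T2G1_mem.1 (mem_filter.1 hx).1).1
        have h2 := h1 (2 * j) (by omega)
        have h3 := h1 (2 * j + 1) (by omega)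
        rw [show 2 * j / 2 = j by omega] at h2
        rw [show (2 * j + 1) / 2 = j by omega] at h3
        exact mem_product.2 ⟨mem_range.2 (by omega), mem_range.2 (by omega)⟩
    _ = (∑ a ∈ range (Ru j + 1), cw a) * ∑ a ∈ range (Ru j + 1), cw a := by
        rw [sum_mul_sum, sum_product]
    _ ≤ DD j := by
        have h1 := T2G1_sum_cw (Ru j + 1)
        have h2 : 0 ≤ ∑ a ∈ range (Ru j + 1), cw a := sum_nonneg fun a _ => (cw_pos a).le
        have h3 : (1 : ℝ) ≤ Ru j := by exact_mod_cast Ru_pos j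
        have h4 := Real.mul_self_sqrt (Nat.cast_nonneg (Ru j + 1) : (0 : ℝ) ≤ _)
        have h5 := mul_le_mul h1 h1 h2 (h2.trans h1)
        rw [DD]
        push_cast at h4 h5 ⊢
        nlinarith

end Pool.Agent.P.MP_d5a1e1_nt.T2
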