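import Pool.Agent.P.MP_d5a1e1_nt.T2Defs

/-! Tail bounds: stars, weighted sums, hashing. -/

namespace Pool.Agent.P.MP_d5a1e1_nt.T2

open Finset TB

variable {α : Type*} [DecidableEq α] {S : Finset α} {π : α → ℝ}

-- PART a
/-- Bipartite graphs with bounded left degree and bounded right degree weight. -/
theorem pr_star (h0 : ∀ a, 0 ≤ π a) (h1 : ∀ a, π a ≤ 1) (E : Finset (α × α))
    (hb : ∀ e ∈ E, ∀ e' ∈ E, e.1 ≠ e'.2) {d : ℕ} (hd : 2 ≤ d)
    (hout : ∀ a, #{e ∈ E | e.1 = a} ≤ d) (hin : ∀ b, ∑ e ∈ E with e.2 = b, π e.1 ≤ 1)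
    {μ : ℝ} (hμ : ∑ e ∈ E, π e.1 * π e.2 ≤ μ) (g : ℝ) :
    pr S π (fun A => g ≤ #{e ∈ E | e.1 ∈ A ∧ e.2 ∈ A}) ≤ Real.exp ((4 * μ - g) / d) := by
  have hd' : (2 : ℝ) ≤ d := by exact_mod_cast hd
  have hd0 : (0 : ℝ) < d := by linarith
  let F : Finset (α × α) := E.filter fun e => e.1 ∈ S ∧ e.2 ∈ S
  have hF : F ⊆ E := filter_subset _ _
  let m : α → ℝ := fun b => 2 / d * ∑ e ∈ F with e.2 = b, π e.1
  let t : α → Finset α → ℝ := fun v A => (∑ e ∈ F with e.1 = v, chs e.2 A) / d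
  have hmap : ∀ e ∈ F, e.2 ∈ F.image Prod.snd := fun e he => mem_image_of_mem _ he
  have hmap' : ∀ e ∈ F, e.1 ∈ F.image Prod.fst := fun e he => mem_image_of_mem _ he
  have ht0 : ∀ v A, 0 ≤ t v A := fun v A =>
    div_nonneg (sum_nonneg fun e _ => chs_nonneg _ _) hd0.le
  have ht1 : ∀ v A, t v A ≤ 1 := fun v A => by
    refine (div_le_one hd0).2 ((sum_le_card_nsmul _ _ 1 fun e _ => ?_).trans ?_)
    · unfold chs
      split_ifs <;> norm_num
    · rw [nsmul_eq_mul, mul_one]
      exact_mod_cast (card_le_card (filter_subset_filter _ hF)).trans (hout v)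
  have hfib : ∀ (c : α → ℝ) (A : Finset α), ∑ v ∈ F.image Prod.fst, t v A * c v =
      (∑ e ∈ F, chs e.2 A * c e.1) / d := fun c A => by
    rw [← sum_fiberwise_of_maps_to hmap', sum_div]
    refine sum_congr rfl fun v _ => ?_
    rw [div_mul_eq_mul_div, sum_mul]
    congr 1
    exact sum_congr rfl fun e he => by rw [(mem_filter.1 he).2]
  have hexp : ∀ A, ∏ v ∈ F.image Prod.fst, (1 + (Real.exp (t v A) - 1) * chs (id v) A) =
      Real.exp (∑ v ∈ F.image Prod.fst, t v A * chs v A) := fun A => by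
    rw [Real.exp_sum]
    refine prod_congr rfl fun v _ => ?_
    unfold chs
    rw [id]
    split_ifs <;> simp
  refine (pr_le_ex h0 h1 (g := fun A => Real.exp (-g / d) *
    (1 * ∏ v ∈ F.image Prod.fst, (1 + (Real.exp (t v A) - 1) * chs (id v) A)))
    (fun A _ => by rw [hexp]; positivity) fun A hA h => ?_).trans ?_
  · have e2 : (#{e ∈ E | e.1 ∈ A ∧ e.2 ∈ A} : ℝ) = ∑ e ∈ F, chs e.2 A * chs e.1 A := by
      have e3 : (E.filter fun e => e.1 ∈ A ∧ e.2 ∈ A) = F.filter fun e => e.1 ∈ A ∧ e.2 ∈ A := by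
        ext e
        simp only [F, mem_filter]
        exact ⟨fun h => ⟨⟨h.1, hA h.2.1, hA h.2.2⟩, h.2⟩, fun h => ⟨h.1.1, h.2⟩⟩
      rw [e3, card_filter]
      push_cast
      refine sum_congr rfl fun e _ => ?_
      unfold chs
      by_cases ha : e.1 ∈ A <;> by_cases hb : e.2 ∈ A <;> simp [ha, hb]
    rw [hexp, one_mul, ← Real.exp_add, hfib (fun v => chs v A), ← e2, ← add_div]
    exact Real.one_le_exp (div_nonneg (by linarith) hd0.le)
  · rw [ex_mul_left, ex_prod (F.image Prod.fst) id (Set.injOn_id _) ?_ (fun _ => 1)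
      (fun v A => Real.exp (t v A) - 1) (fun _ _ _ => rfl) ?_, sub_eq_neg_add, add_div,
      Real.exp_add]
    · refine mul_le_mul_of_nonneg_left ?_ (Real.exp_pos _).le
      refine (ex_mono h0 h1 (g' := fun A => Real.exp (∑ b ∈ F.image Prod.snd, m b * chs b A))
        fun A _ => ?_).trans ((ex_exp_le h0 _ ?_ m
          (fun b _ => mul_nonneg (by positivity) (sum_nonneg fun e _ => h0 _))
          fun b _ => ?_).trans (Real.exp_le_exp.2 ?_))
      · have e1 : ∑ b ∈ F.image Prod.snd, m b * chs b A =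
            ∑ v ∈ F.image Prod.fst, 2 * (t v A * π v) := by
          rw [← mul_sum, hfib, ← sum_fiberwise_of_maps_to hmap, sum_div, mul_sum]
          refine sum_congr rfl fun b _ => ?_
          rw [mul_assoc, sum_mul, div_mul_eq_mul_div, mul_div_assoc]
          congr 2
          exact sum_congr rfl fun e he => by rw [(mem_filter.1 he).2, mul_comm]
        rw [one_mul, e1, Real.exp_sum]
        refine prod_le_prod (fun v _ => add_nonneg zero_le_one
          (mul_nonneg (h0 _) (sub_nonneg.2 (Real.one_le_exp (ht0 v A))))) fun v _ => ?_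
        have := mul_le_mul_of_nonneg_left (exp_sub_one_le (ht0 v A) (ht1 v A)) (h0 v)
        rw [id]
        linarith [Real.add_one_le_exp (2 * (t v A * π v))]
      · intro b hb'
        obtain ⟨e, he, rfl⟩ := mem_image.1 hb'
        exact (mem_filter.1 he).2.2
      · exact mul_le_one₀ ((div_le_one hd0).2 hd') (sum_nonneg fun e _ => h0 _)
          ((sum_le_sum_of_subset_of_nonneg (filter_subset_filter _ hF)
            fun e _ _ => h0 _).trans (hin b))
      · have e1 : ∑ b ∈ F.image Prod.snd, π b * m b = 2 / d * ∑ e ∈ F, π e.1 * π e.2 := by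
          rw [← sum_fiberwise_of_maps_to hmap, mul_sum]
          refine sum_congr rfl fun b _ => ?_
          rw [mul_left_comm, mul_sum]
          congr 1
          exact sum_congr rfl fun e he => by rw [(mem_filter.1 he).2, mul_comm]
        have := (sum_le_sum_of_subset_of_nonneg (f := fun e : α × α => π e.1 * π e.2) hF
          fun e _ _ => mul_nonneg (h0 _) (h0 _)).trans hμ
        rw [e1]
        calc _ ≤ 2 * (2 / d * μ) := by gcongr
          _ = _ := by ring
    · intro v hv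
      obtain ⟨e, he, rfl⟩ := mem_image.1 hv
      exact (mem_filter.1 he).2.1
    · intro v hv w _ A
      obtain ⟨e, he, rfl⟩ := mem_image.1 hv
      have : t w (insert (id e.1) A) = t w A := by
        simp only [t]
        congr 1
        exact sum_congr rfl fun e' he' =>
          chs_insert (hb e (hF he) e' (hF (mem_filter.1 he').1)).symm A
      rw [this]
theorem pr_wsum (h0 : ∀ a, 0 ≤ π a) (h1 : ∀ a, π a ≤ 1) (Y : Finset α) (w : α → ℝ)
    (w0 : ∀ a ∈ Y, 0 ≤ w a) (w1 : ∀ a ∈ Y, w a ≤ 1) {μ : ℝ} (hμ : ∑ a ∈ Y, π a * w a ≤ μ)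
    (g : ℝ) : pr S π (fun A => g ≤ ∑ a ∈ Y with a ∈ A, w a) ≤ Real.exp (2 * μ - g) :=
  pr_weight_le h0 h1 Y w w0 w1 hμ g
-- PART b
/-- A hash function that spreads all sets of a family. -/
theorem exists_spread {β ι : Type*} [DecidableEq β] (Φ : Finset ι) (A : ι → Finset β)
    {H X G : ℕ} (hH : 0 < H) (hA : ∀ φ ∈ Φ, (A φ).card ≤ X)
    (h : Φ.card * H * X ^ G < H ^ G) :
    ∃ f : β → ℕ, (∀ b, f b < H) ∧ ∀ φ ∈ Φ, ∀ η, #{b ∈ A φ | f b = η} < G :=
  exists_hash Φ A hH hA h

end Pool.Agent.P.MP_d5a1e1_nt.T2
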