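import Pool.Agent.P.MP_d5a1e1_nt.T2Cells
import Pool.Agent.P.MP_d5a1e1_nt.T2Star

/-! Edges between consecutive states. -/

namespace Pool.Agent.P.MP_d5a1e1_nt.T2

open Finset TB

variable {Pt : ℕ → Finset (ℕ → ℕ)}

open Classical in
/-- All edges of a frame between the states `j` and `j + 1`. -/
noncomputable def E1 (Pt : ℕ → Finset (ℕ → ℕ)) (j N : ℕ) (P : Finset Tup) :
    Finset (Cell × Cell) :=
  (cells j ×ˢ cells (j + 1)).filter fun e => Ed1 Pt j N P e.1 e.2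

/-- The points of the new unit. -/
noncomputable def Top (Pt : ℕ → Finset (ℕ → ℕ)) (j : ℕ) : Finset (ℕ × ℕ) :=
  (Pt (j + 1)).image fun d => (d (2 * j), d (2 * j + 1))

-- PART a
theorem mem_E1 {j N : ℕ} {P : Finset Tup} {e : Cell × Cell} :
    e ∈ E1 Pt j N P ↔ Ed1 Pt j N P e.1 e.2 := by
  classical
  unfold E1
  rw [mem_filter, mem_product]
  refine ⟨fun h => h.2, fun h => ⟨?_, h⟩⟩
  obtain ⟨t, -, hf, -⟩ := h
  exact ⟨hf.1, hf.2.1⟩
theorem T2K1a_lt (hF : Fine Pt) {j : ℕ} {d : ℕ → ℕ} (hd : d ∈ Pt (j + 1)) :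
    d (2 * j) < pp j ∧ d (2 * j + 1) < pp j := by
  have hb := (mem_Box.1 (hF.box (j + 1) hd)).1
  have h0 := hb (2 * j) (by omega)
  have h1 := hb (2 * j + 1) (by omega)
  rw [show 2 * j / 2 = j by omega] at h0
  rw [show (2 * j + 1) / 2 = j by omega] at h1
  exact ⟨h0, h1⟩
theorem Top_lt (hF : Fine Pt) (j : ℕ) : ∀ q ∈ Top Pt j, q.1 < pp j ∧ q.2 < pp j := by
  intro q hq
  unfold Top at hq
  obtain ⟨d, hd, rfl⟩ := mem_image.1 hq
  exact T2K1a_lt hF hd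
theorem Top_six (hF : Fine Pt) (j v : ℕ) : #{q ∈ Top Pt j | q.2 = v} ≤ 6 := by
  have hinj : Set.InjOn Prod.fst (({q ∈ Top Pt j | q.2 = v} : Finset (ℕ × ℕ)) : Set (ℕ × ℕ)) := by
    intro q hq q' hq' h
    have h1 := (mem_filter.1 (mem_coe.1 hq)).2
    have h2 := (mem_filter.1 (mem_coe.1 hq')).2
    exact Prod.ext h (h1.trans h2.symm)
  rw [← card_image_of_injOn hinj]
  refine hF.top j v _ fun u hu => ?_
  obtain ⟨q, hq, rfl⟩ := mem_image.1 hu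
  obtain ⟨hq1, hq2⟩ := mem_filter.1 hq
  unfold Top at hq1
  obtain ⟨d, hd, rfl⟩ := mem_image.1 hq1
  exact ⟨d, hd, rfl, hq2⟩
theorem T2K1a_x {j : ℕ} {c : Cell} (hc : c ∈ cells (j + 1)) :
    c.x (2 * j) ≤ Ru j ∧ c.x (2 * j + 1) ≤ Ru j := by
  have hb := (mem_XX.1 (mem_cells.1 hc).2.2.2.1).1
  have h0 := hb (2 * j) (by omega)
  have h1 := hb (2 * j + 1) (by omega)
  rw [show 2 * j / 2 = j by omega] at h0
  rw [show (2 * j + 1) / 2 = j by omega] at h1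
  exact ⟨h0, h1⟩
theorem E1_out (hF : Fine Pt) {j N : ℕ} {P : Finset Tup} (h : Fr j (j + 1) N P) (a : Cell) :
    #{e ∈ E1 Pt j N P | e.1 = a} ≤ yy (j + 1) := by
  refine le_trans ?_ (h.out a.i)
  refine card_le_card_of_forall_subsingleton
    (fun (e : Cell × Cell) (t : Tup) => Fit j (j + 1) t e.1 e.2 ∧ ∃ d ∈ Pt (j + 1),
      e.1.z + (d (2 * j) + pp j * (t.o₀ + e.2.x (2 * j))) +
        BB j * (d (2 * j + 1) + pp j * (t.o₁ + e.2.x (2 * j + 1))) + BB j ^ 2 * e.2.z = N)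
    ?_ ?_
  · intro e he
    obtain ⟨he1, he2⟩ := mem_filter.1 he
    obtain ⟨t, ht, hf, hd⟩ := mem_E1.1 he1
    refine ⟨t, mem_filter.2 ⟨ht, ?_⟩, hf, hd⟩
    rw [← he2]
    exact hf.2.2.1.symm
  · intro t _ e he e' he'
    obtain ⟨he0, hf, d, hd, hN⟩ := he
    obtain ⟨he0', hf', d', hd', hN'⟩ := he'
    have e1 : e.1 = a := (mem_filter.1 (mem_coe.1 he0)).2
    have e1' : e'.1 = a := (mem_filter.1 (mem_coe.1 he0')).2
    obtain ⟨-, hc, -, hi, -, hη, hx⟩ := hf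
    obtain ⟨-, hc', -, hi', -, hη', hx'⟩ := hf'
    rw [e1] at hN hx
    rw [e1'] at hN' hx'
    obtain ⟨-, -, u1, u2, u3⟩ := top_unique (o₀ := t.o₀) (o₁ := t.o₁) (z := e.2.z) (z' := e'.2.z)
      (T2K1a_lt hF hd).1 (T2K1a_lt hF hd).2 (T2K1a_lt hF hd').1 (T2K1a_lt hF hd').2
      (T2K1a_x hc).1 (T2K1a_x hc).2 (T2K1a_x hc').1 (T2K1a_x hc').2 (by omega)
    refine Prod.ext (e1.trans e1'.symm) (Cell.ext ?_ (hi.trans hi'.symm) (hη.trans hη'.symm) ?_ u3)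
    · exact (mem_cells.1 hc).1.trans (mem_cells.1 hc').1.symm
    · funext s
      by_cases hs : s < 2 * j
      · have := hx s hs
        have := hx' s hs
        omega
      · by_cases hs0 : s = 2 * j
        · rw [hs0]; exact u1
        · by_cases hs1 : s = 2 * j + 1
          · rw [hs1]; exact u2
          · rw [(mem_XX.1 (mem_cells.1 hc).2.2.2.1).2.1 s (by omega),
              (mem_XX.1 (mem_cells.1 hc').2.2.2.1).2.1 s (by omega)]
theorem T2K1a_sum {α β : Type*} (s : Finset α) (t : Finset β) (f : α → ℝ) (w : β → ℝ)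
    (r : α → β → Prop) (hw : ∀ b ∈ t, 0 ≤ w b) (h1 : ∀ a ∈ s, ∃ b ∈ t, r a b ∧ f a ≤ w b)
    (h2 : ∀ a ∈ s, ∀ a' ∈ s, ∀ b, r a b → r a' b → a = a') : ∑ a ∈ s, f a ≤ ∑ b ∈ t, w b := by
  classical
  have h3 : ∀ a : s, ∃ b ∈ t, r a b ∧ f a ≤ w b := fun a => h1 a a.2
  choose φ hφ using h3
  have hinj : Function.Injective φ := fun a a' h =>
    Subtype.ext (h2 a a.2 a' a'.2 (φ a) (hφ a).2.1 (h ▸ (hφ a').2.1))
  calc ∑ a ∈ s, f a = ∑ a : s, f a := (sum_coe_sort s f).symm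
    _ ≤ ∑ a : s, w (φ a) := sum_le_sum fun a _ => (hφ a).2.2
    _ = ∑ b ∈ univ.image φ, w b := (sum_image fun a _ a' _ h => hinj h).symm
    _ ≤ ∑ b ∈ t, w b := by
      refine sum_le_sum_of_subset_of_nonneg ?_ fun b hb _ => hw b hb
      intro b hb
      obtain ⟨a, -, rfl⟩ := mem_image.1 hb
      exact (hφ a).1
theorem T2K1a_num {j : ℕ} (hj : k0 ≤ j) :
    (yy (j + 1) : ℝ) * (rho j * (24 / √(DD j))) ≤ 1 := by
  have hy2 := yy_ge j
  have hy1 : 0 < yy j := by omega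
  have hj1 : 1 ≤ j := le_trans (Nat.one_le_pow _ _ hy1) (yy_le hj)
  have h1 : yy (j + 1) ≤ 2 * yy j := (yy_mono (by omega : j + 1 ≤ j + 2)).trans (yy_add_two hj1)
  have hR := Ru_ge j
  have hy : (2 : ℝ) ≤ yy j := by exact_mod_cast hy2
  have h1' : (yy (j + 1) : ℝ) ≤ 2 * yy j := by exact_mod_cast h1
  have hR' : (yy j : ℝ) ^ 2800 ≤ Ru j := by exact_mod_cast hR
  have hD : (DD j : ℝ) = 16 * Ru j := by unfold DD; push_cast; ring
  have hrho : (rho j : ℝ) = (yy j : ℝ) ^ 906 := by unfold rho; push_cast; ring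
  rw [hrho]
  generalize (yy j : ℝ) = y at hy h1' hR' ⊢
  have hy0 : 0 < y := by linarith
  have hs : 4 * y ^ 1400 ≤ √(DD j) := by
    refine Real.le_sqrt_of_sq_le ?_
    rw [hD, mul_pow, ← pow_mul, show 1400 * 2 = 2800 from rfl]
    generalize y ^ 2800 = A at hR' ⊢
    linarith
  have hp : 0 < 4 * y ^ 1400 := by positivity
  have hsq : 0 < √(DD j : ℝ) := lt_of_lt_of_le hp hs
  have h12 : 12 ≤ y ^ 493 := by
    calc (12 : ℝ) ≤ 2 ^ 4 := by norm_num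
      _ ≤ y ^ 4 := pow_le_pow_left₀ (by norm_num) hy 4
      _ ≤ y ^ 493 := pow_le_pow_right₀ (by linarith) (by norm_num)
  have hsplit : y ^ 1400 = y ^ 906 * y * y ^ 493 := by
    rw [← pow_succ, ← pow_add]
  have hq : 0 < y ^ 906 := by positivity
  rw [← mul_assoc, ← mul_div_assoc, div_le_one hsq]
  refine le_trans ?_ hs
  rw [hsplit]
  generalize y ^ 906 = A at hq ⊢
  generalize y ^ 493 = C at h12 ⊢
  have hA : 0 < A * y := mul_pos hq hy0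
  calc (yy (j + 1) : ℝ) * A * 24 ≤ 2 * y * A * 24 := by gcongr
    _ = 4 * (A * y * 12) := by ring
    _ ≤ 4 * (A * y * C) := by gcongr
theorem E1_in (hF : Fine Pt) {j N : ℕ} (hj : k0 ≤ j) {P : Finset Tup} (h : Fr j (j + 1) N P)
    (b : Cell) : ∑ e ∈ E1 Pt j N P with e.2 = b, qq e.1 ≤ 1 := by
  classical
  let M : Tup → ℕ := fun t => N - (pp j * (t.o₀ + b.x (2 * j)) +
    BB j * (pp j * (t.o₁ + b.x (2 * j + 1))) + BB j ^ 2 * b.z)
  have hrho : (0 : ℝ) ≤ rho j := Nat.cast_nonneg _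
  have key := T2K1a_sum ({e ∈ E1 Pt j N P | e.2 = b})
    (({t ∈ P | t.i' = b.i} : Finset Tup).sigma fun t =>
      ({q ∈ Top Pt j | q.1 + DD j * pp j * q.2 + DD j * pp j ≤ M t} : Finset (ℕ × ℕ)))
    (fun e => qq e.1)
    (fun w => (rho j : ℝ) * cw (M w.1 - (w.2.1 + DD j * pp j * w.2.2)))
    (fun e w => Fit j (j + 1) w.1 e.1 b ∧ e.1.z = M w.1 - (w.2.1 + DD j * pp j * w.2.2))
    (fun w _ => mul_nonneg hrho (cw_pos _).le) ?_ ?_
  · refine key.trans ?_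
    rw [sum_sigma]
    refine le_trans (sum_le_card_nsmul _ _ ((rho j : ℝ) * (24 / √(DD j))) fun t _ => ?_) ?_
    · rw [← mul_sum]
      exact mul_le_mul_of_nonneg_left
        (top_sum (pp_pos j) (DD_pos j) (Top Pt j) (Top_lt hF j) (Top_six hF j) (M t)) hrho
    · rw [nsmul_eq_mul]
      refine le_trans ?_ (T2K1a_num hj)
      refine mul_le_mul_of_nonneg_right ?_ (by positivity)
      exact_mod_cast h.inn b.i
  · intro e he
    obtain ⟨he1, he2⟩ := mem_filter.1 he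
    obtain ⟨t, ht, hf, d, hd, hN⟩ := mem_E1.1 he1
    rw [he2] at hf hN
    have hc := mem_cells.1 hf.1
    have hB : BB j = DD j * pp j := rfl
    have hM : M t = e.1.z + (d (2 * j) + DD j * pp j * d (2 * j + 1)) := by
      show N - _ = _
      rw [← hB, ← hN, mul_add (BB j)]
      omega
    have hz : e.1.z = M t - (d (2 * j) + DD j * pp j * d (2 * j + 1)) := by omega
    refine ⟨⟨t, (d (2 * j), d (2 * j + 1))⟩, mem_sigma.2 ⟨mem_filter.2 ⟨ht, hf.2.2.2.1.symm⟩,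
      mem_filter.2 ⟨?_, ?_⟩⟩, ⟨hf, hz⟩, ?_⟩
    · unfold Top
      exact mem_image.2 ⟨d, hd, rfl⟩
    · have := hc.2.2.2.2.1
      show d (2 * j) + DD j * pp j * d (2 * j + 1) + DD j * pp j ≤ M t
      omega
    · show qq e.1 ≤ (rho j : ℝ) * cw (M t - (d (2 * j) + DD j * pp j * d (2 * j + 1)))
      rw [← hz]
      refine (qq_le e.1).trans ?_
      rw [hc.1]
      refine mul_le_mul_of_nonneg_right ?_ (cw_pos _).le
      exact mul_le_of_le_one_right hrho (ff_le_one _ _)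
  · intro e he e' he' w hw hw'
    obtain ⟨⟨hc, -, hi, -, hη, -, hx⟩, hz⟩ := hw
    obtain ⟨⟨hc', -, hi', -, hη', -, hx'⟩, hz'⟩ := hw'
    refine Prod.ext (Cell.ext ?_ (hi.trans hi'.symm) (hη.trans hη'.symm) ?_ (hz.trans hz'.symm))
      ((mem_filter.1 he).2.trans (mem_filter.1 he').2.symm)
    · exact (mem_cells.1 hc).1.trans (mem_cells.1 hc').1.symm
    · funext s
      by_cases hs : s < 2 * j
      · have := hx s hs
        have := hx' s hs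
        omega
      · rw [(mem_XX.1 (mem_cells.1 hc).2.2.2.1).2.1 s (by omega),
          (mem_XX.1 (mem_cells.1 hc').2.2.2.1).2.1 s (by omega)]
-- PART b
theorem T2K1b_sum {α β : Type*} (E : Finset α) (I : Finset β) (φ : β → α) (f : α → ℝ) (g : β → ℝ)
    (h : ∀ e ∈ E, ∃ i ∈ I, φ i = e ∧ f e ≤ g i) (hg : ∀ i ∈ I, 0 ≤ g i) :
    ∑ e ∈ E, f e ≤ ∑ i ∈ I, g i := by
  classical
  rcases E.eq_empty_or_nonempty with rfl | ⟨e₀, h₀⟩
  · exact sum_empty.le.trans (sum_nonneg hg)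
  have : Nonempty β := ⟨(h e₀ h₀).choose⟩
  choose! ψ h1 h2 h3 using h
  refine (sum_le_sum h3).trans ?_
  rw [← sum_image (s := E) (g := ψ) (f := g) fun e he e' he' e1 => by
    rw [← h2 e he, e1, h2 e' he']]
  exact sum_le_sum_of_subset_of_nonneg (image_subset_iff.2 h1) fun i hi _ => hg i hi

theorem T2K1b_ff (k : ℕ) (x : ℕ → ℕ) : 0 ≤ ff k x := prod_nonneg fun _ _ => (cw_pos _).le

theorem E1_sum_le (hF : Fine Pt) (j N : ℕ) (P : Finset Tup) :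
    ∑ e ∈ E1 Pt j N P, qq e.1 * qq e.2 ≤
      (rho (j + 1) : ℝ) ^ 2 * (10 / DD j) * ∑ t ∈ P, GG j (j + 1) t.yb := by
  classical
  let M : Tup → (ℕ → ℕ) → ℕ := fun t x' =>
    N - (pp j * (t.o₀ + x' (2 * j)) + BB j * (pp j * (t.o₁ + x' (2 * j + 1))))
  let A : Tup → (ℕ → ℕ) → (ℕ → ℕ) → ℝ := fun t x x' =>
    if ∀ i < 2 * j, x i + x' i = t.yb i then ff j x * ff (j + 1) x' else 0
  let J : ℕ → ℕ → ℕ × ℕ → ℝ := fun n z q =>
    if q.1 + DD j * pp j * q.2 + (DD j * pp j) ^ 2 * z + DD j * pp j ≤ n then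
      cw z * cw (n - (q.1 + DD j * pp j * q.2 + (DD j * pp j) ^ 2 * z)) else 0
  have hA : ∀ t x x', 0 ≤ A t x x' := fun t x x' => by
    simp only [A]
    split_ifs
    · exact mul_nonneg (T2K1b_ff _ _) (T2K1b_ff _ _)
    · exact le_rfl
  have hJ : ∀ n z q, 0 ≤ J n z q := fun n z q => by
    simp only [J]
    split_ifs
    · exact mul_nonneg (cw_pos _).le (cw_pos _).le
    · exact le_rfl
  have hJs : ∀ n, ∑ z ∈ Ico (BB (j + 1)) (ZZ (j + 1)), ∑ q ∈ Top Pt j, J n z q ≤ 10 / DD j :=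
    fun n => by
      have h1 := junction_sum (pp_big j) (DD_pos j) (Top Pt j) (Top_lt hF j) (Top_six hF j) n
        (Ico (BB (j + 1)) (ZZ (j + 1))) fun z hz =>
          (BB_mono (Nat.le_succ j)).trans (mem_Ico.1 hz).1
      simp only [sum_filter] at h1
      exact h1
  refine (T2K1b_sum _
    (P ×ˢ XX j ×ˢ XX (j + 1) ×ˢ Ico (BB (j + 1)) (ZZ (j + 1)) ×ˢ Top Pt j)
    (fun i => ((⟨j, i.1.i, i.1.η, i.2.1, M i.1 i.2.2.1 - (i.2.2.2.2.1 + DD j * pp j * i.2.2.2.2.2 +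
      (DD j * pp j) ^ 2 * i.2.2.2.1)⟩ : Cell), (⟨j + 1, i.1.i', i.1.η', i.2.2.1, i.2.2.2.1⟩ : Cell)))
    _ (fun i => (rho (j + 1) : ℝ) ^ 2 * A i.1 i.2.1 i.2.2.1 * J (M i.1 i.2.2.1) i.2.2.2.1 i.2.2.2.2)
    (fun e he => ?_) fun i _ => mul_nonneg (mul_nonneg (sq_nonneg _) (hA _ _ _)) (hJ _ _ _)).trans ?_
  · obtain ⟨t, ht, ⟨c1, c2, c3, c4, c5, c6, c7⟩, d, hd, hN⟩ := mem_E1.1 he
    obtain ⟨a1, -, -, a4, a5, -⟩ := mem_cells.1 c1
    obtain ⟨b1, -, -, b4, b5, b6⟩ := mem_cells.1 c2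
    have hB : BB j = DD j * pp j := rfl
    have hM : M t e.2.x = e.1.z + (d (2 * j) + DD j * pp j * d (2 * j + 1) +
        (DD j * pp j) ^ 2 * e.2.z) := by
      simp only [M]
      rw [← hN, ← hB, mul_add (BB j)]
      omega
    refine ⟨(t, e.1.x, e.2.x, e.2.z, d (2 * j), d (2 * j + 1)), mem_product.2 ⟨ht, mem_product.2
      ⟨a4, mem_product.2 ⟨b4, mem_product.2 ⟨mem_Ico.2 ⟨b5, b6⟩, mem_image_of_mem _ hd⟩⟩⟩⟩,
      Prod.ext (Cell.ext a1.symm c3.symm c5.symm rfl ?_)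
        (Cell.ext b1.symm c4.symm c6.symm rfl rfl), ?_⟩
    · dsimp only
      rw [hM, Nat.add_sub_cancel]
    · have h1 := qq_le e.1
      have h2 := qq_le e.2
      rw [a1] at h1
      rw [b1] at h2
      have h3 : (rho j : ℝ) ≤ rho (j + 1) :=
        Nat.cast_le.2 (by unfold rho; exact Nat.pow_le_pow_left (yy_mono (Nat.le_succ j)) 906)
      have h4 := mul_le_mul_of_nonneg_right (mul_le_mul_of_nonneg_right h3 (T2K1b_ff j e.1.x))
        (cw_pos e.1.z).le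
      refine (mul_le_mul (h1.trans h4) h2 (qq_nonneg _)
        ((qq_nonneg _).trans (h1.trans h4))).trans (le_of_eq ?_)
      simp only [A, J]
      rw [if_pos c7, hM, if_pos (by rw [← hB]; omega), Nat.add_sub_cancel]
      ring
  · simp only [sum_product, GG, mul_sum]
    refine sum_le_sum fun t _ => sum_le_sum fun x _ => sum_le_sum fun x' _ => ?_
    simp only [← mul_sum]
    rw [mul_right_comm]
    exact mul_le_mul_of_nonneg_right (mul_le_mul_of_nonneg_left (hJs _) (sq_nonneg _)) (hA t x x')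
-- PART c
theorem T2K1_bip {j N : ℕ} {P : Finset Tup} :
    ∀ e ∈ E1 Pt j N P, ∀ e' ∈ E1 Pt j N P, e.1 ≠ e'.2 := by
  intro e he e' he' h
  obtain ⟨t, -, hf, -⟩ := mem_E1.1 he
  obtain ⟨t', -, hf', -⟩ := mem_E1.1 he'
  have h1 := (mem_cells.1 hf.1).1
  have h2 := (mem_cells.1 hf'.2.1).1
  rw [h, h2] at h1
  omega

theorem T2K1_mean (hF : Fine Pt) {j N : ℕ} {P : Finset Tup}
    (h : ∑ t ∈ P, GG j (j + 1) t.yb ≤ 13 * DD j * (lam (j + 1) : ℝ) ^ 2) :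
    ∑ e ∈ E1 Pt j N P, qq e.1 * qq e.2 ≤ 130 * (yy (j + 1) : ℝ) ^ 2216 := by
  have hD : (0 : ℝ) < DD j := by exact_mod_cast DD_pos j
  refine (E1_sum_le hF j N P).trans ((mul_le_mul_of_nonneg_left h (by positivity)).trans_eq ?_)
  rw [rho, lam, Nat.cast_pow, Nat.cast_pow, ← pow_mul, ← pow_mul,
    show 2216 = 906 * 2 + 202 * 2 from rfl, pow_add]
  generalize (yy (j + 1) : ℝ) ^ (906 * 2) = a
  generalize (yy (j + 1) : ℝ) ^ (202 * 2) = b
  field_simp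
  ring

theorem pr_K1 (hF : Fine Pt) {j : ℕ} (hj : k0 ≤ j) (S : Finset Cell) :
    pr S qq (fun A => ¬K1 Pt (A : Set Cell) j) ≤ 1 / 2 ^ (j + 4) := by
  classical
  obtain ⟨F, hc, hall⟩ := exists_frames hj (Or.inr rfl)
  let G : Finset (ℕ × Finset Tup) := F.filter fun q => Fr j (j + 1) q.1 q.2 ∧
    ∑ t ∈ q.2, GG j (j + 1) t.yb ≤ 13 * DD j * (lam (j + 1) : ℝ) ^ 2
  have h1 : pr S qq (fun A => ¬K1 Pt (A : Set Cell) j) ≤ pr S qq fun A => ∃ q ∈ G,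
      (gg (j + 1) : ℝ) ≤ #{e ∈ E1 Pt j q.1 q.2 | e.1 ∈ A ∧ e.2 ∈ A} := by
    refine pr_mono qq_nonneg qq_le_one fun A _ hA => ?_
    by_contra hn
    refine hA fun N P hfr hw Z hZ => ?_
    by_contra hz
    refine hn ⟨(N, P), mem_filter.2 ⟨hall N P hfr, hfr, hw⟩, ?_⟩
    have h2 : Z ⊆ {e ∈ E1 Pt j N P | e.1 ∈ A ∧ e.2 ∈ A} := fun e he =>
      mem_filter.2 ⟨mem_E1.2 (hZ e he).2.2, (hZ e he).1, (hZ e he).2.1⟩
    exact_mod_cast (not_lt.1 hz).trans (card_le_card h2)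
  refine h1.trans ((pr_exists_le qq_nonneg qq_le_one G _).trans ?_)
  refine le_trans (sum_le_card_nsmul G _ (Real.exp ((4 * (130 * (yy (j + 1) : ℝ) ^ 2216) -
    gg (j + 1)) / yy (j + 1))) fun q hq => ?_) ?_
  · obtain ⟨-, hfr, hw⟩ := mem_filter.1 hq
    exact pr_star qq_nonneg qq_le_one _ T2K1_bip (yy_ge _) (E1_out hF hfr) (E1_in hF hj hfr)
      (T2K1_mean hF hw) _
  · rw [nsmul_eq_mul]
    refine le_trans (mul_le_mul_of_nonneg_right ?_ (Real.exp_pos _).le)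
      (num_star hj (Or.inr rfl))
    exact_mod_cast (card_filter_le _ _).trans hc

end Pool.Agent.P.MP_d5a1e1_nt.T2
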