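import Pool.Agent.P.MP_d5a1e1_nt.T2TypA2

/-! One step in the choice of the types. -/

namespace Pool.Agent.P.MP_d5a1e1_nt.T2

open Finset TB

theorem T2TypA_start : ∃ ξ, Own k0 ξ := by
  have h0 : 1 ≤ k0 := by
    have h := yy_le (k := k0) le_rfl
    have h2 := yy_ge k0
    exact (Nat.one_le_pow _ _ (by omega)).trans h
  obtain ⟨j, hj⟩ : ∃ j, k0 = j + 1 := ⟨k0 - 1, by omega⟩
  obtain ⟨ξ', h, -⟩ := types_step (j := j) hj.le (m := 0) (Nat.zero_le _) (fun _ _ => 0)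
    (fun i hi => absurd hi (Nat.not_lt_zero i)) (fun g _ ξ₀ _ => by simp)
  exact ⟨ξ', hj ▸ h⟩

theorem T2TypA_step (j : ℕ) (ξ : ℕ → ℕ → ℕ) :
    ∃ ξ', k0 ≤ j → Own j ξ → Own (j + 1) ξ' ∧ Cross j (mm j) ξ ξ' := by
  by_cases h : k0 ≤ j ∧ Own j ξ
  · obtain ⟨hj, ho⟩ := h
    obtain ⟨ξ', h'⟩ := types_step (j := j) (by omega) (m := mm j) le_rfl ξ
      (fun i hi => (mem_Box.1 (ho.box i hi)).1)
      (fun g hg ξ₀ h₀ => (ho.deg j (Or.inl rfl) g hg ξ₀ h₀).trans (yy_mono (Nat.le_succ j)))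
    exact ⟨ξ', fun _ _ => h'⟩
  · exact ⟨ξ, fun h1 h2 => absurd ⟨h1, h2⟩ h⟩

theorem T2TypA_rec {α : Type} (K : ℕ) (O : ℕ → α → Prop) (C : ℕ → α → α → Prop) {a : α}
    (h₀ : O K a) (h : ∀ j x, ∃ x', K ≤ j → O j x → O (j + 1) x' ∧ C j x x') :
    ∃ t : ℕ → α, ∀ k, K ≤ k → O k (t k) ∧ C k (t k) (t (k + 1)) := by
  choose F hF using h
  let s : ℕ → α := fun n => Nat.rec a (fun n x => F (K + n) x) n
  have hs : ∀ n, O (K + n) (s n) := by
    intro n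
    induction n with
    | zero => exact h₀
    | succ n ih => exact (hF (K + n) (s n) (Nat.le_add_right _ _) ih).1
  have hc : ∀ n, C (K + n) (s n) (s (n + 1)) := fun n =>
    (hF (K + n) (s n) (Nat.le_add_right _ _) (hs n)).2
  refine ⟨fun k => s (k - K), fun k hk => ⟨?_, ?_⟩⟩
  · have := hs (k - K)
    rwa [Nat.add_sub_cancel' hk] at this
  · have := hc (k - K)
    rwa [Nat.add_sub_cancel' hk, ← Nat.sub_add_comm hk] at this

theorem exists_types : ∃ ξ, Types ξ := by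
  obtain ⟨ξ₀, h₀⟩ := T2TypA_start
  obtain ⟨t, ht⟩ := T2TypA_rec k0 Own (fun j => Cross j (mm j)) h₀ T2TypA_step
  refine ⟨t, fun k hk => (ht k hk).1.box, fun j k hk h => (ht k hk).1.deg j h,
    fun j k hj h => ?_, fun k hk => (ht k hk).1.up0, fun j hj => (ht j hj).2.up1,
    fun k hk => (ht k hk).1.low⟩
  rcases h with rfl | rfl
  · exact (ht k hj).1.list
  · exact (ht j hj).2.list

end Pool.Agent.P.MP_d5a1e1_nt.T2
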