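import Pool.Agent.P.MP_d5a1e1_nt.T2K0
import Pool.Agent.P.MP_d5a1e1_nt.T2K1
import Pool.Agent.P.MP_d5a1e1_nt.T2KF
import Pool.Agent.P.MP_d5a1e1_nt.T2TypA
import Pool.Agent.P.MP_d5a1e1_nt.T2Fine

/-! The random choices exist. -/

namespace Pool.Agent.P.MP_d5a1e1_nt.T2

open Finset TB

variable {Pt : ℕ → Finset (ℕ → ℕ)} {ξ : ℕ → ℕ → ℕ → ℕ}

-- PART a
theorem T2Gooda_sum {k n : ℕ} (h : n ≤ k) :
    (1 : ℝ) / 2 ^ (k + 4) + (1 / 2 ^ (k + 4) + (1 / 2 ^ (k + 4) + (1 / 2 ^ (k + 4) +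
      k * (1 / 2 ^ (2 * k + 4))))) ≤ 1 / 2 ^ (n + 1) := by
  have h1 : (k : ℝ) ≤ 2 ^ k := by exact_mod_cast (Nat.lt_two_pow_self (n := k)).le
  have h2 : (k : ℝ) * (1 / 2 ^ (2 * k + 4)) ≤ 1 / 2 ^ (k + 4) := by
    have e : (2 : ℝ) ^ (2 * k + 4) = 2 ^ k * 2 ^ (k + 4) := by ring
    rw [e, mul_one_div, div_le_div_iff₀ (by positivity) (by positivity), one_mul]
    gcongr
  have h3 : (1 : ℝ) / 2 ^ (k + 1) ≤ 1 / 2 ^ (n + 1) :=
    one_div_le_one_div_of_le (by positivity) (pow_le_pow_right₀ one_le_two (by omega))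
  have h4 : (1 : ℝ) / 2 ^ (k + 1) = 8 * (1 / 2 ^ (k + 4)) := by field_simp; ring
  have h5 : (0 : ℝ) ≤ 1 / 2 ^ (k + 4) := by positivity
  linarith

theorem exists_good (hF : Fine Pt) (ξ : ℕ → ℕ → ℕ → ℕ) : ∃ K, Good Pt ξ K := by
  classical
  obtain ⟨K, hK⟩ := exists_avoid (π := qq) qq_nonneg qq_le_one
    (fun n => (range (k0 + n + 2)).biUnion cells)
    (fun n A => ¬K0 (A : Set Cell) (k0 + n) ∨ ¬K1 Pt (A : Set Cell) (k0 + n) ∨
      ¬KC (A : Set Cell) (k0 + n) ∨ ¬KA (A : Set Cell) (k0 + n) ∨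
      ∃ j ∈ (range (k0 + n)).filter (fun j => k0 ≤ j ∧ j + 2 ≤ k0 + n),
        ¬KF Pt ξ (A : Set Cell) j (k0 + n)) (fun n => by
      have hk : k0 ≤ k0 + n := Nat.le_add_right _ _
      have hn : n ≤ k0 + n := Nat.le_add_left _ _
      generalize k0 + n = k at hk hn
      refine le_trans ?_ (T2Gooda_sum hn)
      refine (pr_or_le qq_nonneg qq_le_one _ _).trans (add_le_add (pr_K0 hk _) ?_)
      refine (pr_or_le qq_nonneg qq_le_one _ _).trans (add_le_add (pr_K1 hF hk _) ?_)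
      refine (pr_or_le qq_nonneg qq_le_one _ _).trans (add_le_add
        (pr_KC hk _ (subset_biUnion_of_mem cells (mem_range.2 (by omega)))) ?_)
      refine (pr_or_le qq_nonneg qq_le_one _ _).trans (add_le_add (pr_KA hk _) ?_)
      refine (pr_exists_le qq_nonneg qq_le_one _ _).trans ?_
      refine (sum_le_card_nsmul _ _ ((1 : ℝ) / 2 ^ (2 * k + 4)) fun j hj => ?_).trans ?_
      · exact pr_KF hF (mem_filter.1 hj).2.1 (mem_filter.1 hj).2.2 _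
      · rw [nsmul_eq_mul]
        refine mul_le_mul_of_nonneg_right ?_ (by positivity)
        exact_mod_cast (card_filter_le _ _).trans (card_range k).le)
  have key : ∀ k, k0 ≤ k → ∃ A : Set Cell, A ⊆ K ∧
      (∀ j, j ≤ k + 1 → ∀ c ∈ cells j, c ∈ K → c ∈ A) ∧
      K0 A k ∧ K1 Pt A k ∧ KC A k ∧ KA A k ∧ ∀ j, k0 ≤ j → j + 2 ≤ k → KF Pt ξ A j k := by
    intro k hk
    obtain ⟨n, rfl⟩ := Nat.exists_eq_add_of_le hk
    have h := hK n
    simp only [not_or, not_not, not_exists, not_and] at h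
    refine ⟨_, ?_, ?_, h.1, h.2.1, h.2.2.1, h.2.2.2.1, fun j h1 h2 => h.2.2.2.2 j ?_⟩
    · intro c hc
      exact (mem_filter.1 (mem_coe.1 hc)).2
    · intro j hj c hc hcK
      exact mem_coe.2 (mem_filter.2 ⟨mem_biUnion.2 ⟨j, mem_range.2 (by omega), hc⟩, hcK⟩)
    · exact mem_filter.2 ⟨mem_range.2 (by omega), h1, h2⟩
  refine ⟨K, fun k hk => ?_, fun k hk => ?_, fun k hk => ?_, fun k hk => ?_,
    fun j k hj hjk => ?_⟩
  · obtain ⟨A, -, hA, h, -⟩ := key k hk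
    intro N P hP hs Z hZ
    refine h N P hP hs Z fun e he => ?_
    obtain ⟨h1, h2, t, ht, hf, h3⟩ := hZ e he
    exact ⟨hA k (by omega) _ hf.1 h1, hA k (by omega) _ hf.2.1 h2, t, ht, hf, h3⟩
  · obtain ⟨A, -, hA, -, h, -⟩ := key k hk
    intro N P hP hs Z hZ
    refine h N P hP hs Z fun e he => ?_
    obtain ⟨h1, h2, t, ht, hf, h3⟩ := hZ e he
    exact ⟨hA k (by omega) _ hf.1 h1, hA (k + 1) le_rfl _ hf.2.1 h2, t, ht, hf, h3⟩
  · obtain ⟨A, hA, -, -, -, h, -⟩ := key k hk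
    intro N P hP hs h1 h2
    obtain ⟨c, hc, c', hc', he⟩ := h N P hP hs h1 h2
    exact ⟨c, hA hc, c', hA hc', he⟩
  · obtain ⟨A, -, hA, -, -, -, h, -⟩ := key k hk
    intro z Z hZ
    refine h z Z fun c hc => ?_
    obtain ⟨h1, h2, h3⟩ := hZ c hc
    exact ⟨hA k (by omega) _ h2 h1, h2, h3⟩
  · obtain ⟨A, -, hA, -, -, -, -, h⟩ := key k (by omega)
    intro n hn Z hZ
    refine h j hj hjk n hn Z fun d' hd' => ?_
    obtain ⟨h1, d, hd, c, hc, hc', he⟩ := hZ d' hd'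
    exact ⟨h1, d, hd, c, hA j (by omega) _ hc' hc, hc', he⟩
-- PART b
theorem T2Good_y {k : ℕ} (hk : k0 ≤ k) : 4096 ≤ yy k := by
  have h1 := yy_big hk
  have h2 := LL_pos k
  have h3 : 2 ^ 12 ≤ 2 ^ 3000 := Nat.pow_le_pow_right (by norm_num) (by norm_num)
  calc 4096 = 2 ^ 12 * 1 := by norm_num
    _ ≤ 2 ^ 3000 * LL k := Nat.mul_le_mul h3 h2
    _ ≤ yy k := h1

theorem T2Good_num {y k E S : ℕ} (hy : 4096 ≤ y) (hk2 : 2 ≤ k) (hk : k < y ^ 400)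
    (hE : E ≤ 2 ^ y ^ 401) (hS : S ≤ 2 ^ ((3 * k - 5) * y ^ 401)) :
    k * (E * (72 * S + 5 * k * y ^ 2212)) ≤ 2 ^ ((3 * k - 1) * y ^ 401) := by
  obtain ⟨m, rfl⟩ : ∃ m, k = m + 2 := ⟨k - 2, by omega⟩
  have hy1 : 1 ≤ y := by omega
  have hY1 : y ^ 400 ≤ y ^ 401 := Nat.pow_le_pow_right hy1 (by norm_num)
  have hY2 : y ^ 2 ≤ y ^ 401 := Nat.pow_le_pow_right hy1 (by norm_num)
  have hp : y ^ 2612 ≤ 2 ^ (2612 * y) := by
    rw [mul_comm, pow_mul]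
    exact Nat.pow_le_pow_left Nat.lt_two_pow_self.le _
  have hq : y ^ 2612 = y ^ 400 * y ^ 2212 := by rw [← pow_add]
  generalize y ^ 401 = Y at *
  generalize y ^ 400 = U at *
  generalize y ^ 2212 = G at *
  have hY3 : 4096 * y ≤ Y := by nlinarith
  have hYp : Y < 2 ^ Y := Nat.lt_two_pow_self
  rw [show 3 * (m + 2) - 5 = 3 * m + 1 by omega] at hS
  rw [show 3 * (m + 2) - 1 = 3 * m + 5 by omega]
  have h1 : 72 * S ≤ 2 ^ ((3 * m + 2) * Y) := by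
    rw [show (3 * m + 2) * Y = Y + (3 * m + 1) * Y by ring, pow_add]
    exact Nat.mul_le_mul (by omega) hS
  have h2 : 5 * (m + 2) * G ≤ 2 ^ ((3 * m + 2) * Y) := by
    calc 5 * (m + 2) * G ≤ 2 ^ 3 * U * G :=
          Nat.mul_le_mul_right _ (Nat.mul_le_mul (by norm_num) hk.le)
      _ = 2 ^ 3 * y ^ 2612 := by rw [hq, mul_assoc]
      _ ≤ 2 ^ 3 * 2 ^ (2612 * y) := Nat.mul_le_mul_left _ hp
      _ = 2 ^ (3 + 2612 * y) := (pow_add _ _ _).symm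
      _ ≤ _ := Nat.pow_le_pow_right (by norm_num) (by nlinarith)
  calc (m + 2) * (E * (72 * S + 5 * (m + 2) * G))
      ≤ 2 ^ Y * (2 ^ Y * (2 ^ Y * 2 ^ ((3 * m + 2) * Y))) := by
        refine Nat.mul_le_mul (by omega) (Nat.mul_le_mul hE ?_)
        have : 2 * 2 ^ ((3 * m + 2) * Y) ≤ 2 ^ Y * 2 ^ ((3 * m + 2) * Y) :=
          Nat.mul_le_mul_right _ (by omega)
        omega
    _ = _ := by
        rw [← pow_add, ← pow_add, ← pow_add]
        congr 1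
        ring

theorem cand_le {K : Set Cell} (hK : Good Pt ξ K) {k n : ℕ} (hk : k0 ≤ k)
    (hn : n < 2 * WW (2 * k)) (Z : Finset (ℕ → ℕ))
    (hZ : ∀ d' ∈ Z, ∃ j, k0 ≤ j ∧ j + 2 ≤ k ∧ Cand Pt ξ K j k n d') : Z.card ≤ XB k := by
  classical
  rcases Z.eq_empty_or_nonempty with rfl | ⟨d₀, hd₀⟩
  · exact Nat.zero_le _
  have hk2 : 2 ≤ k := by
    obtain ⟨j, -, h, -⟩ := hZ d₀ hd₀
    omega
  have hsub : Z ⊆ (range k).biUnion fun j =>
      Z.filter fun d' => k0 ≤ j ∧ j + 2 ≤ k ∧ Cand Pt ξ K j k n d' := by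
    intro d' hd'
    obtain ⟨j, h1, h2, h3⟩ := hZ d' hd'
    exact mem_biUnion.2 ⟨j, mem_range.2 (by omega), mem_filter.2 ⟨hd', h1, h2, h3⟩⟩
  refine (card_le_card hsub).trans ((card_biUnion_le_card_mul _ _
    (EE k * (72 * 2 ^ ((3 * k - 5) * yy k ^ 401) + 5 * k * yy k ^ 2212)) fun j _ => ?_).trans ?_)
  · by_cases hj : k0 ≤ j ∧ j + 2 ≤ k
    · refine (hK.kf j k hj.1 hj.2 n hn _ fun d' hd' => (mem_filter.1 hd').2.2.2).trans ?_
      refine Nat.mul_le_mul_left _ (Nat.add_le_add ?_ le_rfl)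
      rw [mul_assoc, HH, ← pow_add]
      refine Nat.mul_le_mul_left _ (Nat.pow_le_pow_right (by norm_num) ?_)
      have h1 : yy j ^ 401 ≤ yy k ^ 401 := Nat.pow_le_pow_left (yy_mono (by omega)) _
      calc 3 * j * yy j ^ 401 + yy j ^ 401 = (3 * j + 1) * yy j ^ 401 := by
            rw [add_mul, one_mul]
        _ ≤ _ := Nat.mul_le_mul (by omega) h1
    · rw [filter_false_of_mem fun d' _ h => hj ⟨h.1, h.2.1⟩]
      exact Nat.zero_le _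
  · rw [card_range, XB]
    exact T2Good_num (T2Good_y hk) hk2 (tau_eq k ▸ lt_tau k) (EE_le hk) le_rfl

theorem T2Good_num2 {y k W : ℕ} (hy : 4096 ≤ y) (hk1 : 1 ≤ k) (hk : k < y ^ 400)
    (hW : W ≤ 2 ^ (4 * k * y ^ 2212)) :
    2 * W * 2 ^ (3 * k * y ^ 401) * (2 ^ ((3 * k - 1) * y ^ 401)) ^ y ^ 2212 <
      (2 ^ (3 * k * y ^ 401)) ^ y ^ 2212 := by
  obtain ⟨m, rfl⟩ : ∃ m, k = m + 1 := ⟨k - 1, by omega⟩
  have hy1 : 1 ≤ y := by omega
  have hY1 : y ^ 401 = y ^ 400 * y := pow_succ _ _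
  have hY2 : y ^ 401 ≤ y ^ 2212 := Nat.pow_le_pow_right hy1 (by norm_num)
  have hY3 : 1 ≤ y ^ 401 := Nat.one_le_pow _ _ hy1
  generalize y ^ 401 = Y at *
  generalize y ^ 400 = U at *
  generalize y ^ 2212 = G at *
  rw [show 3 * (m + 1) - 1 = 3 * m + 2 by omega]
  have h1 : 4096 * (m + 1) * G ≤ Y * G := Nat.mul_le_mul_right _ (by nlinarith)
  have h2 : (m + 1) * Y ≤ (m + 1) * G := Nat.mul_le_mul_left _ hY2
  have h3 : 1 ≤ (m + 1) * G := Nat.mul_pos (by omega) (by omega)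
  calc 2 * W * 2 ^ (3 * (m + 1) * Y) * (2 ^ ((3 * m + 2) * Y)) ^ G
      ≤ 2 ^ 1 * 2 ^ (4 * (m + 1) * G) * 2 ^ (3 * (m + 1) * Y) * (2 ^ ((3 * m + 2) * Y)) ^ G :=
        Nat.mul_le_mul_right _ (Nat.mul_le_mul_right _ (Nat.mul_le_mul le_rfl hW))
    _ = 2 ^ (1 + 4 * (m + 1) * G + 3 * (m + 1) * Y + (3 * m + 2) * Y * G) := by
        rw [← pow_mul, ← pow_add, ← pow_add, ← pow_add]
    _ < 2 ^ (3 * (m + 1) * Y * G) := Nat.pow_lt_pow_right (by norm_num) (by nlinarith)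
    _ = _ := pow_mul _ _ _

theorem exists_hash' {K : Set Cell} (hK : Good Pt ξ K) : ∃ h, Hash Pt ξ K h := by
  classical
  have key : ∀ k, ∃ f : (ℕ → ℕ) → ℕ, (∀ e, f e < HH k) ∧ (k0 ≤ k → ∀ n < 2 * WW (2 * k),
      ∀ η (Z : Finset (ℕ → ℕ)), (∀ e ∈ Z, f e = η ∧ ∃ d', e = tr (2 * k - 2) d' ∧
        ∃ j, k0 ≤ j ∧ j + 2 ≤ k ∧ Cand Pt ξ K j k n d') → Z.card < sg k) := by
    intro k
    have hH : 0 < HH k := Nat.two_pow_pos _
    by_cases hk : k0 ≤ k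
    · have hy := T2Good_y hk
      have hk1 : 1 ≤ k := le_trans (Nat.one_le_pow _ _ (by omega)) (yy_le hk)
      obtain ⟨f, hf, hf'⟩ := exists_spread (range (2 * WW (2 * k)))
        (fun n => ((Pt k).filter fun d' =>
          ∃ j, k0 ≤ j ∧ j + 2 ≤ k ∧ Cand Pt ξ K j k n d').image (tr (2 * k - 2)))
        (X := XB k) (G := sg k) hH
        (fun n hn => card_image_le.trans
          (cand_le hK hk (mem_range.1 hn) _ fun d' hd' => (mem_filter.1 hd').2))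
        (by
          rw [card_range, HH, XB, sg]
          exact T2Good_num2 hy hk1 (tau_eq k ▸ lt_tau k) (WW_le k))
      refine ⟨f, hf, fun _ n hn η Z hZ => lt_of_le_of_lt (card_le_card fun e he => ?_)
        (hf' n (mem_range.2 hn) η)⟩
      obtain ⟨h1, d', rfl, j, h2, h3, h4⟩ := hZ e he
      exact mem_filter.2 ⟨mem_image_of_mem _ (mem_filter.2 ⟨h4.1, j, h2, h3, h4⟩), h1⟩
    · exact ⟨fun _ => 0, fun _ => hH, fun h => absurd h hk⟩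
  choose h h1 h2 using key
  exact ⟨h, h1, h2⟩
-- PART end
theorem exists_data : Nonempty Data := by
  obtain ⟨Pt, hF⟩ := exists_fine
  obtain ⟨ξ, hξ⟩ := exists_types
  obtain ⟨K, hK⟩ := exists_good hF ξ
  obtain ⟨h, hh⟩ := exists_hash' hK
  exact ⟨⟨Pt, ξ, K, h, hF, hξ, hK, hh⟩⟩

end Pool.Agent.P.MP_d5a1e1_nt.T2
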