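import Pool.Agent.P.MP_d5a1e1_nt.T2Cells
import Pool.Agent.P.MP_d5a1e1_nt.T2Star

/-! Edges inside one state: upper tail and covering. -/

namespace Pool.Agent.P.MP_d5a1e1_nt.T2

open Finset TB

open Classical in
/-- All edges of a frame inside state `k`. -/
noncomputable def E0 (k N : ℕ) (P : Finset Tup) : Finset (Cell × Cell) :=
  (cells k ×ˢ cells k).filter fun e => Ed0 k N P e.1 e.2

-- PART a
theorem mem_E0 {k N : ℕ} {P : Finset Tup} {e : Cell × Cell} :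
    e ∈ E0 k N P ↔ Ed0 k N P e.1 e.2 := by
  classical
  simp only [E0, mem_filter, mem_product]
  refine ⟨fun h => h.2, fun h => ⟨?_, h⟩⟩
  obtain ⟨t, -, hf, -⟩ := h
  exact ⟨hf.1, hf.2.1⟩
theorem E0_bip {k N : ℕ} {P : Finset Tup} : ∀ e ∈ E0 k N P, ∀ e' ∈ E0 k N P, e.1 ≠ e'.2 := by
  intro e he e' he' h
  obtain ⟨t, -, -, h1, h2⟩ := mem_E0.1 he
  obtain ⟨t', -, -, h3, h4⟩ := mem_E0.1 he'
  rw [← h] at h3 h4
  omega
theorem T2K0a_choose (k N : ℕ) (P : Finset Tup) : ∃ f : Cell × Cell → Tup, ∀ e ∈ E0 k N P,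
    f e ∈ P ∧ Fit k k (f e) e.1 e.2 ∧ e.1.z + e.2.z = N ∧ e.1.z < e.2.z := by
  have : Nonempty Tup := ⟨⟨0, 0, fun _ => 0, 0, 0, 0, 0⟩⟩
  choose! f hf using fun e (he : e ∈ E0 k N P) => mem_E0.1 he
  exact ⟨f, hf⟩
theorem T2K0a_ext {k : ℕ} {c c' : Cell} (hc : c ∈ cells k) (hc' : c' ∈ cells k) (hi : c.i = c'.i)
    (hη : c.η = c'.η) (hx : ∀ s < 2 * k, c.x s = c'.x s) (hz : c.z = c'.z) : c = c' := by
  obtain ⟨h1, -, -, h2, -⟩ := mem_cells.1 hc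
  obtain ⟨h3, -, -, h4, -⟩ := mem_cells.1 hc'
  refine Cell.ext (h1.trans h3.symm) hi hη (funext fun s => ?_) hz
  by_cases hs : s < 2 * k
  · exact hx s hs
  · rw [(mem_XX.1 h2).2.1 s (by omega), (mem_XX.1 h4).2.1 s (by omega)]
theorem E0_out {k N : ℕ} {P : Finset Tup} (h : Fr k k N P) (a : Cell) :
    #{e ∈ E0 k N P | e.1 = a} ≤ yy k := by
  obtain ⟨f, hf⟩ := T2K0a_choose k N P
  refine le_trans (card_le_card_of_injOn f ?_ ?_) (h.out a.i)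
  · intro e he
    obtain ⟨he1, he2⟩ := mem_filter.1 (mem_coe.1 he)
    obtain ⟨h1, h2, -⟩ := hf e he1
    exact mem_coe.2 (mem_filter.2 ⟨h1, by rw [← he2]; exact h2.2.2.1.symm⟩)
  · intro e he e' he' hee
    obtain ⟨he1, he2⟩ := mem_filter.1 (mem_coe.1 he)
    obtain ⟨he3, he4⟩ := mem_filter.1 (mem_coe.1 he')
    obtain ⟨-, ⟨-, a2, -, a4, -, a6, a7⟩, a8, -⟩ := hf e he1
    obtain ⟨-, ⟨-, b2, -, b4, -, b6, b7⟩, b8, -⟩ := hf e' he3
    rw [← hee] at b4 b6 b7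
    rw [he2] at a7 a8
    rw [he4] at b7 b8
    refine Prod.ext (he2.trans he4.symm) (T2K0a_ext a2 b2 (a4.trans b4.symm) (a6.trans b6.symm)
      (fun s hs => ?_) (by omega))
    have := a7 s hs
    have := b7 s hs
    omega
theorem E0_in {k N : ℕ} {P : Finset Tup} (h : Fr k k N P) (b : Cell) :
    #{e ∈ E0 k N P | e.2 = b} ≤ yy k := by
  obtain ⟨f, hf⟩ := T2K0a_choose k N P
  refine le_trans (card_le_card_of_injOn f ?_ ?_) (h.inn b.i)
  · intro e he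
    obtain ⟨he1, he2⟩ := mem_filter.1 (mem_coe.1 he)
    obtain ⟨h1, h2, -⟩ := hf e he1
    exact mem_coe.2 (mem_filter.2 ⟨h1, by rw [← he2]; exact h2.2.2.2.1.symm⟩)
  · intro e he e' he' hee
    obtain ⟨he1, he2⟩ := mem_filter.1 (mem_coe.1 he)
    obtain ⟨he3, he4⟩ := mem_filter.1 (mem_coe.1 he')
    obtain ⟨-, ⟨a2, -, a4, -, a6, -, a7⟩, a8, -⟩ := hf e he1
    obtain ⟨-, ⟨b2, -, b4, -, b6, -, b7⟩, b8, -⟩ := hf e' he3
    rw [← hee] at b4 b6 b7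
    rw [he2] at a7 a8
    rw [he4] at b7 b8
    refine Prod.ext (T2K0a_ext a2 b2 (a4.trans b4.symm) (a6.trans b6.symm)
      (fun s hs => ?_) (by omega)) (he2.trans he4.symm)
    have := a7 s hs
    have := b7 s hs
    omega
theorem E0_sum_le (k N : ℕ) (P : Finset Tup) :
    ∑ e ∈ E0 k N P, qq e.1 * qq e.2 ≤ (rho k : ℝ) ^ 2 * ∑ t ∈ P, GG k k t.yb := by
  classical
  obtain ⟨f, hf⟩ := T2K0a_choose k N P
  let φ : Cell × Cell → Tup × (ℕ → ℕ) × (ℕ → ℕ) × ℕ := fun e => (f e, e.1.x, e.2.x, e.1.z)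
  let w : Tup × (ℕ → ℕ) × (ℕ → ℕ) × ℕ → ℝ := fun q => (rho k : ℝ) ^ 2 *
    ((if ∀ i < 2 * k, q.2.1 i + q.2.2.1 i = q.1.yb i then ff k q.2.1 * ff k q.2.2.1 else 0) *
      (cw q.2.2.2 * cw (N - q.2.2.2)))
  have hw : ∀ q, 0 ≤ w q := fun q => by
    refine mul_nonneg (by positivity) (mul_nonneg ?_ (mul_nonneg (cw_pos _).le (cw_pos _).le))
    split_ifs
    · exact mul_nonneg (ff_pos _ _).le (ff_pos _ _).le
    · exact le_rfl
  have hinj : Set.InjOn φ (E0 k N P) := by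
    intro e he e' he' hee
    obtain ⟨-, ⟨a1, a2, a3, a4, a5, a6, -⟩, a8, -⟩ := hf e (mem_coe.1 he)
    obtain ⟨-, ⟨b1, b2, b3, b4, b5, b6, -⟩, b8, -⟩ := hf e' (mem_coe.1 he')
    simp only [φ, Prod.mk.injEq] at hee
    obtain ⟨c1, c2, c3, c4⟩ := hee
    rw [← c1] at b3 b4 b5 b6
    exact Prod.ext (T2K0a_ext a1 b1 (a3.trans b3.symm) (a5.trans b5.symm)
      (fun s _ => by rw [c2]) c4) (T2K0a_ext a2 b2 (a4.trans b4.symm) (a6.trans b6.symm)
      (fun s _ => by rw [c3]) (by omega))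
  calc ∑ e ∈ E0 k N P, qq e.1 * qq e.2 ≤ ∑ e ∈ E0 k N P, w (φ e) := by
        refine sum_le_sum fun e he => ?_
        obtain ⟨-, ⟨a1, a2, -, -, -, -, a7⟩, a8, -⟩ := hf e he
        have h1 := qq_le e.1
        have h2 := qq_le e.2
        rw [(mem_cells.1 a1).1] at h1
        rw [(mem_cells.1 a2).1] at h2
        refine (mul_le_mul h1 h2 (qq_nonneg _) ((qq_nonneg _).trans h1)).trans (le_of_eq ?_)
        simp only [w, φ]
        rw [if_pos a7, show N - e.1.z = e.2.z by omega]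
        ring
    _ = ∑ q ∈ (E0 k N P).image φ, w q := (sum_image hinj).symm
    _ ≤ ∑ q ∈ P ×ˢ XX k ×ˢ XX k ×ˢ range (N + 1), w q := by
        refine sum_le_sum_of_subset_of_nonneg (fun q hq => ?_) fun q _ _ => hw q
        obtain ⟨e, he, rfl⟩ := mem_image.1 hq
        obtain ⟨a0, ⟨a1, a2, -⟩, a8, -⟩ := hf e he
        simp only [φ, mem_product, mem_range]
        exact ⟨a0, (mem_cells.1 a1).2.2.2.1, (mem_cells.1 a2).2.2.2.1, by omega⟩
    _ = (rho k : ℝ) ^ 2 * ∑ t ∈ P, GG k k t.yb := by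
        rw [mul_sum, sum_product]
        refine sum_congr rfl fun t _ => ?_
        unfold GG
        rw [mul_sum, sum_product]
        refine sum_congr rfl fun x _ => ?_
        rw [mul_sum, sum_product]
        refine sum_congr rfl fun x' _ => ?_
        simp only [w]
        rw [← mul_sum, ← mul_sum, cw_conv, mul_one]
theorem pr_K0 {k : ℕ} (hk : k0 ≤ k) (S : Finset Cell) :
    pr S qq (fun A => ¬K0 (A : Set Cell) k) ≤ 1 / 2 ^ (k + 4) := by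
  classical
  obtain ⟨F, hF, hmem⟩ := exists_frames hk (Or.inl rfl : k = k ∨ k = k + 1)
  let F' := F.filter fun q => Fr k k q.1 q.2 ∧ ∑ t ∈ q.2, GG k k t.yb ≤ 15 * (lam k : ℝ) ^ 2
  have h1 : pr S qq (fun A => ¬K0 (A : Set Cell) k) ≤ pr S qq (fun A => ∃ q ∈ F',
      (gg k : ℝ) ≤ #{e ∈ E0 k q.1 q.2 | e.1 ∈ A ∧ e.2 ∈ A}) := by
    refine pr_mono qq_nonneg qq_le_one fun A _ h => ?_
    unfold K0 at h
    push Not at h
    obtain ⟨N, P, hP, hs, Z, hZ, hc⟩ := h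
    refine ⟨(N, P), mem_filter.2 ⟨hmem N P hP, hP, hs⟩, ?_⟩
    have hsub : Z ⊆ {e ∈ E0 k N P | e.1 ∈ A ∧ e.2 ∈ A} := fun e he =>
      mem_filter.2 ⟨mem_E0.2 (hZ e he).2.2, mem_coe.1 (hZ e he).1, mem_coe.1 (hZ e he).2.1⟩
    exact_mod_cast hc.trans (card_le_card hsub)
  refine h1.trans ((pr_exists_le qq_nonneg qq_le_one _ _).trans ?_)
  have h2 : ∀ q ∈ F', pr S qq (fun A => (gg k : ℝ) ≤ #{e ∈ E0 k q.1 q.2 | e.1 ∈ A ∧ e.2 ∈ A}) ≤
      Real.exp ((4 * (130 * (yy k : ℝ) ^ 2216) - gg k) / yy k) := by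
    intro q hq
    obtain ⟨-, hP, hs⟩ := mem_filter.1 hq
    refine pr_star qq_nonneg qq_le_one _ E0_bip (yy_ge k) (E0_out hP) (fun b => ?_) ?_ _
    · have hy : (0 : ℝ) < yy k := by exact_mod_cast lt_of_lt_of_le (by norm_num) (yy_ge k)
      have h3 : ∀ e ∈ (E0 k q.1 q.2).filter (fun e => e.2 = b), qq e.1 ≤ 1 / (yy k : ℝ) := by
        intro e he
        obtain ⟨t, -, hf, -⟩ := mem_E0.1 (mem_filter.1 he).1
        rw [le_div_iff₀ hy, mul_comm]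
        exact qq_small hf.1
      refine (sum_le_card_nsmul _ _ _ h3).trans ?_
      rw [nsmul_eq_mul, mul_one_div, div_le_one hy]
      exact_mod_cast E0_in hP b
    · refine (E0_sum_le k q.1 q.2).trans
        ((mul_le_mul_of_nonneg_left hs (by positivity)).trans ?_)
      have h4 : (rho k : ℝ) ^ 2 * (lam k : ℝ) ^ 2 = (yy k : ℝ) ^ 2216 := by
        unfold rho lam
        push_cast
        rw [← pow_mul, ← pow_mul, ← pow_add]
      have h5 : (0 : ℝ) ≤ (yy k : ℝ) ^ 2216 := by positivity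
      calc (rho k : ℝ) ^ 2 * (15 * (lam k : ℝ) ^ 2)
          = 15 * ((rho k : ℝ) ^ 2 * (lam k : ℝ) ^ 2) := by ring
        _ ≤ 130 * (yy k : ℝ) ^ 2216 := by rw [h4]; linarith
  refine (sum_le_card_nsmul _ _ _ h2).trans (le_trans ?_ (num_star hk (Or.inl rfl)))
  rw [nsmul_eq_mul]
  refine mul_le_mul_of_nonneg_right ?_ (Real.exp_pos _).le
  exact_mod_cast (card_filter_le _ _).trans hF
-- PART b
theorem E0_sum_ge {k N : ℕ} {P : Finset Tup} (h : Fr k k N P) (h1 : 4 * BB k ≤ N)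
    (h2 : N < ZZ k) :
    (rho k : ℝ) ^ 2 * (∑ t ∈ P, GG k k t.yb) / 10 ≤ ∑ e ∈ E0 k N P, qq e.1 * qq e.2 := by
  classical
  have hB : 20 ≤ N := by
    have h3 := BB_gt k
    have h4 : 1 ≤ 2 ^ sg k := Nat.one_le_two_pow
    omega
  set Zs : Finset ℕ := (range N).filter fun z => N ≤ 4 * z ∧ 2 * z < N with hZs
  set I : Finset (Tup × (ℕ → ℕ) × (ℕ → ℕ) × ℕ) :=
    (P ×ˢ XX k ×ˢ XX k ×ˢ Zs).filter fun q => ∀ i < 2 * k, q.2.1 i + q.2.2.1 i = q.1.yb i with hI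
  let φ : Tup × (ℕ → ℕ) × (ℕ → ℕ) × ℕ → Cell × Cell := fun q =>
    (⟨k, q.1.i, q.1.η, q.2.1, q.2.2.2⟩, ⟨k, q.1.i', q.1.η', q.2.2.1, N - q.2.2.2⟩)
  have hmem : ∀ q ∈ I, q.1 ∈ P ∧ (φ q).1 ∈ cells k ∧ (φ q).2 ∈ cells k ∧ φ q ∈ E0 k N P := by
    rintro ⟨t, x, x', z⟩ hq
    simp only [hI, hZs, mem_filter, mem_product, mem_range] at hq
    obtain ⟨⟨ht, hx, hx', -, hz1, hz2⟩, hs⟩ := hq
    obtain ⟨t1, t2, -, t4, t5, -, -⟩ := mem_tups.1 (h.sub ht)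
    have c1 : (φ (t, x, x', z)).1 ∈ cells k :=
      mem_cells.2 ⟨rfl, t1, t4, hx, by show BB k ≤ z; omega, by show z < ZZ k; omega⟩
    have c2 : (φ (t, x, x', z)).2 ∈ cells k :=
      mem_cells.2 ⟨rfl, t2, t5, hx', by show BB k ≤ N - z; omega, by show N - z < ZZ k; omega⟩
    refine ⟨ht, c1, c2, mem_E0.2 ⟨t, ht, ⟨c1, c2, rfl, rfl, rfl, rfl, hs⟩, ?_, ?_⟩⟩
    · show z + (N - z) = N
      omega
    · show z < N - z
      omega
  have hinj : Set.InjOn φ I := by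
    rintro ⟨t, x, x', z⟩ hq ⟨u, y, y', w⟩ hr he
    have e1 := congrArg Prod.fst he
    have e2 := congrArg Prod.snd he
    simp only [φ, Cell.mk.injEq] at e1 e2
    have e3 : t = u := h.one t (hmem _ hq).1 u (hmem _ hr).1 e1.2.1 e2.2.1
    rw [e3, e1.2.2.2.1, e2.2.2.2.1, e1.2.2.2.2]
  have hle : ∑ q ∈ I, qq (φ q).1 * qq (φ q).2 ≤ ∑ e ∈ E0 k N P, qq e.1 * qq e.2 := by
    rw [← sum_image (f := fun e : Cell × Cell => qq e.1 * qq e.2) hinj]
    refine sum_le_sum_of_subset_of_nonneg ?_ fun e _ _ => mul_nonneg (qq_nonneg _) (qq_nonneg _)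
    intro e he
    obtain ⟨q, hq, rfl⟩ := mem_image.1 he
    exact (hmem q hq).2.2.2
  refine le_trans ?_ hle
  have heq : ∑ q ∈ I, qq (φ q).1 * qq (φ q).2 =
      (rho k : ℝ) ^ 2 * (∑ t ∈ P, GG k k t.yb) * ∑ z ∈ Zs, cw z * cw (N - z) := by
    rw [sum_congr rfl fun q hq => by rw [qq_eq (hmem q hq).2.1, qq_eq (hmem q hq).2.2.1]]
    rw [hI, sum_filter, sum_product, mul_assoc, sum_mul, mul_sum]
    refine sum_congr rfl fun t _ => ?_
    rw [sum_product, GG, sum_mul, mul_sum]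
    refine sum_congr rfl fun x _ => ?_
    rw [sum_product, sum_mul, mul_sum]
    refine sum_congr rfl fun x' _ => ?_
    by_cases hc : ∀ i < 2 * k, x i + x' i = t.yb i
    · simp only [if_pos hc]
      rw [mul_sum, mul_sum]
      refine sum_congr rfl fun z _ => ?_
      simp only [φ]
      ring
    · simp only [if_neg hc]
      simp
  rw [heq]
  have h3 := conv_ge hB
  have h4 : 0 ≤ (rho k : ℝ) ^ 2 * ∑ t ∈ P, GG k k t.yb :=
    mul_nonneg (sq_nonneg _) (sum_nonneg fun t _ => GG_nonneg _ _ _)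
  have h5 := mul_le_mul_of_nonneg_left h3 h4
  linarith
theorem T2K0b_deg {k : ℕ} (s : Finset (Cell × Cell)) (g : Cell × Cell → Cell)
    (hs : #s ≤ yy k) (hg : ∀ e ∈ s, g e ∈ cells k) : ∑ e ∈ s, qq (g e) ≤ 1 := by
  have hy : (0 : ℝ) < yy k := by
    have := yy_ge k
    exact_mod_cast (by omega : 0 < yy k)
  have h1 : ∑ e ∈ s, qq (g e) ≤ #s • ((1 : ℝ) / yy k) := by
    refine sum_le_card_nsmul _ _ _ fun e he => ?_
    rw [le_div_iff₀ hy, mul_comm]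
    exact qq_small (hg e he)
  refine h1.trans ?_
  rw [nsmul_eq_mul, mul_one_div, div_le_one hy]
  exact_mod_cast hs
theorem pr_KC {k : ℕ} (hk : k0 ≤ k) (S : Finset Cell) (hS : cells k ⊆ S) :
    pr S qq (fun A => ¬KC (A : Set Cell) k) ≤ 1 / 2 ^ (k + 4) := by
  classical
  obtain ⟨F, hF, hFr⟩ := exists_frames hk (Or.inl rfl : k = k ∨ k = k + 1)
  set F' : Finset (ℕ × Finset Tup) := F.filter fun q => Fr k k q.1 q.2 ∧
    (lam k : ℝ) ^ 2 / 48 ≤ ∑ t ∈ q.2, GG k k t.yb ∧ 4 * BB k ≤ q.1 ∧ q.1 < ZZ k with hF'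
  have hcell : ∀ N P, ∀ e ∈ E0 k N P, e.1 ∈ cells k ∧ e.2 ∈ cells k := by
    intro N P e he
    obtain ⟨t, -, hf, -⟩ := mem_E0.1 he
    exact ⟨hf.1, hf.2.1⟩
  have h1 : pr S qq (fun A => ¬KC (A : Set Cell) k) ≤
      pr S qq (fun A => ∃ q ∈ F', ∀ e ∈ E0 k q.1 q.2, ¬(e.1 ∈ A ∧ e.2 ∈ A)) := by
    refine pr_mono qq_nonneg qq_le_one fun A _ hA => ?_
    by_contra hc
    refine hA fun N P a1 a2 a3 a4 => ?_
    by_contra hn
    refine hc ⟨(N, P), mem_filter.2 ⟨hFr N P a1, a1, a2, a3, a4⟩, fun e he hm => hn ?_⟩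
    exact ⟨e.1, mem_coe.2 hm.1, e.2, mem_coe.2 hm.2, mem_E0.1 he⟩
  refine h1.trans ((pr_exists_le qq_nonneg qq_le_one F' _).trans ?_)
  have h2 : ∀ q ∈ F', pr S qq (fun A => ∀ e ∈ E0 k q.1 q.2, ¬(e.1 ∈ A ∧ e.2 ∈ A)) ≤
      Real.exp (-((yy k : ℝ) ^ 2216 / 480 / 3)) := by
    intro q hq
    obtain ⟨-, a1, a2, a3, a4⟩ := mem_filter.1 hq
    refine (pr_no_edge_le qq_nonneg qq_le_one _
      (fun e he => ⟨hS (hcell _ _ e he).1, hS (hcell _ _ e he).2⟩) E0_bip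
      (fun a => T2K0b_deg _ Prod.snd (E0_out a1 a) fun e he => (hcell _ _ e (mem_filter.1 he).1).2)
      (fun b => T2K0b_deg _ Prod.fst (E0_in a1 b) fun e he =>
        (hcell _ _ e (mem_filter.1 he).1).1)).trans ?_
    refine Real.exp_le_exp.2 ?_
    have h3 := E0_sum_ge a1 a3 a4
    have h4 : (rho k : ℝ) ^ 2 * (lam k : ℝ) ^ 2 = (yy k : ℝ) ^ 2216 := by
      unfold rho lam
      push_cast
      rw [← pow_mul, ← pow_mul, ← pow_add]
    have h5 := mul_le_mul_of_nonneg_left a2 (sq_nonneg (rho k : ℝ))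
    rw [← h4]
    linarith
  refine (sum_le_card_nsmul _ _ _ h2).trans (le_trans ?_ (num_cover hk))
  rw [nsmul_eq_mul]
  refine mul_le_mul_of_nonneg_right ?_ (Real.exp_pos _).le
  exact_mod_cast (card_filter_le _ _).trans hF
-- PART c
theorem T2K0c_card (k z : ℕ) :
    #{c ∈ cells k | c.z = z} ≤ mm k * (HH k * (XX k).card) := by
  have h : #{c ∈ cells k | c.z = z} ≤ (range (mm k) ×ˢ range (HH k) ×ˢ XX k).card := by
    refine card_le_card_of_injOn (fun c => (c.i, c.η, c.x)) (fun c hc => ?_) fun c hc c' hc' h => ?_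
    · have h1 := mem_cells.1 (mem_filter.1 (mem_coe.1 hc)).1
      exact mem_coe.2 (mem_product.2 ⟨mem_range.2 h1.2.1,
        mem_product.2 ⟨mem_range.2 h1.2.2.1, h1.2.2.2.1⟩⟩)
    · obtain ⟨h1, h2⟩ := mem_filter.1 (mem_coe.1 hc)
      obtain ⟨h3, h4⟩ := mem_filter.1 (mem_coe.1 hc')
      obtain ⟨h5, h6⟩ := Prod.mk.inj h
      obtain ⟨h7, h8⟩ := Prod.mk.inj h6
      exact Cell.ext ((mem_cells.1 h1).1.trans (mem_cells.1 h3).1.symm) h5 h7 h8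
        (h2.trans h4.symm)
  rwa [card_product, card_product, card_range, card_range] at h

theorem T2K0c_num (k : ℕ) : 8 * (yy k ^ 401 + 3 * k * yy k ^ 401) ≤ sg k ∧ k + 4 ≤ sg k ∧
    32 ≤ sg k := by
  have hy := yy_ge k
  have hy0 : 0 < yy k := by omega
  have h1 : k < yy k ^ 400 := tau_eq k ▸ lt_tau k
  have h2 : 32 * (yy k ^ 400 * yy k ^ 401) ≤ sg k := by
    have h3 : 2 ^ 5 ≤ yy k ^ 1411 :=
      (Nat.pow_le_pow_left hy 5).trans (Nat.pow_le_pow_right hy0 (by norm_num))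
    have h4 : sg k = yy k ^ 1411 * (yy k ^ 400 * yy k ^ 401) := by
      rw [← pow_add, ← pow_add]; rfl
    rw [h4]
    exact Nat.mul_le_mul_right _ h3
  have h5 : 1 ≤ yy k ^ 401 := Nat.one_le_pow _ _ hy0
  generalize yy k ^ 400 = a at h1 h2
  generalize yy k ^ 401 = b at h2 h5 ⊢
  generalize sg k = s at h2 ⊢
  have h6 : (k + 1) * b ≤ a * b := Nat.mul_le_mul_right b h1
  have h7 : (k + 1) * 1 ≤ (k + 1) * b := Nat.mul_le_mul_left _ h5
  have h8 : (k + 1) * b = k * b + b := by ring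
  have h9 : 3 * k * b = 3 * (k * b) := by ring
  omega

theorem T2K0c_sum {k : ℕ} (hk : k0 ≤ k) (z : ℕ) :
    ∑ c ∈ cells k with c.z = z, qq c ≤ 1 / 2 ^ (sg k / 4) := by
  have h1 : ∀ c ∈ (cells k).filter fun c => c.z = z,
      qq c ≤ (rho k : ℝ) * (1 / 2 ^ (sg k / 2)) := by
    intro c hc
    have h2 := (mem_filter.1 hc).1
    rw [qq_eq h2, mul_assoc]
    refine mul_le_mul_of_nonneg_left ?_ (Nat.cast_nonneg _)
    exact (mul_le_of_le_one_left (cw_pos _).le (ff_le_one _ _)).trans (cw_cell h2)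
  refine (sum_le_card_nsmul _ _ _ h1).trans ?_
  have h2 : #{c ∈ cells k | c.z = z} * rho k * 2 ^ (sg k / 4) ≤ 2 ^ (sg k / 2) := by
    have h3 := (T2K0c_num k).1
    calc #{c ∈ cells k | c.z = z} * rho k * 2 ^ (sg k / 4)
        ≤ mm k * (HH k * (XX k).card) * rho k * 2 ^ (sg k / 4) :=
          Nat.mul_le_mul_right _ (Nat.mul_le_mul_right _ (T2K0c_card k z))
      _ = mm k * (XX k).card * rho k * HH k * 2 ^ (sg k / 4) := by ring
      _ ≤ 2 ^ yy k ^ 401 * HH k * 2 ^ (sg k / 4) :=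
          Nat.mul_le_mul_right _ (Nat.mul_le_mul_right _ (mm_XX_le hk))
      _ = 2 ^ (yy k ^ 401 + 3 * k * yy k ^ 401 + sg k / 4) := by rw [HH, ← pow_add, ← pow_add]
      _ ≤ 2 ^ (sg k / 2) := Nat.pow_le_pow_right (by norm_num) (by omega)
  have h3 : (#{c ∈ cells k | c.z = z} : ℝ) * rho k * 2 ^ (sg k / 4) ≤ 2 ^ (sg k / 2) := by
    exact_mod_cast h2
  rw [nsmul_eq_mul, ← mul_assoc, mul_one_div, div_le_div_iff₀ (by positivity) (by positivity),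
    one_mul]
  exact h3

theorem T2K0c_ZZ (k : ℕ) : ZZ k ≤ 2 ^ (7 * sg (k + 2)) := by
  have h1 : BB k ≤ 2 ^ (2 * sg (k + 2)) := (BB_mono (by omega)).trans (BB_le (k + 2))
  have h2 : BB (k + 1) ≤ 2 ^ (2 * sg (k + 2)) := (BB_mono (by omega)).trans (BB_le (k + 2))
  have h3 : 5 ≤ 2 ^ sg (k + 2) :=
    le_trans (by norm_num) (Nat.pow_le_pow_right (by norm_num)
      (le_trans (by norm_num : 3 ≤ 32) (T2K0c_num (k + 2)).2.2))
  calc ZZ k ≤ 2 ^ sg (k + 2) * (2 ^ (2 * sg (k + 2))) ^ 2 * 2 ^ (2 * sg (k + 2)) :=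
        Nat.mul_le_mul (Nat.mul_le_mul h3 (Nat.pow_le_pow_left h1 2)) h2
    _ = 2 ^ (7 * sg (k + 2)) := by
        rw [← pow_mul, ← pow_add, ← pow_add]
        congr 1
        ring

theorem T2K0c_exp {k : ℕ} (hk : 1 ≤ k) :
    0 < d0 ∧ 7 * sg (k + 2) + (k + 4) ≤ sg k / 4 * d0 := by
  obtain ⟨c, hc, h1, h2⟩ : ∃ c, 0 < c ∧ d0 = 40 * c ∧ sg (k + 2) ≤ c * sg k :=
    ⟨2 ^ 2212, Nat.two_pow_pos _, by unfold d0; with_reducible rfl, sg_add_two hk⟩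
  obtain ⟨-, h3, h4⟩ := T2K0c_num k
  rw [h1]
  refine ⟨by omega, ?_⟩
  generalize sg (k + 2) = s' at h2 ⊢
  generalize sg k = s at h2 h3 h4 ⊢
  have h5 : s ≤ 5 * (s / 4) := by omega
  have h6 : c * s ≤ c * (5 * (s / 4)) := Nat.mul_le_mul_left c h5
  have h7 : 1 * s ≤ c * s := Nat.mul_le_mul_right s hc
  have h8 : c * (5 * (s / 4)) = 5 * (c * (s / 4)) := by ring
  have h9 : s / 4 * (40 * c) = 40 * (c * (s / 4)) := by ring
  omega

theorem pr_KA {k : ℕ} (hk : k0 ≤ k) (S : Finset Cell) :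
    pr S qq (fun A => ¬KA (A : Set Cell) k) ≤ 1 / 2 ^ (k + 4) := by
  have hk1 : 1 ≤ k := (Nat.one_le_pow _ _ (two_pos.trans_le (yy_ge k))).trans (yy_le hk)
  obtain ⟨hd, he⟩ := T2K0c_exp hk1
  refine le_trans (pr_mono qq_nonneg qq_le_one (E' := fun A => ∃ z ∈ range (ZZ k),
    d0 ≤ (((cells k).filter fun c => c.z = z).filter (· ∈ A)).card) ?_)
    ((pr_exists_le qq_nonneg qq_le_one _ _).trans ?_)
  · intro A _ h
    unfold KA at h
    push Not at h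
    obtain ⟨z, Z, h1, h2⟩ := h
    obtain ⟨c, hc⟩ := card_pos.1 (hd.trans_le h2)
    refine ⟨z, mem_range.2 ((h1 c hc).2.2 ▸ (mem_cells.1 (h1 c hc).2.1).2.2.2.2.2),
      h2.trans (card_le_card fun c' hc' => ?_)⟩
    exact mem_filter.2 ⟨mem_filter.2 (h1 c' hc').2, mem_coe.1 (h1 c' hc').1⟩
  · have h1 : ∀ z ∈ range (ZZ k), pr S qq (fun A =>
        d0 ≤ (((cells k).filter fun c => c.z = z).filter (· ∈ A)).card) ≤
        1 / 2 ^ (sg k / 4 * d0) := by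
      intro z _
      refine (pr_many_le qq_nonneg qq_le_one _ _).trans ?_
      rw [pow_mul, ← one_div_pow]
      exact pow_le_pow_left₀ (sum_nonneg fun c _ => qq_nonneg c) (T2K0c_sum hk z) _
    refine (sum_le_card_nsmul _ _ _ h1).trans ?_
    have h2 : ZZ k * 2 ^ (k + 4) ≤ 2 ^ (sg k / 4 * d0) :=
      (Nat.mul_le_mul_right _ (T2K0c_ZZ k)).trans (by
        rw [← pow_add]
        exact Nat.pow_le_pow_right (by norm_num) he)
    have h3 : (ZZ k : ℝ) * 2 ^ (k + 4) ≤ 2 ^ (sg k / 4 * d0) := by exact_mod_cast h2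
    rw [card_range, nsmul_eq_mul, mul_one_div, div_le_div_iff₀ (by positivity) (by positivity),
      one_mul]
    exact h3

end Pool.Agent.P.MP_d5a1e1_nt.T2
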