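import Pool.Agent.P.MP_d5a1e1_nt.T2Good
import Pool.Agent.P.MP_d5a1e1_nt.T2Cover
import Pool.Agent.P.MP_d5a1e1_nt.T2Near
import Pool.Agent.P.MP_d5a1e1_nt.T2Far

/-! The thin basis. -/

namespace Pool.Agent.P.MP_d5a1e1_nt.T2

open Finset TB

/-- The basis. -/
def Data.AA (D : Data) : Set ℕ := {a | a < 5 * WW (2 * k0 + 1) ∨ ∃ k, k0 ≤ k ∧ a ∈ D.A k}

-- PART a
theorem T2Main_lt (i : ℕ) : i < WW i := by
  induction i with
  | zero => rw [WW_zero]; exact Nat.one_pos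
  | succ i ih => have := WW_step i; omega

theorem basis (D : Data) (n : ℕ) : ∃ a ∈ D.AA, ∃ b ∈ D.AA, a + b = n := by
  by_cases h : n < 5 * WW (2 * k0 + 1)
  · refine ⟨n, Or.inl h, 0, Or.inl ?_, rfl⟩
    have := WW_pos (2 * k0 + 1)
    omega
  · have hex : ∃ m, n < 5 * WW (2 * (k0 + m) + 3) := ⟨n, by
      have := T2Main_lt (2 * (k0 + n) + 3)
      omega⟩
    have h1 : 5 * WW (2 * (k0 + Nat.find hex) + 1) ≤ n := by
      rcases hm : Nat.find hex with _ | m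
      · simpa using h
      · have := Nat.find_min hex (m := m) (by omega)
        rw [show 2 * (k0 + (m + 1)) + 1 = 2 * (k0 + m) + 3 by ring]
        omega
    obtain ⟨a, ha, b, hb, e⟩ := cover D (Nat.le_add_right k0 _) h1 (Nat.find_spec hex)
    exact ⟨a, Or.inr ⟨_, Nat.le_add_right k0 _, ha⟩, b, Or.inr ⟨_, Nat.le_add_right k0 _, hb⟩, e⟩

theorem state_le (D : Data) : ∃ K : ℕ, ∀ k, k0 ≤ k → ∀ n (Z : Finset (ℕ × ℕ)),
    (∀ y ∈ Z, (∃ j, k0 ≤ j ∧ j ≤ k ∧ y.1 ∈ D.A j) ∧ y.2 ∈ D.A k ∧ y.1 + y.2 = n) →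
      Z.card ≤ K * yy k ^ 2229 := by
  classical
  obtain ⟨M, hM⟩ := MM_le
  refine ⟨M * (9 * 600) + 9 * M * d0 ^ 2 + 126 * d0, fun k hk n Z hZ => ?_⟩
  have hy1 : 1 ≤ yy k := by have := yy_ge k; omega
  set Z0 := Z.filter fun y => y.1 ∈ D.A k with hZ0
  set Z1 := Z.filter fun y => ∃ j, k0 ≤ j ∧ k = j + 1 ∧ y.1 ∈ D.A j with hZ1
  set Z2 := Z.filter fun y => ∃ j, k0 ≤ j ∧ j + 2 ≤ k ∧ y.1 ∈ D.A j with hZ2
  have hsub : Z ⊆ Z0 ∪ Z1 ∪ Z2 := by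
    intro y hy
    obtain ⟨⟨j, hj, hjk, ha⟩, -⟩ := hZ y hy
    simp only [hZ0, hZ1, hZ2, mem_union, mem_filter]
    rcases Nat.lt_or_ge (j + 1) k with h | h
    · exact Or.inr ⟨hy, j, hj, h, ha⟩
    · rcases Nat.eq_or_lt_of_le hjk with h' | h'
      · exact Or.inl (Or.inl ⟨hy, h' ▸ ha⟩)
      · exact Or.inl (Or.inr ⟨hy, j, hj, by omega, ha⟩)
  have h0 : Z0.card ≤ 6 * MM k * gg k + 9 * MM k * d0 ^ 2 := near0 D (n := n) hk Z0 fun y hy =>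
    ⟨(mem_filter.1 hy).2, (hZ y (mem_filter.1 hy).1).2⟩
  have h2 : Z2.card ≤ 126 * d0 * sg k := far D (n := n) hk Z2 fun y hy =>
    ⟨(mem_filter.1 hy).2, (hZ y (mem_filter.1 hy).1).2⟩
  have h1 : Z1.card ≤ 3 * MM k * gg k := by
    rcases Z1.eq_empty_or_nonempty with e | ⟨y₀, hy₀⟩
    · rw [e]; simp
    obtain ⟨j, hj, rfl, -⟩ := (mem_filter.1 hy₀).2
    refine (near1 D (n := n) hj Z1 fun y hy => ?_).trans
      (Nat.mul_le_mul_right _ (Nat.mul_le_mul_left _ (MM_mono (Nat.le_succ j))))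
    obtain ⟨j', -, e, ha⟩ := (mem_filter.1 hy).2
    obtain rfl : j = j' := by omega
    exact ⟨ha, (hZ y (mem_filter.1 hy).1).2⟩
  have hc : Z.card ≤ Z0.card + Z1.card + Z2.card :=
    (card_le_card hsub).trans ((card_union_le _ _).trans
      (Nat.add_le_add_right (card_union_le _ _) _))
  have e1 : yy k ^ 13 * yy k ^ 2216 = yy k ^ 2229 := by rw [← pow_add]
  have e2 : yy k ^ 13 ≤ yy k ^ 2229 := Nat.pow_le_pow_right hy1 (by norm_num)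
  have e3 : sg k ≤ yy k ^ 2229 := Nat.pow_le_pow_right hy1 (by norm_num)
  have e4 : MM k * gg k ≤ M * 600 * yy k ^ 2229 := by
    rw [← e1, gg]
    calc MM k * (600 * yy k ^ 2216) ≤ M * yy k ^ 13 * (600 * yy k ^ 2216) :=
          Nat.mul_le_mul_right _ (hM k)
      _ = _ := by generalize yy k ^ 13 = a; generalize yy k ^ 2216 = b; ring
  have e5 : MM k * d0 ^ 2 ≤ M * d0 ^ 2 * yy k ^ 2229 := by
    calc MM k * d0 ^ 2 ≤ M * yy k ^ 2229 * d0 ^ 2 :=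
          Nat.mul_le_mul_right _ ((hM k).trans (Nat.mul_le_mul_left _ e2))
      _ = _ := by generalize yy k ^ 2229 = a; ring
  have e6 : d0 * sg k ≤ d0 * yy k ^ 2229 := Nat.mul_le_mul_left _ e3
  generalize yy k ^ 2229 = Y at *
  rw [mul_assoc 6, mul_assoc 9] at h0
  rw [mul_assoc 3] at h1
  rw [mul_assoc 126] at h2
  calc Z.card ≤ 9 * (MM k * gg k) + 9 * (MM k * d0 ^ 2) + 126 * (d0 * sg k) := by omega
    _ ≤ 9 * (M * 600 * Y) + 9 * (M * d0 ^ 2 * Y) + 126 * (d0 * Y) := by omega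
    _ = _ := by ring

theorem yy_log : ∃ K : ℝ, 0 ≤ K ∧ ∀ k, k0 ≤ k → ∀ n : ℕ, WW (2 * k) ≤ n →
    (yy k : ℝ) ^ 2229 ≤ K * Real.log n ^ ((6 : ℝ) / 7) := by
  refine ⟨2 ^ 2229 * 2, by positivity, fun k hk n hn => ?_⟩
  obtain ⟨w, hw, hw1⟩ : ∃ w : ℕ, yy k = 2 * w ∧ 1 ≤ w := by
    refine ⟨2 ^ Nat.log CC k, ?_, Nat.one_le_two_pow⟩
    rw [yy, LL, pow_succ, mul_comm]
  have h1 := (WW_ge hk).trans hn
  rw [hw, Nat.mul_div_cancel_left _ (by norm_num)] at h1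
  have hw' : (1 : ℝ) ≤ w := by exact_mod_cast hw1
  have h2 : ((w : ℝ) ^ 2612) * Real.log 2 ≤ Real.log n := by
    have : ((2 : ℝ) ^ (w ^ 2612)) ≤ n := by exact_mod_cast h1
    have h3 := Real.log_le_log (by positivity) this
    rw [Real.log_pow] at h3
    push_cast at h3
    exact h3
  have hl : (1 / 2 : ℝ) ≤ Real.log 2 := by have := Real.log_two_gt_d9; linarith
  have hp : (0 : ℝ) < (w : ℝ) ^ 2612 := by positivity
  have h3 : (w : ℝ) ^ 2612 * (1 / 2) ≤ Real.log n :=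
    (mul_le_mul_of_nonneg_left hl hp.le).trans h2
  have h4 : ((w : ℝ) ^ 2612 * (1 / 2)) ^ ((6 : ℝ) / 7) ≤ Real.log n ^ ((6 : ℝ) / 7) :=
    Real.rpow_le_rpow (by positivity) h3 (by norm_num)
  rw [Real.mul_rpow hp.le (by norm_num)] at h4
  have h5 : (w : ℝ) ^ 2229 ≤ ((w : ℝ) ^ 2612) ^ ((6 : ℝ) / 7) := by
    rw [← Real.rpow_natCast, ← Real.rpow_natCast, ← Real.rpow_mul (by positivity)]
    exact Real.rpow_le_rpow_of_exponent_le hw' (by norm_num)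
  have h6 : (1 / 2 : ℝ) ≤ (1 / 2 : ℝ) ^ ((6 : ℝ) / 7) := by
    have := Real.rpow_le_rpow_of_exponent_ge (x := (1 / 2 : ℝ)) (by norm_num) (by norm_num)
      (show (6 : ℝ) / 7 ≤ 1 by norm_num)
    rwa [Real.rpow_one] at this
  have h7 : (w : ℝ) ^ 2229 * (1 / 2) ≤ Real.log n ^ ((6 : ℝ) / 7) :=
    (mul_le_mul h5 h6 (by norm_num) (by positivity)).trans h4
  have e : (yy k : ℝ) ^ 2229 = 2 ^ 2229 * (w : ℝ) ^ 2229 := by
    rw [hw, ← mul_pow]; push_cast; rfl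
  rw [e, mul_assoc]
  refine mul_le_mul_of_nonneg_left ?_ (by positivity)
  generalize (w : ℝ) ^ 2229 = a at h7 ⊢
  linarith
-- PART b
theorem T2Mainb_bd (D : Data) {k a : ℕ} (hk : k0 ≤ k) (ha : a ∈ D.A k) :
    WW (2 * k + 1) ≤ a ∧ a < 6 * WW (2 * k + 3) := by
  obtain ⟨d, c, h, rfl⟩ := ha
  exact ⟨el_ge h.2.2.1, el_lt D.types hk (D.fine.box k h.1) h.2.2.1⟩

open Classical in
/-- Pairs whose second entry has state `k` and whose first entry has a state `≤ k`. -/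
noncomputable def T2Mainb_P (D : Data) (n k : ℕ) : Finset (ℕ × ℕ) :=
  {y ∈ antidiagonal n | (∃ j, k0 ≤ j ∧ j ≤ k ∧ y.1 ∈ D.A j) ∧ y.2 ∈ D.A k}

theorem T2Mainb_mem {D : Data} {n k : ℕ} {y : ℕ × ℕ} : y ∈ T2Mainb_P D n k ↔
    y.1 + y.2 = n ∧ (∃ j, k0 ≤ j ∧ j ≤ k ∧ y.1 ∈ D.A j) ∧ y.2 ∈ D.A k := by
  simp [T2Mainb_P]

theorem T2Mainb_win {D : Data} {n k : ℕ} {y : ℕ × ℕ} (h : y ∈ T2Mainb_P D n k) :
    k0 ≤ k ∧ WW (2 * k + 1) ≤ n ∧ n < WW (2 * k + 4) := by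
  obtain ⟨e, ⟨j, h0, hj, h1⟩, h2⟩ := T2Mainb_mem.1 h
  have a1 := T2Mainb_bd D h0 h1
  have a2 := T2Mainb_bd D (h0.trans hj) h2
  have a3 : WW (2 * j + 3) ≤ WW (2 * k + 3) := WW_mono (by omega)
  have a4 : 16 * WW (2 * k + 3) ≤ WW (2 * k + 4) := WW_step (2 * k + 3)
  exact ⟨h0.trans hj, by omega, by omega⟩

theorem T2Mainb_two (D : Data) (n : ℕ) :
    ∃ k₁, ∀ k y, y ∈ T2Mainb_P D n k → k = k₁ ∨ k = k₁ + 1 := by
  classical
  by_cases h : ∃ k, (T2Mainb_P D n k).Nonempty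
  · refine ⟨Nat.find h, fun k y hy => ?_⟩
    obtain ⟨y', hy'⟩ := Nat.find_spec h
    have h1 : Nat.find h ≤ k := Nat.find_min' h ⟨y, hy⟩
    have h2 := T2Mainb_win hy
    have h3 := T2Mainb_win hy'
    by_contra hc
    have h4 : WW (2 * Nat.find h + 4) ≤ WW (2 * k + 1) := WW_mono (by omega)
    omega
  · exact ⟨0, fun k y hy => absurd ⟨k, y, hy⟩ h⟩

theorem T2Mainb_card (D : Data) : ∃ K : ℝ, ∀ n k : ℕ,
    ((T2Mainb_P D n k).card : ℝ) ≤ K * Real.log n ^ ((6 : ℝ) / 7) := by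
  obtain ⟨K, hK⟩ := state_le D
  obtain ⟨K', h0, hK'⟩ := yy_log
  refine ⟨K * K', fun n k => ?_⟩
  rcases (T2Mainb_P D n k).eq_empty_or_nonempty with h | ⟨y, hy⟩
  · rw [h, card_empty, Nat.cast_zero]
    exact mul_nonneg (mul_nonneg (Nat.cast_nonneg _) h0)
      (Real.rpow_nonneg (Real.log_natCast_nonneg n) _)
  · obtain ⟨h1, h2, -⟩ := T2Mainb_win hy
    have h3 := hK k h1 n (T2Mainb_P D n k) fun y hy =>
      let h := T2Mainb_mem.1 hy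
      ⟨h.2.1, h.2.2, h.1⟩
    have h4 := hK' k h1 n ((WW_mono (Nat.le_succ _)).trans h2)
    have h5 : ((T2Mainb_P D n k).card : ℝ) ≤ K * (yy k : ℝ) ^ 2229 := by exact_mod_cast h3
    rw [mul_assoc]
    exact h5.trans (mul_le_mul_of_nonneg_left h4 (Nat.cast_nonneg _))

theorem thin : ∃ A : Set ℕ, (∀ n : ℕ, ∃ a ∈ A, ∃ b ∈ A, a + b = n) ∧
    ∃ K : ℝ, ∀ n : ℕ, 2 ≤ n →
      (Set.ncard {y : ℕ × ℕ | y.1 ∈ A ∧ y.2 ∈ A ∧ y.1 + y.2 = n} : ℝ) ≤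
        K * Real.log n ^ ((6 : ℝ) / 7) := by
  obtain ⟨D⟩ := exists_data
  obtain ⟨K, hK⟩ := T2Mainb_card D
  obtain ⟨M, hM⟩ : ∃ M, M = 5 * WW (2 * k0 + 1) := ⟨_, rfl⟩
  have hc : 0 < Real.log 2 ^ ((6 : ℝ) / 7) := Real.rpow_pos_of_pos (Real.log_pos (by norm_num)) _
  refine ⟨D.AA, basis D, 2 * M / Real.log 2 ^ ((6 : ℝ) / 7) + 4 * K, fun n hn => ?_⟩
  obtain ⟨k, hk⟩ := T2Mainb_two D n
  obtain ⟨Q, hQ⟩ : ∃ Q, Q = T2Mainb_P D n k ∪ T2Mainb_P D n (k + 1) := ⟨_, rfl⟩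
  have hQ' : ∀ j y, y ∈ T2Mainb_P D n j → y ∈ Q := fun j y hy => by
    rw [hQ, mem_union]
    rcases hk j y hy with rfl | rfl
    · exact Or.inl hy
    · exact Or.inr hy
  have sub : {y : ℕ × ℕ | y.1 ∈ D.AA ∧ y.2 ∈ D.AA ∧ y.1 + y.2 = n} ⊆
      ↑(((range M).image fun a => (a, n - a)) ∪ ((range M).image fun a => (n - a, a)) ∪
        (Q ∪ Q.image Prod.swap)) := by
    rintro ⟨a, b⟩ ⟨h1, h2, h3⟩
    dsimp only at h1 h2 h3
    rw [mem_coe, mem_union, mem_union, mem_union]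
    rcases h1 with h1 | ⟨i, hi, h1⟩
    · exact Or.inl (Or.inl (mem_image.2 ⟨a, mem_range.2 (by omega), by rw [← h3]; simp⟩))
    rcases h2 with h2 | ⟨j, hj, h2⟩
    · exact Or.inl (Or.inr (mem_image.2 ⟨b, mem_range.2 (by omega), by rw [← h3]; simp⟩))
    rcases le_total i j with h | h
    · exact Or.inr (Or.inl (hQ' j _ (T2Mainb_mem.2 ⟨h3, ⟨i, hi, h, h1⟩, h2⟩)))
    · exact Or.inr (Or.inr (mem_image.2 ⟨(b, a), hQ' i _
        (T2Mainb_mem.2 ⟨by dsimp only; omega, ⟨j, hj, h, h2⟩, h1⟩), rfl⟩))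
  have c1 := Set.ncard_le_ncard sub (finite_toSet _)
  rw [Set.ncard_coe_finset] at c1
  have c2 := card_union_le (((range M).image fun a => (a, n - a)) ∪
    ((range M).image fun a => (n - a, a))) (Q ∪ Q.image Prod.swap)
  have c3 := card_union_le ((range M).image fun a => (a, n - a))
    ((range M).image fun a => (n - a, a))
  have c4 := card_union_le Q (Q.image Prod.swap)
  have c5 := card_image_le (s := range M) (f := fun a => (a, n - a))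
  have c6 := card_image_le (s := range M) (f := fun a => (n - a, a))
  have c7 := card_image_le (s := Q) (f := Prod.swap)
  have c8 : Q.card ≤ (T2Mainb_P D n k).card + (T2Mainb_P D n (k + 1)).card := by
    rw [hQ]; exact card_union_le _ _
  rw [card_range] at c5 c6
  have c9 : Set.ncard {y : ℕ × ℕ | y.1 ∈ D.AA ∧ y.2 ∈ D.AA ∧ y.1 + y.2 = n} ≤
      2 * M + 2 * ((T2Mainb_P D n k).card + (T2Mainb_P D n (k + 1)).card) := by omega
  have c10 : (Set.ncard {y : ℕ × ℕ | y.1 ∈ D.AA ∧ y.2 ∈ D.AA ∧ y.1 + y.2 = n} : ℝ) ≤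
      2 * M + 2 * ((T2Mainb_P D n k).card + (T2Mainb_P D n (k + 1)).card) := by exact_mod_cast c9
  have d1 := hK n k
  have d2 := hK n (k + 1)
  have d3 : Real.log 2 ^ ((6 : ℝ) / 7) ≤ Real.log n ^ ((6 : ℝ) / 7) :=
    Real.rpow_le_rpow (Real.log_pos (by norm_num)).le
      (Real.log_le_log (by norm_num) (by exact_mod_cast hn)) (by norm_num)
  have d4 : (2 * M : ℝ) ≤ 2 * M / Real.log 2 ^ ((6 : ℝ) / 7) * Real.log n ^ ((6 : ℝ) / 7) := by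
    rw [div_mul_eq_mul_div, le_div_iff₀ hc]
    exact mul_le_mul_of_nonneg_left d3 (by positivity)
  rw [add_mul]
  linarith

end Pool.Agent.P.MP_d5a1e1_nt.T2
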