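import Pool.Agent.P.MP_d5a1e1_nt.TBLab

/-! Comparison of masses: the doubled simplex and vectors with small digits. -/

namespace Pool.Agent.P.MP_d5a1e1_nt.TB.Lab

open Finset

variable {n : ℕ} {gr R T : ℕ → ℕ}

theorem choose_double_le {r t c : ℕ} {N : ℝ} (hr : 12 * t ^ 2 ≤ r) (hr0 : 0 < r) (hc : c ≤ t)
    (hN : (c : ℝ) ≤ N) (hN1 : 1 ≤ N) :
    ((2 * r + 4 * t + 2 * c).choose (2 * c) : ℝ) ≤ 4 * √N * ((r + c).choose c : ℝ) ^ 2 := by
  have hr' : (0 : ℝ) < r := by exact_mod_cast hr0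
  have ht : (0 : ℝ) ≤ t := Nat.cast_nonneg t
  have hct : (c : ℝ) ≤ t := by exact_mod_cast hc
  have hc0 : (0 : ℝ) ≤ c := Nat.cast_nonneg c
  have hf : (0 : ℝ) < c.factorial := by exact_mod_cast Nat.factorial_pos c
  have h1 : ((2 * r + 4 * t + 2 * c).choose (2 * c) : ℝ) ≤
      ((2 * r + 4 * t + 2 * c : ℕ) : ℝ) ^ (2 * c) / (2 * c).factorial :=
    Nat.choose_le_pow_div _ _
  have h2 : (r : ℝ) ^ c / c.factorial ≤ (r + c).choose c := by
    refine le_trans ?_ (Nat.pow_le_choose c (r + c))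
    rw [show r + c + 1 - c = r + 1 by omega]
    push_cast
    gcongr
    linarith
  have h3 : ((2 * c).factorial : ℝ) = 4 ^ c * cw c * c.factorial ^ 2 := by
    have := Nat.choose_mul_factorial_mul_factorial (show c ≤ 2 * c by omega)
    rw [show 2 * c - c = c by omega, ← Nat.centralBinom_eq_two_mul_choose] at this
    rw [← this, cw_eq]
    push_cast
    field_simp
  have h4 : ((2 * r + 4 * t + 2 * c : ℕ) : ℝ) ^ (2 * c) ≤ 4 ^ c * ((r : ℝ) ^ c) ^ 2 * 2 := by
    have e1 : ((2 * r + 4 * t + 2 * c : ℕ) : ℝ) ≤ 2 * r * Real.exp (3 * t / r) := by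
      have := Real.add_one_le_exp (3 * t / r : ℝ)
      have e : 2 * (r : ℝ) * (3 * t / r + 1) = 2 * r + 6 * t := by
        field_simp
        ring
      push_cast
      nlinarith
    have e2 : Real.exp (3 * t / r) ^ (2 * c) ≤ 2 := by
      rw [← Real.exp_nat_mul]
      have e3 : ((2 * c : ℕ) : ℝ) * (3 * t / r) ≤ 1 / 2 := by
        have : (12 : ℝ) * t ^ 2 ≤ r := by exact_mod_cast hr
        rw [← mul_div_assoc, div_le_iff₀ hr']
        push_cast
        nlinarith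
      refine (Real.exp_le_exp.2 e3).trans ?_
      have := Real.exp_bound_div_one_sub_of_interval' (x := 1 / 2) (by norm_num) (by norm_num)
      linarith [this, show (1 : ℝ) / (1 - 1 / 2) = 2 by norm_num]
    calc _ ≤ (2 * r * Real.exp (3 * t / r)) ^ (2 * c) :=
          pow_le_pow_left₀ (Nat.cast_nonneg _) e1 _
      _ = 4 ^ c * ((r : ℝ) ^ c) ^ 2 * Real.exp (3 * t / r) ^ (2 * c) := by
          rw [mul_pow, mul_pow, pow_mul, ← pow_mul (r : ℝ) c 2, mul_comm c 2]
          norm_num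
      _ ≤ _ := mul_le_mul_of_nonneg_left e2 (by positivity)
  have h5 : 1 ≤ cw c * (2 * √N) := by
    have e1 : 1 ≤ cw c ^ 2 * (4 * N) := by
      rcases Nat.eq_zero_or_pos c with rfl | h
      · rw [cw_zero]
        linarith
      · exact (le_cw_sq h).trans (mul_le_mul_of_nonneg_left (by linarith) (sq_nonneg _))
    have e2 : (cw c * (2 * √N)) ^ 2 = cw c ^ 2 * (4 * N) := by
      rw [mul_pow, mul_pow, Real.sq_sqrt (by linarith)]
      norm_num
    have e3 : 0 ≤ cw c * (2 * √N) := mul_nonneg (cw_pos c).le (by positivity)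
    nlinarith
  have hw := cw_pos c
  calc _ ≤ 4 ^ c * ((r : ℝ) ^ c) ^ 2 * 2 / (2 * c).factorial :=
        h1.trans (div_le_div_of_nonneg_right h4 (Nat.cast_nonneg _))
    _ = 2 / cw c * ((r : ℝ) ^ c / c.factorial) ^ 2 := by
        rw [h3]
        field_simp
    _ ≤ _ := by
        refine mul_le_mul ?_ (pow_le_pow_left₀ (by positivity) h2 2) (by positivity)
          (by positivity)
        rw [div_le_iff₀ hw]
        linarith

/-- L2: the doubled simplex against the square of the mass. -/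
theorem card_double_le {k : ℕ} (G : Finset ℕ) (hG : ∀ u < k, gr u ∈ G) (N : ℕ → ℝ)
    (hR : ∀ g, 12 * T g ^ 2 ≤ R g) (hR0 : ∀ g, 0 < R g) (hc : ∀ g, ucnt k gr g ≤ T g)
    (hN : ∀ g ∈ G, (ucnt k gr g : ℝ) ≤ N g) (hN1 : ∀ g ∈ G, 1 ≤ N g) :
    ((Xs (2 * k) gr fun g => 2 * R g + 4 * T g).card : ℝ) ≤
      (∏ g ∈ G, 4 * √(N g)) * phi k gr R ^ 2 := by
  rw [card_Xs_eq G fun i hi => hG _ (by omega), phi_eq G hG, ← prod_pow, ← prod_mul_distrib]
  refine prod_le_prod (fun g _ => Nat.cast_nonneg _) fun g hg => ?_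
  rw [gcnt_two_mul]
  exact choose_double_le (hR g) (hR0 g) (hc g) (hN g hg) (hN1 g hg)

/-- The weight with a factor three on the digits `0` and `1`. -/
noncomputable def cw3 (x : ℕ) : ℝ := cw x * if x ≤ 1 then 3 else 1

theorem cw3_nonneg (x : ℕ) : 0 ≤ cw3 x :=
  mul_nonneg (cw_pos x).le (by split_ifs <;> norm_num)

theorem cm_nonneg {u : ℕ → ℝ} (hu : ∀ x, 0 ≤ u x) {s : ℝ} (hs : 0 < s) (c r : ℕ) :
    0 ≤ cm u s c r := by
  induction c generalizing r with
  | zero => rw [cm_zero]; exact (nb_pos hs r).le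
  | succ c ih => rw [cm_succ]; exact sum_nonneg fun p _ => mul_nonneg (hu _) (ih _)

theorem cm_mono {u : ℕ → ℝ} (hu : ∀ x, 0 ≤ u x) {s : ℝ} (hs : 1 ≤ s) (c r : ℕ) :
    cm u s c r ≤ cm u s c (r + 1) := by
  induction c generalizing r with
  | zero => rw [cm_zero, cm_zero]; exact nb_mono_right hs (Nat.le_succ r)
  | succ c ih =>
    rw [cm_succ, cm_succ, Nat.sum_antidiagonal_succ']
    exact le_add_of_nonneg_of_le (mul_nonneg (hu _) (cm_nonneg hu (by linarith) _ _))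
      (sum_le_sum fun p _ => mul_le_mul_of_nonneg_left (ih _) (hu _))

theorem cm_cw3_succ {s : ℝ} (hs : 1 ≤ s) (c r : ℕ) :
    cm cw3 s (c + 1) r ≤ cm cw3 (s + 1 / 2) c r + 3 * cm cw3 s c r := by
  have e : PowerSeries.mk cw3 = PowerSeries.mk (nb (1 / 2)) + PowerSeries.C 2 + PowerSeries.X := by
    ext x
    simp only [map_add, PowerSeries.coeff_mk, PowerSeries.coeff_C, PowerSeries.coeff_X, cw3]
    rcases x with _ | _ | x
    · norm_num [cw_zero, nb]
    · norm_num [cw_one, nb]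
    · simp [cw]
  have e2 : PowerSeries.mk cw3 ^ (c + 1) * PowerSeries.mk (nb s) =
      PowerSeries.mk cw3 ^ c * PowerSeries.mk (nb (s + 1 / 2)) +
        PowerSeries.C 2 * (PowerSeries.mk cw3 ^ c * PowerSeries.mk (nb s)) +
          PowerSeries.X * (PowerSeries.mk cw3 ^ c * PowerSeries.mk (nb s)) := by
    rw [← mk_nb_mul, pow_succ]
    generalize PowerSeries.mk cw3 ^ c = V
    rw [e]
    ring
  have e3 : PowerSeries.coeff r
      (PowerSeries.X * (PowerSeries.mk cw3 ^ c * PowerSeries.mk (nb s))) ≤ cm cw3 s c r := by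
    rcases r with _ | r
    · rw [PowerSeries.coeff_zero_X_mul]
      exact cm_nonneg cw3_nonneg (by linarith) _ _
    · rw [PowerSeries.coeff_succ_X_mul]
      exact cm_mono cw3_nonneg hs c r
  simp only [cm] at e3 ⊢
  rw [e2, map_add, map_add, PowerSeries.coeff_C_mul]
  linarith

theorem cm_cw3_le {ε : ℝ} (hε : 0 ≤ ε) {r M : ℕ}
    (h : ∀ j < M, nb (j * (1 / 2) + 1) r ≤ ε * nb (j * (1 / 2) + 1 + 1 / 2) r) (c a : ℕ)
    (hc : a + c ≤ M) :
    cm cw3 (a * (1 / 2) + 1) c r ≤ (1 + 3 * ε) ^ c * nb ((a + c : ℕ) * (1 / 2) + 1) r := by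
  induction c generalizing a with
  | zero => simp [cm_zero]
  | succ c ih =>
    have ha : (0 : ℝ) ≤ a := Nat.cast_nonneg a
    have h1 := ih (a + 1) (by omega)
    have h2 := ih a (by omega)
    have h3 := h (a + c) (by omega)
    have e1 : ((a + 1 : ℕ) : ℝ) * (1 / 2) + 1 = a * (1 / 2) + 1 + 1 / 2 := by
      push_cast
      ring
    have e2 : ((a + c : ℕ) : ℝ) * (1 / 2) + 1 + 1 / 2 = (a + (c + 1) : ℕ) * (1 / 2) + 1 := by
      push_cast
      ring
    rw [e1, show a + 1 + c = a + (c + 1) by ring] at h1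
    rw [e2] at h3
    have h4 := mul_le_mul_of_nonneg_left h3 (by positivity : 0 ≤ (1 + 3 * ε) ^ c)
    refine (cm_cw3_succ (by linarith) c r).trans ?_
    rw [pow_succ]
    nlinarith

theorem nb_le_half {t r j : ℕ} (ht : 2 ≤ t) (hr : t ^ 7 ≤ r) (hj : j < 2 * t) :
    nb (j * (1 / 2) + 1) r ≤ 1 / (t : ℝ) ^ 2 * nb (j * (1 / 2) + 1 + 1 / 2) r := by
  have ht' : (2 : ℝ) ≤ t := by exact_mod_cast ht
  have hr' : (t : ℝ) ^ 7 ≤ r := by exact_mod_cast hr
  have hj' : (j : ℝ) ≤ 2 * t := by exact_mod_cast hj.le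
  have hj0 : (0 : ℝ) ≤ j := Nat.cast_nonneg j
  have hs : (0 : ℝ) < j * (1 / 2) + 1 := by positivity
  have h1 := nb_half_sq hs r
  have h2 := nb_pos hs r
  have h3 := nb_pos (show (0 : ℝ) < j * (1 / 2) + 1 + 1 / 2 by positivity) r
  generalize nb (j * (1 / 2) + 1) r = A at *
  generalize nb (j * (1 / 2) + 1 + 1 / 2) r = B at *
  have h4 : (j : ℝ) * (1 / 2) + 1 ≤ t ^ 3 := by
    nlinarith [mul_le_mul ht' ht' (by norm_num) (by linarith)]
  have ht3 : (0 : ℝ) < (t : ℝ) ^ 3 := by positivity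
  have h5 : (A * (t : ℝ) ^ 2) ^ 2 * t ^ 3 ≤ B ^ 2 * t ^ 3 := by
    calc _ = A ^ 2 * t ^ 7 := by ring
      _ ≤ A ^ 2 * (j * (1 / 2) + 1 + r) := mul_le_mul_of_nonneg_left (by linarith) (sq_nonneg _)
      _ ≤ _ := h1.trans (mul_le_mul_of_nonneg_left h4 (sq_nonneg _))
  have h6 := pow_le_pow_left₀ (sq_nonneg (A * (t : ℝ) ^ 2)) (le_of_mul_le_mul_right h5 ht3) 1
  rw [pow_one, pow_one] at h6
  rw [one_div, inv_mul_eq_div, le_div_iff₀ (by positivity)]
  exact (pow_le_pow_iff_left₀ (by positivity) h3.le two_ne_zero).1 h6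

/-- L3: small digits carry little weight. -/
theorem sum_cw3_le (hT : ∀ g, 36 * 2 ^ g ≤ T g) (hR : ∀ g, T g ^ 7 ≤ R g)
    (hc : ∀ g, gcnt n gr g ≤ 2 * T g) :
    ∑ x ∈ Xs n gr R, ∏ i ∈ range n, cw3 (x i) ≤ 3 / 2 * ∑ x ∈ Xs n gr R, fw n x := by
  obtain ⟨m, hm⟩ : ∃ m, ∀ i < n, gr (i / 2) ∈ range m :=
    ⟨(range n).sup (fun i => gr (i / 2)) + 1, fun i hi => mem_range.2 (Nat.lt_succ_of_le
      (le_sup (f := fun i => gr (i / 2)) (mem_range.2 hi)))⟩
  have hT2 : ∀ g, 2 ≤ T g := fun g => by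
    have := hT g
    have := Nat.one_le_two_pow (n := g)
    omega
  rw [sum_Xs_prod cw3 _ hm, sum_fw_eq _ hm]
  have h1 : ∀ g ∈ range m, cm cw3 1 (gcnt n gr g) (R g) ≤
      Real.exp (1 / 6 / 2 ^ g) * nb (gcnt n gr g * (1 / 2) + 1) (R g) := by
    intro g _
    have h2 := cm_cw3_le (ε := 1 / (T g : ℝ) ^ 2) (by positivity)
      (fun j hj => nb_le_half (hT2 g) (hR g) hj) (gcnt n gr g) 0 (by simpa using hc g)
    simp only [Nat.cast_zero, zero_mul, zero_add] at h2
    refine h2.trans (mul_le_mul_of_nonneg_right ?_ (nb_pos (by positivity) _).le)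
    have hTr : (36 : ℝ) * 2 ^ g ≤ T g := by exact_mod_cast hT g
    have hcr : (gcnt n gr g : ℝ) ≤ 2 * T g := by exact_mod_cast hc g
    have hT0 : (0 : ℝ) < T g := lt_of_lt_of_le (by positivity) hTr
    calc _ ≤ Real.exp (3 * (1 / (T g : ℝ) ^ 2)) ^ gcnt n gr g :=
          pow_le_pow_left₀ (by positivity)
            (by linarith [Real.add_one_le_exp (3 * (1 / (T g : ℝ) ^ 2))]) _
      _ ≤ _ := by
          rw [← Real.exp_nat_mul]
          refine Real.exp_le_exp.2 ?_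
          calc _ ≤ 2 * T g * (3 * (1 / (T g : ℝ) ^ 2)) :=
                mul_le_mul_of_nonneg_right hcr (by positivity)
            _ = 6 / T g := by
                field_simp
                ring
            _ ≤ 6 / (36 * 2 ^ g) := div_le_div_of_nonneg_left (by norm_num) (by positivity) hTr
            _ = _ := by
                field_simp
                norm_num
  refine (prod_le_prod (fun g _ => cm_nonneg cw3_nonneg one_pos _ _) h1).trans ?_
  rw [prod_mul_distrib, ← Real.exp_sum]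
  refine mul_le_mul_of_nonneg_right ?_ (prod_nonneg fun g _ => (nb_pos (by positivity) _).le)
  have h3 : ∀ m : ℕ, ∑ g ∈ range m, (1 : ℝ) / 6 / 2 ^ g = 1 / 3 - 1 / 3 / 2 ^ m := by
    intro m
    induction m with
    | zero => simp
    | succ m ih =>
      rw [sum_range_succ, ih]
      field_simp
      ring
  have h4 : (0 : ℝ) < 1 / 3 / 2 ^ m := by positivity
  refine (Real.exp_le_exp.2 (show _ ≤ 1 / 3 by rw [h3]; linarith)).trans ?_
  have := Real.exp_bound_div_one_sub_of_interval' (x := 1 / 3) (by norm_num) (by norm_num)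
  linarith [this, show (1 : ℝ) / (1 - 1 / 3) = 3 / 2 by norm_num]

end Pool.Agent.P.MP_d5a1e1_nt.TB.Lab
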