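import Pool.Agent.P.MP_d5a1e1_nt.T2Box
import Pool.Agent.P.MP_d5a1e1_nt.T2Cw
import Pool.Agent.P.MP_d5a1e1_nt.TBLab2

/-! The label sets as instances of the general simplices. -/

namespace Pool.Agent.P.MP_d5a1e1_nt.T2

open Finset TB

theorem XX_eq (k : ℕ) : XX k = Lab.Xs (2 * k) gr RR := by
  ext x
  simp only [XX, Lab.Xs, mem_filter]
  exact Iff.rfl

theorem ff_eq (k : ℕ) : ff k = Lab.fw (2 * k) := by
  funext x
  rw [ff, cw_eq, Lab.fw]

theorem ph_eq_phi (k : ℕ) : ph k = Lab.phi k gr RR := by rw [ph, XX_eq, ff_eq, Lab.phi]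

theorem SS_subset (k : ℕ) : SS k ⊆ Lab.Xs (2 * k) gr fun g => 2 * RR g + 4 * TT g := by
  classical
  intro y hy
  rw [SS, mem_filter] at hy
  exact Lab.mem_Xs.2 ⟨(mem_Box.1 hy.1).2, hy.2⟩

theorem TT_ge (g : ℕ) : 36 * 2 ^ g ≤ TT g := by
  have h1 : g + 1 < 2 ^ (g + 1) := Nat.lt_two_pow_self
  calc 36 * 2 ^ g ≤ 2 ^ (5 * 2 ^ (g + 1)) := by
        refine le_trans ?_ (Nat.pow_le_pow_right (by norm_num) (show g + 6 ≤ _ by omega))
        rw [pow_add]
        omega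
    _ ≤ TT g := by
        rw [pow_mul]
        exact Nat.pow_le_pow_left CC_ge _

theorem TT_sq_le (g : ℕ) : 12 * TT g ^ 2 ≤ RR g := by
  have h1 := TT_ge g
  have h2 := Nat.one_le_two_pow (n := g)
  rw [RR, show 7 = 5 + 2 by norm_num, pow_add]
  exact Nat.mul_le_mul_right _ (le_trans (by omega) (Nat.le_self_pow (by norm_num) _))

theorem RR_pos (g : ℕ) : 0 < RR g := by
  have h1 := TT_ge g
  have h2 := Nat.one_le_two_pow (n := g)
  exact pow_pos (by omega) 7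

theorem TT_lt (g : ℕ) : 4 * TT g < RR g := by
  have h1 := TT_ge g
  have h2 := Nat.one_le_two_pow (n := g)
  have h3 := TT_sq_le g
  nlinarith

end Pool.Agent.P.MP_d5a1e1_nt.T2
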