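import Pool.Agent.P.MP_d5a1e1_nt.T2Defs

/-! Elementary facts on the parameters. -/

namespace Pool.Agent.P.MP_d5a1e1_nt.T2

open Finset TB

theorem CC_eq : CC = 2 ^ 400 := by
  unfold CC
  rfl

theorem CC_ge : 32 ≤ CC := by
  rw [CC_eq]
  exact Nat.pow_le_pow_right (n := 2) (i := 5) (by norm_num) (by norm_num)

theorem LL_pos (u : ℕ) : 1 ≤ LL u := Nat.le_add_left _ _

theorem yy_ge (u : ℕ) : 2 ≤ yy u := Nat.le_self_pow (by have := LL_pos u; omega) 2

theorem tau_eq (u : ℕ) : tau u = yy u ^ 400 := by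
  rw [tau, yy, CC_eq, pow_right_comm]

theorem lt_tau (u : ℕ) : u < tau u := Nat.lt_pow_succ_log_self (by have := CC_ge; omega) u

theorem CC_le_tau (u : ℕ) : CC ≤ tau u := Nat.le_self_pow (by have := LL_pos u; omega) CC

theorem LL_mono : Monotone LL := fun _ _ h => Nat.succ_le_succ (Nat.log_mono_right h)

theorem yy_mono : Monotone yy := fun _ _ h => Nat.pow_le_pow_right (by norm_num) (LL_mono h)

theorem tau_mono : Monotone tau := fun _ _ h =>
  Nat.pow_le_pow_right (by have := CC_ge; omega) (LL_mono h)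

theorem gr_mono : Monotone gr := fun _ _ h => Nat.log_mono_right (LL_mono h)

theorem TT_mono : Monotone TT := fun _ _ h => Nat.pow_le_pow_right (by have := CC_ge; omega)
  (Nat.pow_le_pow_right (by norm_num) (Nat.succ_le_succ h))

theorem Ru_mono : Monotone Ru := fun _ _ h => Nat.pow_le_pow_left (TT_mono (gr_mono h)) 7

theorem DD_mono : Monotone DD := fun _ _ h => Nat.mul_le_mul_left 16 (Ru_mono h)

theorem sg_mono : Monotone sg := fun _ _ h => Nat.pow_le_pow_left (yy_mono h) 2212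

theorem T2Par_pe (L : ℕ) : (pe L).Prime ∧ 2 ^ (2 ^ L) ^ 2212 < pe L ∧
    pe L ≤ 2 * 2 ^ (2 ^ L) ^ 2212 := by
  unfold pe
  exact Exists.choose_spec (p := fun p => Nat.Prime p ∧ 2 ^ (2 ^ L) ^ 2212 < p ∧
    p ≤ 2 * 2 ^ (2 ^ L) ^ 2212) _

theorem pp_mono : Monotone pp := fun a b h => by
  rcases (LL_mono h).eq_or_lt with e | e
  · exact (congrArg pe e).le
  · have h1 : (2 ^ LL a) ^ 2212 < (2 ^ LL b) ^ 2212 :=
      Nat.pow_lt_pow_left (Nat.pow_lt_pow_right (by norm_num) e) (by norm_num)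
    have h2 := (T2Par_pe (LL a)).2.2
    rw [← pow_succ'] at h2
    exact (h2.trans (Nat.pow_le_pow_right (by norm_num) h1)).trans (T2Par_pe (LL b)).2.1.le

theorem BB_mono : Monotone BB := fun _ _ h => Nat.mul_le_mul (DD_mono h) (pp_mono h)

theorem HH_mono : Monotone HH := fun _ _ h => Nat.pow_le_pow_right (by norm_num)
  (Nat.mul_le_mul (Nat.mul_le_mul_left 3 h) (Nat.pow_le_pow_left (yy_mono h) 401))

theorem MM_mono : Monotone MM := fun _ _ h => Nat.mul_le_mul_right _ (Nat.pow_le_pow_right (by norm_num)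
  (Nat.succ_le_succ (Nat.mul_le_mul_left 3 (LL_mono h))))

theorem gg_mono : Monotone gg := fun _ _ h => Nat.mul_le_mul_left 600 (Nat.pow_le_pow_left (yy_mono h) 2216)

theorem T2Par_yy {k m : ℕ} (hk : 1 ≤ k) (h : m ≤ k * CC) : yy m ≤ 2 * yy k := by
  have h1 := Nat.log_mono_right (b := CC) h
  rw [Nat.log_mul_base (by have := CC_ge; omega) (by omega)] at h1
  rw [yy, yy, ← pow_succ']
  exact Nat.pow_le_pow_right (by norm_num) (Nat.succ_le_succ h1)

theorem yy_add_two {k : ℕ} (hk : 1 ≤ k) : yy (k + 2) ≤ 2 * yy k :=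
  T2Par_yy hk (by have := Nat.mul_le_mul_left k CC_ge; omega)

theorem sg_add_two {k : ℕ} (hk : 1 ≤ k) : sg (k + 2) ≤ 2 ^ 2212 * sg k := by
  rw [sg, sg, ← mul_pow]
  exact Nat.pow_le_pow_left (yy_add_two hk) 2212

theorem pe_prime (L : ℕ) : (pe L).Prime := (T2Par_pe L).1

theorem pp_prime (u : ℕ) : (pp u).Prime := pe_prime _

theorem pp_gt (u : ℕ) : 2 ^ sg u < pp u := (T2Par_pe (LL u)).2.1

theorem pp_le (u : ℕ) : pp u ≤ 2 ^ (sg u + 1) := by
  rw [pow_succ']
  exact (T2Par_pe (LL u)).2.2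

theorem pp_sys (u : ℕ) : 2 ^ (CC ^ (Nat.log CC u + 1)) ^ 2 < pp u := by
  refine lt_of_le_of_lt (Nat.pow_le_pow_right (by norm_num) ?_) (pp_gt u)
  change tau u ^ 2 ≤ _
  rw [tau_eq, ← pow_mul]
  exact Nat.pow_le_pow_right (by have := yy_ge u; omega) (by norm_num)

theorem gr_lt (u : ℕ) : gr u + 1 ≤ LL u := Nat.log_lt_self 2 (by have := LL_pos u; omega)

theorem CC_le_TT (g : ℕ) : CC ^ 2 ≤ TT g := Nat.pow_le_pow_right (by have := CC_ge; omega)
  (Nat.le_self_pow (by omega) 2)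

theorem tau_le_TT (u : ℕ) : tau u ≤ TT (gr u) := Nat.pow_le_pow_right (by have := CC_ge; omega)
  (Nat.lt_pow_succ_log_self (by norm_num) _).le

theorem TT_le (u : ℕ) : TT (gr u) ≤ tau u ^ 2 := by
  rw [TT, tau, ← pow_mul, pow_succ]
  exact Nat.pow_le_pow_right (by have := CC_ge; omega) (Nat.mul_le_mul_right 2
    (Nat.pow_log_le_self 2 (by have := LL_pos u; omega)))

theorem prod_TT_le (u : ℕ) : ∏ g ∈ range (gr u), TT g ≤ tau u ^ 2 := by
  refine le_trans ?_ (TT_le u)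
  induction gr u with
  | zero => exact Nat.one_le_pow _ _ (by have := CC_ge; omega)
  | succ n ih =>
    rw [prod_range_succ, show TT (n + 1) = TT n * TT n by
      rw [TT, TT, ← pow_add, pow_succ 2 (n + 1), mul_two]]
    exact Nat.mul_le_mul_right _ ih

theorem sum_inv_TT (n : ℕ) : ∑ g ∈ range n, (1 : ℝ) / TT g ≤ 1 / 128 := by
  have h : ∀ g, (1 : ℝ) / TT g ≤ 1 / 2 ^ (g + 8) := fun g => by
    have h1 : g + 1 < 2 ^ (g + 1) := Nat.lt_two_pow_self
    have h2 : 2 ^ (g + 8) ≤ TT g := by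
      refine le_trans ?_ (Nat.pow_le_pow_left CC_ge _)
      rw [show 32 = 2 ^ 5 by norm_num, ← pow_mul]
      exact Nat.pow_le_pow_right (by norm_num) (by omega)
    exact one_div_le_one_div_of_le (by positivity) (by exact_mod_cast h2)
  have key : ∑ g ∈ range n, (1 : ℝ) / TT g ≤ 1 / 128 - 1 / 2 ^ (n + 7) := by
    induction n with
    | zero => norm_num
    | succ n ih =>
      have h3 : (1 : ℝ) / 2 ^ (n + 7) = 2 * (1 / 2 ^ (n + 8)) := by
        rw [pow_succ _ (n + 7)]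
        field_simp
      have := h n
      rw [sum_range_succ, show n + 1 + 7 = n + 8 by omega]
      linarith
  have : (0 : ℝ) ≤ 1 / 2 ^ (n + 7) := by positivity
  linarith

theorem Ru_ge (u : ℕ) : yy u ^ 2800 ≤ Ru u := by
  rw [show 2800 = 400 * 7 by norm_num, pow_mul, ← tau_eq]
  exact Nat.pow_le_pow_left (tau_le_TT u) 7

theorem pp_pos (u : ℕ) : 0 < pp u := (pp_prime u).pos

theorem T2Par_sg (u : ℕ) : 8192 * yy u ≤ sg u := by
  rw [sg, pow_succ]
  refine Nat.mul_le_mul_right _ (le_trans ?_ (Nat.pow_le_pow_left (yy_ge u) _))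
  exact Nat.pow_le_pow_right (n := 2) (i := 13) (by norm_num) (by norm_num)

theorem pp_big (u : ℕ) : 2304 ≤ pp u := by
  have h1 := T2Par_sg u
  have h2 := yy_ge u
  exact le_trans (le_trans (by norm_num) (Nat.pow_le_pow_right (n := 2) (i := 12) (by norm_num)
    (by omega))) (pp_gt u).le

theorem Ru_pos (u : ℕ) : 1 ≤ Ru u := (Nat.one_le_pow _ _ (by have := yy_ge u; omega)).trans (Ru_ge u)

theorem BB_pos (u : ℕ) : 0 < BB u := Nat.mul_pos (Nat.mul_pos (by norm_num) (Ru_pos u)) (pp_pos u)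

theorem DD_pos (u : ℕ) : 0 < DD u := Nat.mul_pos (by norm_num) (Ru_pos u)

theorem DD_le (u : ℕ) : DD u ≤ 2 ^ (6000 * LL u) := by
  have h1 : Ru u ≤ 2 ^ (5600 * LL u) := by
    refine (Nat.pow_le_pow_left (TT_le u) 7).trans (le_of_eq ?_)
    rw [tau_eq, yy, ← pow_mul, ← pow_mul, ← pow_mul, mul_comm]
  have h2 := LL_pos u
  refine (Nat.mul_le_mul_left 16 h1).trans ?_
  rw [show 16 = 2 ^ 4 by norm_num, ← pow_add]
  exact Nat.pow_le_pow_right (by norm_num) (by omega)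

theorem BB_gt (u : ℕ) : 16 * 2 ^ sg u < BB u :=
  Nat.mul_lt_mul_of_le_of_lt (Nat.le_mul_of_pos_right 16 (Ru_pos u)) (pp_gt u) (DD_pos u)

theorem BB_le (u : ℕ) : BB u ≤ 2 ^ (2 * sg u) := by
  have h1 := T2Par_sg u
  have h2 : LL u < yy u := Nat.lt_two_pow_self
  refine (Nat.mul_le_mul (DD_le u) (pp_le u)).trans ?_
  rw [← pow_add]
  exact Nat.pow_le_pow_right (by norm_num) (by omega)

theorem WW_zero : WW 0 = 1 := rfl

theorem WW_succ (i : ℕ) : WW (i + 1) = WW i * BB (i / 2) := prod_range_succ _ _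

theorem WW_pos (i : ℕ) : 0 < WW i := prod_pos fun _ _ => BB_pos _

theorem WW_odd (k : ℕ) : WW (2 * k + 1) = WW (2 * k) * BB k := by
  rw [WW_succ, Nat.mul_div_cancel_left k (by norm_num)]

theorem WW_even (k : ℕ) : WW (2 * k + 2) = WW (2 * k) * BB k ^ 2 := by
  rw [WW_succ, WW_odd, show (2 * k + 1) / 2 = k by omega, mul_assoc, sq]

theorem WW_three (k : ℕ) : WW (2 * k + 3) = WW (2 * k) * (BB k ^ 2 * BB (k + 1)) := by
  rw [WW_succ, WW_even, show (2 * k + 2) / 2 = k + 1 by omega, mul_assoc]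

theorem WW_step (i : ℕ) : 16 * WW i ≤ WW (i + 1) := by
  have h1 := BB_gt (i / 2)
  have h2 : 0 < 2 ^ sg (i / 2) := by positivity
  rw [WW_succ, mul_comm]
  exact Nat.mul_le_mul_left _ (by omega)

theorem WW_mono : Monotone WW := monotone_nat_of_le_succ fun i => by
  have := WW_step i
  omega

theorem WW_le (k : ℕ) : WW (2 * k) ≤ 2 ^ (4 * k * sg k) := by
  refine (prod_le_pow_card _ _ (2 ^ (2 * sg k)) fun s hs => (BB_mono ?_).trans (BB_le k)).trans
    (le_of_eq ?_)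
  · have := mem_range.1 hs
    omega
  · rw [card_range, ← pow_mul]
    congr 1
    ring

theorem Del_pos (k : ℕ) : 0 < Del k := prod_pos fun _ _ => DD_pos _

theorem Del_succ (k : ℕ) : Del (k + 1) = Del k * DD k := prod_range_succ _ _

theorem LL_big {k : ℕ} (hk : k0 ≤ k) : 10001 ≤ LL k := by
  have h1 : 1 < CC := lt_of_lt_of_le (by norm_num) CC_ge
  have h2 : 10000 ≤ Nat.log CC k := by
    refine Nat.le_log_of_pow_le h1 ?_
    unfold k0 at hk
    exact hk
  unfold LL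
  omega

theorem yy_big {k : ℕ} (hk : k0 ≤ k) : 2 ^ 3000 * LL k ≤ yy k := by
  obtain ⟨m, hm⟩ := Nat.exists_eq_add_of_le (LL_big hk)
  have h1 : m + 7000 < 2 ^ (m + 7000) := Nat.lt_two_pow_self
  rw [yy, show LL k = 3000 + (m + 7000 + 1) by omega, pow_add 2 3000, pow_succ 2 (m + 7000)]
  exact Nat.mul_le_mul_left _ (by omega)

theorem T2Par_big {k : ℕ} (hk : k0 ≤ k) : 32768 * LL k ≤ yy k :=
  (Nat.mul_le_mul_right _
    (Nat.pow_le_pow_right (n := 2) (i := 15) (by norm_num) (by norm_num))).trans (yy_big hk)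

theorem T2Par_div (k : ℕ) : yy k / 2 = 2 ^ Nat.log CC k := by
  rw [yy, LL, pow_succ, Nat.mul_div_cancel _ (by norm_num)]

theorem T2Par_half {k : ℕ} (hk : k0 ≤ k) : (yy k / 2) ^ 400 ≤ k := by
  have h1 := LL_big hk
  rw [T2Par_div, pow_right_comm, ← CC_eq]
  refine Nat.pow_log_le_self _ ?_
  rintro rfl
  simp [LL] at h1

theorem yy_le {k : ℕ} (hk : k0 ≤ k) : yy k ^ 399 ≤ k := by
  have h1 := LL_big hk
  refine le_trans ?_ (T2Par_half hk)
  rw [T2Par_div, yy, ← pow_mul, ← pow_mul]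
  unfold LL at h1 ⊢
  exact Nat.pow_le_pow_right (by norm_num) (by omega)

theorem Del_le {k : ℕ} (hk : k0 ≤ k) : Del k ^ 4 ≤ 2 ^ yy k ^ 401 := by
  have h1 : Del k ≤ (2 ^ (6000 * LL k)) ^ k := by
    have := prod_le_pow_card (range k) DD (2 ^ (6000 * LL k)) fun u hu =>
      (DD_mono (mem_range.1 hu).le).trans (DD_le k)
    rwa [card_range] at this
  refine (Nat.pow_le_pow_left h1 4).trans ?_
  rw [← pow_mul, ← pow_mul]
  refine Nat.pow_le_pow_right (by norm_num) ?_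
  have h2 := Nat.mul_le_mul (T2Par_big hk) (lt_tau k).le
  rw [tau_eq, ← pow_succ'] at h2
  refine le_trans ?_ h2
  nlinarith [Nat.zero_le (LL k * k)]

theorem EE_le {k : ℕ} (hk : k0 ≤ k) : EE k ≤ 2 ^ yy k ^ 401 := by
  have h1 := T2Par_big hk
  have h2 := LL_pos k
  have h3 := lt_tau k
  have h4 : 9 * (k + 1) ≤ 2 ^ yy k := by
    have h5 : 2 ^ 4 * tau k ≤ 2 ^ yy k := by
      rw [tau_eq, yy, ← pow_mul, ← pow_add]
      exact Nat.pow_le_pow_right (by norm_num) (by rw [yy] at h1; omega)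
    omega
  refine (Nat.pow_le_pow_left h4 k).trans ?_
  rw [← pow_mul, pow_succ' _ 400, ← tau_eq]
  exact Nat.pow_le_pow_right (by norm_num) (Nat.mul_le_mul_left _ h3.le)

theorem WW_ge {k : ℕ} (hk : k0 ≤ k) : 2 ^ (yy k / 2) ^ 2612 ≤ WW (2 * k) := by
  have h0 := T2Par_half hk
  have h1 := LL_big hk
  have h2 : 2 ≤ k := by
    refine le_trans ?_ h0
    rw [T2Par_div, ← pow_mul]
    exact Nat.le_self_pow (by unfold LL at h1; omega) 2
  have h3 : yy k ≤ 2 * yy (k / 2) :=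
    T2Par_yy (by omega) (by have := Nat.mul_le_mul_left (k / 2) CC_ge; omega)
  have h4 : (yy k / 2) ^ 2212 ≤ sg (k / 2) := Nat.pow_le_pow_left (by omega) 2212
  have h5 : (2 ^ sg (k / 2)) ^ (Ico k (2 * k)).card ≤ ∏ s ∈ Ico k (2 * k), BB (s / 2) :=
    pow_card_le_prod _ _ _ fun s hs => by
      have h6 := BB_gt (k / 2)
      have h7 := BB_mono (Nat.div_le_div_right (c := 2) (mem_Ico.1 hs).1)
      omega
  rw [Nat.card_Ico, show 2 * k - k = k by omega, ← pow_mul] at h5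
  rw [show 2612 = 2212 + 400 by norm_num, pow_add]
  refine (Nat.pow_le_pow_right (by norm_num) (Nat.mul_le_mul h4 h0)).trans (h5.trans ?_)
  exact prod_le_prod_of_subset_of_one_le' (fun s hs => mem_range.2 (mem_Ico.1 hs).2)
    fun s _ _ => BB_pos _

theorem MM_le : ∃ K : ℕ, ∀ k, MM k ≤ K * yy k ^ 13 := by
  refine ⟨18 * (27 * (CC + 1) ^ CC) ^ 2, fun k => ?_⟩
  rw [MM, mul_right_comm]
  refine Nat.mul_le_mul_right _ ?_
  rw [pow_succ', pow_mul, yy, pow_right_comm 2]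
  exact Nat.mul_le_mul_left _ (Nat.pow_le_pow_left (by norm_num) _)

theorem card_group (k g : ℕ) : #{u ∈ range k | gr u = g} ≤ TT g := by
  refine (card_le_card fun u hu => mem_range.2 ?_).trans (card_range _).le
  rw [← (mem_filter.1 hu).2]
  exact (lt_tau u).trans_le (tau_le_TT u)

theorem card_group_digit (k g : ℕ) :
    #{i ∈ range (2 * k) | gr (i / 2) = g} = 2 * #{u ∈ range k | gr u = g} := by
  rw [card_filter, card_filter]
  induction k with
  | zero => rfl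
  | succ k ih =>
    rw [mul_add, mul_one, sum_range_succ, sum_range_succ, sum_range_succ, ih,
      show (2 * k + 1) / 2 = k by omega, show 2 * k / 2 = k by omega]
    ring


end Pool.Agent.P.MP_d5a1e1_nt.T2
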