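import Pool.Agent.P.MP_d5a1e1_nt.T2Defs

/-! Choosing points one at a time with a potential. -/

namespace Pool.Agent.P.MP_d5a1e1_nt.T2

open Finset TB

theorem seq_exp {ω κ : Type*} (Γ : Finset ω) (hΓ : Γ.Nonempty) (Φ : Finset κ) (l : ℝ)
    (hN : (Φ.card : ℝ) < Real.exp l) (e : κ → ℕ → (ℕ → ω) → ℝ)
    (hdep : ∀ φ ∈ Φ, ∀ i ξ ξ', (∀ t ≤ i, ξ t = ξ' t) → e φ i ξ = e φ i ξ') (m : ℕ)
    (hmean : ∀ i < m, ∀ ξ : ℕ → ω, (∀ t, ξ t ∈ Γ) → (∀ ψ ∈ Φ, ∑ t ∈ range i, e ψ t ξ < l) →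
      ∀ φ ∈ Φ, ∑ o ∈ Γ, Real.exp (e φ i (Function.update ξ i o)) ≤ Γ.card) :
    ∃ ξ : ℕ → ω, (∀ t, ξ t ∈ Γ) ∧ ∀ φ ∈ Φ, ∑ t ∈ range m, e φ t ξ < l := by
  have key : ∀ (j : ℕ) (φ : κ) (ξ : ℕ → ω),
      Real.exp (-l) * ∏ t ∈ range j, Real.exp (e φ t ξ) < 1 → ∑ t ∈ range j, e φ t ξ < l := by
    intro j φ ξ h
    rw [← Real.exp_sum, ← Real.exp_add, Real.exp_lt_one_iff] at h
    linarith
  obtain ⟨ξ, h1, h2⟩ := exists_seq Γ hΓ Φ (fun _ => Real.exp (-l))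
    (fun φ i ξ => Real.exp (e φ i ξ)) (fun _ _ => (Real.exp_pos _).le)
    (by
      rw [sum_const, nsmul_eq_mul, Real.exp_neg, ← div_eq_mul_inv, div_lt_one (Real.exp_pos _)]
      exact hN)
    (fun _ _ _ _ => (Real.exp_pos _).le)
    (fun φ hφ i ξ ξ' h => by rw [hdep φ hφ i ξ ξ' h]) m
    (fun i hi ξ hξ h => hmean i hi ξ hξ fun ψ hψ => key i ψ ξ (h i le_rfl ψ hψ))
  exact ⟨ξ, h1, fun φ hφ => key m φ ξ (h2 m le_rfl φ hφ)⟩

theorem seq_up {ω : Type*} (Γ : Finset ω) {d ν : ℝ} (hd : 0 < d) (A : ω → ℝ)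
    (h0 : ∀ o ∈ Γ, 0 ≤ A o) (h1 : ∀ o ∈ Γ, A o ≤ d) (h : ∑ o ∈ Γ, A o ≤ ν * Γ.card) :
    ∑ o ∈ Γ, Real.exp (A o / d - 2 * ν / d) ≤ Γ.card := by
  have h2 : ∀ o ∈ Γ, Real.exp (A o / d - 2 * ν / d) ≤
      (1 + 2 / d * A o) * Real.exp (-(2 * ν / d)) := by
    intro o ho
    rw [sub_eq_add_neg, Real.exp_add]
    refine mul_le_mul_of_nonneg_right ?_ (Real.exp_pos _).le
    have a0 : 0 ≤ A o / d := div_nonneg (h0 o ho) hd.le
    have a1 : A o / d ≤ 1 := (div_le_one hd).2 (h1 o ho)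
    have a2 := (abs_le.1 (Real.abs_exp_sub_one_sub_id_le (x := A o / d)
      (abs_le.2 ⟨by linarith, a1⟩))).2
    have a3 : 2 / d * A o = 2 * (A o / d) := by ring
    nlinarith
  refine (sum_le_sum h2).trans ?_
  rw [← sum_mul, sum_add_distrib, sum_const, nsmul_eq_mul, mul_one, ← mul_sum, Real.exp_neg,
    ← div_eq_mul_inv, div_le_iff₀ (Real.exp_pos _)]
  have h3 := Real.add_one_le_exp (2 * ν / d)
  have h4 : 2 / d * ∑ o ∈ Γ, A o ≤ 2 / d * (ν * Γ.card) :=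
    mul_le_mul_of_nonneg_left h (by positivity)
  have h5 : (Γ.card : ℝ) * (2 * ν / d + 1) ≤ Γ.card * Real.exp (2 * ν / d) :=
    mul_le_mul_of_nonneg_left h3 (Nat.cast_nonneg _)
  have h6 : 2 / d * (ν * Γ.card) = Γ.card * (2 * ν / d) := by ring
  linarith

theorem seq_low {ω : Type*} (Γ : Finset ω) {d ν : ℝ} (hd : 0 < d) (A : ω → ℝ)
    (h0 : ∀ o ∈ Γ, 0 ≤ A o) (h1 : ∀ o ∈ Γ, A o ≤ d) (h : ν * Γ.card ≤ ∑ o ∈ Γ, A o) :
    ∑ o ∈ Γ, Real.exp (ν / (2 * d) - A o / d) ≤ Γ.card := by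
  have h2 : ∀ o ∈ Γ, Real.exp (ν / (2 * d) - A o / d) ≤
      (1 - 1 / (2 * d) * A o) * Real.exp (ν / (2 * d)) := by
    intro o ho
    rw [Real.exp_sub, div_le_iff₀ (Real.exp_pos _), mul_right_comm]
    refine le_mul_of_one_le_left (Real.exp_pos _).le ?_
    have a0 : 0 ≤ A o / d := div_nonneg (h0 o ho) hd.le
    have a1 : A o / d ≤ 1 := (div_le_one hd).2 (h1 o ho)
    have a2 := Real.add_one_le_exp (A o / d)
    have a3 : 1 / (2 * d) * A o = A o / d / 2 := by field_simp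
    rw [a3]
    nlinarith
  refine (sum_le_sum h2).trans ?_
  rw [← sum_mul, sum_sub_distrib, sum_const, nsmul_eq_mul, mul_one, ← mul_sum,
    ← le_div_iff₀ (Real.exp_pos _), div_eq_mul_inv (Γ.card : ℝ), ← Real.exp_neg]
  have h3 := Real.add_one_le_exp (-(ν / (2 * d)))
  have h4 : 1 / (2 * d) * (ν * Γ.card) ≤ 1 / (2 * d) * ∑ o ∈ Γ, A o :=
    mul_le_mul_of_nonneg_left h (by positivity)
  have h5 : (Γ.card : ℝ) * (-(ν / (2 * d)) + 1) ≤ Γ.card * Real.exp (-(ν / (2 * d))) :=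
    mul_le_mul_of_nonneg_left h3 (Nat.cast_nonneg _)
  have h6 : 1 / (2 * d) * (ν * Γ.card) = Γ.card * (ν / (2 * d)) := by ring
  linarith

theorem seq_hit {ω : Type*} [DecidableEq ω] (U : Finset ω) {j m d : ℕ} (hj : j ≤ m) {l a : ℝ}
    (ha : 1 < a) (hl : Real.exp (l + 1) ≤ a ^ d) (ξ : ℕ → ω)
    (h : ∑ t ∈ range j, ((if ξ t ∈ U then Real.log a else 0) - 1 / (m : ℝ)) < l) :
    #{i ∈ range j | ξ i ∈ U} ≤ d := by
  rw [sum_sub_distrib, ← sum_filter, sum_const, sum_const, nsmul_eq_mul, nsmul_eq_mul,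
    card_range] at h
  have h1 : (j : ℝ) * (1 / m) ≤ 1 := by
    rw [mul_one_div]
    exact div_le_one_of_le₀ (by exact_mod_cast hj) (Nat.cast_nonneg _)
  have h2 : l + 1 ≤ d * Real.log a := by
    rw [← Real.log_pow]
    exact (Real.le_log_iff_exp_le (by positivity)).2 hl
  have h3 : (#{i ∈ range j | ξ i ∈ U} : ℝ) * Real.log a < d * Real.log a := by linarith
  have h4 := lt_of_mul_lt_mul_right h3 (Real.log_pos ha).le
  exact_mod_cast h4.le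

theorem seq_hit_mean {ω : Type*} [DecidableEq ω] (Γ U : Finset ω) {m : ℕ} (hm : 0 < m) {a : ℝ}
    (ha : 1 < a) (hU : m * a * (U ∩ Γ).card ≤ Γ.card) :
    ∑ o ∈ Γ, Real.exp ((if o ∈ U then Real.log a else 0) - 1 / (m : ℝ)) ≤ Γ.card := by
  have h2 : ∀ o ∈ Γ, Real.exp ((if o ∈ U then Real.log a else 0) - 1 / (m : ℝ)) ≤
      (1 + if o ∈ U then a else 0) * Real.exp (-(1 / (m : ℝ))) := by
    intro o _
    rw [sub_eq_add_neg, Real.exp_add]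
    refine mul_le_mul_of_nonneg_right ?_ (Real.exp_pos _).le
    split_ifs
    · rw [Real.exp_log (by linarith)]
      linarith
    · simp
  refine (sum_le_sum h2).trans ?_
  rw [← sum_mul, sum_add_distrib, sum_const, nsmul_eq_mul, mul_one, ← sum_filter, sum_const,
    nsmul_eq_mul, filter_mem_eq_inter, inter_comm, Real.exp_neg, ← div_eq_mul_inv,
    div_le_iff₀ (Real.exp_pos _)]
  have hm' : (0 : ℝ) < m := by exact_mod_cast hm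
  have h3 := Real.add_one_le_exp (1 / (m : ℝ))
  have h5 : (Γ.card : ℝ) * (1 / m + 1) ≤ Γ.card * Real.exp (1 / m) :=
    mul_le_mul_of_nonneg_left h3 (Nat.cast_nonneg _)
  have h6 : ((U ∩ Γ).card : ℝ) * a ≤ Γ.card * (1 / m) := by
    rw [mul_one_div, le_div_iff₀ hm']
    linarith
  linarith

theorem seq_gauss (m : ℕ) : ∑ t ∈ range m, (t : ℝ) = m * (m - 1) / 2 := by
  induction m with
  | zero => simp
  | succ m ih =>
    rw [sum_range_succ, ih]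
    push_cast
    ring

theorem seq_points {Ω ι κ κ' : Type*} [DecidableEq Ω] (Γ : Finset Ω) (hΓ : Γ.Nonempty)
    (m d : ℕ) (hd : 1 ≤ d) (l a : ℝ) (ha : 1 < a) (hl : Real.exp (l + 1) ≤ a ^ d)
    (Φ : Finset ι) (U : ι → Finset Ω) (hU : ∀ φ ∈ Φ, m * a * (U φ ∩ Γ).card ≤ Γ.card)
    (Ψ : Finset κ) (ψ : κ → Ω → Ω → ℝ) (μ : κ → ℝ)
    (h0 : ∀ b ∈ Ψ, ∀ ω ω', 0 ≤ ψ b ω ω') (h1 : ∀ b ∈ Ψ, ∀ ω ω', ψ b ω ω' ≤ 1)
    (hs : ∀ b ∈ Ψ, ∀ ω ∈ Γ, ∃ φ ∈ Φ, ∀ ω' ∈ Γ, ψ b ω' ω ≠ 0 → ω' ∈ U φ)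
    (hμ : ∀ b ∈ Ψ, ∀ ω' ∈ Γ, ∑ ω ∈ Γ, ψ b ω' ω = μ b * Γ.card)
    (X : Finset κ') (χ : κ' → Ω → ℝ) (ν : κ' → ℝ)
    (c0 : ∀ b ∈ X, ∀ ω ∈ Γ, 0 ≤ χ b ω) (c1 : ∀ b ∈ X, ∀ ω ∈ Γ, χ b ω ≤ d)
    (hν : ∀ b ∈ X, ∑ ω ∈ Γ, χ b ω ≤ ν b * Γ.card)
    (hN : (Φ.card + 2 * Ψ.card + X.card : ℝ) < Real.exp l) :
    ∃ ξ : ℕ → Ω, (∀ i < m, ξ i ∈ Γ) ∧ (∀ φ ∈ Φ, #{i ∈ range m | ξ i ∈ U φ} ≤ d) ∧
      (∀ b ∈ Ψ, μ b * (m * (m - 1)) / 4 - d * l ≤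
          ∑ i' ∈ range m, ∑ i ∈ range i', ψ b (ξ i) (ξ i') ∧
        ∑ i' ∈ range m, ∑ i ∈ range i', ψ b (ξ i) (ξ i') ≤ μ b * (m * (m - 1)) + d * l) ∧
      ∀ b ∈ X, ∑ i ∈ range m, χ b (ξ i) ≤ 2 * m * ν b + d * l := by
  have hd' : (0 : ℝ) < d := by exact_mod_cast hd
  let e : ι ⊕ κ ⊕ κ ⊕ κ' → ℕ → (ℕ → Ω) → ℝ := Sum.elim
    (fun φ i ξ => (if ξ i ∈ U φ then Real.log a else 0) - 1 / (m : ℝ)) (Sum.elim
    (fun b i ξ => (∑ t ∈ range i, ψ b (ξ t) (ξ i)) / d - 2 * (i * μ b) / d) (Sum.elim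
    (fun b i ξ => i * μ b / (2 * d) - (∑ t ∈ range i, ψ b (ξ t) (ξ i)) / d)
    fun b i ξ => χ b (ξ i) / d - 2 * ν b / d))
  obtain ⟨ξ, g1, g2⟩ := seq_exp Γ hΓ (Φ.disjSum (Ψ.disjSum (Ψ.disjSum X))) l
    (by
      simp only [card_disjSum]
      push_cast
      linarith) e
    (by
      intro φ _ i ξ ξ' h
      have h2 : ∀ b, ∑ t ∈ range i, ψ b (ξ t) (ξ' i) = ∑ t ∈ range i, ψ b (ξ' t) (ξ' i) :=
        fun b => sum_congr rfl fun t ht => by rw [h t (mem_range.1 ht).le]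
      rcases φ with φ | b | b | b <;> simp only [e, Sum.elim_inl, Sum.elim_inr, h2, h i le_rfl]) m
    (by
      intro i hi ξ hξ h φ hφ
      have u1 : ∀ b o, ∑ t ∈ range i, ψ b (Function.update ξ i o t) o =
          ∑ t ∈ range i, ψ b (ξ t) o := fun b o =>
        sum_congr rfl fun t ht => by rw [Function.update_of_ne (mem_range.1 ht).ne]
      have u2 : ∀ b ∈ Ψ, ∀ o ∈ Γ, 0 ≤ ∑ t ∈ range i, ψ b (ξ t) o :=
        fun b hb o _ => sum_nonneg fun t _ => h0 b hb _ _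
      have u3 : ∀ b ∈ Ψ, ∀ o ∈ Γ, ∑ t ∈ range i, ψ b (ξ t) o ≤ d := by
        intro b hb o ho
        obtain ⟨φ, hφ, h3⟩ := hs b hb o ho
        have h4 := seq_hit (U φ) hi.le ha hl ξ (h (Sum.inl φ) (inl_mem_disjSum.2 hφ))
        have h5 : ∑ t ∈ range i, ψ b (ξ t) o ≤
            ∑ t ∈ range i, if ξ t ∈ U φ then (1 : ℝ) else 0 := by
          refine sum_le_sum fun t _ => ?_
          split_ifs with h6
          · exact h1 b hb _ _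
          · exact le_of_eq (by_contra fun h7 => h6 (h3 _ (hξ t) h7))
        rw [sum_boole] at h5
        exact h5.trans (by exact_mod_cast h4)
      have u4 : ∀ b ∈ Ψ, ∑ o ∈ Γ, ∑ t ∈ range i, ψ b (ξ t) o = i * μ b * Γ.card := by
        intro b hb
        rw [sum_comm, sum_congr rfl fun t _ => hμ b hb _ (hξ t), sum_const, card_range,
          nsmul_eq_mul, mul_assoc]
      rcases φ with φ | b | b | b <;>
        simp only [e, Sum.elim_inl, Sum.elim_inr, Function.update_self, u1] <;>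
        simp only [inl_mem_disjSum, inr_mem_disjSum] at hφ
      · exact seq_hit_mean Γ (U φ) (by omega) ha (hU φ hφ)
      · exact seq_up Γ hd' _ (u2 b hφ) (u3 b hφ) (u4 b hφ).le
      · exact seq_low Γ hd' _ (u2 b hφ) (u3 b hφ) (u4 b hφ).ge
      · exact seq_up Γ hd' _ (c0 b hφ) (c1 b hφ) (hν b hφ))
  refine ⟨ξ, fun i _ => g1 i, fun φ hφ => ?_, fun b hb => ⟨?_, ?_⟩, fun b hb => ?_⟩
  · exact seq_hit (U φ) le_rfl ha hl ξ (g2 (Sum.inl φ) (inl_mem_disjSum.2 hφ))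
  · have h := g2 (Sum.inr (Sum.inr (Sum.inl b))) (by simpa using hb)
    simp only [e, Sum.elim_inl, Sum.elim_inr] at h
    rw [sum_sub_distrib, ← sum_div, ← sum_div, ← sum_mul, seq_gauss, div_mul_eq_div_div,
      ← sub_div, div_lt_iff₀ hd'] at h
    linarith
  · have h := g2 (Sum.inr (Sum.inl b)) (by simpa using hb)
    simp only [e, Sum.elim_inl, Sum.elim_inr] at h
    rw [sum_sub_distrib, ← sum_div, ← sum_div, ← mul_sum, ← sum_mul, seq_gauss,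
      ← sub_div, div_lt_iff₀ hd'] at h
    linarith
  · have h := g2 (Sum.inr (Sum.inr (Sum.inr b))) (by simpa using hb)
    simp only [e, Sum.elim_inr] at h
    rw [sum_sub_distrib, ← sum_div, ← sum_div, sum_const, card_range, nsmul_eq_mul,
      ← sub_div, div_lt_iff₀ hd'] at h
    linarith

end Pool.Agent.P.MP_d5a1e1_nt.T2
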