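import Pool.Agent.P.MP_d5a1e1_nt.T2MassB

/-! Numerical bounds for the choice of the types. -/

namespace Pool.Agent.P.MP_d5a1e1_nt.T2

open Finset TB

theorem ty_yy {k : ℕ} (hk : k0 ≤ k) : 1000 ≤ yy k := by
  have h1 := yy_big hk
  have h2 := LL_big hk
  have h3 : 1 ≤ 2 ^ 3000 := Nat.one_le_two_pow
  generalize 2 ^ 3000 = c at h1 h3
  nlinarith

theorem ty_k {k : ℕ} (hk : k0 ≤ k) : 1000 ≤ k := by
  have h1 := yy_le hk
  have h2 := ty_yy hk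
  have h3 : yy k ^ 1 ≤ yy k ^ 399 := Nat.pow_le_pow_right (by omega) (by norm_num)
  rw [pow_one] at h3
  omega

theorem ty_503 {k : ℕ} (hk : k0 ≤ k) : yy k ^ 503 ≤ k ^ 2 := by
  have h1 := yy_le hk
  have h2 := ty_yy hk
  calc yy k ^ 503 ≤ yy k ^ (399 * 2) := Nat.pow_le_pow_right (by omega) (by norm_num)
    _ = (yy k ^ 399) ^ 2 := pow_mul _ _ _
    _ ≤ k ^ 2 := Nat.pow_le_pow_left h1 2

theorem ty_ind (q : ℕ) (hq : 30 ≤ q) : 2 * (4 * q + 4) ^ 2 * 81 ^ q ≤ 128 ^ q := by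
  induction q, hq using Nat.le_induction with
  | base => norm_num
  | succ q hq ih =>
    have h : 2 * (4 * (q + 1) + 4) ^ 2 * 81 ≤ 128 * (2 * (4 * q + 4) ^ 2) := by nlinarith
    calc 2 * (4 * (q + 1) + 4) ^ 2 * 81 ^ (q + 1)
        = (2 * (4 * (q + 1) + 4) ^ 2 * 81) * 81 ^ q := by ring
      _ ≤ 128 * (2 * (4 * q + 4) ^ 2) * 81 ^ q := Nat.mul_le_mul_right _ h
      _ = 128 * (2 * (4 * q + 4) ^ 2 * 81 ^ q) := by ring
      _ ≤ 128 * 128 ^ q := Nat.mul_le_mul_left _ ih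
      _ = 128 ^ (q + 1) := by ring

theorem ty_diag {k : ℕ} (hk : 1000 ≤ k) : 2 * k ^ 2 * 2 ^ (k / 4) * 3 ^ k ≤ 4 ^ k := by
  obtain ⟨q, r, hr, rfl⟩ : ∃ q r, r < 4 ∧ k = 4 * q + r := ⟨k / 4, k % 4, by omega, by omega⟩
  have hq : (4 * q + r) / 4 = q := by omega
  rw [hq]
  have h1 := ty_ind q (by omega)
  have h2 : (4 * q + r) ^ 2 ≤ (4 * q + 4) ^ 2 := Nat.pow_le_pow_left (by omega) 2
  have h3 : 3 ^ r ≤ 4 ^ r := Nat.pow_le_pow_left (by omega) r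
  have e1 : 3 ^ (4 * q + r) = 81 ^ q * 3 ^ r := by rw [pow_add, pow_mul]; norm_num
  have e2 : 4 ^ (4 * q + r) = 128 ^ q * 2 ^ q * 4 ^ r := by
    rw [pow_add, pow_mul, ← mul_pow]; norm_num
  rw [e1, e2]
  calc 2 * (4 * q + r) ^ 2 * 2 ^ q * (81 ^ q * 3 ^ r)
      = (2 * (4 * q + r) ^ 2 * 81 ^ q) * 2 ^ q * 3 ^ r := by ring
    _ ≤ (2 * (4 * q + 4) ^ 2 * 81 ^ q) * 2 ^ q * 4 ^ r := by gcongr
    _ ≤ 128 ^ q * 2 ^ q * 4 ^ r := by gcongr

theorem ty_lin (k : ℕ) (hk : 10 ≤ k) : 86 * k ≤ 4 ^ k := by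
  induction k, hk using Nat.le_induction with
  | base => norm_num
  | succ k hk ih => rw [pow_succ]; omega

theorem ty_ph_pos (k : ℕ) : 0 < ph k := lt_of_lt_of_le one_pos (one_le_ph k)

/-- The geometric mean of the two bounds on the size of the label set. -/
theorem ty_SS (k : ℕ) :
    ((SS k).card : ℝ) * 16 ^ k ≤ (yy k : ℝ) ^ 301 * ph k * (3 ^ k * Del k) := by
  have h1 := card_SS_rat k
  have h2 : ((SS k).card : ℝ) * 16 ^ (2 * k) ≤ 3 ^ (2 * k) * (Del k : ℝ) ^ 2 := by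
    exact_mod_cast card_SS_small k
  have hp := ty_ph_pos k
  have e : (rat k : ℝ) = ((yy k : ℝ) ^ 301) ^ 2 := by
    rw [rat, ← pow_mul]; push_cast; rfl
  rw [e] at h1
  refine (pow_le_pow_iff_left₀ (by positivity) (by positivity) two_ne_zero).1 ?_
  calc (((SS k).card : ℝ) * 16 ^ k) ^ 2
      = (SS k).card * ((SS k).card * 16 ^ (2 * k)) := by rw [pow_mul']; ring
    _ ≤ (((yy k : ℝ) ^ 301) ^ 2 * ph k ^ 2) * (3 ^ (2 * k) * (Del k : ℝ) ^ 2) := by gcongr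
    _ = _ := by
      rw [pow_mul']
      generalize (yy k : ℝ) ^ 301 = a
      ring

theorem ty_mm_succ (j : ℕ) :
    (mm (j + 1) : ℝ) * ph j ≤ 32 * (j + 1) * lam (j + 1) * Del j := by
  have h1 := mm_le (j + 1)
  have h2 := ph_succ j
  have hD : (0 : ℝ) < DD j := by exact_mod_cast DD_pos j
  rw [Del_succ] at h1
  push_cast at h1
  refine le_of_mul_le_mul_left ?_ hD
  calc (DD j : ℝ) * (mm (j + 1) * ph j) = mm (j + 1) * (DD j * ph j) := by ring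
    _ ≤ mm (j + 1) * (16 * (j + 1) * ph (j + 1)) := by gcongr
    _ = 16 * (j + 1) * (mm (j + 1) * ph (j + 1)) := by ring
    _ ≤ 16 * (j + 1) * (2 * (lam (j + 1) : ℝ) * (Del j * DD j)) := by gcongr
    _ = _ := by ring

theorem ty_lam (k : ℕ) : (lam k : ℝ) = (yy k : ℝ) ^ 202 := by rw [lam]; push_cast; rfl

theorem dens_down {j : ℕ} (hk : k0 ≤ j + 1) :
    (mm (j + 1) : ℝ) * 2 ^ ((j + 1) / 4) * (SS j).card ≤ (Del j : ℝ) ^ 2 := by
  have h1 := ty_mm_succ j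
  have h2 := ty_SS j
  have hp := ty_ph_pos j
  have hk' := ty_k hk
  have h3 : (yy (j + 1) : ℝ) ^ 503 ≤ ((j : ℝ) + 1) ^ 2 := by exact_mod_cast ty_503 hk
  have h4 : (2 : ℝ) * (j + 1) ^ 2 * 2 ^ ((j + 1) / 4) * 3 ^ (j + 1) ≤ 4 ^ (j + 1) := by
    exact_mod_cast ty_diag hk'
  have h5 : (86 : ℝ) * (j + 1) ≤ 4 ^ (j + 1) := by exact_mod_cast ty_lin (j + 1) (by omega)
  have h6 : (yy j : ℝ) ^ 301 ≤ (yy (j + 1) : ℝ) ^ 301 := by
    exact_mod_cast Nat.pow_le_pow_left (yy_mono (Nat.le_succ j)) 301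
  have h7 : (lam (j + 1) : ℝ) * (yy (j + 1) : ℝ) ^ 301 ≤ ((j : ℝ) + 1) ^ 2 := by
    rw [ty_lam, ← pow_add]; exact h3
  have e16 : (16 : ℝ) ^ (j + 1) = 4 ^ (j + 1) * 4 ^ (j + 1) := by rw [← mul_pow]; norm_num
  have h8 : 32 * ((j : ℝ) + 1) * (j + 1) ^ 2 * 2 ^ ((j + 1) / 4) * 3 ^ j ≤ 16 ^ j := by
    have h9 : ((86 : ℝ) * (j + 1)) * (2 * (j + 1) ^ 2 * 2 ^ ((j + 1) / 4) * 3 ^ (j + 1)) ≤
        16 ^ (j + 1) := by
      rw [e16]; gcongr
    rw [pow_succ (16 : ℝ), pow_succ (3 : ℝ)] at h9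
    clear h1 h2 h3 h4 h5 h6 h7 e16
    have h10 : 0 ≤ ((j : ℝ) + 1) * (j + 1) ^ 2 * 2 ^ ((j + 1) / 4) * 3 ^ j := by positivity
    have e1 : ((86 : ℝ) * (j + 1)) * (2 * (j + 1) ^ 2 * 2 ^ ((j + 1) / 4) * (3 ^ j * 3)) =
        516 * (((j : ℝ) + 1) * (j + 1) ^ 2 * 2 ^ ((j + 1) / 4) * 3 ^ j) := by ring
    have e2 : 32 * ((j : ℝ) + 1) * (j + 1) ^ 2 * 2 ^ ((j + 1) / 4) * 3 ^ j =
        32 * (((j : ℝ) + 1) * (j + 1) ^ 2 * 2 ^ ((j + 1) / 4) * 3 ^ j) := by ring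
    rw [e1] at h9
    rw [e2]
    linarith
  have hpos : (0 : ℝ) < ph j * 16 ^ j := by positivity
  refine le_of_mul_le_mul_left ?_ hpos
  generalize (yy j : ℝ) ^ 301 = a at *
  generalize hb : (yy (j + 1) : ℝ) ^ 301 = b at *
  have hb0 : 0 ≤ b := by rw [← hb]; positivity
  calc ph j * 16 ^ j * (mm (j + 1) * 2 ^ ((j + 1) / 4) * (SS j).card)
      = (mm (j + 1) * ph j) * ((SS j).card * 16 ^ j) * 2 ^ ((j + 1) / 4) := by ring
    _ ≤ (32 * (j + 1) * lam (j + 1) * Del j) * (b * ph j * (3 ^ j * Del j)) *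
        2 ^ ((j + 1) / 4) := by
      have h2' : ((SS j).card : ℝ) * 16 ^ j ≤ b * ph j * (3 ^ j * Del j) :=
        h2.trans (by gcongr)
      gcongr
    _ = (32 * (j + 1) * (lam (j + 1) * b) * 2 ^ ((j + 1) / 4) * 3 ^ j) * (ph j * Del j ^ 2) := by
      ring
    _ ≤ (32 * (j + 1) * (j + 1) ^ 2 * 2 ^ ((j + 1) / 4) * 3 ^ j) * (ph j * Del j ^ 2) := by gcongr
    _ ≤ 16 ^ j * (ph j * Del j ^ 2) := by gcongr
    _ = _ := by ring

theorem dens_diag {k : ℕ} (hk : k0 ≤ k) :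
    (mm k : ℝ) * 2 ^ (k / 4) * (4 ^ k * (SS k).card) ≤ (Del k : ℝ) ^ 2 := by
  have h1 := mm_le k
  have h2 := ty_SS k
  have hp := ty_ph_pos k
  have h3 : (yy k : ℝ) ^ 503 ≤ (k : ℝ) ^ 2 := by exact_mod_cast ty_503 hk
  have h4 : (2 : ℝ) * k ^ 2 * 2 ^ (k / 4) * 3 ^ k ≤ 4 ^ k := by
    exact_mod_cast ty_diag (ty_k hk)
  have h7 : (lam k : ℝ) * (yy k : ℝ) ^ 301 ≤ (k : ℝ) ^ 2 := by
    rw [ty_lam, ← pow_add]; exact h3
  have e16 : (16 : ℝ) ^ k = 4 ^ k * 4 ^ k := by rw [← mul_pow]; norm_num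
  have hpos : (0 : ℝ) < ph k * 4 ^ k := by positivity
  refine le_of_mul_le_mul_left ?_ hpos
  generalize hb : (yy k : ℝ) ^ 301 = b at *
  have hb0 : 0 ≤ b := by rw [← hb]; positivity
  calc ph k * 4 ^ k * (mm k * 2 ^ (k / 4) * (4 ^ k * (SS k).card))
      = (mm k * ph k) * ((SS k).card * 16 ^ k) * 2 ^ (k / 4) := by rw [e16]; ring
    _ ≤ (2 * lam k * Del k) * (b * ph k * (3 ^ k * Del k)) * 2 ^ (k / 4) := by gcongr
    _ = (2 * (lam k * b) * 2 ^ (k / 4) * 3 ^ k) * (ph k * Del k ^ 2) := by ring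
    _ ≤ (2 * k ^ 2 * 2 ^ (k / 4) * 3 ^ k) * (ph k * Del k ^ 2) := by gcongr
    _ ≤ 4 ^ k * (ph k * Del k ^ 2) := by gcongr
    _ = _ := by ring

theorem ty_Del (k : ℕ) : Del k ≤ 2 ^ (6000 * LL k * k) := by
  calc Del k ≤ ∏ _u ∈ range k, 2 ^ (6000 * LL k) := by
        refine prod_le_prod' fun u hu => (DD_le u).trans ?_
        exact Nat.pow_le_pow_right two_pos
          (Nat.mul_le_mul_left _ (LL_mono (mem_range.1 hu).le))
    _ = _ := by rw [prod_const, card_range, ← pow_mul]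

theorem ell_le {k : ℕ} (hk : k0 ≤ k) :
    Real.exp (Real.log (9 * (Del k : ℝ) ^ 2) + 1) ≤ ((2 : ℝ) ^ (k / 4)) ^ yy k := by
  have hD : (0 : ℝ) < Del k := by exact_mod_cast Del_pos k
  have h1 : (Del k : ℝ) ≤ 2 ^ (6000 * LL k * k) := by exact_mod_cast ty_Del k
  have he : Real.exp 1 ≤ 3 := (Real.exp_one_lt_d9.trans (by norm_num)).le
  have h2 : 5 + 6000 * LL k * k * 2 ≤ k / 4 * yy k := by
    have a1 := yy_big hk
    have a2 := LL_big hk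
    have a3 := ty_k hk
    have a4 : 2 ^ 17 ≤ 2 ^ 3000 := Nat.pow_le_pow_right two_pos (by norm_num)
    generalize 2 ^ 3000 = c at a1 a4
    have a5 : 2 ^ 17 * LL k ≤ yy k := (Nat.mul_le_mul_right _ a4).trans a1
    have a6 : k ≤ 5 * (k / 4) := by omega
    have a7 : 1 ≤ k / 4 := by omega
    clear h1 he hD a1 a4
    generalize k / 4 = q at *
    have a8 : 1 ≤ LL k * q := Nat.mul_pos (by omega) a7
    have a9 : 6000 * LL k * k * 2 ≤ 6000 * LL k * (5 * q) * 2 :=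
      Nat.mul_le_mul_right _ (Nat.mul_le_mul_left _ a6)
    calc 5 + 6000 * LL k * k * 2 ≤ 5 * (LL k * q) + 6000 * LL k * (5 * q) * 2 := by omega
      _ = q * (60005 * LL k) := by ring
      _ ≤ q * yy k := Nat.mul_le_mul_left _ (by omega)
  rw [Real.exp_add, Real.exp_log (by positivity), ← pow_mul]
  calc 9 * (Del k : ℝ) ^ 2 * Real.exp 1 ≤ 9 * (2 ^ (6000 * LL k * k)) ^ 2 * 3 := by gcongr
    _ ≤ 2 ^ 5 * (2 ^ (6000 * LL k * k)) ^ 2 := by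
      have : (0 : ℝ) ≤ (2 ^ (6000 * LL k * k)) ^ 2 := by positivity
      nlinarith
    _ = 2 ^ (5 + 6000 * LL k * k * 2) := by rw [← pow_mul, ← pow_add]
    _ ≤ _ := pow_le_pow_right₀ one_le_two h2

theorem ell_small {k : ℕ} (hk : k0 ≤ k) :
    yy k * Real.log (9 * (Del k : ℝ) ^ 2) ≤ (lam k : ℝ) ^ 2 / 32 := by
  have hD : (1 : ℝ) ≤ Del k := by exact_mod_cast Del_pos k
  have h1 : (Del k : ℝ) ^ 4 ≤ 2 ^ yy k ^ 401 := by exact_mod_cast Del_le hk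
  have hy : (1000 : ℝ) ≤ yy k := by exact_mod_cast ty_yy hk
  have h2 : 9 * (Del k : ℝ) ^ 2 ≤ 2 ^ (4 + yy k ^ 401) := by
    have : (Del k : ℝ) ^ 2 ≤ (Del k : ℝ) ^ 4 := pow_le_pow_right₀ hD (by norm_num)
    have h0 : (0 : ℝ) ≤ 2 ^ yy k ^ 401 := by positivity
    rw [pow_add]
    nlinarith
  have h3 : Real.log (9 * (Del k : ℝ) ^ 2) ≤ 4 + (yy k : ℝ) ^ 401 := by
    refine (Real.log_le_log (by positivity) h2).trans ?_
    rw [Real.log_pow]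
    have hl : Real.log 2 ≤ 1 := (Real.log_two_lt_d9.trans (by norm_num)).le
    push_cast
    exact mul_le_of_le_one_right (by positivity) hl
  have h4 : (1 : ℝ) ≤ (yy k : ℝ) ^ 401 := one_le_pow₀ (by linarith)
  have e : (lam k : ℝ) ^ 2 = (yy k : ℝ) * ((yy k : ℝ) ^ 2 * (yy k : ℝ) ^ 401) := by
    rw [ty_lam, ← pow_mul, ← pow_add, ← pow_succ']
  rw [e, mul_div_assoc]
  refine mul_le_mul_of_nonneg_left (h3.trans ?_) (by positivity)
  generalize (yy k : ℝ) ^ 401 = b at *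
  have h5 : (160 : ℝ) ≤ (yy k : ℝ) ^ 2 := by nlinarith
  have h6 : 160 * b ≤ (yy k : ℝ) ^ 2 * b := by gcongr
  linarith

theorem ty_fin {y : ℝ} (hy : 1000 ≤ y) : 128 * y ^ 1406 + y ^ 404 + y ≤ y ^ 1408 := by
  have h1 : y ^ 404 ≤ y ^ 1406 := pow_le_pow_right₀ (by linarith) (by norm_num)
  have h2 : y ^ 1 ≤ y ^ 1406 := pow_le_pow_right₀ (by linarith) (by norm_num)
  have e : y ^ 1408 = y ^ 2 * y ^ 1406 := by rw [← pow_add]
  rw [pow_one] at h2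
  rw [e]
  generalize y ^ 1406 = b at *
  generalize y ^ 404 = a at *
  have h5 : (130 : ℝ) ≤ y ^ 2 := by nlinarith
  have h6 : 130 * b ≤ y ^ 2 * b := mul_le_mul_of_nonneg_right h5 (by linarith)
  linarith

theorem ty_sq (k : ℕ) : (lam k : ℝ) ^ 2 = (yy k : ℝ) ^ 404 := by rw [ty_lam, ← pow_mul]

theorem ty_Lam (k : ℕ) : (Lam k : ℝ) = (yy k : ℝ) ^ 1408 := by rw [Lam]; push_cast; rfl

theorem ty_rat (k : ℕ) : (rat k : ℝ) = (yy k : ℝ) ^ 602 := by rw [rat]; push_cast; rfl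

theorem list_self {k : ℕ} (hk : k0 ≤ k) :
    2 * (((SS k).card : ℝ) / (Del k : ℝ) ^ 2 * (mm k * (mm k - 1)) + (lam k : ℝ) ^ 2 / 32) +
      yy k ≤ Lam k := by
  have hD : (0 : ℝ) < Del k := by exact_mod_cast Del_pos k
  have hy : (1000 : ℝ) ≤ yy k := by exact_mod_cast ty_yy hk
  have hp := ty_ph_pos k
  have h1 := mm_le k
  have h2 := card_SS_rat k
  have h3 : ((SS k).card : ℝ) / (Del k : ℝ) ^ 2 * (mm k * (mm k - 1)) ≤
      4 * (rat k * (lam k : ℝ) ^ 2) := by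
    rw [div_mul_eq_mul_div, div_le_iff₀ (by positivity)]
    calc ((SS k).card : ℝ) * (mm k * (mm k - 1)) ≤ (rat k * ph k ^ 2) * (mm k * mm k) := by
          have : (1 : ℝ) ≤ mm k := by exact_mod_cast (mm_two k).trans' one_le_two
          have h0 : (0 : ℝ) ≤ mm k - 1 := by linarith
          gcongr
          linarith
      _ = rat k * (mm k * ph k) ^ 2 := by ring
      _ ≤ rat k * (2 * (lam k : ℝ) * Del k) ^ 2 := by gcongr
      _ = _ := by ring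
  have h4 : (rat k : ℝ) * (lam k : ℝ) ^ 2 ≤ (yy k : ℝ) ^ 1406 := by
    rw [ty_rat, ty_sq, ← pow_add]
    exact pow_le_pow_right₀ (by linarith) (by norm_num)
  have h5 := ty_fin hy
  rw [← ty_sq, ← ty_Lam] at h5
  have h6 : (0 : ℝ) ≤ (lam k : ℝ) ^ 2 := by positivity
  have h7 : (0 : ℝ) ≤ (yy k : ℝ) ^ 1406 := by positivity
  generalize (yy k : ℝ) ^ 1406 = b at *
  linarith

theorem list_cross {j : ℕ} (hk : k0 ≤ j + 1) :
    2 * mm (j + 1) * (mm j * ((SS j).card : ℝ) / (Del j : ℝ) ^ 2) +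
      (lam (j + 1) : ℝ) ^ 2 / 32 ≤ Lam (j + 1) := by
  have hD : (0 : ℝ) < Del j := by exact_mod_cast Del_pos j
  have hy : (1000 : ℝ) ≤ yy (j + 1) := by exact_mod_cast ty_yy hk
  have hp := ty_ph_pos j
  have h1 := mm_le j
  have h1' := ty_mm_succ j
  have h2 := card_SS_rat j
  have h3 : 2 * mm (j + 1) * (mm j * ((SS j).card : ℝ) / (Del j : ℝ) ^ 2) ≤
      128 * ((j + 1) * lam (j + 1) * lam j * rat j) := by
    rw [← mul_div_assoc, div_le_iff₀ (by positivity)]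
    calc 2 * mm (j + 1) * (mm j * ((SS j).card : ℝ))
        ≤ 2 * mm (j + 1) * (mm j * (rat j * ph j ^ 2)) := by gcongr
      _ = 2 * rat j * ((mm (j + 1) * ph j) * (mm j * ph j)) := by ring
      _ ≤ 2 * rat j * ((32 * (j + 1) * lam (j + 1) * Del j) * (2 * (lam j : ℝ) * Del j)) := by
        gcongr
      _ = _ := by ring
  have hyy : (yy j : ℝ) ≤ yy (j + 1) := by exact_mod_cast yy_mono (Nat.le_succ j)
  have ht : (j : ℝ) + 1 ≤ (yy (j + 1) : ℝ) ^ 400 := by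
    have := (lt_tau (j + 1)).le
    rw [tau_eq] at this
    exact_mod_cast this
  have h4 : ((j : ℝ) + 1) * lam (j + 1) * lam j * rat j ≤ (yy (j + 1) : ℝ) ^ 1406 := by
    rw [ty_rat, ty_lam, ty_lam]
    calc ((j : ℝ) + 1) * (yy (j + 1) : ℝ) ^ 202 * (yy j : ℝ) ^ 202 * (yy j : ℝ) ^ 602
        ≤ (yy (j + 1) : ℝ) ^ 400 * (yy (j + 1) : ℝ) ^ 202 * (yy (j + 1) : ℝ) ^ 202 *
          (yy (j + 1) : ℝ) ^ 602 := by
          have b1 := pow_le_pow_left₀ (Nat.cast_nonneg _) hyy 202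
          have b2 := pow_le_pow_left₀ (Nat.cast_nonneg _) hyy 602
          have c1 := pow_nonneg (Nat.cast_nonneg (α := ℝ) (yy (j + 1))) 202
          have c2 := pow_nonneg (Nat.cast_nonneg (α := ℝ) (yy (j + 1))) 400
          have c3 := pow_nonneg (Nat.cast_nonneg (α := ℝ) (yy j)) 202
          have c4 := pow_nonneg (Nat.cast_nonneg (α := ℝ) (yy j)) 602
          exact mul_le_mul (mul_le_mul (mul_le_mul_of_nonneg_right ht c1) b1 c3
            (mul_nonneg c2 c1)) b2 c4 (mul_nonneg (mul_nonneg c2 c1) c1)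
      _ = _ := by rw [← pow_add, ← pow_add, ← pow_add]
  have h5 := ty_fin hy
  rw [← ty_sq, ← ty_Lam] at h5
  have h6 : (0 : ℝ) ≤ (lam (j + 1) : ℝ) ^ 2 := by positivity
  generalize (yy (j + 1) : ℝ) ^ 1406 = b at *
  linarith

end Pool.Agent.P.MP_d5a1e1_nt.T2
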