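import Pool.Agent.P.MP_d5a1e1_nt.T2TypA1
import Pool.Agent.P.MP_d5a1e1_nt.T2G
import Pool.Agent.P.MP_d5a1e1_nt.T2Seq

/-! One step in the choice of the types. -/

namespace Pool.Agent.P.MP_d5a1e1_nt.T2

open Finset TB

/-- The properties of the types of one state. -/
structure Own (k : ℕ) (ξ : ℕ → ℕ → ℕ) : Prop where
  box : ∀ i < mm k, ξ i ∈ Box (2 * k) DD
  deg : ∀ j, k = j ∨ k = j + 1 → ∀ g ∈ Box (2 * j) DD, ∀ ξ₀ : ℕ → ℕ,
    (∀ s < 2 * j, ξ₀ s < DD (s / 2)) → #{i ∈ range (mm k) | ym j g ξ₀ (ξ i) ∈ SS j} ≤ yy k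
  list : ∀ g ∈ Box (2 * k) DD,
    #{q ∈ range (mm k) ×ˢ range (mm k) | ym k g (ξ q.1) (ξ q.2) ∈ SS k} ≤ Lam k
  up0 : ∀ g ∈ Box (2 * k) DD, ∑ q ∈ range (mm k) ×ˢ range (mm k),
    Gp k k (ym k g (ξ q.1) (ξ q.2)) ≤ 15 * (lam k : ℝ) ^ 2
  low : ∀ g ∈ Box (2 * k) DD, (lam k : ℝ) ^ 2 / 16 ≤
    ∑ q ∈ range (mm k) ×ˢ range (mm k), Gm k (ym k g (ξ q.1) (ξ q.2))

/-- The properties of the types of two consecutive states; `m` old types are used. -/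
structure Cross (j m : ℕ) (ξ ξ' : ℕ → ℕ → ℕ) : Prop where
  list : ∀ g ∈ Box (2 * j) DD,
    #{q ∈ range m ×ˢ range (mm (j + 1)) | ym j g (ξ q.1) (ξ' q.2) ∈ SS j} ≤ Lam (j + 1)
  up1 : ∀ g ∈ Box (2 * j) DD, ∑ q ∈ range m ×ˢ range (mm (j + 1)),
    Gp j (j + 1) (ym j g (ξ q.1) (ξ' q.2)) ≤ 13 * DD j * (lam (j + 1) : ℝ) ^ 2

-- PART b
theorem T2TypAb_pairs (f : ℕ → ℕ → ℝ) (hf : ∀ a b, f a b = f b a) (m : ℕ) :
    ∑ q ∈ range m ×ˢ range m, f q.1 q.2 =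
      2 * ∑ i' ∈ range m, ∑ i ∈ range i', f i i' + ∑ i ∈ range m, f i i := by
  rw [sum_product']
  induction m with
  | zero => simp
  | succ m ih =>
    simp only [sum_range_succ, sum_add_distrib, ih]
    rw [sum_congr rfl fun b _ => hf m b]
    ring

theorem T2TypAb_le {α : Type*} (s : Finset α) (P : α → Prop) [DecidablePred P] (F : α → ℝ)
    (h1 : ∀ i ∈ s, F i ≤ 1) (h2 : ∀ i ∈ s, F i ≠ 0 → P i) : ∑ i ∈ s, F i ≤ #{i ∈ s | P i} := by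
  rw [← sum_boole]
  refine sum_le_sum fun i hi => ?_
  split_ifs with h
  · exact h1 i hi
  · exact le_of_eq (by_contra fun h3 => h (h2 i hi h3))

theorem T2TypAb_ind (k : ℕ) :
    ∑ y ∈ Box (2 * k) DD, (if y ∈ SS k then (1 : ℝ) else 0) = (SS k).card := by
  rw [sum_boole, filter_mem_eq_inter, inter_eq_right.2 fun y hy => (mem_SS.1 hy).1]

/-- The kernels inside one state. -/
noncomputable def T2TypAb_F (k : ℕ) : Fin 3 → (ℕ → ℕ) → ℝ :=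
  ![fun y => if y ∈ SS k then 1 else 0, Gp k k, Gm k]

/-- The kernels between two states. -/
noncomputable def T2TypAb_E (j : ℕ) : Fin 2 → (ℕ → ℕ) → ℝ :=
  ![fun y => if y ∈ SS j then 1 else 0, fun y => Gp j (j + 1) y / DD j]

theorem T2TypAb_F_ok (k : ℕ) (t : Fin 3) (y : ℕ → ℕ) : 0 ≤ T2TypAb_F k t y ∧
    T2TypAb_F k t y ≤ 1 ∧ (y ∈ Box (2 * k) DD → T2TypAb_F k t y ≠ 0 → y ∈ SS k) := by
  have h1 : 0 ≤ Gp k k y := GG_nonneg _ _ _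
  have h2 : Gp k k y ≤ 1 := GG_le_one _ _
  have h3 := Gm_nonneg k y
  have h4 := Gm_le_Gp k y
  fin_cases t
  · show 0 ≤ (if y ∈ SS k then (1 : ℝ) else 0) ∧ (if y ∈ SS k then (1 : ℝ) else 0) ≤ 1 ∧
      (_ → (if y ∈ SS k then (1 : ℝ) else 0) ≠ 0 → _)
    split_ifs with h
    · exact ⟨zero_le_one, le_rfl, fun _ _ => h⟩
    · exact ⟨le_rfl, zero_le_one, fun _ h5 => absurd rfl h5⟩
  · exact ⟨h1, h2, fun hy h => Gp_supp le_rfl hy h⟩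
  · refine ⟨h3, h4.trans h2, fun hy h => Gp_supp le_rfl hy fun h5 => h ?_⟩
    exact le_antisymm (h4.trans h5.le) h3

theorem T2TypAb_E_ok (j : ℕ) (t : Fin 2) (y : ℕ → ℕ) : 0 ≤ T2TypAb_E j t y ∧
    T2TypAb_E j t y ≤ 1 ∧ (y ∈ Box (2 * j) DD → T2TypAb_E j t y ≠ 0 → y ∈ SS j) := by
  have h0 : (0 : ℝ) < DD j := by exact_mod_cast DD_pos j
  have h1 : 0 ≤ Gp j (j + 1) y := GG_nonneg _ _ _
  have h2 : Gp j (j + 1) y ≤ DD j := GG_le_D _ _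
  fin_cases t
  · show 0 ≤ (if y ∈ SS j then (1 : ℝ) else 0) ∧ (if y ∈ SS j then (1 : ℝ) else 0) ≤ 1 ∧
      (_ → (if y ∈ SS j then (1 : ℝ) else 0) ≠ 0 → _)
    split_ifs with h
    · exact ⟨zero_le_one, le_rfl, fun _ _ => h⟩
    · exact ⟨le_rfl, zero_le_one, fun _ h5 => absurd rfl h5⟩
  · refine ⟨div_nonneg h1 h0.le, (div_le_one h0).2 h2, fun hy h => ?_⟩
    refine Gp_supp (Nat.le_succ j) hy fun h5 => h ?_
    show Gp j (j + 1) y / DD j = 0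
    rw [h5, zero_div]

theorem T2TypAb_seq {j : ℕ} (hk : k0 ≤ j + 1) {m : ℕ} (ξ : ℕ → ℕ → ℕ)
    (hb : ∀ i < m, ∀ s < 2 * j, ξ i s < DD (s / 2))
    (hd : ∀ g ∈ Box (2 * j) DD, ∀ ξ₀ : ℕ → ℕ, (∀ s < 2 * j, ξ₀ s < DD (s / 2)) →
      #{i ∈ range m | ym j g ξ₀ (ξ i) ∈ SS j} ≤ yy (j + 1)) :
    ∃ ξ' : ℕ → ℕ → ℕ, (∀ i < mm (j + 1), ξ' i ∈ Box (2 * (j + 1)) DD) ∧
      (∀ g ∈ Box (2 * j) DD,
        #{i ∈ range (mm (j + 1)) | ym j g (fun _ => 0) (ξ' i) ∈ SS j} ≤ yy (j + 1)) ∧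
      (∀ g ∈ Box (2 * (j + 1)) DD,
        #{i ∈ range (mm (j + 1)) | ym (j + 1) g (ξ' i) (ξ' i) ∈ SS (j + 1)} ≤ yy (j + 1)) ∧
      (∀ g ∈ Box (2 * (j + 1)) DD, ∀ t,
        (∑ y ∈ Box (2 * (j + 1)) DD, T2TypAb_F (j + 1) t y) / (Del (j + 1) : ℝ) ^ 2 *
          (mm (j + 1) * (mm (j + 1) - 1)) / 4 - (lam (j + 1) : ℝ) ^ 2 / 32 ≤
          ∑ i' ∈ range (mm (j + 1)), ∑ i ∈ range i',
            T2TypAb_F (j + 1) t (ym (j + 1) g (ξ' i) (ξ' i')) ∧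
        ∑ i' ∈ range (mm (j + 1)), ∑ i ∈ range i',
            T2TypAb_F (j + 1) t (ym (j + 1) g (ξ' i) (ξ' i')) ≤
          (∑ y ∈ Box (2 * (j + 1)) DD, T2TypAb_F (j + 1) t y) / (Del (j + 1) : ℝ) ^ 2 *
          (mm (j + 1) * (mm (j + 1) - 1)) + (lam (j + 1) : ℝ) ^ 2 / 32) ∧
      ∀ g ∈ Box (2 * j) DD, ∀ t,
        ∑ i' ∈ range (mm (j + 1)), ∑ i ∈ range m, T2TypAb_E j t (ym j g (ξ i) (ξ' i')) ≤
          2 * mm (j + 1) * (m * (∑ y ∈ Box (2 * j) DD, T2TypAb_E j t y) / (Del j : ℝ) ^ 2) +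
            (lam (j + 1) : ℝ) ^ 2 / 32 := by
  have dj : (0 : ℝ) < (Del j : ℝ) ^ 2 := pow_pos (by exact_mod_cast Del_pos j) 2
  have dk : (0 : ℝ) < (Del (j + 1) : ℝ) ^ 2 := pow_pos (by exact_mod_cast Del_pos _) 2
  have cj : ((Box (2 * j) DD).card : ℝ) = (Del j : ℝ) ^ 2 := by exact_mod_cast card_Gam j
  have ck : ((Box (2 * (j + 1)) DD).card : ℝ) = (Del (j + 1) : ℝ) ^ 2 := by
    exact_mod_cast card_Gam (j + 1)
  have z0 : ∀ n, ∀ s < n, (fun _ : ℕ => 0) s < DD (s / 2) := fun _ s _ => DD_pos _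
  have hlt : ∀ ω ∈ Box (2 * (j + 1)) DD, ∀ s < 2 * j, ω s < DD (s / 2) :=
    fun ω hω s hs => (mem_Box.1 hω).1 s (by omega)
  have h4 : 1 ≤ (j + 1) / 4 := by
    have h2 : 2 ^ 2 ≤ j + 1 :=
      ((Nat.pow_le_pow_left (yy_ge (j + 1)) 2).trans
        (Nat.pow_le_pow_right (by have := yy_ge (j + 1); omega) (by norm_num))).trans (yy_le hk)
    omega
  have hsm := ell_small hk
  obtain ⟨ξ', g1, g2, g3, g4⟩ := seq_points (Box (2 * (j + 1)) DD)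
    (card_pos.1 (by rw [card_Gam]; exact pow_pos (Del_pos _) 2)) (mm (j + 1)) (yy (j + 1))
    (by have := yy_ge (j + 1); omega) (Real.log (9 * (Del (j + 1) : ℝ) ^ 2))
    ((2 : ℝ) ^ ((j + 1) / 4)) (one_lt_pow₀ (by norm_num) (by omega)) (ell_le hk)
    ((Box (2 * j) DD).disjSum (Box (2 * (j + 1)) DD))
    (Sum.elim (fun g => (Box (2 * (j + 1)) DD).filter fun ω => ym j g (fun _ => 0) ω ∈ SS j)
      fun g => (Box (2 * (j + 1)) DD).filter fun ω => ym (j + 1) g ω ω ∈ SS (j + 1))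
    (by
      rintro (g | g) -
      · simp only [Sum.elim_inl]
        rw [inter_eq_left.2 (filter_subset _ _), ck]
        have h1 := sum_ym (Nat.le_succ j) g (z0 _) fun y => if y ∈ SS j then (1 : ℝ) else 0
        rw [T2TypAb_ind, sum_boole] at h1
        have h2 := mul_le_mul_of_nonneg_left (dens_down hk) dk.le
        refine le_of_mul_le_mul_right ?_ dj
        rw [mul_assoc, h1]
        linarith
      · simp only [Sum.elim_inr]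
        rw [inter_eq_left.2 (filter_subset _ _), ck]
        refine le_trans (mul_le_mul_of_nonneg_left ?_ (by positivity)) (dens_diag hk)
        exact_mod_cast card_diag (j + 1) g (SS (j + 1)))
    (Box (2 * (j + 1)) DD ×ˢ (univ : Finset (Fin 3)))
    (fun b ω ω' => T2TypAb_F (j + 1) b.2 (ym (j + 1) b.1 ω ω'))
    (fun b => (∑ y ∈ Box (2 * (j + 1)) DD, T2TypAb_F (j + 1) b.2 y) / (Del (j + 1) : ℝ) ^ 2)
    (fun b _ _ _ => (T2TypAb_F_ok _ _ _).1) (fun b _ _ _ => (T2TypAb_F_ok _ _ _).2.1)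
    (by
      intro b _ ω hω
      refine ⟨Sum.inl (tr (2 * j) (ym (j + 1) b.1 ω fun _ => 0)),
        inl_mem_disjSum.2 (tr_mem_Box (hlt _ (ym_mem _ _ _ _))), fun ω' hω' h => ?_⟩
      have h1 := tr_mem_SS (Nat.le_succ j) ((T2TypAb_F_ok _ _ _).2.2 (ym_mem _ _ _ _) h)
      rw [ym_comm, ym_shift _ (mem_Box.1 hω).1 (mem_Box.1 hω').1, tr_ym (Nat.le_succ j)] at h1
      exact mem_filter.2 ⟨hω', h1⟩)
    (by
      intro b _ ω hω
      have h1 := sum_ym (le_refl (j + 1)) b.1 (mem_Box.1 hω).1 (T2TypAb_F (j + 1) b.2)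
      rw [ck, div_mul_cancel₀ _ dk.ne']
      rw [mul_comm] at h1
      exact mul_left_cancel₀ dk.ne' h1)
    (Box (2 * j) DD ×ˢ (univ : Finset (Fin 2)))
    (fun b ω => ∑ i ∈ range m, T2TypAb_E j b.2 (ym j b.1 (ξ i) ω))
    (fun b => m * (∑ y ∈ Box (2 * j) DD, T2TypAb_E j b.2 y) / (Del j : ℝ) ^ 2)
    (fun b _ _ _ => sum_nonneg fun _ _ => (T2TypAb_E_ok _ _ _).1)
    (by
      intro b hb' ω hω
      refine (T2TypAb_le (range m) (fun i => ym j b.1 ω (ξ i) ∈ SS j) _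
        (fun _ _ => (T2TypAb_E_ok _ _ _).2.1) fun i _ h => ?_).trans ?_
      · rw [ym_comm]
        exact (T2TypAb_E_ok _ _ _).2.2 (ym_mem _ _ _ _) h
      · exact_mod_cast hd b.1 (mem_product.1 hb').1 ω (hlt ω hω))
    (by
      intro b _
      rw [sum_comm, ck]
      refine le_of_eq ?_
      rw [sum_congr rfl fun i hi => eq_div_of_mul_eq dj.ne'
        (sum_ym (Nat.le_succ j) b.1 (hb i (mem_range.1 hi)) (T2TypAb_E j b.2)), sum_const,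
        card_range, nsmul_eq_mul]
      ring)
    (by
      rw [Real.exp_log (by positivity)]
      simp only [card_disjSum, card_product, card_univ, Fintype.card_fin]
      push_cast
      rw [cj, ck]
      have h1 : (16 : ℝ) ≤ DD j := by
        have := Ru_pos j
        have h2 : 16 ≤ DD j := by unfold DD; omega
        exact_mod_cast h2
      have h2 : (Del (j + 1) : ℝ) ^ 2 = (Del j : ℝ) ^ 2 * (DD j : ℝ) ^ 2 := by
        rw [Del_succ]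
        push_cast
        ring
      have h3 : (Del j : ℝ) ^ 2 * 4 ≤ (Del j : ℝ) ^ 2 * (DD j : ℝ) ^ 2 :=
        mul_le_mul_of_nonneg_left (by nlinarith) dj.le
      linarith)
  refine ⟨ξ', g1, fun g hg => ?_, fun g hg => ?_, fun g hg t => ?_, fun g hg t => ?_⟩
  · refine le_trans (card_le_card fun i hi => ?_) (g2 (Sum.inl g) (inl_mem_disjSum.2 hg))
    obtain ⟨h1, h2⟩ := mem_filter.1 hi
    exact mem_filter.2 ⟨h1, mem_filter.2 ⟨g1 i (mem_range.1 h1), h2⟩⟩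
  · refine le_trans (card_le_card fun i hi => ?_) (g2 (Sum.inr g) (inr_mem_disjSum.2 hg))
    obtain ⟨h1, h2⟩ := mem_filter.1 hi
    exact mem_filter.2 ⟨h1, mem_filter.2 ⟨g1 i (mem_range.1 h1), h2⟩⟩
  · obtain ⟨h1, h2⟩ := g3 (g, t) (mem_product.2 ⟨hg, mem_univ _⟩)
    exact ⟨le_trans (by linarith) h1, le_trans h2 (by linarith)⟩
  · exact le_trans (g4 (g, t) (mem_product.2 ⟨hg, mem_univ _⟩)) (by linarith)

theorem T2TypAb_up {D φ m l S : ℝ} (hD : 0 < D) (hφ : 0 < φ) (hm : 1 ≤ m)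
    (h : m * φ ≤ 2 * l * D) (hS : S ≤ 3 / 2 * φ * φ) : S / D ^ 2 * (m * (m - 1)) ≤ 6 * l ^ 2 := by
  rw [div_mul_eq_mul_div, div_le_iff₀ (by positivity)]
  have h1 : (m * φ) ^ 2 ≤ (2 * l * D) ^ 2 := pow_le_pow_left₀ (by positivity) h 2
  have h2 : S * (m * (m - 1)) ≤ 3 / 2 * φ * φ * (m * m) :=
    mul_le_mul hS (by nlinarith) (by nlinarith) (by positivity)
  nlinarith

theorem T2TypAb_low {D φ m l S : ℝ} (hD : 0 < D) (hl : 0 ≤ l) (hm : 2 ≤ m)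
    (h : l * D ≤ m * φ) (hS : 3 / 4 * φ ^ 2 ≤ S) :
    3 / 8 * l ^ 2 ≤ S / D ^ 2 * (m * (m - 1)) := by
  rw [div_mul_eq_mul_div S, le_div_iff₀ (by positivity)]
  have h1 : (l * D) ^ 2 ≤ (m * φ) ^ 2 := pow_le_pow_left₀ (by positivity) h 2
  have h2 : 3 / 4 * φ ^ 2 * (m * m / 2) ≤ S * (m * (m - 1)) :=
    mul_le_mul hS (by nlinarith) (by positivity) (le_trans (by positivity) hS)
  nlinarith

theorem T2TypAb_cross {D d φ φ' m m' l l' S : ℝ} (hD : 0 < D) (hd : 0 < d) (hφ : 0 < φ)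
    (hφ' : 0 < φ') (hm : 0 ≤ m) (hm' : 0 ≤ m') (hll : l ≤ l')
    (h : m * φ ≤ 2 * l * D) (h' : m' * φ' ≤ 2 * l' * (D * d)) (hS : S ≤ 3 / 2 * φ * φ') :
    2 * m' * (m * (S / d) / D ^ 2) ≤ 12 * l' ^ 2 := by
  have h1 : 2 * m' * (m * (S / d) / D ^ 2) = 2 * (m * m') * S / (d * D ^ 2) := by
    field_simp
  rw [h1, div_le_iff₀ (by positivity)]
  have h2 : m * φ ≤ 2 * l' * D := h.trans (by nlinarith)
  have h3 : m * φ * (m' * φ') ≤ 2 * l' * D * (2 * l' * (D * d)) :=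
    mul_le_mul h2 h' (by positivity) (le_trans (by positivity) h2)
  have h4 : 2 * (m * m') * S ≤ 2 * (m * m') * (3 / 2 * φ * φ') :=
    mul_le_mul_of_nonneg_left hS (by positivity)
  nlinarith

theorem types_step {j : ℕ} (hk : k0 ≤ j + 1) {m : ℕ} (hm : m ≤ mm j) (ξ : ℕ → ℕ → ℕ)
    (hb : ∀ i < m, ∀ s < 2 * j, ξ i s < DD (s / 2))
    (hd : ∀ g ∈ Box (2 * j) DD, ∀ ξ₀ : ℕ → ℕ, (∀ s < 2 * j, ξ₀ s < DD (s / 2)) →
      #{i ∈ range m | ym j g ξ₀ (ξ i) ∈ SS j} ≤ yy (j + 1)) :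
    ∃ ξ', Own (j + 1) ξ' ∧ Cross j m ξ ξ' := by
  obtain ⟨ξ', g1, g2, g3, g4, g5⟩ := T2TypAb_seq hk ξ hb hd
  have dj : (0 : ℝ) < Del j := by exact_mod_cast Del_pos j
  have dk : (0 : ℝ) < Del (j + 1) := by exact_mod_cast Del_pos _
  have dd : (0 : ℝ) < DD j := by exact_mod_cast DD_pos j
  have pj : 0 < ph j := one_pos.trans_le (one_le_ph j)
  have pk : 0 < ph (j + 1) := one_pos.trans_le (one_le_ph _)
  have m2 : (2 : ℝ) ≤ mm (j + 1) := by exact_mod_cast mm_two _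
  have hm' : (m : ℝ) ≤ mm j := by exact_mod_cast hm
  have deg : ∀ g ∈ Box (2 * j) DD, ∀ ξ₀ : ℕ → ℕ, (∀ s < 2 * j, ξ₀ s < DD (s / 2)) →
      #{i ∈ range (mm (j + 1)) | ym j g ξ₀ (ξ' i) ∈ SS j} ≤ yy (j + 1) := by
    intro g _ ξ₀ h0
    refine le_trans (card_le_card fun i hi => ?_) (g2 (ym j g ξ₀ fun _ => 0) (ym_mem _ _ _ _))
    obtain ⟨h1, h2⟩ := mem_filter.1 hi
    rw [ym_shift j h0 fun s hs => (mem_Box.1 (g1 i (mem_range.1 h1))).1 s (by omega)] at h2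
    exact mem_filter.2 ⟨h1, h2⟩
  have pr : ∀ g t, ∑ q ∈ range (mm (j + 1)) ×ˢ range (mm (j + 1)),
      T2TypAb_F (j + 1) t (ym (j + 1) g (ξ' q.1) (ξ' q.2)) =
      2 * ∑ i' ∈ range (mm (j + 1)), ∑ i ∈ range i',
        T2TypAb_F (j + 1) t (ym (j + 1) g (ξ' i) (ξ' i')) +
      ∑ i ∈ range (mm (j + 1)), T2TypAb_F (j + 1) t (ym (j + 1) g (ξ' i) (ξ' i)) := fun g t =>
    T2TypAb_pairs (fun a b => T2TypAb_F (j + 1) t (ym (j + 1) g (ξ' a) (ξ' b)))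
      (fun a b => by rw [ym_comm]) _
  have dg : ∀ g ∈ Box (2 * (j + 1)) DD, ∀ t, ∑ i ∈ range (mm (j + 1)),
      T2TypAb_F (j + 1) t (ym (j + 1) g (ξ' i) (ξ' i)) ≤ yy (j + 1) := by
    intro g hg t
    refine (T2TypAb_le _ (fun i => ym (j + 1) g (ξ' i) (ξ' i) ∈ SS (j + 1)) _
      (fun _ _ => (T2TypAb_F_ok _ _ _).2.1)
      fun i _ h => (T2TypAb_F_ok _ _ _).2.2 (ym_mem _ _ _ _) h).trans ?_
    exact_mod_cast g3 g hg
  have cr : ∀ g t, ∑ q ∈ range m ×ˢ range (mm (j + 1)),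
      T2TypAb_E j t (ym j g (ξ q.1) (ξ' q.2)) =
      ∑ i' ∈ range (mm (j + 1)), ∑ i ∈ range m, T2TypAb_E j t (ym j g (ξ i) (ξ' i')) :=
    fun g t => sum_product_right _ _ _
  refine ⟨ξ', ⟨g1, ?_, fun g hg => ?_, fun g hg => ?_, fun g hg => ?_⟩,
    fun g hg => ?_, fun g hg => ?_⟩
  · rintro j' (h | h) g hg ξ₀ h0
    · subst h
      refine le_trans (card_le_card fun i hi => ?_) (deg (tr (2 * j) g)
        (tr_mem_Box fun s hs => (mem_Box.1 hg).1 s (by omega)) ξ₀ fun s hs => h0 s (by omega))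
      obtain ⟨h1, h2⟩ := mem_filter.1 hi
      have h3 := tr_mem_SS (Nat.le_succ j) h2
      rw [tr_ym (Nat.le_succ j)] at h3
      exact mem_filter.2 ⟨h1, h3⟩
    · obtain rfl : j = j' := by omega
      exact deg g hg ξ₀ h0
  · have h1 : ∑ q ∈ range (mm (j + 1)) ×ˢ range (mm (j + 1)),
        T2TypAb_F (j + 1) 0 (ym (j + 1) g (ξ' q.1) (ξ' q.2)) =
        (#{q ∈ range (mm (j + 1)) ×ˢ range (mm (j + 1)) |
          ym (j + 1) g (ξ' q.1) (ξ' q.2) ∈ SS (j + 1)} : ℕ) := sum_boole _ _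
    have h2 : ∑ y ∈ Box (2 * (j + 1)) DD, T2TypAb_F (j + 1) 0 y = (SS (j + 1)).card :=
      T2TypAb_ind _
    have h3 := (g4 g hg 0).2
    have h4 := dg g hg 0
    have h5 := list_self hk
    rw [h2] at h3
    rw [pr] at h1
    have h6 : ((#{q ∈ range (mm (j + 1)) ×ˢ range (mm (j + 1)) |
          ym (j + 1) g (ξ' q.1) (ξ' q.2) ∈ SS (j + 1)} : ℕ) : ℝ) ≤ Lam (j + 1) := by linarith
    exact_mod_cast h6
  · have h3 := (g4 g hg 1).2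
    have h4 := dg g hg 1
    have h5 := T2TypAb_up (S := ∑ y ∈ Box (2 * (j + 1)) DD, T2TypAb_F (j + 1) 1 y) dk pk
      (by linarith) (mm_le (j + 1)) (Gp_sum le_rfl)
    have h6 : (yy (j + 1) : ℝ) ≤ (lam (j + 1) : ℝ) ^ 2 := by
      have h7 : yy (j + 1) ≤ lam (j + 1) ^ 2 :=
        (Nat.le_self_pow (by norm_num) _).trans (Nat.le_self_pow (by norm_num) _)
      exact_mod_cast h7
    have h7 := pr g 1
    have h8 := sq_nonneg (lam (j + 1) : ℝ)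
    refine le_trans (le_of_eq h7) ?_
    linarith
  · have h3 := (g4 g hg 2).1
    have h4 : 0 ≤ ∑ i ∈ range (mm (j + 1)),
        T2TypAb_F (j + 1) 2 (ym (j + 1) g (ξ' i) (ξ' i)) :=
      sum_nonneg fun _ _ => (T2TypAb_F_ok _ _ _).1
    have h5 := T2TypAb_low (S := ∑ y ∈ Box (2 * (j + 1)) DD, T2TypAb_F (j + 1) 2 y) dk
      (Nat.cast_nonneg _) m2 (mm_ge (j + 1)) (Gm_sum _)
    have h7 := pr g 2
    have h8 := sq_nonneg (lam (j + 1) : ℝ)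
    refine le_trans ?_ (le_of_eq h7.symm)
    linarith
  · have h1 : ∑ q ∈ range m ×ˢ range (mm (j + 1)), T2TypAb_E j 0 (ym j g (ξ q.1) (ξ' q.2)) =
        (#{q ∈ range m ×ˢ range (mm (j + 1)) | ym j g (ξ q.1) (ξ' q.2) ∈ SS j} : ℕ) :=
      sum_boole _ _
    have h2 : ∑ y ∈ Box (2 * j) DD, T2TypAb_E j 0 y = (SS j).card := T2TypAb_ind _
    have h3 := g5 g hg 0
    have h5 := list_cross hk
    rw [h2, ← cr, h1] at h3
    have h4 : 2 * (mm (j + 1) : ℝ) * (m * ((SS j).card : ℝ) / (Del j : ℝ) ^ 2) ≤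
        2 * mm (j + 1) * (mm j * ((SS j).card : ℝ) / (Del j : ℝ) ^ 2) := by gcongr
    have h6 : ((#{q ∈ range m ×ˢ range (mm (j + 1)) | ym j g (ξ q.1) (ξ' q.2) ∈ SS j} : ℕ) : ℝ) ≤
        Lam (j + 1) := by linarith
    exact_mod_cast h6
  · have h1 : ∑ q ∈ range m ×ˢ range (mm (j + 1)), T2TypAb_E j 1 (ym j g (ξ q.1) (ξ' q.2)) =
        (∑ q ∈ range m ×ˢ range (mm (j + 1)), Gp j (j + 1) (ym j g (ξ q.1) (ξ' q.2))) / DD j :=
      (sum_div _ _ _).symm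
    have h2 : ∑ y ∈ Box (2 * j) DD, T2TypAb_E j 1 y =
        (∑ y ∈ Box (2 * j) DD, Gp j (j + 1) y) / DD j := (sum_div _ _ _).symm
    have h3 := g5 g hg 1
    rw [h2, ← cr, h1] at h3
    have h4 : (lam j : ℝ) ≤ lam (j + 1) := by
      have h5 : lam j ≤ lam (j + 1) := Nat.pow_le_pow_left (yy_mono (Nat.le_succ j)) _
      exact_mod_cast h5
    have h5 := mm_le (j + 1)
    rw [Del_succ, Nat.cast_mul] at h5
    have h6 := T2TypAb_cross dj dd pj pk (Nat.cast_nonneg m) (Nat.cast_nonneg _)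
      h4 ((mul_le_mul_of_nonneg_right hm' pj.le).trans (mm_le j)) h5
      (Gp_sum (Nat.le_succ j))
    have h8 := sq_nonneg (lam (j + 1) : ℝ)
    have h9 : (∑ q ∈ range m ×ˢ range (mm (j + 1)),
        Gp j (j + 1) (ym j g (ξ q.1) (ξ' q.2))) / DD j ≤ 13 * (lam (j + 1) : ℝ) ^ 2 := by linarith
    rw [div_le_iff₀ dd] at h9
    linarith

end Pool.Agent.P.MP_d5a1e1_nt.T2
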