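import Pool.Agent.P.MP_d5a1e1_nt.T3Box
import Pool.Agent.P.MP_d5a1e1_nt.TBDec

/-! Digits and carries. -/

namespace Pool.Agent.P.MP_d5a1e1_nt.T3

open Finset TB

variable [Kap]

theorem T3Dec_radix : Radix (fun u => DD u * pp u) WW := ⟨BB_pos, WW_zero, WW_succ⟩

theorem T3Dec_gd_lt (j n i : ℕ) : gd j n i < DD (i / 2) := by
  unfold gd tr
  split_ifs
  · exact Nat.div_lt_of_lt_mul (by rw [mul_comm]; exact Nat.mod_lt _ (BB_pos _))
  · exact DD_pos _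

theorem T3Dec_ym {j : ℕ} {g ξ ξ' : ℕ → ℕ} {i : ℕ} (hi : i < 2 * j) (h : ξ i < DD (i / 2))
    (h' : ξ' i < DD (i / 2)) : ym j g ξ ξ' i < DD (i / 2) ∧
      ym j g ξ ξ' i + ξ i + ξ' i ≡ g i [MOD DD (i / 2)] := by
  rw [ym, tr_lt hi]
  exact sub_mod_spec h h'

theorem T3Dec_gam {j : ℕ} {g ξ ξ' : ℕ → ℕ} {i : ℕ} (hi : i < 2 * j) (hg : g i < DD (i / 2))
    (h : ξ i < DD (i / 2)) (h' : ξ' i < DD (i / 2)) :
    gam j g ξ ξ' (i + 1) = (ym j g ξ ξ' i + ξ i + ξ' i) / DD (i / 2) := by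
  have h1 := (T3Dec_ym (g := g) hi h h').2
  rw [Nat.ModEq, Nat.mod_eq_of_lt hg] at h1
  have h2 := Nat.mod_add_div (ym j g ξ ξ' i + ξ i + ξ' i) (DD (i / 2))
  rw [gam, show ym j g ξ ξ' i + ξ i + ξ' i - g i =
    DD (i / 2) * ((ym j g ξ ξ' i + ξ i + ξ' i) / DD (i / 2)) by omega,
    Nat.mul_div_cancel_left _ (DD_pos _)]

theorem vl_succ (n : ℕ) (f : ℕ → ℕ) : vl (n + 1) f = vl n f + WW n * f n :=
  sum_range_succ _ _

theorem vl_congr {n : ℕ} {f g : ℕ → ℕ} (h : ∀ i < n, f i = g i) : vl n f = vl n g :=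
  sum_congr rfl fun i hi => by rw [h i (mem_range.1 hi)]

theorem vl_add (n : ℕ) (f g : ℕ → ℕ) : vl n (fun i => f i + g i) = vl n f + vl n g := by
  simp only [vl, mul_add, sum_add_distrib]

theorem vl_lt {n : ℕ} {f : ℕ → ℕ} (h : ∀ i < n, f i < BB (i / 2)) : vl n f < WW n :=
  T3Dec_radix.val_lt h

theorem dig_vl {n : ℕ} {f : ℕ → ℕ} (h : ∀ i < n, f i < BB (i / 2)) (t : ℕ) {i : ℕ} (hi : i < n) :
    dig (vl n f + WW n * t) i = f i :=
  (((T3Dec_radix.eq_iff h).1 rfl).1 i hi).symm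

theorem div_vl {n : ℕ} {f : ℕ → ℕ} (h : ∀ i < n, f i < BB (i / 2)) (t : ℕ) :
    (vl n f + WW n * t) / WW n = t :=
  ((T3Dec_radix.eq_iff h).1 rfl).2.symm

theorem vl_dig (n m : ℕ) : vl n (dig m) + WW n * (m / WW n) = m := T3Dec_radix.expand m n

theorem lo_eq (n : ℕ) (d ξ x : ℕ → ℕ) :
    lo n d ξ x = vl n d + vl n fun s => pp (s / 2) * (ξ s + x s) := vl_add _ _ _

theorem lo_lt {n : ℕ} {d ξ x : ℕ → ℕ} (hd : ∀ i < n, d i < pp (i / 2))
    (hξ : ∀ i < n, ξ i < DD (i / 2)) (hx : ∀ i < n, x i ≤ Ru (i / 2)) : lo n d ξ x < 2 * WW n :=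
  T3Dec_radix.val_lt_two fun i hi => by
    have h1 := hd i hi
    have h2 := hξ i hi
    have h3 := hx i hi
    have h4 := Ru_pos (i / 2)
    have h5 : ξ i + x i + 2 ≤ 2 * DD (i / 2) := by
      unfold DD at h2 ⊢
      omega
    have h6 := Nat.mul_le_mul_left (pp (i / 2)) h5
    nlinarith

theorem lo_unit (j : ℕ) (d ξ x : ℕ → ℕ) : lo (2 * (j + 1)) d ξ x = lo (2 * j) d ξ x +
    WW (2 * j) * ((d (2 * j) + pp j * (ξ (2 * j) + x (2 * j))) +
      BB j * (d (2 * j + 1) + pp j * (ξ (2 * j + 1) + x (2 * j + 1)))) := by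
  rw [lo, lo, mul_add 2 j, mul_one, vl_succ, vl_succ, WW_odd, show 2 * j / 2 = j by omega,
    show (2 * j + 1) / 2 = j by omega]
  ring

theorem gam_le (j : ℕ) (g : ℕ → ℕ) {ξ ξ' : ℕ → ℕ} (hξ : ∀ i < 2 * j, ξ i < DD (i / 2))
    (hξ' : ∀ i < 2 * j, ξ' i < DD (i / 2)) {i : ℕ} (hi : i ≤ 2 * j) : gam j g ξ ξ' i ≤ 2 := by
  rcases i with _ | i
  · exact Nat.zero_le _
  · have h1 := hξ i (by omega)
    have h2 := hξ' i (by omega)
    have h3 := (T3Dec_ym (j := j) (g := g) (by omega) h1 h2).1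
    rw [gam]
    exact Nat.lt_succ_iff.1 ((Nat.div_lt_iff_lt_mul (by omega)).2 (by omega))

theorem dec_fwd {j n top : ℕ} {d d' ξ ξ' x x' : ℕ → ℕ}
    (hd : ∀ i < 2 * j, d i < pp (i / 2) ∧ d' i < pp (i / 2))
    (hξ : ∀ i < 2 * j, ξ i < DD (i / 2) ∧ ξ' i < DD (i / 2))
    (hx : ∀ i < 2 * j, x i ≤ Ru (i / 2) ∧ x' i ≤ Ru (i / 2))
    (h : lo (2 * j) d ξ x + lo (2 * j) d' ξ' x' + WW (2 * j) * top = n) :
    (∀ i < 2 * j, d i + d' i + gam j (gd j n) ξ ξ' i ≡ dig n i [MOD pp (i / 2)] ∧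
      x i + x' i + (d i + d' i + gam j (gd j n) ξ ξ' i) / pp (i / 2) = ym j (gd j n) ξ ξ' i) ∧
    top + gam j (gd j n) ξ ξ' (2 * j) = n / WW (2 * j) :=
  (dec (D := DD) (p := pp) T3Dec_radix rfl
    (fun i hi => T3Dec_gam hi (T3Dec_gd_lt j n i) (hξ i hi).1 (hξ i hi).2)
    (fun i hi => ⟨(T3Dec_ym hi (hξ i hi).1 (hξ i hi).2).1, hξ i hi⟩)
    (fun i hi => by
      have := (T3Dec_ym (g := gd j n) hi (hξ i hi).1 (hξ i hi).2).2
      rwa [show gd j n i = dig n i / pp (i / 2) from tr_lt hi _] at this)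
    hd fun i hi => by
      have := hx i hi
      have := Ru_pos (i / 2)
      unfold DD
      omega).1 h

theorem dec_bwd {j n top : ℕ} {d d' ξ ξ' x x' : ℕ → ℕ}
    (hξ : ∀ i < 2 * j, ξ i < DD (i / 2) ∧ ξ' i < DD (i / 2))
    (h1 : ∀ i < 2 * j, d i + d' i + gam j (gd j n) ξ ξ' i ≡ dig n i [MOD pp (i / 2)] ∧
      x i + x' i + (d i + d' i + gam j (gd j n) ξ ξ' i) / pp (i / 2) = ym j (gd j n) ξ ξ' i)
    (h2 : top + gam j (gd j n) ξ ξ' (2 * j) = n / WW (2 * j)) :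
    lo (2 * j) d ξ x + lo (2 * j) d' ξ' x' + WW (2 * j) * top = n := by
  have key : ∀ m ≤ 2 * j, ∀ t, t + gam j (gd j n) ξ ξ' m = n / WW m →
      lo m d ξ x + lo m d' ξ' x' + WW m * t = n := by
    intro m
    induction m with
    | zero =>
      intro _ t ht
      simpa [lo, vl, WW_zero, gam] using ht
    | succ m ih =>
      intro hm t ht
      obtain ⟨a1, a2⟩ := hξ m (by omega)
      obtain ⟨b1, b2⟩ := T3Dec_ym (g := gd j n) (by omega : m < 2 * j) a1 a2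
      obtain ⟨c1, c2⟩ := h1 m (by omega)
      rw [show gd j n m = dig n m / pp (m / 2) from tr_lt (by omega) _, add_assoc] at b2
      rw [T3Dec_gam (by omega) (T3Dec_gd_lt j n m) a1 a2, T3Dec_radix.div_succ,
        add_assoc (ym j (gd j n) ξ ξ' m)] at ht
      have h3 := (dec_digit (t := t) (N := n / WW m) (pp_pos (m / 2)) (c2 ▸ b1) b1 b2).2
        ⟨⟨c1, c2⟩, ht⟩
      have h4 := ih (by omega) (d m + d' m + pp (m / 2) * (ξ m + ξ' m + (x m + x' m)) +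
        DD (m / 2) * pp (m / 2) * t) (by rw [← h3]; ring)
      rw [← h4, lo, lo, vl_succ, vl_succ, WW_succ, BB, lo, lo]
      ring
  exact key _ le_rfl top h2

theorem carry_le {p a b c : ℕ} (ha : a < p) (hb : b < p) (hc : c ≤ 2) : (a + b + c) / p ≤ 2 :=
  fine_carry_le ha hb hc

/-- The new unit is read off the sum. -/
theorem top_unique {j o₀ o₁ u v x y z u' v' x' y' z' : ℕ} (hu : u < pp j) (hv : v < pp j)
    (hu' : u' < pp j) (hv' : v' < pp j) (hx : x ≤ Ru j) (hy : y ≤ Ru j) (hx' : x' ≤ Ru j)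
    (hy' : y' ≤ Ru j)
    (h : (u + pp j * (o₀ + x)) + BB j * (v + pp j * (o₁ + y)) + BB j ^ 2 * z =
      (u' + pp j * (o₀ + x')) + BB j * (v' + pp j * (o₁ + y')) + BB j ^ 2 * z') :
    u = u' ∧ v = v' ∧ x = x' ∧ y = y' ∧ z = z' := by
  have hp := pp_pos j
  have hD := DD_pos j
  have hR : Ru j < DD j := by
    have := Ru_pos j
    unfold DD
    omega
  have step : ∀ {o u x t u' x' t' : ℕ}, u < pp j → u' < pp j → x ≤ Ru j → x' ≤ Ru j →
      u + pp j * (o + x) + BB j * t = u' + pp j * (o + x') + BB j * t' →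
      u = u' ∧ x = x' ∧ t = t' := by
    intro o u x t u' x' t' a1 a2 a3 a4 e
    have e1 : u + pp j * (o + x + DD j * t) = u' + pp j * (o + x' + DD j * t') := by
      unfold BB at e
      linarith
    have e2 : u = u' := by
      have := congrArg (· % pp j) e1
      simpa [Nat.mod_eq_of_lt a1, Nat.mod_eq_of_lt a2] using this
    have e3 : x + DD j * t = x' + DD j * t' := by
      have := Nat.eq_of_mul_eq_mul_left hp (Nat.add_left_cancel (e2 ▸ e1))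
      omega
    have e4 : x = x' := by
      have := congrArg (· % DD j) e3
      simpa [Nat.mod_eq_of_lt (a3.trans_lt hR), Nat.mod_eq_of_lt (a4.trans_lt hR)] using this
    exact ⟨e2, e4, Nat.eq_of_mul_eq_mul_left hD (Nat.add_left_cancel (e4 ▸ e3))⟩
  obtain ⟨g1, g2, g3⟩ := step (o := o₀) (t := v + pp j * (o₁ + y) + BB j * z)
    (t' := v' + pp j * (o₁ + y') + BB j * z') hu hu' hx hx' (by linarith)
  obtain ⟨g4, g5, g6⟩ := step hv hv' hy hy' g3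
  exact ⟨g1, g4, g2, g5, g6⟩


end Pool.Agent.P.MP_d5a1e1_nt.T3
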