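import Pool.Agent.P.MP_d5a1e1_nt.T3G
import Pool.Agent.P.MP_d5a1e1_nt.T3Dec

/-! Cells, tuples, frames. -/

namespace Pool.Agent.P.MP_d5a1e1_nt.T3

open Finset TB

variable [Kap]

theorem mem_cells {k : ℕ} {c : Cell} : c ∈ cells k ↔
    c.k = k ∧ c.i < mm k ∧ c.η < HH k ∧ c.x ∈ XX k ∧ BB k ≤ c.z ∧ c.z < ZZ k := by
  simp only [cells, mem_image, mem_product, mem_range, mem_Ico]
  constructor
  · rintro ⟨q, ⟨h1, h2, h3, h4, h5⟩, rfl⟩
    exact ⟨rfl, h1, h2, h3, h4, h5⟩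
  · rintro ⟨h0, h1, h2, h3, h4, h5⟩
    exact ⟨(c.i, c.η, c.x, c.z), ⟨h1, h2, h3, h4, h5⟩, Cell.ext h0.symm rfl rfl rfl rfl⟩
theorem mem_tups {j k : ℕ} {t : Tup} : t ∈ tups j k ↔ t.i < mm j ∧ t.i' < mm k ∧
    t.yb ∈ Box (2 * j) DD ∧ t.η < HH j ∧ t.η' < HH k ∧ t.o₀ < DD j ∧ t.o₁ < DD j := by
  simp only [tups, mem_image, mem_product, mem_range]
  constructor
  · rintro ⟨q, h, rfl⟩
    exact h
  · intro h
    exact ⟨(t.i, t.i', t.yb, t.η, t.η', t.o₀, t.o₁), h, rfl⟩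
theorem qq_nonneg (c : Cell) : 0 ≤ qq c :=
  le_min zero_le_one
    (mul_nonneg (mul_nonneg (Nat.cast_nonneg _) (ff_pos _ _).le) (cw_pos _).le)
theorem qq_le_one (c : Cell) : qq c ≤ 1 := min_le_left _ _
theorem qq_le (c : Cell) : qq c ≤ rho c.k * ff c.k c.x * cw c.z := min_le_right _ _
theorem cw_cell {k : ℕ} {c : Cell} (h : c ∈ cells k) : cw c.z ≤ 1 / 2 ^ (sg k / 2) := by
  refine cw_le_two_pow ?_
  have h1 := (mem_cells.1 h).2.2.2.2.1
  have h2 := BB_gt k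
  have h3 : 2 ^ (2 * (sg k / 2)) ≤ 2 ^ sg k := Nat.pow_le_pow_right (by omega) (by omega)
  omega
theorem T3Cellsa_pow (k : ℕ) : yy k * rho k ≤ 2 ^ (sg k / 2) := by
  have h1 := T3Par_sg k
  have h2 := ka_big
  have h3 : yy k * (3 * ka + 1) ≤ sg k / 2 := by
    rw [Nat.le_div_iff_mul_le (by norm_num)]
    nlinarith
  calc yy k * rho k ≤ yy k * yy k ^ (3 * ka) := Nat.mul_le_mul_left _ (rho_le k)
    _ = yy k ^ (3 * ka + 1) := (pow_succ' _ _).symm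
    _ ≤ (2 ^ yy k) ^ (3 * ka + 1) := Nat.pow_le_pow_left Nat.lt_two_pow_self.le _
    _ = 2 ^ (yy k * (3 * ka + 1)) := (pow_mul 2 _ _).symm
    _ ≤ _ := Nat.pow_le_pow_right (by omega) h3
theorem T3Cellsa_small {k : ℕ} {c : Cell} (h : c ∈ cells k) :
    yy k * (rho k * ff k c.x * cw c.z) ≤ 1 := by
  have h1 : ((yy k * rho k : ℕ) : ℝ) ≤ ((2 ^ (sg k / 2) : ℕ) : ℝ) := Nat.cast_le.2 (T3Cellsa_pow k)
  rw [Nat.cast_pow, Nat.cast_ofNat] at h1
  have h2 : ff k c.x * cw c.z ≤ 1 / 2 ^ (sg k / 2) :=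
    (mul_le_of_le_one_left (cw_pos _).le (ff_le_one _ _)).trans (cw_cell h)
  have h3 : (0 : ℝ) < 2 ^ (sg k / 2) := by positivity
  calc (yy k : ℝ) * (rho k * ff k c.x * cw c.z)
      = ((yy k * rho k : ℕ) : ℝ) * (ff k c.x * cw c.z) := by
        rw [Nat.cast_mul, mul_assoc, mul_assoc]
    _ ≤ 2 ^ (sg k / 2) * (1 / 2 ^ (sg k / 2)) :=
        mul_le_mul h1 h2 (mul_pos (ff_pos _ _) (cw_pos _)).le h3.le
    _ = 1 := mul_one_div_cancel h3.ne'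
theorem qq_eq {k : ℕ} {c : Cell} (h : c ∈ cells k) : qq c = rho k * ff k c.x * cw c.z := by
  have h1 := T3Cellsa_small h
  have h2 : (1 : ℝ) ≤ yy k := Nat.one_le_cast.2 (le_trans (by omega) (yy_ge k))
  have h3 : (0 : ℝ) ≤ rho k * ff k c.x * cw c.z :=
    mul_nonneg (mul_nonneg (Nat.cast_nonneg _) (ff_pos _ _).le) (cw_pos _).le
  rw [qq, (mem_cells.1 h).1]
  exact min_eq_right ((le_mul_of_one_le_left h3 h2).trans h1)
theorem qq_small {k : ℕ} {c : Cell} (h : c ∈ cells k) : yy k * qq c ≤ 1 := by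
  rw [qq_eq h]
  exact T3Cellsa_small h
theorem el_ge {ξ : ℕ → ℕ → ℕ → ℕ} {k : ℕ} {d : ℕ → ℕ} {c : Cell} (hc : c ∈ cells k) :
    WW (2 * k + 1) ≤ el ξ d c := by
  obtain ⟨h0, -, -, -, h1, -⟩ := mem_cells.1 hc
  rw [el, h0, WW_odd]
  exact (Nat.mul_le_mul_left _ h1).trans (Nat.le_add_left _ _)
theorem T3Cellsa_lo {ξ : ℕ → ℕ → ℕ → ℕ} (hξ : Types ξ) {k : ℕ} (hk : k0 ≤ k) {d : ℕ → ℕ}
    (hd : d ∈ Box (2 * k) pp) {c : Cell} (hc : c ∈ cells k) :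
    lo (2 * k) d (ξ k c.i) c.x < 2 * WW (2 * k) := by
  obtain ⟨-, h1, -, h2, -, -⟩ := mem_cells.1 hc
  exact lo_lt (mem_Box.1 hd).1 (mem_Box.1 (hξ.box k hk _ h1)).1 (mem_XX.1 h2).1
theorem el_lt {ξ : ℕ → ℕ → ℕ → ℕ} (hξ : Types ξ) {k : ℕ} (hk : k0 ≤ k) {d : ℕ → ℕ}
    (hd : d ∈ Box (2 * k) pp) {c : Cell} (hc : c ∈ cells k) : el ξ d c < 6 * WW (2 * k + 3) := by
  have h1 := T3Cellsa_lo hξ hk hd hc
  obtain ⟨h0, -, -, -, -, h2⟩ := mem_cells.1 hc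
  rw [ZZ, mul_assoc] at h2
  have h3 : 0 < BB k ^ 2 * BB (k + 1) := Nat.mul_pos (Nat.pow_pos (BB_pos k)) (BB_pos _)
  rw [el, h0, WW_three]
  generalize BB k ^ 2 * BB (k + 1) = X at h2 h3
  have h4 : WW (2 * k) * (c.z + 2) ≤ WW (2 * k) * (6 * X) := Nat.mul_le_mul_left _ (by omega)
  rw [mul_add, mul_left_comm] at h4
  omega
theorem lo_cell {ξ : ℕ → ℕ → ℕ → ℕ} (hξ : Types ξ) {k : ℕ} (hk : k0 ≤ k) {d : ℕ → ℕ}
    (hd : d ∈ Box (2 * k) pp) {c : Cell} (hc : c ∈ cells k) :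
    lo (2 * k) d (ξ k c.i) c.x < 2 * WW (2 * k) := T3Cellsa_lo hξ hk hd hc
/-- A large subfamily on which the value is a function of the key. -/
theorem exists_class {τ κ β : Type*} (T : Finset τ) (key : τ → κ) (v : τ → β) (M : ℕ)
    (h : ∀ a (Z : Finset β), (∀ b ∈ Z, ∃ t ∈ T, key t = a ∧ v t = b) → Z.card ≤ M) :
    ∃ T' ⊆ T, T.card ≤ M * T'.card ∧ ∀ t ∈ T', ∀ t' ∈ T', key t = key t' → v t = v t' := by
  classical
  have h1 : ∀ a, ∃ f : β → ℕ, (∀ t ∈ T, key t = a → f (v t) < M) ∧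
      ∀ t ∈ T, ∀ t' ∈ T, key t = a → key t' = a → f (v t) = f (v t') → v t = v t' := fun a => by
    obtain ⟨Z, hZ⟩ : ∃ Z : Finset β, Z = (T.filter fun t => key t = a).image v := ⟨_, rfl⟩
    have hm : ∀ t ∈ T, key t = a → v t ∈ Z := fun t ht e =>
      hZ ▸ mem_image_of_mem v (mem_filter.2 ⟨ht, e⟩)
    have hc : Z.card ≤ M := h a Z fun b hb => by
      rw [hZ] at hb
      obtain ⟨t, ht, e⟩ := mem_image.1 hb
      exact ⟨t, (mem_filter.1 ht).1, (mem_filter.1 ht).2, e⟩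
    refine ⟨fun b => if hb : b ∈ Z then (Z.equivFin ⟨b, hb⟩ : ℕ) else 0, fun t ht e => ?_,
      fun t ht t' ht' e e' hf => ?_⟩
    · simp only [dif_pos (hm t ht e)]
      exact (Fin.is_lt _).trans_le hc
    · simp only [dif_pos (hm t ht e), dif_pos (hm t' ht' e')] at hf
      exact congrArg Subtype.val (Z.equivFin.injective (Fin.ext hf))
  choose f hf hf' using h1
  rcases Nat.eq_zero_or_pos M with rfl | hM
  · refine ⟨∅, empty_subset _, ?_, by simp⟩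
    rw [eq_empty_of_forall_notMem fun t ht => Nat.not_lt_zero _ (hf _ t ht rfl)]
    simp
  obtain ⟨c, -, hc⟩ := exists_max_image (range M)
    (fun c => (T.filter fun t => f (key t) (v t) = c).card) ⟨0, mem_range.2 hM⟩
  refine ⟨T.filter fun t => f (key t) (v t) = c, filter_subset _ _, ?_, fun t ht t' ht' e => ?_⟩
  · rw [card_eq_sum_card_fiberwise (f := fun t => f (key t) (v t)) (t := range M)
      fun t ht => mem_coe.2 (mem_range.2 (hf _ t ht rfl))]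
    simpa using sum_le_card_nsmul _ _ _ hc
  · obtain ⟨h2, h3⟩ := mem_filter.1 ht
    obtain ⟨h4, h5⟩ := mem_filter.1 ht'
    exact hf' (key t) t h2 t' h4 rfl e.symm (by rw [h3, e, h5])

theorem T3Cellsb_subsets {α : Type*} [DecidableEq α] (s : Finset α) (L : ℕ) :
    ((range (L + 1)).biUnion fun i => powersetCard i s).card ≤ (s.card + 1) ^ L := by
  refine card_biUnion_le.trans ?_
  rw [add_pow]
  refine sum_le_sum fun i hi => ?_
  rw [card_powersetCard, one_pow, mul_one]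
  refine (Nat.choose_le_pow _ _).trans (Nat.le_mul_of_pos_right _ ?_)
  exact Nat.choose_pos (Nat.lt_succ_iff.1 (mem_range.1 hi))

theorem T3Cellsb_big {k : ℕ} (hk : k0 ≤ k) : 16 * 2 ^ (4 * ka + 12) ≤ yy k := by
  rw [show 16 = 2 ^ 4 by norm_num, ← pow_add]
  exact (Nat.pow_le_pow_right (by norm_num) (by have := ka_big; omega)).trans
    ((Nat.le_mul_of_pos_right _ (LL_pos k)).trans (yy_big hk))

theorem T3Cellsb_LL {k : ℕ} (hk : k0 ≤ k) : 32768 * LL k ≤ yy k := T3Par_big hk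

theorem T3Cellsb_tups {j k : ℕ} (hj : k0 ≤ j) (hjk : j ≤ k) :
    (tups j k).card ≤ 2 ^ (13 * yy k ^ (2 * ka + 1)) := by
  have hk : k0 ≤ k := hj.trans hjk
  have hy : yy j ≤ yy k := yy_mono hjk
  have e2 : yy j ^ (2 * ka + 1) ≤ yy k ^ (2 * ka + 1) := Nat.pow_le_pow_left hy _
  have two : ∀ {a b : ℕ}, a ≤ b → 2 ^ a ≤ 2 ^ b := fun h => Nat.pow_le_pow_right (by norm_num) h
  have h1 : mm j ≤ 2 ^ yy k ^ (2 * ka + 1) := (mm_le_pow hj).trans (two e2)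
  have h2 : mm k ≤ 2 ^ yy k ^ (2 * ka + 1) := mm_le_pow hk
  have h3 : Del j ^ 2 ≤ 2 ^ yy k ^ (2 * ka + 1) :=
    (Nat.pow_le_pow_right (Del_pos j) (by norm_num : 2 ≤ 4)).trans ((Del_le hj).trans (two e2))
  have h5 : HH k ≤ 2 ^ (4 * yy k ^ (2 * ka + 1)) := le_rfl
  have h4 : HH j ≤ 2 ^ (4 * yy k ^ (2 * ka + 1)) := (HH_mono hjk).trans h5
  have h6 : DD j ≤ 2 ^ yy k ^ (2 * ka + 1) := by
    refine (DD_le j).trans (two ?_)
    have h := yy_big' hj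
    have h' : yy k ≤ yy k ^ (2 * ka + 1) := Nat.le_self_pow (by omega) _
    rw [mul_assoc] at h ⊢
    omega
  refine card_image_le.trans ?_
  simp only [card_product, card_range, card_Gam]
  refine (Nat.mul_le_mul h1 (Nat.mul_le_mul h2 (Nat.mul_le_mul h3 (Nat.mul_le_mul h4
    (Nat.mul_le_mul h5 (Nat.mul_le_mul h6 h6)))))).trans (le_of_eq ?_)
  simp only [← pow_add]
  congr 1
  omega

/-- There are few frames. -/
theorem exists_frames {j k : ℕ} (hj : k0 ≤ j) (hk : k = j ∨ k = j + 1) :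
    ∃ F : Finset (ℕ × Finset Tup), F.card ≤ 2 ^ (12 * sg (j + 2)) ∧
      ∀ N P, Fr j k N P → (N, P) ∈ F := by
  classical
  have hjk : j ≤ k := by omega
  refine ⟨range (2 ^ (11 * sg (j + 2))) ×ˢ
    (range (Lam k + 1)).biUnion fun i => powersetCard i (tups j k), ?_, fun N P h => ?_⟩
  · rw [card_product, card_range, show 12 * sg (j + 2) = 11 * sg (j + 2) + sg (j + 2) by omega,
      pow_add]
    refine Nat.mul_le_mul_left _ ((T3Cellsb_subsets _ _).trans ?_)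
    have hy := T3Cellsb_LL (hj.trans hjk)
    have hL := LL_pos k
    have hp : 1 ≤ yy k ^ (2 * ka + 1) := Nat.one_le_pow _ _ (by omega)
    have h1 : (tups j k).card + 1 ≤ 2 ^ (14 * yy k ^ (2 * ka + 1)) := by
      have h2 := T3Cellsb_tups hj hjk
      have h3 : 2 ^ (13 * yy k ^ (2 * ka + 1)) < 2 ^ (14 * yy k ^ (2 * ka + 1)) :=
        Nat.pow_lt_pow_right (by norm_num) (by omega)
      omega
    refine (Nat.pow_le_pow_left h1 _).trans ?_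
    rw [← pow_mul]
    refine Nat.pow_le_pow_right (by norm_num) (le_trans ?_ (sg_mono (by omega : k ≤ j + 2)))
    rw [Lam, sg, mul_assoc, ← pow_add, show 4 * ka + 12 = 3 + (2 * ka + 1 + (2 * ka + 8)) by ring, pow_add _ 3]
    exact Nat.mul_le_mul_right _ (le_trans (by omega) (Nat.le_self_pow (by norm_num) (yy k)))
  · exact mem_product.2 ⟨mem_range.2 h.lt, mem_biUnion.2 ⟨P.card,
      mem_range.2 (Nat.lt_succ_of_le h.card), mem_powersetCard.2 ⟨h.sub, rfl⟩⟩⟩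

theorem T3Cellsb_exp {a b : ℕ} {c : ℝ} (h : ((a + b : ℕ) : ℝ) ≤ c) :
    (2 : ℝ) ^ a * Real.exp (-c) ≤ 1 / 2 ^ b := by
  have h2 : (2 : ℝ) ≤ Real.exp 1 := by
    have := Real.add_one_le_exp 1
    linarith
  have h1 : (2 : ℝ) ^ (a + b) ≤ Real.exp c := by
    refine (pow_le_pow_left₀ (by norm_num) h2 _).trans ?_
    rw [← Real.exp_nat_mul, mul_one]
    exact Real.exp_le_exp.2 h
  rw [le_div_iff₀ (by positivity), mul_right_comm, ← pow_add, Real.exp_neg,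
    mul_inv_le_iff₀ (Real.exp_pos c), one_mul]
  exact h1

theorem T3Cellsb_nat {j k : ℕ} (hj : k0 ≤ j) (hjk : j ≤ k) :
    12 * sg (j + 2) + (j + 4) ≤ yy k ^ (4 * ka + 13) := by
  have hy : yy j ≤ yy k := yy_mono hjk
  have hj1 : 1 ≤ j := k0_pos.trans hj
  have h0 : 1 ≤ 2 ^ (4 * ka + 12) := Nat.one_le_two_pow
  have h1 : sg (j + 2) ≤ 2 ^ (4 * ka + 12) * yy k ^ (4 * ka + 12) :=
    (sg_add_two hj1).trans (Nat.mul_le_mul_left _ (Nat.pow_le_pow_left hy _))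
  have h2 : j < yy k ^ (4 * ka + 12) := by
    refine (lt_tau j).trans_le ?_
    rw [tau_eq]
    exact (Nat.pow_le_pow_left hy _).trans
      (Nat.pow_le_pow_right (by have := yy_ge k; omega) (by omega))
  have h3 := Nat.mul_le_mul_right (yy k ^ (4 * ka + 12)) ((T3Cellsb_big hj).trans hy)
  have h4 := Nat.mul_le_mul_right (yy k ^ (4 * ka + 12)) h0
  have h5 := sg_big k
  have h6 := yy_ge k
  rw [sg] at h5
  rw [mul_assoc] at h3
  rw [pow_succ' _ (4 * ka + 12)]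
  omega

theorem num_star {j k : ℕ} (hj : k0 ≤ j) (hk : k = j ∨ k = j + 1) :
    (2 : ℝ) ^ (12 * sg (j + 2)) *
      Real.exp ((4 * (130 * (yy k : ℝ) ^ (4 * ka + 19)) - gg k) / yy k) ≤ 1 / 2 ^ (j + 4) := by
  have h1 : ((12 * sg (j + 2) + (j + 4) : ℕ) : ℝ) ≤ (yy k : ℝ) ^ (4 * ka + 18) := by
    refine le_trans ?_ (pow_le_pow_right₀ (yy_one k) (show 4 * ka + 13 ≤ _ by omega))
    exact_mod_cast T3Cellsb_nat hj (by omega : j ≤ k)
  have hy : (0 : ℝ) < yy k := one_pos.trans_le (yy_one k)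
  have h2 : (4 * (130 * (yy k : ℝ) ^ (4 * ka + 19)) - gg k) / yy k =
      -(80 * (yy k : ℝ) ^ (4 * ka + 18)) := by
    rw [gg, Nat.cast_mul, Nat.cast_pow, pow_succ (yy k : ℝ) (4 * ka + 18), div_eq_iff hy.ne']
    generalize (yy k : ℝ) ^ (4 * ka + 18) = z
    push_cast
    ring
  rw [h2]
  refine T3Cellsb_exp (h1.trans ?_)
  have : (0 : ℝ) ≤ (yy k : ℝ) ^ (4 * ka + 18) := by positivity
  linarith

theorem num_cover {k : ℕ} (hk : k0 ≤ k) :
    (2 : ℝ) ^ (12 * sg (k + 2)) * Real.exp (-((yy k : ℝ) ^ (4 * ka + 14) / 1920 / 3)) ≤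
      1 / 2 ^ (k + 4) := by
  have h1 : ((12 * sg (k + 2) + (k + 4) : ℕ) : ℝ) ≤ (yy k : ℝ) ^ (4 * ka + 13) := by
    exact_mod_cast T3Cellsb_nat hk le_rfl
  have hy : (5760 : ℝ) ≤ yy k := by
    have h2 := T3Cellsb_LL hk
    have h3 := LL_pos k
    exact_mod_cast (by omega : 5760 ≤ yy k)
  refine T3Cellsb_exp (h1.trans ?_)
  have h4 : (0 : ℝ) ≤ (yy k : ℝ) ^ (4 * ka + 13) := by positivity
  have h5 := mul_le_mul_of_nonneg_left hy h4
  rw [pow_succ (yy k : ℝ) (4 * ka + 13)]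
  linarith

theorem top_lt {j k n : ℕ} (hk : k = j ∨ k = j + 1) (hn : n < 12 * WW (2 * k + 3)) :
    n / WW (2 * j) < 2 ^ (11 * sg (j + 2)) := by
  refine Nat.div_lt_of_lt_mul (hn.trans_le ?_)
  have h1 : WW (2 * k + 3) ≤ WW (2 * (j + 1) + 3) := WW_mono (by omega)
  rw [WW_three (j + 1), show 2 * (j + 1) = 2 * j + 2 by omega, WW_even] at h1
  have hb : ∀ u, u ≤ j + 2 → BB u ≤ 2 ^ (2 * sg (j + 2)) := fun u hu =>
    (BB_mono hu).trans (BB_le _)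
  have h2 : 12 ≤ 2 ^ sg (j + 2) := by
    have h3 : 2 ^ 4 ≤ sg (j + 2) :=
      (Nat.pow_le_pow_left (yy_ge (j + 2)) 4).trans
        (Nat.pow_le_pow_right (by have := yy_ge (j + 2); omega) (by omega))
    have h4 : sg (j + 2) < 2 ^ sg (j + 2) := Nat.lt_two_pow_self
    omega
  have h5 : BB j ^ 2 * (BB (j + 1) ^ 2 * BB (j + 1 + 1)) ≤ 2 ^ (10 * sg (j + 2)) := by
    refine (Nat.mul_le_mul (Nat.pow_le_pow_left (hb j (by omega)) 2) (Nat.mul_le_mul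
      (Nat.pow_le_pow_left (hb (j + 1) (by omega)) 2) (hb (j + 1 + 1) le_rfl))).trans (le_of_eq ?_)
    simp only [← pow_mul, ← pow_add]
    congr 1
    omega
  rw [mul_assoc] at h1
  rw [show 11 * sg (j + 2) = sg (j + 2) + 10 * sg (j + 2) by omega, pow_add, mul_left_comm]
  exact Nat.mul_le_mul h2 (h1.trans (Nat.mul_le_mul_left _ h5))

/-- The weight of a frame. -/
theorem Fr.weight {j k N : ℕ} {P : Finset Tup} (h : Fr j k N P) {c : ℝ} (hc : 0 ≤ c)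
    (hG : ∀ y, GG j k y ≤ c * Gb k) :
    (rho k : ℝ) ^ 2 * ∑ t ∈ P, GG j k t.yb ≤ c * (4 * (yy k : ℝ) ^ (4 * ka + 19)) := by
  have h1 : ∑ t ∈ P, GG j k t.yb ≤ Lam k * (c * Gb k) := by
    refine (sum_le_card_nsmul _ _ _ fun t _ => hG t.yb).trans ?_
    rw [nsmul_eq_mul]
    exact mul_le_mul_of_nonneg_right (Nat.cast_le.2 h.card) (mul_nonneg hc (Gb_pos k).le)
  refine (mul_le_mul_of_nonneg_left h1 (sq_nonneg _)).trans ?_
  rw [mul_left_comm (Lam k : ℝ), mul_left_comm]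
  exact mul_le_mul_of_nonneg_left (rho_Lam k) hc

end Pool.Agent.P.MP_d5a1e1_nt.T3
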