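import Pool.Agent.P.MP_d5a1e1_nt.T3Cells

/-! Every large number is a sum of two elements. -/

namespace Pool.Agent.P.MP_d5a1e1_nt.T3

open Finset TB

/-- One of three classes carries a third of the weight. -/
theorem T3Cover_third {ι : Type*} (Q : Finset ι) (f : ι → ℕ) (w : ι → ℝ) (hf : ∀ q ∈ Q, f q ≤ 2)
    {a : ℝ} (ha : a / 64 ≤ ∑ q ∈ Q, w q) :
    ∃ γ ≤ 2, a / 192 ≤ ∑ q ∈ Q with f q = γ ∧ w q ≠ 0, w q := by
  by_contra hc
  push Not at hc
  have e : ∀ γ, ∑ q ∈ Q with f q = γ ∧ w q ≠ 0, w q = ∑ q ∈ Q with f q = γ, w q := fun γ => by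
    rw [← filter_filter, sum_filter_ne_zero]
  have h0 := hc 0 (by omega)
  have h1 := hc 1 (by omega)
  have h2 := hc 2 (by omega)
  rw [e] at h0 h1 h2
  have h := sum_fiberwise_of_maps_to (s := Q) (t := range 3) (g := f)
    (fun q hq => mem_range.2 (by have := hf q hq; omega)) w
  rw [sum_range_succ, sum_range_succ, sum_range_one] at h
  linarith

variable [Kap]

/-- A family of tuples indexed by pairs of types with labels in `SS` is a frame. -/
theorem T3Cover_frame {ξ : ℕ → ℕ → ℕ → ℕ} (hξ : Types ξ) {k N : ℕ} (hk : k0 ≤ k) {g : ℕ → ℕ}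
    (hg : g ∈ Box (2 * k) DD) (hN : N < 2 ^ (11 * sg (k + 2))) (Q : Finset (ℕ × ℕ))
    (hQ : ∀ q ∈ Q, q.1 < mm k ∧ q.2 < mm k ∧ ym k g (ξ k q.1) (ξ k q.2) ∈ SS k)
    (t : ℕ × ℕ → Tup) (hi : ∀ q, (t q).i = q.1) (hi' : ∀ q, (t q).i' = q.2)
    (ht : ∀ q ∈ Q, t q ∈ tups k k) : Fr k k N (Q.image t) := by
  have hb : ∀ i < mm k, ∀ s < 2 * k, ξ k i s < DD (s / 2) := fun i h =>
    (mem_Box.1 (hξ.box k hk i h)).1
  have one : ∀ u ∈ Q.image t, ∀ u' ∈ Q.image t, u.i = u'.i → u.i' = u'.i' → u = u' := by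
    intro u hu u' hu' e e'
    obtain ⟨q, -, rfl⟩ := mem_image.1 hu
    obtain ⟨q', -, rfl⟩ := mem_image.1 hu'
    rw [hi, hi] at e
    rw [hi', hi'] at e'
    rw [Prod.ext e e']
  refine ⟨hN, fun u hu => ?_, card_image_le.trans ((card_le_card fun q hq => ?_).trans
    (hξ.list k k hk (Or.inl rfl) g hg)), one, fun i => ?_, fun i => ?_⟩
  · obtain ⟨q, hq, rfl⟩ := mem_image.1 hu
    exact ht q hq
  · obtain ⟨a, b, c⟩ := hQ q hq
    exact mem_filter.2 ⟨mem_product.2 ⟨mem_range.2 a, mem_range.2 b⟩, c⟩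
  · by_cases h : i < mm k
    · refine (card_le_card_of_injOn Tup.i' (fun u hu => ?_) fun u hu u' hu' e => ?_).trans
        (hξ.deg k k hk (Or.inl rfl) g hg _ (hb i h))
      · obtain ⟨hu, e⟩ := mem_filter.1 (mem_coe.1 hu)
        obtain ⟨q, hq, rfl⟩ := mem_image.1 hu
        obtain ⟨-, b, c⟩ := hQ q hq
        rw [hi] at e
        subst e
        exact mem_coe.2 (mem_filter.2 ⟨mem_range.2 (by rw [hi']; exact b), by rw [hi']; exact c⟩)
      · obtain ⟨h1, e1⟩ := mem_filter.1 (mem_coe.1 hu)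
        obtain ⟨h2, e2⟩ := mem_filter.1 (mem_coe.1 hu')
        exact one u h1 u' h2 (e1.trans e2.symm) e
    · rw [filter_eq_empty_iff.2, card_empty]
      · exact Nat.zero_le _
      · intro u hu e
        obtain ⟨q, hq, rfl⟩ := mem_image.1 hu
        rw [hi] at e
        exact h (e ▸ (hQ q hq).1)
  · by_cases h : i < mm k
    · refine (card_le_card_of_injOn Tup.i (fun u hu => ?_) fun u hu u' hu' e => ?_).trans
        (hξ.deg k k hk (Or.inl rfl) g hg _ (hb i h))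
      · obtain ⟨hu, e⟩ := mem_filter.1 (mem_coe.1 hu)
        obtain ⟨q, hq, rfl⟩ := mem_image.1 hu
        obtain ⟨a, -, c⟩ := hQ q hq
        rw [hi'] at e
        subst e
        exact mem_coe.2 (mem_filter.2 ⟨mem_range.2 (by rw [hi]; exact a),
          by rw [hi, ym_comm]; exact c⟩)
      · obtain ⟨h1, e1⟩ := mem_filter.1 (mem_coe.1 hu)
        obtain ⟨h2, e2⟩ := mem_filter.1 (mem_coe.1 hu')
        exact one u h1 u' h2 e (e1.trans e2.symm)
    · rw [filter_eq_empty_iff.2, card_empty]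
      · exact Nat.zero_le _
      · intro u hu e
        obtain ⟨q, hq, rfl⟩ := mem_image.1 hu
        rw [hi'] at e
        exact h (e ▸ (hQ q hq).2.1)

theorem cover (D : Data) {k n : ℕ} (hk : k0 ≤ k) (h1 : 5 * WW (2 * k + 1) ≤ n)
    (h2 : n < 5 * WW (2 * k + 3)) : ∃ a ∈ D.A k, ∃ b ∈ D.A k, a + b = n := by
  have hg := gd_mem k n
  have hb : ∀ i < mm k, ∀ s < 2 * k, D.ξ k i s < DD (s / 2) := fun i h =>
    (mem_Box.1 (D.types.box k hk i h)).1
  have hΓ : ∀ q ∈ range (mm k) ×ˢ range (mm k), ∀ i ≤ 2 * k,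
      gam k (gd k n) (D.ξ k q.1) (D.ξ k q.2) i ≤ 2 := fun q hq i hi =>
    gam_le k _ (hb _ (mem_range.1 (mem_product.1 hq).1)) (hb _ (mem_range.1 (mem_product.1 hq).2)) hi
  obtain ⟨γ, hγ, hw⟩ := T3Cover_third _
    (fun q : ℕ × ℕ => gam k (gd k n) (D.ξ k q.1) (D.ξ k q.2) (2 * k)) _
    (fun q hq => hΓ q hq _ le_rfl) (D.types.low k hk _ hg)
  choose d hd d' hd' hc using fun q : ℕ × ℕ =>
    D.fine.cover k (gam k (gd k n) (D.ξ k q.1) (D.ξ k q.2)) (dig n)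
  obtain ⟨t, ht⟩ : ∃ t : ℕ × ℕ → Tup, ∀ q, t q = ⟨q.1, q.2,
      tr (2 * k) fun i => ym k (gd k n) (D.ξ k q.1) (D.ξ k q.2) i -
        (d q i + d' q i + gam k (gd k n) (D.ξ k q.1) (D.ξ k q.2) i) / pp (i / 2),
      D.h k (tr (2 * k - 2) (d q)), D.h k (tr (2 * k - 2) (d' q)), 0, 0⟩ := ⟨_, fun _ => rfl⟩
  have hi : ∀ q, (t q).i = q.1 := fun q => by rw [ht]
  have hi' : ∀ q, (t q).i' = q.2 := fun q => by rw [ht]
  have hy : ∀ q, ∀ s < 2 * k, (t q).yb s = ym k (gd k n) (D.ξ k q.1) (D.ξ k q.2) s -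
      (d q s + d' q s + gam k (gd k n) (D.ξ k q.1) (D.ξ k q.2) s) / pp (s / 2) := fun q s hs => by
    rw [ht]
    exact if_pos hs
  have hB := BB_gt k
  have hB2 : 0 < 2 ^ sg k := Nat.two_pow_pos _
  have hlo : 5 * BB k ≤ n / WW (2 * k) := (Nat.le_div_iff_mul_le (WW_pos _)).2 (by
    rw [WW_odd] at h1
    calc 5 * BB k * WW (2 * k) = 5 * (WW (2 * k) * BB k) := by ring
      _ ≤ n := h1)
  have hhi : n / WW (2 * k) < ZZ k := (Nat.div_lt_iff_lt_mul (WW_pos _)).2 (by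
    rw [WW_three] at h2
    calc n < 5 * (WW (2 * k) * (BB k ^ 2 * BB (k + 1))) := h2
      _ = ZZ k * WW (2 * k) := by rw [ZZ]; ring)
  have htop := top_lt (j := k) (Or.inl rfl) (n := n) (by omega)
  obtain ⟨c, hcK, c', hcK', u, hu, ⟨f1, f2, f3, f4, f5, f6, f7⟩, hz, -⟩ :=
    D.good.kc k hk (n / WW (2 * k) - γ) _
      (T3Cover_frame D.types hk hg (lt_of_le_of_lt (Nat.sub_le _ _) htop)
        {q ∈ range (mm k) ×ˢ range (mm k) | gam k (gd k n) (D.ξ k q.1) (D.ξ k q.2) (2 * k) = γ ∧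
          Gm k (ym k (gd k n) (D.ξ k q.1) (D.ξ k q.2)) ≠ 0}
        (fun q hq => ⟨mem_range.1 (mem_product.1 (mem_filter.1 hq).1).1,
          mem_range.1 (mem_product.1 (mem_filter.1 hq).1).2,
          Gm_supp (ym_mem _ _ _ _) (mem_filter.1 hq).2.2⟩) t hi hi' fun q hq => by
        rw [ht]
        exact mem_tups.2 ⟨mem_range.1 (mem_product.1 (mem_filter.1 hq).1).1,
          mem_range.1 (mem_product.1 (mem_filter.1 hq).1).2,
          tr_mem_Box fun i hi => lt_of_le_of_lt (Nat.sub_le _ _)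
            ((mem_Box.1 (ym_mem k _ _ _)).1 i hi),
          D.hash.lt _ _, D.hash.lt _ _, DD_pos _, DD_pos _⟩)
      (by
        rw [sum_image fun q _ q' _ e => Prod.ext (by rw [← hi, e, hi]) (by rw [← hi', e, hi'])]
        refine hw.trans (sum_le_sum fun q hq => ?_)
        refine Gm_le_GG fun s hs => ?_
        have := carry_le ((mem_Box.1 (D.fine.box k (hd q))).1 s hs)
          ((mem_Box.1 (D.fine.box k (hd' q))).1 s hs) (hΓ q (mem_filter.1 hq).1 s hs.le)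
        rw [hy q s hs]
        exact ⟨Nat.sub_le _ _, (Nat.sub_le_iff_le_add'.1 le_rfl).trans (by
          rw [add_comm]
          exact Nat.add_le_add_left this _)⟩)
      (by omega) (by omega)
  obtain ⟨q, hq, rfl⟩ := mem_image.1 hu
  obtain ⟨hq, hqγ, hq0⟩ := mem_filter.1 hq
  refine ⟨_, ⟨d q, c, ⟨hd q, hcK, f1, by rw [f5, ht]⟩, rfl⟩, _,
    ⟨d' q, c', ⟨hd' q, hcK', f2, by rw [f6, ht]⟩, rfl⟩, ?_⟩
  have key := dec_bwd (j := k) (n := n) (top := c.z + c'.z) (d := d q) (d' := d' q)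
    (ξ := D.ξ k q.1) (ξ' := D.ξ k q.2) (x := c.x) (x' := c'.x)
    (fun s hs => ⟨hb _ (mem_range.1 (mem_product.1 hq).1) s hs,
      hb _ (mem_range.1 (mem_product.1 hq).2) s hs⟩)
    (fun s hs => ⟨hc q s hs, by
      rw [f7 s hs, hy q s hs]
      exact Nat.sub_add_cancel ((carry_le ((mem_Box.1 (D.fine.box k (hd q))).1 s hs)
        ((mem_Box.1 (D.fine.box k (hd' q))).1 s hs) (hΓ q hq s hs.le)).trans
        (Gm_two hq0 s hs))⟩) (by omega)
  rw [el, el, (mem_cells.1 f1).1, (mem_cells.1 f2).1, f3, f4, hi, hi', ← key]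
  ring

end Pool.Agent.P.MP_d5a1e1_nt.T3
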