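import Pool.Agent.P.MP_d5a1e1_nt.T3Par
import Pool.Agent.P.MP_d5a1e1_nt.TBPt3
import Pool.Agent.P.MP_d5a1e1_nt.TBPt5

/-! The fine points exist. -/

namespace Pool.Agent.P.MP_d5a1e1_nt.T3

open Finset TB

variable [Kap]

theorem exists_fine : ∃ Pt, Fine Pt := by
  obtain ⟨Q, hQ⟩ := exists_algOK (C := CC) (p := pp) CC_ge pp_prime
    (fun u u' h => by unfold pp LL; rw [h]) pp_sys
  refine ⟨Pt CC pp Q, fun k d hd => (mem_Pt.1 hd).1, hQ.cover, fun j k hk γ r Z hZ => ?_,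
    hQ.top, fun j k hjk r Z hZ => ?_⟩
  · refine hQ.near hk γ r Z fun y hy => ?_
    obtain ⟨d, hd, d', hd', h1, h2⟩ := hZ y hy
    exact ⟨d', hd', d, hd, h1, h2⟩
  · refine hQ.far hjk.le r Z fun y hy => ?_
    obtain ⟨h1, ⟨d, hd, h2⟩, h3⟩ := hZ y hy
    exact ⟨h1, d, hd, fun i hi => by rw [h2 i hi], h3⟩

end Pool.Agent.P.MP_d5a1e1_nt.T3
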