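import Mathlib

/-! Anti-concentration for sums of independent symmetric splittings. -/

namespace Pool.Agent.P.MP_d5a1e1_nt.TB

open Finset

theorem cb_sq (a : ℕ) : (2 * a + 1) * (Nat.centralBinom a) ^ 2 ≤ 16 ^ a := by
  induction a with
  | zero => simp
  | succ a ih =>
    have h := Nat.succ_mul_centralBinom_succ a
    have h1 : (a + 1) ^ 2 * ((2 * (a + 1) + 1) * (Nat.centralBinom (a + 1)) ^ 2) ≤
        (a + 1) ^ 2 * 16 ^ (a + 1) := by
      calc (a + 1) ^ 2 * ((2 * (a + 1) + 1) * (Nat.centralBinom (a + 1)) ^ 2)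
          = (2 * a + 3) * ((a + 1) * Nat.centralBinom (a + 1)) ^ 2 := by ring
        _ = (4 * ((2 * a + 3) * (2 * a + 1))) * ((2 * a + 1) * (Nat.centralBinom a) ^ 2) := by
          rw [h]; ring
        _ ≤ (16 * (a + 1) ^ 2) * 16 ^ a := Nat.mul_le_mul (by nlinarith) ih
        _ = (a + 1) ^ 2 * 16 ^ (a + 1) := by ring
    exact Nat.le_of_mul_le_mul_left h1 (by positivity)

theorem mid_sq (m : ℕ) : (m + 1) * (m.choose (m / 2)) ^ 2 ≤ 4 ^ m := by
  obtain ⟨a, rfl | rfl⟩ := Nat.even_or_odd' m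
  · have := cb_sq a
    rw [Nat.centralBinom_eq_two_mul_choose] at this
    rw [Nat.mul_div_cancel_left _ (by norm_num : 0 < 2), pow_mul]
    exact this
  · have h := cb_sq (a + 1)
    have h2 : Nat.centralBinom (a + 1) = 2 * (2 * a + 1).choose a := by
      rw [Nat.centralBinom_eq_two_mul_choose, show 2 * (a + 1) = (2 * a + 1) + 1 by ring,
        Nat.choose_succ_succ, Nat.choose_symm_half]
      ring
    rw [show (2 * a + 1) / 2 = a by omega]
    rw [h2, show (16 : ℕ) ^ (a + 1) = 4 * 4 ^ (2 * a + 1) by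
      rw [show (16 : ℕ) = 4 ^ 2 by norm_num, ← pow_mul]; ring] at h
    nlinarith [Nat.zero_le (((2 * a + 1).choose a) ^ 2)]

theorem mid_le (m t : ℕ) :
    (m.choose (m / 2) : ℝ) / 2 ^ m ≤ 1 / √(t + 1) + 2 ^ t * (1 / 2) ^ m := by
  have hs : 0 < √((t : ℝ) + 1) := Real.sqrt_pos.2 (by positivity)
  have hq : ((m : ℝ) + 1) * (m.choose (m / 2) : ℝ) ^ 2 ≤ (2 ^ m) ^ 2 := by
    have := mid_sq m
    rw [← pow_mul, mul_comm m 2, pow_mul]
    exact_mod_cast this
  have h2 : (0 : ℝ) < 2 ^ m := by positivity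
  have hc : (0 : ℝ) ≤ (m.choose (m / 2) : ℝ) := by positivity
  rcases le_or_gt t m with h | h
  · have h3 : (m.choose (m / 2) : ℝ) / 2 ^ m ≤ 1 / √(t + 1) := by
      rw [div_le_div_iff₀ h2 hs, one_mul]
      refine abs_le_of_sq_le_sq' ?_ h2.le |>.2
      rw [mul_pow, Real.sq_sqrt (by positivity)]
      have : (t : ℝ) ≤ m := by exact_mod_cast h
      nlinarith [sq_nonneg (m.choose (m / 2) : ℝ)]
    have : (0 : ℝ) ≤ 2 ^ t * (1 / 2) ^ m := by positivity
    linarith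
  · have h3 : (m.choose (m / 2) : ℝ) ≤ 2 ^ m := by
      refine abs_le_of_sq_le_sq' ?_ h2.le |>.2
      nlinarith [sq_nonneg (m.choose (m / 2) : ℝ), (by positivity : (0 : ℝ) ≤ m)]
    have h4 : (2 : ℝ) ^ m ≤ 2 ^ t := pow_le_pow_right₀ (by norm_num) h.le
    have h5 : (m.choose (m / 2) : ℝ) / 2 ^ m ≤ 1 := (div_le_one h2).2 h3
    have h6 : (1 : ℝ) ≤ 2 ^ t * (1 / 2) ^ m := by
      rw [one_div, inv_pow, ← div_eq_mul_inv, le_div_iff₀ h2]; linarith
    have : 0 ≤ 1 / √((t : ℝ) + 1) := by positivity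
    linarith

theorem geo_le (s t : ℕ) (h : 4 * t ≤ s) : (2 : ℝ) ^ t * (3 / 4) ^ s ≤ 1 / √(t + 1) := by
  have hs : 0 < √((t : ℝ) + 1) := Real.sqrt_pos.2 (by positivity)
  have h1 : ((3 : ℝ) / 4) ^ s ≤ (3 / 4) ^ (4 * t) :=
    pow_le_pow_of_le_one (by norm_num) (by norm_num) h
  have h2 : (2 : ℝ) ^ t * (3 / 4) ^ (4 * t) = (81 / 128) ^ t := by
    rw [pow_mul, ← mul_pow]; norm_num
  have h3 : ((81 : ℝ) / 128) ^ t * √(t + 1) ≤ 1 := by
    refine abs_le_of_sq_le_sq' ?_ zero_le_one |>.2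
    rw [mul_pow, Real.sq_sqrt (by positivity), ← pow_mul, mul_comm t 2, pow_mul]
    have h4 : ((t : ℝ) + 1) ≤ 2 ^ t := by exact_mod_cast Nat.lt_two_pow_self
    have h5 : (((81 : ℝ) / 128) ^ 2) ^ t ≤ (1 / 2) ^ t :=
      pow_le_pow_left₀ (by norm_num) (by norm_num) t
    calc (((81 : ℝ) / 128) ^ 2) ^ t * (t + 1) ≤ (1 / 2) ^ t * 2 ^ t :=
          mul_le_mul h5 h4 (by positivity) (by positivity)
      _ = 1 ^ 2 := by rw [← mul_pow]; norm_num
  rw [le_div_iff₀ hs]
  calc (2 : ℝ) ^ t * (3 / 4) ^ s * √(t + 1) ≤ 2 ^ t * (3 / 4) ^ (4 * t) * √(t + 1) := by gcongr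
    _ ≤ 1 := by rw [h2]; exact h3

/-- The part `a` of `y` is far from the middle. -/
def Far (b y a : ℕ) : Prop := 2 * a + b ≤ y ∨ y + b ≤ 2 * a

instance (b y a : ℕ) : Decidable (Far b y a) := by unfold Far; infer_instance

section
variable {w : ℕ → ℝ} (hw0 : ∀ x, 0 ≤ w x)
  (hw1 : ∀ n, ∑ a ∈ range (n + 1), w a * w (n - a) = 1)
  (hw2 : ∀ x : ℕ, w x ^ 2 * (2 * x + 1) ≤ 1)

include hw2 in
theorem near_le {b y : ℕ} (hb : 0 < b) (h : 3 * b ≤ y) :
    ∑ a ∈ (range (y + 1)).filter (fun a => ¬Far b y a), w a * w (y - a) ≤ 1 / 2 := by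
  have hb' : (0 : ℝ) < b := by exact_mod_cast hb
  have key : ∀ x : ℕ, b ≤ x → w x ^ 2 ≤ 1 / (2 * b) := fun x hx => by
    rw [le_div_iff₀ (by positivity)]
    have : (b : ℝ) ≤ x := by exact_mod_cast hx
    nlinarith [hw2 x, sq_nonneg (w x)]
  have hc : ((range (y + 1)).filter (fun a => ¬Far b y a)).card ≤ b := by
    calc _ ≤ (Ico ((y - b) / 2 + 1) ((y - b) / 2 + 1 + b)).card := by
          refine card_le_card fun a ha => ?_
          simp only [mem_filter, mem_range, Far, not_or, not_le] at ha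
          rw [mem_Ico]; omega
      _ = b := by simp
  calc _ ≤ ∑ a ∈ (range (y + 1)).filter (fun a => ¬Far b y a), 1 / (2 * (b : ℝ)) := by
        refine sum_le_sum fun a ha => ?_
        simp only [mem_filter, mem_range, Far, not_or, not_le] at ha
        have h1 := key a (by omega)
        have h2 := key (y - a) (by omega)
        nlinarith [sq_nonneg (w a - w (y - a))]
    _ ≤ b * (1 / (2 * (b : ℝ))) := by
        rw [sum_const, nsmul_eq_mul]
        exact mul_le_mul_of_nonneg_right (by exact_mod_cast hc) (by positivity)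
    _ = 1 / 2 := by field_simp

variable {ι : Type*} [Fintype ι] [DecidableEq ι]

/-- Splittings of `y`. -/
def Bx (y : ι → ℕ) : Finset (ι → ℕ) := Fintype.piFinset fun i => range (y i + 1)

/-- Weight of a splitting. -/
def Pw (w : ℕ → ℝ) (y x : ι → ℕ) : ℝ := ∏ i, w (x i) * w (y i - x i)

/-- The far coordinates. -/
def Gd (b : ℕ) (y x : ι → ℕ) : Finset ι := univ.filter fun i => Far b (y i) (x i)

/-- Reflection of the coordinates in `E`. -/
def tg (y : ι → ℕ) (E : Finset ι) (x : ι → ℕ) : ι → ℕ :=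
  fun i => if i ∈ E then y i - x i else x i

theorem mem_Bx {y x : ι → ℕ} : x ∈ Bx y ↔ ∀ i, x i ≤ y i := by
  simp [Bx, Fintype.mem_piFinset]

omit [DecidableEq ι] in
include hw0 in
theorem Pw_nonneg (y x : ι → ℕ) : 0 ≤ Pw w y x :=
  prod_nonneg fun _ _ => mul_nonneg (hw0 _) (hw0 _)

include hw1 in
theorem sum_Pw (y : ι → ℕ) : ∑ x ∈ Bx y, Pw w y x = 1 := by
  unfold Bx Pw
  rw [← prod_univ_sum (fun i => range (y i + 1)) fun i a => w a * w (y i - a)]
  simp [hw1]

include hw0 hw1 hw2 in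
theorem sum_half_le {b : ℕ} (hb : 0 < b) (y : ι → ℕ) :
    ∑ x ∈ Bx y, Pw w y x * (1 / 2) ^ (Gd b y x).card ≤
      (3 / 4) ^ (univ.filter fun i => 3 * b ≤ y i).card := by
  have h1 : ∀ x : ι → ℕ, Pw w y x * (1 / 2) ^ (Gd b y x).card =
      ∏ i, w (x i) * w (y i - x i) * (if Far b (y i) (x i) then (1 / 2 : ℝ) else 1) := by
    intro x
    rw [prod_mul_distrib, prod_ite, prod_const, prod_const_one, mul_one]
    rfl
  simp only [h1]
  unfold Bx
  rw [← prod_univ_sum (fun i => range (y i + 1))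
    fun i a => w a * w (y i - a) * (if Far b (y i) a then (1 / 2 : ℝ) else 1)]
  have h2 : ((3 : ℝ) / 4) ^ (univ.filter fun i => 3 * b ≤ y i).card =
      ∏ i, if 3 * b ≤ y i then (3 / 4 : ℝ) else 1 := by
    rw [prod_ite, prod_const, prod_const_one, mul_one]
  rw [h2]
  refine prod_le_prod (fun i _ => sum_nonneg fun a _ =>
    mul_nonneg (mul_nonneg (hw0 _) (hw0 _)) (by split_ifs <;> norm_num)) fun i _ => ?_
  have h3 : ∑ a ∈ range (y i + 1), w a * w (y i - a) * (if Far b (y i) a then (1 / 2 : ℝ) else 1) =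
      1 / 2 * ∑ a ∈ range (y i + 1), w a * w (y i - a) +
        1 / 2 * ∑ a ∈ (range (y i + 1)).filter (fun a => ¬Far b (y i) a), w a * w (y i - a) := by
    rw [sum_filter, mul_sum, mul_sum, ← sum_add_distrib]
    refine sum_congr rfl fun a _ => ?_
    split_ifs <;> ring
  rw [h3, hw1]
  split_ifs with h
  · linarith [near_le hw2 hb h]
  · have : ∑ a ∈ (range (y i + 1)).filter (fun a => ¬Far b (y i) a), w a * w (y i - a) ≤
        ∑ a ∈ range (y i + 1), w a * w (y i - a) :=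
      sum_le_sum_of_subset_of_nonneg (filter_subset _ _) fun a _ _ => mul_nonneg (hw0 _) (hw0 _)
    rw [hw1] at this
    linarith

theorem tg_mem {y x : ι → ℕ} (hx : x ∈ Bx y) (E : Finset ι) : tg y E x ∈ Bx y := by
  rw [mem_Bx] at hx ⊢
  intro i
  have := hx i
  unfold tg; split_ifs <;> omega

theorem tg_tg {y x : ι → ℕ} (hx : x ∈ Bx y) (E : Finset ι) : tg y E (tg y E x) = x := by
  funext i
  have := mem_Bx.1 hx i
  unfold tg; split_ifs <;> omega

theorem Gd_tg {y x : ι → ℕ} (hx : x ∈ Bx y) (b : ℕ) (E : Finset ι) :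
    Gd b y (tg y E x) = Gd b y x := by
  refine filter_congr fun i _ => ?_
  have := mem_Bx.1 hx i
  unfold tg Far; split_ifs <;> omega

theorem Pw_tg {y x : ι → ℕ} (hx : x ∈ Bx y) (E : Finset ι) : Pw w y (tg y E x) = Pw w y x := by
  refine prod_congr rfl fun i _ => ?_
  have := mem_Bx.1 hx i
  unfold tg; split_ifs
  · rw [Nat.sub_sub_self this, mul_comm]
  · rfl

/-- Sperner step. -/
theorem card_window {y x : ι → ℕ} (hx : x ∈ Bx y) {b : ℕ} (lo : ℕ) :
    ((Gd b y x).powerset.filter fun E =>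
      lo ≤ ∑ i, tg y E x i ∧ ∑ i, tg y E x i < lo + b).card ≤
      (Gd b y x).card.choose ((Gd b y x).card / 2) := by
  set G := Gd b y x with hG
  let U : Finset ι := univ.filter fun i => y i < 2 * x i
  let φ : Finset ι → Finset G := fun E => univ.filter fun i : G => (i.1 ∈ E ↔ i.1 ∉ U)
  let 𝒜 := G.powerset.filter fun E => lo ≤ ∑ i, tg y E x i ∧ ∑ i, tg y E x i < lo + b
  have hinj : Set.InjOn φ 𝒜 := by
    intro E hE E' hE' h
    have h1 : E ⊆ G := mem_powerset.1 (mem_filter.1 hE).1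
    have h2 : E' ⊆ G := mem_powerset.1 (mem_filter.1 hE').1
    have h3 : ∀ i ∈ G, (i ∈ E ↔ i ∈ E') := fun i hi => by
      have : (⟨i, hi⟩ : G) ∈ φ E ↔ (⟨i, hi⟩ : G) ∈ φ E' := by rw [h]
      simp only [φ, mem_filter, mem_univ, true_and] at this
      tauto
    ext i
    exact ⟨fun hi => (h3 i (h1 hi)).1 hi, fun hi => (h3 i (h2 hi)).2 hi⟩
  have hanti : IsAntichain (· ⊆ ·) ((𝒜.image φ : Finset (Finset G)) : Set (Finset G)) := by
    intro A hA B hB hne hsub
    obtain ⟨E, hE, rfl⟩ := mem_image.1 (mem_coe.1 hA)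
    obtain ⟨E', hE', rfl⟩ := mem_image.1 (mem_coe.1 hB)
    obtain ⟨i0, hi0, hi1⟩ := exists_of_ssubset (ssubset_of_subset_of_ne hsub hne)
    have h1 : E ⊆ G := mem_powerset.1 (mem_filter.1 hE).1
    have h2 : E' ⊆ G := mem_powerset.1 (mem_filter.1 hE').1
    have h3 : ∀ i, tg y E x i + (if i = i0.1 then b else 0) ≤ tg y E' x i := by
      intro i
      have hxy := mem_Bx.1 hx i
      by_cases hi : i ∈ G
      · have hs : (⟨i, hi⟩ : G) ∈ φ E → (⟨i, hi⟩ : G) ∈ φ E' := fun h => hsub h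
        have hf : Far b (y i) (x i) := (mem_filter.1 hi).2
        simp only [φ, U, mem_filter, mem_univ, true_and] at hs hi0 hi1
        unfold Far at hf
        by_cases h0 : i = i0.1
        · subst h0
          unfold tg
          by_cases a1 : i0.1 ∈ E <;> by_cases a2 : i0.1 ∈ E' <;>
            simp only [a1, a2, true_iff, false_iff, not_not, if_true, if_false] at hi0 hi1 ⊢ <;>
            omega
        · unfold tg
          by_cases a1 : i ∈ E <;> by_cases a2 : i ∈ E' <;>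
            simp only [a1, a2, h0, true_iff, false_iff, not_not, if_true, if_false] at hs ⊢ <;>
            omega
      · have h0 : i ≠ i0.1 := fun h => hi (h ▸ i0.2)
        unfold tg
        rw [if_neg h0, if_neg fun h => hi (h1 h), if_neg fun h => hi (h2 h)]
        rfl
    have h4 := sum_le_sum fun i (_ : i ∈ (univ : Finset ι)) => h3 i
    rw [sum_add_distrib, sum_ite_eq' univ i0.1 fun _ => b, if_pos (mem_univ _)] at h4
    have h5 := (mem_filter.1 hE).2
    have h6 := (mem_filter.1 hE').2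
    omega
  have := hanti.sperner
  rw [card_image_of_injOn hinj, Fintype.card_coe] at this
  exact this

include hw0 in
theorem sum_window_le {b : ℕ} (y : ι → ℕ) (lo : ℕ) :
    ∑ x ∈ (Bx y).filter (fun x => lo ≤ ∑ i, x i ∧ ∑ i, x i < lo + b), Pw w y x ≤
      ∑ x ∈ Bx y, Pw w y x *
        (((Gd b y x).card.choose ((Gd b y x).card / 2) : ℝ) / 2 ^ (Gd b y x).card) := by
  let A : (ι → ℕ) → Prop := fun x => lo ≤ ∑ i, x i ∧ ∑ i, x i < lo + b
  let T : Finset (Σ _ : ι → ℕ, Finset ι) := (Bx y).sigma fun x => (Gd b y x).powerset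
  let u : (ι → ℕ) → ℝ := fun x => Pw w y x / 2 ^ (Gd b y x).card
  have h1 : ∑ x ∈ (Bx y).filter A, Pw w y x = ∑ z ∈ T, if A z.1 then u z.1 else 0 := by
    rw [sum_sigma, sum_filter]
    refine sum_congr rfl fun x _ => ?_
    simp only [sum_const, card_powerset, nsmul_eq_mul]
    split_ifs
    · simp only [u]; push_cast; field_simp
    · simp
  have h2 : ∑ z ∈ T, (if A z.1 then u z.1 else 0) =
      ∑ z ∈ T, if A (tg y z.2 z.1) then u z.1 else 0 := by
    refine sum_nbij' (fun z => ⟨tg y z.2 z.1, z.2⟩) (fun z => ⟨tg y z.2 z.1, z.2⟩) ?_ ?_ ?_ ?_ ?_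
    · intro z hz
      rw [mem_sigma] at hz ⊢
      exact ⟨tg_mem hz.1 _, by rw [Gd_tg hz.1]; exact hz.2⟩
    · intro z hz
      rw [mem_sigma] at hz ⊢
      exact ⟨tg_mem hz.1 _, by rw [Gd_tg hz.1]; exact hz.2⟩
    · intro z hz
      simp only [tg_tg (mem_sigma.1 hz).1]
    · intro z hz
      simp only [tg_tg (mem_sigma.1 hz).1]
    · intro z hz
      have hz1 := (mem_sigma.1 hz).1
      simp only [tg_tg hz1, u, Pw_tg hz1, Gd_tg hz1]
  rw [h1, h2, sum_sigma]
  refine sum_le_sum fun x hx => ?_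
  dsimp only
  rw [← sum_filter, sum_const, nsmul_eq_mul]
  have h3 : (((Gd b y x).powerset.filter fun E => A (tg y E x)).card : ℝ) ≤
      ((Gd b y x).card.choose ((Gd b y x).card / 2) : ℝ) := by
    exact_mod_cast card_window hx lo
  have h4 : 0 ≤ u x := div_nonneg (Pw_nonneg hw0 y x) (by positivity)
  calc _ ≤ ((Gd b y x).card.choose ((Gd b y x).card / 2) : ℝ) * u x :=
        mul_le_mul_of_nonneg_right h3 h4
    _ = _ := by simp only [u]; ring

include hw0 hw1 hw2 in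
theorem window_le {b : ℕ} (hb : 0 < b) (y : ι → ℕ) (lo t : ℕ)
    (ht : 4 * t ≤ (univ.filter fun i => 3 * b ≤ y i).card) :
    ∑ x ∈ (Bx y).filter (fun x => lo ≤ ∑ i, x i ∧ ∑ i, x i < lo + b), Pw w y x ≤
      2 / √(t + 1) := by
  refine (sum_window_le hw0 y lo).trans ?_
  calc _ ≤ ∑ x ∈ Bx y, Pw w y x * (1 / √(t + 1) + 2 ^ t * (1 / 2) ^ (Gd b y x).card) :=
        sum_le_sum fun x _ => mul_le_mul_of_nonneg_left (mid_le _ t) (Pw_nonneg hw0 y x)
    _ = 1 / √(t + 1) * ∑ x ∈ Bx y, Pw w y x +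
          2 ^ t * ∑ x ∈ Bx y, Pw w y x * (1 / 2) ^ (Gd b y x).card := by
        rw [mul_sum, mul_sum, ← sum_add_distrib]
        exact sum_congr rfl fun x _ => by ring
    _ ≤ 1 / √(t + 1) + 1 / √(t + 1) := by
        rw [sum_Pw hw1, mul_one]
        have h1 := sum_half_le hw0 hw1 hw2 hb y
        have h2 := geo_le _ t ht
        have h3 := mul_le_mul_of_nonneg_left h1 (by positivity : (0 : ℝ) ≤ 2 ^ t)
        linarith
    _ = 2 / √(t + 1) := by ring

include hw0 hw1 hw2 in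
theorem windows_le {b : ℕ} (hb : 0 < b) (y : ι → ℕ) (lo t q : ℕ)
    (ht : 4 * t ≤ (univ.filter fun i => 3 * b ≤ y i).card) :
    ∑ x ∈ (Bx y).filter (fun x => lo ≤ ∑ i, x i ∧ ∑ i, x i < lo + q * b), Pw w y x ≤
      q * (2 / √(t + 1)) := by
  induction q with
  | zero =>
    rw [filter_false_of_mem fun x _ => by omega]
    simp
  | succ q ih =>
    have h1 := window_le hw0 hw1 hw2 hb y (lo + q * b) t ht
    have h2 : ∑ x ∈ (Bx y).filter (fun x => lo ≤ ∑ i, x i ∧ ∑ i, x i < lo + (q + 1) * b),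
        Pw w y x =
        ∑ x ∈ (Bx y).filter (fun x => lo ≤ ∑ i, x i ∧ ∑ i, x i < lo + q * b), Pw w y x +
        ∑ x ∈ (Bx y).filter (fun x => lo + q * b ≤ ∑ i, x i ∧ ∑ i, x i < lo + q * b + b),
          Pw w y x := by
      rw [sum_filter, sum_filter, sum_filter, ← sum_add_distrib]
      refine sum_congr rfl fun x _ => ?_
      rw [add_mul, one_mul]
      split_ifs <;> first | omega | ring
    rw [h2]; push_cast; linarith

include hw0 hw1 hw2 in
/-- One group of `2 n` digits. -/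
theorem shell_le (hw3 : ∀ n : ℕ, 0 < n → 1 ≤ 4 * n * w n ^ 2) {b γ n : ℕ} (hb : 0 < b)
    (hγ : 0 < γ) (hn : Fintype.card ι = 2 * n) (y : ι → ℕ) (hy : ∀ i, y i ≤ 64 * b * γ) :
    ∑ x ∈ (Bx y).filter
      (fun x => ∑ i, x i ≤ 32 * b * n ∧ 32 * b * n ≤ ∑ i, x i + 32 * b * γ), Pw w y x ≤
      512 * γ ^ 2 * w n := by
  have hγ' : (1 : ℝ) ≤ γ := by exact_mod_cast hγ
  rcases Nat.eq_zero_or_pos n with rfl | hn0
  · have h0 : w 0 = 1 := by
      have := hw1 0
      simp only [zero_add, range_one, sum_singleton, tsub_zero] at this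
      nlinarith [hw0 0]
    have h1 := sum_le_sum_of_subset_of_nonneg (filter_subset
      (fun x : ι → ℕ => ∑ i, x i ≤ 32 * b * 0 ∧ 32 * b * 0 ≤ ∑ i, x i + 32 * b * γ) (Bx y))
      fun x _ _ => Pw_nonneg hw0 y x
    rw [sum_Pw hw1] at h1
    rw [h0]
    nlinarith
  rcases ((Bx y).filter (fun x => ∑ i, x i ≤ 32 * b * n ∧
      32 * b * n ≤ ∑ i, x i + 32 * b * γ)).eq_empty_or_nonempty with he | ⟨x0, hx0⟩
  · rw [he, sum_empty]
    exact mul_nonneg (by positivity) (hw0 n)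
  set s := (univ.filter fun i => 3 * b ≤ y i).card with hs
  have hsum : ∑ i, y i ≤ 2 * n * (3 * b) + s * (64 * b * γ) := by
    calc ∑ i, y i ≤ ∑ i, (3 * b + if 3 * b ≤ y i then 64 * b * γ else 0) :=
          sum_le_sum fun i _ => by
            have := hy i
            split_ifs <;> omega
      _ = _ := by
          rw [sum_add_distrib, ← sum_filter, sum_const, sum_const, card_univ, hn]
          rfl
  have hx1 : ∑ i, x0 i ≤ ∑ i, y i := sum_le_sum fun i _ => mem_Bx.1 (mem_filter.1 hx0).1 i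
  have hx2 := (mem_filter.1 hx0).2.2
  have h26 : 26 * n ≤ 64 * γ * s + 32 * γ := by
    refine Nat.le_of_mul_le_mul_left (c := b) ?_ hb
    nlinarith
  have ht : n ≤ 12 * γ * (s / 4 + 1) := by
    have : s ≤ 4 * (s / 4 + 1) := by omega
    nlinarith [Nat.mul_le_mul_left γ this, Nat.zero_le (γ * (s / 4))]
  have h1 := windows_le hw0 hw1 hw2 hb y (32 * b * n - 32 * b * γ) (s / 4) (32 * γ + 1)
    (by omega)
  have h2 : ∑ x ∈ (Bx y).filter
      (fun x => ∑ i, x i ≤ 32 * b * n ∧ 32 * b * n ≤ ∑ i, x i + 32 * b * γ), Pw w y x ≤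
      ∑ x ∈ (Bx y).filter (fun x => 32 * b * n - 32 * b * γ ≤ ∑ i, x i ∧
        ∑ i, x i < 32 * b * n - 32 * b * γ + (32 * γ + 1) * b), Pw w y x := by
    refine sum_le_sum_of_subset_of_nonneg (fun x hx => ?_) fun x _ _ => Pw_nonneg hw0 y x
    rw [mem_filter] at hx ⊢
    refine ⟨hx.1, by omega, ?_⟩
    have : (32 * γ + 1) * b = 32 * b * γ + b := by ring
    omega
  refine h2.trans (h1.trans ?_)
  have hq : 0 < √(((s / 4 : ℕ) : ℝ) + 1) := Real.sqrt_pos.2 (by positivity)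
  have h3 : 1 ≤ 7 * γ * w n * √(((s / 4 : ℕ) : ℝ) + 1) := by
    refine abs_le_of_sq_le_sq' ?_ (mul_nonneg (mul_nonneg (by positivity) (hw0 n)) hq.le) |>.2
    rw [mul_pow, Real.sq_sqrt (by positivity)]
    have h4 := hw3 n hn0
    have h5 : (n : ℝ) ≤ 12 * γ * (((s / 4 : ℕ) : ℝ) + 1) := by exact_mod_cast ht
    have h6 : (0 : ℝ) ≤ w n ^ 2 * (((s / 4 : ℕ) : ℝ) + 1) := by positivity
    have h7 := mul_le_mul_of_nonneg_right h5 (sq_nonneg (w n))
    have h8 : (γ : ℝ) ≤ γ ^ 2 := by nlinarith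
    have h9 := mul_le_mul_of_nonneg_right h8 h6
    nlinarith
  have h4 : 2 / √(((s / 4 : ℕ) : ℝ) + 1) ≤ 14 * γ * w n := by
    rw [div_le_iff₀ hq]; linarith
  push_cast
  have h5 : (0 : ℝ) ≤ γ * w n := mul_nonneg (by positivity) (hw0 n)
  calc (32 * (γ : ℝ) + 1) * (2 / √(((s / 4 : ℕ) : ℝ) + 1)) ≤ (33 * γ) * (14 * γ * w n) :=
        mul_le_mul (by linarith) h4 (by positivity) (by positivity)
    _ ≤ 512 * γ ^ 2 * w n := by nlinarith

/-- Sums over a product set of functions that factor over the fibres of `gr`. -/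
theorem sum_fibre_prod {κ : Type*} [Fintype κ] [DecidableEq κ] (gr : ι → κ) (t : ι → Finset ℕ)
    (F : ∀ g, ({i // gr i = g} → ℕ) → ℝ) :
    ∑ x ∈ Fintype.piFinset t, ∏ g, F g (fun i => x i) =
      ∏ g, ∑ x ∈ Fintype.piFinset (fun i : {i // gr i = g} => t i), F g x := by
  rw [prod_univ_sum]
  refine sum_nbij' (fun x g i => x i) (fun z i => z (gr i) ⟨i, rfl⟩) ?_ ?_ ?_ ?_ ?_
  · intro x hx
    simp only [Fintype.mem_piFinset] at hx ⊢
    exact fun g i => hx i
  · intro z hz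
    simp only [Fintype.mem_piFinset] at hz ⊢
    exact fun i => hz (gr i) ⟨i, rfl⟩
  · intro x _
    rfl
  · intro z _
    funext g ⟨i, hi⟩
    subst hi
    rfl
  · intro x _
    rfl

include hw0 hw1 hw2 in
/-- All groups at once, for digit vectors on the naturals. -/
theorem shells_le (hw3 : ∀ n : ℕ, 0 < n → 1 ≤ 4 * n * w n ^ 2) (N : ℕ) (gr : ℕ → ℕ)
    (G : Finset ℕ) (hG : ∀ i < N, gr i ∈ G) (b γ n : ℕ → ℕ) (hb : ∀ g, 0 < b g)
    (hγ : ∀ g, 0 < γ g) (hn : ∀ g ∈ G, ((range N).filter fun i => gr i = g).card = 2 * n g)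
    (y : ℕ → ℕ) (hy : ∀ i < N, y i ≤ 64 * b (gr i) * γ (gr i)) (X : Finset (ℕ → ℕ))
    (hX0 : ∀ x ∈ X, ∀ i, N ≤ i → x i = 0) (hX1 : ∀ x ∈ X, ∀ i < N, x i ≤ y i)
    (hX2 : ∀ x ∈ X, ∀ g ∈ G, ∑ i ∈ (range N).filter (fun i => gr i = g), x i ≤ 32 * b g * n g ∧
      32 * b g * n g ≤ ∑ i ∈ (range N).filter (fun i => gr i = g), x i + 32 * b g * γ g) :
    ∑ x ∈ X, ∏ i ∈ range N, w (x i) * w (y i - x i) ≤ ∏ g ∈ G, 512 * (γ g : ℝ) ^ 2 * w (n g) := by
  let gr' : Fin N → G := fun i => ⟨gr i, hG i i.2⟩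
  let F : ∀ g : G, ({i // gr' i = g} → ℕ) → ℝ := fun g x =>
    if ∑ i, x i ≤ 32 * b g * n g ∧ 32 * b g * n g ≤ ∑ i, x i + 32 * b g * γ g then
      Pw w (fun i : {i // gr' i = g} => y i.1) x else 0
  have hF : ∀ g x, 0 ≤ F g x := fun g x => by
    simp only [F]; split_ifs
    · exact Pw_nonneg hw0 _ _
    · exact le_rfl
  have hfib : ∀ (g : G) (u : ℕ → ℕ), ∑ i : {i // gr' i = g}, u i.1 =
      ∑ i ∈ (range N).filter (fun i => gr i = g), u i := by
    intro g u
    refine sum_bij (fun i _ => (i.1 : ℕ)) ?_ ?_ ?_ ?_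
    · intro i _
      exact mem_filter.2 ⟨mem_range.2 i.1.2, congrArg Subtype.val i.2⟩
    · intro i _ j _ h
      exact Subtype.ext (Fin.ext h)
    · intro i hi
      exact ⟨⟨⟨i, mem_range.1 (mem_filter.1 hi).1⟩, Subtype.ext (mem_filter.1 hi).2⟩,
        mem_univ _, rfl⟩
    · intro i _
      rfl
  have h1 : ∑ x ∈ X, ∏ i ∈ range N, w (x i) * w (y i - x i) =
      ∑ x ∈ X.image (fun x (i : Fin N) => x i), ∏ g, F g (fun i => x i) := by
    rw [sum_image]
    · refine sum_congr rfl fun x hx => ?_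
      rw [← Fin.prod_univ_eq_prod_range (fun i => w (x i) * w (y i - x i)) N,
        ← Fintype.prod_fiberwise gr' fun i : Fin N => w (x i) * w (y i - x i)]
      refine prod_congr rfl fun g _ => ?_
      simp only [F]
      rw [hfib g x, if_pos (hX2 x hx g g.2)]
      rfl
    · intro x hx x' hx' h
      funext i
      by_cases hi : i < N
      · exact congrFun h ⟨i, hi⟩
      · rw [hX0 x hx i (by omega), hX0 x' hx' i (by omega)]
  have h2 : ∑ x ∈ X.image (fun x (i : Fin N) => x i), ∏ g, F g (fun i => x i) ≤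
      ∑ x ∈ Fintype.piFinset (fun i : Fin N => range (y i + 1)), ∏ g, F g (fun i => x i) := by
    refine sum_le_sum_of_subset_of_nonneg (fun z hz => ?_)
      fun x _ _ => prod_nonneg fun g _ => hF g _
    obtain ⟨x, hx, rfl⟩ := mem_image.1 hz
    exact Fintype.mem_piFinset.2 fun i => mem_range.2 (Nat.lt_succ_of_le (hX1 x hx i i.2))
  rw [h1, ← prod_coe_sort G]
  refine h2.trans ?_
  rw [sum_fibre_prod]
  refine prod_le_prod (fun g _ => sum_nonneg fun x _ => hF g x) fun g _ => ?_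
  have h3 := shell_le (ι := {i // gr' i = g}) hw0 hw1 hw2 hw3 (hb g) (hγ g) (n := n g)
    (by
      have := hfib g fun _ => 1
      rw [← card_eq_sum_ones, ← card_eq_sum_ones, card_univ] at this
      rw [this, hn g g.2])
    (fun i => y i.1) (fun i => by
      have := hy i.1 i.1.2
      rwa [show gr i.1 = g from congrArg Subtype.val i.2] at this)
  rw [sum_filter] at h3
  exact h3

end

end Pool.Agent.P.MP_d5a1e1_nt.TB
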