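import Pool.Agent.P.MP_d5a1e1_nt.T3MassB
import Pool.Agent.P.MP_d5a1e1_nt.TBLO

/-! The convolution weight. -/

namespace Pool.Agent.P.MP_d5a1e1_nt.T3

open Finset TB

variable [Kap]

theorem T3G_term {p : Prop} [Decidable p] (j k : ℕ) (x x' : ℕ → ℕ) :
    0 ≤ if p then ff j x * ff k x' else 0 := by
  split_ifs
  · exact (mul_pos (ff_pos _ _) (ff_pos _ _)).le
  · exact le_rfl

theorem GG_nonneg (j k : ℕ) (y : ℕ → ℕ) : 0 ≤ GG j k y :=
  sum_nonneg fun _ _ => sum_nonneg fun _ _ => T3G_term _ _ _ _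

theorem Gm_nonneg (k : ℕ) (y : ℕ → ℕ) : 0 ≤ Gm k y :=
  sum_nonneg fun _ _ => sum_nonneg fun _ _ => T3G_term _ _ _ _

open Classical in
/-- Anti-concentration on the shells. -/
theorem shell_sum {j : ℕ} (hj : k0 ≤ j) (y : ℕ → ℕ) (hy : ∀ i < 2 * j, y i ≤ 2 * Ru (i / 2)) :
    ∑ x ∈ XX j with ∀ i < 2 * j, x i ≤ y i, ∏ i ∈ range (2 * j), cw (x i) * cw (y i - x i) ≤
      Gb j := by
  refine (shells_le (fun x => (cw_pos x).le) cw_conv cw_sq_le (fun n hn => cw_sq_ge hn) (2 * j)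
    (fun i => gr (i / 2)) _ (gr_mem' j) bb ga (nn j) bb_pos (fun g => by have := ga_big g; omega)
    (fun g _ => card_group_digit j g) y (fun i hi => (hy i hi).trans (le_of_eq ?_)) _
    (fun x hx => (mem_XX.1 (mem_filter.1 hx).1).2.1) (fun x hx => (mem_filter.1 hx).2)
    fun x hx g _ => (mem_XX.1 (mem_filter.1 hx).1).2.2 g).trans ?_
  · rw [Ru, cap]
    ring
  · rw [prod_mul_distrib, ← Om, Gb]
    refine mul_le_mul_of_nonneg_right ?_ (Om_pos j).le
    exact_mod_cast prod_ga_le hj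

open Classical in
theorem T3G_le {j k : ℕ} (hj : k0 ≤ j) (hjk : j ≤ k) {c : ℝ} (h0 : 0 ≤ c)
    (hc : ∀ a : ℕ → ℕ, ∑ x' ∈ XX k with ∀ i < 2 * j, x' i = a i, ff k x' ≤
      c * ∏ i ∈ range (2 * j), cw (a i)) (y : ℕ → ℕ) : GG j k y ≤ c * Gb j := by
  by_cases hy : ∀ i < 2 * j, y i ≤ 2 * Ru (i / 2)
  · refine le_trans ?_ (mul_le_mul_of_nonneg_left (shell_sum hj y hy) h0)
    rw [GG, sum_filter, mul_sum]
    refine sum_le_sum fun x _ => ?_
    split_ifs with h
    · rw [← sum_filter, ← mul_sum, prod_mul_distrib, mul_left_comm]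
      refine mul_le_mul_of_nonneg_left (le_trans (sum_le_sum_of_subset_of_nonneg (fun x' hx' => ?_)
        fun _ _ _ => (ff_pos _ _).le) (hc fun i => y i - x i)) (ff_pos _ _).le
      refine mem_filter.2 ⟨(mem_filter.1 hx').1, fun i hi => ?_⟩
      have := (mem_filter.1 hx').2 i hi
      omega
    · rw [mul_zero]
      refine le_of_eq (sum_eq_zero fun x' _ => if_neg fun h' => h fun i hi => ?_)
      have := h' i hi
      omega
  · refine le_of_eq_of_le (sum_eq_zero fun x hx => sum_eq_zero fun x' hx' =>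
      if_neg fun h' => hy fun i hi => ?_) (mul_nonneg h0 (Gb_pos j).le)
    have h1 := h' i hi
    have h2 := (mem_XX.1 hx).1 i hi
    have h3 := (mem_XX.1 hx').1 i (by omega)
    omega

theorem GG_le_Gb {k : ℕ} (hk : k0 ≤ k) (y : ℕ → ℕ) : GG k k y ≤ Gb k := by
  classical
  refine (T3G_le hk le_rfl zero_le_one (fun a => ?_) y).trans_eq (one_mul _)
  rw [one_mul]
  have h1 : 0 ≤ ∏ i ∈ range (2 * k), cw (a i) := prod_nonneg fun _ _ => (cw_pos _).le
  refine (sum_le_card_nsmul _ _ (∏ i ∈ range (2 * k), cw (a i)) fun x hx => le_of_eq ?_).trans ?_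
  · exact prod_congr rfl fun i hi => by rw [(mem_filter.1 hx).2 i (mem_range.1 hi)]
  · rw [nsmul_eq_mul]
    refine mul_le_of_le_one_left h1 (Nat.cast_le_one.2 (card_le_one.2 fun x hx x' hx' => ?_))
    funext i
    by_cases hi : i < 2 * k
    · rw [(mem_filter.1 hx).2 i hi, (mem_filter.1 hx').2 i hi]
    · rw [(mem_XX.1 (mem_filter.1 hx).1).2.1 i (by omega),
        (mem_XX.1 (mem_filter.1 hx').1).2.1 i (by omega)]

theorem GG_le_D {j : ℕ} (hj : k0 ≤ j) (y : ℕ → ℕ) : GG j (j + 1) y ≤ DD j * Gb j := by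
  classical
  refine T3G_le hj (Nat.le_succ j) (Nat.cast_nonneg _) (fun a => ?_) y
  have h0 : 0 ≤ ∏ i ∈ range (2 * j), cw (a i) := prod_nonneg fun _ _ => (cw_pos _).le
  have hinj : Set.InjOn (fun x : ℕ → ℕ => (x (2 * j), x (2 * j + 1)))
      ((XX (j + 1)).filter fun x' => ∀ i < 2 * j, x' i = a i : Finset (ℕ → ℕ)) := by
    intro x hx x' hx' h
    obtain ⟨h1, h2⟩ := mem_filter.1 (mem_coe.1 hx)
    obtain ⟨h3, h4⟩ := mem_filter.1 (mem_coe.1 hx')
    have h5 : x (2 * j) = x' (2 * j) := congrArg Prod.fst h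
    have h6 : x (2 * j + 1) = x' (2 * j + 1) := congrArg Prod.snd h
    funext s
    by_cases e : s < 2 * j
    · rw [h2 s e, h4 s e]
    · by_cases e1 : s = 2 * j
      · rw [e1, h5]
      · by_cases e2 : s = 2 * j + 1
        · rw [e2, h6]
        · rw [(mem_XX.1 h1).2.1 s (by omega), (mem_XX.1 h3).2.1 s (by omega)]
  calc ∑ x' ∈ XX (j + 1) with ∀ i < 2 * j, x' i = a i, ff (j + 1) x'
      = ∑ x' ∈ XX (j + 1) with ∀ i < 2 * j, x' i = a i,
          (fun q : ℕ × ℕ => cw q.1 * cw q.2) (x' (2 * j), x' (2 * j + 1)) *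
            ∏ i ∈ range (2 * j), cw (a i) := by
        refine sum_congr rfl fun x hx => ?_
        rw [ff, show 2 * (j + 1) = 2 * j + 1 + 1 by ring, prod_range_succ, prod_range_succ,
          prod_congr rfl fun s hs => by rw [(mem_filter.1 hx).2 s (mem_range.1 hs)]]
        ring
    _ ≤ _ := by
        rw [← sum_mul, ← sum_image (f := fun q : ℕ × ℕ => cw q.1 * cw q.2) hinj]
        refine mul_le_mul_of_nonneg_right ((sum_le_sum_of_subset_of_nonneg
          (t := range (Ru j + 1) ×ˢ range (Ru j + 1)) (fun q hq => ?_)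
          fun q _ _ => (mul_pos (cw_pos _) (cw_pos _)).le).trans ?_) h0
        · rw [mem_image] at hq
          obtain ⟨x, hx, hq⟩ := hq
          rw [← hq]
          have h1 := (mem_XX.1 (mem_filter.1 hx).1).1
          have h2 := h1 (2 * j) (by omega)
          have h3 := h1 (2 * j + 1) (by omega)
          rw [show 2 * j / 2 = j by omega] at h2
          rw [show (2 * j + 1) / 2 = j by omega] at h3
          exact mk_mem_product (mem_range.2 (Nat.lt_succ_of_le h2))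
            (mem_range.2 (Nat.lt_succ_of_le h3))
        · have h1 := Lab.sum_cw_le (Ru j + 1)
          have h3 : (1 : ℝ) ≤ Ru j := by exact_mod_cast Ru_pos j
          rw [← cw_eq_tb, sq, sum_mul_sum, ← sum_product'] at h1
          refine h1.trans ?_
          rw [DD]
          push_cast
          linarith

theorem GG_le_next {j : ℕ} (hj : k0 ≤ j) (y : ℕ → ℕ) :
    GG j (j + 1) y ≤ 2 * DD j * Gb (j + 1) := by
  refine (GG_le_D hj y).trans ?_
  have h1 : (yy j : ℝ) ≤ yy (j + 1) := Nat.cast_le.2 (yy_mono (Nat.le_succ j))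
  have h2 := mul_le_mul h1 (Om_le_two j) (Om_pos j).le (Nat.cast_nonneg _)
  have h3 := mul_le_mul_of_nonneg_left h2 (Nat.cast_nonneg (α := ℝ) (DD j))
  rw [Gb, Gb]
  linarith

theorem T3G_two (k g : ℕ) {x y : ℕ → ℕ} (h : ∀ i < 2 * k, y i ≤ x i + 2) :
    gsum (2 * k) g y ≤ gsum (2 * k) g x + 4 * TT g := by
  have h3 := card_group k g
  have h4 : gsum (2 * k) g y ≤ ∑ i ∈ range (2 * k) with gr (i / 2) = g, (x i + 2) :=
    sum_le_sum fun i hi => h i (mem_range.1 (mem_filter.1 hi).1)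
  rw [sum_add_distrib, sum_const, card_group_digit, smul_eq_mul] at h4
  unfold gsum at h4 ⊢
  omega

theorem mem_SS_of_sum {j k : ℕ} (hk : k = j ∨ k = j + 1) {x x' y : ℕ → ℕ} (hx : x ∈ XX j)
    (hx' : x' ∈ XX k) (hy : y ∈ Box (2 * j) DD) (h : ∀ i < 2 * j, y i ≤ x i + x' i + 2) :
    y ∈ SS j := by
  refine mem_SS.2 ⟨hy, fun g => ?_⟩
  have h1 := ((mem_XX.1 hx).2.2 g).1
  have h2 : gsum (2 * j) g x' ≤ RR k g :=
    (Lab.gsum_mono (gr := gr) (by omega) g x').trans ((mem_XX.1 hx').2.2 g).1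
  have h3 : RR k g ≤ RR j g + 32 * bb g := by
    rcases hk with rfl | rfl
    · omega
    · rw [RR, RR, nn_succ, ← mul_add_one]
      refine Nat.mul_le_mul_left _ ?_
      split_ifs <;> omega
  have h4 := T3G_two j g (x := fun i => x i + x' i) h
  unfold gsum at h1 h2 h4 ⊢
  rw [sum_add_distrib] at h4
  omega

theorem T3G_ex {k : ℕ} {y : ℕ → ℕ} (h : Gm k y ≠ 0) :
    ∃ x ∈ XX k, ∃ x' ∈ XM k, ∀ i < 2 * k, x i + x' i = y i := by
  by_contra hc
  refine h ?_
  unfold Gm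
  exact sum_eq_zero fun x hx => sum_eq_zero fun x' hx' => if_neg fun h' => hc ⟨x, hx, x', hx', h'⟩

theorem Gm_supp {k : ℕ} {y : ℕ → ℕ} (hy : y ∈ Box (2 * k) DD) (h : Gm k y ≠ 0) : y ∈ SS k := by
  obtain ⟨x, hx, x', hx', h1⟩ := T3G_ex h
  refine mem_SS_of_sum (Or.inl rfl) hx (mem_XM.1 hx').1 hy fun i hi => ?_
  have := h1 i hi
  omega

theorem Gm_two {k : ℕ} {y : ℕ → ℕ} (h : Gm k y ≠ 0) : ∀ i < 2 * k, 2 ≤ y i := fun i hi => by
  obtain ⟨x, -, x', hx', h1⟩ := T3G_ex h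
  have h2 := h1 i hi
  have h3 := (mem_XM.1 hx').2.1 i hi
  omega

/-- Subtracting carries does not lower the weight. -/
theorem Gm_le_GG {k : ℕ} {y y' : ℕ → ℕ} (h : ∀ i < 2 * k, y' i ≤ y i ∧ y i ≤ y' i + 2) :
    Gm k y ≤ GG k k y' := by
  classical
  refine sum_le_sum fun x _ => ?_
  rw [← sum_filter, ← sum_filter, ← mul_sum, ← mul_sum]
  refine mul_le_mul_of_nonneg_left ?_ (ff_pos _ _).le
  have hinj : Set.InjOn (fun x' : ℕ → ℕ => fun i => x' i - (y i - y' i))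
      ((XM k).filter fun x' => ∀ i < 2 * k, x i + x' i = y i : Finset (ℕ → ℕ)) := by
    intro a ha b hb _
    obtain ⟨h1, h2⟩ := mem_filter.1 (mem_coe.1 ha)
    obtain ⟨h3, h4⟩ := mem_filter.1 (mem_coe.1 hb)
    funext i
    by_cases hi : i < 2 * k
    · have := h2 i hi
      have := h4 i hi
      omega
    · rw [(mem_XX.1 (mem_XM.1 h1).1).2.1 i (by omega), (mem_XX.1 (mem_XM.1 h3).1).2.1 i (by omega)]
  refine le_trans (sum_le_sum fun a _ => ?_) ((sum_image (f := ff k) hinj).symm.trans_le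
    (sum_le_sum_of_subset_of_nonneg (fun b hb => ?_) fun _ _ _ => (ff_pos _ _).le))
  · exact prod_le_prod (fun _ _ => (cw_pos _).le) fun i _ => cw_anti (Nat.sub_le _ _)
  · obtain ⟨a, ha, rfl⟩ := mem_image.1 hb
    obtain ⟨h1, h2⟩ := mem_filter.1 ha
    obtain ⟨h3, h4, h5⟩ := mem_XM.1 h1
    obtain ⟨h6, h7, h8⟩ := mem_XX.1 h3
    refine mem_filter.2 ⟨mem_XX.2 ⟨fun i hi => (Nat.sub_le _ _).trans (h6 i hi),
      fun i hi => by rw [h7 i hi, Nat.zero_sub], fun g => ⟨le_trans ?_ (h8 g).1, ?_⟩⟩,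
      fun i hi => ?_⟩
    · exact sum_le_sum fun i _ => Nat.sub_le _ _
    · have h9 := T3G_two k g (x := fun i => a i - (y i - y' i)) (y := a) fun i hi => by
        have := h i hi
        omega
      have := h5 g
      omega
    · have := h i hi
      have := h2 i hi
      have := h4 i hi
      beta_reduce
      omega

theorem Gm_le_Gb {k : ℕ} (hk : k0 ≤ k) (y : ℕ → ℕ) : Gm k y ≤ Gb k :=
  (Gm_le_GG fun _ _ => ⟨le_rfl, Nat.le_add_right _ _⟩).trans (GG_le_Gb hk y)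

theorem Gm_sum (k : ℕ) : ph k ^ 2 / 4 ≤ ∑ y ∈ Box (2 * k) DD, Gm k y := by
  classical
  have h1 := mass_XM k
  have h2 : ph k / 2 ≤ ∑ x ∈ XX k, ff k x := h1.trans (sum_le_sum_of_subset_of_nonneg
    (fun _ hx => (mem_XM.1 hx).1) fun _ _ _ => (ff_pos _ _).le)
  have h3 := ph_pos k
  have h4 := mul_le_mul h2 h1 (by positivity) (le_trans (by positivity) h2)
  rw [sum_mul_sum] at h4
  refine le_trans (le_of_eq (by ring)) (h4.trans ?_)
  simp only [Gm]
  rw [sum_comm (s := Box (2 * k) DD)]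
  refine sum_le_sum fun x hx => ?_
  rw [sum_comm (s := Box (2 * k) DD)]
  refine sum_le_sum fun x' hx' => ?_
  have h5 : x + x' ∈ Box (2 * k) DD := by
    have hx'' := (mem_XM.1 hx').1
    refine mem_Box.2 ⟨fun i hi => ?_, fun i hi => ?_⟩
    · have := (mem_XX.1 hx).1 i hi
      have := (mem_XX.1 hx'').1 i hi
      have := Ru_pos (i / 2)
      rw [Pi.add_apply, DD]
      omega
    · rw [Pi.add_apply, (mem_XX.1 hx).2.1 i hi, (mem_XX.1 hx'').2.1 i hi]
  refine le_trans (le_of_eq ?_) (single_le_sum (f := fun y : ℕ → ℕ =>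
    if ∀ i < 2 * k, x i + x' i = y i then ff k x * ff k x' else 0)
    (fun _ _ => T3G_term _ _ _ _) h5)
  exact (if_pos fun _ _ => rfl).symm

end Pool.Agent.P.MP_d5a1e1_nt.T3
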