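import Pool.Agent.P.MP_d5a1e1_nt.T3Cells
import Pool.Agent.P.MP_d5a1e1_nt.T3Star

/-! Far pairs: few candidates. -/

namespace Pool.Agent.P.MP_d5a1e1_nt.T3

open Finset TB

variable [Kap] {Pt : ℕ → Finset (ℕ → ℕ)} {ξ : ℕ → ℕ → ℕ → ℕ}

open Classical in
/-- The number of fine points that complete an element of the cell `c` to the sum `n`. -/
noncomputable def NN (Pt : ℕ → Finset (ℕ → ℕ)) (ξ : ℕ → ℕ → ℕ → ℕ) (k n : ℕ) (c : Cell) : ℕ :=
  #{d' ∈ Pt k | ∃ d ∈ Pt c.k, el ξ d c + vl (2 * k) d' = n}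

theorem T3KFa_two (u : ℕ) : 2 * pp u ≤ BB u := by
  have h := Ru_pos u
  unfold BB DD
  exact Nat.mul_le_mul_right _ (by omega)

theorem T3KFa_lt {n : ℕ} {d : ℕ → ℕ} (hd : d ∈ Box n pp) (i : ℕ) : d i < pp (i / 2) := by
  by_cases h : i < n
  · exact (mem_Box.1 hd).1 i h
  · rw [(mem_Box.1 hd).2 i (by omega)]; exact pp_pos _

theorem T3KFa_dig {n : ℕ} {d : ℕ → ℕ} (hd : d ∈ Box n pp) {i : ℕ} (hi : i < n) :
    dig (vl n d) i = d i := by
  have h := dig_vl (n := n) (f := d) (fun s _ => by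
    have h1 := T3KFa_lt hd s
    have h2 := T3KFa_two (s / 2)
    omega) 0 hi
  rwa [mul_zero, add_zero] at h

theorem T3KFa_dvd {m n : ℕ} (h : m ≤ n) : WW m ∣ WW n := by
  induction h with
  | refl => exact dvd_rfl
  | step _ ih => rw [Nat.succ_eq_add_one, WW_succ]; exact ih.mul_right _

theorem T3KFa_high {m a b i : ℕ} (h : a / WW m = b / WW m) (hi : m ≤ i) : dig a i = dig b i := by
  obtain ⟨c, hc⟩ := T3KFa_dvd hi
  unfold dig
  rw [hc, ← Nat.div_div_eq_div_mul, ← Nat.div_div_eq_div_mul, h]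

theorem T3KFa_ext {m n : ℕ} {d : ℕ → ℕ} (hd : d ∈ Box m pp) (h : m ≤ n) : vl n d = vl m d := by
  induction h with
  | refl => rfl
  | step hle ih => rw [Nat.succ_eq_add_one, vl_succ, ih, (mem_Box.1 hd).2 _ hle, mul_zero, add_zero]

theorem NN_le (hF : Fine Pt) {j k : ℕ} (hjk : j < k) (n : ℕ) {c : Cell} (hc : c.k = j) :
    NN Pt ξ k n c ≤ EE k := by
  classical
  subst hc
  unfold NN
  refine hF.far c.k k hjk (dig (n - (vl (2 * c.k) fun s => pp (s / 2) * (ξ c.k c.i s + c.x s)) -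
    WW (2 * c.k) * c.z)) _ fun d' hd' => ?_
  obtain ⟨h1, d, h2, h3⟩ := mem_filter.1 hd'
  have b1 := hF.box _ h1
  have b2 := hF.box _ h2
  have e : n - (vl (2 * c.k) fun s => pp (s / 2) * (ξ c.k c.i s + c.x s)) - WW (2 * c.k) * c.z =
      vl (2 * k) (fun i => d i + d' i) + WW (2 * k) * 0 := by
    rw [vl_add, T3KFa_ext b2 (by omega : 2 * c.k ≤ 2 * k)]
    unfold el at h3
    rw [lo_eq] at h3
    omega
  have hdig : ∀ i < 2 * k, dig (vl (2 * k) (fun i => d i + d' i) + WW (2 * k) * 0) i =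
      d i + d' i := fun i hi => dig_vl (fun s _ => by
        have := T3KFa_lt b1 s
        have := T3KFa_lt b2 s
        have := T3KFa_two (s / 2)
        omega) 0 hi
  rw [e]
  refine ⟨h1, ⟨d, h2, fun i hi => (hdig i (by omega)).symm⟩, fun u u1 u2 => ?_⟩
  rw [hdig _ (by omega), (mem_Box.1 b2).2 _ (by omega), zero_add]

/-- The digits below `2 j` and the quotient of a far sum. -/
theorem T3KFa_split {j k n₀ z : ℕ} (hjk : j + 2 ≤ k) {d d' : ℕ → ℕ} (b2 : d ∈ Box (2 * j) pp)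
    (b1 : d' ∈ Box (2 * k) pp) (h : vl (2 * j) d + WW (2 * j) * z + vl (2 * k) d' = n₀) :
    (∀ i < 2 * j, d i + d' i = dig n₀ i) ∧
      n₀ / WW (2 * j) = z + d' (2 * j) + BB j * d' (2 * j + 1) + BB j ^ 2 * d' (2 * j + 2) +
        BB j ^ 2 * BB (j + 1) * (vl (2 * k) d' / WW (2 * j + 3)) := by
  have h1 := vl_dig (2 * j + 3) (vl (2 * k) d')
  rw [vl_congr (g := d') (fun i hi => T3KFa_dig b1 (by omega)), vl_succ, vl_succ, vl_succ] at h1
  set e := vl (2 * k) d' / WW (2 * j + 3)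
  rw [WW_odd, show 2 * j + 1 + 1 = 2 * j + 2 from rfl, WW_even, WW_three] at h1
  have h2 : n₀ = vl (2 * j) (fun i => d i + d' i) + WW (2 * j) * (z + d' (2 * j) +
      BB j * d' (2 * j + 1) + BB j ^ 2 * d' (2 * j + 2) + BB j ^ 2 * BB (j + 1) * e) := by
    rw [vl_add, ← h, ← h1]; ring
  have hb : ∀ s < 2 * j, d s + d' s < BB (s / 2) := fun s _ => by
    have := T3KFa_lt b1 s
    have := T3KFa_lt b2 s
    have := T3KFa_two (s / 2)
    omega
  rw [h2]
  exact ⟨fun i hi => (dig_vl hb _ hi).symm, div_vl hb _⟩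

theorem T3KFa_mid {B N z a b c : ℕ} (hB : 0 < B) (h : N = z + a + B * b + B ^ 2 * c) :
    N / B % B = (z / B % B + (z % B + a) / B + b) % B := by
  have h1 : N = z % B + a + B * (z / B + b + B * c) := by
    have := Nat.mod_add_div z B
    rw [h, mul_add, mul_add, ← mul_assoc, ← pow_two]; omega
  rw [h1, Nat.add_mul_div_left _ _ hB, ← add_assoc, Nat.add_mul_mod_self_left]
  have h2 : z / B % B + (z % B + a) / B + b ≡ z / B + (z % B + a) / B + b [MOD B] :=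
    ((Nat.mod_modEq _ _).add_right _).add_right _
  rw [h2]
  congr 1
  omega

theorem T3KFa_top {B B' N z a b c e : ℕ} (ha : a < B) (hb : b < B) (hc : c < B')
    (hz : z < 5 * B ^ 2 * B') (h : N = z + a + B * b + B ^ 2 * c + B ^ 2 * B' * e) :
    e ≤ N / (B ^ 2 * B') ∧ N / (B ^ 2 * B') < e + 6 := by
  have hp : 0 < B ^ 2 * B' := Nat.mul_pos (pow_pos (by omega) 2) (by omega)
  constructor
  · rw [Nat.le_div_iff_mul_le hp, mul_comm]; omega
  · rw [Nat.div_lt_iff_lt_mul hp]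
    have h1 : B * (b + 1) ≤ B * B := Nat.mul_le_mul_left B hb
    have h2 : B ^ 2 * (c + 1) ≤ B ^ 2 * B' := Nat.mul_le_mul_left _ hc
    have h3 : (e + 6) * (B ^ 2 * B') = B ^ 2 * B' * e + 5 * B ^ 2 * B' + B ^ 2 * B' := by ring
    rw [mul_add, mul_one, ← pow_two] at h1
    rw [mul_add, mul_one] at h2
    omega

theorem NN_sum (hF : Fine Pt) {j k : ℕ} (hjk : j + 2 ≤ k) (n i η : ℕ) (x : ℕ → ℕ) :
    ∑ z ∈ Ico (BB j) (ZZ j), cw z * NN Pt ξ k n ⟨j, i, η, x, z⟩ ≤ 36 * EE k := by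
  classical
  set n₀ := n - vl (2 * j) fun s => pp (s / 2) * (ξ j i s + x s) with hn₀
  set S := {q ∈ Ico (BB j) (ZZ j) ×ˢ Pt k |
    ∃ d ∈ Pt j, el ξ d ⟨j, i, η, x, q.1⟩ + vl (2 * k) q.2 = n} with hS
  have hB := BB_pos j
  have e1 : ∑ z ∈ Ico (BB j) (ZZ j), cw z * NN Pt ξ k n ⟨j, i, η, x, z⟩ = ∑ q ∈ S, cw q.1 := by
    rw [hS, sum_filter, sum_product]
    refine sum_congr rfl fun z _ => ?_
    rw [← sum_filter]
    dsimp only
    rw [sum_const, nsmul_eq_mul, mul_comm]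
    unfold NN
    congr 2
  have fact : ∀ q ∈ S, BB j ≤ q.1 ∧ q.1 < ZZ j ∧ q.2 ∈ Pt k ∧
      (∃ d ∈ Pt j, ∀ s < 2 * j, d s + q.2 s = dig n₀ s) ∧
      n₀ / WW (2 * j) = q.1 + q.2 (2 * j) + BB j * q.2 (2 * j + 1) + BB j ^ 2 * q.2 (2 * j + 2) +
        BB j ^ 2 * BB (j + 1) * (vl (2 * k) q.2 / WW (2 * j + 3)) := by
    intro q hq
    obtain ⟨h1, d, h2, h3⟩ := mem_filter.1 hq
    obtain ⟨h4, h5⟩ := mem_product.1 h1
    unfold el at h3
    rw [lo_eq] at h3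
    have h6 := T3KFa_split (n₀ := n₀) (z := q.1) hjk (hF.box _ h2) (hF.box _ h5) (by
      simp only at h3
      omega)
    exact ⟨(mem_Ico.1 h4).1, (mem_Ico.1 h4).2, h5, ⟨d, h2, h6.1⟩, h6.2⟩
  have small : ∀ q ∈ S, q.2 (2 * j) < BB j ∧ q.2 (2 * j + 1) < BB j ∧
      q.2 (2 * j + 2) < BB (j + 1) := by
    intro q hq
    have hb := hF.box _ (fact q hq).2.2.1
    have a0 := T3KFa_lt hb (2 * j)
    have a1 := T3KFa_lt hb (2 * j + 1)
    have a2 := T3KFa_lt hb (2 * j + 2)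
    rw [show 2 * j / 2 = j by omega] at a0
    rw [show (2 * j + 1) / 2 = j by omega] at a1
    rw [show (2 * j + 2) / 2 = j + 1 by omega] at a2
    have := T3KFa_two j
    have := T3KFa_two (j + 1)
    omega
  have top : ∀ q ∈ S, vl (2 * k) q.2 / WW (2 * j + 3) ≤ n₀ / WW (2 * j) / (BB j ^ 2 * BB (j + 1)) ∧
      n₀ / WW (2 * j) / (BB j ^ 2 * BB (j + 1)) < vl (2 * k) q.2 / WW (2 * j + 3) + 6 := by
    intro q hq
    obtain ⟨a0, a1, a2⟩ := small q hq
    exact T3KFa_top a0 a1 a2 (fact q hq).2.1 (fact q hq).2.2.2.2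
  have mid : ∀ q ∈ S, n₀ / WW (2 * j) / BB j % BB j =
      (q.1 / BB j % BB j + (q.1 % BB j + q.2 (2 * j)) / BB j + q.2 (2 * j + 1)) % BB j := by
    intro q hq
    refine T3KFa_mid (c := q.2 (2 * j + 2) + BB (j + 1) * (vl (2 * k) q.2 / WW (2 * j + 3))) hB ?_
    rw [(fact q hq).2.2.2.2]; ring
  set key : ℕ × (ℕ → ℕ) → ℕ × ℕ × ℕ := fun q => (q.1 / BB j % BB j,
    (q.1 % BB j + q.2 (2 * j)) / BB j,
    n₀ / WW (2 * j) / (BB j ^ 2 * BB (j + 1)) - vl (2 * k) q.2 / WW (2 * j + 3)) with hkey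
  have maps : ∀ q ∈ S, key q ∈ range (BB j) ×ˢ range 2 ×ˢ range 6 := by
    intro q hq
    have a0 := (small q hq).1
    have a1 := Nat.mod_lt q.1 hB
    have a2 := top q hq
    simp only [hkey, mem_product, mem_range]
    exact ⟨Nat.mod_lt _ hB, (Nat.div_lt_iff_lt_mul hB).2 (by omega), by omega⟩
  have cnt : ∀ κ, #{q ∈ S | key q = κ} ≤ EE k := by
    intro κ
    rcases ({q ∈ S | key q = κ} : Finset _).eq_empty_or_nonempty with h0 | ⟨q₀, hq₀⟩
    · rw [h0]; exact Nat.zero_le _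
    obtain ⟨s₀, k₀⟩ := mem_filter.1 hq₀
    rw [← card_image_of_injOn (f := Prod.snd) (fun q hq q' hq' e => by
      have f1 := (fact q (mem_filter.1 hq).1).2.2.2.2
      have f2 := (fact q' (mem_filter.1 hq').1).2.2.2.2
      rw [e] at f1
      exact Prod.ext (by omega) e)]
    refine hF.far j k (by omega) (fun s => if s < 2 * j then dig n₀ s else q₀.2 s) _ fun d' hd' => ?_
    obtain ⟨q, hq, rfl⟩ := mem_image.1 hd'
    obtain ⟨s₁, k₁⟩ := mem_filter.1 hq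
    obtain ⟨-, -, f3, ⟨d, f4, f5⟩, -⟩ := fact q s₁
    refine ⟨f3, ⟨d, f4, fun s hs => by rw [if_pos hs]; exact f5 s hs⟩, fun u u1 u2 => ?_⟩
    rw [if_neg (by omega)]
    have ek := k₁.trans k₀.symm
    simp only [hkey, Prod.mk.injEq] at ek
    obtain ⟨e1, e2, e3⟩ := ek
    rcases u1.eq_or_lt with rfl | hu
    · have m1 := (mid q s₁).symm.trans (mid q₀ s₀)
      rw [e1, e2] at m1
      exact Nat.ModEq.eq_of_lt_of_lt (Nat.ModEq.add_left_cancel' _ m1) (small q s₁).2.1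
        (small q₀ s₀).2.1
    · have t1 := top q s₁
      have t0 := top q₀ s₀
      rw [← T3KFa_dig (hF.box _ f3) (by omega : 2 * u + 1 < 2 * k),
        ← T3KFa_dig (hF.box _ (fact q₀ s₀).2.2.1) (by omega : 2 * u + 1 < 2 * k)]
      exact T3KFa_high (m := 2 * j + 3) (by omega) (by omega)
  have wt : ∀ κ, ∀ q ∈ {q ∈ S | key q = κ},
      cw q.1 ≤ 1 / √((BB j : ℝ) * (max 1 κ.1 : ℕ)) := by
    intro κ q hq
    obtain ⟨s₁, k₁⟩ := mem_filter.1 hq
    have f1 := (fact q s₁).1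
    refine cw_le_sqrt (by
      have : 0 < BB j * max 1 κ.1 := Nat.mul_pos hB (by omega)
      exact_mod_cast this) ?_
    have a1 : κ.1 ≤ q.1 / BB j := by rw [← k₁]; exact Nat.mod_le _ _
    have a2 : 1 ≤ q.1 / BB j := (Nat.le_div_iff_mul_le hB).2 (by omega)
    have a3 : BB j * max 1 κ.1 ≤ q.1 :=
      (Nat.mul_le_mul_left _ (max_le a2 a1)).trans (Nat.mul_div_le _ _)
    exact_mod_cast a3
  rw [e1, ← sum_fiberwise_of_maps_to maps]
  calc _ ≤ ∑ κ ∈ range (BB j) ×ˢ range 2 ×ˢ range 6,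
        (EE k : ℝ) * (1 / √((BB j : ℝ) * (max 1 κ.1 : ℕ))) := by
        refine sum_le_sum fun κ _ => (sum_le_card_nsmul _ _ _ (wt κ)).trans ?_
        rw [nsmul_eq_mul]
        exact mul_le_mul_of_nonneg_right (by exact_mod_cast cnt κ) (by positivity)
    _ = 12 * EE k * ∑ t ∈ range (BB j), 1 / √((BB j : ℝ) * (max 1 t : ℕ)) := by
        rw [sum_product, mul_sum]
        refine sum_congr rfl fun t _ => ?_
        simp only [sum_const, card_product, card_range, nsmul_eq_mul]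
        push_cast
        ring
    _ ≤ 12 * EE k * 3 := mul_le_mul_of_nonneg_left (sum_far _ hB) (by positivity)
    _ = 36 * EE k := by ring

open Classical in
/-- The same count, for the elements that carry the hash value of the cell. -/
noncomputable def NH (Pt : ℕ → Finset (ℕ → ℕ)) (ξ : ℕ → ℕ → ℕ → ℕ) (f : (ℕ → ℕ) → ℕ) (k n : ℕ)
    (c : Cell) : ℕ :=
  #{d' ∈ Pt k | ∃ d ∈ Pt c.k, c.η = f (tr (2 * c.k - 2) d) ∧ el ξ d c + vl (2 * k) d' = n}

theorem NH_le (f : (ℕ → ℕ) → ℕ) (k n : ℕ) (c : Cell) : NH Pt ξ f k n c ≤ NN Pt ξ k n c := by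
  classical
  refine card_le_card fun d' hd' => ?_
  obtain ⟨h1, d, h2, -, h3⟩ := mem_filter.1 hd'
  exact mem_filter.2 ⟨h1, d, h2, h3⟩

theorem NH_sum (hF : Fine Pt) (f : (ℕ → ℕ) → ℕ) (H j k n i z : ℕ) (x : ℕ → ℕ) :
    ∑ η ∈ range H, NH Pt ξ f k n ⟨j, i, η, x, z⟩ ≤ NN Pt ξ k n ⟨j, i, 0, x, z⟩ := by
  classical
  unfold NH
  rw [← card_biUnion]
  · refine card_le_card fun d' hd' => ?_
    obtain ⟨η, -, h0⟩ := mem_biUnion.1 hd'
    obtain ⟨h1, d, h2, -, h3⟩ := mem_filter.1 h0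
    exact mem_filter.2 ⟨h1, d, h2, h3⟩
  · intro η _ η' _ hne
    refine disjoint_left.2 fun d' h0 h0' => hne ?_
    obtain ⟨-, d, h2, h3, h4⟩ := mem_filter.1 h0
    obtain ⟨-, e, h5, h6, h7⟩ := mem_filter.1 h0'
    unfold el at h4 h7
    rw [lo_eq] at h4 h7
    dsimp only at h2 h3 h4 h5 h6 h7
    have h8 : vl (2 * j) d = vl (2 * j) e := by omega
    have h9 : d = e := Box_ext (hF.box _ h2) (hF.box _ h5) fun s hs => by
      rw [← T3KFa_dig (hF.box _ h2) hs, h8, T3KFa_dig (hF.box _ h5) hs]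
    rw [h3, h6, h9]

theorem T3KFb_EE (k : ℕ) : (0 : ℝ) < EE k := by
  have : 0 < EE k := by unfold EE; positivity
  exact_mod_cast this

theorem T3KFb_mean (hF : Fine Pt) (f : (ℕ → ℕ) → ℕ) {j k : ℕ} (hj : k0 ≤ j) (hjk : j + 2 ≤ k)
    (n : ℕ) :
    ∑ c ∈ cells j, qq c * ((NH Pt ξ f k n c : ℝ) / EE k) ≤ 36 * 2 ^ yy j ^ (2 * ka + 1) := by
  have hE := T3KFb_EE k
  have hw : ∀ c, (0 : ℝ) ≤ (NH Pt ξ f k n c : ℝ) / EE k := fun c => by positivity
  have hz : ∀ i x, ∑ η ∈ range (HH j), ∑ z ∈ Ico (BB j) (ZZ j),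
      qq ⟨j, i, η, x, z⟩ * ((NH Pt ξ f k n ⟨j, i, η, x, z⟩ : ℝ) / EE k) ≤ rho j * 36 := by
    intro i x
    have h1 := NN_sum (ξ := ξ) hF hjk n i 0 x
    rw [sum_comm]
    calc _ ≤ ∑ z ∈ Ico (BB j) (ZZ j),
          (rho j : ℝ) / EE k * (cw z * NN Pt ξ k n ⟨j, i, 0, x, z⟩) := by
          refine sum_le_sum fun z _ => ?_
          have h3 : ∑ η ∈ range (HH j), (NH Pt ξ f k n ⟨j, i, η, x, z⟩ : ℝ) ≤
              NN Pt ξ k n ⟨j, i, 0, x, z⟩ := by exact_mod_cast NH_sum hF f (HH j) j k n i z x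
          refine le_trans (sum_le_sum fun η _ => ?_) ((mul_sum _ _ _).symm.trans_le
            (mul_le_mul_of_nonneg_left ((mul_sum _ _ _).symm.trans_le
              (mul_le_mul_of_nonneg_left h3 (cw_pos z).le)) (by positivity)))
          have h2 : qq ⟨j, i, η, x, z⟩ ≤ rho j * cw z :=
            (qq_le _).trans (mul_le_mul_of_nonneg_right
              (mul_le_of_le_one_right (Nat.cast_nonneg _) (ff_le_one j x)) (cw_pos z).le)
          refine (mul_le_mul_of_nonneg_right h2 (hw _)).trans (le_of_eq ?_)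
          ring
      _ ≤ (rho j : ℝ) / EE k * (36 * EE k) := by
          rw [← mul_sum]
          exact mul_le_mul_of_nonneg_left h1 (by positivity)
      _ = rho j * 36 := by field_simp
  have hm : ((mm j : ℝ) * (XX j).card * rho j) ≤ 2 ^ yy j ^ (2 * ka + 1) := by
    exact_mod_cast mm_XX_le hj
  unfold cells
  refine (sum_image_le_of_nonneg fun c _ => mul_nonneg (qq_nonneg c) (hw c)).trans ?_
  rw [sum_product]
  calc _ ≤ ∑ _i ∈ range (mm j), ∑ _x ∈ XX j, (rho j : ℝ) * 36 := by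
        refine sum_le_sum fun i _ => ?_
        rw [sum_product]
        simp only [sum_product]
        rw [sum_comm]
        exact sum_le_sum fun x _ => hz i x
    _ = 36 * ((mm j : ℝ) * (XX j).card * rho j) := by
        simp only [sum_const, card_range, nsmul_eq_mul]
        ring
    _ ≤ _ := mul_le_mul_of_nonneg_left hm (by positivity)

theorem T3KFb_sg (k : ℕ) : 5 ≤ sg k := by
  have h := yy_ge k
  have h1 : yy k ^ 3 ≤ sg k := Nat.pow_le_pow_right (by omega) (by omega)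
  exact le_trans (by norm_num) ((Nat.pow_le_pow_left h 3).trans h1)

theorem T3KFb_num {k : ℕ} (hk : 2 ≤ k) :
    ((2 * WW (2 * k) : ℕ) : ℝ) * Real.exp (-(5 * k * sg k : ℕ)) ≤ 1 / 2 ^ (2 * k + 4) := by
  have h1 : ((2 * WW (2 * k) : ℕ) : ℝ) ≤ 2 ^ (4 * k * sg k + 1) := by
    have := WW_le k
    have h : 2 * WW (2 * k) ≤ 2 ^ (4 * k * sg k + 1) := by rw [pow_succ]; omega
    exact_mod_cast h
  have h2 : ∀ N : ℕ, Real.exp (-(N : ℝ)) ≤ 1 / 2 ^ N := fun N => by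
    rw [Real.exp_neg, one_div]
    refine inv_anti₀ (by positivity) ?_
    rw [← Real.exp_one_pow]
    exact pow_le_pow_left₀ (by norm_num) (by linarith [Real.add_one_le_exp (1 : ℝ)]) N
  have h3 : 4 * k * sg k + 1 + (2 * k + 4) ≤ 5 * k * sg k := by
    have := Nat.mul_le_mul_left k (T3KFb_sg k)
    nlinarith
  refine (mul_le_mul h1 (h2 _) (Real.exp_pos _).le (by positivity)).trans ?_
  rw [mul_one_div, div_le_div_iff₀ (by positivity) (by positivity), one_mul, ← pow_add]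
  exact pow_le_pow_right₀ (by norm_num) h3

theorem pr_KF (hF : Fine Pt) (f : ℕ → (ℕ → ℕ) → ℕ) {j k : ℕ} (hj : k0 ≤ j) (hjk : j + 2 ≤ k)
    (S : Finset Cell) :
    pr S qq (fun A => ¬KF Pt ξ (A : Set Cell) f j k) ≤ 1 / 2 ^ (2 * k + 4) := by
  classical
  have hE := T3KFb_EE k
  refine le_trans (pr_mono qq_nonneg qq_le_one (E' := fun A => ∃ n ∈ range (2 * WW (2 * k)),
    ((72 * 2 ^ yy j ^ (2 * ka + 1) + 5 * k * sg k : ℕ) : ℝ) ≤
      ∑ c ∈ cells j with c ∈ A, (NH Pt ξ (f j) k n c : ℝ) / EE k) ?_)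
    ((pr_exists_le qq_nonneg qq_le_one _ _).trans ?_)
  · intro A _ h
    unfold KF at h
    push Not at h
    obtain ⟨n, hn, Z, hZ, hlt⟩ := h
    refine ⟨n, mem_range.2 hn, ?_⟩
    have hsub : Z ⊆ ((cells j).filter (· ∈ A)).biUnion fun c =>
        (Pt k).filter fun d' => ∃ d ∈ Pt c.k, c.η = f j (tr (2 * c.k - 2) d) ∧
          el ξ d c + vl (2 * k) d' = n := by
      intro d' hd'
      obtain ⟨h1, d, hd, c, hcA, hc, hη, he⟩ := hZ d' hd'
      exact mem_biUnion.2 ⟨c, mem_filter.2 ⟨hc, hcA⟩,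
        mem_filter.2 ⟨h1, d, (mem_cells.1 hc).1.symm ▸ hd, (mem_cells.1 hc).1.symm ▸ hη, he⟩⟩
    have hc : Z.card ≤ ∑ c ∈ cells j with c ∈ A, NH Pt ξ (f j) k n c :=
      (card_le_card hsub).trans card_biUnion_le
    rw [← sum_div, le_div_iff₀ hE, ← Nat.cast_sum, ← Nat.cast_mul, Nat.cast_le, mul_comm]
    exact hlt.le.trans hc
  · refine le_trans (sum_le_sum fun n _ => pr_wsum qq_nonneg qq_le_one (cells j)
      (fun c => (NH Pt ξ (f j) k n c : ℝ) / EE k) (fun c _ => by positivity)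
      (fun c hc => (div_le_one hE).2 (by
        exact_mod_cast (NH_le _ _ _ _).trans (NN_le hF (by omega : j < k) n (mem_cells.1 hc).1)))
      (T3KFb_mean hF (f j) hj hjk n) _) ?_
    rw [sum_const, card_range, nsmul_eq_mul]
    refine le_trans (le_of_eq ?_) (T3KFb_num (k := k) (by omega))
    congr 2
    push_cast
    ring

end Pool.Agent.P.MP_d5a1e1_nt.T3
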