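import Pool.Agent.P.MP_d5a1e1_nt.T3G
import Pool.Agent.P.MP_d5a1e1_nt.T3Seq

/-! The choice of the types. -/

namespace Pool.Agent.P.MP_d5a1e1_nt.T3

open Finset TB

theorem T3TypAa_dens {S φ Δ m a c O Y r B : ℝ} (hS : 0 ≤ S) (hφ : 0 ≤ φ) (hm : 0 ≤ m)
    (ha : 0 ≤ a) (hr : 0 ≤ r) (hY : 0 ≤ Y) (hΔ : 0 ≤ Δ) (h1 : S * O ≤ r * φ ^ 2) (h2 : φ * B ≤ Δ)
    (h3 : m * φ ≤ c * Δ) (h4 : 1 ≤ Y * O) (h5 : c * a * r * Y ≤ B) : m * a * S ≤ Δ ^ 2 :=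
  calc m * a * S ≤ m * a * S * (Y * O) := le_mul_of_one_le_right (by positivity) h4
    _ = m * a * Y * (S * O) := by ring
    _ ≤ m * a * Y * (r * φ ^ 2) := by gcongr
    _ = a * r * Y * φ * (m * φ) := by ring
    _ ≤ a * r * Y * φ * (c * Δ) := by gcongr
    _ = c * a * r * Y * (φ * Δ) := by ring
    _ ≤ B * (φ * Δ) := by gcongr
    _ = φ * B * Δ := by ring
    _ ≤ Δ * Δ := by gcongr
    _ = Δ ^ 2 := by ring

theorem T3TypAa_list {S φ Δ m m' c c' O r B : ℝ} (hφ : 0 ≤ φ) (hm : 0 ≤ m) (hm' : 0 ≤ m')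
    (hr : 0 ≤ r) (hO : 0 < O) (hΔ : 0 < Δ) (h1 : S * O ≤ r * φ ^ 2) (h2 : m * φ ≤ c * Δ)
    (h3 : m' * φ ≤ c' * Δ) (h4 : c * c' ≤ B * O) : m * m' * S / Δ ^ 2 ≤ r * B := by
  rw [div_le_iff₀ (by positivity)]
  refine le_of_mul_le_mul_right ?_ hO
  calc m * m' * S * O = m * m' * (S * O) := by ring
    _ ≤ m * m' * (r * φ ^ 2) := by gcongr
    _ = r * ((m * φ) * (m' * φ)) := by ring
    _ ≤ r * ((c * Δ) * (c' * Δ)) := mul_le_mul_of_nonneg_left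
        (mul_le_mul h2 h3 (by positivity) (le_trans (by positivity) h2)) hr
    _ = r * Δ ^ 2 * (c * c') := by ring
    _ ≤ r * Δ ^ 2 * (B * O) := by gcongr
    _ = _ := by ring

theorem T3TypAb_pairs (f : ℕ → ℕ → ℝ) (hf : ∀ a b, f a b = f b a) (m : ℕ) :
    ∑ q ∈ range m ×ˢ range m, f q.1 q.2 =
      2 * ∑ i' ∈ range m, ∑ i ∈ range i', f i i' + ∑ i ∈ range m, f i i := by
  rw [sum_product']
  induction m with
  | zero => simp
  | succ m ih =>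
    simp only [sum_range_succ, sum_add_distrib, ih]
    rw [sum_congr rfl fun b _ => hf m b]
    ring

theorem T3TypAb_le {α : Type*} (s : Finset α) (P : α → Prop) [DecidablePred P] (F : α → ℝ)
    (h1 : ∀ i ∈ s, F i ≤ 1) (h2 : ∀ i ∈ s, F i ≠ 0 → P i) : ∑ i ∈ s, F i ≤ #{i ∈ s | P i} := by
  rw [← sum_boole]
  refine sum_le_sum fun i hi => ?_
  split_ifs with h
  · exact h1 i hi
  · exact le_of_eq (by_contra fun h3 => h (h2 i hi h3))

theorem T3TypAb_low {D φ m l S : ℝ} (hD : 0 < D) (hl : 0 ≤ l) (hm : 2 ≤ m)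
    (h : l * D ≤ m * φ) (hS : φ ^ 2 / 4 ≤ S) : l ^ 2 / 8 ≤ S / D ^ 2 * (m * (m - 1)) := by
  rw [div_mul_eq_mul_div S, le_div_iff₀ (by positivity)]
  have h1 : (l * D) ^ 2 ≤ (m * φ) ^ 2 := pow_le_pow_left₀ (by positivity) h 2
  have h2 : φ ^ 2 / 4 * (m * m / 2) ≤ S * (m * (m - 1)) :=
    mul_le_mul hS (by nlinarith) (by positivity) (le_trans (by positivity) hS)
  nlinarith

theorem T3TypA_rec {α : Type} (K : ℕ) (O : ℕ → α → Prop) (C : ℕ → α → α → Prop) {a : α}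
    (h₀ : O K a) (h : ∀ j x, ∃ x', K ≤ j → O j x → O (j + 1) x' ∧ C j x x') :
    ∃ t : ℕ → α, ∀ k, K ≤ k → O k (t k) ∧ C k (t k) (t (k + 1)) := by
  choose F hF using h
  let s : ℕ → α := fun n => Nat.rec a (fun n x => F (K + n) x) n
  have hs : ∀ n, O (K + n) (s n) := by
    intro n
    induction n with
    | zero => exact h₀
    | succ n ih => exact (hF (K + n) (s n) (Nat.le_add_right _ _) ih).1
  have hc : ∀ n, C (K + n) (s n) (s (n + 1)) := fun n =>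
    (hF (K + n) (s n) (Nat.le_add_right _ _) (hs n)).2
  refine ⟨fun k => s (k - K), fun k hk => ⟨?_, ?_⟩⟩
  · have := hs (k - K)
    rwa [Nat.add_sub_cancel' hk] at this
  · have := hc (k - K)
    rwa [Nat.add_sub_cancel' hk, ← Nat.sub_add_comm hk] at this

variable [Kap]

/-- The properties of the types of one state. -/
structure Own (k : ℕ) (ξ : ℕ → ℕ → ℕ) : Prop where
  box : ∀ i < mm k, ξ i ∈ Box (2 * k) DD
  deg : ∀ j, k = j ∨ k = j + 1 → ∀ g ∈ Box (2 * j) DD, ∀ ξ₀ : ℕ → ℕ,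
    (∀ s < 2 * j, ξ₀ s < DD (s / 2)) → #{i ∈ range (mm k) | ym j g ξ₀ (ξ i) ∈ SS j} ≤ yy k
  list : ∀ g ∈ Box (2 * k) DD,
    #{q ∈ range (mm k) ×ˢ range (mm k) | ym k g (ξ q.1) (ξ q.2) ∈ SS k} ≤ Lam k
  low : ∀ g ∈ Box (2 * k) DD, lam k ^ 2 / 64 ≤
    ∑ q ∈ range (mm k) ×ˢ range (mm k), Gm k (ym k g (ξ q.1) (ξ q.2))

/-- The properties of the types of two consecutive states; `m` old types are used. -/
def Cross (j m : ℕ) (ξ ξ' : ℕ → ℕ → ℕ) : Prop :=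
  ∀ g ∈ Box (2 * j) DD,
    #{q ∈ range m ×ˢ range (mm (j + 1)) | ym j g (ξ q.1) (ξ' q.2) ∈ SS j} ≤ Lam (j + 1)

theorem T3TypAa_k {k : ℕ} (hk : k0 ≤ k) : 32768 * (ka * LL k) ≤ k := by
  have h1 : yy k ≤ yy k ^ (2 * ka - 1) := Nat.le_self_pow (by have := ka_big; omega) _
  rw [← mul_assoc]
  exact (yy_big' hk).trans (h1.trans (yy_le hk))

theorem T3TypAa_L (k : ℕ) : LL k ≤ ka * LL k :=
  Nat.le_mul_of_pos_left _ (by have := ka_big; omega)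

theorem T3TypAa_lt (k : ℕ) : k ≤ yy k ^ (2 * ka) := by
  rw [← tau_eq]
  exact (lt_tau k).le

theorem T3TypAa_mm {j : ℕ} (hk : k0 ≤ j + 1) :
    (mm (j + 1) : ℝ) * ph j ≤ 32 * ga (gr j) * lam (j + 1) * Del j := by
  have h1 := mm_le (hk.trans (Nat.le_succ _))
  have h2 := ph_succ j
  have h3 : (0 : ℝ) < DD j := by exact_mod_cast DD_pos j
  rw [Del_succ] at h1
  push_cast at h1
  refine le_of_mul_le_mul_left ?_ h3
  calc (DD j : ℝ) * (mm (j + 1) * ph j) = mm (j + 1) * (DD j * ph j) := by ring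
    _ ≤ mm (j + 1) * (16 * ga (gr j) * ph (j + 1)) := by gcongr
    _ = 16 * ga (gr j) * (mm (j + 1) * ph (j + 1)) := by ring
    _ ≤ 16 * ga (gr j) * (2 * lam (j + 1) * (Del j * DD j)) := by gcongr
    _ = DD j * (32 * ga (gr j) * lam (j + 1) * Del j) := by ring

theorem T3TypAa_ga {j : ℕ} (hk : k0 ≤ j + 1) : 256 * ga (gr j) ≤ yy (j + 1) :=
  (Nat.mul_le_mul_left _ (ga_mono (gr_mono (Nat.le_succ j)))).trans (ga_small hk)

theorem T3TypAa_Del (k : ℕ) : Del k ^ 2 ≤ 2 ^ (40 * (ka * LL k) * k) := by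
  have h1 : Del k ≤ (2 ^ (20 * ka * LL k)) ^ k := by
    have h2 := Finset.prod_le_pow_card (range k) DD (2 ^ (20 * ka * LL k)) fun u hu =>
      (DD_mono (mem_range.1 hu).le).trans (DD_le k)
    rwa [card_range] at h2
  calc Del k ^ 2 ≤ ((2 ^ (20 * ka * LL k)) ^ k) ^ 2 := Nat.pow_le_pow_left h1 2
    _ = 2 ^ (40 * (ka * LL k) * k) := by
      rw [← pow_mul, ← pow_mul]
      congr 1
      ring

theorem dens_down {j : ℕ} (hk : k0 ≤ j + 1) :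
    (mm (j + 1) : ℝ) * 2 ^ ((j + 1) / 4) * (SS j).card ≤ (Del j : ℝ) ^ 2 := by
  refine T3TypAa_dens (by positivity) (ph_pos j).le (by positivity) (by positivity)
    (by positivity) (by positivity) (by positivity) (card_SS_rat j) (ph_le8 j) (T3TypAa_mm hk)
    (Om_ge j) ?_
  have h1 := T3TypAa_k hk
  have h2 := T3TypAa_L (j + 1)
  have h0 := LL_pos (j + 1)
  have h3 : 32 * ga (gr j) * yy (j + 1) ^ (ka + 2) * 2 ^ ((j + 1) / 4) * yy j ^ 2 *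
      yy j ^ (3 * ka + 1) ≤ 8 ^ j :=
    calc _ ≤ yy (j + 1) * yy (j + 1) ^ (ka + 2) * 2 ^ ((j + 1) / 4) * yy (j + 1) ^ 2 *
          yy (j + 1) ^ (3 * ka + 1) := by
          have h4 := T3TypAa_ga hk
          have h5 := yy_mono (Nat.le_succ j)
          gcongr
          omega
      _ = yy (j + 1) ^ (4 * ka + 6) * 2 ^ ((j + 1) / 4) := by ring
      _ = 2 ^ (4 * (ka * LL (j + 1)) + 6 * LL (j + 1) + (j + 1) / 4) := by
          rw [yy, ← pow_mul, ← pow_add]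
          congr 1
          ring
      _ ≤ 2 ^ (3 * j) := Nat.pow_le_pow_right (by norm_num) (by omega)
      _ = 8 ^ j := by
          rw [pow_mul]
          rfl
  refine le_trans ?_ (by exact_mod_cast h3 : 32 * (ga (gr j) : ℝ) * (yy (j + 1) : ℝ) ^ (ka + 2) *
    2 ^ ((j + 1) / 4) * (yy j : ℝ) ^ 2 * (yy j : ℝ) ^ (3 * ka + 1) ≤ 8 ^ j)
  have := lam_le (j + 1)
  gcongr

theorem dens_diag {k : ℕ} (hk : k0 ≤ k) :
    (mm k : ℝ) * 2 ^ (k / 4) * (4 ^ k * (SS k).card) ≤ (Del k : ℝ) ^ 2 := by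
  have h0 := T3TypAa_dens (a := 2 ^ (k / 4) * 4 ^ k) (by positivity) (ph_pos k).le (by positivity)
    (by positivity) (by positivity) (by positivity) (by positivity) (card_SS_rat k) (ph_le8 k)
    (mm_le (hk.trans (Nat.le_succ k))) (Om_ge k) ?_
  · calc (mm k : ℝ) * 2 ^ (k / 4) * (4 ^ k * (SS k).card)
        = mm k * (2 ^ (k / 4) * 4 ^ k) * (SS k).card := by ring
      _ ≤ _ := h0
  have h1 := T3TypAa_k hk
  have h2 := T3TypAa_L k
  have h4 := LL_pos k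
  have h3 : 2 * yy k ^ (ka + 2) * (2 ^ (k / 4) * 4 ^ k) * yy k ^ 2 * yy k ^ (3 * ka + 1) ≤ 8 ^ k :=
    calc _ = yy k ^ (4 * ka + 5) * 2 ^ (k / 4 + 1) * (2 ^ 2) ^ k := by ring
      _ = 2 ^ (4 * (ka * LL k) + 5 * LL k + (k / 4 + 1) + 2 * k) := by
          rw [yy, ← pow_mul, ← pow_mul, ← pow_add, ← pow_add]
          congr 1
          ring
      _ ≤ 2 ^ (3 * k) := Nat.pow_le_pow_right (by norm_num) (by omega)
      _ = 8 ^ k := by
          rw [pow_mul]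
          rfl
  refine le_trans ?_ (by exact_mod_cast h3 : 2 * (yy k : ℝ) ^ (ka + 2) * (2 ^ (k / 4) * 4 ^ k) *
    (yy k : ℝ) ^ 2 * (yy k : ℝ) ^ (3 * ka + 1) ≤ 8 ^ k)
  have := lam_le k
  gcongr

theorem dens_self {k : ℕ} (hk : k0 ≤ k) :
    (mm k : ℝ) * 2 ^ (k / 4) * (SS k).card ≤ (Del k : ℝ) ^ 2 :=
  le_trans (mul_le_mul_of_nonneg_left (le_mul_of_one_le_left (Nat.cast_nonneg _)
    (one_le_pow₀ (by norm_num))) (by positivity)) (dens_diag hk)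

theorem ell_le {k : ℕ} (hk : k0 ≤ k) :
    Real.exp (Real.log (9 * (Del k : ℝ) ^ 2) + 1) ≤ ((2 : ℝ) ^ (k / 4)) ^ yy k := by
  have h0 : (0 : ℝ) < Del k := by exact_mod_cast Del_pos k
  have h1 := T3TypAa_k hk
  have h2 := (LL_pos k).trans (T3TypAa_L k)
  have h3 := yy_big' hk
  have h9 := T3TypAa_Del k
  rw [mul_assoc] at h3
  generalize ka * LL k = L at h1 h2 h3 h9
  have h4 : 5 + 40 * L * k ≤ k / 4 * yy k := by
    have h5 : k ≤ 8 * (k / 4) := by omega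
    have h6 : 1 ≤ k / 4 := by omega
    generalize k / 4 = q at h5 h6
    calc 5 + 40 * L * k ≤ 5 * (q * L) + 40 * L * (8 * q) := by
          have h7 : 1 ≤ q * L := Nat.mul_pos h6 h2
          have h8 : 40 * L * k ≤ 40 * L * (8 * q) := Nat.mul_le_mul_left _ h5
          omega
      _ = q * (325 * L) := by ring
      _ ≤ q * yy k := Nat.mul_le_mul_left _ (by omega)
  have h5 : 32 * Del k ^ 2 ≤ (2 ^ (k / 4)) ^ yy k :=
    calc 32 * Del k ^ 2 ≤ 2 ^ 5 * 2 ^ (40 * L * k) := Nat.mul_le_mul (by norm_num) h9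
      _ = 2 ^ (5 + 40 * L * k) := by rw [pow_add]
      _ ≤ 2 ^ (k / 4 * yy k) := Nat.pow_le_pow_right (by norm_num) h4
      _ = (2 ^ (k / 4)) ^ yy k := by rw [pow_mul]
  have h6 : (32 : ℝ) * (Del k : ℝ) ^ 2 ≤ ((2 : ℝ) ^ (k / 4)) ^ yy k := by exact_mod_cast h5
  rw [Real.exp_add, Real.exp_log (by positivity)]
  have h7 := Real.exp_one_lt_d9
  have h8 : (0 : ℝ) < (Del k : ℝ) ^ 2 := by positivity
  nlinarith

theorem ell_small {k : ℕ} (hk : k0 ≤ k) :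
    yy k * Real.log (9 * (Del k : ℝ) ^ 2) ≤ (yy k : ℝ) ^ (2 * ka + 3) / 64 := by
  have h0 : (0 : ℝ) < Del k := by exact_mod_cast Del_pos k
  have h2 := (LL_pos k).trans (T3TypAa_L k)
  have h3 := yy_big' hk
  have h9 := T3TypAa_Del k
  rw [mul_assoc] at h3
  generalize ka * LL k = L at h2 h3 h9
  have h4 : 9 * Del k ^ 2 ≤ 2 ^ (4 + 40 * L * k) :=
    calc 9 * Del k ^ 2 ≤ 2 ^ 4 * 2 ^ (40 * L * k) := Nat.mul_le_mul (by norm_num) h9
      _ = 2 ^ (4 + 40 * L * k) := by rw [pow_add]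
  have h5 : 9 * (Del k : ℝ) ^ 2 ≤ (2 : ℝ) ^ (4 + 40 * L * k) := by exact_mod_cast h4
  have h6 : Real.log (9 * (Del k : ℝ) ^ 2) ≤ ((4 + 40 * L * k : ℕ) : ℝ) := by
    refine (Real.log_le_log (by positivity) h5).trans ?_
    rw [Real.log_pow]
    have h7 := Real.log_two_lt_d9
    have h8 : (0 : ℝ) ≤ ((4 + 40 * L * k : ℕ) : ℝ) := by positivity
    nlinarith
  have h7 : 64 * (yy k * (4 + 40 * L * k)) ≤ yy k ^ (2 * ka + 3) := by
    have h8 := T3TypAa_lt k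
    have h9 : 1 ≤ yy k ^ (2 * ka) := Nat.one_le_pow _ _ (by omega)
    have h10 : 1 ≤ L * yy k ^ (2 * ka) := Nat.mul_pos h2 h9
    calc 64 * (yy k * (4 + 40 * L * k))
        ≤ 64 * (yy k * (4 * (L * yy k ^ (2 * ka)) + 40 * L * yy k ^ (2 * ka))) := by
          gcongr
          omega
      _ = (2816 * L) * yy k ^ (2 * ka + 1) := by ring
      _ ≤ yy k * yy k ^ (2 * ka + 1) := Nat.mul_le_mul_right _ (by omega)
      _ = yy k ^ (2 * ka + 2) := by ring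
      _ ≤ _ := Nat.pow_le_pow_right (by omega) (by omega)
  have h8 : (64 : ℝ) * (yy k * ((4 + 40 * L * k : ℕ) : ℝ)) ≤ (yy k : ℝ) ^ (2 * ka + 3) := by
    exact_mod_cast h7
  have h9 : (yy k : ℝ) * Real.log (9 * (Del k : ℝ) ^ 2) ≤
      yy k * ((4 + 40 * L * k : ℕ) : ℝ) := by gcongr
  linarith

theorem T3TypAa_y {k : ℕ} (hk : k0 ≤ k) : (16 : ℝ) ≤ yy k := by
  have h1 := T3Par_big hk
  have h2 := LL_pos k
  exact_mod_cast (show 16 ≤ yy k by omega)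

theorem list_self {k : ℕ} (hk : k0 ≤ k) :
    2 * (((SS k).card : ℝ) / (Del k : ℝ) ^ 2 * (mm k * (mm k - 1)) +
      (yy k : ℝ) ^ (2 * ka + 3) / 64) + yy k ≤ Lam k := by
  have h0 : (0 : ℝ) < Del k := by exact_mod_cast Del_pos k
  have h1 := mm_le (hk.trans (Nat.le_succ k))
  have h2 := T3TypAa_list (B := 4 * (yy k : ℝ) ^ (2 * ka + 4)) (ph_pos k).le (Nat.cast_nonneg _)
    (Nat.cast_nonneg _) (by positivity) (Om_pos k) h0 (card_SS_rat k) h1 h1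
    (by nlinarith [lam_sq k])
  have h3 : ((SS k).card : ℝ) / (Del k : ℝ) ^ 2 * (mm k * (mm k - 1)) ≤
      mm k * mm k * ((SS k).card : ℝ) / (Del k : ℝ) ^ 2 := by
    rw [mul_div_assoc, mul_comm]
    gcongr
    linarith
  have hy := T3TypAa_y hk
  have h4 : (yy k : ℝ) ≤ (yy k : ℝ) ^ (2 * ka + 6) := le_self_pow₀ (yy_one k) (by omega)
  have h5 : (yy k : ℝ) ^ (2 * ka + 3) ≤ (yy k : ℝ) ^ (2 * ka + 6) :=
    pow_le_pow_right₀ (yy_one k) (by omega)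
  have h6 : (yy k : ℝ) ^ 2 * (4 * (yy k : ℝ) ^ (2 * ka + 4)) = 4 * (yy k : ℝ) ^ (2 * ka + 6) := by
    ring
  have h7 : (Lam k : ℝ) = (yy k : ℝ) ^ 2 * (yy k : ℝ) ^ (2 * ka + 6) := by
    rw [Lam]
    push_cast
    ring
  have h8 : (0 : ℝ) ≤ (yy k : ℝ) ^ (2 * ka + 6) := by positivity
  have h9 := mul_le_mul_of_nonneg_right (show (16 : ℝ) ≤ (yy k : ℝ) ^ 2 by nlinarith) h8
  linarith

theorem list_cross {j : ℕ} (hk : k0 ≤ j + 1) :
    2 * mm (j + 1) * (mm j * ((SS j).card : ℝ) / (Del j : ℝ) ^ 2) +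
      (yy (j + 1) : ℝ) ^ (2 * ka + 3) / 64 ≤ Lam (j + 1) := by
  have h0 : (0 : ℝ) < Del j := by exact_mod_cast Del_pos j
  have hy := T3TypAa_y hk
  have hm : (yy j : ℝ) ≤ yy (j + 1) := Nat.cast_le.2 (yy_mono (Nat.le_succ j))
  have hg : (256 : ℝ) * ga (gr j) ≤ yy (j + 1) := by exact_mod_cast T3TypAa_ga hk
  have l1 : lam j ^ 2 ≤ (yy (j + 1) : ℝ) ^ (2 * ka + 4) * Om j := by
    have := Om_pos j
    rw [lam_sq]
    gcongr
  have l2 : lam (j + 1) ^ 2 ≤ (yy (j + 1) : ℝ) ^ (2 * ka + 4) * Om j := by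
    have := Om_succ_le j
    rw [lam_sq]
    gcongr
  have l3 : lam (j + 1) * lam j ≤ (yy (j + 1) : ℝ) ^ (2 * ka + 4) * Om j := by
    nlinarith [sq_nonneg (lam (j + 1) - lam j)]
  have h2 := T3TypAa_list (B := 64 * ga (gr j) * (yy (j + 1) : ℝ) ^ (2 * ka + 4)) (ph_pos j).le
    (Nat.cast_nonneg _) (Nat.cast_nonneg _) (by positivity) (Om_pos j) h0 (card_SS_rat j)
    (T3TypAa_mm hk) (mm_le hk)
    (by nlinarith [mul_le_mul_of_nonneg_left l3 (Nat.cast_nonneg (α := ℝ) (ga (gr j)))])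
  have h3 : (yy j : ℝ) ^ 2 * (64 * ga (gr j) * (yy (j + 1) : ℝ) ^ (2 * ka + 4)) ≤
      (yy (j + 1) : ℝ) ^ 2 * (yy (j + 1) * (yy (j + 1) : ℝ) ^ (2 * ka + 4)) := by
    have : (0 : ℝ) ≤ ga (gr j) := Nat.cast_nonneg _
    gcongr
    linarith
  have h5 : (yy (j + 1) : ℝ) ^ (2 * ka + 3) ≤ (yy (j + 1) : ℝ) ^ (2 * ka + 7) :=
    pow_le_pow_right₀ (yy_one _) (by omega)
  have h6 : (yy (j + 1) : ℝ) ^ 2 * (yy (j + 1) * (yy (j + 1) : ℝ) ^ (2 * ka + 4)) =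
      (yy (j + 1) : ℝ) ^ (2 * ka + 7) := by ring
  have h7 : (Lam (j + 1) : ℝ) = yy (j + 1) * (yy (j + 1) : ℝ) ^ (2 * ka + 7) := by
    rw [Lam]
    push_cast
    ring
  have h8 : (0 : ℝ) ≤ (yy (j + 1) : ℝ) ^ (2 * ka + 7) := by positivity
  have h9 := mul_le_mul_of_nonneg_right hy h8
  have h10 : 2 * mm (j + 1) * (mm j * ((SS j).card : ℝ) / (Del j : ℝ) ^ 2) =
      2 * (mm (j + 1) * mm j * ((SS j).card : ℝ) / (Del j : ℝ) ^ 2) := by ring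
  linarith

theorem T3TypAb_ind (k : ℕ) :
    ∑ y ∈ Box (2 * k) DD, (if y ∈ SS k then (1 : ℝ) else 0) = (SS k).card := by
  rw [sum_boole, filter_mem_eq_inter, inter_eq_right.2 fun y hy => (mem_SS.1 hy).1]

/-- The kernels inside one state. -/
noncomputable def T3TypAb_F (k : ℕ) : Fin 2 → (ℕ → ℕ) → ℝ :=
  ![fun y => if y ∈ SS k then 1 else 0, fun y => Gm k y / Gb k]

/-- The kernel between two states. -/
noncomputable def T3TypAb_E (j : ℕ) (y : ℕ → ℕ) : ℝ := if y ∈ SS j then 1 else 0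

theorem T3TypAb_E_ok (j : ℕ) (y : ℕ → ℕ) : 0 ≤ T3TypAb_E j y ∧
    T3TypAb_E j y ≤ 1 ∧ (T3TypAb_E j y ≠ 0 → y ∈ SS j) := by
  unfold T3TypAb_E
  split_ifs with h
  · exact ⟨zero_le_one, le_rfl, fun _ => h⟩
  · exact ⟨le_rfl, zero_le_one, fun h5 => absurd rfl h5⟩

theorem T3TypAb_F_ok {k : ℕ} (hk : k0 ≤ k) (t : Fin 2) (y : ℕ → ℕ) : 0 ≤ T3TypAb_F k t y ∧
    T3TypAb_F k t y ≤ 1 ∧ (y ∈ Box (2 * k) DD → T3TypAb_F k t y ≠ 0 → y ∈ SS k) := by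
  fin_cases t
  · exact ⟨(T3TypAb_E_ok k y).1, (T3TypAb_E_ok k y).2.1, fun _ => (T3TypAb_E_ok k y).2.2⟩
  · refine ⟨div_nonneg (Gm_nonneg k y) (Gb_pos k).le, (div_le_one (Gb_pos k)).2 (Gm_le_Gb hk y),
      fun hy h => Gm_supp hy fun h5 => h ?_⟩
    show Gm k y / Gb k = 0
    rw [h5, zero_div]

theorem T3TypAb_seq {j : ℕ} (hk : k0 ≤ j + 1) {m : ℕ} (ξ : ℕ → ℕ → ℕ)
    (hb : ∀ i < m, ∀ s < 2 * j, ξ i s < DD (s / 2))
    (hd : ∀ g ∈ Box (2 * j) DD, ∀ ξ₀ : ℕ → ℕ, (∀ s < 2 * j, ξ₀ s < DD (s / 2)) →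
      #{i ∈ range m | ym j g ξ₀ (ξ i) ∈ SS j} ≤ yy (j + 1)) :
    ∃ ξ' : ℕ → ℕ → ℕ, (∀ i < mm (j + 1), ξ' i ∈ Box (2 * (j + 1)) DD) ∧
      (∀ g ∈ Box (2 * j) DD,
        #{i ∈ range (mm (j + 1)) | ym j g (fun _ => 0) (ξ' i) ∈ SS j} ≤ yy (j + 1)) ∧
      (∀ g ∈ Box (2 * (j + 1)) DD, #{i ∈ range (mm (j + 1)) |
        ym (j + 1) g (fun _ => 0) (ξ' i) ∈ SS (j + 1)} ≤ yy (j + 1)) ∧
      (∀ g ∈ Box (2 * (j + 1)) DD,
        #{i ∈ range (mm (j + 1)) | ym (j + 1) g (ξ' i) (ξ' i) ∈ SS (j + 1)} ≤ yy (j + 1)) ∧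
      (∀ g ∈ Box (2 * (j + 1)) DD, ∀ t,
        (∑ y ∈ Box (2 * (j + 1)) DD, T3TypAb_F (j + 1) t y) / (Del (j + 1) : ℝ) ^ 2 *
          (mm (j + 1) * (mm (j + 1) - 1)) / 4 - (yy (j + 1) : ℝ) ^ (2 * ka + 3) / 64 ≤
          ∑ i' ∈ range (mm (j + 1)), ∑ i ∈ range i',
            T3TypAb_F (j + 1) t (ym (j + 1) g (ξ' i) (ξ' i')) ∧
        ∑ i' ∈ range (mm (j + 1)), ∑ i ∈ range i',
            T3TypAb_F (j + 1) t (ym (j + 1) g (ξ' i) (ξ' i')) ≤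
          (∑ y ∈ Box (2 * (j + 1)) DD, T3TypAb_F (j + 1) t y) / (Del (j + 1) : ℝ) ^ 2 *
          (mm (j + 1) * (mm (j + 1) - 1)) + (yy (j + 1) : ℝ) ^ (2 * ka + 3) / 64) ∧
      ∀ g ∈ Box (2 * j) DD,
        ∑ i' ∈ range (mm (j + 1)), ∑ i ∈ range m, T3TypAb_E j (ym j g (ξ i) (ξ' i')) ≤
          2 * mm (j + 1) * (m * (∑ y ∈ Box (2 * j) DD, T3TypAb_E j y) / (Del j : ℝ) ^ 2) +
            (yy (j + 1) : ℝ) ^ (2 * ka + 3) / 64 := by
  have dj : (0 : ℝ) < (Del j : ℝ) ^ 2 := pow_pos (by exact_mod_cast Del_pos j) 2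
  have dk : (0 : ℝ) < (Del (j + 1) : ℝ) ^ 2 := pow_pos (by exact_mod_cast Del_pos _) 2
  have cj : ((Box (2 * j) DD).card : ℝ) = (Del j : ℝ) ^ 2 := by exact_mod_cast card_Gam j
  have ck : ((Box (2 * (j + 1)) DD).card : ℝ) = (Del (j + 1) : ℝ) ^ 2 := by
    exact_mod_cast card_Gam (j + 1)
  have z0 : ∀ n, ∀ s < n, (fun _ : ℕ => 0) s < DD (s / 2) := fun _ s _ => DD_pos _
  have hlt : ∀ ω ∈ Box (2 * (j + 1)) DD, ∀ s < 2 * j, ω s < DD (s / 2) :=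
    fun ω hω s hs => (mem_Box.1 hω).1 s (by omega)
  have h4 : 1 ≤ (j + 1) / 4 := by
    have h2 := T3TypAa_k hk
    have h3 := (LL_pos (j + 1)).trans (T3TypAa_L (j + 1))
    omega
  have hsm := ell_small hk
  obtain ⟨ξ', g1, g2, g3, g4⟩ := seq_points (Box (2 * (j + 1)) DD)
    (card_pos.1 (by rw [card_Gam]; exact pow_pos (Del_pos _) 2)) (mm (j + 1)) (yy (j + 1))
    (by have := yy_ge (j + 1); omega) (Real.log (9 * (Del (j + 1) : ℝ) ^ 2))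
    ((2 : ℝ) ^ ((j + 1) / 4)) (one_lt_pow₀ (by norm_num) (by omega)) (ell_le hk)
    ((Box (2 * j) DD).disjSum ((Box (2 * (j + 1)) DD).disjSum (Box (2 * (j + 1)) DD)))
    (Sum.elim (fun g => (Box (2 * (j + 1)) DD).filter fun ω => ym j g (fun _ => 0) ω ∈ SS j)
      (Sum.elim
        (fun g => (Box (2 * (j + 1)) DD).filter fun ω => ym (j + 1) g (fun _ => 0) ω ∈ SS (j + 1))
        fun g => (Box (2 * (j + 1)) DD).filter fun ω => ym (j + 1) g ω ω ∈ SS (j + 1)))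
    (by
      rintro (g | g | g) -
      · simp only [Sum.elim_inl]
        rw [inter_eq_left.2 (filter_subset _ _), ck]
        have h1 := sum_ym (Nat.le_succ j) g (z0 _) fun y => if y ∈ SS j then (1 : ℝ) else 0
        rw [T3TypAb_ind, sum_boole] at h1
        have h2 := mul_le_mul_of_nonneg_left (dens_down hk) dk.le
        refine le_of_mul_le_mul_right ?_ dj
        rw [mul_assoc, h1]
        linarith
      · simp only [Sum.elim_inr, Sum.elim_inl]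
        rw [inter_eq_left.2 (filter_subset _ _), ck]
        have h1 := sum_ym (le_refl (j + 1)) g (z0 _)
          fun y => if y ∈ SS (j + 1) then (1 : ℝ) else 0
        rw [T3TypAb_ind, sum_boole, mul_comm] at h1
        rw [mul_left_cancel₀ dk.ne' h1]
        exact dens_self hk
      · simp only [Sum.elim_inr]
        rw [inter_eq_left.2 (filter_subset _ _), ck]
        refine le_trans (mul_le_mul_of_nonneg_left ?_ (by positivity)) (dens_diag hk)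
        exact_mod_cast card_diag (j + 1) g (SS (j + 1)))
    (Box (2 * (j + 1)) DD ×ˢ (univ : Finset (Fin 2)))
    (fun b ω ω' => T3TypAb_F (j + 1) b.2 (ym (j + 1) b.1 ω ω'))
    (fun b => (∑ y ∈ Box (2 * (j + 1)) DD, T3TypAb_F (j + 1) b.2 y) / (Del (j + 1) : ℝ) ^ 2)
    (fun b _ _ _ => (T3TypAb_F_ok hk _ _).1) (fun b _ _ _ => (T3TypAb_F_ok hk _ _).2.1)
    (by
      intro b _ ω hω
      refine ⟨Sum.inr (Sum.inl (ym (j + 1) b.1 ω fun _ => 0)),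
        inr_mem_disjSum.2 (inl_mem_disjSum.2 (ym_mem _ _ _ _)), fun ω' hω' h => ?_⟩
      have h1 := (T3TypAb_F_ok hk _ _).2.2 (ym_mem _ _ _ _) h
      rw [ym_comm, ym_shift _ (mem_Box.1 hω).1 (mem_Box.1 hω').1] at h1
      exact mem_filter.2 ⟨hω', h1⟩)
    (by
      intro b _ ω hω
      have h1 := sum_ym (le_refl (j + 1)) b.1 (mem_Box.1 hω).1 (T3TypAb_F (j + 1) b.2)
      rw [ck, div_mul_cancel₀ _ dk.ne']
      rw [mul_comm] at h1
      exact mul_left_cancel₀ dk.ne' h1)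
    (Box (2 * j) DD)
    (fun b ω => ∑ i ∈ range m, T3TypAb_E j (ym j b (ξ i) ω))
    (fun _ => m * (∑ y ∈ Box (2 * j) DD, T3TypAb_E j y) / (Del j : ℝ) ^ 2)
    (fun b _ _ _ => sum_nonneg fun _ _ => (T3TypAb_E_ok _ _).1)
    (by
      intro b hb' ω hω
      refine (T3TypAb_le (range m) (fun i => ym j b ω (ξ i) ∈ SS j) _
        (fun _ _ => (T3TypAb_E_ok _ _).2.1) fun i _ h => ?_).trans ?_
      · rw [ym_comm]
        exact (T3TypAb_E_ok _ _).2.2 h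
      · exact_mod_cast hd b hb' ω (hlt ω hω))
    (by
      intro b _
      rw [sum_comm, ck]
      refine le_of_eq ?_
      rw [sum_congr rfl fun i hi => eq_div_of_mul_eq dj.ne'
        (sum_ym (Nat.le_succ j) b (hb i (mem_range.1 hi)) (T3TypAb_E j)), sum_const,
        card_range, nsmul_eq_mul]
      ring)
    (by
      rw [Real.exp_log (by positivity)]
      simp only [card_disjSum, card_product, card_univ, Fintype.card_fin]
      push_cast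
      rw [cj, ck]
      have h1 : (16 : ℝ) ≤ DD j := by
        have := Ru_pos j
        have h2 : 16 ≤ DD j := by unfold DD; omega
        exact_mod_cast h2
      have h2 : (Del (j + 1) : ℝ) ^ 2 = (Del j : ℝ) ^ 2 * (DD j : ℝ) ^ 2 := by
        rw [Del_succ]
        push_cast
        ring
      have h3 : (Del j : ℝ) ^ 2 * 4 ≤ (Del j : ℝ) ^ 2 * (DD j : ℝ) ^ 2 :=
        mul_le_mul_of_nonneg_left (by nlinarith) dj.le
      linarith)
  refine ⟨ξ', g1, fun g hg => ?_, fun g hg => ?_, fun g hg => ?_, fun g hg t => ?_, fun g hg => ?_⟩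
  · refine le_trans (card_le_card fun i hi => ?_) (g2 (Sum.inl g) (inl_mem_disjSum.2 hg))
    obtain ⟨h1, h2⟩ := mem_filter.1 hi
    exact mem_filter.2 ⟨h1, mem_filter.2 ⟨g1 i (mem_range.1 h1), h2⟩⟩
  · refine le_trans (card_le_card fun i hi => ?_)
      (g2 (Sum.inr (Sum.inl g)) (inr_mem_disjSum.2 (inl_mem_disjSum.2 hg)))
    obtain ⟨h1, h2⟩ := mem_filter.1 hi
    exact mem_filter.2 ⟨h1, mem_filter.2 ⟨g1 i (mem_range.1 h1), h2⟩⟩
  · refine le_trans (card_le_card fun i hi => ?_)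
      (g2 (Sum.inr (Sum.inr g)) (inr_mem_disjSum.2 (inr_mem_disjSum.2 hg)))
    obtain ⟨h1, h2⟩ := mem_filter.1 hi
    exact mem_filter.2 ⟨h1, mem_filter.2 ⟨g1 i (mem_range.1 h1), h2⟩⟩
  · obtain ⟨h1, h2⟩ := g3 (g, t) (mem_product.2 ⟨hg, mem_univ _⟩)
    exact ⟨le_trans (by linarith) h1, le_trans h2 (by linarith)⟩
  · exact le_trans (g4 g hg) (by linarith)

theorem types_step {j : ℕ} (hk : k0 ≤ j + 1) {m : ℕ} (hm : m ≤ mm j) (ξ : ℕ → ℕ → ℕ)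
    (hb : ∀ i < m, ∀ s < 2 * j, ξ i s < DD (s / 2))
    (hd : ∀ g ∈ Box (2 * j) DD, ∀ ξ₀ : ℕ → ℕ, (∀ s < 2 * j, ξ₀ s < DD (s / 2)) →
      #{i ∈ range m | ym j g ξ₀ (ξ i) ∈ SS j} ≤ yy (j + 1)) :
    ∃ ξ', Own (j + 1) ξ' ∧ Cross j m ξ ξ' := by
  obtain ⟨ξ', g1, g2, g2', g3, g4, g5⟩ := T3TypAb_seq hk ξ hb hd
  have dk : (0 : ℝ) < Del (j + 1) := by exact_mod_cast Del_pos _
  have m2 : (2 : ℝ) ≤ mm (j + 1) := by exact_mod_cast mm_two (hk.trans (Nat.le_succ _))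
  have hm' : (m : ℝ) ≤ mm j := by exact_mod_cast hm
  have pr : ∀ g t, ∑ q ∈ range (mm (j + 1)) ×ˢ range (mm (j + 1)),
      T3TypAb_F (j + 1) t (ym (j + 1) g (ξ' q.1) (ξ' q.2)) =
      2 * ∑ i' ∈ range (mm (j + 1)), ∑ i ∈ range i',
        T3TypAb_F (j + 1) t (ym (j + 1) g (ξ' i) (ξ' i')) +
      ∑ i ∈ range (mm (j + 1)), T3TypAb_F (j + 1) t (ym (j + 1) g (ξ' i) (ξ' i)) := fun g t =>
    T3TypAb_pairs (fun a b => T3TypAb_F (j + 1) t (ym (j + 1) g (ξ' a) (ξ' b)))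
      (fun a b => by rw [ym_comm]) _
  have dg : ∀ g ∈ Box (2 * (j + 1)) DD, ∀ t, ∑ i ∈ range (mm (j + 1)),
      T3TypAb_F (j + 1) t (ym (j + 1) g (ξ' i) (ξ' i)) ≤ yy (j + 1) := by
    intro g hg t
    refine (T3TypAb_le _ (fun i => ym (j + 1) g (ξ' i) (ξ' i) ∈ SS (j + 1)) _
      (fun _ _ => (T3TypAb_F_ok hk _ _).2.1)
      fun i _ h => (T3TypAb_F_ok hk _ _).2.2 (ym_mem _ _ _ _) h).trans ?_
    exact_mod_cast g3 g hg
  refine ⟨ξ', ⟨g1, ?_, fun g hg => ?_, fun g hg => ?_⟩, fun g hg => ?_⟩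
  · rintro j' (h | h) g hg ξ₀ h0
    · subst h
      refine le_trans (card_le_card fun i hi => ?_)
        (g2' (ym (j + 1) g ξ₀ fun _ => 0) (ym_mem _ _ _ _))
      obtain ⟨h1, h2⟩ := mem_filter.1 hi
      rw [ym_shift (j + 1) h0 (mem_Box.1 (g1 i (mem_range.1 h1))).1] at h2
      exact mem_filter.2 ⟨h1, h2⟩
    · obtain rfl : j = j' := by omega
      refine le_trans (card_le_card fun i hi => ?_) (g2 (ym j g ξ₀ fun _ => 0) (ym_mem _ _ _ _))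
      obtain ⟨h1, h2⟩ := mem_filter.1 hi
      rw [ym_shift j h0 fun s hs => (mem_Box.1 (g1 i (mem_range.1 h1))).1 s (by omega)] at h2
      exact mem_filter.2 ⟨h1, h2⟩
  · have h1 : ∑ q ∈ range (mm (j + 1)) ×ˢ range (mm (j + 1)),
        T3TypAb_F (j + 1) 0 (ym (j + 1) g (ξ' q.1) (ξ' q.2)) =
        (#{q ∈ range (mm (j + 1)) ×ˢ range (mm (j + 1)) |
          ym (j + 1) g (ξ' q.1) (ξ' q.2) ∈ SS (j + 1)} : ℕ) := sum_boole _ _
    have h2 : ∑ y ∈ Box (2 * (j + 1)) DD, T3TypAb_F (j + 1) 0 y = (SS (j + 1)).card :=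
      T3TypAb_ind _
    have h3 := (g4 g hg 0).2
    have h4 := dg g hg 0
    have h5 := list_self hk
    rw [h2] at h3
    rw [pr] at h1
    have h6 : ((#{q ∈ range (mm (j + 1)) ×ˢ range (mm (j + 1)) |
          ym (j + 1) g (ξ' q.1) (ξ' q.2) ∈ SS (j + 1)} : ℕ) : ℝ) ≤ Lam (j + 1) := by linarith
    exact_mod_cast h6
  · have h3 := (g4 g hg 1).1
    have h4 : 0 ≤ ∑ i ∈ range (mm (j + 1)),
        T3TypAb_F (j + 1) 1 (ym (j + 1) g (ξ' i) (ξ' i)) :=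
      sum_nonneg fun _ _ => (T3TypAb_F_ok hk _ _).1
    have h5 := T3TypAb_low dk (lam_pos _).le m2 (mm_ge (j + 1)) (Gm_sum _)
    have h7 := pr g 1
    have hG := Gb_pos (j + 1)
    have h1 : ∑ q ∈ range (mm (j + 1)) ×ˢ range (mm (j + 1)),
        T3TypAb_F (j + 1) 1 (ym (j + 1) g (ξ' q.1) (ξ' q.2)) =
        (∑ q ∈ range (mm (j + 1)) ×ˢ range (mm (j + 1)),
          Gm (j + 1) (ym (j + 1) g (ξ' q.1) (ξ' q.2))) / Gb (j + 1) := (sum_div _ _ _).symm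
    have h2 : ∑ y ∈ Box (2 * (j + 1)) DD, T3TypAb_F (j + 1) 1 y =
        (∑ y ∈ Box (2 * (j + 1)) DD, Gm (j + 1) y) / Gb (j + 1) := (sum_div _ _ _).symm
    have h6 : (yy (j + 1) : ℝ) ^ (2 * ka + 3) = lam (j + 1) ^ 2 / Gb (j + 1) := by
      rw [eq_div_iff hG.ne', lam_sq, Gb]
      ring
    have h8 := div_le_div_of_nonneg_right h5 hG.le
    rw [h2, h6, div_right_comm, div_mul_eq_mul_div _ (Gb (j + 1))] at h3
    rw [h1] at h7
    rw [div_right_comm] at h8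
    have h9 : 0 ≤ lam (j + 1) ^ 2 / Gb (j + 1) := by positivity
    refine (div_le_div_iff_of_pos_right hG).1 ?_
    rw [div_right_comm]
    linarith
  · have h1 : ∑ q ∈ range m ×ˢ range (mm (j + 1)), T3TypAb_E j (ym j g (ξ q.1) (ξ' q.2)) =
        (#{q ∈ range m ×ˢ range (mm (j + 1)) | ym j g (ξ q.1) (ξ' q.2) ∈ SS j} : ℕ) :=
      sum_boole _ _
    have h2 : ∑ y ∈ Box (2 * j) DD, T3TypAb_E j y = (SS j).card := T3TypAb_ind _
    have h3 := g5 g hg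
    have h5 := list_cross hk
    rw [h2, ← sum_product_right (range m) (range (mm (j + 1)))
      fun q => T3TypAb_E j (ym j g (ξ q.1) (ξ' q.2)), h1] at h3
    have h4 : 2 * (mm (j + 1) : ℝ) * (m * ((SS j).card : ℝ) / (Del j : ℝ) ^ 2) ≤
        2 * mm (j + 1) * (mm j * ((SS j).card : ℝ) / (Del j : ℝ) ^ 2) := by gcongr
    have h6 : ((#{q ∈ range m ×ˢ range (mm (j + 1)) | ym j g (ξ q.1) (ξ' q.2) ∈ SS j} : ℕ) : ℝ) ≤
        Lam (j + 1) := by linarith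
    exact_mod_cast h6

theorem T3TypA_start : ∃ ξ, Own k0 ξ := by
  have h0 := k0_pos
  obtain ⟨j, hj⟩ : ∃ j, k0 = j + 1 := ⟨k0 - 1, by omega⟩
  obtain ⟨ξ', h, -⟩ := types_step (j := j) hj.le (m := 0) (Nat.zero_le _) (fun _ _ => 0)
    (fun i hi => absurd hi (Nat.not_lt_zero i)) (fun g _ ξ₀ _ => by simp)
  exact ⟨ξ', hj ▸ h⟩

theorem T3TypA_step (j : ℕ) (ξ : ℕ → ℕ → ℕ) :
    ∃ ξ', k0 ≤ j → Own j ξ → Own (j + 1) ξ' ∧ Cross j (mm j) ξ ξ' := by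
  by_cases h : k0 ≤ j ∧ Own j ξ
  · obtain ⟨hj, ho⟩ := h
    obtain ⟨ξ', h'⟩ := types_step (j := j) (by omega) (m := mm j) le_rfl ξ
      (fun i hi => (mem_Box.1 (ho.box i hi)).1)
      (fun g hg ξ₀ h₀ => (ho.deg j (Or.inl rfl) g hg ξ₀ h₀).trans (yy_mono (Nat.le_succ j)))
    exact ⟨ξ', fun _ _ => h'⟩
  · exact ⟨ξ, fun h1 h2 => absurd ⟨h1, h2⟩ h⟩

theorem exists_types : ∃ ξ, Types ξ := by
  obtain ⟨ξ₀, h₀⟩ := T3TypA_start
  obtain ⟨t, ht⟩ := T3TypA_rec k0 Own (fun j => Cross j (mm j)) h₀ T3TypA_step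
  refine ⟨t, fun k hk => (ht k hk).1.box, fun j k hk h => (ht k hk).1.deg j h,
    fun j k hj h => ?_, fun k hk => (ht k hk).1.low⟩
  rcases h with rfl | rfl
  · exact (ht k hj).1.list
  · exact (ht j hj).2

end Pool.Agent.P.MP_d5a1e1_nt.T3
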