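import Pool.Agent.P.MP_d5a1e1_nt.T3K0
import Pool.Agent.P.MP_d5a1e1_nt.T3K1
import Pool.Agent.P.MP_d5a1e1_nt.T3KF
import Pool.Agent.P.MP_d5a1e1_nt.T3TypA
import Pool.Agent.P.MP_d5a1e1_nt.T3Fine

/-! The random choices exist. -/

namespace Pool.Agent.P.MP_d5a1e1_nt.T3

open Finset TB

/-- Conditioning on the coordinates outside `p`. -/
theorem pr_cond {α : Type*} [DecidableEq α] {π : α → ℝ} (h0 : ∀ a, 0 ≤ π a) (h1 : ∀ a, π a ≤ 1)
    (p : α → Prop) [DecidablePred p] (S : Finset α) {ε : ℝ} (E : Finset α → Finset α → Prop)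
    (h : ∀ B, pr (S.filter p) π (E B) ≤ ε) :
    pr S π (fun A => E (A.filter fun a => ¬p a) (A.filter p)) ≤ ε := by
  have key : ∀ T : Finset α, (∀ a ∈ T, ¬p a) → ∀ E : Finset α → Finset α → Prop,
      (∀ B, pr (S.filter p) π (E B) ≤ ε) →
      pr (T ∪ S.filter p) π (fun A => E (A.filter fun a => ¬p a) (A.filter p)) ≤ ε := by
    intro T
    induction T using Finset.induction_on with
    | empty =>
      intro _ E hE
      rw [empty_union]
      refine le_of_eq_of_le (pr_congr fun A hA => ?_) (hE ∅)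
      rw [filter_true_of_mem fun a ha => (mem_filter.1 (hA ha)).2,
        filter_false_of_mem fun a ha => not_not.2 (mem_filter.1 (hA ha)).2]
    | insert a T ha ih =>
      intro hT E hE
      have hp := hT a (mem_insert_self _ _)
      have hT' : ∀ b ∈ T, ¬p b := fun b hb => hT b (mem_insert_of_mem hb)
      rw [insert_union, pr_insert (by simp [ha, hp])]
      have e1 := ih hT' (fun B => E (insert a B)) fun B => hE _
      have e2 := ih hT' E hE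
      simp only [filter_insert, if_neg hp, if_pos hp]
      nlinarith [mul_le_mul_of_nonneg_left e1 (h0 a),
        mul_le_mul_of_nonneg_left e2 (sub_nonneg.2 (h1 a))]
  have := key (S.filter fun a => ¬p a) (fun a ha => (mem_filter.1 ha).2) E h
  rwa [union_comm, filter_union_filter_not_eq] at this

open Classical in
/-- A function with the property `P`, if there is one. -/
noncomputable def pk (P : ((ℕ → ℕ) → ℕ) → Prop) : (ℕ → ℕ) → ℕ :=
  if H : ∃ f, P f then H.choose else fun _ => 0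

theorem pk_spec {P : ((ℕ → ℕ) → ℕ) → Prop} (h : ∃ f, P f) : P (pk P) := by
  rw [pk, dif_pos h]
  exact h.choose_spec

theorem T3Gooda_sum {k n : ℕ} (h : n ≤ k) :
    (1 : ℝ) / 2 ^ (k + 4) + (1 / 2 ^ (k + 4) + (1 / 2 ^ (k + 4) + (1 / 2 ^ (k + 4) +
      k * (1 / 2 ^ (2 * k + 4))))) ≤ 1 / 2 ^ (n + 1) := by
  have h1 : (k : ℝ) ≤ 2 ^ k := by exact_mod_cast (Nat.lt_two_pow_self (n := k)).le
  have h2 : (k : ℝ) * (1 / 2 ^ (2 * k + 4)) ≤ 1 / 2 ^ (k + 4) := by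
    have e : (2 : ℝ) ^ (2 * k + 4) = 2 ^ k * 2 ^ (k + 4) := by ring
    rw [e, mul_one_div, div_le_div_iff₀ (by positivity) (by positivity), one_mul]
    gcongr
  have h3 : (1 : ℝ) / 2 ^ (k + 1) ≤ 1 / 2 ^ (n + 1) :=
    one_div_le_one_div_of_le (by positivity) (pow_le_pow_right₀ one_le_two (by omega))
  have h4 : (1 : ℝ) / 2 ^ (k + 1) = 8 * (1 / 2 ^ (k + 4)) := by field_simp; ring
  have h5 : (0 : ℝ) ≤ 1 / 2 ^ (k + 4) := by positivity
  linarith

variable [Kap] {Pt : ℕ → Finset (ℕ → ℕ)} {ξ : ℕ → ℕ → ℕ → ℕ}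

/-- The hash function of state `k`, given those of the earlier states. -/
noncomputable def pick (Pt : ℕ → Finset (ℕ → ℕ)) (ξ : ℕ → ℕ → ℕ → ℕ) (K : Set Cell)
    (h : ℕ → (ℕ → ℕ) → ℕ) (k : ℕ) : (ℕ → ℕ) → ℕ :=
  pk fun f => (∀ e, f e < HH k) ∧ Spread Pt ξ K h k f

open Classical in
/-- The hash functions, chosen state by state. -/
noncomputable def hh (Pt : ℕ → Finset (ℕ → ℕ)) (ξ : ℕ → ℕ → ℕ → ℕ) (K : Set Cell) (k : ℕ) :
    (ℕ → ℕ) → ℕ :=
  pick Pt ξ K (fun j => if _h : j < k then hh Pt ξ K j else fun _ => 0) k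
termination_by k

theorem Cand_congr {K K' : Set Cell} {h h' : ℕ → (ℕ → ℕ) → ℕ} {j : ℕ}
    (h1 : ∀ c ∈ cells j, c ∈ K ↔ c ∈ K') (h2 : h j = h' j) (k n : ℕ) (d' : ℕ → ℕ) :
    Cand Pt ξ K h j k n d' ↔ Cand Pt ξ K' h' j k n d' := by
  unfold Cand
  rw [h2]
  exact and_congr_right fun _ => exists_congr fun d => and_congr_right fun _ =>
    exists_congr fun c => ⟨fun g => ⟨(h1 c g.2.1).1 g.1, g.2⟩, fun g => ⟨(h1 c g.2.1).2 g.1, g.2⟩⟩

theorem pick_congr {K K' : Set Cell} {h h' : ℕ → (ℕ → ℕ) → ℕ} {k : ℕ}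
    (h1 : ∀ j, j + 2 ≤ k → (∀ c ∈ cells j, c ∈ K ↔ c ∈ K') ∧ h j = h' j) :
    pick Pt ξ K h k = pick Pt ξ K' h' k := by
  have e : ∀ n d', (∃ j, k0 ≤ j ∧ j + 2 ≤ k ∧ Cand Pt ξ K h j k n d') ↔
      ∃ j, k0 ≤ j ∧ j + 2 ≤ k ∧ Cand Pt ξ K' h' j k n d' := fun n d' =>
    exists_congr fun j => and_congr_right fun _ => and_congr_right fun hj =>
      Cand_congr (h1 j hj).1 (h1 j hj).2 k n d'
  refine congrArg pk (funext fun f => ?_)
  simp only [Spread, e]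

theorem hh_eq (K : Set Cell) (k : ℕ) : hh Pt ξ K k = pick Pt ξ K (hh Pt ξ K) k := by
  rw [hh]
  exact pick_congr fun j hj => ⟨fun _ _ => Iff.rfl, dif_pos (by omega)⟩

theorem hh_congr {K K' : Set Cell} (k : ℕ)
    (h1 : ∀ j, j + 2 ≤ k → ∀ c ∈ cells j, c ∈ K ↔ c ∈ K') : hh Pt ξ K k = hh Pt ξ K' k := by
  induction k using Nat.strong_induction_on with
  | _ k ih =>
    rw [hh_eq, hh_eq K']
    exact pick_congr fun j hj => ⟨h1 j hj, ih j (by omega) fun i hi => h1 i (by omega)⟩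

theorem KF_congr {K K' : Set Cell} {h h' : ℕ → (ℕ → ℕ) → ℕ} {j : ℕ}
    (h1 : ∀ c ∈ cells j, c ∈ K ↔ c ∈ K') (h2 : h j = h' j) (k : ℕ) :
    KF Pt ξ K h j k ↔ KF Pt ξ K' h' j k := by
  simp only [KF, Cand_congr h1 h2]

theorem pr_KF' (hF : Fine Pt) {j k : ℕ} (hj : k0 ≤ j) (hjk : j + 2 ≤ k) (S : Finset Cell) :
    pr S qq (fun A => ¬KF Pt ξ (A : Set Cell) (hh Pt ξ (A : Set Cell)) j k) ≤
      1 / 2 ^ (2 * k + 4) := by
  refine le_of_eq_of_le (pr_congr fun A _ => not_congr (KF_congr (fun c hc => ?_)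
    (hh_congr j fun i hi c hc => ?_) k)) (pr_cond qq_nonneg qq_le_one (fun c => c.k = j) S
      (fun B A => ¬KF Pt ξ (A : Set Cell) (hh Pt ξ (B : Set Cell)) j k)
      fun B => pr_KF hF _ hj hjk _)
  · simp [(mem_cells.1 hc).1]
  · have : i ≠ j := by omega
    simp [(mem_cells.1 hc).1, this]

theorem exists_good (hF : Fine Pt) (ξ : ℕ → ℕ → ℕ → ℕ) : ∃ K, Good Pt ξ K (hh Pt ξ K) := by
  classical
  obtain ⟨K, hK⟩ := exists_avoid (π := qq) qq_nonneg qq_le_one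
    (fun n => (range (k0 + n + 2)).biUnion cells)
    (fun n A => ¬K0 (A : Set Cell) (k0 + n) ∨ ¬K1 Pt (A : Set Cell) (k0 + n) ∨
      ¬KC (A : Set Cell) (k0 + n) ∨ ¬KA (A : Set Cell) (k0 + n) ∨
      ∃ j ∈ (range (k0 + n)).filter (fun j => k0 ≤ j ∧ j + 2 ≤ k0 + n),
        ¬KF Pt ξ (A : Set Cell) (hh Pt ξ (A : Set Cell)) j (k0 + n)) (fun n => by
      have hk : k0 ≤ k0 + n := Nat.le_add_right _ _
      have hn : n ≤ k0 + n := Nat.le_add_left _ _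
      generalize k0 + n = k at hk hn
      refine le_trans ?_ (T3Gooda_sum hn)
      refine (pr_or_le qq_nonneg qq_le_one _ _).trans (add_le_add (pr_K0 hk _) ?_)
      refine (pr_or_le qq_nonneg qq_le_one _ _).trans (add_le_add (pr_K1 hF hk _) ?_)
      refine (pr_or_le qq_nonneg qq_le_one _ _).trans (add_le_add
        (pr_KC hk _ (subset_biUnion_of_mem cells (mem_range.2 (by omega)))) ?_)
      refine (pr_or_le qq_nonneg qq_le_one _ _).trans (add_le_add (pr_KA hk _) ?_)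
      refine (pr_exists_le qq_nonneg qq_le_one _ _).trans ?_
      refine (sum_le_card_nsmul _ _ ((1 : ℝ) / 2 ^ (2 * k + 4)) fun j hj => ?_).trans ?_
      · exact pr_KF' hF (mem_filter.1 hj).2.1 (mem_filter.1 hj).2.2 _
      · rw [nsmul_eq_mul]
        refine mul_le_mul_of_nonneg_right ?_ (by positivity)
        exact_mod_cast (card_filter_le _ _).trans (card_range k).le)
  have key : ∀ k, k0 ≤ k → ∃ A : Set Cell, A ⊆ K ∧
      (∀ j, j ≤ k + 1 → ∀ c ∈ cells j, c ∈ K → c ∈ A) ∧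
      K0 A k ∧ K1 Pt A k ∧ KC A k ∧ KA A k ∧ ∀ j, k0 ≤ j → j + 2 ≤ k →
        KF Pt ξ A (hh Pt ξ A) j k := by
    intro k hk
    obtain ⟨n, rfl⟩ := Nat.exists_eq_add_of_le hk
    have h := hK n
    simp only [not_or, not_not, not_exists, not_and] at h
    refine ⟨_, ?_, ?_, h.1, h.2.1, h.2.2.1, h.2.2.2.1, fun j h1 h2 => h.2.2.2.2 j ?_⟩
    · intro c hc
      exact (mem_filter.1 (mem_coe.1 hc)).2
    · intro j hj c hc hcK
      exact mem_coe.2 (mem_filter.2 ⟨mem_biUnion.2 ⟨j, mem_range.2 (by omega), hc⟩, hcK⟩)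
    · exact mem_filter.2 ⟨mem_range.2 (by omega), h1, h2⟩
  refine ⟨K, fun k hk => ?_, fun k hk => ?_, fun k hk => ?_, fun k hk => ?_,
    fun j k hj hjk => ?_⟩
  · obtain ⟨A, -, hA, h, -⟩ := key k hk
    intro N P hP Z hZ
    refine h N P hP Z fun e he => ?_
    obtain ⟨h1, h2, t, ht, hf, h3⟩ := hZ e he
    exact ⟨hA k (by omega) _ hf.1 h1, hA k (by omega) _ hf.2.1 h2, t, ht, hf, h3⟩
  · obtain ⟨A, -, hA, -, h, -⟩ := key k hk
    intro N P hP Z hZ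
    refine h N P hP Z fun e he => ?_
    obtain ⟨h1, h2, t, ht, hf, h3⟩ := hZ e he
    exact ⟨hA k (by omega) _ hf.1 h1, hA (k + 1) le_rfl _ hf.2.1 h2, t, ht, hf, h3⟩
  · obtain ⟨A, hA, -, -, -, h, -⟩ := key k hk
    intro N P hP hs h1 h2
    obtain ⟨c, hc, c', hc', he⟩ := h N P hP hs h1 h2
    exact ⟨c, hA hc, c', hA hc', he⟩
  · obtain ⟨A, -, hA, -, -, -, h, -⟩ := key k hk
    intro z Z hZ
    refine h z Z fun c hc => ?_
    obtain ⟨h1, h2, h3⟩ := hZ c hc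
    exact ⟨hA k (by omega) _ h2 h1, h2, h3⟩
  · obtain ⟨A, hA', hA, -, -, -, -, h⟩ := key k (by omega)
    exact (KF_congr (fun c hc => ⟨fun g => hA' g, hA j (by omega) c hc⟩)
      (hh_congr j fun i hi c hc => ⟨fun g => hA' g, hA i (by omega) c hc⟩) k).1 (h j hj hjk)

theorem T3Good_y {k : ℕ} (hk : k0 ≤ k) : 4096 ≤ yy k := by
  have h1 := T3Par_big hk
  have h2 := LL_pos k
  omega

theorem T3Good_num {k : ℕ} (hk : k0 ≤ k) :
    k * (EE k * (72 * 2 ^ yy k ^ (2 * ka + 1) + 5 * k * sg k)) ≤ XB k := by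
  have hy := yy_ge k
  have h0 := ka_big
  have h1 : k ≤ yy k ^ (2 * ka) := tau_eq k ▸ (lt_tau k).le
  have h2 : 5 * k * sg k ≤ 2 ^ yy k ^ (2 * ka + 1) := by
    have h3 : 6 * ka + 15 ≤ yy k ^ (2 * ka) := by
      have h4 : ka < 2 ^ ka := Nat.lt_two_pow_self
      have h5 : 2 ^ (ka + 3) ≤ yy k ^ (2 * ka) :=
        (Nat.pow_le_pow_right (by norm_num) (by omega)).trans (Nat.pow_le_pow_left hy _)
      rw [pow_add] at h5
      omega
    calc 5 * k * sg k ≤ yy k ^ 3 * yy k ^ (2 * ka) * yy k ^ (4 * ka + 12) :=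
          Nat.mul_le_mul_right _ (Nat.mul_le_mul
            (le_trans (by norm_num) (Nat.pow_le_pow_left hy 3)) h1)
      _ = yy k ^ (6 * ka + 15) := by ring
      _ ≤ (2 ^ yy k) ^ (6 * ka + 15) := Nat.pow_le_pow_left Nat.lt_two_pow_self.le _
      _ ≤ _ := by
          rw [← pow_mul, pow_succ']
          exact Nat.pow_le_pow_right (by norm_num) (Nat.mul_le_mul_left _ h3)
  have h3 : 73 * k ≤ 5 * k * sg k := by
    have h4 := sg_big k
    nlinarith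
  have h4 : XB k = 2 ^ yy k ^ (2 * ka + 1) *
      (2 ^ yy k ^ (2 * ka + 1) * 2 ^ yy k ^ (2 * ka + 1)) := by
    rw [XB, ← pow_add, ← pow_add]
    congr 1
    ring
  rw [h4, mul_left_comm]
  refine Nat.mul_le_mul (EE_le hk) ?_
  calc _ ≤ k * (73 * 2 ^ yy k ^ (2 * ka + 1)) := Nat.mul_le_mul_left _ (by omega)
    _ = 73 * k * 2 ^ yy k ^ (2 * ka + 1) := by ring
    _ ≤ _ := Nat.mul_le_mul_right _ (h3.trans h2)

theorem cand_le {K : Set Cell} {h : ℕ → (ℕ → ℕ) → ℕ} (hK : Good Pt ξ K h) {k n : ℕ}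
    (hk : k0 ≤ k) (hn : n < 2 * WW (2 * k)) (Z : Finset (ℕ → ℕ))
    (hZ : ∀ d' ∈ Z, ∃ j, k0 ≤ j ∧ j + 2 ≤ k ∧ Cand Pt ξ K h j k n d') : Z.card ≤ XB k := by
  classical
  have hsub : Z ⊆ (range k).biUnion fun j =>
      Z.filter fun d' => k0 ≤ j ∧ j + 2 ≤ k ∧ Cand Pt ξ K h j k n d' := by
    intro d' hd'
    obtain ⟨j, h1, h2, h3⟩ := hZ d' hd'
    exact mem_biUnion.2 ⟨j, mem_range.2 (by omega), mem_filter.2 ⟨hd', h1, h2, h3⟩⟩
  refine (card_le_card hsub).trans ((card_biUnion_le_card_mul _ _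
    (EE k * (72 * 2 ^ yy k ^ (2 * ka + 1) + 5 * k * sg k)) fun j _ => ?_).trans ?_)
  · by_cases hj : k0 ≤ j ∧ j + 2 ≤ k
    · refine (hK.kf j k hj.1 hj.2 n hn _ fun d' hd' => (mem_filter.1 hd').2.2.2).trans ?_
      exact Nat.mul_le_mul_left _ (Nat.add_le_add_right (Nat.mul_le_mul_left _
        (Nat.pow_le_pow_right (by norm_num) (Nat.pow_le_pow_left (yy_mono (by omega)) _))) _)
    · rw [filter_false_of_mem fun d' _ h => hj ⟨h.1, h.2.1⟩]
      exact Nat.zero_le _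
  · rw [card_range]
    exact T3Good_num hk

theorem T3Good_num2 {k : ℕ} (hk : k0 ≤ k) :
    2 * WW (2 * k) * HH k * XB k ^ sg k < HH k ^ sg k := by
  have hy := T3Good_y hk
  have h1 : k < yy k ^ (2 * ka) := tau_eq k ▸ lt_tau k
  have h2 : (k + 1) * 4096 ≤ yy k ^ (2 * ka + 1) := Nat.mul_le_mul h1 hy
  have h3 := sg_big k
  have hW := WW_le k
  rw [HH, XB]
  generalize yy k ^ (2 * ka + 1) = Y at h2 ⊢
  generalize sg k = G at h3 hW ⊢
  have h4 := Nat.mul_le_mul_right G h2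
  have h5 : Y * 8 ≤ Y * G := Nat.mul_le_mul_left _ (by omega)
  calc 2 * WW (2 * k) * 2 ^ (4 * Y) * (2 ^ (3 * Y)) ^ G
      ≤ 2 ^ 1 * 2 ^ (4 * k * G) * 2 ^ (4 * Y) * (2 ^ (3 * Y)) ^ G :=
        Nat.mul_le_mul_right _ (Nat.mul_le_mul_right _ (Nat.mul_le_mul le_rfl hW))
    _ = 2 ^ (1 + 4 * k * G + 4 * Y + 3 * Y * G) := by
        rw [← pow_mul, ← pow_add, ← pow_add, ← pow_add]
    _ < 2 ^ (4 * Y * G) := Nat.pow_lt_pow_right (by norm_num) (by nlinarith)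
    _ = _ := pow_mul _ _ _

theorem hash_hh {K : Set Cell} (hK : Good Pt ξ K (hh Pt ξ K)) : Hash Pt ξ K (hh Pt ξ K) := by
  classical
  have hH : ∀ k, 0 < HH k := fun k => Nat.two_pow_pos _
  refine ⟨fun k e => ?_, fun k hk => ?_⟩
  · rw [hh_eq, pick, pk]
    split_ifs with h
    · exact h.choose_spec.1 e
    · exact hH k
  · obtain ⟨f, hf, hf'⟩ := exists_spread (range (2 * WW (2 * k)))
      (fun n => ((Pt k).filter fun d' =>
        ∃ j, k0 ≤ j ∧ j + 2 ≤ k ∧ Cand Pt ξ K (hh Pt ξ K) j k n d').image (tr (2 * k - 2)))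
      (X := XB k) (G := sg k) (hH k)
      (fun n hn => card_image_le.trans
        (cand_le hK hk (mem_range.1 hn) _ fun d' hd' => (mem_filter.1 hd').2))
      (by
        rw [card_range]
        exact T3Good_num2 hk)
    rw [hh_eq]
    refine (pk_spec (P := fun f => (∀ e, f e < HH k) ∧ Spread Pt ξ K (hh Pt ξ K) k f)
      ⟨f, hf, fun n hn η Z hZ => lt_of_le_of_lt (card_le_card fun e he => ?_)
        (hf' n (mem_range.2 hn) η)⟩).2
    obtain ⟨h1, d', rfl, j, h2, h3, h4⟩ := hZ e he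
    exact mem_filter.2 ⟨mem_image_of_mem _ (mem_filter.2 ⟨h4.1, j, h2, h3, h4⟩), h1⟩

theorem exists_data : Nonempty Data := by
  obtain ⟨Pt, hF⟩ := exists_fine
  obtain ⟨ξ, hξ⟩ := exists_types
  obtain ⟨K, hK⟩ := exists_good hF ξ
  exact ⟨⟨Pt, ξ, K, _, hF, hξ, hK, hash_hh hK⟩⟩

end Pool.Agent.P.MP_d5a1e1_nt.T3
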