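import Pool.Agent.P.MP_d5a1e1_nt.T3Cells

/-! Representations by equal or consecutive states. -/

namespace Pool.Agent.P.MP_d5a1e1_nt.T3

open Finset TB

/-- A pair of described elements. -/
abbrev Quad : Type := ((ℕ → ℕ) × Cell) × (ℕ → ℕ) × Cell

variable [Kap]

def Rep (D : Data) (j k n : ℕ) (q : Quad) : Prop :=
  D.Ok j q.1.1 q.1.2 ∧ D.Ok k q.2.1 q.2.2 ∧ el D.ξ q.1.1 q.1.2 + el D.ξ q.2.1 q.2.2 = n

/-- The carry out of the lower digits. -/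
noncomputable def outc (D : Data) (j k n : ℕ) (q : Quad) : ℕ :=
  gam j (gd j n) (D.ξ j q.1.2.i) (D.ξ k q.2.2.i) (2 * j)

/-- The part of the second element above the lower digits. -/
noncomputable def upper (D : Data) (j k : ℕ) (q : Quad) : ℕ :=
  if k = j then q.2.2.z else
    (q.2.1 (2 * j) + pp j * (D.ξ k q.2.2.i (2 * j) + q.2.2.x (2 * j))) +
      BB j * (q.2.1 (2 * j + 1) + pp j * (D.ξ k q.2.2.i (2 * j + 1) + q.2.2.x (2 * j + 1))) +
      BB j ^ 2 * q.2.2.z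


theorem Rep.dec {D : Data} {j k n : ℕ} (hj : k0 ≤ j) (hk : k = j ∨ k = j + 1) {q : Quad}
    (h : Rep D j k n q) :
    (∀ i < 2 * j, q.1.1 i + q.2.1 i + gam j (gd j n) (D.ξ j q.1.2.i) (D.ξ k q.2.2.i) i ≡
        dig n i [MOD pp (i / 2)] ∧
      q.1.2.x i + q.2.2.x i +
        (q.1.1 i + q.2.1 i + gam j (gd j n) (D.ξ j q.1.2.i) (D.ξ k q.2.2.i) i) / pp (i / 2) =
        ym j (gd j n) (D.ξ j q.1.2.i) (D.ξ k q.2.2.i) i) ∧
    q.1.2.z + upper D j k q + outc D j k n q = n / WW (2 * j) ∧ outc D j k n q ≤ 2 := by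
  obtain ⟨⟨hd, -, hc, -⟩, ⟨hd', -, hc', -⟩, hn⟩ := h
  have hjk : j ≤ k := by omega
  have m := mem_cells.1 hc
  have m' := mem_cells.1 hc'
  have b := mem_Box.1 (D.fine.box j hd)
  have b' := mem_Box.1 (D.fine.box k hd')
  have t := mem_Box.1 (D.types.box j hj _ m.2.1)
  have t' := mem_Box.1 (D.types.box k (hj.trans hjk) _ m'.2.1)
  have x := mem_XX.1 m.2.2.2.1
  have x' := mem_XX.1 m'.2.2.2.1
  have e : lo (2 * j) q.1.1 (D.ξ j q.1.2.i) q.1.2.x + lo (2 * j) q.2.1 (D.ξ k q.2.2.i) q.2.2.x +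
      WW (2 * j) * (q.1.2.z + upper D j k q) = n := by
    rw [← hn, el, el, m.1, m'.1, upper]
    rcases hk with rfl | rfl
    · rw [if_pos rfl]
      ring
    · rw [if_neg (by omega), lo_unit, show 2 * (j + 1) = 2 * j + 2 by ring, WW_even]
      ring
  have f := dec_fwd (fun i hi => ⟨b.1 i hi, b'.1 i (by omega)⟩)
    (fun i hi => ⟨t.1 i hi, t'.1 i (by omega)⟩) (fun i hi => ⟨x.1 i hi, x'.1 i (by omega)⟩) e
  exact ⟨f.1, f.2, gam_le j _ t.1 (fun i hi => t'.1 i (by omega)) le_rfl⟩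

/-- The first fine point is determined by the types and the second fine point. -/
theorem Rep.fst_eq {D : Data} {j k n : ℕ} (hj : k0 ≤ j) (hk : k = j ∨ k = j + 1) {q q' : Quad}
    (h : Rep D j k n q) (h' : Rep D j k n q') (h1 : q.1.2.i = q'.1.2.i) (h2 : q.2.2.i = q'.2.2.i)
    (h3 : tr (2 * j) q.2.1 = tr (2 * j) q'.2.1) : q.1.1 = q'.1.1 := by
  have b := D.fine.box j h.1.1
  have b' := D.fine.box j h'.1.1
  refine Box_ext b b' fun i hi => ?_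
  have e := ((h.dec hj hk).1 i hi).1
  have e' := ((h'.dec hj hk).1 i hi).1
  have e3 := congrFun h3 i
  rw [tr_lt hi, tr_lt hi] at e3
  rw [h1, h2, e3] at e
  have e4 := Nat.ModEq.add_right_cancel' _ (Nat.ModEq.add_right_cancel' _ (e.trans e'.symm))
  exact Nat.ModEq.eq_of_lt_of_lt e4 ((mem_Box.1 b).1 i hi) ((mem_Box.1 b').1 i hi)

/-- A large class with constant carry on which the fine points depend on the types only. -/
theorem exists_sub {D : Data} {j k n : ℕ} (hj : k0 ≤ j) (hk : k = j ∨ k = j + 1)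
    (T : Finset Quad) (hT : ∀ q ∈ T, Rep D j k n q) :
    ∃ T' ⊆ T, ∃ γ, T.card ≤ 3 * MM j * T'.card ∧ (∀ q ∈ T', outc D j k n q = γ) ∧
      ∀ q ∈ T', ∀ q' ∈ T', q.1.2.i = q'.1.2.i → q.2.2.i = q'.2.2.i →
        tr (2 * j) q.2.1 = tr (2 * j) q'.2.1 := by
  obtain ⟨T₁, s₁, c₁, v₁⟩ := exists_class T (fun _ => ()) (outc D j k n) 3 fun _ Z hZ => by
    have : Z ⊆ range 3 := fun b hb => by
      obtain ⟨t, ht, -, rfl⟩ := hZ b hb
      exact mem_range.2 (Nat.lt_succ_of_le ((hT t ht).dec hj hk).2.2)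
    simpa using card_le_card this
  obtain ⟨T₂, s₂, c₂, v₂⟩ := exists_class T₁ (fun q => (q.1.2.i, q.2.2.i))
    (fun q => tr (2 * j) q.2.1) (MM j) fun a Z hZ =>
      D.fine.near j k hk (gam j (gd j n) (D.ξ j a.1) (D.ξ k a.2)) (dig n) Z fun e he => by
        obtain ⟨t, ht, rfl, rfl⟩ := hZ e he
        have r := hT t (s₁ ht)
        exact ⟨_, r.1.1, _, r.2.1.1, rfl, fun i hi => ((r.dec hj hk).1 i hi).1⟩
  have hγ : ∃ γ, ∀ q ∈ T₂, outc D j k n q = γ := by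
    rcases T₂.eq_empty_or_nonempty with h0 | ⟨q₀, h0⟩
    · exact ⟨0, fun q hq => absurd (h0 ▸ hq) (notMem_empty q)⟩
    · exact ⟨_, fun q hq => v₁ q (s₂ hq) q₀ (s₂ h0) rfl⟩
  obtain ⟨γ, hγ⟩ := hγ
  refine ⟨T₂, s₂.trans s₁, γ, ?_, hγ, fun q hq q' hq' h1 h2 => v₂ q hq q' hq' (Prod.ext h1 h2)⟩
  rw [mul_assoc]
  exact c₁.trans (Nat.mul_le_mul_left 3 c₂)

/-- The tuple of a pair of described elements. -/
def T3Near_tp (D : Data) (j k : ℕ) (q : Quad) : Tup :=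
  ⟨q.1.2.i, q.2.2.i, tr (2 * j) fun s => q.1.2.x s + q.2.2.x s, q.1.2.η, q.2.2.η,
    D.ξ k q.2.2.i (2 * j), D.ξ k q.2.2.i (2 * j + 1)⟩

theorem T3Near_xi (D : Data) {j k i : ℕ} (hjk : j ≤ k) (hk : k0 ≤ k) (hi : i < mm k) :
    ∀ s < 2 * j, D.ξ k i s < DD (s / 2) := fun s hs =>
  (mem_Box.1 (D.types.box k hk i hi)).1 s (by omega)

theorem T3Near_top {D : Data} {j k i s : ℕ} (hj : k0 ≤ j) (hk : k = j ∨ k = j + 1)
    (hi : i < mm k) (hs : s / 2 = j) : D.ξ k i s < DD j := by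
  have h := mem_Box.1 (D.types.box k (by omega) i hi)
  rcases hk with rfl | rfl
  · rw [h.2 s (by omega)]
    exact DD_pos _
  · exact hs ▸ h.1 s (by omega)

theorem T3Near_ym {D : Data} {j k n : ℕ} (hj : k0 ≤ j) (hk : k = j ∨ k = j + 1) {q : Quad}
    (h : Rep D j k n q) {s : ℕ} (hs : s < 2 * j) :
    q.1.2.x s + q.2.2.x s ≤ ym j (gd j n) (D.ξ j q.1.2.i) (D.ξ k q.2.2.i) s ∧
      ym j (gd j n) (D.ξ j q.1.2.i) (D.ξ k q.2.2.i) s ≤ q.1.2.x s + q.2.2.x s + 2 := by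
  have h1 := ((h.dec hj hk).1 s hs).2
  have h2 := carry_le ((mem_Box.1 (D.fine.box j h.1.1)).1 s hs)
    ((mem_Box.1 (D.fine.box k h.2.1.1)).1 s (by omega))
    (gam_le j (gd j n) (T3Near_xi D le_rfl hj (mem_cells.1 h.1.2.2.1).2.1)
      (T3Near_xi D (j := j) (by omega) (by omega) (mem_cells.1 h.2.1.2.2.1).2.1) hs.le)
  exact ⟨h1 ▸ Nat.le_add_right _ _, h1 ▸ Nat.add_le_add_left h2 _⟩

theorem T3Near_SS {D : Data} {j k n : ℕ} (hj : k0 ≤ j) (hk : k = j ∨ k = j + 1) {q : Quad}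
    (h : Rep D j k n q) : ym j (gd j n) (D.ξ j q.1.2.i) (D.ξ k q.2.2.i) ∈ SS j :=
  mem_SS_of_sum hk (mem_cells.1 h.1.2.2.1).2.2.2.1
    (mem_cells.1 h.2.1.2.2.1).2.2.2.1 (ym_mem _ _ _ _) fun _ hs => (T3Near_ym hj hk h hs).2

theorem T3Near_one {D : Data} {j k n : ℕ} (hj : k0 ≤ j) (hk : k = j ∨ k = j + 1) {q q' : Quad}
    (h : Rep D j k n q) (h' : Rep D j k n q') (h1 : q.1.2.i = q'.1.2.i) (h2 : q.2.2.i = q'.2.2.i)
    (h3 : tr (2 * j) q.2.1 = tr (2 * j) q'.2.1) : T3Near_tp D j k q = T3Near_tp D j k q' := by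
  have h4 := h.fst_eq hj hk h' h1 h2 h3
  refine Tup.ext h1 h2 ?_ ?_ ?_ (congrArg (D.ξ k · (2 * j)) h2) (congrArg (D.ξ k · (2 * j + 1)) h2)
  · funext s
    change tr (2 * j) (fun s => q.1.2.x s + q.2.2.x s) s = tr (2 * j) (fun s => q'.1.2.x s + q'.2.2.x s) s
    by_cases hs : s < 2 * j
    · have a := ((h.dec hj hk).1 s hs).2
      have b := ((h'.dec hj hk).1 s hs).2
      have c := congrFun h3 s
      rw [tr_lt hs, tr_lt hs] at c ⊢
      rw [h1, h2, h4, c, ← b] at a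
      exact Nat.add_right_cancel a
    · rw [tr_ge (by omega), tr_ge (by omega)]
  · change q.1.2.η = q'.1.2.η
    rw [h.1.2.2.2, h'.1.2.2.2, h4]
  · change q.2.2.η = q'.2.2.η
    rw [h.2.1.2.2.2, h'.2.1.2.2.2, ← tr_tr (show 2 * k - 2 ≤ 2 * j by omega), h3,
      tr_tr (by omega)]

/-- The frame of a class. -/
theorem exists_frame {D : Data} {j k n : ℕ} (hj : k0 ≤ j) (hk : k = j ∨ k = j + 1)
    (T : Finset Quad) (hT : ∀ q ∈ T, Rep D j k n q)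
    (hf : ∀ q ∈ T, ∀ q' ∈ T, q.1.2.i = q'.1.2.i → q.2.2.i = q'.2.2.i →
      tr (2 * j) q.2.1 = tr (2 * j) q'.2.1) {N : ℕ} (hN : N < 2 ^ (11 * sg (j + 2))) :
    ∃ P, Fr j k N P ∧
      ∀ q ∈ T, ∃ t ∈ P, Fit j k t q.1.2 q.2.2 ∧ t.o₀ = D.ξ k q.2.2.i (2 * j) ∧
        t.o₁ = D.ξ k q.2.2.i (2 * j + 1) := by
  have hjk : j ≤ k := by omega
  obtain ⟨P, hP⟩ : ∃ P : Finset Tup, ∀ t, t ∈ P ↔ ∃ q ∈ T, T3Near_tp D j k q = t :=
    ⟨T.image (T3Near_tp D j k), fun _ => mem_image⟩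
  have one : ∀ t ∈ P, ∀ t' ∈ P, t.i = t'.i → t.i' = t'.i' → t = t' := fun t ht t' ht' h1 h2 => by
    obtain ⟨q, hq, rfl⟩ := (hP t).1 ht
    obtain ⟨q', hq', rfl⟩ := (hP t').1 ht'
    exact T3Near_one hj hk (hT q hq) (hT q' hq') h1 h2 (hf q hq q' hq' h1 h2)
  have inj : Set.InjOn (fun t : Tup => (t.i, t.i')) P := fun t ht t' ht' h =>
    one t ht t' ht' (congrArg Prod.fst h) (congrArg Prod.snd h)
  have key : ∀ t ∈ P, t.i < mm j ∧ t.i' < mm k ∧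
      ym j (gd j n) (D.ξ j t.i) (D.ξ k t.i') ∈ SS j := fun t ht => by
    obtain ⟨q, hq, rfl⟩ := (hP t).1 ht
    exact ⟨(mem_cells.1 (hT q hq).1.2.2.1).2.1, (mem_cells.1 (hT q hq).2.1.2.2.1).2.1,
      T3Near_SS hj hk (hT q hq)⟩
  refine ⟨P, ⟨hN, fun t ht => ?_, ?_, one, fun i => ?_, fun i' => ?_⟩, fun q hq => ?_⟩
  · obtain ⟨q, hq, rfl⟩ := (hP t).1 ht
    have a := mem_cells.1 (hT q hq).1.2.2.1
    have b := mem_cells.1 (hT q hq).2.1.2.2.1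
    exact mem_tups.2 ⟨a.2.1, b.2.1, tr_mem_Box fun s hs => (T3Near_ym hj hk (hT q hq) hs).1.trans_lt
      ((mem_Box.1 (ym_mem _ _ _ _)).1 s hs), a.2.2.1, b.2.2.1, T3Near_top hj hk b.2.1 (by omega),
      T3Near_top hj hk b.2.1 (by omega)⟩
  · refine le_trans (card_le_card_of_injOn _ (fun t ht => ?_) inj)
      (D.types.list j k hj hk _ (gd_mem j n))
    obtain ⟨a, b, c⟩ := key t ht
    exact mem_coe.2 (mem_filter.2 ⟨mem_product.2 ⟨mem_range.2 a, mem_range.2 b⟩, c⟩)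
  · rcases (P.filter fun t => t.i = i).eq_empty_or_nonempty with h | ⟨t₀, h⟩
    · rw [h]
      exact Nat.zero_le _
    obtain ⟨h0, rfl⟩ := mem_filter.1 h
    refine le_trans (card_le_card_of_injOn Tup.i' (fun t ht => ?_) fun t ht t' ht' e => ?_)
      (D.types.deg j k (by omega) hk _ (gd_mem j n) _ (T3Near_xi D le_rfl hj (key t₀ h0).1))
    · obtain ⟨a, b⟩ := mem_filter.1 (mem_coe.1 ht)
      exact mem_coe.2 (mem_filter.2 ⟨mem_range.2 (key t a).2.1, b ▸ (key t a).2.2⟩)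
    · obtain ⟨a, b⟩ := mem_filter.1 (mem_coe.1 ht)
      obtain ⟨a', b'⟩ := mem_filter.1 (mem_coe.1 ht')
      exact one t a t' a' (b.trans b'.symm) e
  · rcases (P.filter fun t => t.i' = i').eq_empty_or_nonempty with h | ⟨t₀, h⟩
    · rw [h]
      exact Nat.zero_le _
    obtain ⟨h0, rfl⟩ := mem_filter.1 h
    refine le_trans (card_le_card_of_injOn Tup.i (fun t ht => ?_) fun t ht t' ht' e => ?_)
      ((D.types.deg j j hj (Or.inl rfl) _ (gd_mem j n) _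
        (T3Near_xi D hjk (by omega) (key t₀ h0).2.1)).trans (yy_mono hjk))
    · obtain ⟨a, b⟩ := mem_filter.1 (mem_coe.1 ht)
      exact mem_coe.2 (mem_filter.2 ⟨mem_range.2 (key t a).1, by
        rw [ym_comm, ← b]
        exact (key t a).2.2⟩)
    · obtain ⟨a, b⟩ := mem_filter.1 (mem_coe.1 ht)
      obtain ⟨a', b'⟩ := mem_filter.1 (mem_coe.1 ht')
      exact one t a t' a' e (b.trans b'.symm)
  · exact ⟨_, (hP _).2 ⟨q, hq, rfl⟩, ⟨(hT q hq).1.2.2.1, (hT q hq).2.1.2.2.1, rfl, rfl, rfl, rfl,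
      fun s hs => (tr_lt hs fun s => q.1.2.x s + q.2.2.x s).symm⟩, rfl, rfl⟩

/-- On a class the two cells determine the pair. -/
theorem T3Nearc_inj {D : Data} {k n : ℕ} (hk : k0 ≤ k) {T : Finset Quad}
    (hT : ∀ q ∈ T, Rep D k k n q)
    (hf : ∀ q ∈ T, ∀ q' ∈ T, q.1.2.i = q'.1.2.i → q.2.2.i = q'.2.2.i →
      tr (2 * k) q.2.1 = tr (2 * k) q'.2.1) :
    Set.InjOn (fun q : Quad => (q.1.2, q.2.2)) (T : Set Quad) := by
  intro q hq q' hq' e
  have e1 : q.1.2 = q'.1.2 := (Prod.ext_iff.1 e).1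
  have e2 : q.2.2 = q'.2.2 := (Prod.ext_iff.1 e).2
  have h3 := hf q hq q' hq' (by rw [e1]) (by rw [e2])
  have h4 := Rep.fst_eq hk (Or.inl rfl) (hT q hq) (hT q' hq') (by rw [e1]) (by rw [e2]) h3
  rw [tr_eq_self (D.fine.box k (hT q hq).2.1.1),
    tr_eq_self (D.fine.box k (hT q' hq').2.1.1)] at h3
  exact Prod.ext (Prod.ext h4 e1) (Prod.ext h3 e2)

theorem T3Nearc_top {D : Data} {k n : ℕ} (hk : k0 ≤ k) {q : Quad} (h : Rep D k k n q) :
    q.1.2.z + q.2.2.z + outc D k k n q = n / WW (2 * k) := by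
  have h1 := (Rep.dec hk (Or.inl rfl) h).2.1
  rwa [upper, if_pos rfl] at h1

theorem T3Nearc_lt {D : Data} {k n : ℕ} (hk : k0 ≤ k) (T : Finset Quad)
    (hT : ∀ q ∈ T, Rep D k k n q) (hz : ∀ q ∈ T, q.1.2.z < q.2.2.z) :
    T.card ≤ 3 * MM k * gg k := by
  classical
  obtain ⟨T', hs, γ, hc, hγ, hf⟩ := exists_sub hk (Or.inl rfl) T hT
  refine hc.trans (Nat.mul_le_mul_left _ ?_)
  rcases T'.eq_empty_or_nonempty with rfl | ⟨q0, hq0⟩
  · simp
  have hT' : ∀ q ∈ T', Rep D k k n q := fun q hq => hT q (hs hq)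
  have hn : n < 12 * WW (2 * k + 3) := by
    obtain ⟨h1, h2, h3⟩ := hT' q0 hq0
    have a1 := el_lt D.types hk (D.fine.box k h1.1) h1.2.2.1
    have a2 := el_lt D.types hk (D.fine.box k h2.1) h2.2.2.1
    omega
  have hN : n / WW (2 * k) - γ < 2 ^ (11 * sg (k + 2)) :=
    lt_of_le_of_lt (Nat.sub_le _ _) (top_lt (Or.inl rfl) hn)
  obtain ⟨P, hP, hfit⟩ := exists_frame hk (Or.inl rfl) T' hT' hf hN
  rw [← card_image_of_injOn (T3Nearc_inj hk hT' hf)]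
  refine (D.good.k0' k hk _ P hP _
    fun e he => ?_).le
  obtain ⟨q, hq, rfl⟩ := mem_image.1 he
  obtain ⟨t, ht, h1, -⟩ := hfit q hq
  refine ⟨(hT' q hq).1.2.1, (hT' q hq).2.1.2.1, t, ht, h1, ?_, hz q (hs hq)⟩
  have h2 := T3Nearc_top hk (hT' q hq)
  rw [hγ q hq] at h2
  exact Nat.eq_sub_of_add_eq h2

theorem T3Nearc_gt {D : Data} {k n : ℕ} (hk : k0 ≤ k) (T : Finset Quad)
    (hT : ∀ q ∈ T, Rep D k k n q) (hz : ∀ q ∈ T, q.2.2.z < q.1.2.z) :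
    T.card ≤ 3 * MM k * gg k := by
  classical
  rw [← card_image_of_injective T Prod.swap_injective]
  refine T3Nearc_lt (D := D) (n := n) hk _ (fun q hq => ?_) fun q hq => ?_
  · obtain ⟨q', hq', rfl⟩ := mem_image.1 hq
    obtain ⟨h1, h2, h3⟩ := hT q' hq'
    exact ⟨h2, h1, (add_comm _ _).trans h3⟩
  · obtain ⟨q', hq', rfl⟩ := mem_image.1 hq
    exact hz q' hq'

theorem T3Nearc_eq {D : Data} {k n : ℕ} (hk : k0 ≤ k) (T : Finset Quad)
    (hT : ∀ q ∈ T, Rep D k k n q) (hz : ∀ q ∈ T, q.1.2.z = q.2.2.z) :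
    T.card ≤ 3 * MM k * d0 ^ 2 := by
  classical
  obtain ⟨T', hs, γ, hc, hγ, hf⟩ := exists_sub hk (Or.inl rfl) T hT
  refine hc.trans (Nat.mul_le_mul_left _ ?_)
  have hT' : ∀ q ∈ T', Rep D k k n q := fun q hq => hT q (hs hq)
  have h0 : ∀ q ∈ T', q.2.2.z = (n / WW (2 * k) - γ) / 2 := fun q hq => by
    have h2 := T3Nearc_top hk (hT' q hq)
    rw [hγ q hq, hz q (hs hq)] at h2
    rw [← h2, Nat.add_sub_cancel]
    omega
  have h1 : (T'.image fun q : Quad => q.1.2).card < d0 := by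
    refine D.good.ka k hk ((n / WW (2 * k) - γ) / 2) _ fun c hc => ?_
    obtain ⟨q, hq, rfl⟩ := mem_image.1 hc
    exact ⟨(hT' q hq).1.2.1, (hT' q hq).1.2.2.1, (hz q (hs hq)).trans (h0 q hq)⟩
  have h2 : (T'.image fun q : Quad => q.2.2).card < d0 := by
    refine D.good.ka k hk ((n / WW (2 * k) - γ) / 2) _ fun c hc => ?_
    obtain ⟨q, hq, rfl⟩ := mem_image.1 hc
    exact ⟨(hT' q hq).2.1.2.1, (hT' q hq).2.1.2.2.1, h0 q hq⟩
  have h3 : T'.card ≤ ((T'.image fun q : Quad => q.1.2) ×ˢ T'.image fun q : Quad => q.2.2).card :=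
    card_le_card_of_injOn _ (fun q hq => mem_coe.2 (mem_product.2
      ⟨mem_image_of_mem _ hq, mem_image_of_mem _ hq⟩)) (T3Nearc_inj hk hT' hf)
  rw [card_product] at h3
  rw [sq]
  exact h3.trans (Nat.mul_le_mul h1.le h2.le)

theorem near0 (D : Data) {k n : ℕ} (hk : k0 ≤ k) (Z : Finset (ℕ × ℕ))
    (hZ : ∀ y ∈ Z, y.1 ∈ D.A k ∧ y.2 ∈ D.A k ∧ y.1 + y.2 = n) :
    Z.card ≤ 6 * MM k * gg k + 9 * MM k * d0 ^ 2 := by
  classical
  have hq : ∀ y : ℕ × ℕ, ∃ q : Quad, y ∈ Z → Rep D k k n q ∧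
      y = (el D.ξ q.1.1 q.1.2, el D.ξ q.2.1 q.2.2) := fun y => by
    by_cases hy : y ∈ Z
    · obtain ⟨⟨d, c, h1, h2⟩, ⟨d', c', h3, h4⟩, h5⟩ := hZ y hy
      exact ⟨((d, c), d', c'), fun _ => ⟨⟨h1, h3, by rw [← h5, h2, h4]⟩, Prod.ext h2 h4⟩⟩
    · exact ⟨((0, ⟨0, 0, 0, 0, 0⟩), 0, ⟨0, 0, 0, 0, 0⟩), fun h => absurd h hy⟩
  choose F hF using hq
  have hT : ∀ q ∈ Z.image F, Rep D k k n q := fun q hq => by
    obtain ⟨y, hy, rfl⟩ := mem_image.1 hq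
    exact (hF y hy).1
  have e : (Z.image F).card = Z.card := card_image_of_injOn fun y hy y' hy' h => by
    rw [(hF y hy).2, (hF y' hy').2, h]
  rw [← e]
  generalize Z.image F = T at hT
  have h1 := T3Nearc_lt hk (T.filter fun q => q.1.2.z < q.2.2.z)
    (fun q hq => hT q (mem_filter.1 hq).1) fun q hq => (mem_filter.1 hq).2
  have h2 := T3Nearc_gt hk (T.filter fun q => q.2.2.z < q.1.2.z)
    (fun q hq => hT q (mem_filter.1 hq).1) fun q hq => (mem_filter.1 hq).2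
  have h3 := T3Nearc_eq hk (T.filter fun q => q.1.2.z = q.2.2.z)
    (fun q hq => hT q (mem_filter.1 hq).1) fun q hq => (mem_filter.1 hq).2
  have h4 : T ⊆ (T.filter fun q => q.1.2.z < q.2.2.z) ∪ (T.filter fun q => q.2.2.z < q.1.2.z) ∪
      T.filter fun q => q.1.2.z = q.2.2.z := fun q hq => by
    simp only [mem_union, mem_filter, hq, true_and]
    omega
  have h5 := (card_le_card h4).trans ((card_union_le _ _).trans
    (Nat.add_le_add_right (card_union_le _ _) _))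
  have h6 : 6 * MM k * gg k = 3 * MM k * gg k + 3 * MM k * gg k := by ring
  have h7 : 3 * MM k * d0 ^ 2 ≤ 9 * MM k * d0 ^ 2 :=
    Nat.mul_le_mul_right _ (Nat.mul_le_mul_right _ (by norm_num))
  rw [h6]
  exact h5.trans (Nat.add_le_add (Nat.add_le_add h1 h2) (h3.trans h7))

theorem near1 (D : Data) {j n : ℕ} (hj : k0 ≤ j) (Z : Finset (ℕ × ℕ))
    (hZ : ∀ y ∈ Z, y.1 ∈ D.A j ∧ y.2 ∈ D.A (j + 1) ∧ y.1 + y.2 = n) :
    Z.card ≤ 3 * MM j * gg (j + 1) := by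
  classical
  rcases Z.eq_empty_or_nonempty with rfl | ⟨y₀, hy₀⟩
  · simp
  have hj' : k0 ≤ j + 1 := by omega
  have hex : ∀ y ∈ Z, ∃ q : Quad, Rep D j (j + 1) n q ∧
      y = (el D.ξ q.1.1 q.1.2, el D.ξ q.2.1 q.2.2) := by
    intro y hy
    obtain ⟨⟨d, c, h1, e1⟩, ⟨d', c', h2, e2⟩, h3⟩ := hZ y hy
    exact ⟨((d, c), d', c'), ⟨h1, h2, by rw [← h3, e1, e2]⟩, Prod.ext e1 e2⟩
  have hn : n < 12 * WW (2 * (j + 1) + 3) := by
    obtain ⟨q, ⟨h1, h2, h3⟩, -⟩ := hex y₀ hy₀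
    have a1 := el_lt D.types hj (D.fine.box _ h1.1) h1.2.2.1
    have a2 := el_lt D.types hj' (D.fine.box _ h2.1) h2.2.2.1
    have a3 : WW (2 * j + 3) ≤ WW (2 * (j + 1) + 3) := WW_mono (by omega)
    omega
  have : Nonempty Quad := ⟨(hex y₀ hy₀).choose⟩
  choose! f hf hf' using hex
  have hinj : Set.InjOn f Z := fun a ha b hb h => by rw [hf' a ha, hf' b hb, h]
  have hT : ∀ q ∈ Z.image f, Rep D j (j + 1) n q := by
    intro q hq
    obtain ⟨y, hy, rfl⟩ := mem_image.1 hq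
    exact hf y hy
  obtain ⟨T', hsub, γ, hc, hγ, hcl⟩ := exists_sub hj (Or.inr rfl) (Z.image f) hT
  have hT' : ∀ q ∈ T', Rep D j (j + 1) n q := fun q hq => hT q (hsub hq)
  have hN : n / WW (2 * j) - γ < 2 ^ (11 * sg (j + 2)) :=
    lt_of_le_of_lt (Nat.sub_le _ _) (top_lt (Or.inr rfl) hn)
  obtain ⟨P, hP, hfit⟩ := exists_frame hj (Or.inr rfl) T' hT' hcl hN
  have hup : ∀ q ∈ T', q.1.2.z +
      ((q.2.1 (2 * j) + pp j * (D.ξ (j + 1) q.2.2.i (2 * j) + q.2.2.x (2 * j))) +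
        BB j * (q.2.1 (2 * j + 1) +
          pp j * (D.ξ (j + 1) q.2.2.i (2 * j + 1) + q.2.2.x (2 * j + 1))) +
        BB j ^ 2 * q.2.2.z) = n / WW (2 * j) - γ := by
    intro q hq
    have h1 := (Rep.dec hj (Or.inr rfl) (hT' q hq)).2.1
    rw [hγ q hq, upper, if_neg (by omega)] at h1
    omega
  have hlt : (T'.image fun q => (q.1.2, q.2.2)).card < gg (j + 1) := by
    refine D.good.k1 j hj _ P hP _ fun e he => ?_
    obtain ⟨q, hq, rfl⟩ := mem_image.1 he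
    obtain ⟨t, ht, h1, h2, h3⟩ := hfit q hq
    refine ⟨(hT' q hq).1.2.1, (hT' q hq).2.1.2.1, t, ht, h1, q.2.1, (hT' q hq).2.1.1, ?_⟩
    have := hup q hq
    rw [h2, h3]
    dsimp only
    omega
  have hinj' : Set.InjOn (fun q : Quad => (q.1.2, q.2.2)) T' := by
    intro q hq q' hq' h
    have hq : q ∈ T' := hq
    have hq' : q' ∈ T' := hq'
    have e1 : q.1.2 = q'.1.2 := (Prod.ext_iff.1 h).1
    have e2 : q.2.2 = q'.2.2 := (Prod.ext_iff.1 h).2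
    have e3 := hcl q hq q' hq' (by rw [e1]) (by rw [e2])
    have e4 := Rep.fst_eq hj (Or.inr rfl) (hT' q hq) (hT' q' hq') (by rw [e1]) (by rw [e2]) e3
    have b1 := D.fine.box _ (hT' q hq).2.1.1
    have b2 := D.fine.box _ (hT' q' hq').2.1.1
    have hx := (mem_XX.1 (mem_cells.1 (hT' q' hq').2.1.2.2.1).2.2.2.1).1
    have d0' : 2 * j / 2 = j := by omega
    have d1' : (2 * j + 1) / 2 = j := by omega
    have u1 := (mem_Box.1 b1).1 (2 * j) (by omega)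
    have u2 := (mem_Box.1 b1).1 (2 * j + 1) (by omega)
    have u3 := (mem_Box.1 b2).1 (2 * j) (by omega)
    have u4 := (mem_Box.1 b2).1 (2 * j + 1) (by omega)
    have x1 := hx (2 * j) (by omega)
    have x2 := hx (2 * j + 1) (by omega)
    rw [d0'] at u1 u3 x1
    rw [d1'] at u2 u4 x2
    have k1 := hup q hq
    have k2 := hup q' hq'
    rw [e1, e2] at k1
    have k3 := top_unique u1 u2 u3 u4 x1 x2 x1 x2 (Nat.add_left_cancel (k1.trans k2.symm))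
    have e5 : q.2.1 = q'.2.1 := by
      refine Box_ext b1 b2 fun i hi => ?_
      by_cases h1 : i < 2 * j
      · have := congrFun e3 i
        rwa [tr_lt h1, tr_lt h1] at this
      · rcases (by omega : i = 2 * j ∨ i = 2 * j + 1) with rfl | rfl
        · exact k3.1
        · exact k3.2.1
    exact Prod.ext (Prod.ext e4 e1) (Prod.ext e5 e2)
  rw [card_image_of_injOn hinj'] at hlt
  rw [card_image_of_injOn hinj] at hc
  exact hc.trans (Nat.mul_le_mul_left _ hlt.le)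

end Pool.Agent.P.MP_d5a1e1_nt.T3
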