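import Pool.Agent.P.MP_d5a1e1_nt.T3Good
import Pool.Agent.P.MP_d5a1e1_nt.T3Cover
import Pool.Agent.P.MP_d5a1e1_nt.T3Near
import Pool.Agent.P.MP_d5a1e1_nt.T3Far

/-! The thin basis. -/

namespace Pool.Agent.P.MP_d5a1e1_nt.T3

open Finset TB

section

variable [Kap]

/-- The basis. -/
def Data.AA (D : Data) : Set ℕ := {a | a < 5 * WW (2 * k0 + 1) ∨ ∃ k, k0 ≤ k ∧ a ∈ D.A k}

theorem T3Maina_lt (i : ℕ) : i < WW i := by
  induction i with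
  | zero => exact WW_pos 0
  | succ i ih => have := WW_step i; omega

theorem T3Maina_big (a n : ℕ) : n < 5 * WW (2 * (a + n) + 1) := by
  have := T3Maina_lt (2 * (a + n) + 1)
  omega

theorem basis (D : Data) (n : ℕ) : ∃ a ∈ D.AA, ∃ b ∈ D.AA, a + b = n := by
  have key : ∀ k, k0 ≤ k → n < 5 * WW (2 * k + 1) → ∃ a ∈ D.AA, ∃ b ∈ D.AA, a + b = n := by
    intro k hk
    induction k, hk using Nat.le_induction with
    | base =>
      exact fun h => ⟨n, Or.inl h, 0, Or.inl (Nat.mul_pos (by norm_num) (WW_pos _)), Nat.add_zero n⟩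
    | succ k hk ih =>
      intro h
      by_cases h1 : n < 5 * WW (2 * k + 1)
      · exact ih h1
      · rw [show 2 * (k + 1) + 1 = 2 * k + 3 by ring] at h
        obtain ⟨a, ha, b, hb, e⟩ := cover D hk (not_lt.1 h1) h
        exact ⟨a, Or.inr ⟨k, hk, ha⟩, b, Or.inr ⟨k, hk, hb⟩, e⟩
  exact key _ (Nat.le_add_right k0 n) (T3Maina_big k0 n)

theorem T3Maina_num {K y M d : ℕ} (hy : 1 ≤ y) (hM : M ≤ K * y ^ 13) :
    6 * M * (600 * y ^ (4 * ka + 19)) + 9 * M * d ^ 2 + 3 * M * (600 * y ^ (4 * ka + 19)) + 126 * d * y ^ (4 * ka + 12) ≤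
      (5400 * K + 9 * K * d ^ 2 + 126 * d) * y ^ (4 * ka + 32) := by
  have h1 : y ^ 13 ≤ y ^ (4 * ka + 32) := Nat.pow_le_pow_right hy (by omega)
  have h2 : y ^ (4 * ka + 12) ≤ y ^ (4 * ka + 32) := Nat.pow_le_pow_right hy (by omega)
  have h3 : M * y ^ (4 * ka + 19) ≤ K * y ^ (4 * ka + 32) := by
    refine (Nat.mul_le_mul_right _ hM).trans (le_of_eq ?_)
    rw [mul_assoc, ← pow_add, add_comm 13]
  have h4 : M * d ^ 2 ≤ K * y ^ (4 * ka + 32) * d ^ 2 :=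
    Nat.mul_le_mul_right _ (hM.trans (Nat.mul_le_mul_left _ h1))
  have h5 : d * y ^ (4 * ka + 12) ≤ d * y ^ (4 * ka + 32) := Nat.mul_le_mul_left _ h2
  generalize y ^ (4 * ka + 32) = A at *
  generalize y ^ (4 * ka + 19) = B at *
  generalize y ^ (4 * ka + 12) = C at *
  generalize d ^ 2 = E at *
  nlinarith

theorem state_le (D : Data) : ∃ K : ℕ, ∀ k, k0 ≤ k → ∀ n (Z : Finset (ℕ × ℕ)),
    (∀ y ∈ Z, (∃ j, k0 ≤ j ∧ j ≤ k ∧ y.1 ∈ D.A j) ∧ y.2 ∈ D.A k ∧ y.1 + y.2 = n) →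
      Z.card ≤ K * yy k ^ (4 * ka + 32) := by
  classical
  obtain ⟨K, hK⟩ := MM_le
  refine ⟨5400 * K + 9 * K * d0 ^ 2 + 126 * d0, fun k hk n Z hZ => ?_⟩
  have h0 := near0 D (n := n) hk (Z.filter fun y => y.1 ∈ D.A k) fun y hy =>
    ⟨(mem_filter.1 hy).2, (hZ y (mem_filter.1 hy).1).2⟩
  have h2 := far D (n := n) hk (Z.filter fun y => ∃ j, k0 ≤ j ∧ j + 2 ≤ k ∧ y.1 ∈ D.A j)
    fun y hy => ⟨(mem_filter.1 hy).2, (hZ y (mem_filter.1 hy).1).2⟩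
  have h1 : (Z.filter fun y => ∃ j, k0 ≤ j ∧ j + 1 = k ∧ y.1 ∈ D.A j).card ≤
      3 * MM k * gg k := by
    rcases (Z.filter fun y => ∃ j, k0 ≤ j ∧ j + 1 = k ∧ y.1 ∈ D.A j).eq_empty_or_nonempty with
      h | ⟨y, hy⟩
    · rw [h, card_empty]
      exact Nat.zero_le _
    · obtain ⟨j, hj, rfl, -⟩ := (mem_filter.1 hy).2
      refine (near1 D (n := n) hj _ fun x hx => ?_).trans
        (Nat.mul_le_mul_right _ (Nat.mul_le_mul_left _ (MM_mono (Nat.le_succ j))))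
      obtain ⟨i, -, e, hi⟩ := (mem_filter.1 hx).2
      obtain rfl : i = j := by omega
      exact ⟨hi, (hZ x (mem_filter.1 hx).1).2⟩
  have hs : Z ⊆ (Z.filter fun y => y.1 ∈ D.A k) ∪
      (Z.filter fun y => ∃ j, k0 ≤ j ∧ j + 1 = k ∧ y.1 ∈ D.A j) ∪
      Z.filter fun y => ∃ j, k0 ≤ j ∧ j + 2 ≤ k ∧ y.1 ∈ D.A j := by
    intro y hy
    obtain ⟨j, a1, a2, a3⟩ := (hZ y hy).1
    simp only [mem_union, mem_filter]
    rcases a2.eq_or_lt with rfl | a4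
    · exact Or.inl (Or.inl ⟨hy, a3⟩)
    · rcases (Nat.succ_le_of_lt a4).eq_or_lt with a5 | a5
      · exact Or.inl (Or.inr ⟨hy, j, a1, a5, a3⟩)
      · exact Or.inr ⟨hy, j, a1, a5, a3⟩
  refine ((card_le_card hs).trans ((card_union_le _ _).trans
    (Nat.add_le_add ((card_union_le _ _).trans (Nat.add_le_add h0 h1)) h2))).trans ?_
  exact T3Maina_num (le_trans one_le_two (yy_ge k)) (hK k)

theorem yy_log {θ : ℝ} (hθ : ((4 * ka + 32 : ℕ) : ℝ) ≤ (6 * ka + 12 : ℕ) * θ) (h0 : 0 ≤ θ) :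
    ∃ K : ℝ, 0 ≤ K ∧ ∀ k, k0 ≤ k → ∀ n : ℕ, WW (2 * k) ≤ n →
    (yy k : ℝ) ^ (4 * ka + 32) ≤ K * Real.log n ^ θ := by
  have hl : 0 < Real.log 2 := Real.log_pos one_lt_two
  have hp : 0 < Real.log 2 ^ θ := Real.rpow_pos_of_pos hl _
  refine ⟨3 ^ (4 * ka + 32) / Real.log 2 ^ θ, by positivity, fun k hk n hn => ?_⟩
  have h1 := (WW_ge hk).trans hn
  have h2 := yy_ge k
  generalize yy k = y at h1 h2
  have h3 : 1 ≤ y / 2 := by omega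
  have h4 : y ≤ 3 * (y / 2) := by omega
  generalize y / 2 = h at h1 h3 h4
  have h5 : (1 : ℝ) ≤ h := by exact_mod_cast h3
  have h6 : (h : ℝ) ^ (6 * ka + 12) * Real.log 2 ≤ Real.log n := by
    have a : ((2 : ℝ)) ^ (h ^ (6 * ka + 12)) ≤ n := by exact_mod_cast h1
    have b := Real.log_le_log (by positivity) a
    rwa [Real.log_pow, Nat.cast_pow] at b
  have h7 : ((h : ℝ) ^ (6 * ka + 12) * Real.log 2) ^ θ ≤ Real.log n ^ θ :=
    Real.rpow_le_rpow (by positivity) h6 h0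
  have h8 : (h : ℝ) ^ (4 * ka + 32) ≤ ((h : ℝ) ^ (6 * ka + 12)) ^ θ := by
    rw [← Real.rpow_natCast, ← Real.rpow_natCast, ← Real.rpow_mul (by positivity)]
    exact Real.rpow_le_rpow_of_exponent_le h5 hθ
  rw [Real.mul_rpow (by positivity) hl.le] at h7
  have h9 : (y : ℝ) ^ (4 * ka + 32) ≤ 3 ^ (4 * ka + 32) * (h : ℝ) ^ (4 * ka + 32) := by
    rw [← mul_pow]
    exact pow_le_pow_left₀ (by positivity) (by exact_mod_cast h4) _
  rw [div_mul_eq_mul_div, le_div_iff₀ hp]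
  refine (mul_le_mul_of_nonneg_right h9 hp.le).trans ?_
  rw [mul_assoc]
  exact mul_le_mul_of_nonneg_left ((mul_le_mul_of_nonneg_right h8 hp.le).trans h7)
    (by positivity)

theorem T3Mainb_bd (D : Data) {k a : ℕ} (hk : k0 ≤ k) (ha : a ∈ D.A k) :
    WW (2 * k + 1) ≤ a ∧ a < 6 * WW (2 * k + 3) := by
  obtain ⟨d, c, h, rfl⟩ := ha
  exact ⟨el_ge h.2.2.1, el_lt D.types hk (D.fine.box k h.1) h.2.2.1⟩

open Classical in
/-- Pairs whose second entry has state `k` and whose first entry has a state `≤ k`. -/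
noncomputable def T3Mainb_P (D : Data) (n k : ℕ) : Finset (ℕ × ℕ) :=
  {y ∈ antidiagonal n | (∃ j, k0 ≤ j ∧ j ≤ k ∧ y.1 ∈ D.A j) ∧ y.2 ∈ D.A k}

theorem T3Mainb_mem {D : Data} {n k : ℕ} {y : ℕ × ℕ} : y ∈ T3Mainb_P D n k ↔
    y.1 + y.2 = n ∧ (∃ j, k0 ≤ j ∧ j ≤ k ∧ y.1 ∈ D.A j) ∧ y.2 ∈ D.A k := by
  simp [T3Mainb_P]

theorem T3Mainb_win {D : Data} {n k : ℕ} {y : ℕ × ℕ} (h : y ∈ T3Mainb_P D n k) :
    k0 ≤ k ∧ WW (2 * k + 1) ≤ n ∧ n < WW (2 * k + 4) := by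
  obtain ⟨e, ⟨j, h0, hj, h1⟩, h2⟩ := T3Mainb_mem.1 h
  have a1 := T3Mainb_bd D h0 h1
  have a2 := T3Mainb_bd D (h0.trans hj) h2
  have a3 : WW (2 * j + 3) ≤ WW (2 * k + 3) := WW_mono (by omega)
  have a4 : 16 * WW (2 * k + 3) ≤ WW (2 * k + 4) := WW_step (2 * k + 3)
  exact ⟨h0.trans hj, by omega, by omega⟩

theorem T3Mainb_two (D : Data) (n : ℕ) :
    ∃ k₁, ∀ k y, y ∈ T3Mainb_P D n k → k = k₁ ∨ k = k₁ + 1 := by
  classical
  by_cases h : ∃ k, (T3Mainb_P D n k).Nonempty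
  · refine ⟨Nat.find h, fun k y hy => ?_⟩
    obtain ⟨y', hy'⟩ := Nat.find_spec h
    have h1 : Nat.find h ≤ k := Nat.find_min' h ⟨y, hy⟩
    have h2 := T3Mainb_win hy
    have h3 := T3Mainb_win hy'
    by_contra hc
    have h4 : WW (2 * Nat.find h + 4) ≤ WW (2 * k + 1) := WW_mono (by omega)
    omega
  · exact ⟨0, fun k y hy => absurd ⟨k, y, hy⟩ h⟩

theorem T3Mainb_card (D : Data) {θ : ℝ}
    (hθ : ((4 * ka + 32 : ℕ) : ℝ) ≤ (6 * ka + 12 : ℕ) * θ) (hθ0 : 0 ≤ θ) : ∃ K : ℝ, ∀ n k : ℕ,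
    ((T3Mainb_P D n k).card : ℝ) ≤ K * Real.log n ^ θ := by
  obtain ⟨K, hK⟩ := state_le D
  obtain ⟨K', h0, hK'⟩ := yy_log hθ hθ0
  refine ⟨K * K', fun n k => ?_⟩
  rcases (T3Mainb_P D n k).eq_empty_or_nonempty with h | ⟨y, hy⟩
  · rw [h, card_empty, Nat.cast_zero]
    exact mul_nonneg (mul_nonneg (Nat.cast_nonneg _) h0)
      (Real.rpow_nonneg (Real.log_natCast_nonneg n) _)
  · obtain ⟨h1, h2, -⟩ := T3Mainb_win hy
    have h3 := hK k h1 n (T3Mainb_P D n k) fun y hy =>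
      let h := T3Mainb_mem.1 hy
      ⟨h.2.1, h.2.2, h.1⟩
    have h4 := hK' k h1 n ((WW_mono (Nat.le_succ _)).trans h2)
    have h5 : ((T3Mainb_P D n k).card : ℝ) ≤ K * (yy k : ℝ) ^ (4 * ka + 32) := by exact_mod_cast h3
    rw [mul_assoc]
    exact h5.trans (mul_le_mul_of_nonneg_left h4 (Nat.cast_nonneg _))

theorem thin_of {θ : ℝ} (hθ : ((4 * ka + 32 : ℕ) : ℝ) ≤ (6 * ka + 12 : ℕ) * θ) (hθ0 : 0 ≤ θ) :
    ∃ A : Set ℕ, (∀ n : ℕ, ∃ a ∈ A, ∃ b ∈ A, a + b = n) ∧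
    ∃ K : ℝ, ∀ n : ℕ, 2 ≤ n →
      (Set.ncard {y : ℕ × ℕ | y.1 ∈ A ∧ y.2 ∈ A ∧ y.1 + y.2 = n} : ℝ) ≤
        K * Real.log n ^ θ := by
  obtain ⟨D⟩ := exists_data
  obtain ⟨K, hK⟩ := T3Mainb_card D hθ hθ0
  obtain ⟨M, hM⟩ : ∃ M, M = 5 * WW (2 * k0 + 1) := ⟨_, rfl⟩
  have hc : 0 < Real.log 2 ^ θ := Real.rpow_pos_of_pos (Real.log_pos (by norm_num)) _
  refine ⟨D.AA, basis D, 2 * M / Real.log 2 ^ θ + 4 * K, fun n hn => ?_⟩
  obtain ⟨k, hk⟩ := T3Mainb_two D n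
  obtain ⟨Q, hQ⟩ : ∃ Q, Q = T3Mainb_P D n k ∪ T3Mainb_P D n (k + 1) := ⟨_, rfl⟩
  have hQ' : ∀ j y, y ∈ T3Mainb_P D n j → y ∈ Q := fun j y hy => by
    rw [hQ, mem_union]
    rcases hk j y hy with rfl | rfl
    · exact Or.inl hy
    · exact Or.inr hy
  have sub : {y : ℕ × ℕ | y.1 ∈ D.AA ∧ y.2 ∈ D.AA ∧ y.1 + y.2 = n} ⊆
      ↑(((range M).image fun a => (a, n - a)) ∪ ((range M).image fun a => (n - a, a)) ∪
        (Q ∪ Q.image Prod.swap)) := by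
    rintro ⟨a, b⟩ ⟨h1, h2, h3⟩
    dsimp only at h1 h2 h3
    rw [mem_coe, mem_union, mem_union, mem_union]
    rcases h1 with h1 | ⟨i, hi, h1⟩
    · exact Or.inl (Or.inl (mem_image.2 ⟨a, mem_range.2 (by omega), by rw [← h3]; simp⟩))
    rcases h2 with h2 | ⟨j, hj, h2⟩
    · exact Or.inl (Or.inr (mem_image.2 ⟨b, mem_range.2 (by omega), by rw [← h3]; simp⟩))
    rcases le_total i j with h | h
    · exact Or.inr (Or.inl (hQ' j _ (T3Mainb_mem.2 ⟨h3, ⟨i, hi, h, h1⟩, h2⟩)))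
    · exact Or.inr (Or.inr (mem_image.2 ⟨(b, a), hQ' i _
        (T3Mainb_mem.2 ⟨by dsimp only; omega, ⟨j, hj, h, h2⟩, h1⟩), rfl⟩))
  have c1 := Set.ncard_le_ncard sub (finite_toSet _)
  rw [Set.ncard_coe_finset] at c1
  have c2 := card_union_le (((range M).image fun a => (a, n - a)) ∪
    ((range M).image fun a => (n - a, a))) (Q ∪ Q.image Prod.swap)
  have c3 := card_union_le ((range M).image fun a => (a, n - a))
    ((range M).image fun a => (n - a, a))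
  have c4 := card_union_le Q (Q.image Prod.swap)
  have c5 := card_image_le (s := range M) (f := fun a => (a, n - a))
  have c6 := card_image_le (s := range M) (f := fun a => (n - a, a))
  have c7 := card_image_le (s := Q) (f := Prod.swap)
  have c8 : Q.card ≤ (T3Mainb_P D n k).card + (T3Mainb_P D n (k + 1)).card := by
    rw [hQ]; exact card_union_le _ _
  rw [card_range] at c5 c6
  have c9 : Set.ncard {y : ℕ × ℕ | y.1 ∈ D.AA ∧ y.2 ∈ D.AA ∧ y.1 + y.2 = n} ≤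
      2 * M + 2 * ((T3Mainb_P D n k).card + (T3Mainb_P D n (k + 1)).card) := by omega
  have c10 : (Set.ncard {y : ℕ × ℕ | y.1 ∈ D.AA ∧ y.2 ∈ D.AA ∧ y.1 + y.2 = n} : ℝ) ≤
      2 * M + 2 * ((T3Mainb_P D n k).card + (T3Mainb_P D n (k + 1)).card) := by exact_mod_cast c9
  have d1 := hK n k
  have d2 := hK n (k + 1)
  have d3 : Real.log 2 ^ θ ≤ Real.log n ^ θ :=
    Real.rpow_le_rpow (Real.log_pos (by norm_num)).le
      (Real.log_le_log (by norm_num) (by exact_mod_cast hn)) hθ0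
  have d4 : (2 * M : ℝ) ≤ 2 * M / Real.log 2 ^ θ * Real.log n ^ θ := by
    rw [div_mul_eq_mul_div, le_div_iff₀ hc]
    exact mul_le_mul_of_nonneg_left d3 (by positivity)
  rw [add_mul]
  linarith

end

theorem thin {θ : ℝ} (hθ : 2 / 3 < θ) :
    ∃ A : Set ℕ, (∀ n : ℕ, ∃ a ∈ A, ∃ b ∈ A, a + b = n) ∧
    ∃ K : ℝ, ∀ n : ℕ, 2 ≤ n →
      (Set.ncard {y : ℕ × ℕ | y.1 ∈ A ∧ y.2 ∈ A ∧ y.1 + y.2 = n} : ℝ) ≤
        K * Real.log n ^ θ := by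
  obtain ⟨m, hm⟩ := exists_nat_ge (32 / (6 * θ - 4))
  let _ : Kap := ⟨200 + m, Nat.le_add_right _ _⟩
  have e : ka = 200 + m := by
    unfold ka
    rfl
  refine thin_of ?_ (by linarith)
  rw [div_le_iff₀ (by linarith)] at hm
  rw [e]
  push_cast
  linarith

end Pool.Agent.P.MP_d5a1e1_nt.T3
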