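import Pool.Agent.P.MP_d5a1e1_nt.TBLab

/-! The mass of a capped shell. -/

namespace Pool.Agent.P.MP_d5a1e1_nt.TB.Lab

open Finset PowerSeries

variable {n : ℕ} {gr R : ℕ → ℕ}

/-- Mass of one group with digit weight `u` and slack weight `v`. -/
noncomputable def cg (u v : ℕ → ℝ) (c r : ℕ) : ℝ := coeff r (mk u ^ c * mk v)

theorem cg_zero (u v : ℕ → ℝ) (r : ℕ) : cg u v 0 r = v r := by simp [cg]

theorem cg_succ (u v : ℕ → ℝ) (c r : ℕ) :
    cg u v (c + 1) r = ∑ p ∈ antidiagonal r, u p.1 * cg u v c p.2 := by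
  simp only [cg]
  rw [pow_succ', mul_assoc, coeff_mul]
  simp only [coeff_mk]

theorem sum_Xs_gen (u v : ℕ → ℕ → ℝ) (G : Finset ℕ) (hG : ∀ i < n, gr (i / 2) ∈ G) :
    ∑ x ∈ Xs n gr R, (∏ i ∈ range n, u (gr (i / 2)) (x i)) *
      ∏ g ∈ G, v g (R g - gsum n gr g x) = ∏ g ∈ G, cg (u g) (v g) (gcnt n gr g) (R g) := by
  induction n generalizing R with
  | zero =>
    have : Xs 0 gr R = {0} := by
      ext x
      rw [mem_Xs, mem_singleton]
      exact ⟨fun h => funext fun i => h.1 i (Nat.zero_le _), fun h => by simp [h, gsum]⟩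
    simp [this, gcnt, cg_zero, gsum]
  | succ n ih =>
    have hg := hG n (Nat.lt_succ_self n)
    rw [sum_Xs_succ, ← mul_prod_erase G _ hg, gcnt_succ, if_pos rfl, cg_succ, sum_mul]
    refine sum_congr rfl fun p hp => ?_
    have hp' := mem_antidiagonal.1 hp
    have e1 : ∀ x : ℕ → ℕ, ∏ i ∈ range (n + 1), u (gr (i / 2)) (Function.update x n p.1 i) =
        u (gr (n / 2)) p.1 * ∏ i ∈ range n, u (gr (i / 2)) (x i) := fun x => by
      rw [prod_range_succ, Function.update_self, mul_comm]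
      congr 1
      exact prod_congr rfl fun i hi => by rw [Function.update_of_ne (mem_range.1 hi).ne]
    have e2 : ∀ (x : ℕ → ℕ) (g : ℕ), R g - gsum (n + 1) gr g (Function.update x n p.1) =
        Function.update R (gr (n / 2)) p.2 g - gsum n gr g x := fun x g => by
      have hup : gsum n gr g (Function.update x n p.1) = gsum n gr g x :=
        sum_congr rfl fun i hi => Function.update_of_ne (mem_range.1 (mem_filter.1 hi).1).ne _ _
      rw [gsum_succ, hup, Function.update_self]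
      split_ifs with h
      · subst h
        rw [Function.update_self]
        omega
      · rw [Function.update_of_ne (Ne.symm h), add_zero]
    simp only [e1, e2, mul_assoc]
    rw [← mul_sum, ih fun i hi => hG i (by omega), ← mul_prod_erase G _ hg,
      Function.update_self]
    congr 2
    refine prod_congr rfl fun g hg' => ?_
    have := (mem_erase.1 hg').1
    rw [gcnt_succ, if_neg (Ne.symm this), add_zero, Function.update_of_ne this]

/-- All coefficients are nonnegative. -/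
def Nn (f : ℝ⟦X⟧) : Prop := ∀ r, 0 ≤ coeff r f

theorem Nn.add {f g : ℝ⟦X⟧} (hf : Nn f) (hg : Nn g) : Nn (f + g) := fun r => by
  rw [map_add]
  exact add_nonneg (hf r) (hg r)

theorem Nn.mul {f g : ℝ⟦X⟧} (hf : Nn f) (hg : Nn g) : Nn (f * g) := fun r => by
  rw [coeff_mul]
  exact sum_nonneg fun p _ => mul_nonneg (hf _) (hg _)

theorem Nn.pow {f : ℝ⟦X⟧} (hf : Nn f) (c : ℕ) : Nn (f ^ c) := by
  induction c with
  | zero =>
    intro r
    rw [pow_zero, coeff_one]
    split_ifs <;> norm_num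
  | succ c ih => rw [pow_succ]; exact ih.mul hf

theorem Nn.mk {u : ℕ → ℝ} (h : ∀ x, 0 ≤ u x) : Nn (mk u) := fun r => by
  rw [coeff_mk]
  exact h r

theorem Nn.pow_sub {U B : ℝ⟦X⟧} (hU : Nn U) (hB : Nn B) (c : ℕ) : Nn ((U + B) ^ c - U ^ c) := by
  induction c with
  | zero =>
    intro r
    simp
  | succ c ih =>
    rw [show (U + B) ^ (c + 1) - U ^ (c + 1) = U * ((U + B) ^ c - U ^ c) + B * (U + B) ^ c by ring]
    exact (hU.mul ih).add (hB.mul ((hU.add hB).pow c))

theorem Nn.union {U B : ℝ⟦X⟧} (hU : Nn U) (hB : Nn B) (c : ℕ) :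
    Nn (((c : ℝ⟦X⟧) + 1) * (B * (U + B) ^ c) - ((U + B) ^ (c + 1) - U ^ (c + 1))) := by
  induction c with
  | zero =>
    intro r
    simp
  | succ c ih =>
    rw [show (((c + 1 : ℕ) : ℝ⟦X⟧) + 1) * (B * (U + B) ^ (c + 1)) -
        ((U + B) ^ (c + 1 + 1) - U ^ (c + 1 + 1)) =
        (U + B) * (((c : ℝ⟦X⟧) + 1) * (B * (U + B) ^ c) - ((U + B) ^ (c + 1) - U ^ (c + 1))) +
          B * ((U + B) ^ (c + 1) - U ^ (c + 1)) by
      push_cast
      ring]
    exact ((hU.add hB).mul ih).add (hB.mul (hU.pow_sub hB _))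

theorem mk_cw_pow (c : ℕ) (s : ℝ) : mk cw ^ c * mk (nb s) = mk (nb (c * (1 / 2) + s)) := by
  ext r
  rw [coeff_mk, ← cm_nb]
  rfl

/-- Union bound for one group. -/
theorem cg_ge {u b v v' : ℕ → ℝ} (hu : ∀ x, 0 ≤ u x) (hb : ∀ x, 0 ≤ b x) (hv' : ∀ x, 0 ≤ v' x)
    (h1 : ∀ x, u x + b x = cw x) (h2 : ∀ x, v x + v' x = 1) (c r : ℕ) :
    nb ((c + 1 : ℕ) * (1 / 2) + 1) r -
      (c + 1) * ∑ p ∈ antidiagonal r, b p.1 * nb (c * (1 / 2) + 1) p.2 -
      ∑ p ∈ antidiagonal r, nb (c * (1 / 2) + 1 / 2) p.1 * v' p.2 ≤ cg u v (c + 1) r := by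
  have e1 : mk u + mk b = mk cw := by
    ext x
    simp only [map_add, coeff_mk, h1]
  have e2 : mk v = mk (nb 1) - mk v' := by
    ext x
    simp only [map_sub, coeff_mk, nb_one]
    linarith [h2 x]
  have a1 := ((Nn.mk hu).union (Nn.mk hb) c).mul (Nn.mk fun x => (nb_pos one_pos x).le) r
  have a2 := ((Nn.mk hu).pow_sub (Nn.mk hb) (c + 1)).mul (Nn.mk hv') r
  rw [e1] at a1 a2
  have e3 : mk cw ^ (c + 1) = mk (nb (c * (1 / 2) + 1 / 2)) := by
    rw [pow_succ, ← mk_cw_pow]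
    rfl
  rw [sub_mul, sub_mul, mul_assoc, mul_assoc, mk_cw_pow, mk_cw_pow, map_sub, map_sub, coeff_mk,
    show ((c : ℝ⟦X⟧) + 1) = C ((c : ℝ) + 1) by simp, coeff_C_mul, coeff_mul] at a1
  rw [sub_mul, map_sub, e3, coeff_mul] at a2
  simp only [coeff_mk] at a1 a2
  rw [cg, e2, mul_sub, map_sub]
  linarith

theorem nb_le_add {s t : ℝ} (hs : 0 < s) (ht : 0 < t) (h : ℕ) : nb s h ≤ nb (s + t) h := by
  rw [← nb_conv]
  have := single_le_sum (f := fun p : ℕ × ℕ => nb s p.1 * nb t p.2)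
    (fun p _ => mul_nonneg (nb_pos hs _).le (nb_pos ht _).le)
    (mem_antidiagonal.2 (show ((h, 0) : ℕ × ℕ).1 + (h, 0).2 = h from rfl))
  simpa [nb_zero] using this

theorem nb_up {s q : ℝ} (hs : 0 < s) (hq : 0 ≤ q) {h : ℕ} (hj : ∀ j : ℕ, h ≤ j → s + j ≤ q * (j + 1))
    (m : ℕ) : nb s (h + m) ≤ q ^ m * nb s h := by
  induction m with
  | zero => simp
  | succ m ih =>
    have h0 : (0 : ℝ) < (h + m : ℕ) + 1 := by positivity
    refine le_of_mul_le_mul_left ?_ h0
    rw [← add_assoc, nb_succ]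
    calc _ ≤ q * ((h + m : ℕ) + 1) * (q ^ m * nb s h) :=
          mul_le_mul (hj _ (Nat.le_add_right _ _)) ih (nb_pos hs _).le (by positivity)
      _ = _ := by ring

theorem nb_down {s q : ℝ} (hs : 0 < s) (hq : 0 ≤ q) {h m : ℕ}
    (hj : ∀ j : ℕ, j < h + m → q * (j + 1) ≤ s + j) : q ^ m * nb s h ≤ nb s (h + m) := by
  induction m with
  | zero => simp
  | succ m ih =>
    have h0 : (0 : ℝ) < (h + m : ℕ) + 1 := by positivity
    refine le_of_mul_le_mul_left ?_ h0
    rw [← add_assoc, nb_succ]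
    calc _ = q * ((h + m : ℕ) + 1) * (q ^ m * nb s h) := by ring
      _ ≤ _ := mul_le_mul (hj _ (by omega)) (ih fun j hj' => hj j (by omega))
          (mul_nonneg (by positivity) (nb_pos hs _).le) (by positivity)

/-- Far below the budget the mass is small. -/
theorem nb_decay {β n t h m : ℕ} (hβ : 0 < β) (hr : h + m = β * n) (hm : β * t ≤ m) :
    2 ^ t * nb (n + 1) h ≤ nb (n + 1) (β * n) := by
  have hβ' : (0 : ℝ) < β := by exact_mod_cast hβ
  have hs : (0 : ℝ) < n + 1 := by positivity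
  have h1 : (2 : ℝ) ≤ (1 + 1 / β) ^ β := by
    have := one_add_mul_le_pow (a := (1 : ℝ) / β) (by have := one_div_pos.2 hβ'; linarith) β
    rwa [mul_one_div_cancel hβ'.ne', one_add_one_eq_two] at this
  have h2 : (2 : ℝ) ^ t ≤ (1 + 1 / β) ^ m := by
    refine (pow_le_pow_left₀ (by norm_num) h1 t).trans ?_
    rw [← pow_mul]
    exact pow_le_pow_right₀ (le_add_of_nonneg_right (by positivity)) hm
  rw [← hr]
  refine (mul_le_mul_of_nonneg_right h2 (nb_pos hs _).le).trans
    (nb_down hs (by positivity) fun j hj => ?_)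
  have h3 : (j : ℝ) + 1 ≤ β * n := by exact_mod_cast (show j + 1 ≤ β * n by omega)
  have h4 : 1 / (β : ℝ) * (j + 1) ≤ n := by
    rw [one_div, inv_mul_le_iff₀ hβ']
    exact h3
  linarith

/-- The capped shell carries almost all the mass of the simplex. -/
theorem shell_mass {T β γ n : ℕ} (hT : 1024 ≤ T) (hn : n ≤ T) (hβ : β = 32 * T ^ 4)
    (hγ : 2 ^ γ = T ^ 32) :
    (1 - 64 / (T : ℝ)) * ((β * n + n).choose n : ℝ) ≤
      cg (fun m => if 2 ≤ m ∧ m ≤ β * γ then cw m else 0)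
        (fun m => if m + 4 * T ≤ β * γ then 1 else 0) (2 * n) (β * n) := by
  have hT' : (1024 : ℝ) ≤ T := by exact_mod_cast hT
  have hT0 : (0 : ℝ) < T := by linarith
  have hTβ : 4 * T ≤ β := by
    have : T ≤ T ^ 4 := Nat.le_self_pow (by norm_num) T
    omega
  obtain ⟨γ', rfl⟩ : ∃ γ', γ = γ' + 1 := by
    rcases γ with _ | γ'
    · have : T ≤ T ^ 32 := Nat.le_self_pow (by norm_num) T
      omega
    · exact ⟨γ', rfl⟩
  rcases Nat.eq_zero_or_pos n with rfl | hn0
  · have : 0 + 4 * T ≤ β * (γ' + 1) := by nlinarith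
    have h0 : (0 : ℝ) ≤ 64 / T := by positivity
    simp only [mul_zero, cg_zero, if_pos this, add_zero, Nat.choose_self, Nat.cast_one]
    linarith
  obtain ⟨c, hc⟩ : ∃ c, 2 * n = c + 1 := ⟨2 * n - 1, by omega⟩
  have hc' : (c : ℝ) = 2 * n - 1 := by
    have : ((2 * n : ℕ) : ℝ) = ((c + 1 : ℕ) : ℝ) := by rw [hc]
    push_cast at this
    linarith
  have hn' : (n : ℝ) ≤ T := by exact_mod_cast hn
  have hn1 : (1 : ℝ) ≤ n := by exact_mod_cast hn0
  have hβ' : (β : ℝ) = 32 * T ^ 4 := by exact_mod_cast hβ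
  have hγ' : (2 : ℝ) ^ γ' * 2 = T ^ 32 := by exact_mod_cast (pow_succ 2 γ').symm.trans hγ
  have key := cg_ge (u := fun m => if 2 ≤ m ∧ m ≤ β * (γ' + 1) then cw m else 0)
    (b := fun m => if 2 ≤ m ∧ m ≤ β * (γ' + 1) then 0 else cw m)
    (v := fun m => if m + 4 * T ≤ β * (γ' + 1) then 1 else 0)
    (v' := fun m => if m + 4 * T ≤ β * (γ' + 1) then 0 else 1)
    (fun x => by split_ifs; exacts [(cw_pos x).le, le_rfl])
    (fun x => by split_ifs; exacts [le_rfl, (cw_pos x).le])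
    (fun x => by split_ifs <;> norm_num) (fun x => by split_ifs <;> simp)
    (fun x => by split_ifs <;> simp) c (β * n)
  rw [show ((c + 1 : ℕ) : ℝ) * (1 / 2) + 1 = n + 1 by push_cast; linarith,
    show (c : ℝ) * (1 / 2) + 1 = n + 1 / 2 by linarith,
    show (c : ℝ) * (1 / 2) + 1 / 2 = n by linarith, show (c : ℝ) + 1 = 2 * n by linarith] at key
  rw [hc, ← nb_nat]
  refine le_trans ?_ key
  set N := nb (n + 1) (β * n) with hN
  have hN0 : 0 < N := nb_pos (by positivity) _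
  have hs : (0 : ℝ) < n + 1 / 2 := by positivity
  have dec : ∀ h m : ℕ, h + m = β * n → β * γ' ≤ m → nb (n + 1) h ≤ 2 / T ^ 32 * N := by
    intro h m h1 h2
    have := nb_decay (by omega) h1 h2
    rw [div_mul_eq_mul_div, le_div_iff₀ (by positivity), ← hγ']
    linarith
  have half : nb (n + 1 / 2) (β * n) ≤ 1 / (4 * T ^ 2) * N := by
    have h1 := nb_half_sq hs (β * n)
    rw [show (n : ℝ) + 1 / 2 + 1 / 2 = n + 1 by ring, ← hN] at h1
    refine (pow_le_pow_iff_left₀ (nb_pos hs _).le (by positivity) two_ne_zero).1 ?_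
    have h2 : 16 * (T : ℝ) ^ 4 * (n + 1 / 2) ≤ n + 1 / 2 + (β * n : ℕ) := by
      have : (0 : ℝ) ≤ T ^ 4 := by positivity
      push_cast
      nlinarith
    have h3 := (mul_le_mul_of_nonneg_left h2 (sq_nonneg (nb (n + 1 / 2) (β * n)))).trans h1
    rw [← mul_assoc] at h3
    have h4 := le_of_mul_le_mul_right h3 hs
    rw [mul_pow, div_pow, div_mul_eq_mul_div, le_div_iff₀ (by positivity)]
    nlinarith
  have hR : ((β * n + 1 : ℕ) : ℝ) ≤ 33 * T ^ 5 := by
    have h1 : (1 : ℝ) ≤ T ^ 5 := one_le_pow₀ (by linarith)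
    have h2 : (0 : ℝ) ≤ T ^ 4 := by positivity
    push_cast
    nlinarith
  have s1 : ∑ p ∈ antidiagonal (β * n),
      (if 2 ≤ p.1 ∧ p.1 ≤ β * (γ' + 1) then 0 else cw p.1) * nb (n + 1 / 2) p.2 ≤
      2 * (1 / (4 * T ^ 2) * N) + 33 * T ^ 5 * (2 / T ^ 32 * N) := by
    have t1 : ∀ p ∈ antidiagonal (β * n),
        (if 2 ≤ p.1 ∧ p.1 ≤ β * (γ' + 1) then 0 else cw p.1) * nb (n + 1 / 2) p.2 ≤
        (if p.1 < 2 then 1 / (4 * T ^ 2) * N else 0) + 2 / T ^ 32 * N := by
      intro p hp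
      have hp' := mem_antidiagonal.1 hp
      have w1 := cw_le_one p.1
      have w2 := nb_pos hs p.2
      have w3 : (0 : ℝ) ≤ 2 / T ^ 32 * N := by positivity
      by_cases h2 : p.1 < 2
      · have := (nb_mono_right (s := n + 1 / 2) (by linarith) (show p.2 ≤ β * n by omega)).trans half
        rw [if_neg (by omega), if_pos h2]
        nlinarith
      · rw [if_neg h2, zero_add]
        split_ifs with h3
        · rwa [zero_mul]
        · have h4 := dec p.2 p.1 (by omega) (by rw [mul_add] at h3; omega)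
          have h5 := nb_le_add hs (show (0 : ℝ) < 1 / 2 by norm_num) p.2
          rw [show (n : ℝ) + 1 / 2 + 1 / 2 = n + 1 by ring] at h5
          nlinarith
    refine (sum_le_sum t1).trans ?_
    rw [sum_add_distrib, sum_const, Nat.card_antidiagonal, nsmul_eq_mul, ← sum_filter, sum_const,
      nsmul_eq_mul]
    refine add_le_add (mul_le_mul_of_nonneg_right ?_ (by positivity))
      (mul_le_mul_of_nonneg_right hR (by positivity))
    have : #{p ∈ antidiagonal (β * n) | p.1 < 2} ≤ (range 2).card :=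
      card_le_card_of_injOn (fun p => p.1) (fun p hp => by
        simpa using (mem_filter.1 (mem_coe.1 hp)).2) fun p hp q hq h => by
        have h1 := mem_antidiagonal.1 (mem_filter.1 (mem_coe.1 hp)).1
        have h2 := mem_antidiagonal.1 (mem_filter.1 (mem_coe.1 hq)).1
        have h3 : p.1 = q.1 := h
        exact Prod.ext h3 (by omega)
    exact_mod_cast this
  have s2 : ∑ p ∈ antidiagonal (β * n),
      nb n p.1 * (if p.2 + 4 * T ≤ β * (γ' + 1) then 0 else 1) ≤
      33 * T ^ 5 * (2 / T ^ 32 * N) := by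
    have t1 : ∀ p ∈ antidiagonal (β * n),
        nb n p.1 * (if p.2 + 4 * T ≤ β * (γ' + 1) then 0 else 1) ≤ 2 / T ^ 32 * N := by
      intro p hp
      split_ifs with h3
      · rw [mul_zero]
        positivity
      · rw [mul_one]
        exact (nb_le_add (by linarith) one_pos _).trans
          (dec p.1 p.2 (mem_antidiagonal.1 hp) (by rw [mul_add] at h3; omega))
    refine (sum_le_sum t1).trans ?_
    rw [sum_const, Nat.card_antidiagonal, nsmul_eq_mul]
    exact mul_le_mul_of_nonneg_right hR (by positivity)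
  have f1 : 33 * (T : ℝ) ^ 5 * (2 / T ^ 32 * N) ≤ 1 / T ^ 2 * N := by
    rw [← mul_assoc]
    refine mul_le_mul_of_nonneg_right ?_ hN0.le
    rw [← mul_div_assoc, div_le_div_iff₀ (by positivity) (by positivity)]
    have h1 : (T : ℝ) ^ 8 ≤ T ^ 32 := pow_le_pow_right₀ (by linarith) (by norm_num)
    have h2 : (0 : ℝ) ≤ T ^ 7 := by positivity
    nlinarith
  have f2 : 1 / (4 * (T : ℝ) ^ 2) * N = 1 / 4 * (1 / T ^ 2 * N) := by
    field_simp
  have f3 : 64 / (T : ℝ) * N = 64 * T * (1 / T ^ 2 * N) := by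
    field_simp
  have f4 : (0 : ℝ) ≤ 1 / T ^ 2 * N := by positivity
  have f5 := mul_le_mul hn' (s1.trans (add_le_add le_rfl f1)) (sum_nonneg fun p _ =>
    mul_nonneg (by split_ifs; exacts [le_rfl, (cw_pos _).le]) (nb_pos hs _).le) hT0.le
  rw [f2] at f5
  rw [sub_mul, f3]
  nlinarith

/-- The doubled simplex against the square of the mass. -/
theorem choose_two {β n E : ℕ} (hβ : 0 < β) (hE : 8 * E ≤ 9 * β) :
    ((2 * (β * n) + E + 2 * n).choose (2 * n) : ℝ) * cw n ≤ 4 * ((β * n + n).choose n : ℝ) ^ 2 := by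
  have hβ' : (0 : ℝ) < β := by exact_mod_cast hβ
  have h1 : ((2 * (β * n) + E + 2 * n).choose (2 * n) : ℝ) ≤
      4 * ((2 * (β * n) + 2 * n).choose (2 * n) : ℝ) := by
    rw [← nb_nat, ← nb_nat]
    have hs : (0 : ℝ) < (2 * n : ℕ) + 1 := by positivity
    refine (nb_up (q := 1 + 1 / β) hs (by positivity) (fun j hj => ?_) E).trans
      (mul_le_mul_of_nonneg_right ?_ (nb_pos hs _).le)
    · have h3 : (β : ℝ) * (2 * n : ℕ) ≤ j + 1 := by
        exact_mod_cast (show β * (2 * n) ≤ j + 1 by nlinarith)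
      have h4 : ((2 * n : ℕ) : ℝ) ≤ 1 / (β : ℝ) * (j + 1) := by
        rw [one_div, le_inv_mul_iff₀ hβ']
        exact h3
      linarith
    · have h3 : (1 + 1 / (β : ℝ)) ^ E ≤ Real.exp (1 / β) ^ E :=
        pow_le_pow_left₀ (by positivity) (by rw [add_comm]; exact Real.add_one_le_exp _) E
      have h4 : (E : ℝ) * (1 / β) ≤ 1 + 1 / 8 := by
        have : (8 : ℝ) * E ≤ 9 * β := by exact_mod_cast hE
        rw [mul_one_div, div_le_iff₀ hβ']
        linarith
      have h5 := Real.exp_bound_div_one_sub_of_interval' (x := 1 / 8) (by norm_num) (by norm_num)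
      have h6 := Real.exp_one_lt_d9
      rw [← Real.exp_nat_mul] at h3
      refine h3.trans ((Real.exp_le_exp.2 h4).trans ?_)
      rw [Real.exp_add]
      have h7 := Real.exp_pos (1 / 8 : ℝ)
      norm_num at h5 h6 h7 ⊢
      nlinarith
  generalize β * n = r at h1 ⊢
  have h2 : ((2 * r + 2 * n).choose (2 * n) : ℝ) * cw n * cw r = ((r + n).choose n : ℝ) ^ 2 * cw (r + n) := by
    simp only [cw_eq, Nat.centralBinom_eq_two_mul_choose]
    rw [Nat.cast_choose _ (show 2 * n ≤ 2 * r + 2 * n by omega),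
      Nat.cast_choose _ (show n ≤ r + n by omega), Nat.add_sub_cancel, Nat.add_sub_cancel,
      Nat.cast_choose _ (show n ≤ 2 * n by omega),
      Nat.cast_choose _ (show r ≤ 2 * r by omega),
      Nat.cast_choose _ (show r + n ≤ 2 * (r + n) by omega), show 2 * n - n = n by omega,
      show 2 * r - r = r by omega, show 2 * (r + n) - (r + n) = r + n by omega,
      show 2 * (r + n) = 2 * r + 2 * n by ring]
    have := Nat.factorial_pos
    field_simp
    ring
  have h3 := mul_le_mul_of_nonneg_left (cw_anti (Nat.le_add_right r n))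
    (sq_nonneg ((r + n).choose n : ℝ))
  rw [← h2] at h3
  have h4 := le_of_mul_le_mul_right h3 (cw_pos r)
  nlinarith [mul_le_mul_of_nonneg_right h1 (cw_pos n).le]

end Pool.Agent.P.MP_d5a1e1_nt.TB.Lab
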