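import Pool.Agent.P.MP_d5a1e1_nt.T3Box
import Pool.Agent.P.MP_d5a1e1_nt.T3Cw
import Pool.Agent.P.MP_d5a1e1_nt.TBSh

/-! The products over the groups. -/

namespace Pool.Agent.P.MP_d5a1e1_nt.T3

open Finset TB

theorem choose_step (β n : ℕ) :
    (β * (n + 1) + (n + 1)).choose (n + 1) = (β + 1) * (β * (n + 1) + n).choose n := by
  have h := Nat.add_one_mul_choose_eq (β * (n + 1) + n) n
  refine Nat.eq_of_mul_eq_mul_right (Nat.succ_pos n) ?_
  rw [← add_assoc, ← h]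
  simp only [Nat.succ_eq_add_one]
  ring

theorem choose_step_ge (β n : ℕ) :
    β * (β * n + n).choose n ≤ (β * (n + 1) + (n + 1)).choose (n + 1) := by
  rw [choose_step]
  exact Nat.mul_le_mul (Nat.le_succ β) (Nat.choose_le_choose n (by nlinarith))

theorem choose_step_le {β : ℕ} (hβ : 0 < β) (n : ℕ) :
    ((β * (n + 1) + (n + 1)).choose (n + 1) : ℝ) ≤ 3 * (β + 1) * ((β * n + n).choose n : ℝ) := by
  have hβ' : (0 : ℝ) < β := by exact_mod_cast hβ
  have hs : (0 : ℝ) < n + 1 := by positivity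
  have h1 : ((β * (n + 1) + n).choose n : ℝ) ≤ 3 * ((β * n + n).choose n : ℝ) := by
    rw [← Lab.nb_nat, ← Lab.nb_nat, mul_add, mul_one]
    refine (Lab.nb_up (q := 1 + 1 / β) hs (by positivity) (fun j hj => ?_) β).trans
      (mul_le_mul_of_nonneg_right ?_ (Lab.nb_pos hs _).le)
    · have h3 : (β : ℝ) * n ≤ j + 1 := by exact_mod_cast (show β * n ≤ j + 1 by omega)
      have h4 : (n : ℝ) ≤ 1 / (β : ℝ) * (j + 1) := by
        rw [one_div, le_inv_mul_iff₀ hβ']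
        exact h3
      linarith
    · have h3 : (1 + 1 / (β : ℝ)) ^ β ≤ Real.exp (1 / β) ^ β :=
        pow_le_pow_left₀ (by positivity) (by rw [add_comm]; exact Real.add_one_le_exp _) β
      rw [← Real.exp_nat_mul, mul_one_div_cancel hβ'.ne'] at h3
      have h6 := Real.exp_one_lt_d9
      linarith
  rw [choose_step]
  push_cast
  nlinarith

theorem one_sub_sum_le (s : Finset ℕ) (a : ℕ → ℝ) (h0 : ∀ i, 0 ≤ a i) (h1 : ∀ i, a i ≤ 1) :
    1 - ∑ i ∈ s, a i ≤ ∏ i ∈ s, (1 - a i) := by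
  induction s using Finset.induction_on with
  | empty => simp
  | insert i s hi ih =>
    rw [sum_insert hi, prod_insert hi]
    have h2 : 0 ≤ ∑ i ∈ s, a i := sum_nonneg fun i _ => h0 i
    nlinarith [mul_le_mul_of_nonneg_left ih (sub_nonneg.2 (h1 i)), h0 i]

variable [Kap]

theorem gr_mem (k : ℕ) : ∀ u < k, gr u ∈ range (gr k + 1) := fun _ hu =>
  mem_range.2 (Nat.lt_succ_of_le (gr_mono hu.le))

theorem gr_mem' (k : ℕ) : ∀ i < 2 * k, gr (i / 2) ∈ range (gr k + 1) := fun _ hi =>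
  gr_mem k _ (by omega)

/-- One more unit changes one factor. -/
theorem prod_step (F : ℕ → ℕ → ℝ) (h0 : ∀ g n, 0 ≤ F g n) (h1 : ∀ g, F g 0 = 1) (k : ℕ) :
    ∃ P, 0 ≤ P ∧ ∏ g ∈ range (gr k + 1), F g (nn k g) = F (gr k) (nn k (gr k)) * P ∧
      ∏ g ∈ range (gr (k + 1) + 1), F g (nn (k + 1) g) = F (gr k) (nn k (gr k) + 1) * P := by
  have hm := gr_mono (Nat.le_succ k)
  have hg : gr k ∈ range (gr (k + 1) + 1) := mem_range.2 (Nat.lt_succ_of_le hm)
  refine ⟨∏ g ∈ (range (gr (k + 1) + 1)).erase (gr k), F g (nn k g),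
    prod_nonneg fun _ _ => h0 _ _, ?_, ?_⟩
  · rw [mul_prod_erase _ (fun g => F g (nn k g)) hg]
    refine prod_subset (range_subset_range.2 (Nat.succ_le_succ hm)) fun g _ hg' => ?_
    rw [nn_zero (by simpa using hg'), h1]
  · rw [← mul_prod_erase _ _ hg, nn_succ, if_pos rfl]
    congr 1
    refine prod_congr rfl fun g hg' => ?_
    rw [nn_succ, if_neg (mem_erase.1 hg').1.symm, add_zero]

theorem ph_step (k : ℕ) : ∃ P : ℝ, 0 ≤ P ∧
    ph k = ((32 * bb (gr k) * nn k (gr k) + nn k (gr k)).choose (nn k (gr k)) : ℝ) * P ∧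
    ph (k + 1) = ((32 * bb (gr k) * (nn k (gr k) + 1) + (nn k (gr k) + 1)).choose
      (nn k (gr k) + 1) : ℝ) * P :=
  prod_step (fun g n => ((32 * bb g * n + n).choose n : ℝ)) (fun _ _ => Nat.cast_nonneg _)
    (fun _ => by simp) k

theorem Om_step (k : ℕ) : ∃ P : ℝ, 0 ≤ P ∧ Om k = cw (nn k (gr k)) * P ∧
    Om (k + 1) = cw (nn k (gr k) + 1) * P :=
  prod_step (fun _ n => cw n) (fun _ _ => (cw_pos _).le) (fun _ => cw_zero) k

theorem one_le_ph (k : ℕ) : 1 ≤ ph k := by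
  refine prod_induction _ (fun x : ℝ => 1 ≤ x)
    (fun _ _ ha hb => one_le_mul_of_one_le_of_one_le ha hb) le_rfl fun g _ => ?_
  exact_mod_cast Nat.choose_pos (Nat.le_add_left _ _)

theorem ph_pos (k : ℕ) : 0 < ph k := one_pos.trans_le (one_le_ph k)

theorem ph_le8 (k : ℕ) : ph k * 8 ^ k ≤ Del k := by
  induction k with
  | zero => simp [ph, Del, nn]
  | succ k ih =>
    obtain ⟨P, h0, h1, h2⟩ := ph_step k
    have hb := bb_pos (gr k)
    have h3 := mul_le_mul_of_nonneg_right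
      (choose_step_le (show 0 < 32 * bb (gr k) by omega) (nn k (gr k))) h0
    rw [← h2, mul_assoc, ← h1] at h3
    have h4 : 24 * (32 * bb (gr k) + 1) ≤ DD k := by
      have := Nat.mul_le_mul_left (32 * bb (gr k)) (ga_big (gr k))
      rw [DD, Ru, cap]
      omega
    have h5 : (24 : ℝ) * ((32 * bb (gr k) : ℕ) + 1) ≤ DD k := by exact_mod_cast h4
    rw [Del_succ, Nat.cast_mul, pow_succ]
    calc _ ≤ 3 * ((32 * bb (gr k) : ℕ) + 1) * ph k * (8 ^ k * 8) :=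
          mul_le_mul_of_nonneg_right h3 (by positivity)
      _ = ph k * 8 ^ k * (24 * ((32 * bb (gr k) : ℕ) + 1)) := by ring
      _ ≤ _ := mul_le_mul ih h5 (by positivity) (Nat.cast_nonneg _)

theorem ph_succ (k : ℕ) : DD k * ph k ≤ 16 * ga (gr k) * ph (k + 1) := by
  obtain ⟨P, h0, h1, h2⟩ := ph_step k
  have h3 := mul_le_mul_of_nonneg_right
    (Nat.cast_le (α := ℝ) |>.2 (choose_step_ge (32 * bb (gr k)) (nn k (gr k)))) h0
  rw [← h2, Nat.cast_mul, mul_assoc, ← h1] at h3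
  have h4 := mul_le_mul_of_nonneg_left h3 (show (0 : ℝ) ≤ 16 * ga (gr k) by positivity)
  refine le_trans (le_of_eq ?_) h4
  rw [DD, Ru, cap]
  push_cast
  ring

theorem Om_pos (k : ℕ) : 0 < Om k := prod_pos fun _ _ => cw_pos _

theorem Om_le_one (k : ℕ) : Om k ≤ 1 :=
  prod_le_one (fun _ _ => (cw_pos _).le) fun _ _ => cw_le_one _

theorem Om_succ_le (k : ℕ) : Om (k + 1) ≤ Om k := by
  obtain ⟨P, h0, h1, h2⟩ := Om_step k
  rw [h1, h2]
  exact mul_le_mul_of_nonneg_right (cw_anti (Nat.le_succ _)) h0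

theorem Om_anti : Antitone Om := antitone_nat_of_succ_le Om_succ_le

theorem Om_le_two (k : ℕ) : Om k ≤ 2 * Om (k + 1) := by
  obtain ⟨P, h0, h1, h2⟩ := Om_step k
  rw [h1, h2, ← mul_assoc]
  refine mul_le_mul_of_nonneg_right ?_ h0
  generalize nn k (gr k) = n
  have h3 := cw_succ n
  have h4 := cw_pos n
  have h5 : (0 : ℝ) ≤ n := Nat.cast_nonneg n
  refine le_of_mul_le_mul_left ?_ (show (0 : ℝ) < n + 1 by positivity)
  nlinarith

theorem Om_ge (k : ℕ) : 1 ≤ (yy k : ℝ) ^ (3 * ka + 1) * Om k := by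
  have h1 : ∀ n T : ℕ, n ≤ T → 1 ≤ T → 1 ≤ ((4 * T : ℕ) : ℝ) * cw n ^ 2 := fun n T h h' => by
    have h2 : (n : ℝ) ≤ T := by exact_mod_cast h
    have h3 : (1 : ℝ) ≤ T := by exact_mod_cast h'
    push_cast
    rcases Nat.eq_zero_or_pos n with rfl | hn
    · rw [cw_zero]
      linarith
    · exact (cw_sq_ge hn).trans (mul_le_mul_of_nonneg_right (by linarith) (sq_nonneg _))
  have h2 : 1 ≤ ∏ g ∈ range (gr k + 1),
      ((4 * if g = gr k then tau k else TT g : ℕ) : ℝ) * cw (nn k g) ^ 2 := by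
    refine prod_induction _ (fun x : ℝ => 1 ≤ x)
      (fun _ _ ha hb => one_le_mul_of_one_le_of_one_le ha hb) le_rfl fun g _ => h1 _ _ ?_ ?_
    · split_ifs
      · exact (nn_le_self k g).trans (lt_tau k).le
      · exact nn_le k g
    · split_ifs
      · exact Nat.succ_le_of_lt ((Nat.zero_le k).trans_lt (lt_tau k))
      · exact TT_pos g
  rw [prod_mul_distrib, prod_pow, ← Om, ← Nat.cast_prod, prod_mul_distrib, prod_const, card_range,
    prod_range_succ, if_pos rfl, prod_congr rfl fun g hg => if_neg (mem_range.1 hg).ne] at h2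
  have h3 : 4 ^ (gr k + 1) * ((∏ g ∈ range (gr k), TT g) * tau k) ≤ (yy k ^ (3 * ka + 1)) ^ 2 := by
    refine (Nat.mul_le_mul (four_pow_gr k) (Nat.mul_le_mul_right _ (prod_TT_le k))).trans
      (le_of_eq ?_)
    rw [tau_eq, ← pow_mul, ← pow_mul, ← pow_add, ← pow_add]
    congr 1
    ring
  have h4 := h2.trans (mul_le_mul_of_nonneg_right (Nat.cast_le.2 h3) (sq_nonneg _))
  rw [Nat.cast_pow, Nat.cast_pow, ← mul_pow] at h4
  exact (one_le_sq_iff₀ (mul_nonneg (by positivity) (Om_pos k).le)).1 h4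

theorem yy_one (k : ℕ) : (1 : ℝ) ≤ yy k := Nat.one_le_cast.2 (le_trans (by omega) (yy_ge k))

theorem yy_two (k : ℕ) : (2 : ℝ) ≤ yy k := by exact_mod_cast yy_ge k

theorem lam_sq (k : ℕ) : lam k ^ 2 = (yy k : ℝ) ^ (2 * ka + 4) * Om k :=
  Real.sq_sqrt (mul_nonneg (by positivity) (Om_pos k).le)

theorem lam_pos (k : ℕ) : 0 < lam k :=
  Real.sqrt_pos.2 (mul_pos (by have := yy_one k; positivity) (Om_pos k))

theorem lam_le (k : ℕ) : lam k ≤ (yy k : ℝ) ^ (ka + 2) := by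
  refine (pow_le_pow_iff_left₀ (lam_pos k).le (by positivity) two_ne_zero).1 ?_
  rw [lam_sq, ← pow_mul, show (ka + 2) * 2 = 2 * ka + 4 by ring]
  exact mul_le_of_le_one_right (by positivity) (Om_le_one k)

theorem Gb_pos (k : ℕ) : 0 < Gb k := mul_pos (by have := yy_one k; positivity) (Om_pos k)

theorem T3MassA_one (k : ℕ) : 1 ≤ √((yy k : ℝ) ^ (2 * ka + 10) / Om k) := by
  rw [Real.one_le_sqrt, one_le_div (Om_pos k)]
  exact (Om_le_one k).trans (one_le_pow₀ (yy_one k))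

theorem rho_sq_ge (k : ℕ) : (yy k : ℝ) ^ (2 * ka + 10) ≤ (rho k : ℝ) ^ 2 * Om k := by
  rw [← div_le_iff₀ (Om_pos k), ← Real.sq_sqrt (div_nonneg (by positivity) (Om_pos k).le)]
  exact pow_le_pow_left₀ (Real.sqrt_nonneg _) (Nat.le_ceil _) 2

theorem rho_sq_le (k : ℕ) : (rho k : ℝ) ^ 2 * Om k ≤ 4 * (yy k : ℝ) ^ (2 * ka + 10) := by
  have h1 := T3MassA_one k
  have h2 : (rho k : ℝ) ≤ 2 * √((yy k : ℝ) ^ (2 * ka + 10) / Om k) := by
    have := Nat.ceil_lt_add_one (Real.sqrt_nonneg ((yy k : ℝ) ^ (2 * ka + 10) / Om k))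
    rw [rho]
    linarith
  have h3 := pow_le_pow_left₀ (Nat.cast_nonneg _) h2 2
  rw [mul_pow, Real.sq_sqrt (div_nonneg (by positivity) (Om_pos k).le), ← mul_div_assoc,
    le_div_iff₀ (Om_pos k)] at h3
  linarith

theorem rho_pos (k : ℕ) : 0 < rho k := Nat.ceil_pos.2 (one_pos.trans_le (T3MassA_one k))

theorem rho_mono : Monotone rho := fun a b h => Nat.ceil_mono (Real.sqrt_le_sqrt
  (div_le_div₀ (by positivity) (pow_le_pow_left₀ (Nat.cast_nonneg _) (Nat.cast_le.2 (yy_mono h)) _)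
    (Om_pos b) (Om_anti h)))

theorem rho_le (k : ℕ) : rho k ≤ yy k ^ (3 * ka) := by
  have h1 := mul_le_mul_of_nonneg_left (Om_ge k) (sq_nonneg (rho k : ℝ))
  have h2 := mul_le_mul_of_nonneg_left (rho_sq_le k)
    (show (0 : ℝ) ≤ (yy k : ℝ) ^ (3 * ka + 1) by positivity)
  have h3 : (4 : ℝ) ≤ (yy k : ℝ) ^ 2 := by nlinarith [yy_two k]
  have h4 : (rho k : ℝ) ^ 2 ≤ ((yy k : ℝ) ^ (3 * ka)) ^ 2 := by
    calc (rho k : ℝ) ^ 2 ≤ (yy k : ℝ) ^ (3 * ka + 1) * (4 * (yy k : ℝ) ^ (2 * ka + 10)) := by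
          linarith
      _ ≤ (yy k : ℝ) ^ (3 * ka + 1) * ((yy k : ℝ) ^ 2 * (yy k : ℝ) ^ (2 * ka + 10)) := by gcongr
      _ ≤ _ := by
          rw [← pow_add, ← pow_add, ← pow_mul]
          exact pow_le_pow_right₀ (yy_one k) (by have := ka_big; omega)
  exact_mod_cast (pow_le_pow_iff_left₀ (Nat.cast_nonneg _) (by positivity) two_ne_zero).1 h4

theorem rho_lam (k : ℕ) : (yy k : ℝ) ^ (4 * ka + 14) ≤ (rho k : ℝ) ^ 2 * lam k ^ 2 := by
  rw [lam_sq, mul_left_comm, show 4 * ka + 14 = 2 * ka + 4 + (2 * ka + 10) by ring, pow_add]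
  exact mul_le_mul_of_nonneg_left (rho_sq_ge k) (by positivity)

theorem rho_Lam (k : ℕ) : (rho k : ℝ) ^ 2 * (Lam k * Gb k) ≤ 4 * (yy k : ℝ) ^ (4 * ka + 19) := by
  have h := mul_le_mul_of_nonneg_left (rho_sq_le k)
    (show (0 : ℝ) ≤ (yy k : ℝ) ^ (2 * ka + 9) by positivity)
  rw [Lam, Gb, Nat.cast_pow, show 4 * ka + 19 = 2 * ka + 9 + (2 * ka + 10) by ring,
    pow_add _ (2 * ka + 9)]
  rw [pow_succ _ (2 * ka + 8)] at h ⊢
  linarith

/-- The number of types is large. -/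
theorem lam_big {k : ℕ} (hk : k0 ≤ k + 1) : 2 ≤ lam k * 8 ^ k := by
  have h0 := ka_big
  have h1 : yy k ^ ka ≤ k + 1 :=
    (Nat.pow_le_pow_left (yy_mono (Nat.le_succ k)) _).trans ((Nat.pow_le_pow_right
      (show 0 < yy (k + 1) by have := yy_ge (k + 1); omega)
      (show ka ≤ 2 * ka - 1 by omega)).trans (yy_le hk))
  have h2 : 1 ≤ k := by
    have := (yy_ge k).trans (Nat.le_self_pow (show ka ≠ 0 by omega) _)
    omega
  have h3 : 4 * (k + 1) ≤ (8 ^ k) ^ 2 := by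
    have h4 : k + 1 ≤ 2 ^ k := Nat.lt_two_pow_self
    have h5 : 2 ^ (k + 2) ≤ 2 ^ (3 * k * 2) := Nat.pow_le_pow_right (by norm_num) (by omega)
    rw [pow_mul, pow_mul, pow_add] at h5
    norm_num at h5
    omega
  have h4 : (4 : ℝ) * (yy k : ℝ) ^ ka ≤ (8 ^ k) ^ 2 := by
    exact_mod_cast (Nat.mul_le_mul_left 4 h1).trans h3
  have h5 : 1 ≤ (yy k : ℝ) ^ ka * lam k ^ 2 := by
    rw [lam_sq, ← mul_assoc, ← pow_add]
    exact (Om_ge k).trans (mul_le_mul_of_nonneg_right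
      (pow_le_pow_right₀ (yy_one k) (by omega)) (Om_pos k).le)
  refine (pow_le_pow_iff_left₀ (by norm_num) (mul_pos (lam_pos k) (by positivity)).le
    two_ne_zero).1 ?_
  rw [mul_pow]
  nlinarith [mul_le_mul_of_nonneg_left h4 (sq_nonneg (lam k))]

end Pool.Agent.P.MP_d5a1e1_nt.T3
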