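import Pool.Agent.P.MP_d5a1e1_nt.T3MassA

/-! Sizes and masses of the label sets. -/

namespace Pool.Agent.P.MP_d5a1e1_nt.T3

open Finset TB

variable [Kap]

theorem mem_XX {k : ℕ} {x : ℕ → ℕ} : x ∈ XX k ↔
    (∀ i < 2 * k, x i ≤ Ru (i / 2)) ∧ (∀ i, 2 * k ≤ i → x i = 0) ∧
      ∀ g, gsum (2 * k) g x ≤ RR k g ∧ RR k g ≤ gsum (2 * k) g x + cap g := by
  classical
  rw [XX, mem_filter, mem_Box, and_assoc]
  simp only [Nat.lt_succ_iff]

theorem mem_XM {k : ℕ} {x : ℕ → ℕ} : x ∈ XM k ↔ x ∈ XX k ∧ (∀ i < 2 * k, 2 ≤ x i) ∧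
    ∀ g, RR k g + 4 * TT g ≤ gsum (2 * k) g x + cap g := by
  classical
  rw [XM, mem_filter]

theorem mem_SS {k : ℕ} {y : ℕ → ℕ} : y ∈ SS k ↔
    y ∈ Box (2 * k) DD ∧ ∀ g, gsum (2 * k) g y ≤ 2 * RR k g + 32 * bb g + 4 * TT g := by
  classical
  rw [SS, mem_filter]

theorem ff_pos (k : ℕ) (x : ℕ → ℕ) : 0 < ff k x := prod_pos fun _ _ => cw_pos _

theorem ff_le_one (k : ℕ) (x : ℕ → ℕ) : ff k x ≤ 1 :=
  prod_le_one (fun _ _ => (cw_pos _).le) fun _ _ => cw_le_one _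

theorem T3MassB_DD (u : ℕ) : Ru u + 1 ≤ DD u := by
  have := Ru_pos u
  rw [DD]
  omega

theorem card_XX_le (k : ℕ) : (XX k).card ≤ Del k ^ 2 := by
  rw [← card_Gam]
  exact card_le_card fun x hx => mem_Box.2 ⟨fun i hi =>
    (Nat.lt_succ_of_le ((mem_XX.1 hx).1 i hi)).trans_le (T3MassB_DD _), (mem_XX.1 hx).2.1⟩

theorem gcnt_eq (k g : ℕ) : Lab.gcnt (2 * k) gr g = 2 * nn k g := card_group_digit k g

theorem TT_le_bb (g : ℕ) : TT g ≤ bb g := Nat.le_self_pow (by norm_num) _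

theorem four_TT_le (g : ℕ) : 4 * TT g ≤ cap g := by
  have h1 := TT_le_bb g
  have h2 := Nat.mul_le_mul_left (32 * bb g) (ga_big g)
  rw [cap]
  omega

theorem card_SS_rat (k : ℕ) : ((SS k).card : ℝ) * Om k ≤ (yy k : ℝ) ^ 2 * ph k ^ 2 := by
  have h1 : SS k ⊆ Lab.Xs (2 * k) gr fun g => 2 * RR k g + (32 * bb g + 4 * TT g) := fun y hy =>
    Lab.mem_Xs.2 ⟨(mem_Box.1 (mem_SS.1 hy).1).2, fun g => by
      rw [← add_assoc]
      exact (mem_SS.1 hy).2 g⟩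
  have h2 := (Nat.cast_le (α := ℝ) |>.2 (card_le_card h1)).trans_eq
    (Lab.card_Xs_eq _ (gr_mem' k))
  refine (mul_le_mul_of_nonneg_right h2 (Om_pos k).le).trans ?_
  rw [Om, ← prod_mul_distrib]
  have h3 : ∀ g ∈ range (gr k + 1),
      (((2 * RR k g + (32 * bb g + 4 * TT g) + Lab.gcnt (2 * k) gr g).choose
        (Lab.gcnt (2 * k) gr g) : ℕ) : ℝ) * cw (nn k g) ≤
      4 * ((RR k g + nn k g).choose (nn k g) : ℝ) ^ 2 := fun g _ => by
    rw [gcnt_eq, cw_eq_tb]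
    have := TT_le_bb g
    have := bb_pos g
    exact Lab.choose_two (by omega) (by omega)
  refine (prod_le_prod (fun _ _ => mul_nonneg (Nat.cast_nonneg _) (cw_pos _).le) h3).trans ?_
  rw [prod_mul_distrib, prod_const, card_range, prod_pow, ← ph]
  exact mul_le_mul_of_nonneg_right (by exact_mod_cast four_pow_gr k) (sq_nonneg _)

theorem mass_XM (k : ℕ) : ph k / 2 ≤ ∑ x ∈ XM k, ff k x := by
  classical
  have h1 := Lab.sum_Xs_gen (n := 2 * k) (gr := gr) (R := RR k)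
    (fun g m => if 2 ≤ m ∧ m ≤ 32 * bb g * ga g then Lab.cw m else 0)
    (fun g m => if m + 4 * TT g ≤ 32 * bb g * ga g then 1 else 0) _ (gr_mem' k)
  have hT : ∀ g, (1024 : ℝ) ≤ TT g := fun g => by exact_mod_cast TT_big g
  have h2 : ∀ g, 64 / (TT g : ℝ) ≤ 1 := fun g => by
    rw [div_le_one (by linarith [hT g])]
    linarith [hT g]
  have h3 : ph k / 2 ≤ ∏ g ∈ range (gr k + 1),
      (1 - 64 / (TT g : ℝ)) * ((RR k g + nn k g).choose (nn k g) : ℝ) := by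
    rw [prod_mul_distrib, ← ph, div_eq_inv_mul]
    refine mul_le_mul_of_nonneg_right (le_trans ?_
      (one_sub_sum_le _ _ (fun _ => by positivity) h2)) (ph_pos k).le
    have h4 := sum_inv_TT (gr k + 1)
    rw [sum_congr rfl fun g _ => show 64 / (TT g : ℝ) = 64 * (1 / TT g) by ring, ← mul_sum]
    linarith
  refine h3.trans ((prod_le_prod (fun g _ => mul_nonneg (sub_nonneg.2 (h2 g))
    (Nat.cast_nonneg _)) fun g _ => ?_).trans (h1.symm.trans_le ?_))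
  · rw [gcnt_eq]
    exact Lab.shell_mass (TT_big g) (nn_le k g) rfl (two_pow_ga g)
  have h4 : XM k ⊆ Lab.Xs (2 * k) gr (RR k) := fun x hx =>
    Lab.mem_Xs.2 ⟨(mem_XX.1 (mem_XM.1 hx).1).2.1, fun g => ((mem_XX.1 (mem_XM.1 hx).1).2.2 g).1⟩
  rw [← sum_subset h4 fun x hx hx' => ?_]
  · refine sum_le_sum fun x _ => ?_
    refine (mul_le_of_le_one_right (prod_nonneg fun _ _ => ?_)
      (prod_le_one (fun _ _ => ?_) fun _ _ => ?_)).trans (prod_le_prod (fun _ _ => ?_) fun _ _ => ?_)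
    · split_ifs
      exacts [(Lab.cw_pos _).le, le_rfl]
    · split_ifs <;> norm_num
    · split_ifs <;> norm_num
    · split_ifs
      exacts [(Lab.cw_pos _).le, le_rfl]
    · split_ifs
      exacts [(congrFun cw_eq_tb _).ge, (cw_pos _).le]
  · by_contra h
    obtain ⟨h5, h6⟩ := mul_ne_zero_iff.1 h
    rw [prod_ne_zero_iff] at h5 h6
    have h7 : ∀ i < 2 * k, 2 ≤ x i ∧ x i ≤ Ru (i / 2) := fun i hi => by
      by_contra h8
      exact h5 i (mem_range.2 hi) (if_neg h8)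
    have h8 : ∀ g, RR k g + 4 * TT g ≤ gsum (2 * k) g x + cap g := fun g => by
      by_cases hg : g ∈ range (gr k + 1)
      · have h9 : RR k g - gsum (2 * k) g x + 4 * TT g ≤ cap g := by
          by_contra h8
          exact h6 g hg (if_neg h8)
        omega
      · have := four_TT_le g
        rw [RR, nn_zero (by simpa using hg)]
        omega
    exact hx' (mem_XM.2 ⟨mem_XX.2 ⟨fun i hi => (h7 i hi).2, (Lab.mem_Xs.1 hx).1, fun g =>
      ⟨(Lab.mem_Xs.1 hx).2 g, by have := h8 g; omega⟩⟩, fun i hi => (h7 i hi).1, h8⟩)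

theorem mm_ge (k : ℕ) : lam k * Del k ≤ mm k * ph k :=
  (div_le_iff₀ (ph_pos k)).1 (Nat.le_ceil _)

theorem T3MassB_two {k : ℕ} (hk : k0 ≤ k + 1) : 2 * ph k ≤ lam k * Del k :=
  calc 2 * ph k ≤ lam k * 8 ^ k * ph k := mul_le_mul_of_nonneg_right (lam_big hk) (ph_pos k).le
    _ = lam k * (ph k * 8 ^ k) := by ring
    _ ≤ _ := mul_le_mul_of_nonneg_left (ph_le8 k) (lam_pos k).le

theorem mm_le {k : ℕ} (hk : k0 ≤ k + 1) : mm k * ph k ≤ 2 * lam k * Del k := by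
  have h0 := ph_pos k
  have h1 : (mm k : ℝ) ≤ lam k * Del k / ph k + 1 :=
    (Nat.ceil_lt_add_one (div_nonneg (mul_nonneg (lam_pos k).le (Nat.cast_nonneg _)) h0.le)).le
  have h2 := T3MassB_two hk
  have h4 := mul_le_mul_of_nonneg_right h1 h0.le
  rw [add_mul, div_mul_cancel₀ _ h0.ne'] at h4
  linarith

theorem mm_two {k : ℕ} (hk : k0 ≤ k + 1) : 2 ≤ mm k := by
  exact_mod_cast le_of_mul_le_mul_right ((T3MassB_two hk).trans (mm_ge k)) (ph_pos k)

theorem T3MassB_mm {k : ℕ} (hk : k0 ≤ k) : mm k * rho k ≤ Del k ^ 2 := by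
  have h0 := ka_big
  have h1 : mm k ≤ 2 * yy k ^ (ka + 2) * Del k := by
    have := ((le_mul_of_one_le_right (Nat.cast_nonneg _) (one_le_ph k)).trans
      (mm_le (hk.trans (Nat.le_succ k)))).trans (mul_le_mul_of_nonneg_right
        (mul_le_mul_of_nonneg_left (lam_le k) (by norm_num)) (Nat.cast_nonneg _))
    exact_mod_cast this
  have h2 : yy k ^ (ka + 2) * yy k ^ (3 * ka) ≤ k ^ 3 := by
    refine le_trans ?_ (Nat.pow_le_pow_left (yy_le hk) 3)
    rw [← pow_add, ← pow_mul]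
    exact Nat.pow_le_pow_right (by have := yy_ge k; omega) (by omega)
  have h3 : 2 * k ≤ 2 ^ k := by
    obtain ⟨m, rfl⟩ := Nat.exists_eq_add_of_le' (k0_pos.trans hk)
    have : m < 2 ^ m := Nat.lt_two_pow_self
    rw [pow_succ]
    omega
  have h4 : 8 ^ k ≤ Del k := by
    exact_mod_cast (le_mul_of_one_le_left (by positivity) (one_le_ph k)).trans (ph_le8 k)
  have h5 := Nat.pow_le_pow_left h3 3
  rw [mul_pow, ← pow_mul, mul_comm k 3, pow_mul] at h5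
  calc _ ≤ 2 * yy k ^ (ka + 2) * Del k * yy k ^ (3 * ka) := Nat.mul_le_mul h1 (rho_le k)
    _ = 2 * (yy k ^ (ka + 2) * yy k ^ (3 * ka)) * Del k := by ring
    _ ≤ _ := by
      rw [sq]
      exact Nat.mul_le_mul_right _ (by norm_num at h5; omega)

theorem mm_XX_le {k : ℕ} (hk : k0 ≤ k) :
    mm k * (XX k).card * rho k ≤ 2 ^ yy k ^ (2 * ka + 1) := by
  rw [mul_right_comm]
  refine (Nat.mul_le_mul (T3MassB_mm hk) (card_XX_le k)).trans ?_
  rw [← pow_add]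
  exact Del_le hk

theorem mm_le_pow {k : ℕ} (hk : k0 ≤ k) : mm k ≤ 2 ^ yy k ^ (2 * ka + 1) :=
  (Nat.le_mul_of_pos_right _ (rho_pos k)).trans
    ((T3MassB_mm hk).trans ((Nat.pow_le_pow_right (Del_pos k) (by norm_num)).trans (Del_le hk)))

end Pool.Agent.P.MP_d5a1e1_nt.T3
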