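import Mathlib

/-! The schedule of cuts: pieces are merged lazily. -/

namespace Pool.Agent.P.MP_d5a1e1_nt.TB

namespace Sch

/-- The largest `v` with `C ^ v ∣ q` (for `q > 0`, `C ≥ 2`). -/
def lv (C q : ℕ) : ℕ := Nat.findGreatest (fun v => C ^ v ∣ q) q

/-- The delay of level `v`. -/
def dl (C v : ℕ) : ℕ := if v = 0 then 1 else 1 + C ^ (v - 1)

/-- `q` is a cut at time `k`. -/
def Cut (C k q : ℕ) : Prop :=
  q = 0 ∨ q = C ^ lv C q ∨ k < q + C ^ lv C q + dl C (lv C q)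

instance (C k q : ℕ) : Decidable (Cut C k q) := by unfold Cut; infer_instance

/-- `[a, b)` is a piece of time `k`. -/
def Piece (C k a b : ℕ) : Prop :=
  a < k ∧ a < b ∧ Cut C k a ∧ Cut C k b ∧ ∀ q, a < q → q < b → ¬ Cut C k q

theorem dl_pos (C v : ℕ) : 1 ≤ dl C v := by
  unfold dl; split_ifs <;> omega

theorem dl_lt {C : ℕ} (hC : 2 ≤ C) {v w : ℕ} (h : v < w) : dl C v < dl C w := by
  unfold dl
  have hw : w ≠ 0 := by omega
  rw [if_neg hw]
  split_ifs with hv
  · have := Nat.one_le_pow (w - 1) C (by omega)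
    omega
  · have : C ^ (v - 1) < C ^ (w - 1) := Nat.pow_lt_pow_right (by omega) (by omega)
    omega

theorem dl_mono {C : ℕ} (hC : 2 ≤ C) {v w : ℕ} (h : v ≤ w) : dl C v ≤ dl C w := by
  rcases h.eq_or_lt with rfl | h
  · exact le_rfl
  · exact (dl_lt hC h).le

theorem dl_le_pow {C : ℕ} (hC : 2 ≤ C) (v : ℕ) : dl C v ≤ C ^ v := by
  unfold dl
  split_ifs with hv
  · subst hv; simp
  · obtain ⟨u, rfl⟩ : ∃ u, v = u + 1 := ⟨v - 1, by omega⟩
    have h1 := Nat.one_le_pow u C (by omega)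
    simp only [Nat.add_sub_cancel, pow_succ]
    nlinarith

theorem pow_lv_dvd (C q : ℕ) : C ^ lv C q ∣ q :=
  Nat.findGreatest_spec (P := fun v => C ^ v ∣ q) (Nat.zero_le q) (by simp)

theorem le_lv {C q v : ℕ} (hC : 2 ≤ C) (hq : 0 < q) (h : C ^ v ∣ q) : v ≤ lv C q := by
  refine Nat.le_findGreatest (P := fun v => C ^ v ∣ q) ?_ h
  have h1 : C ^ v ≤ q := Nat.le_of_dvd hq h
  have h2 : v < C ^ v := Nat.lt_pow_self (by omega)
  omega

theorem dvd_iff_le_lv {C q v : ℕ} (hC : 2 ≤ C) (hq : 0 < q) : C ^ v ∣ q ↔ v ≤ lv C q :=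
  ⟨le_lv hC hq, fun h => (pow_dvd_pow C h).trans (pow_lv_dvd C q)⟩

theorem lv_pow {C : ℕ} (hC : 2 ≤ C) (v : ℕ) : lv C (C ^ v) = v := by
  have hp : 0 < C ^ v := by positivity
  apply le_antisymm _ (le_lv hC hp dvd_rfl)
  have := Nat.le_of_dvd hp (pow_lv_dvd C (C ^ v))
  exact (Nat.pow_le_pow_iff_right (by omega)).1 this

theorem pow_lv_le {C q : ℕ} (hq : 0 < q) : C ^ lv C q ≤ q := Nat.le_of_dvd hq (pow_lv_dvd C q)

theorem cut_zero (C k : ℕ) : Cut C k 0 := Or.inl rfl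

theorem cut_pow {C : ℕ} (hC : 2 ≤ C) (k v : ℕ) : Cut C k (C ^ v) :=
  Or.inr (Or.inl (by rw [lv_pow hC]))

/-- S0: cuts only disappear. -/
theorem Cut.mono {C j k q : ℕ} (h : Cut C k q) (hjk : j ≤ k) : Cut C j q := by
  rcases h with h | h | h
  · exact Or.inl h
  · exact Or.inr (Or.inl h)
  · exact Or.inr (Or.inr (by omega))

/-- S0: every `q ≥ k - 1` is a cut. -/
theorem cut_of_le {C k q : ℕ} (hC : 1 ≤ C) (h : k ≤ q + 1) : Cut C k q := by
  have h1 := Nat.one_le_pow (lv C q) C hC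
  have h2 := dl_pos C (lv C q)
  exact Or.inr (Or.inr (by omega))

theorem add_le_of_dvd {d x y : ℕ} (hx : d ∣ x) (hy : d ∣ y) (h : x < y) : x + d ≤ y := by
  obtain ⟨a, rfl⟩ := hx
  obtain ⟨b, rfl⟩ := hy
  have : a < b := lt_of_mul_lt_mul_left h (Nat.zero_le d)
  calc d * a + d = d * (a + 1) := by ring
    _ ≤ d * b := Nat.mul_le_mul_left d this

/-- S1: few cuts below `k`. -/
theorem card_cuts {C : ℕ} (hC : 2 ≤ C) (k : ℕ) :
    ((Finset.range k).filter (Cut C k)).card ≤ 3 * (Nat.log C k + 1) + 1 := by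
  classical
  set L := Nat.log C k + 1
  have hsub : (Finset.range k).filter (Cut C k) ⊆ insert 0 ((Finset.range L).biUnion fun v =>
      ({C ^ v, (k - 1) / C ^ v * C ^ v, (k - 1) / C ^ v * C ^ v - C ^ v} : Finset ℕ)) := by
    intro q hq
    rw [Finset.mem_filter, Finset.mem_range] at hq
    obtain ⟨hk, hc⟩ := hq
    rcases Nat.eq_zero_or_pos q with rfl | hq0
    · simp
    refine Finset.mem_insert_of_mem (Finset.mem_biUnion.2 ⟨lv C q, ?_, ?_⟩)
    · rw [Finset.mem_range]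
      have := Nat.le_log_of_pow_le (b := C) (by omega) ((pow_lv_le (C := C) hq0).trans hk.le)
      omega
    · rcases hc with h | h | h
      · omega
      · simp only [Finset.mem_insert]; exact Or.inl h
      · simp only [Finset.mem_insert, Finset.mem_singleton]
        right
        have hd := dl_le_pow hC (lv C q)
        obtain ⟨m, hm⟩ := pow_lv_dvd C q
        set d := C ^ lv C q with hdd
        have hdp : 0 < d := by positivity
        have h1 : m ≤ (k - 1) / d := by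
          rw [Nat.le_div_iff_mul_le hdp]; rw [mul_comm]; omega
        have h2 : (k - 1) / d < m + 2 := by
          rw [Nat.div_lt_iff_lt_mul hdp]
          have : (m + 2) * d = d * m + d + d := by ring
          omega
        have h3 : (k - 1) / d = m ∨ (k - 1) / d = m + 1 := by omega
        rcases h3 with h3 | h3
        · left; rw [h3, hm, mul_comm]
        · right; rw [h3, hm, add_mul, one_mul, Nat.add_sub_cancel, mul_comm]
  calc _ ≤ _ := Finset.card_le_card hsub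
    _ ≤ _ + 1 := Finset.card_insert_le _ _
    _ ≤ 3 * L + 1 := by
      refine Nat.add_le_add_right ?_ 1
      calc _ ≤ _ := Finset.card_biUnion_le
        _ ≤ ∑ _v ∈ Finset.range L, 3 := Finset.sum_le_sum fun v _ => Finset.card_le_three
        _ = 3 * L := by simp [mul_comm]

/-- The first cut of time `k` after `a`. -/
def nx (C k a : ℕ) : ℕ :=
  Nat.find (p := fun q => a < q ∧ (Cut C k q ∨ k < q)) ⟨a + k + 1, by omega, Or.inr (by omega)⟩

/-- The last cut of time `k` that is at most `u`. -/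
def st (C k u : ℕ) : ℕ := Nat.findGreatest (Cut C k) u

theorem lt_nx (C k a : ℕ) : a < nx C k a :=
  (Nat.find_spec (p := fun q => a < q ∧ (Cut C k q ∨ k < q)) _).1

theorem cut_nx {C : ℕ} (hC : 1 ≤ C) (k a : ℕ) : Cut C k (nx C k a) := by
  rcases (Nat.find_spec (p := fun q => a < q ∧ (Cut C k q ∨ k < q))
    ⟨a + k + 1, by omega, Or.inr (by omega)⟩).2 with h | h
  · exact h
  · exact cut_of_le hC (by unfold nx; omega)

theorem nx_le {C k a q : ℕ} (h : a < q) (hq : Cut C k q) : nx C k a ≤ q :=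
  Nat.find_min' _ ⟨h, Or.inl hq⟩

theorem not_cut_of_lt_nx {C k a q : ℕ} (h : a < q) (hq : q < nx C k a) : ¬ Cut C k q :=
  fun hc => absurd (nx_le h hc) (by omega)

theorem nx_le_time {C k a : ℕ} (hC : 1 ≤ C) (h : a < k) : nx C k a ≤ k :=
  nx_le h (cut_of_le hC (by omega))

theorem nx_mono {C j k : ℕ} (hC : 1 ≤ C) (hjk : j ≤ k) (a : ℕ) : nx C j a ≤ nx C k a :=
  nx_le (lt_nx C k a) ((cut_nx hC k a).mono hjk)

theorem st_le (C k u : ℕ) : st C k u ≤ u := Nat.findGreatest_le u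

theorem cut_st (C k u : ℕ) : Cut C k (st C k u) :=
  Nat.findGreatest_spec (Nat.zero_le u) (cut_zero C k)

theorem le_st {C k u q : ℕ} (h : q ≤ u) (hq : Cut C k q) : q ≤ st C k u :=
  Nat.le_findGreatest h hq

theorem st_anti {C j k : ℕ} (hjk : j ≤ k) (u : ℕ) : st C k u ≤ st C j u :=
  le_st (st_le C k u) ((cut_st C k u).mono hjk)

theorem piece_iff {C k a b : ℕ} (hC : 1 ≤ C) :
    Piece C k a b ↔ a < k ∧ Cut C k a ∧ b = nx C k a := by
  constructor
  · rintro ⟨h1, h2, h3, h4, h5⟩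
    refine ⟨h1, h3, le_antisymm ?_ (nx_le h2 h4)⟩
    by_contra hlt
    exact h5 _ (lt_nx C k a) (by omega) (cut_nx hC k a)
  · rintro ⟨h1, h2, rfl⟩
    exact ⟨h1, lt_nx C k a, h2, cut_nx hC k a, fun q => not_cut_of_lt_nx⟩

theorem piece_nx {C k a : ℕ} (hC : 1 ≤ C) (h : a < k) (hc : Cut C k a) :
    Piece C k a (nx C k a) := (piece_iff hC).2 ⟨h, hc, rfl⟩

theorem Piece.le_time {C k a b : ℕ} (hC : 1 ≤ C) (h : Piece C k a b) : b ≤ k := by
  obtain ⟨h1, -, rfl⟩ := (piece_iff hC).1 h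
  exact nx_le_time hC h1

theorem lt_nx_st {C : ℕ} (hC : 1 ≤ C) (k u : ℕ) : u < nx C k (st C k u) := by
  by_contra h
  have h1 := le_st (not_lt.1 h) (cut_nx hC k (st C k u))
  have h2 := lt_nx C k (st C k u)
  omega

/-- Every `u < k` lies in the piece that starts at `st C k u`. -/
theorem piece_st {C k u : ℕ} (hC : 1 ≤ C) (h : u < k) :
    Piece C k (st C k u) (nx C k (st C k u)) :=
  piece_nx hC (lt_of_le_of_lt (st_le C k u) h) (cut_st C k u)

theorem Piece.st_eq {C k a b u : ℕ} (h : Piece C k a b) (h1 : a ≤ u) (h2 : u < b) :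
    st C k u = a := by
  apply le_antisymm _ (le_st h1 h.2.2.1)
  by_contra hlt
  exact h.2.2.2.2 _ (not_le.1 hlt) (lt_of_le_of_lt (st_le C k u) h2) (cut_st C k u)

/-- Pieces of an earlier time refine pieces of a later time. -/
theorem Piece.refine {C j k a b u : ℕ} (h : Piece C k a b) (hjk : j ≤ k)
    (h1 : a ≤ u) (h2 : u < b) : a ≤ st C j u ∧ nx C j (st C j u) ≤ b :=
  ⟨le_st h1 (h.2.2.1.mono hjk),
    nx_le (lt_of_le_of_lt (st_le C j u) h2) (h.2.2.2.1.mono hjk)⟩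

/-- S2: a piece ends at most at `C ^ (log a + 1)`. -/
theorem Piece.end_le {C k a b : ℕ} (hC : 2 ≤ C) (h : Piece C k a b) :
    b ≤ C ^ (Nat.log C a + 1) := by
  obtain ⟨-, -, rfl⟩ := (piece_iff (by omega)).1 h
  exact nx_le (Nat.lt_pow_succ_log_self (by omega) a) (cut_pow hC k _)

/-- S2: a piece lies in one epoch. -/
theorem Piece.log_eq {C k a b u : ℕ} (hC : 2 ≤ C) (h : Piece C k a b) (h1 : a ≤ u)
    (h2 : u < b) : Nat.log C u = Nat.log C a := by
  apply le_antisymm _ (Nat.log_mono_right h1)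
  have h3 := lt_of_lt_of_le h2 (h.end_le hC)
  rcases Nat.eq_zero_or_pos u with rfl | hu
  · simp
  · exact Nat.lt_succ_iff.1 (Nat.log_lt_of_lt_pow hu.ne' h3)

/-- The left end of the merged piece made when the cut `q` is removed. -/
def lf (C q : ℕ) : ℕ :=
  if q < C ^ (lv C q + 1) then C ^ lv C q else q / C ^ (lv C q + 1) * C ^ (lv C q + 1)

theorem removed_eq {C k q : ℕ} (h : Cut C k q) (h' : ¬ Cut C (k + 1) q) :
    0 < q ∧ q ≠ C ^ lv C q ∧ q + C ^ lv C q + dl C (lv C q) = k + 1 := by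
  unfold Cut at h h'
  omega

theorem removed_right {C k q : ℕ} (hC : 2 ≤ C) (h : Cut C k q) (h' : ¬ Cut C (k + 1) q) :
    Cut C (k + 1) (q + C ^ lv C q) ∧ ∀ r, q < r → r < q + C ^ lv C q → ¬ Cut C k r := by
  obtain ⟨hq, hne, he⟩ := removed_eq h h'
  have hd : C ^ lv C q ∣ q + C ^ lv C q := dvd_add (pow_lv_dvd C q) dvd_rfl
  constructor
  · have h1 := dl_mono hC (le_lv hC (by omega) hd)
    have h2 := Nat.one_le_pow (lv C (q + C ^ lv C q)) C (by omega)
    exact Or.inr (Or.inr (by omega))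
  · intro r h1 h2 hc
    have hlt : lv C r < lv C q := by
      by_contra hge
      have := add_le_of_dvd (pow_lv_dvd C q)
        ((dvd_iff_le_lv hC (by omega)).2 (not_lt.1 hge)) h1
      omega
    have h3 := add_le_of_dvd (pow_lv_dvd C r) ((pow_dvd_pow C hlt.le).trans hd) h2
    have h4 := dl_lt hC hlt
    have h5 : C ^ lv C r < C ^ lv C q := Nat.pow_lt_pow_right (by omega) hlt
    have h6 := pow_lv_le (C := C) hq
    rcases hc with hc | hc | hc <;> omega

theorem removed_left {C k q : ℕ} (hC : 2 ≤ C) (h : Cut C k q) (h' : ¬ Cut C (k + 1) q) :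
    Cut C (k + 1) (lf C q) ∧ (∀ r, lf C q < r → r < q → ¬ Cut C k r) ∧
      ∃ μ, 1 ≤ μ ∧ μ < C ∧ q = lf C q + μ * C ^ lv C q := by
  obtain ⟨hq, hne, he⟩ := removed_eq h h'
  set v := lv C q with hv
  have hvd : C ^ v ∣ q := pow_lv_dvd C q
  have hnd : ¬ C ^ (v + 1) ∣ q := fun hd => by
    have := le_lv hC hq hd
    omega
  have hp1 : 0 < C ^ (v + 1) := by positivity
  have hp0 : 0 < C ^ v := by positivity
  have hvq : C ^ v ≤ q := Nat.le_of_dvd hq hvd
  have hstep : C ^ v ∣ C ^ (v + 1) := pow_dvd_pow C (by omega)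
  -- the window
  obtain ⟨A, hA, hAq, hqA, hlf⟩ : ∃ A, C ^ (v + 1) ∣ A ∧ A < q ∧ q < A + C ^ (v + 1) ∧
      ((A = 0 ∧ lf C q = C ^ v) ∨ (0 < A ∧ lf C q = A)) := by
    refine ⟨q / C ^ (v + 1) * C ^ (v + 1), Dvd.intro_left _ rfl, ?_, ?_, ?_⟩
    · refine lt_of_le_of_ne (Nat.div_mul_le_self _ _) fun e => hnd ?_
      rw [← e]; exact Dvd.intro_left _ rfl
    · exact Nat.lt_div_mul_add hp1
    · unfold lf
      rw [← hv]
      split_ifs with hlt
      · left; exact ⟨by rw [Nat.div_eq_of_lt hlt, zero_mul], rfl⟩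
      · right
        exact ⟨Nat.mul_pos (Nat.div_pos (not_lt.1 hlt) hp1) hp1, rfl⟩
  have hlfd : C ^ v ∣ lf C q := by
    rcases hlf with ⟨-, e⟩ | ⟨-, e⟩ <;> rw [e]
    exact hstep.trans hA
  have hlfq : lf C q < q := by
    rcases hlf with ⟨-, e⟩ | ⟨-, e⟩ <;> rw [e]
    · omega
    · exact hAq
  have hAlf : A ≤ lf C q ∧ C ^ v ≤ lf C q := by
    rcases hlf with ⟨e0, e⟩ | ⟨e0, e⟩ <;> rw [e]
    · omega
    · exact ⟨le_rfl, Nat.le_of_dvd e0 (hstep.trans hA)⟩
  refine ⟨?_, ?_, ?_⟩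
  · rcases hlf with ⟨-, e⟩ | ⟨e0, e⟩ <;> rw [e]
    · exact cut_pow hC _ _
    · have h1 := le_lv hC e0 hA
      have h2 := dl_lt hC (show v < lv C A by omega)
      have h3 : C ^ (v + 1) ≤ C ^ lv C A := Nat.pow_le_pow_right (by omega) h1
      have h4 := add_le_of_dvd hvd (hstep.trans (dvd_add hA dvd_rfl)) hqA
      exact Or.inr (Or.inr (by omega))
  · intro r h1 h2 hc
    have hle : lv C r ≤ v := by
      by_contra hge
      have := add_le_of_dvd hA ((dvd_iff_le_lv hC (by omega)).2 (not_le.1 hge))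
        (show A < r by omega)
      omega
    have h3 := add_le_of_dvd (pow_lv_dvd C r) ((pow_dvd_pow C hle).trans hvd) h2
    have h4 := dl_mono hC hle
    have h5 : C ^ lv C r ≤ C ^ v := Nat.pow_le_pow_right (by omega) hle
    rcases hc with hc | hc | hc <;> omega
  · obtain ⟨μ, hμ⟩ := (Nat.dvd_sub hvd hlfd)
    refine ⟨μ, ?_, ?_, ?_⟩
    · rcases Nat.eq_zero_or_pos μ with rfl | h0
      · omega
      · exact h0
    · have : C ^ v * μ < C ^ v * C := by rw [← pow_succ]; omega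
      exact lt_of_mul_lt_mul_left this (Nat.zero_le _)
    · rw [mul_comm]; omega

/-- At most two cuts are removed in one step. -/
theorem removed_cases {C k q : ℕ} (hC : 2 ≤ C) (h : Cut C k q) (h' : ¬ Cut C (k + 1) q) :
    q = k - 1 ∨ q = k - C ^ (lv C k + 1) - C ^ lv C k := by
  obtain ⟨hq, hne, he⟩ := removed_eq h h'
  rcases Nat.eq_zero_or_pos (lv C q) with h0 | h0
  · left
    rw [h0] at he
    simp [dl] at he
    omega
  · right
    obtain ⟨u, hu⟩ : ∃ u, lv C q = u + 1 := ⟨lv C q - 1, by omega⟩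
    have hd := pow_lv_dvd C q
    rw [hu] at he hd
    have he' : k = q + C ^ (u + 1) + C ^ u := by
      simp [dl] at he
      omega
    have hk : 0 < k := by omega
    have hs : C ^ u ∣ C ^ (u + 1) := pow_dvd_pow C (by omega)
    have h1 : u ≤ lv C k := le_lv hC hk (by
      rw [he']; exact dvd_add (dvd_add (hs.trans hd) hs) dvd_rfl)
    have h2 : lv C k ≤ u := by
      by_contra hge
      have h3 : C ^ (u + 1) ∣ k := (dvd_iff_le_lv hC hk).2 (by omega)
      rw [he'] at h3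
      have h4 := (Nat.dvd_add_right (dvd_add hd dvd_rfl)).1 h3
      have h5 := Nat.le_of_dvd (by positivity) h4
      have h6 : C ^ u < C ^ (u + 1) := Nat.pow_lt_pow_right (by omega) (by omega)
      omega
    have : lv C k = u := le_antisymm h2 h1
    rw [this]; omega

/-- The at most two left ends of merged pieces of the step from `k` to `k + 1`. -/
def mg (C k : ℕ) : Finset ℕ := {lf C (k - 1), lf C (k - C ^ (lv C k + 1) - C ^ lv C k)}

theorem card_mg (C k : ℕ) : (mg C k).card ≤ 2 := Finset.card_le_two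

/-- S4. -/
theorem Piece.step {C k a b : ℕ} (hC : 2 ≤ C) (h : Piece C (k + 1) a b) (hb : b ≤ k) :
    Piece C k a b ∨ (a ∈ mg C k ∧ ∃ v μ, 1 ≤ μ ∧ μ < C ∧ b = a + (μ + 1) * C ^ v ∧
      Piece C k a (a + μ * C ^ v) ∧ Piece C k (a + μ * C ^ v) b) := by
  obtain ⟨h1, h2, h3, h4, h5⟩ := h
  by_cases hall : ∀ q, a < q → q < b → ¬ Cut C k q
  · exact Or.inl ⟨by omega, h2, h3.mono (by omega), h4.mono (by omega), hall⟩
  right
  push Not at hall
  obtain ⟨q, ha, hqb, hc⟩ := hall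
  have hn := h5 q ha hqb
  obtain ⟨r1, r2⟩ := removed_right hC hc hn
  obtain ⟨l1, l2, μ, m1, m2, m3⟩ := removed_left hC hc hn
  have hp0 : 0 < C ^ lv C q := by positivity
  have hμ : 0 < μ * C ^ lv C q := Nat.mul_pos m1 hp0
  have ea : a = lf C q := by
    rcases lt_trichotomy a (lf C q) with e | e | e
    · exact absurd l1 (h5 _ e (by omega))
    · exact e
    · exact absurd (h3.mono (by omega)) (l2 a e ha)
  have eb : b = q + C ^ lv C q := by
    rcases lt_trichotomy b (q + C ^ lv C q) with e | e | e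
    · exact absurd (h4.mono (by omega)) (r2 b hqb e)
    · exact e
    · exact absurd r1 (h5 _ (by omega) e)
  refine ⟨?_, lv C q, μ, m1, m2, ?_, ?_, ?_⟩
  · unfold mg
    rcases removed_cases hC hc hn with e | e
    · rw [ea, ← e]; simp
    · rw [ea, ← e]; simp
  · rw [add_mul, one_mul]; omega
  · rw [ea, ← m3]
    exact ⟨by omega, by omega, l1.mono (by omega), hc, l2⟩
  · rw [ea, ← m3, eb]
    exact ⟨by omega, by omega, hc, r1.mono (by omega), r2⟩

/-- The last piece of time `k + 1` is `[k, k + 1)`, all others end at most at `k`. -/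
theorem piece_last {C : ℕ} (hC : 1 ≤ C) (k : ℕ) : Piece C (k + 1) k (k + 1) :=
  ⟨by omega, by omega, cut_of_le hC le_rfl, cut_of_le hC (by omega), fun q _ _ => by omega⟩

theorem Piece.end_le_of_lt {C k a b : ℕ} (hC : 1 ≤ C) (h : Piece C (k + 1) a b) (ha : a < k) :
    b ≤ k := by
  by_contra hb
  exact h.2.2.2.2 k ha (by omega) (cut_of_le hC le_rfl)

end Sch

open Finset

/-- The life time of a cut of level `v`. -/
def life (C : ℕ) : ℕ → ℕ
  | 0 => 2
  | v + 1 => C ^ (v + 1) + 1 + C ^ v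

/-- `q` is a cut at time `k`. -/
def Cut (C k q : ℕ) : Prop :=
  q = 0 ∨ (∃ j, q = C ^ j) ∨ ∃ v, C ^ v ∣ q ∧ k < q + life C v

/-- `[a, b)` is a piece at time `k`. -/
def Piece (C k a b : ℕ) : Prop :=
  a < b ∧ b ≤ k ∧ Cut C k a ∧ Cut C k b ∧ ∀ q, a < q → q < b → ¬Cut C k q

variable {C : ℕ}

theorem cut_zero (k : ℕ) : Cut C k 0 := Or.inl rfl

theorem cut_of_le {k q : ℕ} (h : k ≤ q + 1) : Cut C k q :=
  Or.inr (Or.inr ⟨0, by simp, by simp only [life]; omega⟩)

theorem Cut.mono {j k q : ℕ} (h : Cut C k q) (hjk : j ≤ k) : Cut C j q := by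
  rcases h with h | h | ⟨v, h1, h2⟩
  · exact Or.inl h
  · exact Or.inr (Or.inl h)
  · exact Or.inr (Or.inr ⟨v, h1, by omega⟩)

theorem exists_piece {k u : ℕ} (hu : u < k) : ∃ a b, Piece C k a b ∧ a ≤ u ∧ u < b := by
  classical
  have h1 : ∃ b, u < b ∧ Cut C k b := ⟨k, hu, cut_of_le (by omega)⟩
  have h2 := Nat.find_spec h1
  have h3 : Nat.find h1 ≤ k := Nat.find_min' h1 ⟨hu, cut_of_le (by omega)⟩
  have h4 : Cut C k (Nat.findGreatest (Cut C k) u) :=
    Nat.findGreatest_spec (Nat.zero_le u) (cut_zero k)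
  have h5 := Nat.findGreatest_le (P := Cut C k) u
  refine ⟨Nat.findGreatest (Cut C k) u, Nat.find h1, ⟨by omega, h3, h4, h2.2, ?_⟩, h5, h2.1⟩
  intro q q1 q2 hq
  by_cases h : q ≤ u
  · exact Nat.findGreatest_is_greatest q1 h hq
  · exact Nat.find_min h1 q2 ⟨by omega, hq⟩

theorem Piece.unique {k a b a' b' u : ℕ} (h : Piece C k a b) (h' : Piece C k a' b')
    (h1 : a ≤ u) (h2 : u < b) (h3 : a' ≤ u) (h4 : u < b') : a = a' ∧ b = b' := by
  obtain ⟨-, -, c1, c2, c3⟩ := h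
  obtain ⟨-, -, d1, d2, d3⟩ := h'
  constructor
  · by_contra hne
    rcases Nat.lt_or_gt_of_ne hne with h | h
    · exact c3 a' h (by omega) d1
    · exact d3 a h (by omega) c1
  · by_contra hne
    rcases Nat.lt_or_gt_of_ne hne with h | h
    · exact d3 b (by omega) h c2
    · exact c3 b' (by omega) h d2

theorem piece_top (k : ℕ) : Piece C (k + 1) k (k + 1) :=
  ⟨by omega, le_rfl, cut_of_le le_rfl, cut_of_le (by omega), fun q h1 h2 => by omega⟩

theorem life_eq (C v : ℕ) : life C v = C ^ v + Sch.dl C v := by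
  cases v with
  | zero => simp [life, Sch.dl]
  | succ v => simp [life, Sch.dl]; omega

theorem cut_iff (hC : 2 ≤ C) {k q : ℕ} : Cut C k q ↔ Sch.Cut C k q := by
  constructor
  · rintro (h | ⟨j, rfl⟩ | ⟨v, h1, h2⟩)
    · exact Or.inl h
    · exact Sch.cut_pow hC k j
    · rcases Nat.eq_zero_or_pos q with h0 | h0
      · exact Or.inl h0
      · have h3 := Sch.le_lv hC h0 h1
        have h4 := Sch.dl_mono hC h3
        have h5 : C ^ v ≤ C ^ Sch.lv C q := Nat.pow_le_pow_right (by omega) h3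
        rw [life_eq] at h2
        exact Or.inr (Or.inr (by omega))
  · rintro (h | h | h)
    · exact Or.inl h
    · exact Or.inr (Or.inl ⟨_, h⟩)
    · exact Or.inr (Or.inr ⟨_, Sch.pow_lv_dvd C q, by rw [life_eq]; omega⟩)

theorem piece_iff_sch (hC : 2 ≤ C) {k a b : ℕ} : Piece C k a b ↔ Sch.Piece C k a b := by
  constructor
  · rintro ⟨h1, h2, h3, h4, h5⟩
    exact ⟨by omega, h1, (cut_iff hC).1 h3, (cut_iff hC).1 h4,
      fun q q1 q2 hq => h5 q q1 q2 ((cut_iff hC).2 hq)⟩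
  · intro h
    have hb := h.le_time (by omega)
    obtain ⟨-, h2, h3, h4, h5⟩ := h
    exact ⟨h2, hb, (cut_iff hC).2 h3, (cut_iff hC).2 h4,
      fun q q1 q2 hq => h5 q q1 q2 ((cut_iff hC).1 hq)⟩

/-- S2: a piece lies in one epoch. -/
theorem Piece.log_eq (hC : 2 ≤ C) {k a b u : ℕ} (h : Piece C k a b) (h1 : a ≤ u) (h2 : u < b) :
    Nat.log C u = Nat.log C a :=
  ((piece_iff_sch hC).1 h).log_eq hC h1 h2

theorem Piece.len_le (hC : 2 ≤ C) {k a b : ℕ} (h : Piece C k a b) :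
    b - a ≤ C ^ (Nat.log C a + 1) :=
  (Nat.sub_le b a).trans (((piece_iff_sch hC).1 h).end_le hC)

open Classical in
/-- S1: few cuts. -/
theorem card_cut_le (hC : 2 ≤ C) (k : ℕ) :
    ((range k).filter (Cut C k)).card ≤ 3 * (Nat.log C k + 1) + 1 := by
  refine le_trans (card_le_card fun q hq => ?_) (Sch.card_cuts hC k)
  rw [mem_filter] at hq ⊢
  exact ⟨hq.1, (cut_iff hC).1 hq.2⟩

/-- S4: a piece of time `k + 1` below `k` is an old piece or a merge of two old pieces. -/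
theorem Piece.succ (hC : 3 ≤ C) {k a b : ℕ} (h : Piece C (k + 1) a b) (hb : b ≤ k) :
    Piece C k a b ∨ ∃ v μ, 1 ≤ μ ∧ μ < C ∧ b = a + (μ + 1) * C ^ v ∧
      Piece C k a (a + μ * C ^ v) ∧ Piece C k (a + μ * C ^ v) b := by
  have hC2 : 2 ≤ C := by omega
  rcases ((piece_iff_sch hC2).1 h).step hC2 hb with h1 | ⟨-, v, μ, m1, m2, m3, m4, m5⟩
  · exact Or.inl ((piece_iff_sch hC2).2 h1)
  · exact Or.inr ⟨v, μ, m1, m2, m3, (piece_iff_sch hC2).2 m4, (piece_iff_sch hC2).2 m5⟩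

/-- S4: at most two merges per step. -/
theorem card_merge_le (hC : 3 ≤ C) (k : ℕ) (s : Finset ℕ)
    (hs : ∀ a ∈ s, ∃ b, b ≤ k ∧ Piece C (k + 1) a b ∧ ¬Piece C k a b) : s.card ≤ 2 := by
  have hC2 : 2 ≤ C := by omega
  refine le_trans (card_le_card fun a ha => ?_) (Sch.card_mg C k)
  obtain ⟨b, hb, h1, h2⟩ := hs a ha
  rcases ((piece_iff_sch hC2).1 h1).step hC2 hb with h3 | h3
  · exact absurd ((piece_iff_sch hC2).2 h3) h2
  · exact h3.1

end Pool.Agent.P.MP_d5a1e1_nt.TB
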