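import Mathlib

/-! Finite subfields of an algebraically closed field, power bases with invertible conjugate
matrix, and three covering parabolas. -/

namespace Pool.Agent.P.MP_d5a1e1_nt.TB

open Finset Polynomial

theorem kk_nonsq (F : Type*) [Field F] [Fintype F] (p : ℕ) [CharP F p] (h7 : 7 < p) :
    ∃ z : F, ¬ IsSquare z ∧ z + 1 ≠ 0 ∧ z + 3 ≠ 0 ∧ 3 * z + 1 ≠ 0 := by
  have h2 : ringChar F ≠ 2 := by rw [ringChar.eq F p]; omega
  obtain ⟨ν, hν⟩ := FiniteField.exists_nonsquare h2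
  have hν0 : ν ≠ 0 := by rintro rfl; exact hν ⟨0, by simp⟩
  have small : ∀ m : ℕ, 0 < m → m ≤ 7 → (m : F) ≠ 0 := by
    intro m h0 h1 h
    rw [CharP.cast_eq_zero_iff F p] at h
    have := Nat.le_of_dvd h0 h
    omega
  have n2 : (2 : F) ≠ 0 := by exact_mod_cast small 2 (by norm_num) (by norm_num)
  have n3 : (3 : F) ≠ 0 := by exact_mod_cast small 3 (by norm_num) (by norm_num)
  have n5 : (5 : F) ≠ 0 := by exact_mod_cast small 5 (by norm_num) (by norm_num)
  have n7 : (7 : F) ≠ 0 := by exact_mod_cast small 7 (by norm_num) (by norm_num)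
  have hsq : ∀ c : F, c ≠ 0 → ¬ IsSquare (c ^ 2 * ν) := by
    rintro c hc ⟨r, hr⟩
    exact hν ⟨r / c, by field_simp; linear_combination hr⟩
  by_contra hcon
  push Not at hcon
  have key : ∀ c : F, c ≠ 0 →
      c ^ 2 * ν = -1 ∨ c ^ 2 * ν = -3 ∨ 3 * (c ^ 2 * ν) = -1 := by
    intro c hc
    by_cases a1 : c ^ 2 * ν + 1 = 0
    · left; linear_combination a1
    by_cases a2 : c ^ 2 * ν + 3 = 0
    · right; left; linear_combination a2
    · right; right; linear_combination hcon _ (hsq c hc) a1 a2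
  have n4 : (4 : F) ≠ 0 := by
    have : (4 : F) = 2 * 2 := by norm_num
    rw [this]; exact mul_ne_zero n2 n2
  have d : ∀ c : F, c ≠ 0 → c * ν ≠ 0 := fun c hc => mul_ne_zero hc hν0
  have d3 := d 3 n3
  have d5 := d 5 n5
  have d7 := d 7 n7
  have d8 := d (2 * 4) (mul_ne_zero n2 n4)
  have d12 := d (3 * 4) (mul_ne_zero n3 n4)
  have d15 := d (3 * 5) (mul_ne_zero n3 n5)
  have e3 := mul_ne_zero n3 d3
  have e5 := mul_ne_zero n3 d5
  have e7 := mul_ne_zero n3 d7
  have e8 := mul_ne_zero n3 d8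
  have e12 := mul_ne_zero n3 d12
  have e15 := mul_ne_zero n3 d15
  rcases key 1 one_ne_zero with a | a | a <;> rcases key 2 n2 with b | b | b <;>
    rcases key 3 n3 with c | c | c <;> rcases key 4 n4 with e | e | e <;>
    first
      | exact d3 (by linear_combination b - a)
      | exact d8 (by linear_combination c - a)
      | exact d15 (by linear_combination e - a)
      | exact d5 (by linear_combination c - b)
      | exact d12 (by linear_combination e - b)
      | exact d7 (by linear_combination e - c)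
      | exact e3 (by linear_combination b - a)
      | exact e8 (by linear_combination c - a)
      | exact e15 (by linear_combination e - a)
      | exact e5 (by linear_combination c - b)
      | exact e12 (by linear_combination e - b)
      | exact e7 (by linear_combination e - c)

/-- Three parabolas over a finite field whose pairwise sums cover the plane. -/
theorem kk_field (F : Type*) [Field F] [Finite F] (p : ℕ) [CharP F p] (h7 : 7 < p) :
    ∃ k : Fin 3 → F, (∀ a b, k a + k b ≠ 0) ∧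
      ∀ u v : F, ∃ a b : Fin 3, ∃ x y : F, x + y = u ∧ k a * x ^ 2 + k b * y ^ 2 = v := by
  classical
  have := Fintype.ofFinite F
  obtain ⟨z, hz, h1, h3, h4⟩ := kk_nonsq F p h7
  have hz0 : z ≠ 0 := by rintro rfl; exact hz ⟨0, by simp⟩
  have n2 : (2 : F) ≠ 0 := by
    intro h
    have : ((2 : ℕ) : F) = 0 := by exact_mod_cast h
    rw [CharP.cast_eq_zero_iff F p] at this
    have := Nat.le_of_dvd (by norm_num) this
    omega
  refine ⟨![z + 1, z * (z + 1), 2 * z], ?_, ?_⟩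
  · intro a b
    have e00 : (z + 1) + (z + 1) ≠ 0 := by
      have := mul_ne_zero n2 h1; intro h; exact this (by linear_combination h)
    have e01 : (z + 1) + z * (z + 1) ≠ 0 := by
      have := mul_ne_zero h1 h1; intro h; exact this (by linear_combination h)
    have e02 : (z + 1) + 2 * z ≠ 0 := by intro h; exact h4 (by linear_combination h)
    have e11 : z * (z + 1) + z * (z + 1) ≠ 0 := by
      have := mul_ne_zero n2 (mul_ne_zero hz0 h1); intro h; exact this (by linear_combination h)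
    have e12 : z * (z + 1) + 2 * z ≠ 0 := by
      have := mul_ne_zero hz0 h3; intro h; exact this (by linear_combination h)
    have e22 : 2 * z + 2 * z ≠ 0 := by
      have := mul_ne_zero n2 (mul_ne_zero n2 hz0); intro h; exact this (by linear_combination h)
    fin_cases a <;> fin_cases b <;> simp only [Fin.zero_eta, Fin.mk_one, Fin.reduceFinMk,
      Matrix.cons_val_zero, Matrix.cons_val_one, Matrix.cons_val] <;>
      first
        | assumption
        | (rw [add_comm]; assumption)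
  · intro u v
    by_cases hw : IsSquare (v - z * u ^ 2)
    · obtain ⟨r, hr⟩ := hw
      refine ⟨0, 1, (z * u + r) / (z + 1), (u - r) / (z + 1), ?_, ?_⟩
      · field_simp; ring
      · simp only [Matrix.cons_val_zero, Matrix.cons_val_one]
        field_simp
        linear_combination (-(z + 1)) * hr
    · have hw0 : v - z * u ^ 2 ≠ 0 := by intro h; rw [h] at hw; exact hw ⟨0, by simp⟩
      have q1 := (quadraticChar_neg_one_iff_not_isSquare (F := F)).2 hz
      have q2 := (quadraticChar_neg_one_iff_not_isSquare (F := F)).2 hw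
      have q3 : quadraticChar (F) (z * (v - z * u ^ 2)) = 1 := by
        rw [map_mul, q1, q2]; norm_num
      obtain ⟨r, hr⟩ := (quadraticChar_one_iff_isSquare (mul_ne_zero hz0 hw0)).1 q3
      refine ⟨2, 2, (z * u + r) / (2 * z), (z * u - r) / (2 * z), ?_, ?_⟩
      · field_simp; ring
      · simp only [Matrix.cons_val]
        field_simp
        linear_combination (-2) * hr

/-- A quadratic equation over a field has at most two solutions. -/
theorem quad_two {F : Type*} [Field F] {α β γ : F} (hα : α ≠ 0) (Z : Finset F)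
    (hZ : ∀ x ∈ Z, α * x ^ 2 + β * x + γ = 0) : Z.card ≤ 2 := by
  by_contra h
  push Not at h
  obtain ⟨x, hx, y, hy, w, hw, hxy, hxw, hyw⟩ := two_lt_card.1 h
  have h1 : α * (x + y) + β = 0 := by
    have : (x - y) * (α * (x + y) + β) = 0 := by linear_combination hZ x hx - hZ y hy
    exact (mul_eq_zero.1 this).resolve_left (sub_ne_zero.2 hxy)
  have h2 : α * (x + w) + β = 0 := by
    have : (x - w) * (α * (x + w) + β) = 0 := by linear_combination hZ x hx - hZ w hw
    exact (mul_eq_zero.1 this).resolve_left (sub_ne_zero.2 hxw)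
  have h3 : α * (y - w) = 0 := by linear_combination h1 - h2
  exact hyw (sub_eq_zero.1 ((mul_eq_zero.1 h3).resolve_left hα))

variable (Ω : Type*) [Field Ω] (p : ℕ) [hp : Fact p.Prime] [CharP Ω p]

/-- The elements fixed by the `d`-th power of the Frobenius map. -/
def Fx (d : ℕ) : Subfield Ω := (iterateFrobenius Ω p d).eqLocusField (RingHom.id Ω)

variable {Ω p}

theorem mem_Fx {d : ℕ} {x : Ω} : x ∈ Fx Ω p d ↔ x ^ p ^ d = x := by
  rw [Fx, RingHom.mem_eqLocusField, iterateFrobenius_def, RingHom.id_apply]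

theorem Fx_pow {d : ℕ} {x : Ω} (h : x ∈ Fx Ω p d) (r : ℕ) : x ^ (p ^ d) ^ r = x := by
  induction r with
  | zero => simp
  | succ r ih => rw [pow_succ, pow_mul, ih, mem_Fx.1 h]

theorem Fx_mono {d e : ℕ} (h : d ∣ e) : Fx Ω p d ≤ Fx Ω p e := by
  obtain ⟨r, rfl⟩ := h
  intro x hx
  rw [mem_Fx, pow_mul]
  exact Fx_pow hx r

theorem natCast_mem_Fx (d n : ℕ) : (n : Ω) ∈ Fx Ω p d := natCast_mem _ n

theorem intCast_mem_Fx (d : ℕ) (n : ℤ) : (n : Ω) ∈ Fx Ω p d := intCast_mem _ n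

/-- The map `x ↦ x ^ (p ^ d) ^ r` is additive over finite sums. -/
theorem sum_pow_frob {ι : Type*} (s : Finset ι) (f : ι → Ω) (d r : ℕ) :
    (∑ i ∈ s, f i) ^ (p ^ d) ^ r = ∑ i ∈ s, f i ^ (p ^ d) ^ r := by
  rw [← pow_mul]
  exact sum_pow_char_pow p (d * r) s f

theorem Fx_coe_eq {d : ℕ} (hd : d ≠ 0) [DecidableEq Ω] :
    (Fx Ω p d : Set Ω) = (X ^ p ^ d - X : Polynomial Ω).roots.toFinset := by
  ext x
  have h0 := FiniteField.X_pow_card_pow_sub_X_ne_zero Ω hd hp.out.one_lt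
  rw [SetLike.mem_coe, mem_Fx, mem_coe, Multiset.mem_toFinset, mem_roots h0]
  simp [sub_eq_zero]

theorem Fx_finite {d : ℕ} (hd : d ≠ 0) : Finite (Fx Ω p d) := by
  classical
  have : (Fx Ω p d : Set Ω).Finite := by
    rw [Fx_coe_eq hd]
    exact finite_toSet _
  exact this.to_subtype

theorem card_Fx_le {d : ℕ} (hd : d ≠ 0) : Nat.card (Fx Ω p d) ≤ p ^ d := by
  classical
  have h1 : Nat.card (Fx Ω p d) = (Fx Ω p d : Set Ω).ncard := rfl
  rw [h1, Fx_coe_eq hd, Set.ncard_coe_finset]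
  refine (Multiset.toFinset_card_le _).trans ((card_roots' _).trans ?_)
  rw [FiniteField.X_pow_card_pow_sub_X_natDegree_eq Ω hd hp.out.one_lt]

theorem card_Fx [IsAlgClosed Ω] {d : ℕ} (hd : d ≠ 0) : Nat.card (Fx Ω p d) = p ^ d := by
  classical
  have h1 : Nat.card (Fx Ω p d) = (Fx Ω p d : Set Ω).ncard := rfl
  have hs : (X ^ p ^ d - X : Polynomial Ω).Separable := galois_poly_separable p _ (dvd_pow_self p hd)
  rw [h1, Fx_coe_eq hd, Set.ncard_coe_finset,
    Multiset.toFinset_card_of_nodup (nodup_roots hs),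
    ← (IsAlgClosed.splits (X ^ p ^ d - X : Polynomial Ω)).natDegree_eq_card_roots,
    FiniteField.X_pow_card_pow_sub_X_natDegree_eq Ω hd hp.out.one_lt]

/-- The elements fixed by the Frobenius map are the residues. -/
theorem mem_Fx_one {x : Ω} : x ∈ Fx Ω p 1 ↔ ∃ n < p, (n : Ω) = x := by
  refine ⟨fun hx => ?_, fun ⟨n, _, h⟩ => h ▸ natCast_mem_Fx 1 n⟩
  have := Fx_finite (Ω := Ω) (p := p) one_ne_zero
  let f : Fin p → Fx Ω p 1 := fun n => ⟨(n : ℕ), natCast_mem_Fx 1 n⟩
  have hf : Function.Injective f := fun a b h => by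
    have h1 : ((a : ℕ) : Ω) = (b : ℕ) := congrArg Subtype.val h
    exact Fin.ext (CharP.natCast_injOn_Iio Ω p a.2 b.2 h1)
  have hb := hf.bijective_of_nat_card_le (by
    have := card_Fx_le (Ω := Ω) (p := p) one_ne_zero
    simpa using this)
  obtain ⟨n, hn⟩ := hb.2 ⟨x, hx⟩
  exact ⟨n, n.2, congrArg Subtype.val hn⟩

/-- A generator of the multiplicative group has distinct conjugates. -/
theorem exists_gen [IsAlgClosed Ω] {d μ : ℕ} (hd : d ≠ 0) (hμ : μ ≠ 0) :
    ∃ α ∈ Fx Ω p (μ * d), Function.Injective fun r : Fin μ => α ^ (p ^ d) ^ (r : ℕ) := by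
  classical
  have hmd : μ * d ≠ 0 := mul_ne_zero hμ hd
  have := Fx_finite (Ω := Ω) (p := p) hmd
  obtain ⟨g, hg⟩ := IsCyclic.exists_ofOrder_eq_natCard (α := (Fx Ω p (μ * d))ˣ)
  rw [Nat.card_units, card_Fx hmd] at hg
  refine ⟨((g : Fx Ω p (μ * d)) : Ω), (g : Fx Ω p (μ * d)).2, fun r s h => ?_⟩
  have h1 : g ^ (p ^ d) ^ (r : ℕ) = g ^ (p ^ d) ^ (s : ℕ) := by
    apply Units.ext
    apply Subtype.ext
    simpa using h
  have hq : 1 < p ^ d := Nat.one_lt_pow hd hp.out.one_lt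
  have hlt : ∀ r : Fin μ, 1 ≤ (p ^ d) ^ (r : ℕ) ∧ (p ^ d) ^ (r : ℕ) - 1 < orderOf g := fun r => by
    have h2 : (p ^ d) ^ (r : ℕ) < (p ^ d) ^ μ := Nat.pow_lt_pow_right hq r.2
    have h3 : 1 ≤ (p ^ d) ^ (r : ℕ) := Nat.one_le_pow _ _ (by omega)
    rw [hg, mul_comm μ d, pow_mul]
    omega
  have h4 : g ^ ((p ^ d) ^ (r : ℕ) - 1) = g ^ ((p ^ d) ^ (s : ℕ) - 1) := by
    apply mul_right_cancel (b := g)
    rw [← pow_succ, ← pow_succ, Nat.sub_add_cancel (hlt r).1, Nat.sub_add_cancel (hlt s).1, h1]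
  have h5 := pow_injOn_Iio_orderOf (hlt r).2 (hlt s).2 h4
  have h6 : (p ^ d) ^ (r : ℕ) = (p ^ d) ^ (s : ℕ) := by
    have := (hlt r).1
    have := (hlt s).1
    omega
  exact Fin.ext (Nat.pow_right_injective hq h6)

section Gen

variable {d μ : ℕ} {α : Ω}

omit hp [CharP Ω p] in
/-- The matrix of conjugates of the powers of `α` is invertible. -/
theorem det_conj (h : Function.Injective fun r : Fin μ => α ^ (p ^ d) ^ (r : ℕ)) :
    (Matrix.of fun r i : Fin μ => (α ^ (i : ℕ)) ^ (p ^ d) ^ (r : ℕ)).det ≠ 0 := by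
  have : (Matrix.of fun r i : Fin μ => (α ^ (i : ℕ)) ^ (p ^ d) ^ (r : ℕ)) =
      Matrix.vandermonde fun r : Fin μ => α ^ (p ^ d) ^ (r : ℕ) := by
    ext r i
    rw [Matrix.of_apply, Matrix.vandermonde_apply, ← pow_mul α, ← pow_mul α, mul_comm]
  rw [this]
  exact Matrix.det_vandermonde_ne_zero_iff.2 h

/-- The powers of `α` are independent over the small field. -/
theorem gen_indep (h : Function.Injective fun r : Fin μ => α ^ (p ^ d) ^ (r : ℕ)) {c : ℕ → Ω}
    (hc : ∀ i < μ, c i ∈ Fx Ω p d) (h0 : ∑ i ∈ range μ, α ^ i * c i = 0) : ∀ i < μ, c i = 0 := by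
  intro i hi
  have h1 : (Matrix.of fun r i : Fin μ => (α ^ (i : ℕ)) ^ (p ^ d) ^ (r : ℕ)).mulVec
      (fun i => c i) = 0 := by
    ext r
    have h2 := sum_pow_frob (p := p) (range μ) (fun i => α ^ i * c i) d r
    rw [h0, zero_pow (pow_pos (pow_pos hp.out.pos _) _).ne', sum_range] at h2
    rw [Pi.zero_apply, h2, Matrix.mulVec, dotProduct]
    refine sum_congr rfl fun j _ => ?_
    rw [mul_pow, Fx_pow (hc j j.2), Matrix.of_apply]
  exact congrFun (Matrix.eq_zero_of_mulVec_eq_zero (det_conj h) h1) ⟨i, hi⟩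

theorem gen_mem (hα : α ∈ Fx Ω p (μ * d)) {c : ℕ → Ω} {m : ℕ} (hc : ∀ i < m, c i ∈ Fx Ω p d) :
    ∑ i ∈ range m, α ^ i * c i ∈ Fx Ω p (μ * d) :=
  sum_mem fun i hi => mul_mem (pow_mem hα i) (Fx_mono (Dvd.intro_left _ rfl) (hc i (mem_range.1 hi)))

/-- The powers of `α` span the large field over the small field. -/
theorem gen_span [IsAlgClosed Ω] (hd : d ≠ 0) (hμ : μ ≠ 0) (hα : α ∈ Fx Ω p (μ * d))
    (h : Function.Injective fun r : Fin μ => α ^ (p ^ d) ^ (r : ℕ)) {x : Ω}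
    (hx : x ∈ Fx Ω p (μ * d)) :
    ∃ c : ℕ → Ω, (∀ i, c i ∈ Fx Ω p d) ∧ ∑ i ∈ range μ, α ^ i * c i = x := by
  have hmd : μ * d ≠ 0 := mul_ne_zero hμ hd
  have := Fx_finite (Ω := Ω) (p := p) hmd
  let e : (Fin μ → Fx Ω p d) → ℕ → Ω := fun c i => if hi : i < μ then (c ⟨i, hi⟩ : Ω) else 0
  have he : ∀ c i, e c i ∈ Fx Ω p d := fun c i => by
    simp only [e]
    split_ifs
    · exact Subtype.prop _
    · exact zero_mem _
  let f : (Fin μ → Fx Ω p d) → Fx Ω p (μ * d) := fun c =>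
    ⟨∑ i ∈ range μ, α ^ i * e c i, gen_mem hα fun i _ => he c i⟩
  have hf : Function.Injective f := fun a b hab => by
    have h1 : ∑ i ∈ range μ, α ^ i * e a i = ∑ i ∈ range μ, α ^ i * e b i :=
      congrArg Subtype.val hab
    have h2 := gen_indep h (c := fun i => e a i - e b i) (fun i _ => sub_mem (he a i) (he b i))
      (by simp only [mul_sub, sum_sub_distrib, h1, sub_self])
    ext i
    have h3 := h2 i i.2
    simpa [e, sub_eq_zero] using h3
  have hb := hf.bijective_of_nat_card_le (by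
    rw [card_Fx hmd, Nat.card_fun, card_Fx hd, Nat.card_eq_fintype_card, Fintype.card_fin,
      ← pow_mul, mul_comm])
  obtain ⟨c, hc⟩ := hb.2 ⟨x, hx⟩
  exact ⟨e c, he c, congrArg Subtype.val hc⟩

end Gen

/-- Three covering parabolas inside `Fx d`. -/
theorem exists_kk (h7 : 7 < p) {d : ℕ} (hd : d ≠ 0) :
    ∃ k : Fin 3 → Ω, (∀ a, k a ∈ Fx Ω p d) ∧ (∀ a b, k a + k b ≠ 0) ∧
      ∀ u ∈ Fx Ω p d, ∀ v ∈ Fx Ω p d, ∃ a b : Fin 3, ∃ x ∈ Fx Ω p d, ∃ y ∈ Fx Ω p d,
        x + y = u ∧ k a * x ^ 2 + k b * y ^ 2 = v := by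
  have := Fx_finite (Ω := Ω) (p := p) hd
  obtain ⟨k, h1, h2⟩ := kk_field (Fx Ω p d) p h7
  refine ⟨fun a => k a, fun a => (k a).2, fun a b h => h1 a b (Subtype.ext h), fun u hu v hv => ?_⟩
  obtain ⟨a, b, x, y, h3, h4⟩ := h2 ⟨u, hu⟩ ⟨v, hv⟩
  exact ⟨a, b, x, x.2, y, y.2, congrArg Subtype.val h3, congrArg Subtype.val h4⟩

end Pool.Agent.P.MP_d5a1e1_nt.TB
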