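import Pool.Agent.P.MP_d5a1e1_nt.TBW
import Pool.Agent.P.MP_d5a1e1_nt.TBBox

/-! Label vectors with bounded group sums and their masses. -/

namespace Pool.Agent.P.MP_d5a1e1_nt.TB.Lab

open Finset

/-- Sum of the digits below `n` whose unit lies in group `g`. -/
def gsum (n : ℕ) (gr : ℕ → ℕ) (g : ℕ) (x : ℕ → ℕ) : ℕ := ∑ i ∈ range n with gr (i / 2) = g, x i

/-- Number of digits below `n` whose unit lies in group `g`. -/
def gcnt (n : ℕ) (gr : ℕ → ℕ) (g : ℕ) : ℕ := ((range n).filter fun i => gr (i / 2) = g).card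

/-- Number of units below `k` in group `g`. -/
def ucnt (k : ℕ) (gr : ℕ → ℕ) (g : ℕ) : ℕ := ((range k).filter fun u => gr u = g).card

open Classical in
/-- Vectors on `n` digits with group sums at most `R`. -/
noncomputable def Xs (n : ℕ) (gr R : ℕ → ℕ) : Finset (ℕ → ℕ) :=
  (Box n fun u => R (gr u) + 1).filter fun x => ∀ g, gsum n gr g x ≤ R g

/-- Weight of a label vector. -/
noncomputable def fw (n : ℕ) (x : ℕ → ℕ) : ℝ := ∏ i ∈ range n, cw (x i)

/-- Total weight of the label vectors on `k` units. -/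
noncomputable def phi (k : ℕ) (gr R : ℕ → ℕ) : ℝ := ∑ x ∈ Xs (2 * k) gr R, fw (2 * k) x

variable {n : ℕ} {gr R : ℕ → ℕ}

theorem fw_pos (n : ℕ) (x : ℕ → ℕ) : 0 < fw n x := prod_pos fun _ _ => cw_pos _

theorem fw_le_one (n : ℕ) (x : ℕ → ℕ) : fw n x ≤ 1 :=
  prod_le_one (fun _ _ => (cw_pos _).le) fun _ _ => cw_le_one _

theorem le_gsum {i : ℕ} (hi : i < n) (x : ℕ → ℕ) : x i ≤ gsum n gr (gr (i / 2)) x :=
  single_le_sum (f := x) (fun _ _ => Nat.zero_le _) (mem_filter.2 ⟨mem_range.2 hi, rfl⟩)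

theorem gsum_le_gsum {x y : ℕ → ℕ} (h : ∀ i < n, x i ≤ y i) (g : ℕ) :
    gsum n gr g x ≤ gsum n gr g y :=
  sum_le_sum fun i hi => h i (mem_range.1 (mem_filter.1 hi).1)

theorem gsum_mono {n' : ℕ} (h : n ≤ n') (g : ℕ) (x : ℕ → ℕ) : gsum n gr g x ≤ gsum n' gr g x :=
  sum_le_sum_of_subset (filter_subset_filter _ (range_subset_range.2 h))

theorem gsum_succ (g : ℕ) (x : ℕ → ℕ) :
    gsum (n + 1) gr g x = gsum n gr g x + if gr (n / 2) = g then x n else 0 := by
  simp only [gsum, sum_filter, sum_range_succ]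

theorem gcnt_succ (g : ℕ) :
    gcnt (n + 1) gr g = gcnt n gr g + if gr (n / 2) = g then 1 else 0 := by
  simp only [gcnt, card_filter, sum_range_succ]

theorem ucnt_succ (k g : ℕ) : ucnt (k + 1) gr g = ucnt k gr g + if gr k = g then 1 else 0 := by
  simp only [ucnt, card_filter, sum_range_succ]

theorem ucnt_le (k g : ℕ) : ucnt k gr g ≤ k := (card_filter_le _ _).trans (card_range k).le

theorem gcnt_two_mul (k g : ℕ) : gcnt (2 * k) gr g = 2 * ucnt k gr g := by
  induction k with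
  | zero => simp [gcnt, ucnt]
  | succ k ih =>
    rw [show 2 * (k + 1) = 2 * k + 1 + 1 by ring, gcnt_succ, gcnt_succ, ucnt_succ, ih,
      show (2 * k + 1) / 2 = k by omega, show 2 * k / 2 = k by omega]
    split_ifs <;> ring

theorem mem_Xs {x : ℕ → ℕ} :
    x ∈ Xs n gr R ↔ (∀ i, n ≤ i → x i = 0) ∧ ∀ g, gsum n gr g x ≤ R g := by
  classical
  rw [Xs, mem_filter, mem_Box]
  exact ⟨fun h => ⟨h.1.2, h.2⟩, fun h =>
    ⟨⟨fun i hi => Nat.lt_succ_of_le ((le_gsum hi x).trans (h.2 _)), h.1⟩, h.2⟩⟩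

theorem Xs_subset : Xs n gr R ⊆ Box n fun u => R (gr u) + 1 := by
  classical
  exact filter_subset _ _

theorem le_of_mem_Xs {x : ℕ → ℕ} (hx : x ∈ Xs n gr R) (i : ℕ) : x i ≤ R (gr (i / 2)) := by
  by_cases hi : i < n
  · exact (le_gsum hi x).trans ((mem_Xs.1 hx).2 _)
  · rw [(mem_Xs.1 hx).1 i (not_lt.1 hi)]
    exact Nat.zero_le _

theorem mem_Xs_of_le {x y : ℕ → ℕ} (hy : y ∈ Xs n gr R) (h : ∀ i, x i ≤ y i) : x ∈ Xs n gr R :=
  mem_Xs.2 ⟨fun i hi => Nat.le_zero.1 ((h i).trans ((mem_Xs.1 hy).1 i hi).le),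
    fun g => (gsum_le_gsum (fun i _ => h i) g).trans ((mem_Xs.1 hy).2 g)⟩

theorem tr_mem_Xs {n' : ℕ} (h : n ≤ n') {x : ℕ → ℕ} (hx : x ∈ Xs n' gr R) :
    tr n x ∈ Xs n gr R :=
  mem_Xs.2 ⟨fun _ hi => tr_ge hi x, fun g =>
    (gsum_le_gsum (fun _ hi => (tr_lt hi x).le) g).trans
      ((gsum_mono h g x).trans ((mem_Xs.1 hx).2 g))⟩

theorem card_Xs_le : (Xs n gr R).card ≤ ∏ i ∈ range n, (R (gr (i / 2)) + 1) :=
  (card_le_card Xs_subset).trans (card_Box _ _).le

theorem sum_Xs_succ (F : (ℕ → ℕ) → ℝ) :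
    ∑ x ∈ Xs (n + 1) gr R, F x = ∑ p ∈ antidiagonal (R (gr (n / 2))),
      ∑ x ∈ Xs n gr (Function.update R (gr (n / 2)) p.2), F (Function.update x n p.1) := by
  rw [sum_sigma']
  have hup : ∀ (x : ℕ → ℕ) (a g : ℕ), gsum n gr g (Function.update x n a) = gsum n gr g x :=
    fun x a g => sum_congr rfl fun i hi =>
      Function.update_of_ne (mem_range.1 (mem_filter.1 hi).1).ne _ _
  symm
  refine sum_bij' (fun q _ => Function.update q.2 n q.1.1)
    (fun x _ => ⟨(x n, R (gr (n / 2)) - x n), Function.update x n 0⟩) ?_ ?_ ?_ ?_ ?_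
  · rintro ⟨p, x⟩ hq
    obtain ⟨hp, hx⟩ := mem_sigma.1 hq
    have hp' := mem_antidiagonal.1 hp
    obtain ⟨h1, h2⟩ := mem_Xs.1 hx
    refine mem_Xs.2 ⟨fun i hi => ?_, fun g => ?_⟩
    · rw [Function.update_of_ne (by omega)]
      exact h1 i (by omega)
    · have := h2 g
      rw [gsum_succ, hup, Function.update_self]
      split_ifs with h
      · subst h
        rw [Function.update_self] at this
        dsimp only at this hp' ⊢
        omega
      · rw [Function.update_of_ne (Ne.symm h)] at this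
        exact this
  · intro x hx
    obtain ⟨h1, h2⟩ := mem_Xs.1 hx
    have h3 := le_of_mem_Xs hx n
    refine mem_sigma.2 ⟨mem_antidiagonal.2 (by dsimp only; omega),
      mem_Xs.2 ⟨fun i hi => ?_, fun g => ?_⟩⟩
    · dsimp only
      by_cases h : i = n
      · rw [h, Function.update_self]
      · rw [Function.update_of_ne h]
        exact h1 i (by omega)
    · have := h2 g
      dsimp only
      rw [gsum_succ] at this
      rw [hup]
      split_ifs at this with h
      · subst h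
        rw [Function.update_self]
        omega
      · rw [Function.update_of_ne (Ne.symm h)]
        exact this
  · rintro ⟨p, x⟩ hq
    obtain ⟨hp, hx⟩ := mem_sigma.1 hq
    have hp' := mem_antidiagonal.1 hp
    have h0 := (mem_Xs.1 hx).1 n le_rfl
    dsimp only at hp' h0 ⊢
    rw [Function.update_self, Function.update_idem, ← h0, Function.update_eq_self,
      show R (gr (n / 2)) - p.1 = p.2 by omega]
  · intro x _
    dsimp only
    rw [Function.update_idem, Function.update_eq_self]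
  · intro q _
    rfl

/-- Mass of one group with `c` digits, digit weight `u` and budget `r`. -/
noncomputable def cm (u : ℕ → ℝ) (s : ℝ) (c r : ℕ) : ℝ :=
  PowerSeries.coeff r (PowerSeries.mk u ^ c * PowerSeries.mk (nb s))

theorem cm_zero (u : ℕ → ℝ) (s : ℝ) (r : ℕ) : cm u s 0 r = nb s r := by simp [cm]

theorem cm_succ (u : ℕ → ℝ) (s : ℝ) (c r : ℕ) :
    cm u s (c + 1) r = ∑ p ∈ antidiagonal r, u p.1 * cm u s c p.2 := by
  simp only [cm]
  rw [pow_succ', mul_assoc, PowerSeries.coeff_mul]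
  simp only [PowerSeries.coeff_mk]

theorem mk_nb_mul (s t : ℝ) :
    PowerSeries.mk (nb s) * PowerSeries.mk (nb t) = PowerSeries.mk (nb (s + t)) := by
  ext r
  simp only [PowerSeries.coeff_mul, PowerSeries.coeff_mk, nb_conv]

theorem cm_nb (t s : ℝ) (c r : ℕ) : cm (nb t) s c r = nb (c * t + s) r := by
  induction c generalizing r with
  | zero => simp [cm_zero]
  | succ c ih =>
    rw [cm_succ]
    simp only [ih]
    rw [nb_conv]
    push_cast
    congr 1
    ring

/-- The mass is a product over the groups. -/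
theorem sum_Xs_prod (u : ℕ → ℝ) (G : Finset ℕ) (hG : ∀ i < n, gr (i / 2) ∈ G) :
    ∑ x ∈ Xs n gr R, ∏ i ∈ range n, u (x i) = ∏ g ∈ G, cm u 1 (gcnt n gr g) (R g) := by
  induction n generalizing R with
  | zero =>
    have : Xs 0 gr R = {0} := by
      ext x
      rw [mem_Xs, mem_singleton]
      exact ⟨fun h => funext fun i => h.1 i (Nat.zero_le _), fun h => by simp [h, gsum]⟩
    simp [this, gcnt, cm_zero, nb_one]
  | succ n ih =>
    have hg := hG n (Nat.lt_succ_self n)
    rw [sum_Xs_succ, ← mul_prod_erase G _ hg, gcnt_succ, if_pos rfl, cm_succ, sum_mul]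
    refine sum_congr rfl fun p _ => ?_
    have e1 : ∀ x : ℕ → ℕ, ∏ i ∈ range (n + 1), u (Function.update x n p.1 i) =
        u p.1 * ∏ i ∈ range n, u (x i) := fun x => by
      rw [prod_range_succ, Function.update_self, mul_comm]
      congr 1
      exact prod_congr rfl fun i hi => by rw [Function.update_of_ne (mem_range.1 hi).ne]
    simp only [e1]
    rw [← mul_sum, ih fun i hi => hG i (by omega), ← mul_prod_erase G _ hg,
      Function.update_self, mul_assoc]
    congr 2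
    refine prod_congr rfl fun g hg' => ?_
    have := (mem_erase.1 hg').1
    rw [gcnt_succ, if_neg (Ne.symm this), add_zero, Function.update_of_ne this]

theorem sum_fw_eq (G : Finset ℕ) (hG : ∀ i < n, gr (i / 2) ∈ G) :
    ∑ x ∈ Xs n gr R, fw n x = ∏ g ∈ G, nb (gcnt n gr g * (1 / 2) + 1) (R g) := by
  simp only [← cm_nb]
  exact sum_Xs_prod _ G hG

theorem phi_eq {k : ℕ} (G : Finset ℕ) (hG : ∀ u < k, gr u ∈ G) :
    phi k gr R = ∏ g ∈ G, ((R g + ucnt k gr g).choose (ucnt k gr g) : ℝ) := by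
  rw [phi, sum_fw_eq G fun i hi => hG _ (by omega)]
  refine prod_congr rfl fun g _ => ?_
  rw [gcnt_two_mul, ← nb_nat]
  push_cast
  congr 1
  ring

theorem card_Xs_eq (G : Finset ℕ) (hG : ∀ i < n, gr (i / 2) ∈ G) :
    ((Xs n gr R).card : ℝ) = ∏ g ∈ G, ((R g + gcnt n gr g).choose (gcnt n gr g) : ℝ) := by
  have := sum_Xs_prod (R := R) (nb 1) G hG
  simp only [cm_nb, nb_one, mul_one, nb_nat] at this
  simpa using this

theorem phi_zero : phi 0 gr R = 1 := by
  rw [phi_eq ∅ fun u hu => absurd hu (Nat.not_lt_zero u), prod_empty]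

theorem phi_succ (k : ℕ) : ((ucnt k gr (gr k) : ℝ) + 1) * phi (k + 1) gr R =
    (R (gr k) + ucnt k gr (gr k) + 1) * phi k gr R := by
  have hG : ∀ u < k + 1, gr u ∈ (range (k + 1)).image gr := fun u hu =>
    mem_image_of_mem _ (mem_range.2 hu)
  have hg := hG k (Nat.lt_succ_self k)
  rw [phi_eq _ hG, phi_eq _ fun u hu => hG u (by omega), ← mul_prod_erase _ _ hg,
    ← mul_prod_erase _ _ hg, ← mul_assoc, ← mul_assoc]
  congr 1
  · rw [ucnt_succ, if_pos rfl]
    have := Nat.add_one_mul_choose_eq (R (gr k) + ucnt k gr (gr k)) (ucnt k gr (gr k))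
    rw [mul_comm, ← add_assoc]
    exact_mod_cast this.symm
  · refine prod_congr rfl fun g hg' => ?_
    rw [ucnt_succ, if_neg (mem_erase.1 hg').1.symm, add_zero]

/-- L1, lower bound. -/
theorem one_le_phi (k : ℕ) : 1 ≤ phi k gr R := by
  rw [phi_eq _ fun u hu => mem_image_of_mem gr (mem_range.2 hu)]
  refine prod_induction _ (fun x : ℝ => 1 ≤ x)
    (fun _ _ ha hb => one_le_mul_of_one_le_of_one_le ha hb) le_rfl fun g _ => ?_
  exact_mod_cast Nat.choose_pos (Nat.le_add_left _ _)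

/-- L1, upper bound. -/
theorem phi_le (k : ℕ) : phi k gr R ≤ ∏ u ∈ range k, ((R (gr u) : ℝ) + 1) := by
  induction k with
  | zero => simp [phi_zero]
  | succ k ih =>
    have h0 : (0 : ℝ) ≤ ucnt k gr (gr k) := Nat.cast_nonneg _
    have h1 : (0 : ℝ) ≤ R (gr k) := Nat.cast_nonneg _
    have h2 := one_le_phi (gr := gr) (R := R) k
    refine le_of_mul_le_mul_left ?_ (by positivity : (0 : ℝ) < ucnt k gr (gr k) + 1)
    rw [phi_succ, prod_range_succ, mul_comm (∏ u ∈ range k, _), ← mul_assoc]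
    exact mul_le_mul (by nlinarith) ih (by linarith) (by positivity)

/-- L1, growth. -/
theorem le_phi_succ (k : ℕ) : R (gr k) * phi k gr R ≤ (k + 1) * phi (k + 1) gr R := by
  have h0 : (0 : ℝ) ≤ ucnt k gr (gr k) := Nat.cast_nonneg _
  have h1 : (ucnt k gr (gr k) : ℝ) ≤ k := by exact_mod_cast ucnt_le k _
  have h2 := one_le_phi (gr := gr) (R := R) k
  have h3 := one_le_phi (gr := gr) (R := R) (k + 1)
  have h4 := phi_succ (gr := gr) (R := R) k
  nlinarith

end Pool.Agent.P.MP_d5a1e1_nt.TB.Lab
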