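import Mathlib

/-! A Macaulay matrix bound for perturbed diagonal quadratic systems. -/

namespace Pool.Agent.P.MP_d5a1e1_nt.TB

open Finset

variable {K : Type*} [Field K] {ι : Type*} [Fintype ι] [DecidableEq ι]

/-- The monomial with exponent vector `α`. -/
def macMon (α : ι → ℕ) (x : ι → K) : K := ∏ i, x i ^ α i

/-- Exponent vectors of degree at most the number of variables. -/
def macLow (ι : Type*) [Fintype ι] [DecidableEq ι] : Finset (ι → ℕ) :=
  (Fintype.piFinset fun _ => range (Fintype.card ι + 1)).filter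
    fun α => ∑ i, α i ≤ Fintype.card ι

/-- Exponent vectors of degree one more than the number of variables. -/
def macTop (ι : Type*) [Fintype ι] [DecidableEq ι] : Finset (ι → ℕ) :=
  (Fintype.piFinset fun _ => range (Fintype.card ι + 2)).filter
    fun α => ∑ i, α i = Fintype.card ι + 1

theorem mac_mem_low {α : ι → ℕ} : α ∈ macLow ι ↔ ∑ i, α i ≤ Fintype.card ι := by
  unfold macLow
  rw [mem_filter, Fintype.mem_piFinset]
  refine ⟨fun h => h.2, fun h => ⟨fun i => mem_range.2 ?_, h⟩⟩
  have := single_le_sum (f := α) (fun _ _ => Nat.zero_le _) (mem_univ i)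
  omega

theorem mac_mem_top {α : ι → ℕ} : α ∈ macTop ι ↔ ∑ i, α i = Fintype.card ι + 1 := by
  unfold macTop
  rw [mem_filter, Fintype.mem_piFinset]
  refine ⟨fun h => h.2, fun h => ⟨fun i => mem_range.2 ?_, h⟩⟩
  have := single_le_sum (f := α) (fun _ _ => Nat.zero_le _) (mem_univ i)
  omega

theorem mac_card_low : (macLow ι).card ≤ (Fintype.card ι + 1) ^ Fintype.card ι := by
  refine (card_filter_le _ _).trans ?_
  simp [Fintype.card_piFinset]

theorem mac_card_top : (macTop ι).card ≤ (Fintype.card ι + 2) ^ Fintype.card ι := by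
  refine (card_filter_le _ _).trans ?_
  simp [Fintype.card_piFinset]

omit [DecidableEq ι] in
theorem macMon_add (α β : ι → ℕ) (x : ι → K) :
    macMon (α + β) x = macMon α x * macMon β x := by
  simp [macMon, pow_add, prod_mul_distrib]

theorem macMon_single (a : ι) (k : ℕ) (x : ι → K) : macMon (Pi.single a k) x = x a ^ k := by
  unfold macMon
  rw [prod_eq_single a]
  · simp
  · intro b _ hb
    simp [Pi.single_eq_of_ne hb]
  · simp

theorem mac_sum_single (γ : ι → ℕ) (a : ι) (k : ℕ) :
    ∑ i, (γ + Pi.single a k : ι → ℕ) i = ∑ i, γ i + k := by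
  simp [sum_add_distrib]

theorem mac_split (α : macTop ι) :
    ∃ p : ι × (ι → ℕ), (α : ι → ℕ) = p.2 + Pi.single p.1 2 := by
  have h := mac_mem_top.1 α.2
  have h2 : ∃ j, 2 ≤ (α : ι → ℕ) j := by
    by_contra hc
    push Not at hc
    have : ∑ i, (α : ι → ℕ) i ≤ ∑ _i : ι, 1 := sum_le_sum fun i _ => by have := hc i; omega
    simp at this
    omega
  obtain ⟨j, hj⟩ := h2
  refine ⟨(j, fun i => (α : ι → ℕ) i - (Pi.single j 2 : ι → ℕ) i), funext fun i => ?_⟩
  by_cases hi : i = j
  · subst hi
    simp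
    omega
  · simp [Pi.single_eq_of_ne hi]

omit [DecidableEq ι] in
/-- A space of functions on a finite set of points that contains `1` and is closed under
multiplication by the coordinates is everything. -/
theorem mac_top (Z : Finset (ι → K)) (S : Submodule K (Z → K)) (h1 : (1 : Z → K) ∈ S)
    (hx : ∀ i, ∀ g ∈ S, (fun z : Z => (z : ι → K) i) * g ∈ S) : S = ⊤ := by
  classical
  have hd : ∀ z : Z, (fun w : Z => if z = w then (1 : K) else 0) ∈ S := by
    intro z
    have hi : ∀ w : Z, ∃ f : Z → K, (∀ g ∈ S, f * g ∈ S) ∧ f z = 1 ∧ (w ≠ z → f w = 0) := by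
      intro w
      by_cases hw : w = z
      · exact ⟨1, fun g hg => by simpa using hg, rfl, fun h => absurd hw h⟩
      · have hne : (z : ι → K) ≠ (w : ι → K) := fun h => hw (Subtype.ext h).symm
        obtain ⟨i, hi⟩ := Function.ne_iff.1 hne
        have hi' : (z : ι → K) i - (w : ι → K) i ≠ 0 := sub_ne_zero.2 hi
        refine ⟨fun y => ((z : ι → K) i - (w : ι → K) i)⁻¹ * ((y : ι → K) i - (w : ι → K) i),
          fun g hg => ?_, inv_mul_cancel₀ hi', fun _ => by simp⟩
        have := S.smul_mem ((z : ι → K) i - (w : ι → K) i)⁻¹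
          (S.sub_mem (hx i g hg) (S.smul_mem ((w : ι → K) i) hg))
        refine (congrArg (· ∈ S) (funext fun y => ?_)).mp this
        simp only [Pi.smul_apply, Pi.sub_apply, Pi.mul_apply, smul_eq_mul]
        ring
    choose f hf using hi
    have hp : ∀ s : Finset Z, (∏ w ∈ s, f w) ∈ S := by
      intro s
      induction s using Finset.induction_on with
      | empty => simpa using h1
      | insert w s hw ih =>
        rw [prod_insert hw]
        exact (hf w).1 _ ih
    refine (congrArg (· ∈ S) (funext fun y => ?_)).mp (hp univ)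
    rw [Finset.prod_apply]
    split_ifs with h
    · subst h
      exact prod_eq_one fun w _ => (hf w).2.1
    · exact prod_eq_zero (mem_univ y) ((hf y).2.2 fun h' => h h'.symm)
  rw [eq_top_iff]
  intro g _
  rw [pi_eq_sum_univ g]
  exact S.sum_mem fun z _ => S.smul_mem _ (hd z)

/-- The bound for systems `x j ^ 2 + t * G j x + affine = 0`. -/
theorem macaulay_core (G : ι → ι → ι → K) :
    ∃ B : Finset K, B.card ≤ (Fintype.card ι + 2) ^ Fintype.card ι ∧ ∀ t ∉ B,
      ∀ (l : ι → ι → K) (c₀ : ι → K) (Z : Finset (ι → K)),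
        (∀ x ∈ Z, ∀ j, x j ^ 2 + t * ∑ a, ∑ b, G j a b * x a * x b + ∑ a, l j a * x a +
          c₀ j = 0) → Z.card ≤ (Fintype.card ι + 1) ^ Fintype.card ι := by
  classical
  choose p hp using mac_split (ι := ι)
  have hdeg : ∀ α : macTop ι, ∑ i, (p α).2 i + 2 = Fintype.card ι + 1 := by
    intro α
    rw [← mac_sum_single _ (p α).1, ← hp α]
    exact mac_mem_top.1 α.2
  have hβ : ∀ (α : macTop ι) (a b : ι),
      (p α).2 + Pi.single a 1 + Pi.single b 1 ∈ macTop ι := by
    intro α a b
    rw [mac_mem_top, mac_sum_single, mac_sum_single]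
    exact hdeg α
  let A : Matrix (macTop ι) (macTop ι) K := fun α β =>
    ∑ a, ∑ b, if (⟨_, hβ α a b⟩ : macTop ι) = β then G (p α).1 a b else 0
  have hA : ∀ (α : macTop ι) (x : ι → K), ∑ β, A α β * macMon (β : ι → ℕ) x =
      macMon (p α).2 x * ∑ a, ∑ b, G (p α).1 a b * x a * x b := by
    intro α x
    simp only [A, sum_mul]
    rw [sum_comm, mul_sum]
    refine sum_congr rfl fun a _ => ?_
    rw [sum_comm, mul_sum]
    refine sum_congr rfl fun b _ => ?_
    simp only [ite_mul, zero_mul, sum_ite_eq, mem_univ, if_true]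
    rw [macMon_add, macMon_add, macMon_single, macMon_single]
    ring
  let P : Polynomial K :=
    Matrix.det ((Polynomial.X : Polynomial K) • A.map Polynomial.C +
      (1 : Matrix (macTop ι) (macTop ι) K).map Polynomial.C)
  have hP : ∀ t : K, P.eval t = Matrix.det (t • A + 1) := by
    intro t
    have := RingHom.map_det (Polynomial.evalRingHom t)
      ((Polynomial.X : Polynomial K) • A.map Polynomial.C +
        (1 : Matrix (macTop ι) (macTop ι) K).map Polynomial.C)
    rw [Polynomial.coe_evalRingHom] at this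
    rw [this]
    congr 1
    ext α β
    simp only [RingHom.mapMatrix_apply, Matrix.map_apply, Matrix.add_apply, Matrix.smul_apply,
      smul_eq_mul, Polynomial.coe_evalRingHom, Polynomial.eval_add, Polynomial.eval_mul,
      Polynomial.eval_X, Polynomial.eval_C]
  have hP0 : P ≠ 0 := by
    intro h
    have := hP 0
    rw [h] at this
    simp at this
  refine ⟨P.roots.toFinset, ?_, fun t ht l c₀ Z hZ => ?_⟩
  · calc _ ≤ Multiset.card P.roots := Multiset.toFinset_card_le _
      _ ≤ P.natDegree := Polynomial.card_roots' _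
      _ ≤ Fintype.card (macTop ι) := Polynomial.natDegree_det_X_add_C_le _ _
      _ = (macTop ι).card := Fintype.card_coe _
      _ ≤ _ := mac_card_top
  have hdet : IsUnit (t • A + 1).det := by
    rw [isUnit_iff_ne_zero, ← hP]
    intro h
    exact ht (Multiset.mem_toFinset.2 ((Polynomial.mem_roots hP0).2 h))
  let m : (ι → ℕ) → Z → K := fun γ z => macMon γ (z : ι → K)
  let S : Submodule K (Z → K) := Submodule.span K (Set.range fun γ : macLow ι => m γ)
  have hlow : ∀ γ : ι → ℕ, ∑ i, γ i ≤ Fintype.card ι → m γ ∈ S := fun γ h =>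
    Submodule.subset_span ⟨⟨γ, mac_mem_low.2 h⟩, rfl⟩
  have hrow : ∀ α : macTop ι, (∑ β, (t • A + 1) α β • m (β : ι → ℕ)) ∈ S := by
    intro α
    have h1 : m (p α).2 ∈ S := hlow _ (by have := hdeg α; omega)
    have h2 : ∀ a, m ((p α).2 + Pi.single a 1) ∈ S := fun a =>
      hlow _ (by rw [mac_sum_single]; have := hdeg α; omega)
    have h3 := S.neg_mem (S.add_mem
      (S.sum_mem fun a (_ : a ∈ univ) => S.smul_mem (l (p α).1 a) (h2 a))
      (S.smul_mem (c₀ (p α).1) h1))
    refine (congrArg (· ∈ S) (funext fun z => ?_)).mp h3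
    have e1 : (∑ β, (t • A + 1) α β • m (β : ι → ℕ)) z =
        t * ∑ β, A α β * macMon (β : ι → ℕ) (z : ι → K) + macMon (α : ι → ℕ) (z : ι → K) := by
      simp only [Finset.sum_apply, Pi.smul_apply, smul_eq_mul, Matrix.add_apply,
        Matrix.smul_apply, add_mul, sum_add_distrib, Matrix.one_apply, ite_mul, one_mul,
        zero_mul, sum_ite_eq, mem_univ, if_true, mul_sum, m, mul_assoc]
    have e2 : (∑ a, l (p α).1 a • m ((p α).2 + Pi.single a 1)) z =
        macMon (p α).2 (z : ι → K) * ∑ a, l (p α).1 a * (z : ι → K) a := by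
      simp only [Finset.sum_apply, Pi.smul_apply, smul_eq_mul, mul_sum, m, macMon_add,
        macMon_single]
      exact sum_congr rfl fun a _ => by ring
    rw [e1, hA, Pi.neg_apply, Pi.add_apply, e2, hp α, macMon_add, macMon_single]
    have := hZ z z.2 (p α).1
    simp only [Pi.smul_apply, smul_eq_mul, m]
    linear_combination (-macMon (p α).2 (z : ι → K)) * this
  have htop : ∀ β : macTop ι, m (β : ι → ℕ) ∈ S := by
    intro β
    have h := S.sum_mem fun α (_ : α ∈ univ) => S.smul_mem ((t • A + 1)⁻¹ β α) (hrow α)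
    refine (congrArg (· ∈ S) ?_).mp h
    simp only [smul_sum, smul_smul]
    rw [sum_comm]
    simp only [← sum_smul, ← Matrix.mul_apply, Matrix.nonsing_inv_mul _ hdet, Matrix.one_apply,
      ite_smul, one_smul, zero_smul, sum_ite_eq, mem_univ, if_true]
  have hS : S = ⊤ := by
    refine mac_top Z S ?_ fun i g hg => ?_
    · have := hlow 0 (by simp)
      refine (congrArg (· ∈ S) (funext fun z => ?_)).mp this
      simp [m, macMon]
    · induction hg using Submodule.span_induction with
      | mem g hg =>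
        obtain ⟨γ, rfl⟩ := hg
        have hγ := mac_mem_low.1 γ.2
        have e : ((fun z : Z => (z : ι → K) i) * m γ) = m ((γ : ι → ℕ) + Pi.single i 1) := by
          funext z
          simp only [Pi.mul_apply, m, macMon_add, macMon_single]
          ring
        rw [e]
        rcases hγ.lt_or_eq with h | h
        · exact hlow _ (by rw [mac_sum_single]; omega)
        · exact htop ⟨_, mac_mem_top.2 (by rw [mac_sum_single, h])⟩
      | zero => simp
      | add g g' _ _ h h' => rw [mul_add]; exact S.add_mem h h'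
      | smul c g _ h => rw [mul_smul_comm]; exact S.smul_mem c h
  have hr : Module.finrank K S ≤ Fintype.card (macLow ι) := finrank_range_le_card _
  rw [hS, finrank_top, Module.finrank_fintype_fun_eq_card, Fintype.card_coe,
    Fintype.card_coe] at hr
  exact hr.trans mac_card_low

/-- Macaulay lemma: for all but few `t` the system has few solutions, for all affine parts. -/
theorem macaulay (Θ : Matrix ι ι K) (hΘ : IsUnit Θ.det) (d : ι → K) (hd : ∀ j, d j ≠ 0)
    (G : ι → ι → ι → K) :
    ∃ B : Finset K, B.card ≤ (Fintype.card ι + 2) ^ Fintype.card ι ∧ ∀ t ∉ B,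
      ∀ (l : ι → ι → K) (c₀ : ι → K) (Z : Finset (ι → K)),
        (∀ c ∈ Z, ∀ j, d j * (Θ.mulVec c j) ^ 2 + t * ∑ a, ∑ b, G j a b * c a * c b +
          ∑ a, l j a * c a + c₀ j = 0) → Z.card ≤ (Fintype.card ι + 1) ^ Fintype.card ι := by
  classical
  obtain ⟨B, hB, h⟩ := macaulay_core
    fun j a b => (d j)⁻¹ * ∑ a', ∑ b', G j a' b' * Θ⁻¹ a' a * Θ⁻¹ b' b
  refine ⟨B, hB, fun t ht l c₀ Z hZ => ?_⟩
  have hinv : ∀ c : ι → K, Θ⁻¹.mulVec (Θ.mulVec c) = c := fun c => by
    rw [Matrix.mulVec_mulVec, Matrix.nonsing_inv_mul _ hΘ, Matrix.one_mulVec]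
  have hinj : Function.Injective Θ.mulVec := fun c c' e => by rw [← hinv c, e, hinv]
  rw [← card_image_of_injective Z hinj]
  refine h t ht (fun j a => (d j)⁻¹ * ∑ a', l j a' * Θ⁻¹ a' a) (fun j => (d j)⁻¹ * c₀ j) _
    fun x hx j => ?_
  obtain ⟨c, hc, rfl⟩ := mem_image.1 hx
  have hc' : ∀ a, c a = ∑ a', Θ⁻¹ a a' * Θ.mulVec c a' := fun a => by
    conv_lhs => rw [← hinv c]
    rfl
  generalize hx' : Θ.mulVec c = x at hc' ⊢
  have e1 : ∑ a, ∑ b, ((d j)⁻¹ * ∑ a', ∑ b', G j a' b' * Θ⁻¹ a' a * Θ⁻¹ b' b) * x a * x b =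
      (d j)⁻¹ * ∑ a, ∑ b, G j a b * c a * c b := by
    simp only [hc', mul_sum, sum_mul]
    calc _ = ∑ a, ∑ a', ∑ b, ∑ b', (d j)⁻¹ * (G j a' b' * Θ⁻¹ a' a * Θ⁻¹ b' b) * x a * x b :=
          sum_congr rfl fun a _ => sum_comm
      _ = ∑ a', ∑ a, ∑ b, ∑ b', (d j)⁻¹ * (G j a' b' * Θ⁻¹ a' a * Θ⁻¹ b' b) * x a * x b :=
          sum_comm
      _ = _ := by
        refine sum_congr rfl fun a' _ => ?_
        calc _ = ∑ a, ∑ b', ∑ b, (d j)⁻¹ * (G j a' b' * Θ⁻¹ a' a * Θ⁻¹ b' b) * x a * x b :=
              sum_congr rfl fun a _ => sum_comm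
          _ = ∑ b', ∑ a, ∑ b, (d j)⁻¹ * (G j a' b' * Θ⁻¹ a' a * Θ⁻¹ b' b) * x a * x b :=
              sum_comm
          _ = _ := by
            refine sum_congr rfl fun b' _ => ?_
            rw [sum_comm]
            exact sum_congr rfl fun b _ => sum_congr rfl fun a _ => by ring
  have e2 : ∑ a, ((d j)⁻¹ * ∑ a', l j a' * Θ⁻¹ a' a) * x a = (d j)⁻¹ * ∑ a, l j a * c a := by
    simp only [hc', mul_sum, sum_mul]
    rw [sum_comm]
    exact sum_congr rfl fun a' _ => sum_congr rfl fun a _ => by ring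
  rw [e1, e2]
  have h0 := hZ c hc j
  rw [hx'] at h0
  have hj : (d j)⁻¹ * d j = 1 := inv_mul_cancel₀ (hd j)
  linear_combination (d j)⁻¹ * h0 - x j ^ 2 * hj

end Pool.Agent.P.MP_d5a1e1_nt.TB
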