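import Pool.Agent.P.MP_d5a1e1_nt.TBMac
import Pool.Agent.P.MP_d5a1e1_nt.TBFld

/-! Merging blocks: conics over the blocks against one conic over their union. -/

namespace Pool.Agent.P.MP_d5a1e1_nt.TB

open Finset

section Forms

variable {K ι : Type*} [Field K] [Fintype ι]

/-- Linear forms. -/
def IsLin (f : (ι → K) → K) : Prop := ∃ l : ι → K, ∀ c, f c = ∑ a, l a * c a

/-- Affine functions. -/
def IsAff (f : (ι → K) → K) : Prop := ∃ (l : ι → K) (e : K), ∀ c, f c = ∑ a, l a * c a + e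

/-- Quadratic forms. -/
def IsQuad (f : (ι → K) → K) : Prop :=
  ∃ G : ι → ι → K, ∀ c, f c = ∑ a, ∑ b, G a b * c a * c b

theorem IsLin.aff {f : (ι → K) → K} (h : IsLin f) : IsAff f := by
  obtain ⟨l, h⟩ := h
  exact ⟨l, 0, fun c => by rw [h, add_zero]⟩

theorem IsAff.const (e : K) : IsAff fun _ : ι → K => e := ⟨0, e, fun c => by simp⟩

theorem IsAff.add {f g : (ι → K) → K} (hf : IsAff f) (hg : IsAff g) :
    IsAff fun c => f c + g c := by
  obtain ⟨l, e, h⟩ := hf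
  obtain ⟨l', e', h'⟩ := hg
  refine ⟨l + l', e + e', fun c => ?_⟩
  simp only [h, h', Pi.add_apply, add_mul, sum_add_distrib]
  ring

theorem IsAff.mul (k : K) {f : (ι → K) → K} (hf : IsAff f) : IsAff fun c => k * f c := by
  obtain ⟨l, e, h⟩ := hf
  refine ⟨fun a => k * l a, k * e, fun c => ?_⟩
  simp only [h, mul_add, mul_sum, mul_assoc]

theorem IsAff.sum {κ : Type*} (s : Finset κ) {f : κ → (ι → K) → K} (hf : ∀ i ∈ s, IsAff (f i)) :
    IsAff fun c => ∑ i ∈ s, f i c := by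
  classical
  induction s using Finset.induction_on with
  | empty => simpa using IsAff.const (0 : K)
  | insert a s ha ih =>
    simp only [sum_insert ha]
    exact (hf a (mem_insert_self _ _)).add (ih fun i hi => hf i (mem_insert_of_mem hi))

theorem IsLin.mul {f g : (ι → K) → K} (hf : IsLin f) (hg : IsLin g) :
    IsQuad fun c => f c * g c := by
  obtain ⟨l, h⟩ := hf
  obtain ⟨l', h'⟩ := hg
  refine ⟨fun a b => l a * l' b, fun c => ?_⟩
  simp only [h, h', sum_mul_sum]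
  exact sum_congr rfl fun a _ => sum_congr rfl fun b _ => by ring

theorem IsQuad.mul (k : K) {f : (ι → K) → K} (hf : IsQuad f) : IsQuad fun c => k * f c := by
  obtain ⟨G, h⟩ := hf
  refine ⟨fun a b => k * G a b, fun c => ?_⟩
  simp only [h, mul_sum, mul_assoc]

theorem IsQuad.sum {κ : Type*} (s : Finset κ) {f : κ → (ι → K) → K}
    (hf : ∀ i ∈ s, IsQuad (f i)) : IsQuad fun c => ∑ i ∈ s, f i c := by
  classical
  induction s using Finset.induction_on with
  | empty => exact ⟨0, fun c => by simp⟩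
  | insert a s ha ih =>
    obtain ⟨G, h⟩ := hf a (mem_insert_self _ _)
    obtain ⟨G', h'⟩ := ih fun i hi => hf i (mem_insert_of_mem hi)
    refine ⟨G + G', fun c => ?_⟩
    simp only [sum_insert ha, h, h', Pi.add_apply, add_mul, sum_add_distrib]

/-- The Macaulay lemma with the forms given as functions. -/
theorem macaulay_fun [DecidableEq ι] (Θ : Matrix ι ι K) (hΘ : Θ.det ≠ 0) (d : ι → K)
    (hd : ∀ j, d j ≠ 0) (Q : ι → (ι → K) → K) (hQ : ∀ j, IsQuad (Q j)) :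
    ∃ B : Finset K, B.card ≤ (Fintype.card ι + 2) ^ Fintype.card ι ∧ ∀ t ∉ B,
      ∀ f : ι → (ι → K) → K, (∀ j, IsAff (f j)) → ∀ Z : Finset (ι → K),
        (∀ c ∈ Z, ∀ j, d j * (∑ a, Θ j a * c a) ^ 2 + t * Q j c + f j c = 0) →
        Z.card ≤ (Fintype.card ι + 1) ^ Fintype.card ι := by
  choose G hG using hQ
  obtain ⟨B, hB, h⟩ := macaulay Θ (isUnit_iff_ne_zero.2 hΘ) d hd G
  refine ⟨B, hB, fun t ht f hf Z hZ => ?_⟩
  choose l e hl using hf
  refine h t ht l e Z fun c hc j => ?_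
  have := hZ c hc j
  rw [hG, hl, ← add_assoc] at this
  exact this

end Forms

variable {Ω : Type*} [Field Ω] [IsAlgClosed Ω] {p : ℕ} [hp : Fact p.Prime] [CharP Ω p]

/-- A division of `[0, n)` into blocks: `st j` is the start of the block of `j`, and `ln a` the
length of the block that starts at `a`. -/
def IsBlocks (n : ℕ) (st ln : ℕ → ℕ) : Prop :=
  ∀ j < n, st j ≤ j ∧ j < st j + ln (st j) ∧ st j + ln (st j) ≤ n ∧
    ∀ i, st j ≤ i → i < st j + ln (st j) → st i = st j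

theorem IsBlocks.sum_eq {K : Type*} [Field K] {n : ℕ} {st ln : ℕ → ℕ} (h : IsBlocks n st ln)
    {j : ℕ} (hj : j < n) (θ x : ℕ → K) :
    ∑ a : Fin n, (if st a = st j then θ (a - st j) else 0) * x a =
      ∑ i ∈ range (ln (st j)), θ i * x (st j + i) := by
  obtain ⟨-, -, h3, h4⟩ := h j hj
  rw [Fin.sum_univ_eq_sum_range (fun a => (if st a = st j then θ (a - st j) else 0) * x a) n]
  have e1 : ∑ i ∈ range (ln (st j)), θ i * x (st j + i) =
      ∑ a ∈ Ico (st j) (st j + ln (st j)), (if st a = st j then θ (a - st j) else 0) * x a := by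
    rw [sum_Ico_eq_sum_range, Nat.add_sub_cancel_left]
    refine sum_congr rfl fun i hi => ?_
    rw [if_pos (h4 _ (by omega) (by have := mem_range.1 hi; omega)), Nat.add_sub_cancel_left]
  rw [e1]
  refine (sum_subset (fun a ha => mem_range.2 (by have := (mem_Ico.1 ha).2; omega))
    fun a ha hn => ?_).symm
  rw [if_neg, zero_mul]
  intro he
  obtain ⟨g1, g2, -, -⟩ := h a (mem_range.1 ha)
  rw [he] at g1 g2
  exact hn (mem_Ico.2 ⟨g1, g2⟩)

omit [IsAlgClosed Ω] hp [CharP Ω p] in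
theorem IsBlocks.det_ne {d n : ℕ} {st ln : ℕ → ℕ} (h : IsBlocks n st ln) {β : ℕ → Ω}
    (hβ : ∀ j < n, Function.Injective fun r : Fin (ln (st j)) => β (st j) ^ (p ^ d) ^ (r : ℕ)) :
    (Matrix.of fun j a : Fin n => if st a = st j then
      (β (st j) ^ (a - st j)) ^ (p ^ d) ^ (j - st j) else 0).det ≠ 0 := by
  intro h0
  obtain ⟨v, hv, h1⟩ := Matrix.exists_mulVec_eq_zero_iff.2 h0
  refine hv (funext fun j => ?_)
  obtain ⟨g1, g2, g3, g4⟩ := h j j.2
  let x : ℕ → Ω := fun a => if ha : a < n then v ⟨a, ha⟩ else 0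
  have hx : ∀ a : Fin n, x a = v a := fun a => dif_pos a.2
  have h2 : (Matrix.of fun r i : Fin (ln (st j)) =>
      (β (st j) ^ (i : ℕ)) ^ (p ^ d) ^ (r : ℕ)).mulVec (fun i => x (st j + i)) = 0 := by
    ext r
    have hr : st j + r < n := by have := r.2; omega
    have e : st (st j + r) = st j := g4 _ (by omega) (by have := r.2; omega)
    have h3 := congrFun h1 ⟨st j + r, hr⟩
    have h4 := h.sum_eq hr (fun i => (β (st j) ^ i) ^ (p ^ d) ^ (r : ℕ)) x
    simp only [Matrix.mulVec, dotProduct, Matrix.of_apply, Pi.zero_apply, e,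
      Nat.add_sub_cancel_left, hx] at h3 h4 ⊢
    rw [h3, sum_range] at h4
    exact h4.symm
  have h5 := congrFun (Matrix.eq_zero_of_mulVec_eq_zero (det_conj (hβ j j.2)) h2)
    ⟨j - st j, by omega⟩
  simp only [Nat.add_sub_cancel' g1, hx] at h5
  exact h5

/-- Structure constants: the coordinates of `t k (∑ α ^ i η i) ^ 2`. -/
theorem exists_struct {d μ : ℕ} {α k : Ω} (hd : d ≠ 0) (hμ : μ ≠ 0) (hα : α ∈ Fx Ω p (μ * d))
    (hi : Function.Injective fun r : Fin μ => α ^ (p ^ d) ^ (r : ℕ)) (hk : k ∈ Fx Ω p (μ * d)) :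
    ∃ γ : ℕ → ℕ → ℕ → Ω, ∀ t ∈ Fx Ω p d, ∀ η B : ℕ → Ω, (∀ i < μ, η i ∈ Fx Ω p d) →
      (∀ i < μ, B i ∈ Fx Ω p d) →
      ∑ i ∈ range μ, α ^ i * B i = t * k * (∑ i ∈ range μ, α ^ i * η i) ^ 2 →
      ∀ i < μ, B i = t * ∑ a ∈ range μ, ∑ b ∈ range μ, γ a b i * (η a * η b) := by
  choose γ h1 h2 using fun a b : ℕ => gen_span hd hμ hα hi
    (mul_mem hk (mul_mem (pow_mem hα a) (pow_mem hα b)))
  refine ⟨γ, fun t ht η B hη hB h i hi' => sub_eq_zero.1 (gen_indep hi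
    (c := fun i => B i - t * ∑ a ∈ range μ, ∑ b ∈ range μ, γ a b i * (η a * η b))
    (fun i hi => sub_mem (hB i hi) (mul_mem ht (sum_mem fun a ha => sum_mem fun b hb =>
      mul_mem (h1 a b i) (mul_mem (hη a (mem_range.1 ha)) (hη b (mem_range.1 hb)))))) ?_ i hi')⟩
  have e : ∑ i ∈ range μ, α ^ i * (t * ∑ a ∈ range μ, ∑ b ∈ range μ, γ a b i * (η a * η b)) =
      t * k * (∑ i ∈ range μ, α ^ i * η i) ^ 2 := by
    have e1 : k * (∑ i ∈ range μ, α ^ i * η i) ^ 2 =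
        ∑ a ∈ range μ, ∑ b ∈ range μ, (∑ i ∈ range μ, α ^ i * γ a b i) * (η a * η b) := by
      rw [sq, sum_mul_sum]
      simp only [h2, mul_sum]
      exact sum_congr rfl fun a _ => sum_congr rfl fun b _ => by ring
    rw [mul_assoc, e1]
    simp only [mul_sum, sum_mul]
    rw [sum_comm]
    refine sum_congr rfl fun a _ => ?_
    rw [sum_comm]
    exact sum_congr rfl fun b _ => sum_congr rfl fun i _ => by ring
  simp only [mul_sub, sum_sub_distrib, h, e, sub_self]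

/-- Merge lemma. Units `0, …, n - 1` are divided into blocks, each with a conic; units
`0, …, μ - 1` carry one conic with a factor `t`; the differences of solutions on all `μ` units are
fixed linear forms `Λ` of the differences on the first `n` units. For all but boundedly many `t`
and all sums `s`, `cst`, `lin` the solutions take at most `(n + 1) ^ n` values on the first `n`
units. -/
theorem merge_ok {d μ n : ℕ} (hd : d ≠ 0) (hμ : μ ≠ 0) (hn : n ≤ μ) {st ln : ℕ → ℕ}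
    (hb : IsBlocks n st ln) {β κ : ℕ → Ω}
    (hβ : ∀ j < n, Function.Injective fun r : Fin (ln (st j)) => β (st j) ^ (p ^ d) ^ (r : ℕ))
    (hκ : ∀ j < n, κ (st j) ≠ 0) {α k : Ω} (hα : α ∈ Fx Ω p (μ * d))
    (hi : Function.Injective fun r : Fin μ => α ^ (p ^ d) ^ (r : ℕ)) (hk : k ∈ Fx Ω p (μ * d))
    (Λ : ℕ → ℕ → Ω) :
    ∃ bad : Finset Ω, bad.card ≤ (n + 2) ^ n ∧ ∀ t ∉ bad, t ∈ Fx Ω p d →
      ∀ (s cst : ℕ → Ω) (lin : ℕ → ℕ → Ω) (Z : Finset (Fin n → Ω)) (P : (ℕ → Ω) → Prop),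
        (∀ η η', P η → P η' → ∀ a, n ≤ a → a < μ →
          η a - η' a = ∑ i ∈ range n, Λ a i * (η i - η' i)) →
        (∀ z ∈ Z, ∃ η ξ A B : ℕ → Ω, P η ∧ (∀ i : Fin n, η i = z i) ∧
          (∀ i < μ, η i ∈ Fx Ω p d ∧ B i ∈ Fx Ω p d) ∧
          (∀ i < n, ξ i ∈ Fx Ω p d ∧ A i ∈ Fx Ω p d ∧ ξ i + η i = s i ∧
            A i + B i = cst i + ∑ i' ∈ range n, lin i i' * η i') ∧
          (∀ j < n, ∑ i ∈ range (ln (st j)), β (st j) ^ i * A (st j + i) =
            κ (st j) * (∑ i ∈ range (ln (st j)), β (st j) ^ i * ξ (st j + i)) ^ 2) ∧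
          ∑ i ∈ range μ, α ^ i * B i = t * k * (∑ i ∈ range μ, α ^ i * η i) ^ 2) →
        Z.card ≤ (n + 1) ^ n := by
  classical
  obtain ⟨γ, hγ⟩ := exists_struct hd hμ hα hi hk
  obtain ⟨Θ, hΘ⟩ : ∃ Θ : Matrix (Fin n) (Fin n) Ω, Θ = Matrix.of fun j a : Fin n =>
    if st a = st j then (β (st j) ^ (a - st j)) ^ (p ^ d) ^ (j - st j) else 0 := ⟨_, rfl⟩
  obtain ⟨L, hL⟩ : ∃ L : ℕ → (Fin n → Ω) → Ω, L = fun a c =>
    if ha : a < n then c ⟨a, ha⟩ else ∑ i : Fin n, Λ a i * c i := ⟨_, rfl⟩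
  have hlin : ∀ a, IsLin (L a) := fun a => by
    rw [hL]
    by_cases ha : a < n
    · exact ⟨Pi.single ⟨a, ha⟩ 1, fun c => by simp [ha, Pi.single_apply]⟩
    · exact ⟨fun i => Λ a i, fun c => by simp [ha]⟩
  have hq : 0 < p ^ d := pow_pos hp.out.pos d
  obtain ⟨bad, h1, h2⟩ := macaulay_fun Θ (hΘ ▸ hb.det_ne hβ)
    (fun j => κ (st j) ^ (p ^ d) ^ (j - st j)) (fun j => pow_ne_zero _ (hκ j j.2))
    (fun j c => ∑ i : Fin n, Θ j i * ∑ a ∈ range μ, ∑ b ∈ range μ, γ a b i * (L a c * L b c))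
    fun j => IsQuad.sum _ fun i _ => IsQuad.mul _ (IsQuad.sum _ fun a _ => IsQuad.sum _
      fun b _ => IsQuad.mul _ ((hlin a).mul (hlin b)))
  rw [Fintype.card_fin] at h1 h2
  refine ⟨bad, h1, fun t ht htF s cst lin Z P hP hZ => ?_⟩
  rcases Z.eq_empty_or_nonempty with rfl | ⟨z0, hz0⟩
  · simp
  obtain ⟨η0, -, -, -, hP0, hη0, -⟩ := hZ z0 hz0
  have hTl : ∀ j : Fin n, IsLin fun c : Fin n → Ω => ∑ a, Θ j a * c a := fun j =>
    ⟨Θ j, fun c => rfl⟩
  have key := h2 t ht (fun j c =>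
    κ (st j) ^ (p ^ d) ^ (j - st j) * ((∑ a, Θ j a * (s a - η0 a)) ^ 2 +
      (-2 * ∑ a, Θ j a * (s a - η0 a)) * ∑ a, Θ j a * c a) +
    ∑ i : Fin n, Θ j i * (-1 * (cst i + ∑ i' ∈ range n, lin i i' * (η0 i' + L i' c)) +
      t * ∑ a ∈ range μ, ∑ b ∈ range μ, γ a b i * (η0 a * η0 b + η0 a * L b c + η0 b * L a c)))
    (fun j => (IsAff.mul _ ((IsAff.const _).add (IsAff.mul _ (hTl j).aff))).add
      (IsAff.sum _ fun i _ => IsAff.mul _ ((IsAff.mul _ ((IsAff.const _).add (IsAff.sum _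
        fun i' _ => IsAff.mul _ ((IsAff.const _).add (hlin i').aff)))).add (IsAff.mul _
        (IsAff.sum _ fun a _ => IsAff.sum _ fun b _ => IsAff.mul _ (((IsAff.const _).add
          (IsAff.mul _ (hlin b).aff)).add (IsAff.mul _ (hlin a).aff)))))))
    (Z.image fun z => z - z0) ?_
  · rwa [card_image_of_injective _ sub_left_injective] at key
  intro c hc j
  obtain ⟨z, hz, rfl⟩ := mem_image.1 hc
  obtain ⟨η, ξ, A, B, hPη, hη, g1, g2, g3, g4⟩ := hZ z hz
  have hLη : ∀ a < μ, η a = η0 a + L a (z - z0) := fun a ha => by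
    rw [hL]
    by_cases han : a < n
    · simp only [dif_pos han, Pi.sub_apply, ← hη ⟨a, han⟩, ← hη0 ⟨a, han⟩]
      ring
    · simp only [dif_neg han, Pi.sub_apply, ← hη, ← hη0]
      rw [Fin.sum_univ_eq_sum_range (fun i => Λ a i * (η i - η0 i)) n,
        ← hP η η0 hPη hP0 a (not_lt.1 han) ha]
      ring
  have hB := hγ t htF η B (fun i hi => (g1 i hi).1) (fun i hi => (g1 i hi).2) g4
  obtain ⟨-, -, b3, -⟩ := hb j j.2
  have hfr : ∀ x : ℕ → Ω, (∀ i < n, x i ∈ Fx Ω p d) →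
      (∑ i ∈ range (ln (st j)), β (st j) ^ i * x (st j + i)) ^ (p ^ d) ^ (j - st j) =
        ∑ a : Fin n, Θ j a * x a := fun x hx => by
    rw [sum_pow_frob, hΘ]
    simp only [Matrix.of_apply]
    rw [hb.sum_eq j.2 (fun i => (β (st j) ^ i) ^ (p ^ d) ^ (j - st j)) x]
    refine sum_congr rfl fun i hi => ?_
    rw [mul_pow, Fx_pow (hx _ (by have := mem_range.1 hi; omega))]
  have h3 := congrArg (· ^ (p ^ d) ^ (j - st j)) (g3 j j.2)
  simp only [mul_pow] at h3
  rw [hfr A fun i hi => (g2 i hi).2.1, pow_right_comm _ 2,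
    hfr ξ fun i hi => (g2 i hi).1] at h3
  have e1 : ∑ a : Fin n, Θ j a * ξ a =
      ∑ a : Fin n, Θ j a * (s a - η0 a) - ∑ a : Fin n, Θ j a * (z - z0) a := by
    rw [← sum_sub_distrib]
    refine sum_congr rfl fun a _ => ?_
    rw [Pi.sub_apply, ← hη, ← hη0, ← (g2 a a.2).2.2.1]
    ring
  have e2 : t * ∑ i : Fin n, Θ j i * ∑ a ∈ range μ, ∑ b ∈ range μ,
        γ a b i * (L a (z - z0) * L b (z - z0)) +
      ∑ i : Fin n, Θ j i * (-1 * (cst i + ∑ i' ∈ range n, lin i i' * (η0 i' + L i' (z - z0))) +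
        t * ∑ a ∈ range μ, ∑ b ∈ range μ, γ a b i *
          (η0 a * η0 b + η0 a * L b (z - z0) + η0 b * L a (z - z0))) =
      -∑ i : Fin n, Θ j i * A i := by
    rw [mul_sum, ← sum_add_distrib, ← sum_neg_distrib]
    refine sum_congr rfl fun i _ => ?_
    have e3 : ∑ i' ∈ range n, lin i i' * (η0 i' + L i' (z - z0)) =
        ∑ i' ∈ range n, lin i i' * η i' :=
      sum_congr rfl fun i' hi' => by rw [← hLη i' (by have := mem_range.1 hi'; omega)]
    have e4 : ∑ a ∈ range μ, ∑ b ∈ range μ, γ a b i * (η a * η b) =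
        ∑ a ∈ range μ, ∑ b ∈ range μ, γ a b i * (L a (z - z0) * L b (z - z0)) +
        ∑ a ∈ range μ, ∑ b ∈ range μ, γ a b i *
          (η0 a * η0 b + η0 a * L b (z - z0) + η0 b * L a (z - z0)) := by
      rw [← sum_add_distrib]
      refine sum_congr rfl fun a ha => ?_
      rw [← sum_add_distrib]
      refine sum_congr rfl fun b hb => ?_
      rw [hLη a (mem_range.1 ha), hLη b (mem_range.1 hb)]
      ring
    have e5 := hB i (by have := i.2; omega)
    rw [e4] at e5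
    rw [e3, ← (g2 i i.2).2.2.2, e5]
    ring
  rw [e1] at h3
  linear_combination e2 - h3

end Pool.Agent.P.MP_d5a1e1_nt.TB
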