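import Mathlib

/-! Random subsets of a finite set: basic rules, tail bounds for graphs, compactness. -/

namespace Pool.Agent.P.MP_d5a1e1_nt.TB

open Finset

variable {α : Type*} [DecidableEq α]

/-- Probability that the random subset of `S` equals `A`. -/
def wt (S : Finset α) (π : α → ℝ) (A : Finset α) : ℝ := ∏ a ∈ S, if a ∈ A then π a else 1 - π a

open Classical in
/-- Probability of an event; every `a ∈ S` is chosen independently with probability `π a`. -/
noncomputable def pr (S : Finset α) (π : α → ℝ) (E : Finset α → Prop) : ℝ :=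
  ∑ A ∈ S.powerset, if E A then wt S π A else 0

variable {S : Finset α} {π : α → ℝ}

theorem wt_nonneg (h0 : ∀ a, 0 ≤ π a) (h1 : ∀ a, π a ≤ 1) (A : Finset α) : 0 ≤ wt S π A :=
  prod_nonneg fun a _ => by
    split_ifs
    · exact h0 a
    · linarith [h1 a]

theorem pr_nonneg (h0 : ∀ a, 0 ≤ π a) (h1 : ∀ a, π a ≤ 1) (E : Finset α → Prop) :
    0 ≤ pr S π E :=
  sum_nonneg fun A _ => by
    split_ifs
    · exact wt_nonneg h0 h1 A
    · exact le_rfl

theorem pr_congr {E E' : Finset α → Prop} (h : ∀ A ⊆ S, E A ↔ E' A) : pr S π E = pr S π E' :=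
  sum_congr rfl fun A hA => by
    have := h A (mem_powerset.1 hA)
    by_cases hE : E A
    · rw [if_pos hE, if_pos (this.1 hE)]
    · rw [if_neg hE, if_neg fun h' => hE (this.2 h')]

theorem pr_mono (h0 : ∀ a, 0 ≤ π a) (h1 : ∀ a, π a ≤ 1) {E E' : Finset α → Prop}
    (h : ∀ A ⊆ S, E A → E' A) : pr S π E ≤ pr S π E' :=
  sum_le_sum fun A hA => by
    split_ifs with ha hb
    · exact le_rfl
    · exact absurd (h A (mem_powerset.1 hA) ha) hb
    · exact wt_nonneg h0 h1 A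
    · exact le_rfl

theorem pr_eq_zero {E : Finset α → Prop} (h : ∀ A ⊆ S, ¬E A) : pr S π E = 0 :=
  sum_eq_zero fun A hA => if_neg (h A (mem_powerset.1 hA))

theorem pr_insert {a : α} (ha : a ∉ S) (E : Finset α → Prop) :
    pr (insert a S) π E = π a * pr S π (fun A => E (insert a A)) + (1 - π a) * pr S π E := by
  unfold pr
  rw [sum_powerset_insert ha, add_comm, mul_sum, mul_sum]
  congr 1
  · refine sum_congr rfl fun A _ => ?_
    split_ifs
    · unfold wt
      rw [prod_insert ha, if_pos (mem_insert_self _ _)]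
      congr 1
      refine prod_congr rfl fun b hb => ?_
      have : b ≠ a := fun h => ha (h ▸ hb)
      simp [this]
    · simp
  · refine sum_congr rfl fun A hA => ?_
    split_ifs
    · unfold wt
      rw [prod_insert ha, if_neg fun h => ha (mem_powerset.1 hA h)]
    · simp

theorem pr_true (S : Finset α) (π : α → ℝ) : pr S π (fun _ => True) = 1 := by
  induction S using Finset.induction_on with
  | empty => simp [pr, wt]
  | insert a S ha ih => rw [pr_insert ha, ih]; ring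

theorem pr_le_one (h0 : ∀ a, 0 ≤ π a) (h1 : ∀ a, π a ≤ 1) (E : Finset α → Prop) :
    pr S π E ≤ 1 :=
  (pr_mono h0 h1 fun _ _ _ => trivial).trans (pr_true S π).le

theorem exists_not_of_pr_lt_one {E : Finset α → Prop} (h : pr S π E < 1) : ∃ A ⊆ S, ¬E A := by
  by_contra hc
  push Not at hc
  rw [pr_congr (E' := fun _ => True) fun A hA => iff_true_intro (hc A hA), pr_true] at h
  exact lt_irrefl _ h

theorem pr_split (E Q : Finset α → Prop) :
    pr S π E = pr S π (fun A => Q A ∧ E A) + pr S π (fun A => ¬Q A ∧ E A) := by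
  unfold pr
  rw [← sum_add_distrib]
  refine sum_congr rfl fun A _ => ?_
  by_cases hE : E A <;> by_cases hQ : Q A <;> simp [hE, hQ]

theorem pr_or_le (h0 : ∀ a, 0 ≤ π a) (h1 : ∀ a, π a ≤ 1) (E E' : Finset α → Prop) :
    pr S π (fun A => E A ∨ E' A) ≤ pr S π E + pr S π E' := by
  rw [pr_split _ E]
  exact add_le_add (pr_mono h0 h1 fun A _ h => h.1)
    (pr_mono h0 h1 fun A _ h => h.2.resolve_left h.1)

/-- Union bound. -/
theorem pr_exists_le (h0 : ∀ a, 0 ≤ π a) (h1 : ∀ a, π a ≤ 1) {κ : Type*} (I : Finset κ)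
    (E : κ → Finset α → Prop) :
    pr S π (fun A => ∃ i ∈ I, E i A) ≤ ∑ i ∈ I, pr S π (E i) := by
  classical
  induction I using Finset.induction_on with
  | empty => rw [pr_eq_zero fun A _ => by simp]; simp
  | insert i I hi ih =>
    rw [sum_insert hi]
    refine le_trans (pr_mono h0 h1 (E' := fun A => E i A ∨ ∃ j ∈ I, E j A) ?_)
      ((pr_or_le h0 h1 _ _).trans (add_le_add le_rfl ih))
    rintro A - ⟨j, hj, hA⟩
    rcases mem_insert.1 hj with rfl | hj
    · exact Or.inl hA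
    · exact Or.inr ⟨j, hj, hA⟩

theorem pr_mem_and {a : α} (ha : a ∈ S) {Q : Finset α → Prop}
    (hQ : ∀ A, Q (insert a A) ↔ Q A) : pr S π (fun A => a ∈ A ∧ Q A) = π a * pr S π Q := by
  rw [← insert_erase ha, pr_insert (notMem_erase a S), pr_insert (notMem_erase a S),
    pr_eq_zero (E := fun A => a ∈ A ∧ Q A) fun A hA h => notMem_erase a S (hA h.1),
    pr_congr (E := fun A => a ∈ insert a A ∧ Q (insert a A)) (E' := Q) fun A _ => by simp [hQ],
    pr_congr (E := fun A => Q (insert a A)) (E' := Q) fun A _ => hQ A]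
  ring

theorem pr_notMem_and {a : α} (ha : a ∈ S) {Q : Finset α → Prop}
    (hQ : ∀ A, Q (insert a A) ↔ Q A) :
    pr S π (fun A => a ∉ A ∧ Q A) = (1 - π a) * pr S π Q := by
  have h := pr_split (S := S) (π := π) Q fun A => a ∈ A
  rw [pr_mem_and ha hQ] at h
  linarith

/-- All elements of `Y` are chosen. -/
theorem pr_subset_le (h0 : ∀ a, 0 ≤ π a) (h1 : ∀ a, π a ≤ 1) (Y : Finset α) :
    pr S π (fun A => Y ⊆ A) ≤ ∏ a ∈ Y, π a := by
  induction Y using Finset.induction_on with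
  | empty => simpa using pr_le_one h0 h1 _
  | insert a Y ha ih =>
    by_cases hS : a ∈ S
    · rw [prod_insert ha, pr_congr (E' := fun A => a ∈ A ∧ Y ⊆ A) fun A _ => insert_subset_iff,
        pr_mem_and hS fun A => subset_insert_iff_of_notMem ha]
      exact mul_le_mul_of_nonneg_left ih (h0 a)
    · rw [pr_eq_zero fun A hA h => hS (hA (h (mem_insert_self _ _)))]
      exact prod_nonneg fun b _ => h0 b

/-- No element of `Y` is chosen, together with an event that does not depend on `Y`. -/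
theorem pr_avoid_and (Y : Finset α) (hY : Y ⊆ S) {Q : Finset α → Prop}
    (hQ : ∀ b ∈ Y, ∀ A, Q (insert b A) ↔ Q A) :
    pr S π (fun A => (∀ b ∈ Y, b ∉ A) ∧ Q A) = (∏ b ∈ Y, (1 - π b)) * pr S π Q := by
  induction Y using Finset.induction_on with
  | empty => simp
  | insert a Y ha ih =>
    rw [prod_insert ha, mul_assoc, ← ih (fun b hb => hY (mem_insert_of_mem hb))
      fun b hb => hQ b (mem_insert_of_mem hb), ← pr_notMem_and (hY (mem_insert_self _ _))]
    · exact pr_congr fun A _ => by simp [and_assoc]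
    · intro A
      rw [hQ a (mem_insert_self _ _)]
      refine and_congr_left' (forall₂_congr fun b hb => ?_)
      have : b ≠ a := fun h => ha (h ▸ hb)
      simp [this]

/-- An event that depends only on the part in `D`. -/
theorem pr_restrict {D : Finset α} (hD : D ⊆ S) (E : Finset α → Prop) :
    pr S π (fun A => E (A ∩ D)) = pr D π E := by
  have key : ∀ T : Finset α, Disjoint D T →
      pr (D ∪ T) π (fun A => E (A ∩ D)) = pr D π E := by
    intro T
    induction T using Finset.induction_on with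
    | empty =>
      intro _
      rw [union_empty]
      exact pr_congr fun A hA => by rw [inter_eq_left.2 hA]
    | insert a T ha ih =>
      intro h
      rw [disjoint_insert_right] at h
      rw [union_insert, pr_insert (by simp [ha, h.1]), ih h.2,
        pr_congr (E := fun A => E (insert a A ∩ D)) (E' := fun A => E (A ∩ D))
          fun A _ => by rw [insert_inter_of_notMem h.1], ih h.2]
      ring
  have := key (S \ D) disjoint_sdiff
  rwa [union_sdiff_of_subset hD] at this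

omit [DecidableEq α] in
theorem esymm_le {β : Type*} [DecidableEq β] (Y : Finset β) (w : β → ℝ) (hw : ∀ b, 0 ≤ w b)
    (g : ℕ) : (g.factorial : ℝ) * ∑ Z ∈ powersetCard g Y, ∏ b ∈ Z, w b ≤ (∑ b ∈ Y, w b) ^ g := by
  induction g with
  | zero => simp
  | succ g ih =>
    have h1 : ((g : ℝ) + 1) * ∑ Z ∈ powersetCard (g + 1) Y, ∏ b ∈ Z, w b ≤
        (∑ b ∈ Y, w b) * ∑ Z ∈ powersetCard g Y, ∏ b ∈ Z, w b := by
      have e1 : ((g : ℝ) + 1) * ∑ Z ∈ powersetCard (g + 1) Y, ∏ b ∈ Z, w b =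
          ∑ b ∈ Y, ∑ Z ∈ powersetCard (g + 1) Y with b ∈ Z, ∏ c ∈ Z, w c := by
        simp only [sum_filter]
        rw [sum_comm, mul_sum]
        refine sum_congr rfl fun Z hZ => ?_
        obtain ⟨hs, hc⟩ := mem_powersetCard.1 hZ
        rw [← sum_filter, sum_const, filter_mem_eq_inter, inter_eq_right.2 hs, hc]
        simp
      rw [e1, sum_mul]
      refine sum_le_sum fun b _ => ?_
      have e2 : ∑ Z ∈ powersetCard (g + 1) Y with b ∈ Z, ∏ c ∈ Z, w c =
          w b * ∑ Z ∈ powersetCard (g + 1) Y with b ∈ Z, ∏ c ∈ Z.erase b, w c := by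
        rw [mul_sum]
        exact sum_congr rfl fun Z hZ => (mul_prod_erase Z w (mem_filter.1 hZ).2).symm
      rw [e2]
      refine mul_le_mul_of_nonneg_left ?_ (hw b)
      rw [← sum_image (s := (powersetCard (g + 1) Y).filter (b ∈ ·)) (g := fun Z => Z.erase b)
        (f := fun Z => ∏ c ∈ Z, w c)]
      · refine sum_le_sum_of_subset_of_nonneg ?_ fun Z _ _ => prod_nonneg fun c _ => hw c
        intro Z' hZ'
        obtain ⟨Z, hZ, rfl⟩ := mem_image.1 hZ'
        obtain ⟨hZ1, hZ2⟩ := mem_filter.1 hZ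
        obtain ⟨hs, hc⟩ := mem_powersetCard.1 hZ1
        exact mem_powersetCard.2
          ⟨(erase_subset _ _).trans hs, by rw [card_erase_of_mem hZ2, hc]; rfl⟩
      · intro Z hZ Z' hZ' h
        have h2 := (mem_filter.1 (mem_coe.1 hZ)).2
        have h3 := (mem_filter.1 (mem_coe.1 hZ')).2
        rw [← insert_erase h2, ← insert_erase h3]
        exact congrArg (insert b) h
    have h2 : 0 ≤ ∑ b ∈ Y, w b := sum_nonneg fun b _ => hw b
    have h3 : (0 : ℝ) ≤ g.factorial := Nat.cast_nonneg _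
    rw [Nat.factorial_succ, pow_succ]
    push_cast
    nlinarith [mul_le_mul_of_nonneg_left h1 h3, mul_le_mul_of_nonneg_left ih h2]

omit [DecidableEq α] in
theorem esymm_le' {β : Type*} [DecidableEq β] (Y : Finset β) (w : β → ℝ) (hw : ∀ b, 0 ≤ w b)
    (g : ℕ) : ∑ Z ∈ powersetCard g Y, ∏ b ∈ Z, w b ≤ (∑ b ∈ Y, w b) ^ g := by
  refine le_trans ?_ (esymm_le Y w hw g)
  have h1 : (1 : ℝ) ≤ g.factorial := by exact_mod_cast Nat.factorial_pos g
  exact le_mul_of_one_le_left (sum_nonneg fun Z _ => prod_nonneg fun c _ => hw c) h1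

/-- At least `g` elements of `Y` are chosen. -/
theorem pr_many_le (h0 : ∀ a, 0 ≤ π a) (h1 : ∀ a, π a ≤ 1) (Y : Finset α) (g : ℕ) :
    pr S π (fun A => g ≤ (Y.filter (· ∈ A)).card) ≤ (∑ a ∈ Y, π a) ^ g := by
  refine le_trans (pr_mono h0 h1 (E' := fun A => ∃ Z ∈ powersetCard g Y, Z ⊆ A) ?_)
    ((pr_exists_le h0 h1 _ _).trans
      ((sum_le_sum fun Z _ => pr_subset_le h0 h1 Z).trans (esymm_le' Y π h0 g)))
  intro A _ h
  obtain ⟨Z, hZ, hc⟩ := exists_subset_card_eq h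
  exact ⟨Z, mem_powersetCard.2 ⟨hZ.trans (filter_subset _ _), hc⟩,
    fun a ha => (mem_filter.1 (hZ ha)).2⟩

/-- A chosen vertex with `k + 1` chosen out-neighbours. -/
theorem pr_star_le (h0 : ∀ a, 0 ≤ π a) (h1 : ∀ a, π a ≤ 1) (E : Finset (α × α)) {μ δ : ℝ}
    (hδ : 0 ≤ δ) (hμ : ∑ e ∈ E, π e.1 * π e.2 ≤ μ)
    (hout : ∀ a, ∑ e ∈ E with e.1 = a, π e.2 ≤ δ) (k : ℕ) :
    pr S π (fun A => ∃ a ∈ A, k + 1 ≤ (E.filter fun e => e.1 = a ∧ e.2 ≠ a ∧ e.2 ∈ A).card) ≤
      μ * δ ^ k := by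
  let N : α → Finset α := fun a => ((E.filter fun e => e.1 = a).image Prod.snd).erase a
  have hN : ∀ a, ∑ b ∈ N a, π b ≤ ∑ e ∈ E with e.1 = a, π e.2 := fun a =>
    (sum_le_sum_of_subset_of_nonneg (erase_subset _ _) fun b _ _ => h0 b).trans
      (sum_image_le_of_nonneg fun b _ => h0 b)
  refine le_trans (pr_mono h0 h1 (E' := fun A => ∃ a ∈ E.image Prod.fst,
    ∃ Z ∈ powersetCard (k + 1) (N a), insert a Z ⊆ A) ?_) ((pr_exists_le h0 h1 _ _).trans ?_)
  · rintro A - ⟨a, ha, h⟩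
    have hinj : Set.InjOn Prod.snd
        ((E.filter fun e => e.1 = a ∧ e.2 ≠ a ∧ e.2 ∈ A : Finset (α × α)) : Set (α × α)) := by
      intro e he e' he' h
      exact Prod.ext ((mem_filter.1 (mem_coe.1 he)).2.1.trans
        (mem_filter.1 (mem_coe.1 he')).2.1.symm) h
    obtain ⟨e, he⟩ := card_pos.1 (lt_of_lt_of_le (Nat.succ_pos k) h)
    rw [← card_image_of_injOn hinj] at h
    obtain ⟨Z, hZ, hc⟩ := exists_subset_card_eq h
    refine ⟨a, mem_image.2 ⟨e, (mem_filter.1 he).1, (mem_filter.1 he).2.1⟩, Z,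
      mem_powersetCard.2 ⟨fun b hb => ?_, hc⟩, insert_subset ha fun b hb => ?_⟩
    · obtain ⟨e', he', rfl⟩ := mem_image.1 (hZ hb)
      obtain ⟨h2, h3, h4, -⟩ := mem_filter.1 he'
      exact mem_erase.2 ⟨h4, mem_image.2 ⟨e', mem_filter.2 ⟨h2, h3⟩, rfl⟩⟩
    · obtain ⟨e', he', rfl⟩ := mem_image.1 (hZ hb)
      exact (mem_filter.1 he').2.2.2
  · calc _ ≤ ∑ a ∈ E.image Prod.fst, π a * (∑ e ∈ E with e.1 = a, π e.2) * δ ^ k := by
          refine sum_le_sum fun a _ => (pr_exists_le h0 h1 _ _).trans ?_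
          have h2 : ∀ Z ∈ powersetCard (k + 1) (N a),
              pr S π (fun A => insert a Z ⊆ A) ≤ π a * ∏ b ∈ Z, π b := by
            intro Z hZ
            refine (pr_subset_le h0 h1 _).trans_eq (prod_insert fun h => ?_)
            exact notMem_erase a _ ((mem_powersetCard.1 hZ).1 h)
          refine (sum_le_sum h2).trans ?_
          rw [← mul_sum, mul_assoc]
          refine mul_le_mul_of_nonneg_left ((esymm_le' _ π h0 _).trans ?_) (h0 a)
          have h3 : 0 ≤ ∑ b ∈ N a, π b := sum_nonneg fun b _ => h0 b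
          rw [pow_succ']
          exact mul_le_mul (hN a) (pow_le_pow_left₀ h3 ((hN a).trans (hout a)) k)
            (pow_nonneg h3 k) (h3.trans (hN a))
      _ = (∑ e ∈ E, π e.1 * π e.2) * δ ^ k := by
          rw [← sum_mul]
          congr 1
          rw [← sum_fiberwise_of_maps_to (s := E) (t := E.image Prod.fst) (g := Prod.fst)
            fun e he => mem_image_of_mem _ he]
          refine sum_congr rfl fun a _ => ?_
          rw [mul_sum]
          exact sum_congr rfl fun e he => by rw [(mem_filter.1 he).2]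
      _ ≤ _ := mul_le_mul_of_nonneg_right hμ (pow_nonneg hδ k)

/-- Sets of pairwise disjoint edges that are not loops. -/
def Matching (Z : Finset (α × α)) : Prop :=
  (∀ e ∈ Z, e.1 ≠ e.2) ∧
    ∀ e ∈ Z, ∀ e' ∈ Z, e ≠ e' → Disjoint ({e.1, e.2} : Finset α) {e'.1, e'.2}

/-- A matching of `m` chosen edges. -/
theorem pr_matching_le (h0 : ∀ a, 0 ≤ π a) (h1 : ∀ a, π a ≤ 1) (E : Finset (α × α)) {μ : ℝ}
    (hμ : ∑ e ∈ E, π e.1 * π e.2 ≤ μ) (m : ℕ) :
    pr S π (fun A => ∃ Z ∈ powersetCard m E, Matching Z ∧ ∀ e ∈ Z, e.1 ∈ A ∧ e.2 ∈ A) ≤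
      μ ^ m / m.factorial := by
  have hw : ∀ e : α × α, 0 ≤ π e.1 * π e.2 := fun e => mul_nonneg (h0 _) (h0 _)
  refine (pr_exists_le h0 h1 _ _).trans ?_
  have h2 : ∀ Z ∈ powersetCard m E,
      pr S π (fun A => Matching Z ∧ ∀ e ∈ Z, e.1 ∈ A ∧ e.2 ∈ A) ≤ ∏ e ∈ Z, π e.1 * π e.2 := by
    intro Z _
    by_cases hZ : Matching Z
    · refine (pr_mono h0 h1 (E' := fun A => (Z.biUnion fun e => {e.1, e.2}) ⊆ A) ?_).trans
        ((pr_subset_le h0 h1 _).trans_eq ?_)
      · rintro A - ⟨-, h⟩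
        exact biUnion_subset.2 fun e he =>
          insert_subset (h e he).1 (singleton_subset_iff.2 (h e he).2)
      · rw [prod_biUnion fun e he e' he' h => hZ.2 e he e' he' h]
        exact prod_congr rfl fun e he => prod_pair (hZ.1 e he)
    · rw [pr_eq_zero fun A _ h => hZ h.1]
      exact prod_nonneg fun e _ => hw e
  refine (sum_le_sum h2).trans ?_
  have h3 : (0 : ℝ) < m.factorial := by exact_mod_cast Nat.factorial_pos m
  rw [le_div_iff₀ h3, mul_comm]
  exact (esymm_le E _ hw m).trans (pow_le_pow_left₀ (sum_nonneg fun e _ => hw e) hμ m)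

/-- Without a large matching, star or set of loops a graph has few edges. -/
theorem card_le_of_no_matching (F : Finset (α × α)) (m g : ℕ)
    (hm : ∀ Z ∈ powersetCard m F, ¬Matching Z)
    (hout : ∀ a, (F.filter fun e => e.1 = a ∧ e.2 ≠ a).card ≤ g)
    (hin : ∀ a, (F.filter fun e => e.2 = a ∧ e.1 ≠ a).card ≤ g)
    (hl : (F.filter fun e => e.1 = e.2).card ≤ g) : F.card ≤ 4 * g * m + g := by
  classical
  obtain ⟨Z, hZ, hmax⟩ := exists_max_image (F.powerset.filter Matching) card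
    ⟨∅, mem_filter.2 ⟨empty_mem_powerset _, by simp [Matching]⟩⟩
  obtain ⟨hZF, hZM⟩ := mem_filter.1 hZ
  have hZm : Z.card ≤ m := by
    by_contra hc
    obtain ⟨Z', hZ', hc'⟩ := exists_subset_card_eq (not_le.1 hc).le
    exact hm Z' (mem_powersetCard.2 ⟨hZ'.trans (mem_powerset.1 hZF), hc'⟩)
      ⟨fun e he => hZM.1 e (hZ' he), fun e he e' he' => hZM.2 e (hZ' he) e' (hZ' he')⟩
  let V : Finset α := Z.biUnion fun e => {e.1, e.2}
  have hV : V.card ≤ Z.card * 2 :=
    card_biUnion_le_card_mul _ _ _ fun e _ => card_le_two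
  have hcov : F ⊆ (V.biUnion fun a => (F.filter fun e => e.1 = a ∧ e.2 ≠ a) ∪
      F.filter fun e => e.2 = a ∧ e.1 ≠ a) ∪ F.filter fun e => e.1 = e.2 := by
    intro e he
    by_cases hloop : e.1 = e.2
    · exact mem_union_right _ (mem_filter.2 ⟨he, hloop⟩)
    refine mem_union_left _ (mem_biUnion.2 ?_)
    by_cases h1 : e.1 ∈ V
    · exact ⟨e.1, h1, mem_union_left _ (mem_filter.2 ⟨he, rfl, Ne.symm hloop⟩)⟩
    by_cases h2 : e.2 ∈ V
    · exact ⟨e.2, h2, mem_union_right _ (mem_filter.2 ⟨he, rfl, hloop⟩)⟩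
    exfalso
    have hd : ∀ e' ∈ Z, Disjoint ({e.1, e.2} : Finset α) {e'.1, e'.2} := by
      intro e' he'
      rw [disjoint_insert_left, disjoint_singleton_left]
      exact ⟨fun h => h1 (mem_biUnion.2 ⟨e', he', h⟩), fun h => h2 (mem_biUnion.2 ⟨e', he', h⟩)⟩
    have hn : e ∉ Z := fun h => h1 (mem_biUnion.2 ⟨e, h, mem_insert_self _ _⟩)
    have := hmax (insert e Z) (mem_filter.2
      ⟨mem_powerset.2 (insert_subset he (mem_powerset.1 hZF)), ?_, ?_⟩)
    · rw [card_insert_of_notMem hn] at this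
      omega
    · intro x hx
      rcases mem_insert.1 hx with rfl | hx
      · exact hloop
      · exact hZM.1 x hx
    · intro x hx y hy hxy
      rcases mem_insert.1 hx with rfl | hx' <;> rcases mem_insert.1 hy with rfl | hy'
      · exact absurd rfl hxy
      · exact hd y hy'
      · exact (hd x hx').symm
      · exact hZM.2 x hx' y hy' hxy
  have h3 := card_biUnion_le_card_mul V (fun a => (F.filter fun e => e.1 = a ∧ e.2 ≠ a) ∪
      F.filter fun e => e.2 = a ∧ e.1 ≠ a) (g + g)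
    fun a _ => (card_union_le _ _).trans (add_le_add (hout a) (hin a))
  have h4 := (card_le_card hcov).trans (card_union_le _ _)
  have h5 : V.card * (g + g) ≤ m * 2 * (g + g) := Nat.mul_le_mul_right _ (by omega)
  have h6 : m * 2 * (g + g) = 4 * g * m := by ring
  omega

/-- P1: the number of directed edges with both ends chosen is rarely large. -/
theorem pr_edges_le (h0 : ∀ a, 0 ≤ π a) (h1 : ∀ a, π a ≤ 1) (E : Finset (α × α)) {μ δ : ℝ}
    (hδ : 0 ≤ δ) (hμ : ∑ e ∈ E, π e.1 * π e.2 ≤ μ)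
    (hout : ∀ a, ∑ e ∈ E with e.1 = a, π e.2 ≤ δ) (hin : ∀ b, ∑ e ∈ E with e.2 = b, π e.1 ≤ δ)
    (hl : ∑ e ∈ E with e.1 = e.2, π e.1 ≤ δ) (m k : ℕ) :
    pr S π (fun A => 4 * k * m + k < (E.filter fun e => e.1 ∈ A ∧ e.2 ∈ A).card) ≤
      μ ^ m / m.factorial + 2 * μ * δ ^ k + δ ^ (k + 1) := by
  let E' : Finset (α × α) := E.image Prod.swap
  have hsw : ∀ (P : α × α → Prop) [DecidablePred P],
      E'.filter P = (E.filter fun e => P e.swap).image Prod.swap := fun P _ => filter_image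
  have hμ' : ∑ e ∈ E', π e.1 * π e.2 ≤ μ := by
    rw [sum_image Prod.swap_injective.injOn]
    simpa [mul_comm] using hμ
  have hout' : ∀ a, ∑ e ∈ E' with e.1 = a, π e.2 ≤ δ := fun a => by
    rw [hsw, sum_image Prod.swap_injective.injOn]
    simpa using hin a
  let L : Finset α := (E.filter fun e => e.1 = e.2).image Prod.fst
  have hL : ∑ a ∈ L, π a ≤ δ := (sum_image_le_of_nonneg fun a _ => h0 a).trans hl
  have b1 := pr_matching_le (S := S) h0 h1 E hμ m
  have b2 := pr_star_le (S := S) h0 h1 E hδ hμ hout k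
  have b3 := pr_star_le (S := S) h0 h1 E' hδ hμ' hout' k
  have b4 := (pr_many_le (S := S) h0 h1 L (k + 1)).trans
    (pow_le_pow_left₀ (sum_nonneg fun a _ => h0 a) hL (k + 1))
  have b5 := (pr_or_le (S := S) h0 h1 _ _).trans (add_le_add b1 ((pr_or_le h0 h1 _ _).trans
    (add_le_add b2 ((pr_or_le h0 h1 _ _).trans (add_le_add b3 b4)))))
  refine le_trans (pr_mono h0 h1 fun A _ h => ?_) (b5.trans_eq (by ring))
  by_contra hc
  simp only [not_or, not_exists, not_and, not_le] at hc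
  obtain ⟨c1, c2, c3, c4⟩ := hc
  refine absurd h (not_lt.2 (card_le_of_no_matching _ m k (fun Z hZ hM => ?_) (fun a => ?_)
    (fun a => ?_) ?_))
  · obtain ⟨hs, hc⟩ := mem_powersetCard.1 hZ
    exact c1 Z (mem_powersetCard.2 ⟨hs.trans (filter_subset _ _), hc⟩) hM
      fun e he => (mem_filter.1 (hs he)).2
  · by_cases ha : a ∈ A
    · refine (card_le_card fun e he => ?_).trans (Nat.lt_succ_iff.1 (c2 a ha))
      obtain ⟨h2, h3, h4⟩ := mem_filter.1 he
      exact mem_filter.2 ⟨(mem_filter.1 h2).1, h3, h4, (mem_filter.1 h2).2.2⟩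
    · refine (card_eq_zero.2 (filter_eq_empty_iff.2 fun e he h => ha ?_)).trans_le (Nat.zero_le _)
      exact h.1 ▸ (mem_filter.1 he).2.1
  · by_cases ha : a ∈ A
    · have h5 := Nat.lt_succ_iff.1 (c3 a ha)
      rw [hsw, card_image_of_injective _ Prod.swap_injective] at h5
      refine (card_le_card fun e he => ?_).trans h5
      obtain ⟨h2, h3, h4⟩ := mem_filter.1 he
      exact mem_filter.2 ⟨(mem_filter.1 h2).1, h3, h4, (mem_filter.1 h2).2.1⟩
    · refine (card_eq_zero.2 (filter_eq_empty_iff.2 fun e he h => ha ?_)).trans_le (Nat.zero_le _)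
      exact h.1 ▸ (mem_filter.1 he).2.2
  · refine (card_le_card_of_injOn Prod.fst (fun e he => ?_) fun e he e' he' h => ?_).trans
      (Nat.lt_succ_iff.1 c4)
    · obtain ⟨h2, h3⟩ := mem_filter.1 (mem_coe.1 he)
      exact mem_coe.2 (mem_filter.2 ⟨mem_image.2 ⟨e, mem_filter.2 ⟨(mem_filter.1 h2).1, h3⟩, rfl⟩,
        (mem_filter.1 h2).2.1⟩)
    · exact Prod.ext h ((mem_filter.1 (mem_coe.1 he)).2.symm.trans
        (h.trans (mem_filter.1 (mem_coe.1 he')).2))

theorem exp_step {p d : ℝ} (hp : 0 ≤ p) (hd0 : 0 ≤ d) (hd : d ≤ 1) :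
    p * Real.exp (-(2 * d / 3)) + (1 - p) ≤ Real.exp (-(p * d / 3)) := by
  have h1 : Real.exp (-(2 * d / 3)) ≤ 1 - d / 3 := by
    rw [Real.exp_neg, inv_le_iff_one_le_mul₀ (Real.exp_pos _)]
    have := Real.add_one_le_exp (2 * d / 3)
    nlinarith
  have h2 := Real.add_one_le_exp (-(p * d / 3))
  nlinarith

/-- P2: a bipartite graph with degree weights at most one rarely has no chosen edge. -/
theorem pr_no_edge_le (h0 : ∀ a, 0 ≤ π a) (h1 : ∀ a, π a ≤ 1) (E : Finset (α × α))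
    (hS : ∀ e ∈ E, e.1 ∈ S ∧ e.2 ∈ S) (hb : ∀ e ∈ E, ∀ e' ∈ E, e.1 ≠ e'.2)
    (hout : ∀ a, ∑ e ∈ E with e.1 = a, π e.2 ≤ 1) (hin : ∀ b, ∑ e ∈ E with e.2 = b, π e.1 ≤ 1) :
    pr S π (fun A => ∀ e ∈ E, ¬(e.1 ∈ A ∧ e.2 ∈ A)) ≤
      Real.exp (-((∑ e ∈ E, π e.1 * π e.2) / 3)) := by
  induction E using Finset.strongInduction with
  | H E ih =>
  rcases E.eq_empty_or_nonempty with rfl | ⟨e₀, he₀⟩
  · simpa using pr_le_one h0 h1 _
  have ih' : ∀ F ⊆ E, (∀ e ∈ F, e.1 ≠ e₀.1) → pr S π (fun A => ∀ e ∈ F, ¬(e.1 ∈ A ∧ e.2 ∈ A)) ≤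
      Real.exp (-((∑ e ∈ F, π e.1 * π e.2) / 3)) := by
    intro F hF hne
    exact ih F (ssubset_of_subset_of_ne hF fun h => hne e₀ (h ▸ he₀) rfl)
      (fun e he => hS e (hF he)) (fun e he e' he' => hb e (hF he) e' (hF he'))
      (fun a => (sum_le_sum_of_subset_of_nonneg (filter_subset_filter _ hF)
        fun e _ _ => h0 _).trans (hout a))
      fun a => (sum_le_sum_of_subset_of_nonneg (filter_subset_filter _ hF)
        fun e _ _ => h0 _).trans (hin a)
  obtain ⟨a, ha⟩ : ∃ a, a = e₀.1 := ⟨_, rfl⟩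
  rw [← ha] at ih'
  have haS : a ∈ S := ha ▸ (hS e₀ he₀).1
  have har : ∀ e ∈ E, e.2 ≠ a := fun e he => ha ▸ (hb e₀ he₀ e he).symm
  let N : Finset α := (E.filter fun e => e.1 = a).image Prod.snd
  let E₁ : Finset (α × α) := E.filter fun e => ¬e.1 = a
  let E₂ : Finset (α × α) := E₁.filter fun e => ¬e.2 ∈ N
  have hE₁ : E₁ ⊆ E := filter_subset _ _
  have hE₂ : E₂ ⊆ E₁ := filter_subset _ _
  have hinv : ∀ F : Finset (α × α), ∀ b, (∀ e ∈ F, e.1 ≠ b ∧ e.2 ≠ b) → ∀ A : Finset α,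
      (∀ e ∈ F, ¬(e.1 ∈ insert b A ∧ e.2 ∈ insert b A)) ↔ ∀ e ∈ F, ¬(e.1 ∈ A ∧ e.2 ∈ A) := by
    intro F b h A
    exact forall₂_congr fun e he => by simp [(h e he).1, (h e he).2]
  have hN : ∀ b ∈ N, ∃ e ∈ E, e.1 = a ∧ e.2 = b := fun b hb' => by
    obtain ⟨e, he, rfl⟩ := mem_image.1 hb'
    exact ⟨e, (mem_filter.1 he).1, (mem_filter.1 he).2, rfl⟩
  have hd : ∑ b ∈ N, π b = ∑ e ∈ E with e.1 = a, π e.2 :=
    sum_image fun e he e' he' h => Prod.ext ((mem_filter.1 (mem_coe.1 he)).2.trans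
      (mem_filter.1 (mem_coe.1 he')).2.symm) h
  set d := ∑ b ∈ N, π b with hdd
  have hd0 : 0 ≤ d := sum_nonneg fun b _ => h0 b
  have hd1 : d ≤ 1 := hd ▸ hout a
  set μ₁ := ∑ e ∈ E₁, π e.1 * π e.2 with hμ₁
  set μ₂ := ∑ e ∈ E₂, π e.1 * π e.2 with hμ₂
  have hμ : ∑ e ∈ E, π e.1 * π e.2 = π a * d + μ₁ := by
    rw [← sum_filter_add_sum_filter_not E fun e => e.1 = a, hd, mul_sum]
    congr 1
    exact sum_congr rfl fun e he => by rw [(mem_filter.1 he).2]
  have hμ' : μ₁ ≤ d + μ₂ := by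
    rw [hμ₁, ← sum_filter_add_sum_filter_not E₁ fun e => e.2 ∈ N]
    refine add_le_add ?_ le_rfl
    rw [← sum_fiberwise_of_maps_to (s := E₁.filter fun e => e.2 ∈ N) (t := N) (g := Prod.snd)
      fun e he => (mem_filter.1 he).2]
    refine sum_le_sum fun b _ => ?_
    calc _ = (∑ e ∈ E₁.filter (fun e => e.2 ∈ N) with e.2 = b, π e.1) * π b := by
          rw [sum_mul]
          exact sum_congr rfl fun e he => by rw [(mem_filter.1 he).2]
      _ ≤ 1 * π b := mul_le_mul_of_nonneg_right ((sum_le_sum_of_subset_of_nonneg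
          (filter_subset_filter _ ((filter_subset _ _).trans hE₁)) fun e _ _ => h0 _).trans
            (hin b)) (h0 b)
      _ = π b := one_mul _
  have p1 : pr S π (fun A => a ∉ A ∧ ∀ e ∈ E, ¬(e.1 ∈ A ∧ e.2 ∈ A)) ≤
      (1 - π a) * Real.exp (-(μ₁ / 3)) := by
    refine (pr_mono h0 h1 (E' := fun A => a ∉ A ∧ ∀ e ∈ E₁, ¬(e.1 ∈ A ∧ e.2 ∈ A))
      fun A _ h => ⟨h.1, fun e he => h.2 e (hE₁ he)⟩).trans ?_
    rw [pr_notMem_and haS (hinv E₁ a fun e he => ⟨(mem_filter.1 he).2, har e (hE₁ he)⟩)]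
    exact mul_le_mul_of_nonneg_left (ih' E₁ hE₁ fun e he => (mem_filter.1 he).2)
      (by linarith [h1 a])
  have p2 : pr S π (fun A => a ∈ A ∧ ∀ e ∈ E, ¬(e.1 ∈ A ∧ e.2 ∈ A)) ≤
      π a * (Real.exp (-d) * Real.exp (-(μ₂ / 3))) := by
    refine (pr_mono h0 h1 (E' := fun A => a ∈ A ∧ (∀ b ∈ N, b ∉ A) ∧
      ∀ e ∈ E₂, ¬(e.1 ∈ A ∧ e.2 ∈ A)) fun A _ h => ⟨h.1, fun b hb' hA => ?_,
        fun e he => h.2 e (hE₁ (hE₂ he))⟩).trans ?_
    · obtain ⟨e, he, e1, e2⟩ := hN b hb'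
      exact h.2 e he ⟨e1 ▸ h.1, e2 ▸ hA⟩
    rw [pr_mem_and haS, pr_avoid_and N]
    · refine mul_le_mul_of_nonneg_left (mul_le_mul ?_ (ih' E₂ (hE₂.trans hE₁)
        fun e he => (mem_filter.1 (hE₂ he)).2) (pr_nonneg h0 h1 _) (Real.exp_pos _).le) (h0 a)
      rw [hdd, ← sum_neg_distrib, Real.exp_sum]
      exact prod_le_prod (fun b _ => by linarith [h1 b])
        fun b _ => by linarith [Real.add_one_le_exp (-π b)]
    · intro b hb'
      obtain ⟨e, he, -, e2⟩ := hN b hb'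
      exact e2 ▸ (hS e he).2
    · intro b hb'
      obtain ⟨e', he', -, e2⟩ := hN b hb'
      exact hinv E₂ b fun e he => ⟨e2 ▸ hb e (hE₁ (hE₂ he)) e' he',
        fun h => (mem_filter.1 he).2 (h ▸ hb')⟩
    · intro A
      rw [hinv E₂ a fun e he => ⟨(mem_filter.1 (hE₂ he)).2, har e (hE₁ (hE₂ he))⟩]
      refine and_congr_left' (forall₂_congr fun b hb' => ?_)
      obtain ⟨e', he', -, e2⟩ := hN b hb'
      have : b ≠ a := e2 ▸ har e' he'
      simp [this]
  have p3 : Real.exp (-d) * Real.exp (-(μ₂ / 3)) ≤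
      Real.exp (-(2 * d / 3)) * Real.exp (-(μ₁ / 3)) := by
    rw [← Real.exp_add, ← Real.exp_add]
    exact Real.exp_le_exp.2 (by linarith)
  have p4 := mul_le_mul_of_nonneg_right (exp_step (h0 a) hd0 hd1) (Real.exp_pos (-(μ₁ / 3))).le
  have p5 : Real.exp (-((π a * d + μ₁) / 3)) =
      Real.exp (-(π a * d / 3)) * Real.exp (-(μ₁ / 3)) := by
    rw [← Real.exp_add]
    congr 1
    ring
  rw [pr_split _ fun A => a ∈ A, hμ, p5]
  nlinarith [mul_le_mul_of_nonneg_left p3 (h0 a)]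

open Classical in
/-- P3: countably many events, each on a finite set of coordinates, can all be avoided. -/
theorem exists_avoid (h0 : ∀ a, 0 ≤ π a) (h1 : ∀ a, π a ≤ 1) (D : ℕ → Finset α)
    (bad : ℕ → Finset α → Prop) (hb : ∀ i, pr (D i) π (bad i) ≤ 1 / 2 ^ (i + 1)) :
    ∃ A : Set α, ∀ i, ¬bad i ((D i).filter (· ∈ A)) := by
  have fin : ∀ I : ℕ, ∃ A : Finset α, ∀ i < I, ¬bad i (A ∩ D i) := by
    intro I
    have h4 : ∀ I : ℕ, ∑ i ∈ range I, (1 : ℝ) / 2 ^ (i + 1) = 1 - 1 / 2 ^ I := by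
      intro I
      induction I with
      | zero => simp
      | succ I ih => rw [sum_range_succ, ih]; field_simp; ring
    have h5 : pr ((range I).biUnion D) π (fun A => ∃ i ∈ range I, bad i (A ∩ D i)) < 1 := by
      refine (pr_exists_le h0 h1 _ _).trans_lt ((sum_le_sum fun i hi =>
        (pr_restrict (subset_biUnion_of_mem D hi) (bad i)).trans_le (hb i)).trans_lt ?_)
      rw [h4]
      have : (0 : ℝ) < 1 / 2 ^ I := by positivity
      linarith
    obtain ⟨A, -, hA⟩ := exists_not_of_pr_lt_one h5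
    exact ⟨A, fun i hi h => hA ⟨i, mem_range.2 hi, h⟩⟩
  choose W hW using fin
  refine ⟨{a | {I | a ∈ W I} ∈ Filter.hyperfilter ℕ}, fun i => ?_⟩
  have e1 : ∀ᶠ I in (Filter.hyperfilter ℕ : Filter ℕ), ∀ a ∈ D i,
      (a ∈ W I ↔ {I | a ∈ W I} ∈ Filter.hyperfilter ℕ) := by
    refine (Filter.eventually_all_finset _).2 fun a _ => ?_
    by_cases h : {I | a ∈ W I} ∈ Filter.hyperfilter ℕ
    · exact Filter.mem_of_superset h fun I hI => iff_of_true hI h
    · exact Filter.mem_of_superset (Ultrafilter.compl_mem_iff_notMem.2 h)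
        fun I hI => iff_of_false hI h
  have e2 : ∀ᶠ I in (Filter.hyperfilter ℕ : Filter ℕ), i < I := by
    refine Filter.hyperfilter_le_cofinite ?_
    rw [Nat.cofinite_eq_atTop]
    exact Filter.eventually_gt_atTop i
  obtain ⟨I, hI1, hI2⟩ := (e1.and e2).exists
  have e3 : W I ∩ D i = (D i).filter (· ∈ {a | {I | a ∈ W I} ∈ Filter.hyperfilter ℕ}) := by
    ext a
    rw [mem_inter, mem_filter]
    exact ⟨fun h => ⟨h.2, (hI1 a h.2).1 h.1⟩, fun h => ⟨(hI1 a h.1).2 h.2, h.1⟩⟩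
  rw [← e3]
  exact hW I i hI2

end Pool.Agent.P.MP_d5a1e1_nt.TB
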