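import Pool.Agent.P.MP_d5a1e1_nt.TBProb

/-! Expectations, star and matching bounds, hashing and sequential choice. -/

namespace Pool.Agent.P.MP_d5a1e1_nt.TB

open Finset

section

variable {α : Type*} [DecidableEq α]

/-- Expectation over the random subset of `S`. -/
def ex (S : Finset α) (π : α → ℝ) (g : Finset α → ℝ) : ℝ := ∑ A ∈ S.powerset, wt S π A * g A

/-- Indicator that `a` is chosen. -/
def chs (a : α) (A : Finset α) : ℝ := if a ∈ A then 1 else 0

variable {S : Finset α} {π : α → ℝ}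

theorem chs_insert {a b : α} (h : a ≠ b) (A : Finset α) : chs a (insert b A) = chs a A := by
  simp [chs, h]

theorem chs_nonneg (a : α) (A : Finset α) : 0 ≤ chs a A := by
  unfold chs
  split_ifs <;> norm_num

theorem ex_congr {g g' : Finset α → ℝ} (h : ∀ A ⊆ S, g A = g' A) : ex S π g = ex S π g' :=
  sum_congr rfl fun A hA => by rw [h A (mem_powerset.1 hA)]

theorem ex_mono (h0 : ∀ a, 0 ≤ π a) (h1 : ∀ a, π a ≤ 1) {g g' : Finset α → ℝ}
    (h : ∀ A ⊆ S, g A ≤ g' A) : ex S π g ≤ ex S π g' :=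
  sum_le_sum fun A hA =>
    mul_le_mul_of_nonneg_left (h A (mem_powerset.1 hA)) (wt_nonneg h0 h1 A)

theorem ex_const (c : ℝ) : ex S π (fun _ => c) = c := by
  have h := pr_true S π
  simp only [pr, if_true] at h
  unfold ex
  rw [← sum_mul, h, one_mul]

theorem ex_mul_left (c : ℝ) (g : Finset α → ℝ) : ex S π (fun A => c * g A) = c * ex S π g := by
  unfold ex
  rw [mul_sum]
  exact sum_congr rfl fun A _ => by ring

theorem ex_add (g g' : Finset α → ℝ) :
    ex S π (fun A => g A + g' A) = ex S π g + ex S π g' := by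
  unfold ex
  rw [← sum_add_distrib]
  exact sum_congr rfl fun A _ => by ring

/-- Markov's inequality. -/
theorem pr_le_ex (h0 : ∀ a, 0 ≤ π a) (h1 : ∀ a, π a ≤ 1) {E : Finset α → Prop}
    {g : Finset α → ℝ} (hg : ∀ A ⊆ S, 0 ≤ g A) (hE : ∀ A ⊆ S, E A → 1 ≤ g A) :
    pr S π E ≤ ex S π g :=
  sum_le_sum fun A hA => by
    split_ifs with h
    · exact le_mul_of_one_le_right (wt_nonneg h0 h1 A) (hE A (mem_powerset.1 hA) h)
    · exact mul_nonneg (wt_nonneg h0 h1 A) (hg A (mem_powerset.1 hA))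

theorem ex_insert {a : α} (ha : a ∉ S) (g : Finset α → ℝ) :
    ex (insert a S) π g = π a * ex S π (fun A => g (insert a A)) + (1 - π a) * ex S π g := by
  unfold ex
  rw [sum_powerset_insert ha, add_comm, mul_sum, mul_sum]
  congr 1
  · refine sum_congr rfl fun A _ => ?_
    unfold wt
    rw [prod_insert ha, if_pos (mem_insert_self _ _), mul_assoc]
    congr 2
    refine prod_congr rfl fun b hb => ?_
    have : b ≠ a := fun h => ha (h ▸ hb)
    simp [this]
  · refine sum_congr rfl fun A hA => ?_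
    unfold wt
    rw [prod_insert ha, if_neg fun h => ha (mem_powerset.1 hA h), mul_assoc]

theorem ex_mul_chs {a : α} (ha : a ∈ S) {g : Finset α → ℝ} (hg : ∀ A, g (insert a A) = g A) :
    ex S π (fun A => g A * chs a A) = π a * ex S π g := by
  rw [← insert_erase ha, ex_insert (notMem_erase a S), ex_insert (notMem_erase a S),
    ex_congr (g := fun A => g A * chs a A) (g' := fun _ => 0) fun A hA => by
      have : a ∉ A := fun h => notMem_erase a S (hA h)
      simp [chs, this],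
    ex_congr (g := fun A => g (insert a A) * chs a (insert a A)) (g' := g)
      fun A _ => by simp [chs, hg],
    ex_congr (g := fun A => g (insert a A)) (g' := g) fun A _ => hg A, ex_const]
  ring

/-- P1: independent coordinates can be averaged out of a product. -/
theorem ex_prod {κ : Type*} (I : Finset κ) (c : κ → α) (hc : Set.InjOn c I)
    (hS : ∀ i ∈ I, c i ∈ S) (g : Finset α → ℝ) (a : κ → Finset α → ℝ)
    (hg : ∀ i ∈ I, ∀ A, g (insert (c i) A) = g A)
    (ha : ∀ i ∈ I, ∀ j ∈ I, ∀ A, a j (insert (c i) A) = a j A) :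
    ex S π (fun A => g A * ∏ i ∈ I, (1 + a i A * chs (c i) A)) =
      ex S π (fun A => g A * ∏ i ∈ I, (1 + π (c i) * a i A)) := by
  classical
  induction I using Finset.induction_on generalizing g with
  | empty => rfl
  | insert i I hi ih =>
    have hi' := mem_insert_self i I
    have key : ∀ G : Finset α → ℝ, (∀ A, G (insert (c i) A) = G A) →
        ex S π (fun A => G A * (1 + a i A * chs (c i) A)) =
          ex S π (fun A => G A * (1 + π (c i) * a i A)) := by
      intro G hG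
      rw [ex_congr (g' := fun A => G A + G A * a i A * chs (c i) A) fun A _ => by ring, ex_add,
        ex_mul_chs (hS i hi') fun A => by rw [hG, ha i hi' i hi'], ← ex_mul_left, ← ex_add]
      exact ex_congr fun A _ => by ring
    calc _ = ex S π (fun A => (g A * ∏ j ∈ I, (1 + a j A * chs (c j) A)) *
          (1 + a i A * chs (c i) A)) := ex_congr fun A _ => by rw [prod_insert hi]; ring
      _ = ex S π (fun A => (g A * ∏ j ∈ I, (1 + a j A * chs (c j) A)) *
          (1 + π (c i) * a i A)) := by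
        refine key _ fun A => ?_
        rw [hg i hi']
        congr 1
        refine prod_congr rfl fun j hj => ?_
        have hj' := mem_insert_of_mem (b := i) hj
        rw [ha i hi' j hj', chs_insert fun h => hi (hc (mem_coe.2 hj') (mem_coe.2 hi') h ▸ hj)]
      _ = ex S π (fun A => (g A * (1 + π (c i) * a i A)) *
          ∏ j ∈ I, (1 + a j A * chs (c j) A)) := ex_congr fun A _ => by ring
      _ = ex S π (fun A => (g A * (1 + π (c i) * a i A)) *
          ∏ j ∈ I, (1 + π (c j) * a j A)) :=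
        ih (hc.mono (coe_subset.2 (subset_insert _ _)))
          (fun j hj => hS j (mem_insert_of_mem hj)) _
          (fun j hj A => by
            rw [hg j (mem_insert_of_mem hj), ha j (mem_insert_of_mem hj) i hi'])
          fun j hj k hk => ha j (mem_insert_of_mem hj) k (mem_insert_of_mem hk)
      _ = _ := ex_congr fun A _ => by rw [prod_insert hi]; ring

/-- P1 with constant coefficients. -/
theorem ex_prod_const {κ : Type*} (I : Finset κ) (c : κ → α) (hc : Set.InjOn c I)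
    (hS : ∀ i ∈ I, c i ∈ S) (a : κ → ℝ) :
    ex S π (fun A => ∏ i ∈ I, (1 + a i * chs (c i) A)) = ∏ i ∈ I, (1 + π (c i) * a i) := by
  have := ex_prod (π := π) I c hc hS (fun _ => 1) (fun i _ => a i) (fun _ _ _ => rfl)
    fun _ _ _ _ _ => rfl
  simpa [ex_const] using this

theorem exp_sub_one_le {x : ℝ} (h0 : 0 ≤ x) (h1 : x ≤ 1) : Real.exp x - 1 ≤ 2 * x := by
  have := Real.abs_exp_sub_one_le (x := x) (by rwa [abs_of_nonneg h0])
  rw [abs_of_nonneg h0] at this
  exact (le_abs_self _).trans this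

/-- Exponential moment of a weighted count of chosen elements. -/
theorem ex_exp_le (h0 : ∀ a, 0 ≤ π a) (Y : Finset α) (hY : Y ⊆ S) (a : α → ℝ)
    (ha0 : ∀ v ∈ Y, 0 ≤ a v) (ha1 : ∀ v ∈ Y, a v ≤ 1) :
    ex S π (fun A => Real.exp (∑ v ∈ Y, a v * chs v A)) ≤
      Real.exp (2 * ∑ v ∈ Y, π v * a v) := by
  rw [ex_congr (g' := fun A => ∏ v ∈ Y, (1 + (Real.exp (a v) - 1) * chs (id v) A)) fun A _ => by
    rw [Real.exp_sum]
    refine prod_congr rfl fun v _ => ?_
    unfold chs
    rw [id]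
    split_ifs <;> simp, ex_prod_const Y id (Set.injOn_id _) hY, mul_sum, Real.exp_sum]
  refine prod_le_prod (fun v hv => ?_) fun v hv => ?_
  · have := mul_nonneg (h0 v) (sub_nonneg.2 (Real.one_le_exp (ha0 v hv)))
    rw [id]
    linarith
  · have := mul_le_mul_of_nonneg_left (exp_sub_one_le (ha0 v hv) (ha1 v hv)) (h0 v)
    rw [id]
    linarith [Real.add_one_le_exp (2 * (π v * a v))]

/-- P4: upper tail of a weighted count. -/
theorem pr_weight_le (h0 : ∀ a, 0 ≤ π a) (h1 : ∀ a, π a ≤ 1) (Y : Finset α) (a : α → ℝ)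
    (ha0 : ∀ v ∈ Y, 0 ≤ a v) (ha1 : ∀ v ∈ Y, a v ≤ 1) {μ : ℝ} (hμ : ∑ v ∈ Y, π v * a v ≤ μ)
    (g : ℝ) :
    pr S π (fun A => g ≤ ∑ v ∈ Y with v ∈ A, a v) ≤ Real.exp (2 * μ - g) := by
  have hsub : Y ∩ S ⊆ Y := inter_subset_left
  refine (pr_le_ex h0 h1
    (g := fun A => Real.exp (-g) * Real.exp (∑ v ∈ Y ∩ S, a v * chs v A))
    (fun A _ => by positivity) fun A hA h => ?_).trans ?_
  · rw [← Real.exp_add]
    refine Real.one_le_exp ?_
    have : ∑ v ∈ Y with v ∈ A, a v = ∑ v ∈ Y ∩ S, a v * chs v A := by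
      simp only [chs, mul_ite, mul_one, mul_zero, ← sum_filter]
      refine sum_congr ?_ fun _ _ => rfl
      ext v
      simp only [mem_filter, mem_inter]
      exact ⟨fun h => ⟨⟨h.1, hA h.2⟩, h.2⟩, fun h => ⟨h.1.1, h.2⟩⟩
    linarith
  · rw [ex_mul_left, sub_eq_neg_add, Real.exp_add]
    refine mul_le_mul_of_nonneg_left ((ex_exp_le h0 _ inter_subset_right a
      (fun v hv => ha0 v (hsub hv)) fun v hv => ha1 v (hsub hv)).trans
        (Real.exp_le_exp.2 ?_)) (Real.exp_pos _).le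
    have := sum_le_sum_of_subset_of_nonneg (f := fun v => π v * a v) hsub
      fun v hv _ => mul_nonneg (h0 v) (ha0 v hv)
    linarith

/-- P2: edges are determined by their first end (the child); many chosen edges are rare. -/
theorem pr_stars_le (h0 : ∀ a, 0 ≤ π a) (h1 : ∀ a, π a ≤ 1) (E : Finset (α × α))
    (hf : ∀ e ∈ E, ∀ e' ∈ E, e.1 = e'.1 → e = e') (hb : ∀ e ∈ E, ∀ e' ∈ E, e.1 ≠ e'.2)
    (hin : ∀ b, ∑ e ∈ E with e.2 = b, π e.1 ≤ 1) {μ : ℝ} (hμ : ∑ e ∈ E, π e.1 * π e.2 ≤ μ)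
    (g : ℕ) :
    pr S π (fun A => g ≤ (E.filter fun e => e.1 ∈ A ∧ e.2 ∈ A).card) ≤
      Real.exp (2 * μ) / 2 ^ g := by
  let F : Finset (α × α) := E.filter fun e => e.1 ∈ S ∧ e.2 ∈ S
  have hF : F ⊆ E := filter_subset _ _
  let m : α → ℝ := fun b => ∑ e ∈ F with e.2 = b, π e.1
  have hmap : ∀ e ∈ F, e.2 ∈ F.image Prod.snd := fun e he => mem_image_of_mem _ he
  refine (pr_le_ex h0 h1
    (g := fun A => (1 / 2 ^ g) * (1 * ∏ e ∈ F, (1 + chs e.2 A * chs e.1 A)))
    (fun A _ => mul_nonneg (by positivity) (mul_nonneg zero_le_one (prod_nonneg fun e _ =>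
      add_nonneg zero_le_one (mul_nonneg (chs_nonneg _ _) (chs_nonneg _ _)))))
    fun A hA h => ?_).trans ?_
  · have e1 : ∏ e ∈ F, (1 + chs e.2 A * chs e.1 A) =
        2 ^ (E.filter fun e => e.1 ∈ A ∧ e.2 ∈ A).card := by
      have e2 : (E.filter fun e => e.1 ∈ A ∧ e.2 ∈ A) = F.filter fun e => e.1 ∈ A ∧ e.2 ∈ A := by
        ext e
        simp only [F, mem_filter]
        exact ⟨fun h => ⟨⟨h.1, hA h.2.1, hA h.2.2⟩, h.2⟩, fun h => ⟨h.1.1, h.2⟩⟩
      rw [e2, ← prod_const]
      refine Eq.trans (prod_congr rfl fun e _ => ?_) (prod_filter _ _).symm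
      unfold chs
      by_cases ha : e.1 ∈ A <;> by_cases hb : e.2 ∈ A <;> simp [ha, hb]
      norm_num
    rw [e1, one_mul, one_div, inv_mul_eq_div, le_div_iff₀ (by positivity), one_mul]
    exact pow_le_pow_right₀ (by norm_num) h
  · rw [ex_mul_left, ex_prod F Prod.fst (fun e he e' he' h => hf e (hF he) e' (hF he') h)
      (fun e he => (mem_filter.1 he).2.1) (fun _ => 1) (fun e A => chs e.2 A) (fun _ _ _ => rfl)
      fun e he e' he' A => chs_insert (hb e (hF he) e' (hF he')).symm A, one_div, inv_mul_eq_div]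
    refine div_le_div_of_nonneg_right ?_ (by positivity)
    refine (ex_mono h0 h1 (g' := fun A => Real.exp (∑ b ∈ F.image Prod.snd, m b * chs b A))
      fun A _ => ?_).trans ((ex_exp_le h0 _ ?_ m (fun b _ => sum_nonneg fun e _ => h0 _)
        fun b _ => ?_).trans (Real.exp_le_exp.2 ?_))
    · have e1 : ∑ b ∈ F.image Prod.snd, m b * chs b A = ∑ e ∈ F, π e.1 * chs e.2 A := by
        rw [← sum_fiberwise_of_maps_to hmap]
        refine sum_congr rfl fun b _ => ?_
        rw [sum_mul]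
        exact sum_congr rfl fun e he => by rw [(mem_filter.1 he).2]
      rw [one_mul, e1, Real.exp_sum]
      exact prod_le_prod
        (fun e _ => add_nonneg zero_le_one (mul_nonneg (h0 _) (chs_nonneg _ _)))
        fun e _ => by linarith [Real.add_one_le_exp (π e.1 * chs e.2 A)]
    · intro b hb'
      obtain ⟨e, he, rfl⟩ := mem_image.1 hb'
      exact (mem_filter.1 he).2.2
    · exact (sum_le_sum_of_subset_of_nonneg (filter_subset_filter _ hF)
        fun e _ _ => h0 _).trans (hin b)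
    · have e1 : ∑ b ∈ F.image Prod.snd, π b * m b = ∑ e ∈ F, π e.1 * π e.2 := by
        rw [← sum_fiberwise_of_maps_to hmap]
        refine sum_congr rfl fun b _ => ?_
        rw [mul_sum]
        exact sum_congr rfl fun e he => by rw [(mem_filter.1 he).2, mul_comm]
      have := sum_le_sum_of_subset_of_nonneg (f := fun e : α × α => π e.1 * π e.2) hF
        fun e _ _ => mul_nonneg (h0 _) (h0 _)
      rw [e1]
      linarith

/-- P3: a matching rarely has no chosen edge. -/
theorem pr_no_match_le (h0 : ∀ a, 0 ≤ π a) (h1 : ∀ a, π a ≤ 1) (E : Finset (α × α))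
    (hS : ∀ e ∈ E, e.1 ∈ S ∧ e.2 ∈ S) (hf : ∀ e ∈ E, ∀ e' ∈ E, e.1 = e'.1 → e = e')
    (hf' : ∀ e ∈ E, ∀ e' ∈ E, e.2 = e'.2 → e = e') (hb : ∀ e ∈ E, ∀ e' ∈ E, e.1 ≠ e'.2)
    {μ : ℝ} (hμ : μ ≤ ∑ e ∈ E, π e.1 * π e.2) :
    pr S π (fun A => ∀ e ∈ E, ¬(e.1 ∈ A ∧ e.2 ∈ A)) ≤ Real.exp (-μ) := by
  refine (pr_le_ex h0 h1 (g := fun A => 1 * ∏ e ∈ E, (1 + -chs e.2 A * chs e.1 A))
    (fun A _ => mul_nonneg zero_le_one (prod_nonneg fun e _ => ?_)) fun A _ h => ?_).trans ?_
  · unfold chs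
    split_ifs <;> norm_num
  · rw [one_mul]
    refine (prod_eq_one fun e he => ?_).ge
    have := h e he
    unfold chs
    by_cases ha : e.1 ∈ A <;> by_cases hb : e.2 ∈ A <;> simp_all
  · rw [ex_prod E Prod.fst (fun e he e' he' h => hf e he e' he' h) (fun e he => (hS e he).1)
      (fun _ => 1) (fun e A => -chs e.2 A) (fun _ _ _ => rfl)
      fun e he e' he' A => by rw [chs_insert (hb e he e' he').symm A],
      ex_congr (g' := fun A => ∏ e ∈ E, (1 + -π e.1 * chs e.2 A))
        fun A _ => by rw [one_mul]; exact prod_congr rfl fun e _ => by ring,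
      ex_prod_const E Prod.snd (fun e he e' he' h => hf' e he e' he' h) fun e he => (hS e he).2]
    refine le_trans ?_ (Real.exp_le_exp.2 (neg_le_neg hμ))
    rw [← sum_neg_distrib, Real.exp_sum]
    refine prod_le_prod (fun e _ => ?_)
      fun e _ => by linarith [Real.add_one_le_exp (-(π e.1 * π e.2))]
    have := mul_le_one₀ (h1 e.2) (h0 e.1) (h1 e.1)
    linarith

end

/-- P6: a hash function that spreads each of few small sets. -/
theorem exists_hash {β κ : Type*} (Φ : Finset κ) (A : κ → Finset β) {H X G : ℕ} (hH : 0 < H)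
    (hA : ∀ φ ∈ Φ, (A φ).card ≤ X) (h : Φ.card * H * X ^ G < H ^ G) :
    ∃ f : β → ℕ, (∀ b, f b < H) ∧ ∀ φ ∈ Φ, ∀ η, ((A φ).filter fun b => f b = η).card < G := by
  classical
  let U : Finset β := Φ.biUnion A
  let T : Finset (U → ℕ) := Fintype.piFinset fun _ => range H
  let bad : Finset β → ℕ → Finset (U → ℕ) := fun Z η =>
    Fintype.piFinset fun u : U => if (u : β) ∈ Z then {η} else range H
  have hT : T.card = H ^ U.card := by simp [T, Fintype.card_piFinset]
  have hbad : ∀ Z ⊆ U, ∀ η, (bad Z η).card * H ^ Z.card = H ^ U.card := by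
    intro Z hZ η
    have e1 : (bad Z η).card = ∏ u ∈ U, if u ∈ Z then 1 else H := by
      rw [Fintype.card_piFinset, ← prod_coe_sort U]
      refine prod_congr rfl fun u _ => ?_
      split_ifs <;> simp
    have e2 : H ^ Z.card = ∏ u ∈ U, if u ∈ Z then H else 1 := by
      rw [← prod_filter, filter_mem_eq_inter, inter_eq_right.2 hZ, prod_const]
    rw [e1, e2, ← prod_mul_distrib, ← prod_const]
    refine prod_congr rfl fun u _ => ?_
    split_ifs <;> simp
  let B : Finset (U → ℕ) := Φ.biUnion fun φ => (range H).biUnion fun η =>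
    (powersetCard G (A φ)).biUnion fun Z => bad Z η
  have hG : 0 < H ^ G := pow_pos hH G
  have hB : B.card ≤ Φ.card * (H * (X ^ G * (H ^ U.card / H ^ G))) := by
    refine card_biUnion_le_card_mul _ _ _ fun φ hφ => ?_
    refine (card_biUnion_le_card_mul _ _ (X ^ G * (H ^ U.card / H ^ G)) fun η _ => ?_).trans_eq
      (by rw [card_range])
    refine (card_biUnion_le_card_mul _ _ (H ^ U.card / H ^ G) fun Z hZ => ?_).trans
      (Nat.mul_le_mul_right _ ?_)
    · obtain ⟨hs, hc⟩ := mem_powersetCard.1 hZ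
      rw [Nat.le_div_iff_mul_le hG, ← hc, hbad Z (hs.trans (subset_biUnion_of_mem A hφ))]
    · rw [card_powersetCard]
      exact (Nat.choose_le_pow _ _).trans (Nat.pow_le_pow_left (hA φ hφ) G)
  have hlt : B.card < T.card := by
    rw [hT]
    have h1 : H ^ U.card / H ^ G * H ^ G ≤ H ^ U.card := Nat.div_mul_le_self _ _
    have h2 : 0 < H ^ U.card := pow_pos hH _
    rcases Nat.eq_zero_or_pos (H ^ U.card / H ^ G) with h3 | h3
    · rw [h3] at hB
      omega
    · have h4 := Nat.mul_lt_mul_of_pos_right h h3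
      calc _ ≤ _ := hB
        _ = Φ.card * H * X ^ G * (H ^ U.card / H ^ G) := by ring
        _ < H ^ G * (H ^ U.card / H ^ G) := h4
        _ ≤ _ := by rw [mul_comm]; exact h1
  obtain ⟨f, hfT, hfB⟩ := exists_mem_notMem_of_card_lt_card hlt
  have hfH : ∀ u, f u < H := fun u => mem_range.1 (Fintype.mem_piFinset.1 hfT u)
  refine ⟨fun b => if hb : b ∈ U then f ⟨b, hb⟩ else 0, fun b => ?_, fun φ hφ η => ?_⟩
  · by_cases hb : b ∈ U
    · simp only [dif_pos hb]
      exact hfH _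
    · simp only [dif_neg hb]
      exact hH
  · by_contra hc
    obtain ⟨Z, hZ, hcard⟩ := exists_subset_card_eq (not_lt.1 hc)
    have hZf : ∀ u : U, (u : β) ∈ Z → f u = η := fun u hu => by
      simpa [u.2] using (mem_filter.1 (hZ hu)).2
    have hmem : ∀ η' < H, (∀ u : U, (u : β) ∈ Z → f u = η') → False := fun η' hη hz =>
      hfB (mem_biUnion.2 ⟨φ, hφ, mem_biUnion.2 ⟨η', mem_range.2 hη, mem_biUnion.2
        ⟨Z, mem_powersetCard.2 ⟨hZ.trans (filter_subset _ _), hcard⟩,
          Fintype.mem_piFinset.2 fun u => by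
            split_ifs with hu
            · exact mem_singleton.2 (hz u hu)
            · exact mem_range.2 (hfH u)⟩⟩⟩)
    rcases Z.eq_empty_or_nonempty with rfl | ⟨b, hb⟩
    · exact hmem 0 hH fun u hu => absurd hu (notMem_empty _)
    · have hbU : b ∈ U := subset_biUnion_of_mem A hφ (filter_subset _ _ (hZ hb))
      exact hmem η (hZf ⟨b, hbU⟩ hb ▸ hfH _) hZf

/-- SEQ: sequential choice keeping finitely many multiplicative potentials below one. -/
theorem exists_seq {ω κ : Type*} (Om : Finset ω) (hOm : Om.Nonempty) (Φ : Finset κ)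
    (c : κ → ℝ) (g : κ → ℕ → (ℕ → ω) → ℝ) (hc0 : ∀ φ ∈ Φ, 0 ≤ c φ) (hc : ∑ φ ∈ Φ, c φ < 1)
    (hg0 : ∀ φ ∈ Φ, ∀ i ξ, 0 ≤ g φ i ξ)
    (hdep : ∀ φ ∈ Φ, ∀ i ξ ξ', (∀ t ≤ i, ξ t = ξ' t) → g φ i ξ = g φ i ξ') (m : ℕ)
    (hmean : ∀ i < m, ∀ ξ : ℕ → ω, (∀ t, ξ t ∈ Om) →
      (∀ j ≤ i, ∀ ψ ∈ Φ, c ψ * ∏ t ∈ range j, g ψ t ξ < 1) →
        ∀ φ ∈ Φ, ∑ o ∈ Om, g φ i (Function.update ξ i o) ≤ Om.card) :
    ∃ ξ : ℕ → ω, (∀ t, ξ t ∈ Om) ∧ ∀ j ≤ m, ∀ φ ∈ Φ, c φ * ∏ t ∈ range j, g φ t ξ < 1 := by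
  have one : ∀ (ξ : ℕ → ω) (j : ℕ), ∑ φ ∈ Φ, c φ * ∏ t ∈ range j, g φ t ξ < 1 →
      ∀ φ ∈ Φ, c φ * ∏ t ∈ range j, g φ t ξ < 1 := fun ξ j h φ hφ =>
    (single_le_sum (f := fun φ => c φ * ∏ t ∈ range j, g φ t ξ) (fun ψ hψ =>
      mul_nonneg (hc0 ψ hψ) (prod_nonneg fun t _ => hg0 ψ hψ t ξ)) hφ).trans_lt h
  have key : ∀ i ≤ m, ∃ ξ : ℕ → ω, (∀ t, ξ t ∈ Om) ∧
      ∀ j ≤ i, ∑ φ ∈ Φ, c φ * ∏ t ∈ range j, g φ t ξ < 1 := by
    intro i
    induction i with
    | zero =>
      intro _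
      obtain ⟨o, ho⟩ := hOm
      refine ⟨fun _ => o, fun _ => ho, fun j hj => ?_⟩
      rw [Nat.le_zero.1 hj]
      simpa using hc
    | succ i ih =>
      intro hi
      obtain ⟨ξ, hξ, hP⟩ := ih (by omega)
      have hm := hmean i (by omega) ξ hξ fun j hj => one ξ j (hP j hj)
      have hup : ∀ o, ∀ φ ∈ Φ, ∀ j ≤ i, ∏ t ∈ range j, g φ t (Function.update ξ i o) =
          ∏ t ∈ range j, g φ t ξ := fun o φ hφ j hj =>
        prod_congr rfl fun t ht => hdep φ hφ t _ _ fun s hs =>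
          Function.update_of_ne (by have := mem_range.1 ht; omega) _ _
      have hsum : ∑ o ∈ Om, ∑ φ ∈ Φ, c φ * ∏ t ∈ range (i + 1), g φ t (Function.update ξ i o) <
          ∑ _o ∈ Om, (1 : ℝ) := by
        have hcard : (0 : ℝ) < Om.card := by exact_mod_cast hOm.card_pos
        rw [sum_comm, sum_const, nsmul_eq_mul, mul_one]
        calc _ ≤ ∑ φ ∈ Φ, (c φ * ∏ t ∈ range i, g φ t ξ) * Om.card := by
              refine sum_le_sum fun φ hφ => ?_
              refine le_trans (le_of_eq ?_) (mul_le_mul_of_nonneg_left (hm φ hφ)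
                (mul_nonneg (hc0 φ hφ) (prod_nonneg fun t _ => hg0 φ hφ t ξ)))
              rw [mul_sum]
              exact sum_congr rfl fun o _ => by rw [prod_range_succ, hup o φ hφ i le_rfl, mul_assoc]
          _ < _ := by
              rw [← sum_mul]
              exact mul_lt_of_lt_one_left hcard (hP i le_rfl)
      obtain ⟨o, ho, hlt⟩ := exists_lt_of_sum_lt hsum
      refine ⟨Function.update ξ i o, fun t => ?_, fun j hj => ?_⟩
      · by_cases ht : t = i
        · rw [ht, Function.update_self]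
          exact ho
        · rw [Function.update_of_ne ht]
          exact hξ t
      · rcases Nat.lt_or_ge i j with h | h
        · rwa [show j = i + 1 by omega]
        · rw [sum_congr rfl fun φ hφ => by rw [hup o φ hφ j h]]
          exact hP j h
  obtain ⟨ξ, hξ, hP⟩ := key m le_rfl
  exact ⟨ξ, hξ, fun j hj => one ξ j (hP j hj)⟩

end Pool.Agent.P.MP_d5a1e1_nt.TB
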