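import Pool.Agent.P.MP_d5a1e1_nt.TBSys0

/-! A universal system of quadratic digit maps on intervals. -/

namespace Pool.Agent.P.MP_d5a1e1_nt.TB

open Finset

/-- The quadratic map assembled from shorter intervals. -/
def oldQ {p : ℕ} (Q : ℕ → Fin 3 → (ℕ → ZMod p) → ℕ → ZMod p) (cfg : ℕ → Option (ℕ × ℕ × Fin 3))
    (x : ℕ → ZMod p) (r : ℕ) : ZMod p :=
  match cfg r with
  | none => 0
  | some c => Q c.2.1 c.2.2 (fun i => x (c.1 + i)) (r - c.1)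

/-- Members of `Z` are determined by their first `l` coordinates. -/
def Sep {p : ℕ} (l : ℕ) (Z : Finset (ℕ → ZMod p)) : Prop :=
  ∀ y ∈ Z, ∀ y' ∈ Z, (∀ r < l, y r = y' r) → y = y'

/-- A universal interval system up to length `τ`. -/
structure IntSys (p C τ : ℕ) (Q : ℕ → Fin 3 → (ℕ → ZMod p) → ℕ → ZMod p) : Prop where
  loc : ∀ l a x x', (∀ i < l, x i = x' i) → Q l a x = Q l a x'
  cover : ∀ l, 1 ≤ l → l ≤ τ → ∀ U V : ℕ → ZMod p, ∃ a a' x y,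
    ∀ r < l, x r + y r = U r ∧ Q l a x r + Q l a' y r = V r
  two : ∀ l, 1 ≤ l → l ≤ τ → ∀ a a' (U V : ℕ → ZMod p) (Z : Finset (ℕ → ZMod p)), Sep l Z →
    (∀ y ∈ Z, ∀ r < l, Q l a (U - y) r + Q l a' y r = V r) → Z.card ≤ 2
  merge : ∀ v μ, 1 ≤ μ → μ < C → (μ + 1) * C ^ v ≤ τ →
    ∀ a₁ a₂ a (U V : ℕ → ZMod p) (Z : Finset (ℕ → ZMod p)), Sep ((μ + 1) * C ^ v) Z →
    (∀ y ∈ Z, (∀ r < μ * C ^ v,
        Q (μ * C ^ v) a₁ (U - y) r + Q ((μ + 1) * C ^ v) a y r = V r) ∧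
      ∀ r < C ^ v, Q (C ^ v) a₂ (fun i => (U - y) (μ * C ^ v + i)) r +
        Q ((μ + 1) * C ^ v) a y (μ * C ^ v + r) = V (μ * C ^ v + r)) → Z.card ≤ (C + 1) ^ C
  crude : ∀ l, 1 ≤ l → l ≤ τ → ∀ cfg : ℕ → Option (ℕ × ℕ × Fin 3),
    (∀ r < l, ∀ c, cfg r = some c → c.2.1 < l ∧ c.1 + c.2.1 ≤ l) →
    ∀ a (U V : ℕ → ZMod p) (Z : Finset (ℕ → ZMod p)), Sep l Z →
    (∀ y ∈ Z, ∀ r < l, oldQ Q cfg (U - y) r + Q l a y r = V r) → Z.card ≤ (l + 1) ^ l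

/-- The conic on `l` digits with digit forms `z` and factor `s`. -/
def conQ {p : ℕ} (z : ℕ → Fin 3 → ℕ → ℕ → ℕ → ZMod p) (s : ZMod p) (l : ℕ) (a : Fin 3)
    (x : ℕ → ZMod p) (r : ℕ) : ZMod p :=
  s * ∑ i ∈ range l, ∑ j ∈ range l, x i * x j * z l a i j r

theorem conQ_loc {p : ℕ} (z : ℕ → Fin 3 → ℕ → ℕ → ℕ → ZMod p) (s : ZMod p) (l : ℕ) (a : Fin 3)
    {x x' : ℕ → ZMod p} (h : ∀ i < l, x i = x' i) : conQ z s l a x = conQ z s l a x' := by
  funext r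
  unfold conQ
  congr 1
  exact sum_congr rfl fun i hi => sum_congr rfl fun j hj => by
    rw [h i (mem_range.1 hi), h j (mem_range.1 hj)]

theorem exists_avoid_bad {p : ℕ} [hp : Fact p.Prime] {ι : Type*} (I : Finset ι) (P : ι → ZMod p → Prop)
    {N : ℕ} (h : ∀ i ∈ I, ∃ bad : Finset (ZMod p), bad.card ≤ N ∧ ∀ s, s ≠ 0 → s ∉ bad → P i s) :
    ∃ bad : Finset (ZMod p), bad.card ≤ I.card * N ∧ ∀ s, s ≠ 0 → s ∉ bad → ∀ i ∈ I, P i s := by
  choose! bad h1 h2 using h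
  refine ⟨I.biUnion bad, card_biUnion_le.trans (sum_le_card_nsmul _ _ _ h1), fun s h0 hs i hi =>
    h2 i hi s h0 fun hb => hs (mem_biUnion.2 ⟨i, hi, hb⟩)⟩

section Core

variable {Ω : Type*} [Field Ω] [IsAlgClosed Ω] {p : ℕ} [hp : Fact p.Prime] [CharP Ω p] {C : ℕ}
  {k : ℕ → Fin 3 → Ω} {z : ℕ → Fin 3 → ℕ → ℕ → ℕ → ZMod p}

variable (C k z) in
/-- The digit forms `z` represent the conics with coefficients `k`. -/
def Repr : Prop := ∀ l, l ≠ 0 → ∀ a (x : ℕ → ZMod p),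
  ph Ω C l (fun r => ∑ i ∈ range l, ∑ j ∈ range l, x i * x j * z l a i j r) =
    k l a * ph Ω C l x ^ 2

theorem Repr.ph_conQ (H : Repr C k z) {l : ℕ} (hl : l ≠ 0) (s : ZMod p) (a : Fin 3)
    (x : ℕ → ZMod p) : ph Ω C l (conQ z s l a x) = io Ω s * k l a * ph Ω C l x ^ 2 := by
  rw [mul_assoc, ← H l hl, ← ph_mul]
  rfl

omit [IsAlgClosed Ω] in
theorem card_pre_le (bad : Finset Ω) (g : ZMod p → ZMod p) (hg : Function.Injective g) :
    ∃ B : Finset (ZMod p), B.card ≤ bad.card ∧ ∀ s, s ∉ B → io Ω (g s) ∉ bad := by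
  classical
  refine ⟨univ.filter fun s => io Ω (g s) ∈ bad, card_le_card_of_injOn (fun s => io Ω (g s))
    (fun s hs => (mem_filter.1 hs).2) fun a _ b _ h => hg (io_inj h),
    fun s hs hb => hs (mem_filter.2 ⟨mem_univ _, hb⟩)⟩

theorem crude_core (hC : C ≠ 0) (H : Repr C k z) {l : ℕ} (hl : l ≠ 0) {a : Fin 3}
    (hk : k l a ≠ 0) (t : ℕ → ZMod p) (cfg : ℕ → Option (ℕ × ℕ × Fin 3))
    (hc : ∀ r < l, ∀ c, cfg r = some c → c.1 + c.2.1 ≤ l) :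
    ∃ bad : Finset (ZMod p), bad.card ≤ (l + 2) ^ l ∧ ∀ s, s ≠ 0 → s ∉ bad →
      ∀ (U V : ℕ → ZMod p) (Z : Finset (ℕ → ZMod p)), Sep l Z →
      (∀ y ∈ Z, ∀ r < l, oldQ (fun l' => conQ z (t l') l') cfg (U - y) r + conQ z s l a y r = V r) →
      Z.card ≤ (l + 1) ^ l := by
  classical
  obtain ⟨L, hL⟩ : ∃ L : ℕ → (Fin l → Ω) → Ω, L = fun u c =>
    if hu : u < l then c ⟨u, hu⟩ else 0 := ⟨_, rfl⟩
  have hlin : ∀ u, IsLin (L u) := fun u => by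
    rw [hL]
    by_cases hu : u < l
    · exact ⟨Pi.single ⟨u, hu⟩ 1, fun c => by simp [hu, Pi.single_apply]⟩
    · exact ⟨0, fun c => by simp [hu]⟩
  have hLy : ∀ (y : ℕ → ZMod p), ∀ u < l, L u (fun i => io Ω (y i)) = io Ω (y u) :=
    fun y u hu => by simp only [hL, dif_pos hu]
  have hG : ∀ r : Fin l, ∃ G : (Fin l → Ω) → Ω, IsQuad G ∧ ∀ U : ℕ → ZMod p,
      ∃ f : (Fin l → Ω) → Ω, IsAff f ∧ ∀ y : ℕ → ZMod p,
        G (fun i => io Ω (y i)) + f (fun i => io Ω (y i)) =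
          io Ω (oldQ (fun l' => conQ z (t l') l') cfg (U - y) r) := by
    intro r
    rcases hr : cfg r with _ | c
    · exact ⟨fun _ => 0, ⟨0, fun c => by simp⟩, fun U => ⟨fun _ => 0, IsAff.const _, fun y => by
        simp [oldQ, hr]⟩⟩
    · have h1 := hc r r.2 c hr
      refine ⟨fun x => io Ω (t c.2.1) * ∑ i ∈ range c.2.1, ∑ j ∈ range c.2.1,
        io Ω (z c.2.1 c.2.2 i j (r - c.1)) * (L (c.1 + i) x * L (c.1 + j) x),
        IsQuad.mul _ (IsQuad.sum _ fun i _ => IsQuad.sum _ fun j _ =>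
          IsQuad.mul _ ((hlin _).mul (hlin _))), fun U => ?_⟩
      refine ⟨fun x => io Ω (t c.2.1) * ∑ i ∈ range c.2.1, ∑ j ∈ range c.2.1,
        io Ω (z c.2.1 c.2.2 i j (r - c.1)) * (io Ω (U (c.1 + i)) * io Ω (U (c.1 + j)) +
          -io Ω (U (c.1 + i)) * L (c.1 + j) x + -io Ω (U (c.1 + j)) * L (c.1 + i) x),
        IsAff.mul _ (IsAff.sum _ fun i _ => IsAff.sum _ fun j _ => IsAff.mul _
          (((IsAff.const _).add (IsAff.mul _ (hlin _).aff)).add (IsAff.mul _ (hlin _).aff))),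
        fun y => ?_⟩
      simp only [oldQ, hr, conQ, map_mul, map_sum, Pi.sub_apply, map_sub]
      rw [← mul_add, ← sum_add_distrib]
      congr 1
      refine sum_congr rfl fun i hi => ?_
      rw [← sum_add_distrib]
      refine sum_congr rfl fun j hj => ?_
      rw [hLy y _ (by have := mem_range.1 hi; omega), hLy y _ (by have := mem_range.1 hj; omega)]
      ring
  choose G hG1 hG2 using hG
  have hb : ∀ x : ℕ → ZMod p, ph Ω C l x =
      ∑ i : Fin l, ph Ω C l (Pi.single (i : ℕ) (1 : ZMod p)) * io Ω (x i) := fun x => by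
    rw [ph_basis x, sum_range]
  obtain ⟨bad, h1, h2⟩ := bez (Ω := Ω) (p := p) (d := 1) one_ne_zero hl
    (b := fun i : Fin l => ph Ω C l (Pi.single (i : ℕ) (1 : ZMod p))) (fun y hy => by
      obtain ⟨x, rfl⟩ := ph_surj hC hl (by rwa [mul_one] at hy)
      exact ⟨fun i => io Ω (x i), fun i => io_mem _ _, (hb x).symm⟩) hk G hG1
  obtain ⟨B, h3, h4⟩ := card_pre_le bad (fun s : ZMod p => s⁻¹) inv_injective
  refine ⟨B, h3.trans h1, fun s h0 hs U V Z hS hZ => ?_⟩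
  choose f hf1 hf2 using fun r => hG2 r U
  have key := h2 (io Ω s) ((map_ne_zero _).2 h0) (by rw [← map_inv₀]; exact h4 s hs) (io_mem _ _)
    (fun r c => f r c + -io Ω (V r)) (fun r => (hf1 r).add (IsAff.const _))
    (Z.image fun y i => io Ω (y i)) ?_
  · rwa [card_image_of_injOn] at key
    exact fun y hy y' hy' h => hS y hy y' hy' fun r hr => io_inj (congrFun h ⟨r, hr⟩)
  intro c hc
  obtain ⟨y, hy, rfl⟩ := mem_image.1 hc
  have e : ∀ r : Fin l, G r (fun i => io Ω (y i)) + (f r (fun i => io Ω (y i)) + -io Ω (V r)) =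
      io Ω ((0 - conQ z s l a y) r) := fun r => by
    rw [← add_assoc, hf2, ← hZ y hy r r.2]
    simp
  refine ⟨fun i => ⟨io_mem _ _, by rw [e]; exact io_mem _ _⟩, ?_⟩
  simp only [e]
  rw [← hb, ← hb, ph_sub, H.ph_conQ hl]
  have h5 : ph Ω C l (0 : ℕ → ZMod p) = 0 := by
    rw [hb]
    simp only [Pi.zero_apply, map_zero, mul_zero, sum_const_zero]
  rw [h5]
  ring

theorem merge_core (hC : 2 ≤ C) (H : Repr C k z) {v μ : ℕ} (h1 : 1 ≤ μ) (h2 : μ < C)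
    (hk : ∀ l, l ≠ 0 → ∀ a, k l a ≠ 0) (hkF : ∀ l, l ≠ 0 → ∀ a, k l a ∈ Fx Ω p l)
    {t₁ t₂ : ZMod p} (ht₁ : t₁ ≠ 0) (ht₂ : t₂ ≠ 0) (a₁ a₂ a : Fin 3) :
    ∃ bad : Finset (ZMod p), bad.card ≤ (μ + 1 + 2) ^ (μ + 1) ∧ ∀ s, s ≠ 0 → s ∉ bad →
      ∀ (U V : ℕ → ZMod p) (Z : Finset (ℕ → ZMod p)), Sep ((μ + 1) * C ^ v) Z →
      (∀ y ∈ Z, (∀ r < μ * C ^ v,
          conQ z t₁ (μ * C ^ v) a₁ (U - y) r + conQ z s ((μ + 1) * C ^ v) a y r = V r) ∧
        ∀ r < C ^ v, conQ z t₂ (C ^ v) a₂ (fun i => (U - y) (μ * C ^ v + i)) r +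
          conQ z s ((μ + 1) * C ^ v) a y (μ * C ^ v + r) = V (μ * C ^ v + r)) →
      Z.card ≤ (C + 1) ^ C := by
  classical
  have hC0 : C ≠ 0 := by omega
  have hd : C ^ v ≠ 0 := pow_ne_zero _ hC0
  have hμ : μ ≠ 0 := by omega
  have hb : IsBlocks (μ + 1) (fun j => if j < μ then 0 else μ) fun a => if a = 0 then μ else 1 := by
    intro j hj
    by_cases h : j < μ
    · simp only [if_pos h, if_true, zero_add]
      exact ⟨Nat.zero_le _, h, by omega, fun i _ hi => if_pos hi⟩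
    · simp only [if_neg h, if_neg hμ]
      exact ⟨by omega, by omega, le_rfl, fun i hi _ => if_neg (by omega)⟩
  obtain ⟨bad, g1, g2⟩ := merge_ok (Ω := Ω) (p := p) hd (Nat.succ_ne_zero μ) le_rfl hb
    (β := fun a => al Ω p C v (if a = 0 then μ else 1))
    (κ := fun a => if a = 0 then io Ω t₁ * k (μ * C ^ v) a₁ else io Ω t₂ * k (C ^ v) a₂)
    (fun j _ => (al_spec hC0 v (by split_ifs <;> omega)).2)
    (fun j _ => by
      split_ifs
      all_goals first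
        | exact mul_ne_zero ((map_ne_zero _).2 ht₁) (hk _ (mul_ne_zero hμ hd) _)
        | exact mul_ne_zero ((map_ne_zero _).2 ht₂) (hk _ hd _))
    (al_spec hC0 v (Nat.succ_ne_zero μ)).1 (al_spec hC0 v (Nat.succ_ne_zero μ)).2
    (hkF _ (mul_ne_zero (Nat.succ_ne_zero μ) hd) a) fun _ _ => 0
  obtain ⟨B, g3, g4⟩ := card_pre_le bad (fun s : ZMod p => s) Function.injective_id
  refine ⟨B, g3.trans g1, fun s _ hs U V Z hS hZ => ?_⟩
  obtain ⟨u, hu⟩ : ∃ u : (ℕ → ZMod p) → ℕ → Ω,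
    u = fun x i => val Ω p C v (fun r => io Ω (x r)) (0 + i * C ^ v) := ⟨_, rfl⟩
  have huF : ∀ x i, u x i ∈ Fx Ω p (C ^ v) := fun x i => by
    rw [hu]
    exact val_mem hC0 v (fun r => io_mem _ 1) _
  have hadd : ∀ x y i, u x i + u y i = u (x + y) i := fun x y i => by
    simp only [hu, Pi.add_apply, map_add, val_add]
  have hph : ∀ m, 1 ≤ m → m ≤ C → ∀ x, ∑ i ∈ range m, al Ω p C v m ^ i * u x i =
      ph Ω C (m * C ^ v) x := fun m hm hm' x => by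
    rw [ph_eq hC v hm hm', hu, bv]
  have hsh : ∀ x, u x μ = ph Ω C (C ^ v) fun i => x (μ * C ^ v + i) := fun x => by
    have := ph_eq (Ω := Ω) hC v le_rfl (by omega) fun i => x (μ * C ^ v + i)
    rw [one_mul, bv_one] at this
    rw [this, hu]
    simp only [add_comm (μ * C ^ v)]
    exact (val_shift v (fun r => io Ω (x r)) 0 (μ * C ^ v)).symm
  have key := g2 (io Ω s) (g4 s hs) (io_mem _ _) (u U) (u V) (fun _ _ => 0)
    (Z.image fun y (i : Fin (μ + 1)) => u y i) (fun _ => True)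
    (fun _ _ _ _ a ha ha' => by omega) ?_
  · rw [card_image_of_injOn] at key
    · exact key.trans ((Nat.pow_le_pow_left (by omega) _).trans
        (Nat.pow_le_pow_right (by omega) h2))
    · intro y hy y' hy' h
      refine hS y hy y' hy' (ph_inj (Ω := Ω) hC0 ?_)
      rw [← hph _ (by omega) h2, ← hph _ (by omega) h2]
      exact sum_congr rfl fun i hi => by
        rw [show u y i = u y' i from congrFun h ⟨i, mem_range.1 hi⟩]
  intro c hc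
  obtain ⟨y, hy, rfl⟩ := mem_image.1 hc
  obtain ⟨e1, e2⟩ := hZ y hy
  refine ⟨u y, u (U - y), u (V - conQ z s ((μ + 1) * C ^ v) a y),
    u (conQ z s ((μ + 1) * C ^ v) a y), trivial, fun _ => rfl, fun i _ => ⟨huF _ _, huF _ _⟩,
    fun i _ => ⟨huF _ _, huF _ _, by rw [hadd, sub_add_cancel], by simp [hadd]⟩, fun j _ => ?_, ?_⟩
  · by_cases h : j < μ
    · simp only [if_pos h, if_true, zero_add]
      rw [hph μ h1 h2.le, hph μ h1 h2.le, ← H.ph_conQ (mul_ne_zero hμ hd)]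
      exact ph_congr fun r hr => by rw [Pi.sub_apply, ← e1 r hr, add_sub_cancel_right]
    · simp only [if_neg h, if_neg hμ, sum_range_one, pow_zero, one_mul, add_zero]
      rw [hsh, hsh, ← H.ph_conQ hd]
      exact ph_congr fun r hr => by rw [Pi.sub_apply, ← e2 r hr, add_sub_cancel_right]
  · rw [hph _ (by omega) h2, hph _ (by omega) h2, H.ph_conQ (mul_ne_zero (Nat.succ_ne_zero μ) hd)]

variable (C z) in
/-- The two counting properties at length `l`, with old factors `t` and new factor `s`. -/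
def GoodAt (l : ℕ) (t : ℕ → ZMod p) (s : ZMod p) : Prop :=
  (∀ v μ, 1 ≤ μ → μ < C → (μ + 1) * C ^ v = l →
    ∀ a₁ a₂ a (U V : ℕ → ZMod p) (Z : Finset (ℕ → ZMod p)), Sep l Z →
    (∀ y ∈ Z, (∀ r < μ * C ^ v,
        conQ z (t (μ * C ^ v)) (μ * C ^ v) a₁ (U - y) r + conQ z s l a y r = V r) ∧
      ∀ r < C ^ v, conQ z (t (C ^ v)) (C ^ v) a₂ (fun i => (U - y) (μ * C ^ v + i)) r +
        conQ z s l a y (μ * C ^ v + r) = V (μ * C ^ v + r)) → Z.card ≤ (C + 1) ^ C) ∧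
  ∀ cfg : ℕ → Option (ℕ × ℕ × Fin 3), (∀ r < l, ∀ c, cfg r = some c → c.2.1 < l ∧ c.1 + c.2.1 ≤ l) →
    ∀ a (U V : ℕ → ZMod p) (Z : Finset (ℕ → ZMod p)), Sep l Z →
    (∀ y ∈ Z, ∀ r < l, oldQ (fun l' => conQ z (t l') l') cfg (U - y) r + conQ z s l a y r = V r) →
    Z.card ≤ (l + 1) ^ l

theorem GoodAt.congr (hC : 2 ≤ C) {l : ℕ} {t t' : ℕ → ZMod p} {s : ZMod p} (h : GoodAt C z l t s)
    (ht : ∀ i < l, t' i = t i) : GoodAt C z l t' s := by
  refine ⟨fun v μ h1 h2 h3 => ?_, fun cfg hc a U V Z hS hZ => h.2 cfg hc a U V Z hS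
    fun y hy r hr => ?_⟩
  · have h0 : 0 < C ^ v := pow_pos (by omega) v
    have h4 : 1 * C ^ v ≤ μ * C ^ v := Nat.mul_le_mul_right _ h1
    have h5 := h3
    rw [add_mul] at h5
    rw [ht _ (by omega), ht _ (by omega)]
    exact h.1 v μ h1 h2 h3
  · rw [← hZ y hy r hr]
    congr 1
    rcases hr' : cfg r with _ | c
    · simp only [oldQ, hr']
    · simp only [oldQ, hr', ht _ (hc r hr c hr').1]

theorem sys_num {l τ : ℕ} (hl : l ≤ τ) (hτ : 32 ≤ τ) :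
    (l + 1) * ((l + 1) * (3 * (3 * 3))) * (l + 2) ^ l +
      ((l + 1) * (l * 3) + 1) ^ l * 3 * (l + 2) ^ l + 1 ≤
      2 ^ τ ^ 2 := by
  have h1 : 16 * τ ^ 3 ≤ 2 ^ τ := by
    clear hl
    induction τ, hτ using Nat.le_induction with
    | base => norm_num
    | succ n hn ih =>
      have : (n + 1) ^ 3 ≤ 2 * n ^ 3 := by nlinarith [Nat.zero_le (n * n), Nat.mul_le_mul hn hn]
      rw [pow_succ 2]
      omega
  have h2 : (4 * τ ^ 2) ^ 2 ≤ (4 * τ ^ 2) ^ τ := Nat.pow_le_pow_right (by positivity) (by omega)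
  have h3 : (l + 1) * ((l + 1) * (3 * (3 * 3))) ≤ (4 * τ ^ 2) ^ τ := by
    refine le_trans ?_ h2
    have : (l + 1) * (l + 1) ≤ (2 * τ) * (2 * τ) := Nat.mul_le_mul (by omega) (by omega)
    have h6 : 32 * 32 ≤ τ * τ := Nat.mul_le_mul hτ hτ
    nlinarith
  have h4 : ((l + 1) * (l * 3) + 1) ^ l ≤ (4 * τ ^ 2) ^ τ := by
    have : (l + 1) * (l * 3) ≤ (τ + 1) * (τ * 3) := Nat.mul_le_mul (by omega) (by omega)
    exact (Nat.pow_le_pow_left (by nlinarith) _).trans (Nat.pow_le_pow_right (by positivity) hl)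
  have h5 : (l + 2) ^ l ≤ (2 * τ) ^ τ :=
    (Nat.pow_le_pow_left (by omega) _).trans (Nat.pow_le_pow_right (by omega) hl)
  have h6 : 2 ^ 3 ≤ 2 ^ τ := Nat.pow_le_pow_right (by norm_num) (by omega)
  have h7 : 1 ≤ (4 * τ ^ 2) ^ τ * (2 * τ) ^ τ := Nat.one_le_iff_ne_zero.2 (by positivity)
  calc _ ≤ (4 * τ ^ 2) ^ τ * (2 * τ) ^ τ + (4 * τ ^ 2) ^ τ * 3 * (2 * τ) ^ τ + 1 := by gcongr
    _ ≤ 2 ^ τ * ((4 * τ ^ 2) ^ τ * (2 * τ) ^ τ) := by nlinarith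
    _ = (16 * τ ^ 3) ^ τ := by
      rw [← mul_pow, ← mul_pow]
      congr 1
      ring
    _ ≤ (2 ^ τ) ^ τ := Nat.pow_le_pow_left h1 _
    _ = 2 ^ τ ^ 2 := by rw [← pow_mul, sq]

theorem exists_goodAt (hC : 2 ≤ C) (H : Repr C k z) (hk : ∀ l, l ≠ 0 → ∀ a, k l a ≠ 0)
    (hkF : ∀ l, l ≠ 0 → ∀ a, k l a ∈ Fx Ω p l) {l τ : ℕ} (hl0 : l ≠ 0) (hl : l ≤ τ) (hτ : 32 ≤ τ)
    (h : 2 ^ τ ^ 2 < p) {t : ℕ → ZMod p} (ht : ∀ i, t i ≠ 0) :
    ∃ s, s ≠ 0 ∧ GoodAt C z l t s := by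
  classical
  obtain ⟨B₁, b1, g1⟩ := exists_avoid_bad (p := p) (N := (l + 2) ^ l)
    (range (l + 1) ×ˢ range (l + 1) ×ˢ (univ : Finset (Fin 3 × Fin 3 × Fin 3)))
    (fun i s => 1 ≤ i.2.1 → i.2.1 < C → (i.2.1 + 1) * C ^ i.1 = l →
      ∀ (U V : ℕ → ZMod p) (Z : Finset (ℕ → ZMod p)), Sep l Z →
      (∀ y ∈ Z, (∀ r < i.2.1 * C ^ i.1, conQ z (t (i.2.1 * C ^ i.1)) (i.2.1 * C ^ i.1) i.2.2.1
          (U - y) r + conQ z s l i.2.2.2.2 y r = V r) ∧
        ∀ r < C ^ i.1, conQ z (t (C ^ i.1)) (C ^ i.1) i.2.2.2.1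
          (fun j => (U - y) (i.2.1 * C ^ i.1 + j)) r +
          conQ z s l i.2.2.2.2 y (i.2.1 * C ^ i.1 + r) = V (i.2.1 * C ^ i.1 + r)) →
        Z.card ≤ (C + 1) ^ C) (by
    rintro ⟨v, μ, a₁, a₂, a⟩ -
    by_cases hc : 1 ≤ μ ∧ μ < C ∧ (μ + 1) * C ^ v = l
    · obtain ⟨c1, c2, rfl⟩ := hc
      obtain ⟨bad, e1, e2⟩ := merge_core hC H (v := v) c1 c2 hk hkF (ht (μ * C ^ v)) (ht (C ^ v))
        a₁ a₂ a
      have h0 : μ + 1 ≤ (μ + 1) * C ^ v := Nat.le_mul_of_pos_right _ (pow_pos (by omega) v)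
      exact ⟨bad, e1.trans ((Nat.pow_le_pow_left (by omega) _).trans
        (Nat.pow_le_pow_right (by omega) h0)), fun s h0 hs _ _ _ => e2 s h0 hs⟩
    · exact ⟨∅, by simp, fun s _ _ c1 c2 c3 => absurd ⟨c1, c2, c3⟩ hc⟩)
  obtain ⟨B₂, b2, g2⟩ := exists_avoid_bad (p := p) (N := (l + 2) ^ l)
    ((Fintype.piFinset fun _ : Fin l =>
      insertNone (range (l + 1) ×ˢ range l ×ˢ (univ : Finset (Fin 3)))) ×ˢ (univ : Finset (Fin 3)))
    (fun i s => ∀ cfg : ℕ → Option (ℕ × ℕ × Fin 3), (∀ r : Fin l, cfg r = i.1 r) →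
      (∀ r < l, ∀ c, cfg r = some c → c.1 + c.2.1 ≤ l) →
      ∀ (U V : ℕ → ZMod p) (Z : Finset (ℕ → ZMod p)), Sep l Z →
      (∀ y ∈ Z, ∀ r < l, oldQ (fun l' => conQ z (t l') l') cfg (U - y) r +
        conQ z s l i.2 y r = V r) → Z.card ≤ (l + 1) ^ l) (by
    rintro ⟨c, a⟩ -
    by_cases hc : ∃ cfg : ℕ → Option (ℕ × ℕ × Fin 3), (∀ r : Fin l, cfg r = c r) ∧
      ∀ r < l, ∀ c, cfg r = some c → c.1 + c.2.1 ≤ l
    · obtain ⟨cfg₀, c1, c2⟩ := hc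
      obtain ⟨bad, e1, e2⟩ := crude_core (by omega) H hl0 (hk l hl0 a) t cfg₀ c2
      refine ⟨bad, e1, fun s h0 hs cfg c3 _ U V Z hS hZ => e2 s h0 hs U V Z hS fun y hy r hr => ?_⟩
      rw [← hZ y hy r hr]
      simp only [oldQ, c1 ⟨r, hr⟩, c3 ⟨r, hr⟩]
    · exact ⟨∅, by simp, fun s _ _ cfg c1 c2 => absurd ⟨cfg, c1, c2⟩ hc⟩)
  have hcard : (insert 0 (B₁ ∪ B₂)).card < (univ : Finset (ZMod p)).card := by
    rw [card_univ, ZMod.card]
    refine lt_of_le_of_lt ?_ ((sys_num hl hτ).trans_lt h)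
    simp only [card_product, card_range, card_univ, Fintype.card_prod, Fintype.card_fin,
      Fintype.card_piFinset, card_insertNone, prod_const] at b1 b2
    have := card_insert_le 0 (B₁ ∪ B₂)
    have := card_union_le B₁ B₂
    omega
  obtain ⟨s, -, hs⟩ := exists_mem_notMem_of_card_lt_card hcard
  rw [mem_insert, mem_union, not_or, not_or] at hs
  refine ⟨s, hs.1, fun v μ h1 h2 h3 a₁ a₂ a => g1 s hs.1 hs.2.1 (v, μ, a₁, a₂, a) ?_ h1 h2 h3,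
    fun cfg hc a => g2 s hs.1 hs.2.2 (fun r => cfg r, a) ?_ cfg (fun _ => rfl)
      fun r hr c h => (hc r hr c h).2⟩
  · have h4 : v < C ^ v := Nat.lt_pow_self (by omega)
    have h5 : μ + 1 ≤ (μ + 1) * C ^ v := Nat.le_mul_of_pos_right _ (by omega)
    have h6 : C ^ v ≤ (μ + 1) * C ^ v := Nat.le_mul_of_pos_left _ (by omega)
    simp only [mem_product, mem_range, mem_univ, and_true]
    omega
  · simp only [mem_product, mem_univ, and_true, Fintype.mem_piFinset, mem_insertNone, mem_range]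
    intro r c hrc
    have := hc r r.2 c hrc
    omega

end Core

theorem exists_intSys (p C τ : ℕ) (hp : p.Prime) (hC : 2 ≤ C) (hτ : 32 ≤ τ)
    (h : 2 ^ τ ^ 2 < p) : ∃ Q, IntSys p C τ Q := by
  have := Fact.mk hp
  have hC0 : C ≠ 0 := by omega
  have h7 : 7 < p := lt_trans (lt_of_lt_of_le (by norm_num)
    (Nat.pow_le_pow_right (by norm_num) (show 3 ≤ τ ^ 2 by nlinarith))) h
  obtain ⟨k, z, hkz⟩ := exists_conics (Ω := AlgebraicClosure (ZMod p)) (p := p) hC0 h7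
  have H : Repr C k z := fun l hl => (hkz l hl).2.2.2
  have hk : ∀ l, l ≠ 0 → ∀ a, k l a ≠ 0 := fun l hl a h0 =>
    (hkz l hl).2.1 a a (by rw [h0, add_zero])
  have hrec : ∀ n ≤ τ, ∃ t : ℕ → ZMod p, (∀ i, t i ≠ 0) ∧
      ∀ l, l ≠ 0 → l ≤ n → GoodAt C z l t (t l) := by
    intro n
    induction n with
    | zero => exact fun _ => ⟨fun _ => 1, fun _ => one_ne_zero, fun l h1 h2 => by omega⟩
    | succ n ih =>
      intro hn
      obtain ⟨t, h1, h2⟩ := ih (by omega)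
      obtain ⟨s, h3, h4⟩ := exists_goodAt hC H hk (fun l hl => (hkz l hl).1)
        (Nat.succ_ne_zero n) hn hτ h h1
      refine ⟨Function.update t (n + 1) s, fun i => ?_, fun l hl hl' => ?_⟩
      · rcases eq_or_ne i (n + 1) with rfl | hi
        · rwa [Function.update_self]
        · rw [Function.update_of_ne hi]
          exact h1 i
      · rcases eq_or_ne l (n + 1) with rfl | hi
        · rw [Function.update_self]
          exact h4.congr hC fun i hi => Function.update_of_ne hi.ne _ _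
        · rw [Function.update_of_ne hi]
          exact (h2 l hl (by omega)).congr hC fun i hi => Function.update_of_ne (by omega) _ _
  obtain ⟨t, ht, hG⟩ := hrec τ le_rfl
  refine ⟨fun l => conQ z (t l) l, fun l a x x' h => conQ_loc z _ l a h, fun l h1 _ U V => ?_,
    fun l h1 _ a a' U V Z hS hZ => ?_,
    fun v μ h1 h2 h3 => (hG _ (mul_ne_zero (by omega) (pow_ne_zero _ hC0)) h3).1 v μ h1 h2 rfl,
    fun l h1 h2 => (hG l (by omega) h2).2⟩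
  · have hl : l ≠ 0 := by omega
    have h0 : io (AlgebraicClosure (ZMod p)) (t l) ≠ 0 := (map_ne_zero _).2 (ht l)
    obtain ⟨a, b, X, hX, Y, hY, e1, e2⟩ := (hkz l hl).2.2.1 _ (ph_mem hC0 hl U) _
      (mul_mem (inv_mem (io_mem (t l) l)) (ph_mem hC0 hl V))
    obtain ⟨x, rfl⟩ := ph_surj hC0 hl hX
    obtain ⟨y, rfl⟩ := ph_surj hC0 hl hY
    refine ⟨a, b, x, y, fun r hr => ⟨ph_inj hC0 ((ph_add x y).trans e1) r hr,
      ph_inj (Ω := AlgebraicClosure (ZMod p)) hC0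
        (x := conQ z (t l) l a x + conQ z (t l) l b y) ?_ r hr⟩⟩
    rw [ph_add, H.ph_conQ hl, H.ph_conQ hl, mul_assoc, mul_assoc, ← mul_add, e2,
      mul_inv_cancel_left₀ h0]
  · classical
    have hl : l ≠ 0 := by omega
    have h0 : io (AlgebraicClosure (ZMod p)) (t l) ≠ 0 := (map_ne_zero _).2 (ht l)
    have key := quad_two (mul_ne_zero h0 ((hkz l hl).2.1 a a'))
      (β := -2 * io _ (t l) * k l a * ph _ C l U)
      (γ := io _ (t l) * k l a * ph _ C l U ^ 2 - ph _ C l V) (Z.image (ph _ C l)) ?_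
    · rwa [card_image_of_injOn fun y hy y' hy' h => hS y hy y' hy' (ph_inj hC0 h)] at key
    intro X hX
    obtain ⟨y, hy, rfl⟩ := mem_image.1 hX
    have e := ph_congr (Ω := AlgebraicClosure (ZMod p)) (C := C)
      (x := conQ z (t l) l a (U - y) + conQ z (t l) l a' y) (hZ y hy)
    rw [ph_add, H.ph_conQ hl, H.ph_conQ hl, ph_sub] at e
    linear_combination e

end Pool.Agent.P.MP_d5a1e1_nt.TB
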