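import Pool.Agent.P.MP_d5a1e1_nt.TBBox
import Pool.Agent.P.MP_d5a1e1_nt.TBCut
import Pool.Agent.P.MP_d5a1e1_nt.TBSys

/-! Fine points: digit vectors that lie on a conic over every piece. -/

namespace Pool.Agent.P.MP_d5a1e1_nt.TB

open Finset

/-- A family of quadratic maps, one system for every modulus. -/
abbrev QFam : Type := ∀ q : ℕ, ℕ → Fin 3 → (ℕ → ZMod q) → ℕ → ZMod q

/-- The primes are constant on epochs and carry an interval system. -/
structure AlgOK (C : ℕ) (p : ℕ → ℕ) (Q : QFam) : Prop where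
  three : 3 ≤ C
  prime : ∀ u, (p u).Prime
  const : ∀ u u', Nat.log C u = Nat.log C u' → p u = p u'
  sys : ∀ u, IntSys (p u) C (C ^ (Nat.log C u + 1)) (Q (p u))

/-- The odd digits on the units `[a, a + l)` are the quadratic map of the even digits. -/
def OnQ (Q : QFam) (q a l : ℕ) (κ : Fin 3) (d : ℕ → ℕ) : Prop :=
  ∀ r < l, (d (2 * (a + r) + 1) : ZMod q) = Q q l κ (fun i => (d (2 * (a + i)) : ZMod q)) r

open Classical in
/-- The fine points of state `k`. -/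
noncomputable def Pt (C : ℕ) (p : ℕ → ℕ) (Q : QFam) (k : ℕ) : Finset (ℕ → ℕ) :=
  (Box (2 * k) p).filter fun d => ∀ a b, Piece C k a b → ∃ κ, OnQ Q (p a) a (b - a) κ d

variable {C : ℕ} {p : ℕ → ℕ} {Q : QFam}

theorem mem_Pt {k : ℕ} {d : ℕ → ℕ} : d ∈ Pt C p Q k ↔
    d ∈ Box (2 * k) p ∧ ∀ a b, Piece C k a b → ∃ κ, OnQ Q (p a) a (b - a) κ d := by
  classical
  simp only [Pt, mem_filter]

theorem AlgOK.p_eq (h : AlgOK C p Q) {k a b u : ℕ} (hp : Piece C k a b) (h1 : a ≤ u)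
    (h2 : u < b) : p u = p a :=
  h.const _ _ (hp.log_eq (by have := h.three; omega) h1 h2)

theorem IntSys.mono {q C τ τ' : ℕ} {Q : ℕ → Fin 3 → (ℕ → ZMod q) → ℕ → ZMod q}
    (h : IntSys q C τ Q) (ht : τ' ≤ τ) : IntSys q C τ' Q :=
  ⟨h.loc, fun l h1 h2 => h.cover l h1 (h2.trans ht), fun l h1 h2 => h.two l h1 (h2.trans ht),
    fun v μ h1 h2 h3 => h.merge v μ h1 h2 (h3.trans ht),
    fun l h1 h2 => h.crude l h1 (h2.trans ht)⟩

theorem exists_algOK (hC : 32 ≤ C) (hp : ∀ u, (p u).Prime)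
    (hc : ∀ u u', Nat.log C u = Nat.log C u' → p u = p u')
    (hb : ∀ u, 2 ^ (C ^ (Nat.log C u + 1)) ^ 2 < p u) : ∃ Q, AlgOK C p Q := by
  classical
  have key : ∀ q : ℕ, ∃ Q : ℕ → Fin 3 → (ℕ → ZMod q) → ℕ → ZMod q,
      ∀ τ, q.Prime → 32 ≤ τ → 2 ^ τ ^ 2 < q → IntSys q C τ Q := by
    intro q
    by_cases h : ∃ τ, q.Prime ∧ 32 ≤ τ ∧ 2 ^ τ ^ 2 < q
    · obtain ⟨τ, h1, h2, h3⟩ := h
      have hle : ∀ t : ℕ, 2 ^ t ^ 2 < q → t ≤ q := fun t ht => by
        have a1 : t ^ 2 < 2 ^ t ^ 2 := Nat.lt_two_pow_self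
        have a2 : t ≤ t ^ 2 := Nat.le_self_pow (by norm_num) t
        omega
      have h4 : 2 ^ (Nat.findGreatest (fun t => 2 ^ t ^ 2 < q) q) ^ 2 < q :=
        Nat.findGreatest_spec (P := fun t => 2 ^ t ^ 2 < q) (hle τ h3) h3
      have h5 : ∀ t, 2 ^ t ^ 2 < q → t ≤ Nat.findGreatest (fun t => 2 ^ t ^ 2 < q) q :=
        fun t ht => Nat.le_findGreatest (hle t ht) ht
      obtain ⟨Q, hQ⟩ := exists_intSys q C _ h1 (by omega) (h2.trans (h5 τ h3)) h4
      exact ⟨Q, fun t _ _ ht => hQ.mono (h5 t ht)⟩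
    · exact ⟨fun _ _ _ _ => 0, fun τ h1 h2 h3 => absurd ⟨τ, h1, h2, h3⟩ h⟩
  choose Q hQ using key
  refine ⟨Q, by omega, hp, hc, fun u => hQ _ _ (hp u) ?_ (hb u)⟩
  exact hC.trans (Nat.le_self_pow (by omega) C)

/-- Restriction to the digits of the units `[a, b)`. -/
def res (a b : ℕ) (y : ℕ → ℕ) : ℕ → ℕ := fun i => if 2 * a ≤ i ∧ i < 2 * b then y i else 0

open Classical in
/-- Counting piece by piece. -/
theorem card_le_prod_piece {k n : ℕ} (hn : n ≤ k) (hc : Cut C k n) (N : ℕ → ℕ) {M : ℕ → ℕ}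
    (Z : Finset (ℕ → ℕ)) (hZ : Z ⊆ Box (2 * n) M)
    (h : ∀ a b, Piece C k a b → b ≤ n → (Z.image (res a b)).card ≤ N a) :
    Z.card ≤ ∏ a ∈ (range n).filter (Cut C k), N a := by
  have key : ∀ a, a < n → Cut C k a → ∃ b, Piece C k a b ∧ b ≤ n := by
    intro a ha hca
    obtain ⟨a', b, hp, h1, h2⟩ := exists_piece (C := C) (k := k) (u := a) (by omega)
    obtain rfl : a' = a := by
      by_contra hne
      exact hp.2.2.2.2 a (by omega) h2 hca
    refine ⟨b, hp, ?_⟩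
    by_contra hb
    exact hp.2.2.2.2 n ha (by omega) hc
  choose! nb hnb using key
  set s := (range n).filter (Cut C k) with hs
  have h1 : Z.card ≤ (s.pi fun a => Z.image (res a (nb a))).card := by
    refine card_le_card_of_injOn (fun y a _ => res a (nb a) y) ?_ ?_
    · intro y hy
      exact mem_coe.2 (mem_pi.2 fun a _ => mem_image_of_mem _ hy)
    · intro y hy y' hy' e
      refine Box_ext (hZ hy) (hZ hy') fun i hi => ?_
      obtain ⟨a, b, hp, a1, a2⟩ := exists_piece (C := C) (k := k) (u := i / 2) (by omega)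
      have ha : a ∈ s := mem_filter.2 ⟨mem_range.2 (by omega), hp.2.2.1⟩
      have hb := (hnb a (by omega) hp.2.2.1).1
      have e1 : b = nb a := (hp.unique hb le_rfl hp.1 le_rfl hb.1).2
      have e2 := congrFun (congrFun (congrFun e a) ha) i
      simp only [res] at e2
      rwa [if_pos ⟨by omega, by omega⟩, if_pos ⟨by omega, by omega⟩] at e2
  rw [card_pi] at h1
  refine h1.trans (prod_le_prod' fun a ha => ?_)
  obtain ⟨a1, a2⟩ := mem_filter.1 ha
  obtain ⟨b1, b2⟩ := hnb a (mem_range.1 a1) a2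
  exact h a _ b1 b2

/-- F4 -/
theorem AlgOK.top (h : AlgOK C p Q) (k v : ℕ) (s : Finset ℕ)
    (hs : ∀ u ∈ s, ∃ d ∈ Pt C p Q (k + 1), d (2 * k) = u ∧ d (2 * k + 1) = v) : s.card ≤ 6 := by
  classical
  have key : ∀ u ∈ s, u < p k ∧ ∃ κ : Fin 3,
      (v : ZMod (p k)) = Q (p k) 1 κ (fun _ => (u : ZMod (p k))) 0 := by
    intro u hu
    obtain ⟨d, hd, e1, e2⟩ := hs u hu
    obtain ⟨h1, h2⟩ := mem_Pt.1 hd
    obtain ⟨κ, hκ⟩ := h2 k (k + 1) (piece_top k)
    refine ⟨?_, κ, ?_⟩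
    · have := (mem_Box.1 h1).1 (2 * k) (by omega)
      rwa [e1, Nat.mul_div_cancel_left k two_pos] at this
    · have h3 := hκ 0 (by omega)
      rw [Nat.add_sub_cancel_left, add_zero, e2] at h3
      rw [h3, (h.sys k).loc 1 κ _ (fun _ => (u : ZMod (p k))) fun i hi => ?_]
      obtain rfl : i = 0 := by omega
      rw [add_zero, e1]
  have hsub : s ⊆ (univ : Finset (Fin 3)).biUnion fun κ => s.filter fun u : ℕ =>
      (v : ZMod (p k)) = Q (p k) 1 κ (fun _ => (u : ZMod (p k))) 0 := by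
    intro u hu
    obtain ⟨κ, hκ⟩ := (key u hu).2
    exact mem_biUnion.2 ⟨κ, mem_univ _, mem_filter.2 ⟨hu, hκ⟩⟩
  refine (card_le_card hsub).trans (card_biUnion_le.trans ?_)
  have h2 : ∀ κ : Fin 3, (s.filter fun u : ℕ =>
      (v : ZMod (p k)) = Q (p k) 1 κ (fun _ => (u : ZMod (p k))) 0).card ≤ 2 := by
    intro κ
    have hinj : Set.InjOn (fun (u : ℕ) (_ : ℕ) => (u : ZMod (p k))) (s.filter fun u =>
        (v : ZMod (p k)) = Q (p k) 1 κ (fun _ => (u : ZMod (p k))) 0 : Finset ℕ) := by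
      intro u hu u' hu' e
      have e1 := (ZMod.natCast_eq_natCast_iff' _ _ _).1 (congrFun e 0)
      rwa [Nat.mod_eq_of_lt (key u (mem_filter.1 hu).1).1,
        Nat.mod_eq_of_lt (key u' (mem_filter.1 hu').1).1] at e1
    rw [← card_image_of_injOn hinj]
    refine (h.sys k).crude 1 le_rfl (Nat.one_le_pow _ _ (by have := h.three; omega))
      (fun _ => none) (fun _ _ _ hc => by simp at hc) κ 0 (fun _ => (v : ZMod (p k))) _ ?_ ?_
    · intro y hy y' hy' e
      obtain ⟨u, -, rfl⟩ := mem_image.1 hy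
      obtain ⟨u', -, rfl⟩ := mem_image.1 hy'
      funext _
      exact e 0 one_pos
    · intro y hy r hr
      obtain ⟨u, hu, rfl⟩ := mem_image.1 hy
      obtain rfl : r = 0 := by omega
      rw [← (mem_filter.1 hu).2]
      simp [oldQ]
  calc _ ≤ ∑ _κ : Fin 3, 2 := sum_le_sum fun κ _ => h2 κ
    _ = 6 := by simp

/-- F2 -/
theorem AlgOK.cover (h : AlgOK C p Q) (k : ℕ) (γ r : ℕ → ℕ) :
    ∃ d ∈ Pt C p Q k, ∃ d' ∈ Pt C p Q k, ∀ i < 2 * k, d i + d' i + γ i ≡ r i [MOD p (i / 2)] := by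
  classical
  have key : ∀ a b, Piece C k a b → ∃ (κ κ' : Fin 3) (f f' : ℕ → ℕ), (∀ i, f i < p a) ∧
      (∀ i, f' i < p a) ∧ OnQ Q (p a) a (b - a) κ f ∧ OnQ Q (p a) a (b - a) κ' f' ∧
      ∀ i, 2 * a ≤ i → i < 2 * b → f i + f' i + γ i ≡ r i [MOD p a] := by
    intro a b hp
    have : NeZero (p a) := ⟨(h.prime a).ne_zero⟩
    obtain ⟨κ, κ', x, y, hxy⟩ := (h.sys a).cover (b - a) (by have := hp.1; omega)
      (hp.len_le (by have := h.three; omega))
      (fun t => (r (2 * (a + t)) : ZMod (p a)) - γ (2 * (a + t)))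
      (fun t => (r (2 * (a + t) + 1) : ZMod (p a)) - γ (2 * (a + t) + 1))
    have ev : ∀ t, 2 * (a + t) % 2 = 0 ∧ 2 * (a + t) / 2 - a = t := fun t => by omega
    have od : ∀ t, ¬(2 * (a + t) + 1) % 2 = 0 ∧ (2 * (a + t) + 1) / 2 - a = t := fun t => by omega
    refine ⟨κ, κ', fun i => (if i % 2 = 0 then x (i / 2 - a) else Q (p a) (b - a) κ x (i / 2 - a)).val,
      fun i => (if i % 2 = 0 then y (i / 2 - a) else Q (p a) (b - a) κ' y (i / 2 - a)).val,
      fun i => ZMod.val_lt _, fun i => ZMod.val_lt _, fun t _ => ?_, fun t _ => ?_,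
      fun i h1 h2 => ?_⟩
    · simp only [ZMod.natCast_zmod_val, if_pos (ev _).1, (ev _).2, if_neg (od _).1, (od _).2]
    · simp only [ZMod.natCast_zmod_val, if_pos (ev _).1, (ev _).2, if_neg (od _).1, (od _).2]
    · rw [← ZMod.natCast_eq_natCast_iff]
      obtain ⟨e1, e2⟩ := hxy (i / 2 - a) (by omega)
      push_cast
      simp only [ZMod.natCast_zmod_val]
      split_ifs with hi
      · have e : 2 * (a + (i / 2 - a)) = i := by omega
        rw [e] at e1
        linear_combination e1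
      · have e : 2 * (a + (i / 2 - a)) + 1 = i := by omega
        rw [e] at e2
        linear_combination e2
  choose! κ κ' f f' hf hf' h1 h2 h3 using key
  have hst : ∀ u, u < k → ∃ a b, Piece C k a b ∧ a ≤ u ∧ u < b := fun u hu => exists_piece hu
  choose! st en hp hs he using hst
  have glue : ∀ (g : ℕ → ℕ → ℕ → ℕ) (c : ℕ → ℕ → Fin 3), (∀ a b, Piece C k a b → ∀ i, g a b i < p a) →
      (∀ a b, Piece C k a b → OnQ Q (p a) a (b - a) (c a b) (g a b)) →
      tr (2 * k) (fun i => g (st (i / 2)) (en (i / 2)) i) ∈ Pt C p Q k := by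
    intro g c g1 g2
    refine mem_Pt.2 ⟨tr_mem_Box fun i hi => ?_, fun a b hab => ⟨c a b, fun t ht => ?_⟩⟩
    · have hi' : i / 2 < k := by omega
      rw [h.p_eq (hp _ hi') (hs _ hi') (he _ hi')]
      exact g1 _ _ (hp _ hi') i
    · have e : ∀ i, 2 * a ≤ i → i < 2 * b →
          tr (2 * k) (fun i => g (st (i / 2)) (en (i / 2)) i) i = g a b i := by
        intro i i1 i2
        have hb := hab.2.1
        have hi' : i / 2 < k := by omega
        obtain ⟨e1, e2⟩ := (hp _ hi').unique hab (hs _ hi') (he _ hi') (by omega) (by omega)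
        rw [tr_lt (by omega), e1, e2]
      rw [e _ (by omega) (by omega), g2 a b hab t ht]
      refine congrFun ((h.sys a).loc _ _ _ _ fun i hi => ?_) t
      rw [e _ (by omega) (by omega)]
  refine ⟨_, glue f κ hf h1, _, glue f' κ' hf' h2, fun i hi => ?_⟩
  have hi' : i / 2 < k := by omega
  have a1 := hs _ hi'
  have a2 := he _ hi'
  rw [tr_lt hi, tr_lt hi, h.p_eq (hp _ hi') a1 a2]
  exact h3 _ _ (hp _ hi') i (by omega) (by omega)

end Pool.Agent.P.MP_d5a1e1_nt.TB
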