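import Pool.Agent.P.MP_d5a1e1_nt.TBFld

/-! Coordinates of a tower of finite fields: blocks of digits as field elements. -/

namespace Pool.Agent.P.MP_d5a1e1_nt.TB

open Finset

variable (Ω : Type*) [Field Ω] [IsAlgClosed Ω] (p : ℕ) [hp : Fact p.Prime] [CharP Ω p] (C : ℕ)

/-- A generator of `Fx (μ * C ^ l)` over `Fx (C ^ l)`. -/
noncomputable def al (l μ : ℕ) : Ω :=
  if h : C ^ l ≠ 0 ∧ μ ≠ 0 then (exists_gen (Ω := Ω) (p := p) h.1 h.2).choose else 0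

/-- The value of the unit of `C ^ l` digits that starts at `a`. -/
noncomputable def val : ℕ → (ℕ → Ω) → ℕ → Ω
  | 0, x, a => x a
  | l + 1, x, a => ∑ i ∈ range C, al Ω p C l C ^ i * val l x (a + i * C ^ l)

/-- The value of the block of `μ` units of level `l` that starts at `a`. -/
noncomputable def bv (l μ : ℕ) (x : ℕ → Ω) (a : ℕ) : Ω :=
  ∑ i ∈ range μ, al Ω p C l μ ^ i * val Ω p C l x (a + i * C ^ l)

/-- The value of the piece of `len` digits that starts at `a`. -/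
noncomputable def pv (len : ℕ) (x : ℕ → Ω) (a : ℕ) : Ω :=
  bv Ω p C (Nat.log C (len - 1)) (len / C ^ Nat.log C (len - 1)) x a

variable {Ω p C}

theorem al_spec (hC : C ≠ 0) (l : ℕ) {μ : ℕ} (hμ : μ ≠ 0) : al Ω p C l μ ∈ Fx Ω p (μ * C ^ l) ∧
    Function.Injective fun r : Fin μ => al Ω p C l μ ^ (p ^ C ^ l) ^ (r : ℕ) := by
  have h : C ^ l ≠ 0 ∧ μ ≠ 0 := ⟨pow_ne_zero _ hC, hμ⟩
  rw [al, dif_pos h]
  exact (exists_gen (Ω := Ω) (p := p) h.1 h.2).choose_spec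

theorem val_zero (x : ℕ → Ω) (a : ℕ) : val Ω p C 0 x a = x a := rfl

theorem val_succ (l : ℕ) (x : ℕ → Ω) (a : ℕ) : val Ω p C (l + 1) x a = bv Ω p C l C x a := rfl

theorem bv_one (l : ℕ) (x : ℕ → Ω) (a : ℕ) : bv Ω p C l 1 x a = val Ω p C l x a := by
  simp [bv]

theorem pv_eq (hC : 2 ≤ C) (l : ℕ) {μ : ℕ} (h1 : 1 ≤ μ) (h2 : μ ≤ C) (x : ℕ → Ω) (a : ℕ) :
    pv Ω p C (μ * C ^ l) x a = bv Ω p C l μ x a := by
  have hp0 : ∀ k, 0 < C ^ k := fun k => pow_pos (by omega) k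
  rcases h1.eq_or_lt with rfl | h1
  · rcases l with _ | l
    · simp [pv]
    · have h3 : Nat.log C (1 * C ^ (l + 1) - 1) = l := by
        have h4 := hp0 l
        have h5 : 2 * C ^ l ≤ C ^ (l + 1) := by rw [pow_succ']; exact Nat.mul_le_mul_right _ hC
        exact Nat.log_eq_of_pow_le_of_lt_pow (by omega) (by omega)
      rw [pv, h3, bv_one, val_succ, one_mul, pow_succ', Nat.mul_div_cancel _ (hp0 l)]
  · have h3 : Nat.log C (μ * C ^ l - 1) = l := by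
      have h4 := hp0 l
      have h5 : 2 * C ^ l ≤ μ * C ^ l := Nat.mul_le_mul_right _ h1
      have h6 : μ * C ^ l ≤ C ^ (l + 1) := by rw [pow_succ']; exact Nat.mul_le_mul_right _ h2
      exact Nat.log_eq_of_pow_le_of_lt_pow (by omega) (by omega)
    rw [pv, h3, Nat.mul_div_cancel _ (hp0 l)]

theorem val_add (l : ℕ) (x y : ℕ → Ω) (a : ℕ) :
    val Ω p C l (fun s => x s + y s) a = val Ω p C l x a + val Ω p C l y a := by
  induction l generalizing a with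
  | zero => rfl
  | succ l ih => simp only [val, ih, mul_add, sum_add_distrib]

theorem val_sub (l : ℕ) (x y : ℕ → Ω) (a : ℕ) :
    val Ω p C l (fun s => x s - y s) a = val Ω p C l x a - val Ω p C l y a := by
  induction l generalizing a with
  | zero => rfl
  | succ l ih => simp only [val, ih, mul_sub, sum_sub_distrib]

theorem val_mul (l : ℕ) (c : Ω) (x : ℕ → Ω) (a : ℕ) :
    val Ω p C l (fun s => c * x s) a = c * val Ω p C l x a := by
  induction l generalizing a with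
  | zero => rfl
  | succ l ih =>
    simp only [val, ih, mul_sum]
    exact sum_congr rfl fun i _ => by ring

theorem val_sum {ι : Type*} (s : Finset ι) (l : ℕ) (x : ι → ℕ → Ω) (a : ℕ) :
    val Ω p C l (fun u => ∑ i ∈ s, x i u) a = ∑ i ∈ s, val Ω p C l (x i) a := by
  induction l generalizing a with
  | zero => rfl
  | succ l ih =>
    simp only [val, ih, mul_sum]
    exact sum_comm

theorem val_shift (l : ℕ) (x : ℕ → Ω) (a b : ℕ) :
    val Ω p C l (fun s => x (s + b)) a = val Ω p C l x (a + b) := by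
  induction l generalizing a with
  | zero => rfl
  | succ l ih =>
    simp only [val, ih]
    exact sum_congr rfl fun i _ => by rw [add_right_comm]

theorem unit_sub {l μ i a s : ℕ} (hi : i < μ) (h1 : a + i * C ^ l ≤ s)
    (h2 : s < a + i * C ^ l + C ^ l) : a ≤ s ∧ s < a + μ * C ^ l := by
  have : (i + 1) * C ^ l ≤ μ * C ^ l := Nat.mul_le_mul_right _ hi
  rw [add_mul, one_mul] at this
  omega

theorem val_congr (l : ℕ) {x y : ℕ → Ω} {a : ℕ} (h : ∀ s, a ≤ s → s < a + C ^ l → x s = y s) :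
    val Ω p C l x a = val Ω p C l y a := by
  induction l generalizing a with
  | zero => exact h a le_rfl (by simp)
  | succ l ih =>
    refine sum_congr rfl fun i hi => ?_
    rw [ih fun s h1 h2 => ?_]
    have := unit_sub (mem_range.1 hi) h1 h2
    exact h s this.1 (by rw [pow_succ']; exact this.2)

theorem bv_add (l μ : ℕ) (x y : ℕ → Ω) (a : ℕ) :
    bv Ω p C l μ (fun s => x s + y s) a = bv Ω p C l μ x a + bv Ω p C l μ y a := by
  simp only [bv, val_add, mul_add, sum_add_distrib]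

theorem bv_sub (l μ : ℕ) (x y : ℕ → Ω) (a : ℕ) :
    bv Ω p C l μ (fun s => x s - y s) a = bv Ω p C l μ x a - bv Ω p C l μ y a := by
  simp only [bv, val_sub, mul_sub, sum_sub_distrib]

theorem bv_mul (l μ : ℕ) (c : Ω) (x : ℕ → Ω) (a : ℕ) :
    bv Ω p C l μ (fun s => c * x s) a = c * bv Ω p C l μ x a := by
  simp only [bv, val_mul, mul_sum]
  exact sum_congr rfl fun i _ => by ring

theorem bv_congr (l μ : ℕ) {x y : ℕ → Ω} {a : ℕ}
    (h : ∀ s, a ≤ s → s < a + μ * C ^ l → x s = y s) : bv Ω p C l μ x a = bv Ω p C l μ y a := by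
  refine sum_congr rfl fun i hi => ?_
  rw [val_congr l fun s h1 h2 => ?_]
  have := unit_sub (mem_range.1 hi) h1 h2
  exact h s this.1 this.2

theorem val_mem (hC : C ≠ 0) (l : ℕ) {x : ℕ → Ω} (hx : ∀ s, x s ∈ Fx Ω p 1) (a : ℕ) :
    val Ω p C l x a ∈ Fx Ω p (C ^ l) := by
  induction l generalizing a with
  | zero => simpa [val] using hx a
  | succ l ih =>
    rw [pow_succ']
    exact gen_mem (al_spec hC l hC).1 fun i _ => ih _

theorem bv_mem (hC : C ≠ 0) (l : ℕ) {μ : ℕ} (hμ : μ ≠ 0) {x : ℕ → Ω} (hx : ∀ s, x s ∈ Fx Ω p 1)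
    (a : ℕ) : bv Ω p C l μ x a ∈ Fx Ω p (μ * C ^ l) :=
  gen_mem (al_spec hC l hμ).1 fun _ _ => val_mem hC l hx _

theorem unit_of {l μ a s : ℕ} (hC : C ≠ 0) (h1 : a ≤ s) (h2 : s < a + μ * C ^ l) :
    (s - a) / C ^ l < μ ∧ a + (s - a) / C ^ l * C ^ l ≤ s ∧
      s < a + (s - a) / C ^ l * C ^ l + C ^ l := by
  have h0 : 0 < C ^ l := pow_pos (Nat.pos_of_ne_zero hC) l
  have h3 := Nat.div_mul_le_self (s - a) (C ^ l)
  have h4 := Nat.lt_div_mul_add (a := s - a) h0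
  refine ⟨(Nat.div_lt_iff_lt_mul h0).2 (by omega), by omega, by omega⟩

theorem bv_eq_zero_units (hC : C ≠ 0) {l μ : ℕ} {x : ℕ → Ω} (hx : ∀ s, x s ∈ Fx Ω p 1) {a : ℕ}
    (h : bv Ω p C l μ x a = 0) : ∀ i < μ, val Ω p C l x (a + i * C ^ l) = 0 := fun i hi =>
  gen_indep (al_spec hC l (by omega)).2 (c := fun i => val Ω p C l x (a + i * C ^ l))
    (fun _ _ => val_mem hC l hx _) h i hi

theorem val_eq_zero (hC : C ≠ 0) {l : ℕ} {x : ℕ → Ω} (hx : ∀ s, x s ∈ Fx Ω p 1) {a : ℕ}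
    (h : val Ω p C l x a = 0) : ∀ s, a ≤ s → s < a + C ^ l → x s = 0 := by
  induction l generalizing a with
  | zero =>
    intro s h1 h2
    obtain rfl : s = a := by simp at h2; omega
    exact h
  | succ l ih =>
    intro s h1 h2
    rw [pow_succ'] at h2
    obtain ⟨h3, h4, h5⟩ := unit_of hC h1 h2
    exact ih (bv_eq_zero_units hC hx h _ h3) s h4 h5

theorem bv_eq_zero (hC : C ≠ 0) {l μ : ℕ} {x : ℕ → Ω} (hx : ∀ s, x s ∈ Fx Ω p 1) {a : ℕ}
    (h : bv Ω p C l μ x a = 0) : ∀ s, a ≤ s → s < a + μ * C ^ l → x s = 0 := by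
  intro s h1 h2
  obtain ⟨h3, h4, h5⟩ := unit_of hC h1 h2
  exact val_eq_zero hC hx (bv_eq_zero_units hC hx h _ h3) s h4 h5

theorem val_inj (hC : C ≠ 0) {l : ℕ} {x y : ℕ → Ω} (hx : ∀ s, x s ∈ Fx Ω p 1)
    (hy : ∀ s, y s ∈ Fx Ω p 1) {a : ℕ} (h : val Ω p C l x a = val Ω p C l y a) :
    ∀ s, a ≤ s → s < a + C ^ l → x s = y s := fun s h1 h2 =>
  sub_eq_zero.1 (val_eq_zero hC (x := fun s => x s - y s) (fun s => sub_mem (hx s) (hy s))
    (by rw [val_sub, h, sub_self]) s h1 h2)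

theorem bv_inj (hC : C ≠ 0) {l μ : ℕ} {x y : ℕ → Ω} (hx : ∀ s, x s ∈ Fx Ω p 1)
    (hy : ∀ s, y s ∈ Fx Ω p 1) {a : ℕ} (h : bv Ω p C l μ x a = bv Ω p C l μ y a) :
    ∀ s, a ≤ s → s < a + μ * C ^ l → x s = y s := fun s h1 h2 =>
  sub_eq_zero.1 (bv_eq_zero hC (x := fun s => x s - y s) (fun s => sub_mem (hx s) (hy s))
    (by rw [bv_sub, h, sub_self]) s h1 h2)

/-- Prescribed unit values are attained, given that one unit value is. -/
theorem units_surj (hC : C ≠ 0) {l : ℕ}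
    (H : ∀ a, ∀ y ∈ Fx Ω p (C ^ l), ∃ x : ℕ → Ω, (∀ s, x s ∈ Fx Ω p 1) ∧ val Ω p C l x a = y)
    (a : ℕ) {c : ℕ → Ω} (hc : ∀ i, c i ∈ Fx Ω p (C ^ l)) :
    ∃ x : ℕ → Ω, (∀ s, x s ∈ Fx Ω p 1) ∧ ∀ i, val Ω p C l x (a + i * C ^ l) = c i := by
  choose x h1 h2 using fun i => H (a + i * C ^ l) (c i) (hc i)
  refine ⟨fun s => x ((s - a) / C ^ l) s, fun s => h1 _ s, fun i => ?_⟩
  rw [← h2 i]
  refine val_congr l fun s h3 h4 => ?_
  have h0 : 0 < C ^ l := pow_pos (Nat.pos_of_ne_zero hC) l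
  rw [Nat.div_eq_of_lt_le (k := i) (by omega) (by rw [add_mul, one_mul]; omega)]

theorem val_surj (hC : C ≠ 0) (l a : ℕ) {y : Ω} (hy : y ∈ Fx Ω p (C ^ l)) :
    ∃ x : ℕ → Ω, (∀ s, x s ∈ Fx Ω p 1) ∧ val Ω p C l x a = y := by
  induction l generalizing a y with
  | zero => exact ⟨fun _ => y, fun _ => by simpa using hy, rfl⟩
  | succ l ih =>
    rw [pow_succ'] at hy
    obtain ⟨c, h1, h2⟩ := gen_span (pow_ne_zero l hC) hC (al_spec hC l hC).1 (al_spec hC l hC).2 hy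
    obtain ⟨x, h3, h4⟩ := units_surj hC (fun a y hy => ih a hy) a h1
    exact ⟨x, h3, by simp only [val, h4, h2]⟩

theorem bv_surj (hC : C ≠ 0) (l : ℕ) {μ : ℕ} (hμ : μ ≠ 0) (a : ℕ) {y : Ω}
    (hy : y ∈ Fx Ω p (μ * C ^ l)) :
    ∃ x : ℕ → Ω, (∀ s, x s ∈ Fx Ω p 1) ∧ bv Ω p C l μ x a = y := by
  obtain ⟨c, h1, h2⟩ := gen_span (pow_ne_zero l hC) hμ (al_spec hC l hμ).1 (al_spec hC l hμ).2 hy
  obtain ⟨x, h3, h4⟩ := units_surj hC (fun a y hy => val_surj hC l a hy) a h1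
  exact ⟨x, h3, by simp only [bv, h4, h2]⟩

end Pool.Agent.P.MP_d5a1e1_nt.TB
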