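import Pool.Agent.P.MP_d5a1e1_nt.TBMerge
import Pool.Agent.P.MP_d5a1e1_nt.TBVal

/-! Digit vectors as field elements, and the conics over them. -/

namespace Pool.Agent.P.MP_d5a1e1_nt.TB

open Finset

variable {Ω : Type*} [Field Ω] [IsAlgClosed Ω] {p : ℕ} [hp : Fact p.Prime] [CharP Ω p]

/-- The matrix of conjugates of a spanning family of the right size is invertible. -/
theorem moore_det {m d : ℕ} (hd : d ≠ 0) (hm : m ≠ 0) {b : Fin m → Ω}
    (hb : ∀ y ∈ Fx Ω p (m * d), ∃ c : Fin m → Ω, (∀ i, c i ∈ Fx Ω p d) ∧ ∑ i, b i * c i = y) :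
    (Matrix.of fun j i : Fin m => b i ^ (p ^ d) ^ (j : ℕ)).det ≠ 0 := by
  intro h0
  obtain ⟨v, hv, h1⟩ := Matrix.exists_vecMul_eq_zero_iff.2 h0
  obtain ⟨α, hα, hi⟩ := exists_gen (Ω := Ω) (p := p) hd hm
  refine hv (Matrix.eq_zero_of_vecMul_eq_zero (det_conj hi) (funext fun i => ?_))
  obtain ⟨c, hc, h2⟩ := hb (α ^ (i : ℕ)) (pow_mem hα _)
  simp only [Matrix.vecMul, dotProduct, Matrix.of_apply, Pi.zero_apply, ← h2, sum_pow_frob,
    mul_pow, Fx_pow (hc _), mul_sum]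
  rw [sum_comm]
  refine sum_eq_zero fun a _ => ?_
  have h3 := congrFun h1 a
  simp only [Matrix.vecMul, dotProduct, Matrix.of_apply, Pi.zero_apply] at h3
  simp only [← mul_assoc]
  rw [← sum_mul, h3, zero_mul]

/-- A conic over the large field perturbed by any quadratic map over the small field. -/
theorem bez {m d : ℕ} (hd : d ≠ 0) (hm : m ≠ 0) {b : Fin m → Ω}
    (hb : ∀ y ∈ Fx Ω p (m * d), ∃ c : Fin m → Ω, (∀ i, c i ∈ Fx Ω p d) ∧ ∑ i, b i * c i = y)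
    {k : Ω} (hk : k ≠ 0) (G : Fin m → (Fin m → Ω) → Ω) (hG : ∀ i, IsQuad (G i)) :
    ∃ bad : Finset Ω, bad.card ≤ (m + 2) ^ m ∧ ∀ t, t ≠ 0 → t⁻¹ ∉ bad → t ∈ Fx Ω p d →
      ∀ f : Fin m → (Fin m → Ω) → Ω, (∀ i, IsAff (f i)) → ∀ Z : Finset (Fin m → Ω),
        (∀ y ∈ Z, (∀ i, y i ∈ Fx Ω p d ∧ G i y + f i y ∈ Fx Ω p d) ∧
          ∑ i, b i * (G i y + f i y) + t * k * (∑ i, b i * y i) ^ 2 = 0) →
        Z.card ≤ (m + 1) ^ m := by
  obtain ⟨bad, h1, h2⟩ := macaulay_fun _ (moore_det hd hm hb)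
    (fun j => k ^ (p ^ d) ^ (j : ℕ)) (fun j => pow_ne_zero _ hk)
    (fun j c => ∑ i, b i ^ (p ^ d) ^ (j : ℕ) * G i c)
    fun j => IsQuad.sum _ fun i _ => IsQuad.mul _ (hG i)
  rw [Fintype.card_fin] at h1 h2
  refine ⟨bad, h1, fun t ht0 ht htF f hf Z hZ => h2 t⁻¹ ht
    (fun j c => t⁻¹ * ∑ i, b i ^ (p ^ d) ^ (j : ℕ) * f i c)
    (fun j => IsAff.mul _ (IsAff.sum _ fun i _ => IsAff.mul _ (hf i))) Z fun y hy j => ?_⟩
  obtain ⟨g1, g2⟩ := hZ y hy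
  have h3 := congrArg (· ^ (p ^ d) ^ (j : ℕ)) g2
  simp only [zero_pow (pow_pos (pow_pos hp.out.pos d) _).ne'] at h3
  rw [← pow_mul p, add_pow_char_pow, pow_mul p, mul_pow, mul_pow, pow_right_comm _ 2,
    sum_pow_frob, sum_pow_frob, Fx_pow htF] at h3
  simp only [mul_pow, Fx_pow (g1 _).1, Fx_pow (g1 _).2] at h3
  simp only [mul_add, sum_add_distrib] at h3
  simp only [Matrix.of_apply]
  have h4 := inv_mul_cancel₀ ht0
  linear_combination t⁻¹ * h3 -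
    k ^ (p ^ d) ^ (j : ℕ) * (∑ a, b a ^ (p ^ d) ^ (j : ℕ) * y a) ^ 2 * h4

variable (Ω) in
/-- Residues as elements of the closed field. -/
def io : ZMod p →+* Ω := ZMod.castHom (dvd_refl p) Ω

omit [IsAlgClosed Ω] in
theorem io_mem (x : ZMod p) (d : ℕ) : io Ω x ∈ Fx Ω p d := by
  refine Fx_mono (one_dvd d) ?_
  rw [mem_Fx, pow_one, ← map_pow, ZMod.pow_card]

omit [IsAlgClosed Ω] in
theorem io_inj : Function.Injective (io Ω : ZMod p → Ω) := (io Ω).injective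

omit [IsAlgClosed Ω] in
theorem io_surj {y : Ω} (hy : y ∈ Fx Ω p 1) : ∃ x : ZMod p, io Ω x = y := by
  obtain ⟨n, -, h⟩ := mem_Fx_one.1 hy
  exact ⟨n, by rw [map_natCast, h]⟩

/-- The level of the units in which an interval of length `l` is read. -/
def lev (C l : ℕ) : ℕ := if C ^ Nat.log C (l - 1) ∣ l then Nat.log C (l - 1) else 0

theorem lev_dvd (C l : ℕ) : l / C ^ lev C l * C ^ lev C l = l := by
  apply Nat.div_mul_cancel
  unfold lev
  split_ifs with h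
  · exact h
  · simp

variable (Ω) in
/-- The field element read from the first `l` digits. -/
noncomputable def ph (C l : ℕ) (x : ℕ → ZMod p) : Ω :=
  bv Ω p C (lev C l) (l / C ^ lev C l) (fun s => io Ω (x s)) 0

variable {C l : ℕ}

theorem ph_eq (hC : 2 ≤ C) (v : ℕ) {μ : ℕ} (h1 : 1 ≤ μ) (h2 : μ ≤ C) (x : ℕ → ZMod p) :
    ph Ω C (μ * C ^ v) x = bv Ω p C v μ (fun s => io Ω (x s)) 0 := by
  have h0 : 0 < C ^ v := pow_pos (by omega) v
  have h3 : μ * C ^ v ≤ C ^ (v + 1) := by rw [pow_succ']; exact Nat.mul_le_mul_right _ h2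
  have h4 : 1 * C ^ v ≤ μ * C ^ v := Nat.mul_le_mul_right _ h1
  have h5 : Nat.log C (μ * C ^ v - 1) ≤ v := by
    rcases Nat.eq_zero_or_pos (μ * C ^ v - 1) with h | h
    · rw [h]; simp
    · exact Nat.lt_add_one_iff.1 (Nat.log_lt_of_lt_pow h.ne' (by omega))
  have h6 : lev C (μ * C ^ v) = Nat.log C (μ * C ^ v - 1) :=
    if_pos ((pow_dvd_pow C h5).trans (Dvd.intro_left _ rfl))
  rw [ph, h6]
  exact pv_eq hC v h1 h2 _ 0

theorem ph_add (x y : ℕ → ZMod p) : ph Ω C l (x + y) = ph Ω C l x + ph Ω C l y := by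
  simp only [ph, Pi.add_apply, map_add, bv_add]

theorem ph_sub (x y : ℕ → ZMod p) : ph Ω C l (x - y) = ph Ω C l x - ph Ω C l y := by
  simp only [ph, Pi.sub_apply, map_sub, bv_sub]

theorem ph_mul (c : ZMod p) (x : ℕ → ZMod p) :
    ph Ω C l (fun r => c * x r) = io Ω c * ph Ω C l x := by
  simp only [ph, map_mul, bv_mul]

theorem ph_sum {ι : Type*} (s : Finset ι) (x : ι → ℕ → ZMod p) :
    ph Ω C l (fun r => ∑ i ∈ s, x i r) = ∑ i ∈ s, ph Ω C l (x i) := by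
  simp only [ph, bv, map_sum, val_sum, mul_sum]
  exact sum_comm

theorem ph_congr {x y : ℕ → ZMod p} (h : ∀ r < l, x r = y r) : ph Ω C l x = ph Ω C l y :=
  bv_congr _ _ fun s _ hs => by rw [h s (by rwa [zero_add, lev_dvd] at hs)]

theorem div_lev_ne (hl : l ≠ 0) : l / C ^ lev C l ≠ 0 := fun h => by
  have := lev_dvd C l
  rw [h, zero_mul] at this
  exact hl this.symm

theorem ph_mem (hC : C ≠ 0) (hl : l ≠ 0) (x : ℕ → ZMod p) : ph Ω C l x ∈ Fx Ω p l := by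
  have := bv_mem (Ω := Ω) (p := p) hC (lev C l) (div_lev_ne (C := C) hl)
    (fun s => io_mem (x s) 1) 0
  rwa [lev_dvd] at this

theorem ph_inj (hC : C ≠ 0) {x y : ℕ → ZMod p} (h : ph Ω C l x = ph Ω C l y) :
    ∀ r < l, x r = y r := fun r hr =>
  io_inj (bv_inj hC (fun s => io_mem (x s) 1) (fun s => io_mem (y s) 1) h r (Nat.zero_le _)
    (by rwa [zero_add, lev_dvd]))

theorem ph_surj (hC : C ≠ 0) (hl : l ≠ 0) {y : Ω} (hy : y ∈ Fx Ω p l) :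
    ∃ x : ℕ → ZMod p, ph Ω C l x = y := by
  obtain ⟨x, h1, h2⟩ := bv_surj (Ω := Ω) (p := p) hC (lev C l) (div_lev_ne hl) 0
    (y := y) (by rwa [lev_dvd])
  choose x' hx' using fun s => io_surj (h1 s)
  exact ⟨x', by simp only [ph, hx', h2]⟩

theorem ph_basis (x : ℕ → ZMod p) :
    ph Ω C l x = ∑ i ∈ range l, ph Ω C l (Pi.single i (1 : ZMod p)) * io Ω (x i) := by
  rw [ph_congr (y := fun r => ∑ i ∈ range l, x i * (Pi.single i (1 : ZMod p) : ℕ → ZMod p) r)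
    fun r hr => by simp [Pi.single_apply, hr], ph_sum]
  exact sum_congr rfl fun i _ => by rw [ph_mul, mul_comm]

/-- The basic conics: coefficients `k` and digit forms `z`. -/
theorem exists_conics (hC : C ≠ 0) (h7 : 7 < p) :
    ∃ (k : ℕ → Fin 3 → Ω) (z : ℕ → Fin 3 → ℕ → ℕ → ℕ → ZMod p), ∀ l, l ≠ 0 →
      (∀ a, k l a ∈ Fx Ω p l) ∧ (∀ a b, k l a + k l b ≠ 0) ∧
      (∀ u ∈ Fx Ω p l, ∀ v ∈ Fx Ω p l, ∃ a b : Fin 3, ∃ x ∈ Fx Ω p l, ∃ y ∈ Fx Ω p l,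
        x + y = u ∧ k l a * x ^ 2 + k l b * y ^ 2 = v) ∧
      ∀ a (x : ℕ → ZMod p), ph Ω C l (fun r => ∑ i ∈ range l, ∑ j ∈ range l,
        x i * x j * z l a i j r) = k l a * ph Ω C l x ^ 2 := by
  choose! k h1 h2 h3 using fun (l : ℕ) (hl : l ≠ 0) => exists_kk (Ω := Ω) h7 hl
  choose! z hz using fun (l : ℕ) (hl : l ≠ 0) (a : Fin 3) (i j : ℕ) => ph_surj hC hl
    (mul_mem (h1 l hl a) (mul_mem (ph_mem hC hl (Pi.single i (1 : ZMod p)))
      (ph_mem hC hl (Pi.single j (1 : ZMod p)))))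
  refine ⟨k, z, fun l hl => ⟨h1 l hl, h2 l hl, h3 l hl, fun a x => ?_⟩⟩
  rw [ph_basis x, sq, sum_mul_sum, ph_sum, mul_sum]
  refine sum_congr rfl fun i _ => ?_
  rw [ph_sum, mul_sum]
  refine sum_congr rfl fun j _ => ?_
  rw [ph_mul, hz l hl, map_mul]
  ring

end Pool.Agent.P.MP_d5a1e1_nt.TB
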