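import Mathlib

/-! Generalised binomial coefficients and the weights `C(2x,x) / 4 ^ x`. -/

namespace Pool.Agent.P.MP_d5a1e1_nt.TB.Lab

open Finset

/-- The coefficient of `x ^ h` in `(1 - x) ^ (-s)`. -/
noncomputable def nb (s : ℝ) : ℕ → ℝ
  | 0 => 1
  | h + 1 => nb s h * (s + h) / (h + 1)

/-- The weight `C(2x,x) / 4 ^ x`. -/
noncomputable def cw (x : ℕ) : ℝ := nb (1 / 2) x

theorem nb_zero (s : ℝ) : nb s 0 = 1 := rfl

theorem nb_succ (s : ℝ) (h : ℕ) : ((h : ℝ) + 1) * nb s (h + 1) = (s + h) * nb s h := by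
  have : (h : ℝ) + 1 ≠ 0 := by positivity
  rw [nb]
  field_simp

theorem nb_pos {s : ℝ} (hs : 0 < s) (h : ℕ) : 0 < nb s h := by
  induction h with
  | zero => exact one_pos
  | succ h ih => rw [nb]; positivity

theorem nb_one (h : ℕ) : nb 1 h = 1 := by
  induction h with
  | zero => rfl
  | succ h ih =>
    have : (h : ℝ) + 1 ≠ 0 := by positivity
    rw [nb, ih]
    field_simp
    ring

/-- Vandermonde's identity. -/
theorem nb_conv (s t : ℝ) (h : ℕ) :
    ∑ p ∈ antidiagonal h, nb s p.1 * nb t p.2 = nb (s + t) h := by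
  induction h with
  | zero => simp [nb]
  | succ h ih =>
    have h0 : (h : ℝ) + 1 ≠ 0 := by positivity
    refine mul_left_cancel₀ h0 ?_
    have e1 : ∑ p ∈ antidiagonal (h + 1), (p.1 : ℝ) * nb s p.1 * nb t p.2 =
        ∑ p ∈ antidiagonal h, (s + p.1) * nb s p.1 * nb t p.2 := by
      rw [Nat.sum_antidiagonal_succ]
      simp only [Nat.cast_zero, zero_mul, zero_add, Nat.cast_add, Nat.cast_one, nb_succ]
    have e2 : ∑ p ∈ antidiagonal (h + 1), nb s p.1 * ((p.2 : ℝ) * nb t p.2) =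
        ∑ p ∈ antidiagonal h, nb s p.1 * ((t + p.2) * nb t p.2) := by
      rw [Nat.sum_antidiagonal_succ']
      simp only [Nat.cast_zero, zero_mul, mul_zero, zero_add, Nat.cast_add, Nat.cast_one, nb_succ]
    rw [nb_succ, ← ih, mul_sum, mul_sum]
    calc _ = ∑ p ∈ antidiagonal (h + 1),
          ((p.1 : ℝ) * nb s p.1 * nb t p.2 + nb s p.1 * ((p.2 : ℝ) * nb t p.2)) := by
          refine sum_congr rfl fun p hp => ?_
          have : (p.1 : ℝ) + p.2 = h + 1 := by exact_mod_cast mem_antidiagonal.1 hp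
          rw [← this]
          ring
      _ = _ := by
          rw [sum_add_distrib, e1, e2, ← sum_add_distrib]
          refine sum_congr rfl fun p hp => ?_
          have : (p.1 : ℝ) + p.2 = h := by exact_mod_cast mem_antidiagonal.1 hp
          rw [← this]
          ring

theorem nb_nat (n h : ℕ) : nb (n + 1) h = (h + n).choose n := by
  induction h with
  | zero => simp [nb]
  | succ h ih =>
    have h0 : (h : ℝ) + 1 ≠ 0 := by positivity
    refine mul_left_cancel₀ h0 ?_
    rw [nb_succ, ih]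
    have e := Nat.choose_mul_succ_eq (h + n) n
    have e2 : h + n + 1 - n = h + 1 := by omega
    rw [e2] at e
    have e3 : ((h + n).choose n : ℝ) * (h + n + 1) = (h + n + 1).choose n * (h + 1) := by
      exact_mod_cast e
    rw [show h + 1 + n = h + n + 1 by ring]
    linarith

theorem nb_mono_right {s : ℝ} (hs : 1 ≤ s) : Monotone (nb s) := by
  refine monotone_nat_of_le_succ fun h => ?_
  have h0 : (0 : ℝ) < h + 1 := by positivity
  refine le_of_mul_le_mul_left ?_ h0
  rw [nb_succ]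
  exact mul_le_mul_of_nonneg_right (by linarith) (nb_pos (by linarith) h).le

/-- Half a step in `s` multiplies by at least `sqrt ((s + h) / s)`. -/
theorem nb_half_sq {s : ℝ} (hs : 0 < s) (h : ℕ) :
    nb s h ^ 2 * (s + h) ≤ nb (s + 1 / 2) h ^ 2 * s := by
  induction h with
  | zero => simp [nb]
  | succ h ih =>
    have h0 : (0 : ℝ) < ((h : ℝ) + 1) ^ 2 := by positivity
    refine le_of_mul_le_mul_left ?_ h0
    have e1 : ((h : ℝ) + 1) ^ 2 * (nb s (h + 1) ^ 2 * (s + (h + 1 : ℕ))) =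
        (nb s h ^ 2 * (s + h)) * ((s + h) * (s + h + 1)) := by
      rw [← mul_assoc, ← mul_pow, nb_succ]
      push_cast
      ring
    have e2 : ((h : ℝ) + 1) ^ 2 * (nb (s + 1 / 2) (h + 1) ^ 2 * s) =
        (nb (s + 1 / 2) h ^ 2 * s) * (s + 1 / 2 + h) ^ 2 := by
      rw [← mul_assoc, ← mul_pow, nb_succ]
      ring
    rw [e1, e2]
    exact mul_le_mul ih (by nlinarith) (by positivity) (by positivity)

theorem cw_zero : cw 0 = 1 := rfl

theorem cw_one : cw 1 = 1 / 2 := by norm_num [cw, nb]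

theorem cw_pos (x : ℕ) : 0 < cw x := nb_pos (by norm_num) x

/-- W1. -/
theorem cw_succ (x : ℕ) : ((x : ℝ) + 1) * cw (x + 1) = (1 / 2 + x) * cw x := nb_succ _ x

/-- W2. -/
theorem cw_conv (n : ℕ) : ∑ p ∈ antidiagonal n, cw p.1 * cw p.2 = 1 := by
  unfold cw
  rw [nb_conv, add_halves, nb_one]

theorem cw_conv_range (n : ℕ) : ∑ a ∈ range (n + 1), cw a * cw (n - a) = 1 := by
  rw [← cw_conv n, Nat.sum_antidiagonal_eq_sum_range_succ_mk]

theorem cw_anti : Antitone cw := by
  refine antitone_nat_of_succ_le fun h => ?_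
  have h0 : (0 : ℝ) < h + 1 := by positivity
  refine le_of_mul_le_mul_left ?_ h0
  rw [cw_succ]
  exact mul_le_mul_of_nonneg_right (by linarith) (cw_pos h).le

theorem cw_le_one (x : ℕ) : cw x ≤ 1 := cw_anti (Nat.zero_le x)

/-- W3, upper bound. -/
theorem cw_sq_le (x : ℕ) : cw x ^ 2 * (2 * x + 1) ≤ 1 := by
  have := nb_half_sq (s := 1 / 2) (by norm_num) x
  rw [add_halves, nb_one] at this
  unfold cw
  linarith

/-- W3, lower bound. -/
theorem le_cw_sq {x : ℕ} (hx : 1 ≤ x) : 1 ≤ cw x ^ 2 * (4 * x) := by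
  induction x, hx using Nat.le_induction with
  | base => norm_num [cw_one]
  | succ x hx ih =>
    have h0 : (0 : ℝ) < ((x : ℝ) + 1) ^ 2 := by positivity
    refine le_of_mul_le_mul_left ?_ h0
    have e1 : ((x : ℝ) + 1) ^ 2 * (cw (x + 1) ^ 2 * (4 * (x + 1 : ℕ))) =
        cw x ^ 2 * ((1 / 2 + x) ^ 2 * (4 * (x + 1))) := by
      rw [← mul_assoc, ← mul_pow, cw_succ]
      push_cast
      ring
    have e2 : cw x ^ 2 * (4 * x * (x + 1) ^ 2) ≤ cw x ^ 2 * ((1 / 2 + x) ^ 2 * (4 * (x + 1))) :=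
      mul_le_mul_of_nonneg_left (by nlinarith [Nat.cast_nonneg (α := ℝ) x]) (sq_nonneg _)
    rw [e1]
    nlinarith [mul_le_mul_of_nonneg_right ih h0.le]

theorem cw_eq (x : ℕ) : cw x = x.centralBinom / 4 ^ x := by
  induction x with
  | zero => simp [cw_zero]
  | succ x ih =>
    have h0 : (x : ℝ) + 1 ≠ 0 := by positivity
    refine mul_left_cancel₀ h0 ?_
    have e : ((x : ℝ) + 1) * (x + 1).centralBinom = 2 * (2 * x + 1) * x.centralBinom := by
      exact_mod_cast Nat.succ_mul_centralBinom_succ x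
    rw [cw_succ, ih, ← mul_div_assoc, ← mul_div_assoc, e, pow_succ]
    field_simp
    ring

/-- Partial sums of the weights. -/
theorem sum_cw_le (n : ℕ) : (∑ x ∈ range n, cw x) ^ 2 ≤ 2 * n := by
  have key : ∀ n : ℕ, ∑ x ∈ range n, cw x = 2 * n * cw n := by
    intro n
    induction n with
    | zero => simp
    | succ n ih =>
      rw [sum_range_succ, ih]
      have := cw_succ n
      push_cast
      linarith
  rw [key]
  have h1 := cw_sq_le n
  have h2 : (0 : ℝ) ≤ n := Nat.cast_nonneg n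
  nlinarith [mul_le_mul_of_nonneg_left h1 h2, mul_nonneg h2 (sq_nonneg (cw n))]

end Pool.Agent.P.MP_d5a1e1_nt.TB.Lab
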