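import Pool.Agent.P.MP_d5a1e1_nt.Choice

/-! A basis of order two with `O(log n / log log n)` representations. -/

namespace Pool.Agent.P.MP_d5a1e1_nt.Thin

open Finset

lemma Nice.B_range {par : ℕ → Par} (h : Nice par) {i : ℕ} (hi : 3 ≤ i)
    {ω : ZMod (par i).p → ZMod (par i).q × ZMod (par i).q} {a : ℕ} (ha : a ∈ (par i).B ω) :
    2 ^ (8 * i) ≤ a ∧ a < 2 ^ (8 * i + 22) := by
  obtain ⟨a1, a2⟩ := (par i).B_bounds ha
  obtain ⟨a3, a4⟩ := h.N hi
  refine ⟨a3.trans a1, a2.trans_le ?_⟩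
  calc _ ≤ 2 ^ 17 * 2 ^ (8 * i + 5) := Nat.mul_le_mul_left _ a4
    _ = _ := by ring

lemma scale_count {par : ℕ → Par} (h : Nice par) {I : ℕ} (hI : 16 ^ 24 ≤ I)
    (ω : ∀ s : (Σ j, ZMod (par j).p), ZMod (par s.1).q × ZMod (par s.1).q)
    (hω : ∀ i, I ≤ i → ∀ n < 2 ^ (8 * i + 23), ∀ l : Lay,
        ∑ s ∈ (mid I i).sigma (fun j => (univ : Finset (ZMod (par j).p))),
          hit (par s.1) (Cand (par i) (par s.1) (fun Y => ω ⟨i, Y⟩) n l s.2) l.2.1 (ω s) < TT i)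
    (i n : ℕ) (hi : 2 * I + 2 ≤ i) (hn : n < 2 ^ (8 * i + 23)) (u : Finset (ℕ × ℕ))
    (hu : ∀ y ∈ u, y.1 ∈ (par i).B (fun X => ω ⟨i, X⟩) ∧
      (y.2 < 2 ^ (8 * I + 8) ∨ ∃ j, I ≤ j ∧ j ≤ i ∧ y.2 ∈ (par j).B (fun X => ω ⟨j, X⟩)) ∧
      y.1 + y.2 = n) : u.card ≤ 2 ^ 54 + 2 ^ 24 * TT i := by
  classical
  have hI3 : 3 ≤ I := le_trans (by norm_num) hI
  have hsub : u ⊆ u.filter (fun y => y.2 ∈ (par i).B (fun X => ω ⟨i, X⟩)) ∪
      u.filter (fun y => y.2 ≤ (par i).D) ∪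
      u.filter (fun y => ∃ j ∈ mid I i, y.2 ∈ (par j).B (fun X => ω ⟨j, X⟩)) := by
    intro y hy
    obtain ⟨-, h2, -⟩ := hu y hy
    obtain ⟨d1, -⟩ := h.D (i := i) (by omega)
    simp only [mem_union, mem_filter]
    rcases h2 with h2 | ⟨j, hj1, hj2, h2⟩
    · exact Or.inl (Or.inr ⟨hy, h2.le.trans ((pw_le (by omega)).trans d1)⟩)
    · rcases hj2.lt_or_eq with hj | rfl
      · by_cases hm : 4 * i < 8 * j + 22
        · exact Or.inr ⟨hy, j, mem_filter.2 ⟨mem_range.2 hj, hj1, hm⟩, h2⟩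
        · have := (h.B_range (by omega) h2).2
          exact Or.inl (Or.inr ⟨hy, this.le.trans ((pw_le (by omega)).trans d1)⟩)
      · exact Or.inl (Or.inl ⟨hy, h2⟩)
  have c1 := (par i).same (fun X => ω ⟨i, X⟩) n
    (u.filter (fun y => y.2 ∈ (par i).B (fun X => ω ⟨i, X⟩))) (fun y hy =>
      ⟨(hu y (mem_filter.1 hy).1).1, (mem_filter.1 hy).2, (hu y (mem_filter.1 hy).1).2.2⟩)
  have c2 : (u.filter (fun y => y.2 ≤ (par i).D)).card ≤ 2 ^ 25 := by
    have hinj : Set.InjOn (fun y : ℕ × ℕ => y.1) (u.filter (fun y => y.2 ≤ (par i).D)) := by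
      intro y hy y' hy' e
      have a1 := (hu y (mem_filter.1 hy).1).2.2
      have a2 := (hu y' (mem_filter.1 hy').1).2.2
      simp only at e
      exact Prod.ext e (by omega)
    rw [← card_image_of_injOn hinj]
    refine (par i).window (fun X => ω ⟨i, X⟩) _ ?_ ?_
    · intro a ha
      obtain ⟨y, hy, rfl⟩ := mem_image.1 ha
      exact (hu y (mem_filter.1 hy).1).1
    · intro a ha a' ha'
      obtain ⟨y, hy, rfl⟩ := mem_image.1 ha
      obtain ⟨y', hy', rfl⟩ := mem_image.1 ha'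
      have a1 := (hu y (mem_filter.1 hy).1).2.2
      have a2 := (hu y' (mem_filter.1 hy').1).2.2
      have a3 := (mem_filter.1 hy).2
      omega
  have c3 := mid_card (par i) (fun X => ω ⟨i, X⟩) par ω (mid I i) n
    (u.filter (fun y => ∃ j ∈ mid I i, y.2 ∈ (par j).B (fun X => ω ⟨j, X⟩))) (fun y hy =>
      ⟨(hu y (mem_filter.1 hy).1).1, (mem_filter.1 hy).2, (hu y (mem_filter.1 hy).1).2.2⟩)
  have c4 := c3.trans (sum_le_card_nsmul _ _ (TT i) (fun l _ => (hω i (by omega) n hn l).le))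
  rw [card_univ, smul_eq_mul] at c4
  have c5 := c4.trans (Nat.mul_le_mul_right _ card_lay)
  have c6 := (card_le_card hsub).trans
    ((card_union_le _ _).trans (Nat.add_le_add_right (card_union_le _ _) _))
  omega

lemma log_low {a n : ℕ} (h : 2 ^ a ≤ n) : (a : ℝ) / 2 ≤ Real.log n := by
  have b1 : ((2 : ℝ) ^ a) ≤ n := by exact_mod_cast h
  have b2 := Real.log_le_log (by positivity) b1
  rw [Real.log_pow] at b2
  have l2 := Real.log_two_gt_d9
  have b3 : (a : ℝ) * (1 / 2) ≤ (a : ℝ) * Real.log 2 :=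
    mul_le_mul_of_nonneg_left (by linarith only [l2]) (by positivity)
  linarith only [b2, b3]

lemma log_up {a : ℕ} {x : ℝ} (h0 : 0 < x) (h : x ≤ 2 ^ a) : Real.log x ≤ a := by
  have b2 := Real.log_le_log h0 h
  rw [Real.log_pow] at b2
  have l2 := Real.log_two_lt_d9
  have b3 : (a : ℝ) * Real.log 2 ≤ (a : ℝ) * 1 :=
    mul_le_mul_of_nonneg_left (by linarith only [l2]) (by positivity)
  linarith only [b2, b3]

lemma asym {i n : ℕ} (hi : 16 ^ 24 ≤ i) (h1 : 2 ^ (8 * i) ≤ n) (h2 : n < 2 ^ (8 * i + 23)) :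
    ((2 ^ 54 + 2 ^ 24 * TT i : ℕ) : ℝ) ≤ 2 ^ 70 * (Real.log n / Real.log (Real.log n)) := by
  obtain ⟨e1, -, e3⟩ := ee_spec hi
  have hi3 : 3 ≤ i := le_trans (by norm_num) hi
  have r3 : (3 : ℝ) ≤ i := by exact_mod_cast hi3
  have hn0 : (0 : ℝ) < n := by
    have : 0 < n := lt_of_lt_of_le (by positivity) h1
    exact_mod_cast this
  have a1 : (i : ℝ) ≤ Real.log n := by
    have b1 := log_low h1
    push_cast at b1
    linarith only [b1, r3]
  have a2 : Real.log n ≤ 16 * i := by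
    have b1 : (n : ℝ) ≤ (2 : ℝ) ^ (8 * i + 23) := by exact_mod_cast h2.le
    have b2 := log_up hn0 b1
    push_cast at b2
    linarith only [b2, r3]
  have a3 : 0 < Real.log (Real.log n) := Real.log_pos (by linarith only [a1, r3])
  have re : (24 : ℝ) ≤ ee i := by exact_mod_cast e1
  have a4 : Real.log (Real.log n) ≤ 6 * ee i := by
    have b1 : (16 * i : ℝ) ≤ 2 ^ (4 * (ee i + 2)) := by
      have : 16 * i ≤ 2 ^ (4 * (ee i + 2)) := by
        rw [pow_mul, show 2 ^ 4 = 16 by norm_num, pow_succ' 16 (ee i + 1)]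
        exact Nat.mul_le_mul_left _ e3.le
      exact_mod_cast this
    have b2 := log_up (by linarith only [a1, r3]) (a2.trans b1)
    push_cast at b2
    linarith only [b2, re]
  have a5 : 1 ≤ Real.log n / Real.log (Real.log n) := by
    rw [one_le_div a3]
    exact (Real.log_le_sub_one_of_pos (by linarith only [a1, r3])).trans (by linarith only [])
  have a6 : (i : ℝ) / ee i ≤ 6 * (Real.log n / Real.log (Real.log n)) := by
    rw [← mul_div_assoc, div_le_div_iff₀ (by linarith only [re]) a3]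
    calc (i : ℝ) * Real.log (Real.log n) ≤ Real.log n * (6 * ee i) :=
          mul_le_mul a1 a4 a3.le (by linarith only [a1, r3])
      _ = _ := by ring
  have a7 : (TT i : ℝ) ≤ 2 ^ 41 * ((i : ℝ) / ee i) + 1 := by
    unfold TT
    have := Nat.cast_div_le (α := ℝ) (m := 2 ^ 41 * i) (n := ee i)
    rw [Nat.cast_mul, Nat.cast_pow, Nat.cast_ofNat] at this
    rw [← mul_div_assoc, Nat.cast_add, Nat.cast_one]
    exact add_le_add this le_rfl
  rw [Nat.cast_add, Nat.cast_mul, Nat.cast_pow, Nat.cast_pow, Nat.cast_ofNat]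
  linarith only [a5, a6, a7]

theorem thin_basis : ∃ A : Set ℕ, (∀ n : ℕ, ∃ a ∈ A, ∃ b ∈ A, a + b = n) ∧
    ∃ C : ℝ, ∃ N : ℕ, ∀ n : ℕ, N ≤ n →
      (Set.ncard {y : ℕ × ℕ | y.1 ∈ A ∧ y.2 ∈ A ∧ y.1 + y.2 = n} : ℝ) ≤
        C * (Real.log n / Real.log (Real.log n)) := by
  classical
  obtain ⟨par, hpar⟩ := exists_par
  have h : Nice par := hpar
  obtain ⟨I, hI⟩ : ∃ I : ℕ, 16 ^ 24 ≤ I := ⟨_, le_rfl⟩
  have hI3 : 3 ≤ I := le_trans (by norm_num) hI
  obtain ⟨ω, hω⟩ := h.exists_shift hI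
  refine ⟨{a | a < 2 ^ (8 * I + 8) ∨ ∃ i, I ≤ i ∧ a ∈ (par i).B (fun X => ω ⟨i, X⟩)}, ?_,
    8 * 2 ^ 70, 2 ^ (16 * I + 39), ?_⟩
  · intro n
    by_cases hn : n < 2 ^ (8 * I + 8)
    · exact ⟨n, Or.inl hn, 0, Or.inl (by positivity), rfl⟩
    have hn0 : n ≠ 0 := by
      have : 0 < 2 ^ (8 * I + 8) := by positivity
      omega
    have a1 := Nat.pow_log_le_self 2 hn0
    have a2 := Nat.lt_pow_succ_log_self (b := 2) (by norm_num) n
    have a3 : 8 * I + 8 ≤ Nat.log 2 n := Nat.le_log_of_pow_le (by norm_num) (by omega)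
    obtain ⟨i, hi⟩ : ∃ i, i + 1 = Nat.log 2 n / 8 := ⟨Nat.log 2 n / 8 - 1, by omega⟩
    obtain ⟨b1, b2⟩ := h.N (i := i) (by omega)
    obtain ⟨a, ha, b, hb, e⟩ := (par i).cover (fun X => ω ⟨i, X⟩) n (by
      have c1 : 2 ^ (8 * i + 5 + 3) ≤ 2 ^ Nat.log 2 n := pw_le (by omega)
      rw [pow_add] at c1
      omega) (by
      have c1 : 2 ^ (Nat.log 2 n).succ ≤ 2 ^ (8 * i + 16) := pw_le (by omega)
      rw [pow_add _ (8 * i)] at c1
      omega)
    exact ⟨a, Or.inr ⟨i, by omega, ha⟩, b, Or.inr ⟨i, by omega, hb⟩, e⟩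
  · intro n hn
    have hn0 : n ≠ 0 := by
      have : 0 < 2 ^ (16 * I + 39) := by positivity
      omega
    have a1 := Nat.pow_log_le_self 2 hn0
    have a2 := Nat.lt_pow_succ_log_self (b := 2) (by norm_num) n
    have a3 : 16 * I + 39 ≤ Nat.log 2 n := Nat.le_log_of_pow_le (by norm_num) hn
    set A : Set ℕ := {a | a < 2 ^ (8 * I + 8) ∨ ∃ i, I ≤ i ∧ a ∈ (par i).B (fun X => ω ⟨i, X⟩)}
      with hA
    have hfin : {y : ℕ × ℕ | y.1 ∈ A ∧ y.2 ∈ A ∧ y.1 + y.2 = n}.Finite :=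
      (antidiagonal n).finite_toSet.subset fun y hy =>
        mem_coe.2 (HasAntidiagonal.mem_antidiagonal.2 hy.2.2)
    rw [Set.ncard_eq_toFinset_card _ hfin]
    have ht : ∀ y ∈ hfin.toFinset, y.1 ∈ A ∧ y.2 ∈ A ∧ y.1 + y.2 = n :=
      fun y hy => hfin.mem_toFinset.1 hy
    generalize hfin.toFinset = t at ht
    let P : ℕ → ℕ × ℕ → Prop := fun i y => y.1 ∈ (par i).B (fun X => ω ⟨i, X⟩) ∧
      (y.2 < 2 ^ (8 * I + 8) ∨ ∃ j, I ≤ j ∧ j ≤ i ∧ y.2 ∈ (par j).B (fun X => ω ⟨j, X⟩)) ∧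
      y.1 + y.2 = n
    let J : Finset ℕ := (Icc (Nat.log 2 n / 8 - 3) (Nat.log 2 n / 8)).filter
      (fun i => 2 * I + 2 ≤ i ∧ 2 ^ (8 * i) ≤ n ∧ n < 2 ^ (8 * i + 23))
    have hJ : ∀ i y, I ≤ i → P i y → i ∈ J := by
      rintro i y hi ⟨p1, p2, p3⟩
      obtain ⟨b1, b2⟩ := h.B_range (by omega) p1
      have b3 : y.2 < 2 ^ (8 * i + 22) := by
        rcases p2 with p2 | ⟨j, hj1, hj2, p2⟩
        · exact p2.trans_le (pw_le (by omega))
        · exact (h.B_range (by omega) p2).2.trans_le (pw_le (by omega))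
      have b4 : n < 2 ^ (8 * i + 23) := by rw [pow_succ]; omega
      have b5 : 2 ^ (8 * i) ≤ n := by omega
      have b6 : 8 * i ≤ Nat.log 2 n := Nat.le_log_of_pow_le (by norm_num) b5
      have b7 : Nat.log 2 n < 8 * i + 23 := Nat.log_lt_of_lt_pow hn0 b4
      exact mem_filter.2 ⟨mem_Icc.2 ⟨by omega, by omega⟩, by omega, b5, b4⟩
    have hsub : t ⊆ J.biUnion (fun i => t.filter (fun y => P i y) ∪ t.filter (fun y => P i y.swap)) := by
      intro y hy
      obtain ⟨h1, h2, h3⟩ := ht y hy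
      have key : ∃ i, I ≤ i ∧ (P i y ∨ P i y.swap) := by
        rcases h1 with h1 | ⟨i, hi, h1⟩
        · rcases h2 with h2 | ⟨j, hj, h2⟩
          · exfalso
            have : 2 ^ (8 * I + 8 + 1) ≤ 2 ^ (16 * I + 39) := pw_le (by omega)
            rw [pow_succ] at this
            omega
          · exact ⟨j, hj, Or.inr ⟨h2, Or.inl h1, by simp only [Prod.fst_swap, Prod.snd_swap]; omega⟩⟩
        · rcases h2 with h2 | ⟨j, hj, h2⟩
          · exact ⟨i, hi, Or.inl ⟨h1, Or.inl h2, h3⟩⟩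
          · rcases le_total j i with hji | hji
            · exact ⟨i, hi, Or.inl ⟨h1, Or.inr ⟨j, hj, hji, h2⟩, h3⟩⟩
            · exact ⟨j, hj, Or.inr ⟨h2, Or.inr ⟨i, hi, hji, h1⟩,
                by simp only [Prod.fst_swap, Prod.snd_swap]; omega⟩⟩
      obtain ⟨i, hi, hP⟩ := key
      refine mem_biUnion.2 ⟨i, hP.elim (hJ i _ hi) (hJ i _ hi), ?_⟩
      rcases hP with hP | hP
      · exact mem_union_left _ (mem_filter.2 ⟨hy, hP⟩)
      · exact mem_union_right _ (mem_filter.2 ⟨hy, hP⟩)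
    have c1 := (card_le_card hsub).trans card_biUnion_le
    have c2 : ∀ i ∈ J, ((t.filter (fun y => P i y) ∪ t.filter (fun y => P i y.swap)).card : ℝ) ≤
        2 * (2 ^ 70 * (Real.log n / Real.log (Real.log n))) := by
      intro i hi
      obtain ⟨-, d1, d2, d3⟩ := mem_filter.1 hi
      have d4 := scale_count h hI ω hω i n d1 d3 (t.filter (fun y => P i y))
        (fun y hy => (mem_filter.1 hy).2)
      have d5 := scale_count h hI ω hω i n d1 d3 ((t.filter (fun y => P i y.swap)).image Prod.swap)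
        (fun y hy => by
          obtain ⟨z, hz, rfl⟩ := mem_image.1 hy
          exact (mem_filter.1 hz).2)
      rw [card_image_of_injective _ Prod.swap_injective] at d5
      have d6 := (card_union_le _ _).trans (Nat.add_le_add d4 d5)
      have d7 := asym (i := i) (n := n) (by omega) d2 d3
      have d8 := (Nat.cast_le (α := ℝ)).2 d6
      rw [Nat.cast_add] at d8
      exact d8.trans (by rw [two_mul]; exact add_le_add d7 d7)
    have c3 : J.card ≤ 4 := (card_filter_le _ _).trans (by rw [Nat.card_Icc]; omega)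
    have c4 := (Nat.cast_le (α := ℝ)).2 c1
    rw [Nat.cast_sum] at c4
    have c5 := c4.trans (sum_le_card_nsmul _ _ _ c2)
    rw [nsmul_eq_mul] at c5
    have c6 : (J.card : ℝ) ≤ 4 := by exact_mod_cast c3
    have c7 : 0 ≤ Real.log n / Real.log (Real.log n) := by
      have b2 := log_low (a := 39) ((pw_le (by omega)).trans hn)
      push_cast at b2
      exact div_nonneg (by linarith only [b2]) (Real.log_nonneg (by linarith only [b2]))
    have c8 := mul_le_mul_of_nonneg_right c6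
      (show 0 ≤ 2 * (2 ^ 70 * (Real.log n / Real.log (Real.log n))) by positivity)
    linarith only [c5, c8]

end Pool.Agent.P.MP_d5a1e1_nt.Thin
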