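import Pool.Agent.P.MP_d5a1e1_nt.FourAll

theorem Pool.Agent.P.MP_d5a1e1_nt.VariantFourAllOrders.result :
    ∀ h : ℕ, 2 ≤ h → ∀ A : Set ℕ,
      (∃ N : ℕ, ∀ n : ℕ, N ≤ n →
        ∃ s : Multiset ℕ, Multiset.card s = h ∧ (∀ a ∈ s, a ∈ A) ∧ s.sum = n) →
      ∀ N : ℕ, ∃ n : ℕ, N ≤ n ∧
        4 ≤ Set.ncard {s : Multiset ℕ | Multiset.card s = h ∧ (∀ a ∈ s, a ∈ A) ∧ s.sum = n} :=
  Pool.Agent.P.MP_d5a1e1_nt.four_all
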