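import Mathlib
import Pool.Agent.P.MP_d5a1e1_nt.GapMain

set_option autoImplicit false

namespace Pool.Agent.P.MP_d5a1e1_nt.VariantGapAllOrders

/-- A gap inequality for bounded unordered representation functions of every order. -/
theorem result : ∀ h : ℕ, 2 ≤ h → ∀ (A : Set ℕ) (a b : ℕ),
    (∃ N : ℕ, ∀ n : ℕ, N ≤ n →
      Set.ncard {s : Multiset ℕ | Multiset.card s = h ∧ (∀ x ∈ s, x ∈ A) ∧ s.sum = n} ≤ b) →
    4 * (a : ℝ) * b * (1 - Filter.limsup (fun N : ℕ => (Set.ncard {n : ℕ | n < N ∧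
        Set.ncard {s : Multiset ℕ | Multiset.card s = h ∧ (∀ x ∈ s, x ∈ A) ∧ s.sum = n} < a} : ℝ)
          / N) Filter.atTop) ≤
      ((a : ℝ) + b - (1 - 1 / (h.choose (h / 2) : ℝ))) ^ 2 :=
  Pool.Agent.P.MP_d5a1e1_nt.Gap.main

end Pool.Agent.P.MP_d5a1e1_nt.VariantGapAllOrders
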