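import Pool.Agent.P.MP_d5a1e1_nt.Quad

/-! Lower bound for the window form on the sum side (projection on two Laguerre modes). -/

namespace Pool.Agent.P.MP_d5a1e1_nt

open Finset

lemma geo_bounds {u : ℝ} (hu : 0 < u) :
    0 < 1 - Real.exp (-u) ∧ 1 ≤ u / (1 - Real.exp (-u)) ∧ u / (1 - Real.exp (-u)) ≤ 1 + u := by
  have h1 : Real.exp (-u) < 1 := Real.exp_lt_one_iff.2 (by linarith)
  have h2 := Real.add_one_le_exp (-u)
  have h3 := Real.add_one_le_exp u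
  have h4 : Real.exp (-u) * Real.exp u = 1 := by rw [← Real.exp_add]; simp
  have h5 := Real.exp_pos (-u)
  have h0 : 0 < 1 - Real.exp (-u) := by linarith
  refine ⟨h0, ?_, ?_⟩
  · rw [le_div_iff₀ h0]; linarith
  · rw [div_le_iff₀ h0]; nlinarith

lemma exp_pow_nat (u : ℝ) (n : ℕ) : Real.exp (-u) ^ n = Real.exp (-(u * n)) := by
  rw [← Real.exp_nat_mul]; congr 1; ring

lemma geo_sum_le {u : ℝ} (hu : 0 < u) (M : ℕ) :
    u * ∑ m ∈ range M, Real.exp (-(u * m)) ≤ 1 + u := by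
  obtain ⟨g0, -, g2⟩ := geo_bounds hu
  have H0 := hasSum_geometric_of_lt_one (Real.exp_pos (-u)).le (by linarith)
  have := sum_le_hasSum (range M) (fun i _ => by positivity) H0
  simp only [exp_pow_nat] at this
  calc _ ≤ u * (1 - Real.exp (-u))⁻¹ := mul_le_mul_of_nonneg_left this hu.le
    _ ≤ _ := by rw [← div_eq_mul_inv]; exact g2

lemma geo_sum_ge {u : ℝ} (hu : 0 < u) (M : ℕ) :
    1 - Real.exp (-(u * M)) ≤ u * ∑ m ∈ range M, Real.exp (-(u * m)) := by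
  obtain ⟨g0, g1, -⟩ := geo_bounds hu
  have h := mul_neg_geom_sum (Real.exp (-u)) M
  simp only [exp_pow_nat] at h
  have hs : 0 ≤ ∑ m ∈ range M, Real.exp (-(u * m)) := sum_nonneg fun _ _ => by positivity
  rw [le_div_iff₀ g0] at g1
  nlinarith

lemma lag_sum_le {u : ℝ} (hu : 0 < u) (hu1 : u ≤ 1) (c0 c1 : ℝ) (M : ℕ) :
    u * ∑ m ∈ range M, (c0 + c1 * (1 - u * m)) ^ 2 * Real.exp (-(u * m)) ≤
      (1 + 30 * u) * (c0 ^ 2 + c1 ^ 2) := by
  obtain ⟨g0, g1, g2⟩ := geo_bounds hu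
  have hr : ‖Real.exp (-u)‖ < 1 := by
    rw [Real.norm_eq_abs, abs_of_pos (Real.exp_pos _)]; linarith
  have H0 := hasSum_choose_mul_geometric_of_norm_lt_one 0 hr
  have H1 := hasSum_choose_mul_geometric_of_norm_lt_one 1 hr
  have H2 := hasSum_choose_mul_geometric_of_norm_lt_one 2 hr
  set z := 1 / (1 - Real.exp (-u)) with hz
  have e0 : 1 / (1 - Real.exp (-u)) ^ (0 + 1) = z := by rw [hz]; simp
  have e1 : 1 / (1 - Real.exp (-u)) ^ (1 + 1) = z ^ 2 := by rw [hz]; simp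
  have e2 : 1 / (1 - Real.exp (-u)) ^ (2 + 1) = z ^ 3 := by rw [hz]; simp
  rw [e0] at H0; rw [e1] at H1; rw [e2] at H2
  have H := ((H0.mul_left ((c0 + c1) ^ 2 + 2 * (c0 + c1) * c1 * u + c1 ^ 2 * u ^ 2)).add
    (H1.mul_left (-2 * (c0 + c1) * c1 * u - 3 * c1 ^ 2 * u ^ 2))).add
    (H2.mul_left (2 * c1 ^ 2 * u ^ 2))
  have hf : (fun n : ℕ => ((c0 + c1) ^ 2 + 2 * (c0 + c1) * c1 * u + c1 ^ 2 * u ^ 2) *
      (((n + 0).choose 0 : ℕ) * Real.exp (-u) ^ n) +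
      (-2 * (c0 + c1) * c1 * u - 3 * c1 ^ 2 * u ^ 2) *
      (((n + 1).choose 1 : ℕ) * Real.exp (-u) ^ n) +
      2 * c1 ^ 2 * u ^ 2 * (((n + 2).choose 2 : ℕ) * Real.exp (-u) ^ n)) =
      fun n : ℕ => (c0 + c1 * (1 - u * n)) ^ 2 * Real.exp (-(u * n)) := by
    funext n
    rw [exp_pow_nat, Nat.cast_choose_two]
    simp only [Nat.choose_zero_right, Nat.choose_one_right]
    push_cast
    ring
  rw [hf] at H
  have h := sum_le_hasSum (range M) (fun i _ => by positivity) H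
  have hw : u / (1 - Real.exp (-u)) = u * z := by rw [hz]; ring
  rw [hw] at g1 g2
  refine (mul_le_mul_of_nonneg_left h hu.le).trans ?_
  set w := u * z with hw'
  have e : u * (((c0 + c1) ^ 2 + 2 * (c0 + c1) * c1 * u + c1 ^ 2 * u ^ 2) * z +
      (-2 * (c0 + c1) * c1 * u - 3 * c1 ^ 2 * u ^ 2) * z ^ 2 + 2 * c1 ^ 2 * u ^ 2 * z ^ 3) =
      c0 ^ 2 * w + 2 * c0 * c1 * (w * (1 + u - w)) +
        c1 ^ 2 * (w - 2 * w ^ 2 + 2 * u * w + 2 * w ^ 3 - 3 * u * w ^ 2 + u ^ 2 * w) := by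
    rw [hw']; ring
  rw [e]
  have a1 : 0 ≤ w * (1 + u - w) := mul_nonneg (by linarith) (by linarith)
  have a2 : w * (1 + u - w) ≤ 2 * u := by nlinarith
  have w2 : 1 ≤ w ^ 2 := by nlinarith
  have w3 : w ^ 3 ≤ 1 + 7 * u := by
    have : w ^ 3 ≤ (1 + u) ^ 3 := pow_le_pow_left₀ (by linarith) g2 3
    nlinarith [mul_nonneg hu.le (sub_nonneg.2 hu1), mul_nonneg (mul_nonneg hu.le hu.le)
      (sub_nonneg.2 hu1)]
  have a3 : w - 2 * w ^ 2 + 2 * u * w + 2 * w ^ 3 - 3 * u * w ^ 2 + u ^ 2 * w ≤ 1 + 21 * u := by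
    have b1 : u * w ≤ 2 * u := by nlinarith
    have b2 : 0 ≤ u * w ^ 2 := by positivity
    have b3 : u ^ 2 * w ≤ 2 * u := by nlinarith
    linarith
  have c1' := mul_le_mul_of_nonneg_left a3 (sq_nonneg c1)
  have c0' := mul_le_mul_of_nonneg_left g2 (sq_nonneg c0)
  have c2' : 2 * c0 * c1 * (w * (1 + u - w)) ≤ (c0 ^ 2 + c1 ^ 2) * (2 * u) := by
    have : 2 * c0 * c1 ≤ c0 ^ 2 + c1 ^ 2 := by nlinarith [sq_nonneg (c0 - c1)]
    calc _ ≤ (c0 ^ 2 + c1 ^ 2) * (w * (1 + u - w)) := mul_le_mul_of_nonneg_right this a1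
      _ ≤ _ := mul_le_mul_of_nonneg_left a2 (by positivity)
  nlinarith [mul_nonneg hu.le (sq_nonneg c0), mul_nonneg hu.le (sq_nonneg c1)]

noncomputable def mu (A : Finset ℕ) (u : ℝ) : ℝ := u * Psi A u (fun _ _ => 1)

noncomputable def la (A : Finset ℕ) (u : ℝ) : ℝ := u * Psi A u (fun S _ => 1 - S)

lemma fej_lower (K : ℕ) (hK : 0 < K) (A : Finset ℕ) {u : ℝ} (hu : 0 < u) (hu1 : u ≤ 1) :
    (1 - 2 * (u * K) - 30 * u) * (mu A u ^ 2 + la A u ^ 2) ≤
      u * form (fej K) (A ×ˢ A) sm (wt u) (wt u) := by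
  classical
  have hK' : (0 : ℝ) < K := by exact_mod_cast hK
  set c0 := mu A u with hc0
  set c1 := la A u with hc1
  set M := 2 * A.sup id + K with hM
  let η : ℤ → ℝ := fun m => (c0 + c1 * (1 - u * m)) * Real.exp (-(u * (m / 2)))
  have h := form_fej_test K (A ×ˢ A) sm (wt u) η ((range M).image (fun n : ℕ => (n : ℤ)))
    (fun p hp i hi => by
      refine mem_image.2 ⟨p.1 + p.2 + i, mem_range.2 ?_, by simp [sm]⟩
      have h1 : p.1 ≤ A.sup id := le_sup (f := id) (mem_product.1 hp).1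
      have h2 : p.2 ≤ A.sup id := le_sup (f := id) (mem_product.1 hp).2
      have := mem_range.1 hi
      omega)
  rw [sum_image (fun a _ b _ h => by simpa using h)] at h
  have h2 : ∑ m ∈ range M, η (m : ℕ) ^ 2 =
      ∑ m ∈ range M, (c0 + c1 * (1 - u * m)) ^ 2 * Real.exp (-(u * m)) := by
    refine sum_congr rfl fun m _ => ?_
    simp only [η]
    rw [mul_pow, sq (Real.exp _), ← Real.exp_add]
    push_cast
    congr 2; ring
  rw [h2] at h
  have h3 := lag_sum_le hu hu1 c0 c1 M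
  have h4 : ∀ i ∈ range K, (1 - u * K) * (c0 ^ 2 + c1 ^ 2) ≤
      u * ∑ p ∈ A ×ˢ A, wt u p * η (sm p + i) := by
    intro i hi
    have hi' : (i : ℝ) ≤ K := by exact_mod_cast (mem_range.1 hi).le
    have e : ∑ p ∈ A ×ˢ A, wt u p * η (sm p + i) = Real.exp (-(u * (i / 2))) *
        Psi A u (fun S x => (c0 - c1 * (u * i)) * 1 + c1 * (1 - S)) := by
      unfold Psi
      rw [sum_product]
      simp only [mul_sum]
      refine sum_congr rfl fun a _ => sum_congr rfl fun c _ => ?_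
      simp only [η, wt, sm]
      push_cast
      have : Real.exp (-(u * (((a : ℝ) + c) / 2))) * Real.exp (-(u * (((a : ℝ) + c + i) / 2))) =
          Real.exp (-(u * (i / 2))) * Real.exp (-(u * ((a : ℝ) + c))) := by
        rw [← Real.exp_add, ← Real.exp_add]; congr 1; ring
      linear_combination (c0 + c1 * (1 - u * ((a : ℝ) + c + i))) * this
    rw [e, Psi_lin]
    have e2 : u * (Real.exp (-(u * (i / 2))) * ((c0 - c1 * (u * i)) * Psi A u (fun _ _ => 1) +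
        c1 * Psi A u (fun S _ => 1 - S))) =
        Real.exp (-(u * (i / 2))) * (c0 ^ 2 + c1 ^ 2 - (u * i) * (c0 * c1)) := by
      have a1 : c0 = u * Psi A u (fun _ _ => 1) := hc0
      have a2 : c1 = u * Psi A u (fun S _ => 1 - S) := hc1
      linear_combination (Real.exp (-(u * (i / 2))) * (c0 - c1 * (u * i))) * (-a1) +
        (Real.exp (-(u * (i / 2))) * c1) * (-a2)
    rw [e2]
    have x1 := Real.add_one_le_exp (-(u * (i / 2)))
    have x2 : Real.exp (-(u * (i / 2))) ≤ 1 := Real.exp_le_one_iff.2 (by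
      have : 0 ≤ u * ((i : ℝ) / 2) := by positivity
      linarith)
    have x3 := Real.exp_pos (-(u * (i / 2)))
    set E := Real.exp (-(u * (i / 2)))
    have ui : 0 ≤ u * i := by positivity
    have uK : u * i ≤ u * K := mul_le_mul_of_nonneg_left hi' hu.le
    have y1 : E * (c0 * c1) ≤ (c0 ^ 2 + c1 ^ 2) / 2 := by
      have : c0 * c1 ≤ (c0 ^ 2 + c1 ^ 2) / 2 := by nlinarith [sq_nonneg (c0 - c1)]
      calc E * (c0 * c1) ≤ E * ((c0 ^ 2 + c1 ^ 2) / 2) := mul_le_mul_of_nonneg_left this x3.le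
        _ ≤ 1 * ((c0 ^ 2 + c1 ^ 2) / 2) := mul_le_mul_of_nonneg_right x2 (by positivity)
        _ = _ := one_mul _
    have y2 := mul_le_mul_of_nonneg_left y1 ui
    have y3 : 0 ≤ c0 ^ 2 + c1 ^ 2 := by positivity
    have y4 := mul_le_mul_of_nonneg_right x1 y3
    have y5 := mul_le_mul_of_nonneg_right uK y3
    nlinarith
  have h5 : (1 - u * K) * (c0 ^ 2 + c1 ^ 2) ≤
      u * ((∑ i ∈ range K, ∑ p ∈ A ×ˢ A, wt u p * η (sm p + i)) / K) := by
    rw [← mul_div_assoc, le_div_iff₀ hK', mul_sum]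
    refine le_trans (le_of_eq ?_) (sum_le_sum h4)
    simp; ring
  have h6 := mul_le_mul_of_nonneg_left h hu.le
  nlinarith

end Pool.Agent.P.MP_d5a1e1_nt
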